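import Pool.Agent.Lib.MP_42948a_nt.TS.Defs

/-!
# Densities of sets in a finite group
-/

set_option linter.unusedSectionVars false

namespace Pool.Agent.Lib.MP_42948a_nt.TS

variable {G : Type*} [CommGroup G] [Fintype G]

theorem card_pos : (0 : ℝ) < (Fintype.card G : ℝ) := by
  exact_mod_cast Fintype.card_pos

theorem mu_nonneg (A : Set G) : 0 ≤ mu A := div_nonneg (Nat.cast_nonneg _) card_pos.le

theorem mu_mono {A B : Set G} (h : A ⊆ B) : mu A ≤ mu B := by
  unfold mu
  exact div_le_div_of_nonneg_right (by exact_mod_cast Set.ncard_le_ncard h (Set.toFinite B)) card_pos.le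

theorem mu_union (A B : Set G) : mu (A ∪ B) ≤ mu A + mu B := by
  unfold mu
  rw [← add_div]
  exact div_le_div_of_nonneg_right (by exact_mod_cast Set.ncard_union_le A B) card_pos.le

theorem mu_le_one (A : Set G) : mu A ≤ 1 := by
  unfold mu
  rw [div_le_one card_pos]
  have h1 := Set.ncard_le_ncard (Set.subset_univ A) (Set.toFinite _)
  rw [Set.ncard_univ, Nat.card_eq_fintype_card] at h1
  exact_mod_cast h1

theorem mu_empty : mu (∅ : Set G) = 0 := by
  unfold mu
  rw [Set.ncard_empty, Nat.cast_zero, zero_div]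

theorem mem_tr {p x : G} {A : Set G} : x ∈ tr p A ↔ x * p⁻¹ ∈ A := Iff.rfl

theorem mem_rf {g x : G} {A : Set G} : x ∈ rf g A ↔ g * x⁻¹ ∈ A := Iff.rfl

theorem mu_tr (p : G) (A : Set G) : mu (tr p A) = mu A := by
  unfold mu
  have h1 : tr p A = (fun x => x * p) '' A := by
    ext x
    rw [mem_tr, Set.mem_image]
    refine ⟨fun h => ⟨x * p⁻¹, h, by group⟩, ?_⟩
    rintro ⟨y, hy, rfl⟩
    rwa [mul_inv_cancel_right]
  rw [h1, Set.ncard_image_of_injective _ (mul_left_injective p)]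

theorem rf_rf (g x : G) : g * (g * x⁻¹)⁻¹ = x := by
  rw [mul_inv, inv_inv, mul_inv_cancel_left]

theorem mu_rf (g : G) (A : Set G) : mu (rf g A) = mu A := by
  unfold mu
  have h1 : rf g A = (fun x => g * x⁻¹) '' A := by
    ext x
    rw [mem_rf, Set.mem_image]
    refine ⟨fun h => ⟨g * x⁻¹, h, rf_rf g x⟩, ?_⟩
    rintro ⟨y, hy, rfl⟩
    rwa [rf_rf]
  rw [h1, Set.ncard_image_of_injective _ (fun a b h => inv_injective (mul_right_injective g h))]

/-- union bound for a set covered by two sets -/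
theorem mu_cov2 {A B C : Set G} (h : ∀ x ∈ A, x ∈ B ∨ x ∈ C) : mu A ≤ mu B + mu C :=
  (mu_mono (fun x hx => h x hx)).trans (mu_union B C)

/-- union bound for a set covered by three sets -/
theorem mu_cov3 {A B C D : Set G} (h : ∀ x ∈ A, x ∈ B ∨ x ∈ C ∨ x ∈ D) : mu A ≤ mu B + mu C + mu D := by
  have h1 : mu A ≤ mu B + mu (C ∪ D) := mu_cov2 fun x hx => h x hx
  linarith [mu_union C D]

/-- union bound for a set covered by four sets -/
theorem mu_cov4 {A B C D E : Set G} (h : ∀ x ∈ A, x ∈ B ∨ x ∈ C ∨ x ∈ D ∨ x ∈ E) :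
    mu A ≤ mu B + mu C + mu D + mu E := by
  have h1 : mu A ≤ mu B + mu C + mu (D ∪ E) := mu_cov3 fun x hx => h x hx
  linarith [mu_union D E]

end Pool.Agent.Lib.MP_42948a_nt.TS
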