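import Mathlib

/-!
# Characters of a finite abelian group and the expansion of `exp`
-/

namespace Pool.Agent.Lib.MP_42948a_nt.TS

open Finset

/-- the value of a character of `Additive C` at a class -/
def evc {C : Type*} [CommGroup C] (ψ : AddChar (Additive C) ℂ) (x : C) : ℂ := ψ (Additive.ofMul x)

section
variable {C : Type*} [CommGroup C]

theorem evc_one (ψ : AddChar (Additive C) ℂ) : evc ψ 1 = 1 := by
  unfold evc
  rw [ofMul_one]
  exact ψ.map_zero_eq_one

theorem evc_mul (ψ : AddChar (Additive C) ℂ) (x y : C) : evc ψ (x * y) = evc ψ x * evc ψ y := by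
  unfold evc
  rw [ofMul_mul]
  exact ψ.map_add_eq_mul _ _

theorem evc_zero (x : C) : evc (0 : AddChar (Additive C) ℂ) x = 1 := by
  unfold evc
  simp

theorem evc_prod (ψ : AddChar (Additive C) ℂ) {ι : Type*} (S : Finset ι) (x : ι → C) :
    evc ψ (∏ i ∈ S, x i) = ∏ i ∈ S, evc ψ (x i) := by
  classical
  induction S using Finset.induction_on with
  | empty => simp [evc_one]
  | insert a S ha ih => rw [prod_insert ha, prod_insert ha, evc_mul, ih]

theorem norm_evc [Finite C] (ψ : AddChar (Additive C) ℂ) (x : C) : ‖evc ψ x‖ = 1 := by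
  haveI : Finite (Additive C) := inferInstanceAs (Finite C)
  unfold evc
  exact ψ.norm_apply _

theorem evc_mul_inv (ψ : AddChar (Additive C) ℂ) (x : C) : evc ψ x * evc ψ x⁻¹ = 1 := by
  rw [← evc_mul, mul_inv_cancel, evc_one]

variable [Fintype C]

open Classical in
theorem sum_evc (x : C) :
    ∑ ψ : AddChar (Additive C) ℂ, evc ψ x = if x = 1 then (Fintype.card C : ℂ) else 0 := by
  haveI : Fintype (Additive C) := inferInstanceAs (Fintype C)
  have h := AddChar.sum_apply_eq_ite (α := Additive C) (Additive.ofMul x)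
  unfold evc
  rw [h]
  have e : Fintype.card (Additive C) = Fintype.card C := Fintype.card_congr Additive.toMul
  have e2 : (Additive.ofMul x = 0) ↔ x = 1 := Iff.rfl
  by_cases hx : x = 1
  · rw [if_pos hx, if_pos (e2.mpr hx), e]
  · rw [if_neg hx, if_neg (fun h => hx (e2.mp h))]

open Classical in
theorem coef_pow (a : C → ℂ) (h : C) (n : ℕ) :
    ∑ ψ : AddChar (Additive C) ℂ, evc ψ h⁻¹ * (∑ x, a x * evc ψ x) ^ n =
      (Fintype.card C : ℂ) * ∑ x : Fin n → C with ∏ i, x i = h, ∏ i, a (x i) := by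
  have h1 : ∀ ψ : AddChar (Additive C) ℂ, evc ψ h⁻¹ * (∑ x, a x * evc ψ x) ^ n =
      ∑ x : Fin n → C, (∏ i, a (x i)) * evc ψ ((∏ i, x i) * h⁻¹) := by
    intro ψ
    rw [Fintype.sum_pow, mul_sum]
    refine sum_congr rfl fun x _ => ?_
    rw [prod_mul_distrib, evc_mul, evc_prod]
    ring
  rw [sum_congr rfl fun ψ _ => h1 ψ, sum_comm, mul_sum, sum_filter]
  refine sum_congr rfl fun x _ => ?_
  rw [← mul_sum, sum_evc]
  by_cases hx : ∏ i, x i = h
  · rw [if_pos hx, if_pos (by rw [hx, mul_inv_cancel])]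
    ring
  · rw [if_neg hx, if_neg (fun h' => hx (mul_inv_eq_one.mp h'))]
    ring

open Classical in
theorem coef_bound (a : C → ℂ) (h : C) (n : ℕ) (B : ℝ) (hB0 : 0 ≤ B)
    (hB : ∀ x : Fin n → C, ∏ i, x i = h → ‖∏ i, a (x i)‖ ≤ B) :
    ‖∑ ψ : AddChar (Additive C) ℂ, evc ψ h⁻¹ * (∑ x, a x * evc ψ x) ^ n‖ ≤
      (Fintype.card C : ℝ) * ((Fintype.card C : ℝ) ^ n * B) := by
  rw [coef_pow, norm_mul, Complex.norm_natCast]
  refine mul_le_mul_of_nonneg_left ?_ (Nat.cast_nonneg _)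
  refine (norm_sum_le _ _).trans ?_
  have h1 : ∑ x : Fin n → C with ∏ i, x i = h, ‖∏ i, a (x i)‖ ≤ ∑ x : Fin n → C with ∏ i, x i = h, B := by
    refine sum_le_sum fun x hx => hB x ?_
    exact (mem_filter.mp hx).2
  refine h1.trans ?_
  rw [sum_const, nsmul_eq_mul]
  refine mul_le_mul_of_nonneg_right ?_ hB0
  have h2 : (univ.filter (fun x : Fin n → C => ∏ i, x i = h)).card ≤ Fintype.card (Fin n → C) := by
    rw [← card_univ]
    exact card_filter_le _ _
  have h3 : Fintype.card (Fin n → C) = Fintype.card C ^ n := by simp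
  rw [h3] at h2
  exact_mod_cast h2

open Classical in
/-- the expansion of `exp` at a class -/
theorem expand (a : C → ℂ) (h : C) (J : ℕ) (A B : ℝ) (hA0 : 0 ≤ A) (hB0 : 0 ≤ B)
    (hB : ∀ n, 1 ≤ n → n ≤ J → ∀ x : Fin n → C, ∏ i, x i = h → ‖∏ i, a (x i)‖ ≤ B)
    (hA : ∀ ψ : AddChar (Additive C) ℂ, ‖∑ x, a x * evc ψ x‖ ≤ A) :
    ‖∑ ψ : AddChar (Additive C) ℂ, evc ψ h⁻¹ * Complex.exp (∑ x, a x * evc ψ x) -
        (if h = 1 then (Fintype.card C : ℂ) else 0)‖ ≤
      (Fintype.card C : ℝ) * ((J : ℝ) * ((Fintype.card C : ℝ) ^ J * B) + A ^ (J + 1) * Real.exp A) := by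
  haveI : Fintype (Additive C) := inferInstanceAs (Fintype C)
  have hc1 : (1 : ℝ) ≤ Fintype.card C := by
    exact_mod_cast Fintype.card_pos (α := C)
  set z : AddChar (Additive C) ℂ → ℂ := fun ψ => ∑ x, a x * evc ψ x with hz
  have hcard : (Fintype.card (AddChar (Additive C) ℂ) : ℝ) = Fintype.card C := by
    have h1 := AddChar.card_eq (α := Additive C)
    have e : Fintype.card (Additive C) = Fintype.card C := Fintype.card_congr Additive.toMul
    exact_mod_cast h1.trans e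
  have h0 : ∑ ψ : AddChar (Additive C) ℂ, evc ψ h⁻¹ * Complex.exp (z ψ) =
      ∑ ψ : AddChar (Additive C) ℂ, evc ψ h⁻¹ * (Complex.exp (z ψ) - ∑ m ∈ range (J + 1), z ψ ^ m / m.factorial) +
        ∑ m ∈ range (J + 1), (∑ ψ : AddChar (Additive C) ℂ, evc ψ h⁻¹ * z ψ ^ m) / m.factorial := by
    have h1 : ∑ m ∈ range (J + 1), (∑ ψ : AddChar (Additive C) ℂ, evc ψ h⁻¹ * z ψ ^ m) / (m.factorial : ℂ) =
        ∑ ψ : AddChar (Additive C) ℂ, evc ψ h⁻¹ * ∑ m ∈ range (J + 1), z ψ ^ m / m.factorial := by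
      simp_rw [mul_sum, sum_div]
      rw [sum_comm]
      refine sum_congr rfl fun ψ _ => sum_congr rfl fun m _ => ?_
      ring
    rw [h1, ← sum_add_distrib]
    refine sum_congr rfl fun ψ _ => ?_
    ring
  have h2 : ∑ m ∈ range (J + 1), (∑ ψ : AddChar (Additive C) ℂ, evc ψ h⁻¹ * z ψ ^ m) / (m.factorial : ℂ) =
      (if h = 1 then (Fintype.card C : ℂ) else 0) +
        ∑ m ∈ range J, (∑ ψ : AddChar (Additive C) ℂ, evc ψ h⁻¹ * z ψ ^ (m + 1)) / ((m + 1).factorial : ℂ) := by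
    rw [sum_range_succ', add_comm]
    congr 1
    simp only [pow_zero, mul_one, Nat.factorial_zero, Nat.cast_one, div_one]
    rw [sum_evc]
    simp [inv_eq_one]
  change ‖∑ ψ : AddChar (Additive C) ℂ, evc ψ h⁻¹ * Complex.exp (z ψ) - _‖ ≤ _
  rw [h0, h2]
  have h3 : ∀ u v w : ℂ, u + (v + w) - v = u + w := fun u v w => by ring
  rw [h3]
  refine (norm_add_le _ _).trans ?_
  have h4 : ‖∑ ψ : AddChar (Additive C) ℂ, evc ψ h⁻¹ * (Complex.exp (z ψ) - ∑ m ∈ range (J + 1), z ψ ^ m / m.factorial)‖ ≤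
      (Fintype.card C : ℝ) * (A ^ (J + 1) * Real.exp A) := by
    refine (norm_sum_le _ _).trans ?_
    have h5 : ∀ ψ ∈ (univ : Finset (AddChar (Additive C) ℂ)),
        ‖evc ψ h⁻¹ * (Complex.exp (z ψ) - ∑ m ∈ range (J + 1), z ψ ^ m / m.factorial)‖ ≤ A ^ (J + 1) * Real.exp A := by
      intro ψ _
      rw [norm_mul, norm_evc, one_mul]
      refine (Complex.norm_exp_sub_sum_le_norm_mul_exp _ _).trans ?_
      exact mul_le_mul (pow_le_pow_left₀ (norm_nonneg _) (hA ψ) _) (Real.exp_le_exp.mpr (hA ψ)) (Real.exp_pos _).le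
        (pow_nonneg hA0 _)
    refine (sum_le_sum h5).trans ?_
    rw [sum_const, nsmul_eq_mul, card_univ, hcard]
  have h6 : ‖∑ m ∈ range J, (∑ ψ : AddChar (Additive C) ℂ, evc ψ h⁻¹ * z ψ ^ (m + 1)) / ((m + 1).factorial : ℂ)‖ ≤
      (Fintype.card C : ℝ) * ((J : ℝ) * ((Fintype.card C : ℝ) ^ J * B)) := by
    refine (norm_sum_le _ _).trans ?_
    have h7 : ∀ m ∈ range J, ‖(∑ ψ : AddChar (Additive C) ℂ, evc ψ h⁻¹ * z ψ ^ (m + 1)) / ((m + 1).factorial : ℂ)‖ ≤
        (Fintype.card C : ℝ) * ((Fintype.card C : ℝ) ^ J * B) := by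
      intro m hm
      have hm' : m + 1 ≤ J := Nat.succ_le_of_lt (mem_range.mp hm)
      rw [norm_div, Complex.norm_natCast]
      have h8 := coef_bound a h (m + 1) B hB0 (hB (m + 1) (by omega) hm')
      have h9 : (1 : ℝ) ≤ ((m + 1).factorial : ℝ) := by
        exact_mod_cast Nat.succ_le_of_lt (Nat.factorial_pos _)
      refine (div_le_self (norm_nonneg _) h9).trans (h8.trans ?_)
      refine mul_le_mul_of_nonneg_left ?_ (Nat.cast_nonneg _)
      exact mul_le_mul_of_nonneg_right (pow_le_pow_right₀ hc1 hm') hB0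
    refine (sum_le_sum h7).trans ?_
    rw [sum_const, nsmul_eq_mul, card_range]
    apply le_of_eq
    ring
  calc _ ≤ (Fintype.card C : ℝ) * (A ^ (J + 1) * Real.exp A) + (Fintype.card C : ℝ) * ((J : ℝ) * ((Fintype.card C : ℝ) ^ J * B)) :=
        add_le_add h4 h6
    _ = _ := by ring

end

end Pool.Agent.Lib.MP_42948a_nt.TS
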