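import Pool.Agent.Lib.MP_42948a_nt.TS.PL

/-!
# T*, Phragmen-Lindelof lemma and separation by monodromy (helper50)

`plm`: if `∑ c_i s^(a_i) G_i(s) - D(s) = O(exp (-b' s))` for real `s ≥ 1`, where `G_i`, `D` are entire
of exponential type `b < b'` in the left half plane and polynomially bounded in the right one, then
the difference vanishes identically on the logarithmic surface, and the components of different
monodromy vanish separately.
-/

open Complex Set Filter Asymptotics Topology
open scoped Real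

namespace Pool.Agent.Lib.MP_42948a_nt.TS

/-- separation of geometric progressions with different ratios -/
lemma sep_geom (S : Finset ℂ) (Z : ℂ → ℂ) (h : ∀ k : ℕ, ∑ l ∈ S, l ^ k * Z l = 0) :
    ∀ l ∈ S, Z l = 0 := by
  have hp : ∀ p : Polynomial ℂ, ∑ l ∈ S, p.eval l * Z l = 0 := by
    intro p
    induction p using Polynomial.induction_on' with
    | add p q hp hq =>
      simp only [Polynomial.eval_add, add_mul, Finset.sum_add_distrib, hp, hq, add_zero]
    | monomial n a =>
      simp only [Polynomial.eval_monomial, mul_assoc]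
      rw [← Finset.mul_sum, h n, mul_zero]
  intro l hl
  have h1 := hp (∏ m ∈ S.erase l, (Polynomial.X - Polynomial.C m))
  rw [Finset.sum_eq_single l] at h1
  · rw [Polynomial.eval_prod] at h1
    rcases mul_eq_zero.1 h1 with h2 | h2
    · exfalso
      rw [Finset.prod_eq_zero_iff] at h2
      obtain ⟨m, hm, hm0⟩ := h2
      rw [Polynomial.eval_sub, Polynomial.eval_X, Polynomial.eval_C, sub_eq_zero] at hm0
      exact (Finset.mem_erase.1 hm).1 hm0.symm
    · exact h2
  · intro m hm hml
    rw [Polynomial.eval_prod]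
    have : ∏ j ∈ S.erase l, (Polynomial.X - Polynomial.C j : Polynomial ℂ).eval m = 0 := by
      apply Finset.prod_eq_zero (Finset.mem_erase.2 ⟨hml, hm⟩)
      rw [Polynomial.eval_sub, Polynomial.eval_X, Polynomial.eval_C, sub_self]
    rw [this, zero_mul]
  · intro h2
    exact absurd hl h2

lemma norm_exp_mul_le (a w : ℂ) (ha : ‖a‖ ≤ 1) (h1 : 0 ≤ w.im) (h2 : w.im ≤ 3 * π / 2) :
    ‖cexp (a * w)‖ ≤ Real.exp (3 * π / 2) * (Real.exp (-w.re) * (1 + Real.exp w.re) ^ 2) := by
  rw [Complex.norm_exp]
  have hre : |a.re| ≤ 1 := (Complex.abs_re_le_norm a).trans ha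
  have him : |a.im| ≤ 1 := (Complex.abs_im_le_norm a).trans ha
  have h3 : (a * w).re ≤ |w.re| + 3 * π / 2 := by
    rw [Complex.mul_re]
    have h4 : a.re * w.re ≤ |w.re| := by
      calc a.re * w.re ≤ |a.re * w.re| := le_abs_self _
        _ = |a.re| * |w.re| := abs_mul _ _
        _ ≤ 1 * |w.re| := by gcongr
        _ = |w.re| := one_mul _
    have h5 : -(a.im * w.im) ≤ 3 * π / 2 := by
      calc -(a.im * w.im) ≤ |a.im * w.im| := neg_le_abs _
        _ = |a.im| * |w.im| := abs_mul _ _
        _ ≤ 1 * |w.im| := by gcongr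
        _ = w.im := by rw [one_mul, abs_of_nonneg h1]
        _ ≤ 3 * π / 2 := h2
    linarith
  have h6 : Real.exp |w.re| ≤ Real.exp (-w.re) * (1 + Real.exp w.re) ^ 2 := by
    have e : Real.exp (-w.re) * (1 + Real.exp w.re) ^ 2
        = Real.exp (-w.re) + 2 + Real.exp w.re := by
      have h7 : Real.exp (-w.re) * Real.exp w.re = 1 := by
        rw [← Real.exp_add, neg_add_cancel, Real.exp_zero]
      calc Real.exp (-w.re) * (1 + Real.exp w.re) ^ 2
          = Real.exp (-w.re) + 2 * (Real.exp (-w.re) * Real.exp w.re)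
            + (Real.exp (-w.re) * Real.exp w.re) * Real.exp w.re := by ring
        _ = Real.exp (-w.re) + 2 + Real.exp w.re := by rw [h7]; ring
    rw [e]
    rcases abs_cases w.re with ⟨h, _⟩ | ⟨h, _⟩
    · rw [h]
      linarith [Real.exp_pos (-w.re)]
    · rw [h]
      linarith [Real.exp_pos w.re]
  calc Real.exp (a * w).re ≤ Real.exp (|w.re| + 3 * π / 2) := Real.exp_le_exp.2 h3
    _ = Real.exp (3 * π / 2) * Real.exp |w.re| := by rw [← Real.exp_add, add_comm]
    _ ≤ Real.exp (3 * π / 2) * (Real.exp (-w.re) * (1 + Real.exp w.re) ^ 2) := by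
      gcongr

lemma one_le_laurent (x : ℝ) : 1 ≤ Real.exp (-x) * (1 + Real.exp x) ^ 2 := by
  have h7 : Real.exp (-x) * Real.exp x = 1 := by
    rw [← Real.exp_add, neg_add_cancel, Real.exp_zero]
  calc (1 : ℝ) ≤ Real.exp (-x) + 2 + Real.exp x := by
        linarith [Real.exp_pos (-x), Real.exp_pos x]
    _ = Real.exp (-x) + 2 * (Real.exp (-x) * Real.exp x)
            + (Real.exp (-x) * Real.exp x) * Real.exp x := by rw [h7]; ring
    _ = Real.exp (-x) * (1 + Real.exp x) ^ 2 := by ring

/-- Lemma PL of the T* page with the two consequences (3.1), (3.2). -/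
theorem plm {ι : Type*} [Fintype ι] (a c : ι → ℂ) (G : ι → ℂ → ℂ) (D : ℂ → ℂ) (M : ℝ) (N : ℕ)
    (b b' : ℝ) (hb : 0 ≤ b) (hbb : b < b')
    (hG : ∀ i, Differentiable ℂ (G i)) (hD : Differentiable ℂ D) (ha : ∀ i, ‖a i‖ ≤ 1)
    (hgG : ∀ i s, ‖G i s‖ ≤ M * (1 + ‖s‖) ^ N * Real.exp (b * max 0 (-s.re)))
    (hgD : ∀ s, ‖D s‖ ≤ M * (1 + ‖s‖) ^ N * Real.exp (b * max 0 (-s.re)))
    (hre : ∀ s : ℝ, 1 ≤ s →
      ‖∑ i, c i * (s : ℂ) ^ (a i) * G i s - D s‖ ≤ M * Real.exp (-(b' * s))) :
    (∀ w : ℂ, ∑ i, c i * cexp (a i * w) * G i (cexp w) = D (cexp w)) ∧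
    (∀ l w : ℂ, ∑ i with cexp (2 * π * I * a i) = l, c i * cexp (a i * w) * G i (cexp w)
      = if l = 1 then D (cexp w) else 0) := by
  have hM : 0 ≤ M := by
    have h1 := hgD 0
    simp only [norm_zero, add_zero, one_pow, mul_one, Complex.zero_re, neg_zero, max_self,
      mul_zero, Real.exp_zero] at h1
    exact (norm_nonneg _).trans h1
  set F : ℂ → ℂ := fun w => ∑ i, c i * cexp (a i * w) * G i (cexp w) - D (cexp w) with hFdef
  have hF : Differentiable ℂ F := by
    apply Differentiable.sub
    · apply Differentiable.fun_sum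
      intro i _
      apply Differentiable.mul
      · fun_prop
      · exact (hG i).comp Complex.differentiable_exp
    · exact hD.comp Complex.differentiable_exp
  set K : ℝ := (∑ i, ‖c i‖) * Real.exp (3 * π / 2) + 1 with hK
  have hK1 : 1 ≤ K := by
    have : 0 ≤ (∑ i, ‖c i‖) * Real.exp (3 * π / 2) := by positivity
    linarith
  have hgF : ∀ w : ℂ, 0 ≤ w.im → w.im ≤ 3 * π / 2 →
      ‖F w‖ ≤ (K * M) * (Real.exp (-w.re) * (1 + Real.exp w.re) ^ (N + 2)) *
        Real.exp (b * max 0 (-(cexp w).re)) := by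
    intro w h1 h2
    set E : ℝ := Real.exp (b * max 0 (-(cexp w).re)) with hE
    have hEp : 0 < E := Real.exp_pos _
    set Lw : ℝ := Real.exp (-w.re) * (1 + Real.exp w.re) ^ (N + 2) with hL
    have hLe : Lw = (Real.exp (-w.re) * (1 + Real.exp w.re) ^ 2) * (1 + Real.exp w.re) ^ N := by
      rw [hL, pow_add]
      ring
    have hGw : ∀ i, ‖G i (cexp w)‖ ≤ M * (1 + Real.exp w.re) ^ N * E := by
      intro i
      have := hgG i (cexp w)
      rwa [Complex.norm_exp] at this
    have hDw : ‖D (cexp w)‖ ≤ M * (1 + Real.exp w.re) ^ N * E := by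
      have := hgD (cexp w)
      rwa [Complex.norm_exp] at this
    have hterm : ∀ i, ‖c i * cexp (a i * w) * G i (cexp w)‖ ≤
        ‖c i‖ * (Real.exp (3 * π / 2) * (M * Lw * E)) := by
      intro i
      rw [norm_mul, norm_mul]
      calc ‖c i‖ * ‖cexp (a i * w)‖ * ‖G i (cexp w)‖
          ≤ ‖c i‖ * (Real.exp (3 * π / 2) * (Real.exp (-w.re) * (1 + Real.exp w.re) ^ 2)) *
            (M * (1 + Real.exp w.re) ^ N * E) := by
            have := norm_exp_mul_le (a i) w (ha i) h1 h2
            gcongr
            exact hGw i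
        _ = ‖c i‖ * (Real.exp (3 * π / 2) * (M * Lw * E)) := by
            rw [hLe]
            ring
    have hD2 : ‖D (cexp w)‖ ≤ M * Lw * E := by
      refine hDw.trans ?_
      have h3 := one_le_laurent w.re
      have h4 : (1 + Real.exp w.re) ^ N ≤ Lw := by
        rw [hLe]
        apply le_mul_of_one_le_left _ h3
        positivity
      gcongr
    calc ‖F w‖ ≤ ‖∑ i, c i * cexp (a i * w) * G i (cexp w)‖ + ‖D (cexp w)‖ := norm_sub_le _ _
      _ ≤ (∑ i, ‖c i‖ * (Real.exp (3 * π / 2) * (M * Lw * E))) + M * Lw * E := by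
          apply add_le_add _ hD2
          refine (norm_sum_le _ _).trans ?_
          exact Finset.sum_le_sum fun i _ => hterm i
      _ = (K * M) * Lw * E := by
          rw [← Finset.sum_mul, hK]
          ring
  have hrF : ∀ x : ℝ, 0 ≤ x → ‖F x‖ ≤ (K * M) * Real.exp (-(b' * Real.exp x)) := by
    intro x hx
    have h1 : 1 ≤ Real.exp x := Real.one_le_exp hx
    have h2 := hre (Real.exp x) h1
    have e : F x = ∑ i, c i * ((Real.exp x : ℝ) : ℂ) ^ (a i) * G i ((Real.exp x : ℝ) : ℂ)
        - D ((Real.exp x : ℝ) : ℂ) := by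
      rw [hFdef]
      simp only
      congr 1
      · apply Finset.sum_congr rfl
        intro i _
        have h3 : ((Real.exp x : ℝ) : ℂ) ^ (a i) = cexp (a i * (x : ℂ)) := by
          rw [Complex.cpow_def_of_ne_zero (by exact_mod_cast (Real.exp_pos x).ne'),
            ← Complex.ofReal_log (Real.exp_pos x).le, Real.log_exp, mul_comm]
        rw [h3, Complex.ofReal_exp]
      · rw [Complex.ofReal_exp]
    rw [e]
    refine h2.trans ?_
    have h4 : M ≤ K * M := le_mul_of_one_le_left hM hK1
    gcongr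
  have hzero := pl_core F hF (K * M) b b' (N + 2) hb hbb hgF hrF
  have h31 : ∀ w : ℂ, ∑ i, c i * cexp (a i * w) * G i (cexp w) = D (cexp w) := by
    intro w
    have := hzero w
    rw [hFdef] at this
    exact sub_eq_zero.1 this
  refine ⟨h31, ?_⟩
  intro l w
  set X : ι → ℂ := fun i => c i * cexp (a i * w) * G i (cexp w) with hX
  -- the identity on all sheets
  have hsheet : ∀ k : ℕ, ∑ i, cexp (2 * π * I * a i) ^ k * X i = D (cexp w) := by
    intro k
    have h1 := h31 (w + k * (2 * π * I))
    have h2 : cexp (w + k * (2 * π * I)) = cexp w := by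
      rw [Complex.exp_add, Complex.exp_nat_mul_two_pi_mul_I, mul_one]
    rw [h2] at h1
    rw [← h1]
    apply Finset.sum_congr rfl
    intro i _
    have h3 : cexp (a i * (w + k * (2 * π * I))) = cexp (a i * w) * cexp (2 * π * I * a i) ^ k := by
      rw [← Complex.exp_nat_mul, ← Complex.exp_add]
      congr 1
      ring
    rw [h3, hX]
    ring
  classical
  set S : Finset ℂ := insert 1 (Finset.univ.image fun i => cexp (2 * π * I * a i)) with hS
  set Z : ℂ → ℂ := fun m =>
    (∑ i with cexp (2 * π * I * a i) = m, X i) - (if m = 1 then D (cexp w) else 0) with hZ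
  have hsum : ∀ k : ℕ, ∑ m ∈ S, m ^ k * Z m = 0 := by
    intro k
    have h1 : ∑ m ∈ S, m ^ k * (∑ i with cexp (2 * π * I * a i) = m, X i)
        = ∑ i, cexp (2 * π * I * a i) ^ k * X i := by
      rw [← Finset.sum_fiberwise_of_maps_to (s := Finset.univ) (t := S)
        (g := fun i => cexp (2 * π * I * a i))
        (f := fun i => cexp (2 * π * I * a i) ^ k * X i)]
      · apply Finset.sum_congr rfl
        intro m _
        rw [Finset.mul_sum]
        apply Finset.sum_congr rfl
        intro i hi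
        rw [(Finset.mem_filter.1 hi).2]
      · intro i _
        rw [hS]
        exact Finset.mem_insert_of_mem (Finset.mem_image_of_mem _ (Finset.mem_univ i))
    have h2 : ∑ m ∈ S, m ^ k * (if m = 1 then D (cexp w) else 0) = D (cexp w) := by
      rw [Finset.sum_eq_single 1]
      · simp
      · intro m _ hm
        rw [if_neg hm, mul_zero]
      · intro h
        exact absurd (Finset.mem_insert_self _ _) h
    calc ∑ m ∈ S, m ^ k * Z m
        = ∑ m ∈ S, m ^ k * (∑ i with cexp (2 * π * I * a i) = m, X i)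
          - ∑ m ∈ S, m ^ k * (if m = 1 then D (cexp w) else 0) := by
          rw [← Finset.sum_sub_distrib]
          apply Finset.sum_congr rfl
          intro m _
          rw [hZ]
          ring
      _ = 0 := by rw [h1, h2, hsheet k, sub_self]
  have hZ0 := sep_geom S Z hsum
  by_cases hl : l ∈ S
  · have := hZ0 l hl
    rw [hZ] at this
    exact sub_eq_zero.1 this
  · have hl1 : l ≠ 1 := by
      intro h
      apply hl
      rw [hS, h]
      exact Finset.mem_insert_self _ _
    rw [if_neg hl1]
    apply Finset.sum_eq_zero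
    intro i hi
    exfalso
    apply hl
    rw [hS]
    apply Finset.mem_insert_of_mem
    rw [Finset.mem_image]
    exact ⟨i, Finset.mem_univ i, (Finset.mem_filter.1 hi).2⟩

end Pool.Agent.Lib.MP_42948a_nt.TS
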