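import Pool.Agent.Lib.MP_42948a_nt.TS.AL1
import Pool.Agent.Lib.MP_42948a_nt.TS.MON

/-!
# The limit theorem

Limit data: `R x s` (`x ≠ t`) are the Laplace transforms of the limit measures of the primes in the classes `≠ t`, `Q` is the set of the products of dense
classes, `G ψ` are the entire limit functions. Then `h`, `h t⁻¹`, .., `h t^(-J)` are not all outside `Q`.
-/

namespace Pool.Agent.Lib.MP_42948a_nt.TS

open Finset

section
variable {C : Type*} [CommGroup C] [Fintype C]

open Classical in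
/-- the signed coefficients -/
noncomputable def ell (t : C) (R : C → ℝ) (x : C) : ℂ :=
  if x = t then -∑ y ∈ univ.filter (fun y => y ≠ t), (R y : ℂ) else (R x : ℂ)

open Classical in
theorem ell_sum (t : C) (R : C → ℝ) (ψ : AddChar (Additive C) ℂ) :
    ∑ x, ell t R x * evc ψ x = ∑ x ∈ univ.filter (fun x => x ≠ t), (evc ψ x - evc ψ t) * (R x : ℂ) := by
  rw [← Finset.sum_filter_add_sum_filter_not univ (fun x => x ≠ t)]
  have h1 : univ.filter (fun x : C => ¬ x ≠ t) = {t} := by
    ext x
    simp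
  rw [h1, sum_singleton]
  have h2 : ell t R t = -∑ y ∈ univ.filter (fun y => y ≠ t), (R y : ℂ) := by
    unfold ell
    rw [if_pos rfl]
  have h3 : ∑ x ∈ univ.filter (fun x => x ≠ t), ell t R x * evc ψ x =
      ∑ x ∈ univ.filter (fun x => x ≠ t), (R x : ℂ) * evc ψ x := by
    refine sum_congr rfl fun x hx => ?_
    unfold ell
    rw [if_neg (mem_filter.mp hx).2]
  rw [h2, h3, neg_mul, sum_mul, ← sub_eq_add_neg, ← sum_sub_distrib]
  refine sum_congr rfl fun x _ => ?_
  ring

open Classical in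
/-- products of the coefficients -/
theorem ell_prod (t : C) (R : C → ℝ) (h : C) (J : ℕ) (K B : ℝ) (hK : 1 ≤ K) (hB0 : 0 ≤ B)
    (hR0 : ∀ x, x ≠ t → 0 ≤ R x) (hRK : ∀ x, x ≠ t → R x ≤ K) (Q : Set C)
    (hQ : ∀ (ι : Type) [Fintype ι] (x : ι → C), Fintype.card ι ≤ J → (∀ i, x i ≠ t) → (∏ i, x i * t⁻¹) ∉ Q →
      ∏ i, R (x i) ≤ B)
    (n : ℕ) (hn : n ≤ J) (hmiss : h * (t ^ n)⁻¹ ∉ Q) (x : Fin n → C) (hx : ∏ i, x i = h) :
    ‖∏ i, ell t R (x i)‖ ≤ ((Fintype.card C : ℝ) * K) ^ J * B := by
  have hc1 : (1 : ℝ) ≤ Fintype.card C := by exact_mod_cast Fintype.card_pos (α := C)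
  have hcK : (1 : ℝ) ≤ (Fintype.card C : ℝ) * K := by
    calc (1 : ℝ) = 1 * 1 := by ring
      _ ≤ (Fintype.card C : ℝ) * K := mul_le_mul hc1 hK (by norm_num) (by linarith)
  rw [norm_prod, ← Finset.prod_filter_mul_prod_filter_not univ (fun i : Fin n => x i ≠ t)]
  have h1 : ∏ i ∈ univ.filter (fun i : Fin n => x i ≠ t), ‖ell t R (x i)‖ ≤ B := by
    have h2 : ∏ i ∈ univ.filter (fun i : Fin n => x i ≠ t), ‖ell t R (x i)‖ =
        ∏ i : {i : Fin n // x i ≠ t}, R (x i) := by
      rw [← Finset.prod_subtype (univ.filter (fun i : Fin n => x i ≠ t)) (p := fun i : Fin n => x i ≠ t)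
        (fun i => by simp) (fun i => R (x i))]
      refine prod_congr rfl fun i hi => ?_
      unfold ell
      rw [if_neg (mem_filter.mp hi).2, Complex.norm_real, Real.norm_of_nonneg (hR0 _ (mem_filter.mp hi).2)]
    rw [h2]
    refine hQ _ (fun i : {i : Fin n // x i ≠ t} => x i) ?_ (fun i => i.2) ?_
    · refine (Fintype.card_subtype_le _).trans ?_
      simpa using hn
    · have h3 : ∏ i : {i : Fin n // x i ≠ t}, (x i * t⁻¹) = h * (t ^ n)⁻¹ := by
        rw [← Finset.prod_subtype (univ.filter (fun i : Fin n => x i ≠ t)) (p := fun i : Fin n => x i ≠ t)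
          (fun i => by simp) (fun i => x i * t⁻¹)]
        have h4 : ∏ i : Fin n, (x i * t⁻¹) = h * (t ^ n)⁻¹ := by
          rw [prod_mul_distrib, hx, prod_const, card_univ, Fintype.card_fin, inv_pow]
        rw [← h4, ← Finset.prod_filter_mul_prod_filter_not univ (fun i : Fin n => x i ≠ t)]
        have h5 : ∏ i ∈ univ.filter (fun i : Fin n => ¬ x i ≠ t), (x i * t⁻¹) = 1 := by
          refine prod_eq_one fun i hi => ?_
          have := (mem_filter.mp hi).2
          push Not at this
          rw [this, mul_inv_cancel]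
        rw [h5, mul_one]
      rw [h3]
      exact hmiss
  have h6 : ∏ i ∈ univ.filter (fun i : Fin n => ¬ x i ≠ t), ‖ell t R (x i)‖ ≤ ((Fintype.card C : ℝ) * K) ^ J := by
    have h7 : ∏ i ∈ univ.filter (fun i : Fin n => ¬ x i ≠ t), ‖ell t R (x i)‖ ≤
        ∏ i ∈ univ.filter (fun i : Fin n => ¬ x i ≠ t), ((Fintype.card C : ℝ) * K) := by
      refine prod_le_prod (fun i _ => norm_nonneg _) fun i hi => ?_
      have h8 := (mem_filter.mp hi).2
      push Not at h8
      rw [h8]
      unfold ell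
      rw [if_pos rfl, norm_neg]
      refine (norm_sum_le _ _).trans ?_
      have h9 : ∀ y ∈ univ.filter (fun y => y ≠ t), ‖(R y : ℂ)‖ ≤ K := by
        intro y hy
        have hy' := (mem_filter.mp hy).2
        rw [Complex.norm_real, Real.norm_of_nonneg (hR0 _ hy')]
        exact hRK _ hy'
      refine (sum_le_sum h9).trans ?_
      rw [sum_const, nsmul_eq_mul]
      refine mul_le_mul_of_nonneg_right ?_ (by linarith)
      have : (univ.filter (fun y : C => y ≠ t)).card ≤ Fintype.card C := by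
        rw [← card_univ]
        exact card_filter_le _ _
      exact_mod_cast this
    refine h7.trans ?_
    rw [prod_const]
    refine pow_le_pow_right₀ hcK ?_
    have : (univ.filter (fun i : Fin n => ¬ x i ≠ t)).card ≤ n := by
      have := card_filter_le (univ : Finset (Fin n)) (fun i : Fin n => ¬ x i ≠ t)
      simpa using this
    exact this.trans hn
  rw [mul_comm]
  exact mul_le_mul h6 h1 (prod_nonneg fun i _ => norm_nonneg _) (by positivity)

end

end Pool.Agent.Lib.MP_42948a_nt.TS
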