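import Pool.Agent.Lib.MP_42948a_nt.TS.AL2

/-!
# The limit theorem: end of the proof
-/

namespace Pool.Agent.Lib.MP_42948a_nt.TS

open Finset

section
variable {C : Type*} [CommGroup C] [Fintype C]

open Classical in
/-- the exponent of `Φ_ψ` -/
noncomputable def Lam (t : C) (R : C → ℝ) (ψ : AddChar (Additive C) ℂ) : ℂ :=
  ∑ x ∈ univ.filter (fun x => x ≠ t), (evc ψ x - evc ψ t) * (R x : ℂ)

theorem Lam_zero (t : C) (R : C → ℝ) : Lam t R 0 = 0 := by
  unfold Lam
  refine sum_eq_zero fun x _ => ?_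
  rw [evc_zero, evc_zero]
  ring

theorem norm_Lam_le (t : C) (R : C → ℝ) (B : ℝ) (hR0 : ∀ x, x ≠ t → 0 ≤ R x) (hR : ∀ x, x ≠ t → R x ≤ B) (hB : 0 ≤ B)
    (ψ : AddChar (Additive C) ℂ) : ‖Lam t R ψ‖ ≤ 2 * (Fintype.card C : ℝ) * B := by
  classical
  unfold Lam
  refine (norm_sum_le _ _).trans ?_
  have h1 : ∀ x ∈ univ.filter (fun x : C => x ≠ t), ‖(evc ψ x - evc ψ t) * (R x : ℂ)‖ ≤ 2 * B := by
    intro x hx
    have hx' := (mem_filter.mp hx).2
    rw [norm_mul, Complex.norm_real, Real.norm_of_nonneg (hR0 _ hx')]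
    have h2 : ‖evc ψ x - evc ψ t‖ ≤ 2 := by
      refine (norm_sub_le _ _).trans ?_
      rw [norm_evc, norm_evc]
      norm_num
    exact mul_le_mul h2 (hR _ hx') (hR0 _ hx') (by norm_num)
  refine (sum_le_sum h1).trans ?_
  rw [sum_const, nsmul_eq_mul]
  have h3 : ((univ.filter (fun y : C => y ≠ t)).card : ℝ) ≤ Fintype.card C := by
    have : (univ.filter (fun y : C => y ≠ t)).card ≤ Fintype.card C := by
      rw [← card_univ]
      exact card_filter_le _ _
    exact_mod_cast this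
  calc ((univ.filter (fun y : C => y ≠ t)).card : ℝ) * (2 * B) ≤ (Fintype.card C : ℝ) * (2 * B) :=
        mul_le_mul_of_nonneg_right h3 (by positivity)
    _ = _ := by ring

open Classical in
/-- decay of the sum at a class all whose translates are missing -/
theorem fh_decay (t : C) (J : ℕ) (s0 v K : ℝ) (hs0 : 0 ≤ s0) (hv : v ≤ (J + 1) * s0)
    (R : C → ℝ → ℝ) (hR0 : ∀ x, x ≠ t → ∀ s, 1 ≤ s → 0 ≤ R x s)
    (hR : ∀ x, x ≠ t → ∀ s, 1 ≤ s → R x s ≤ K * Real.exp (-(s0 * s))) (Q : Set C)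
    (hQ : ∀ (ι : Type) [Fintype ι] (x : ι → C), Fintype.card ι ≤ J → (∀ i, x i ≠ t) → (∏ i, x i * t⁻¹) ∉ Q →
      ∀ s, 1 ≤ s → ∏ i, R (x i) s ≤ K * Real.exp (-(v * s)))
    (h : C) (hm : ∀ n, 1 ≤ n → n ≤ J → h * (t ^ n)⁻¹ ∉ Q) :
    ∃ M : ℝ, 0 ≤ M ∧ ∀ s, 1 ≤ s → ‖∑ ψ : AddChar (Additive C) ℂ, evc ψ h⁻¹ * Complex.exp (Lam t (fun x => R x s) ψ) -
      (if h = 1 then (Fintype.card C : ℂ) else 0)‖ ≤ M * Real.exp (-(v * s)) := by
  set K1 : ℝ := max K 1 with hK1
  have hK11 : 1 ≤ K1 := le_max_right _ _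
  have hKK : K ≤ K1 := le_max_left _ _
  have hK0 : 0 ≤ K1 := by linarith
  set n : ℝ := (Fintype.card C : ℝ) with hn
  have hn0 : 0 ≤ n := Nat.cast_nonneg _
  refine ⟨n * ((J : ℝ) * (n ^ J * ((n * K1) ^ J * K1)) + (2 * n * K1) ^ (J + 1) * Real.exp (2 * n * K1)), by positivity, fun s hs => ?_⟩
  have hs0s : 0 ≤ s0 * s := mul_nonneg hs0 (by linarith)
  have hE1 : Real.exp (-(s0 * s)) ≤ 1 := Real.exp_le_one_iff.mpr (by linarith)
  have hRs : ∀ x, x ≠ t → R x s ≤ K1 * Real.exp (-(s0 * s)) := fun x hx =>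
    (hR x hx s hs).trans (mul_le_mul_of_nonneg_right hKK (Real.exp_pos _).le)
  have hRs1 : ∀ x, x ≠ t → R x s ≤ K1 := fun x hx => (hRs x hx).trans (mul_le_of_le_one_right hK0 hE1)
  have hlam : ∀ ψ : AddChar (Additive C) ℂ, ∑ x, ell t (fun x => R x s) x * evc ψ x = Lam t (fun x => R x s) ψ :=
    fun ψ => ell_sum t (fun x => R x s) ψ
  have key := expand (fun x => ell t (fun x => R x s) x) h J (2 * n * (K1 * Real.exp (-(s0 * s))))
    ((n * K1) ^ J * (K1 * Real.exp (-(v * s)))) (by positivity) (by positivity)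
    (fun m hm1 hmJ x hx => ell_prod t (fun x => R x s) h J K1 (K1 * Real.exp (-(v * s))) hK11 (by positivity)
      (fun x hx => hR0 x hx s hs) hRs1 Q
      (fun ι _ x hc hx hxQ => (hQ ι x hc hx hxQ s hs).trans (mul_le_mul_of_nonneg_right hKK (Real.exp_pos _).le))
      m hmJ (hm m hm1 hmJ) x hx)
    (fun ψ => by
      rw [hlam]
      exact norm_Lam_le t _ _ (fun x hx => hR0 x hx s hs) hRs (by positivity) ψ)
  simp only [hlam] at key
  refine key.trans ?_
  rw [mul_assoc n]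
  refine mul_le_mul_of_nonneg_left ?_ hn0
  have h1 : (2 * n * (K1 * Real.exp (-(s0 * s)))) ^ (J + 1) ≤ (2 * n * K1) ^ (J + 1) * Real.exp (-(v * s)) := by
    have h2 : 2 * n * (K1 * Real.exp (-(s0 * s))) = (2 * n * K1) * Real.exp (-(s0 * s)) := by ring
    rw [h2, mul_pow, ← Real.exp_nat_mul]
    refine mul_le_mul_of_nonneg_left (Real.exp_le_exp.mpr ?_) (by positivity)
    push_cast
    nlinarith
  have h3 : Real.exp (2 * n * (K1 * Real.exp (-(s0 * s)))) ≤ Real.exp (2 * n * K1) := by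
    refine Real.exp_le_exp.mpr ?_
    have : K1 * Real.exp (-(s0 * s)) ≤ K1 := mul_le_of_le_one_right hK0 hE1
    exact mul_le_mul_of_nonneg_left this (by positivity)
  have h4 : (2 * n * (K1 * Real.exp (-(s0 * s)))) ^ (J + 1) * Real.exp (2 * n * (K1 * Real.exp (-(s0 * s)))) ≤
      (2 * n * K1) ^ (J + 1) * Real.exp (-(v * s)) * Real.exp (2 * n * K1) :=
    mul_le_mul h1 h3 (Real.exp_pos _).le (by positivity)
  calc _ ≤ (J : ℝ) * (n ^ J * ((n * K1) ^ J * (K1 * Real.exp (-(v * s))))) +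
        (2 * n * K1) ^ (J + 1) * Real.exp (-(v * s)) * Real.exp (2 * n * K1) := by linarith
    _ = _ := by ring

/-- the value `±1` -/
theorem evc_pm (t : C) (ψ : AddChar (Additive C) ℂ) (h : Complex.exp (2 * Real.pi * Complex.I * evc ψ t) = 1) :
    evc ψ t = 1 ∨ evc ψ t = -1 := by
  rw [Complex.exp_eq_one_iff] at h
  obtain ⟨n, hn⟩ := h
  have h1 : (2 * Real.pi * Complex.I : ℂ) ≠ 0 := Complex.two_pi_I_ne_zero
  have h2 : evc ψ t = (n : ℂ) := by
    have h3 : (2 * Real.pi * Complex.I : ℂ) * evc ψ t = (2 * Real.pi * Complex.I : ℂ) * n := by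
      rw [hn]
      ring
    exact mul_left_cancel₀ h1 h3
  have h4 : ‖(n : ℂ)‖ = 1 := by rw [← h2, norm_evc]
  rw [Complex.norm_intCast] at h4
  have h5 : |n| = 1 := by exact_mod_cast h4
  rcases (abs_eq (by norm_num : (0 : ℤ) ≤ 1)).mp h5 with h6 | h6
  · left
    rw [h2, h6]
    simp
  · right
    rw [h2, h6]
    simp

open Classical in
/-- THE LIMIT THEOREM -/
theorem an_limit (t : C) (J : ℕ) (hJ : 1 ≤ J) (s0 v b K : ℝ) (hs0 : 0 ≤ s0) (hb0 : 0 ≤ b) (hbv : b < v)
    (hv : v ≤ (J + 1) * s0)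
    (R : C → ℝ → ℝ) (hR0 : ∀ x, x ≠ t → ∀ s, 1 ≤ s → 0 ≤ R x s)
    (hR : ∀ x, x ≠ t → ∀ s, 1 ≤ s → R x s ≤ K * Real.exp (-(s0 * s))) (Q : Set C) (h1Q : 1 ∈ Q)
    (hQ : ∀ (ι : Type) [Fintype ι] (x : ι → C), Fintype.card ι ≤ J → (∀ i, x i ≠ t) → (∏ i, x i * t⁻¹) ∉ Q →
      ∀ s, 1 ≤ s → ∏ i, R (x i) s ≤ K * Real.exp (-(v * s)))
    (G : AddChar (Additive C) ℂ → ℂ → ℂ) (hG : ∀ ψ, ψ ≠ 0 → Differentiable ℂ (G ψ)) (M : ℝ) (N : ℕ)
    (hgG : ∀ ψ, ψ ≠ 0 → ∀ s, ‖G ψ s‖ ≤ M * (1 + ‖s‖) ^ N * Real.exp (b * max 0 (-s.re)))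
    (hrel : ∀ ψ, ψ ≠ 0 → ∀ s : ℝ, 1 ≤ s →
      Complex.exp (Lam t (fun x => R x s) ψ) = Complex.exp (Lam t (fun x => R x 1) ψ) * (s : ℂ) ^ (evc ψ t) * G ψ s)
    (h : C) (hmiss : ∀ i, i ≤ J → h * (t ^ i)⁻¹ ∉ Q) : False := by
  have hM0 : 0 ≤ max M 0 := le_max_right _ _
  -- the consequence of `plm` at a class
  have key : ∀ h' : C, (∀ n, 1 ≤ n → n ≤ J → h' * (t ^ n)⁻¹ ∉ Q) → ∀ w : ℂ,
      ∑ ψ : AddChar (Additive C) ℂ with Complex.exp (2 * Real.pi * Complex.I * evc ψ t) = 1,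
        evc ψ h'⁻¹ * (if ψ = 0 then 1 else
          Complex.exp (Lam t (fun x => R x 1) ψ) * Complex.exp (evc ψ t * w) * G ψ (Complex.exp w)) =
        if h' = 1 then (Fintype.card C : ℂ) else 0 := by
    intro h' hm w
    obtain ⟨M1, hM10, hM1⟩ := fh_decay t J s0 v K hs0 hv R hR0 hR Q hQ h' hm
    set δ : ℂ := if h' = 1 then (Fintype.card C : ℂ) else 0 with hδ
    have h1 := plm (ι := AddChar (Additive C) ℂ) (fun ψ => evc ψ t)
      (fun ψ => if ψ = 0 then 0 else evc ψ h'⁻¹ * Complex.exp (Lam t (fun x => R x 1) ψ))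
      (fun ψ => if ψ = 0 then (fun _ => 0) else G ψ) (fun _ => δ - 1) (max M 0 + M1 + ‖δ - 1‖) N b v hb0 hbv
      (fun ψ => by
        by_cases hψ : ψ = 0
        · simp only [hψ, if_true]
          exact differentiable_const _
        · simp only [hψ, if_false]
          exact hG ψ hψ)
      (differentiable_const _) (fun ψ => (norm_evc ψ t).le)
      (fun ψ s => by
        have h2 : 0 ≤ (1 + ‖s‖) ^ N * Real.exp (b * max 0 (-s.re)) := by positivity
        have h3 : 0 ≤ max M 0 + M1 + ‖δ - 1‖ := by positivity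
        by_cases hψ : ψ = 0
        · simp only [hψ, if_true, norm_zero]
          rw [mul_assoc]
          exact mul_nonneg h3 h2
        · simp only [hψ, if_false]
          refine (hgG ψ hψ s).trans ?_
          rw [mul_assoc, mul_assoc]
          refine mul_le_mul_of_nonneg_right ?_ h2
          have := le_max_left M 0
          have := norm_nonneg (δ - 1)
          linarith)
      (fun s => by
        have h2 : 1 ≤ (1 + ‖s‖) ^ N * Real.exp (b * max 0 (-s.re)) := by
          have h4 : 1 ≤ (1 + ‖s‖) ^ N := one_le_pow₀ (by linarith [norm_nonneg s])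
          have h5 : 1 ≤ Real.exp (b * max 0 (-s.re)) := Real.one_le_exp (mul_nonneg hb0 (le_max_left _ _))
          exact one_le_mul_of_one_le_of_one_le h4 h5
        rw [mul_assoc]
        have h3 : ‖δ - 1‖ ≤ max M 0 + M1 + ‖δ - 1‖ := by linarith
        calc ‖δ - 1‖ = ‖δ - 1‖ * 1 := by ring
          _ ≤ _ := mul_le_mul h3 h2 (by norm_num) (by positivity))
      (fun s hs => by
        have h2 : ∑ ψ : AddChar (Additive C) ℂ,
            (if ψ = 0 then 0 else evc ψ h'⁻¹ * Complex.exp (Lam t (fun x => R x 1) ψ)) * (s : ℂ) ^ (evc ψ t) *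
              (if ψ = 0 then (fun _ => (0 : ℂ)) else G ψ) s - (δ - 1) =
            ∑ ψ : AddChar (Additive C) ℂ, evc ψ h'⁻¹ * Complex.exp (Lam t (fun x => R x s) ψ) - δ := by
          have h3 : ∑ ψ : AddChar (Additive C) ℂ, evc ψ h'⁻¹ * Complex.exp (Lam t (fun x => R x s) ψ) =
              ∑ ψ : AddChar (Additive C) ℂ, ((if ψ = 0 then 0 else evc ψ h'⁻¹ * Complex.exp (Lam t (fun x => R x 1) ψ)) *
                (s : ℂ) ^ (evc ψ t) * (if ψ = 0 then (fun _ => (0 : ℂ)) else G ψ) s + if ψ = 0 then 1 else 0) := by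
            refine sum_congr rfl fun ψ _ => ?_
            by_cases hψ : ψ = 0
            · subst hψ
              rw [Lam_zero, evc_zero]
              simp
            · rw [hrel ψ hψ s hs]
              simp only [hψ, if_false, add_zero]
              ring
          rw [h3, sum_add_distrib]
          simp
          ring
        rw [h2]
        refine (hM1 s hs).trans ?_
        refine mul_le_mul_of_nonneg_right ?_ (Real.exp_pos _).le
        have := norm_nonneg (δ - 1)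
        linarith)
    have h2 := h1.2 1 w
    rw [if_pos rfl] at h2
    have h3 : ∑ ψ : AddChar (Additive C) ℂ with Complex.exp (2 * Real.pi * Complex.I * evc ψ t) = 1,
        evc ψ h'⁻¹ * (if ψ = 0 then 1 else
          Complex.exp (Lam t (fun x => R x 1) ψ) * Complex.exp (evc ψ t * w) * G ψ (Complex.exp w)) =
        ∑ ψ : AddChar (Additive C) ℂ with Complex.exp (2 * Real.pi * Complex.I * evc ψ t) = 1,
          ((if ψ = 0 then 0 else evc ψ h'⁻¹ * Complex.exp (Lam t (fun x => R x 1) ψ)) * Complex.exp (evc ψ t * w) *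
            (if ψ = 0 then (fun _ => (0 : ℂ)) else G ψ) (Complex.exp w) + if ψ = 0 then 1 else 0) := by
      refine sum_congr rfl fun ψ _ => ?_
      by_cases hψ : ψ = 0
      · subst hψ
        simp [evc_zero]
      · simp only [hψ, if_false, add_zero]
        ring
    rw [h3, sum_add_distrib, h2]
    have h4 : ∑ ψ : AddChar (Additive C) ℂ with Complex.exp (2 * Real.pi * Complex.I * evc ψ t) = 1,
        (if ψ = 0 then (1 : ℂ) else 0) = 1 := by
      rw [sum_ite_eq' (univ.filter _) (0 : AddChar (Additive C) ℂ), if_pos]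
      rw [mem_filter]
      refine ⟨mem_univ _, ?_⟩
      rw [evc_zero, mul_one]
      exact Complex.exp_two_pi_mul_I
    rw [h4]
    ring
  -- the two classes
  have hm1 : ∀ n, 1 ≤ n → n ≤ J → h * (t ^ n)⁻¹ ∉ Q := fun n _ hn => hmiss n hn
  have hm2 : ∀ n, 1 ≤ n → n ≤ J → (h * t) * (t ^ n)⁻¹ ∉ Q := by
    intro n hn1 hn
    obtain ⟨k, rfl⟩ : ∃ k, n = k + 1 := ⟨n - 1, by omega⟩
    have h2 : (h * t) * (t ^ (k + 1))⁻¹ = h * (t ^ k)⁻¹ := by
      rw [pow_succ, mul_inv]
      calc h * t * ((t ^ k)⁻¹ * t⁻¹) = h * (t ^ k)⁻¹ * (t * t⁻¹) := by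
            simp only [mul_comm, mul_left_comm, mul_assoc]
        _ = _ := by rw [mul_inv_cancel, mul_one]
    rw [h2]
    exact hmiss k (by omega)
  have hne1 : h ≠ 1 := by
    intro h2
    have := hmiss 0 (Nat.zero_le _)
    rw [h2, pow_zero, inv_one, mul_one] at this
    exact this h1Q
  have e1 := fun w => key h hm1 w
  have e2 := fun w => key (h * t) hm2 w
  rw [if_neg hne1] at e1
  -- the function with `ψ t = 1`
  set δ : ℂ := if h * t = 1 then (Fintype.card C : ℂ) else 0 with hδ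
  have e3 : ∀ w : ℂ, ∑ ψ : AddChar (Additive C) ℂ with evc ψ t = 1,
        2 * (evc ψ h⁻¹ * (if ψ = 0 then 1 else
          Complex.exp (Lam t (fun x => R x 1) ψ) * Complex.exp (evc ψ t * w) * G ψ (Complex.exp w))) = δ := by
    intro w
    have h2 := e1 w
    have h3 := e2 w
    have h4 : (0 : ℂ) + δ = δ := zero_add _
    rw [← h4, ← h2, ← h3, ← sum_add_distrib]
    have h5 : (univ.filter (fun ψ : AddChar (Additive C) ℂ => evc ψ t = 1)) ⊆
        univ.filter (fun ψ : AddChar (Additive C) ℂ => Complex.exp (2 * Real.pi * Complex.I * evc ψ t) = 1) := by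
      intro ψ hψ
      rw [mem_filter] at hψ ⊢
      refine ⟨mem_univ _, ?_⟩
      rw [hψ.2, mul_one]
      exact Complex.exp_two_pi_mul_I
    rw [← sum_subset h5]
    · refine sum_congr rfl fun ψ hψ => ?_
      have h6 := (mem_filter.mp hψ).2
      have h7 : evc ψ t⁻¹ = 1 := by
        have := evc_mul_inv ψ t
        rw [h6, one_mul] at this
        exact this
      rw [mul_inv, evc_mul, h7]
      ring
    · intro ψ hψ hψ2
      have h6 := evc_pm t ψ (mem_filter.mp hψ).2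
      have h7 : evc ψ t = -1 := by
        rcases h6 with h6 | h6
        · exfalso
          exact hψ2 (mem_filter.mpr ⟨mem_univ _, h6⟩)
        · exact h6
      have h8 : evc ψ t⁻¹ = -1 := by
        have := evc_mul_inv ψ t
        rw [h7] at this
        linear_combination -this
      rw [mul_inv, evc_mul, h8]
      ring
  -- the limit `w → -∞`
  have hlim : Filter.Tendsto (fun x : ℝ => ∑ ψ : AddChar (Additive C) ℂ with evc ψ t = 1,
        2 * (evc ψ h⁻¹ * (if ψ = 0 then 1 else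
          Complex.exp (Lam t (fun x => R x 1) ψ) * Complex.exp (evc ψ t * (x : ℂ)) * G ψ (Complex.exp (x : ℂ)))))
      Filter.atBot (nhds (∑ ψ : AddChar (Additive C) ℂ with evc ψ t = 1, if ψ = 0 then 2 else 0)) := by
    refine tendsto_finsetSum _ fun ψ hψ => ?_
    have h6 := (mem_filter.mp hψ).2
    by_cases hψ0 : ψ = 0
    · subst hψ0
      simp only [evc_zero, if_true, mul_one]
      exact tendsto_const_nhds
    · simp only [hψ0, if_false]
      have h7 : Filter.Tendsto (fun x : ℝ => Complex.exp (x : ℂ)) Filter.atBot (nhds 0) := by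
        have h8 : Filter.Tendsto (fun x : ℝ => ((Real.exp x : ℝ) : ℂ)) Filter.atBot (nhds ((0 : ℝ) : ℂ)) :=
          (Complex.continuous_ofReal.tendsto 0).comp Real.tendsto_exp_atBot
        simpa using h8
      have h9 : Filter.Tendsto (fun x : ℝ => G ψ (Complex.exp (x : ℂ))) Filter.atBot (nhds (G ψ 0)) :=
        ((hG ψ hψ0).continuous.tendsto 0).comp h7
      have h10 : Filter.Tendsto (fun x : ℝ => 2 * (evc ψ h⁻¹ * (Complex.exp (Lam t (fun x => R x 1) ψ) *
          Complex.exp (evc ψ t * (x : ℂ)) * G ψ (Complex.exp (x : ℂ))))) Filter.atBot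
          (nhds (2 * (evc ψ h⁻¹ * (Complex.exp (Lam t (fun x => R x 1) ψ) * 0 * G ψ 0)))) := by
        refine Filter.Tendsto.const_mul _ (Filter.Tendsto.const_mul _ ?_)
        refine Filter.Tendsto.mul (Filter.Tendsto.const_mul _ ?_) h9
        simp only [h6, one_mul]
        exact h7
      simpa using h10
  have h11 : ∑ ψ : AddChar (Additive C) ℂ with evc ψ t = 1, (if ψ = 0 then (2 : ℂ) else 0) = 2 := by
    rw [sum_ite_eq' (univ.filter _) (0 : AddChar (Additive C) ℂ), if_pos]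
    rw [mem_filter]
    exact ⟨mem_univ _, evc_zero t⟩
  rw [h11] at hlim
  have h12 : δ = 2 := by
    refine tendsto_nhds_unique ?_ hlim
    have : (fun x : ℝ => ∑ ψ : AddChar (Additive C) ℂ with evc ψ t = 1,
        2 * (evc ψ h⁻¹ * (if ψ = 0 then 1 else
          Complex.exp (Lam t (fun x => R x 1) ψ) * Complex.exp (evc ψ t * (x : ℂ)) * G ψ (Complex.exp (x : ℂ))))) =
        fun _ => δ := by
      funext x
      exact e3 x
    rw [this]
    exact tendsto_const_nhds
  by_cases hht : h * t = 1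
  · rw [hδ, if_pos hht] at h12
    have h13 : Fintype.card C = 2 := by exact_mod_cast h12
    have h14 : t ^ 2 = 1 := by
      rw [← h13]
      exact pow_card_eq_one
    have h15 : h = t := by
      have h16 : h = t⁻¹ := eq_inv_of_mul_eq_one_left hht
      rw [h16, inv_eq_iff_mul_eq_one, ← pow_two]
      exact h14
    have := hmiss 1 hJ
    rw [h15, pow_one, mul_inv_cancel] at this
    exact this h1Q
  · rw [hδ, if_neg hht] at h12
    norm_num at h12

end

end Pool.Agent.Lib.MP_42948a_nt.TS
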