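import Pool.Agent.Lib.MP_42948a_nt.TS.Defs
import Pool.Agent.Lib.MP_42948a_nt.BU2.Main
import Pool.Agent.Lib.MP_42948a_nt.TH.M2

/-!
# The two instances of Burgess' bound

`ba_quarter`: the exponent `θ > 1/4` for the moduli `d = e r`, `e ≤ d ^ θ'`, `r` cube-free (`BM.Cub θ' d`; this contains all cube-free `d`, all primes).
`ba_third`: the exponent `θ > 1/3` for all moduli.
-/

namespace Pool.Agent.Lib.MP_42948a_nt.TS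

theorem ba_quarter (θ : ℝ) (hθ : 1 / 4 < θ) : ∃ c : ℝ, 0 < c ∧ ∃ θ' : ℝ, 0 < θ' ∧ ∃ d0 : ℕ, ∀ d : ℕ, d0 ≤ d → BM.Cub θ' d → BA θ c d := by
  obtain ⟨c, θ', hc, hθ', d0, h⟩ := BU2.burgess_all (θ - 1 / 4) (by linarith)
  refine ⟨c, hc, θ', hθ', d0, fun d hd hcub χ hχ N hN => h d hd hcub χ hχ N ?_⟩
  rw [show (1 / 4 + (θ - 1 / 4) : ℝ) = θ by ring]
  exact hN

theorem ba_third (θ : ℝ) (hθ : 1 / 3 < θ) : ∃ c : ℝ, 0 < c ∧ ∃ d0 : ℕ, ∀ d : ℕ, d0 ≤ d → BA θ c d := by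
  obtain ⟨c, hc, d0, h⟩ := TH.bur3 (θ - 1 / 3) (by linarith)
  refine ⟨c, hc, d0, fun d hd χ hχ N hN => h d hd χ hχ N ?_⟩
  rw [show (1 / 4 + (1 / 12 + (θ - 1 / 3)) : ℝ) = θ by ring]
  exact hN

/-- every cube-free modulus is in the class `Cub` -/
theorem cub_of_cubefree {θ' : ℝ} (hθ' : 0 ≤ θ') {d : ℕ} (hd : 1 ≤ d) (h : ∀ p : ℕ, p.Prime → ¬ p ^ 3 ∣ d) : BM.Cub θ' d := by
  refine ⟨1, d, (one_mul d).symm, ?_, h⟩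
  rw [Nat.cast_one]
  exact Real.one_le_rpow (by exact_mod_cast hd) hθ'

end Pool.Agent.Lib.MP_42948a_nt.TS
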