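import Pool.Agent.Lib.MP_42948a_nt.TS.Thr
import Pool.Agent.Lib.MP_42948a_nt.TF.T2
import Pool.Agent.Lib.MP_42948a_nt.PS.A1

/-!
# Classes which are not represented
-/

set_option linter.unusedSectionVars false

namespace Pool.Agent.Lib.MP_42948a_nt.TS

open Finset Pool.Agent.Lib.MP_42948a_nt.OA Pool.Agent.Lib.MP_42948a_nt.TQ Pool.Agent.Lib.MP_42948a_nt.PS
  Pool.Agent.Lib.MP_42948a_nt.TF

variable {d : ℕ} [NeZero d]

private theorem blk_den_nonneg (A : Finset ℕ) (x : (ZMod d)ˣ) : 0 ≤ den A x := by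
  unfold den
  refine mul_nonneg card_pos.le (sum_nonneg fun n _ => ?_)
  by_cases h : ucl d n = x
  · rw [if_pos h]
    positivity
  · rw [if_neg h]

private theorem blk_D {U : Finset ℕ} (hU : ∀ p ∈ U, p.Coprime d) (hW : 0 < Wt U) (χ : DirichletCharacter ℂ d) :
    ‖∑ p ∈ U, ((1 / (p : ℝ) : ℝ) : ℂ) * (starRingEnd ℂ) (ev χ (ucl d p))‖ = Wt U * ‖Pa U χ‖ := by
  have h0 : ((Wt U : ℝ) : ℂ) ≠ 0 := by exact_mod_cast hW.ne'
  have h1 : ∑ p ∈ U, ((1 / (p : ℝ) : ℝ) : ℂ) * (starRingEnd ℂ) (ev χ (ucl d p)) =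
      (starRingEnd ℂ) (((Wt U : ℝ) : ℂ) * Pa U χ) := by
    unfold Pa
    rw [mul_div_cancel₀ _ h0, map_sum]
    refine Finset.sum_congr rfl fun p hp => ?_
    rw [map_mul, Complex.conj_ofReal]
    unfold ev
    rw [ucl_val (hU p hp)]
  rw [h1, RCLike.norm_conj, norm_mul, Complex.norm_real, Real.norm_of_nonneg hW.le]

/-- JOB Blk1. The average of the smoothed convolution over a set of classes which are not products `p m n`. Proof: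
`F = cv (den A) (den B)`, `S = cv (sm β A) (sm β B)`; `SF S χ = b χ ^ 2 * SF F χ` (`SF_cv`, `SF_sm`, `SF_den`, `hK.coef`). Let
`h z = ∑_{p ∈ U} 1/p * (S (z / p) - F (z / p))`; `SF h χ = (∑_p 1/p conj (χ p)) (b χ ^ 2 - 1) SF F χ` has norm
`≤ Wt U * (2 η + τ) * ‖SF F χ‖` (`χ ∈ X`: `0 ≤ 1 - b ^ 2 ≤ 2 η`, `‖Pa‖ ≤ 1`; `χ ∉ X`: `‖Pa‖ ≤ τ`, `0 ≤ 1 - b ^ 2 ≤ 1`). By `parseval_SF` twice
`∑ h ^ 2 ≤ (Wt U (2 η + τ)) ^ 2 ∑ F ^ 2 ≤ (Wt U (2 η + τ) C) ^ 2 φ` (`0 ≤ F ≤ C`). On `E`: `F (z / p) = 0` (`cv_den_zero`), so the left side is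
`(1/φ) ∑_{z ∈ E} h z ≤ (1/φ) √|E| √(∑ h ^ 2)` (Cauchy-Schwarz). -/
theorem blk {X : Finset (DirichletCharacter ℂ d)} {η Q : ℝ} {β : (ZMod d)ˣ → ℝ}
    {b : DirichletCharacter ℂ d → ℝ} (hK : Ker X η Q β b) (hη : 0 ≤ η) {τ C : ℝ} (hτ : 0 ≤ τ) (U A B : Finset ℕ)
    (hU : ∀ p ∈ U, p.Coprime d) (hA : ∀ m ∈ A, m.Coprime d) (hB : ∀ n ∈ B, n.Coprime d) (hW : 0 < Wt U)
    (hX : ∀ χ, χ ∉ X → ‖Pa U χ‖ ≤ τ) (hC : ∀ x : (ZMod d)ˣ, cv (den A) (den B) x ≤ C) (E : Finset (ZMod d)ˣ)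
    (hE : ∀ z ∈ E, ∀ p ∈ U, ∀ m ∈ A, ∀ n ∈ B, ((p * (m * n) : ℕ) : ZMod d) ≠ (z : ZMod d)) :
    (∑ z ∈ E, ∑ p ∈ U, 1 / (p : ℝ) * cv (sm β A) (sm β B) (z * (ucl d p)⁻¹)) / (Fintype.card (ZMod d)ˣ : ℝ) ≤
      Wt U * ((2 * η + τ) * C) * √(mu (E : Set (ZMod d)ˣ)) := by
  classical
  have hφ : (0 : ℝ) < (Fintype.card (ZMod d)ˣ : ℝ) := card_pos
  have hφC : (Fintype.card (ZMod d)ˣ : ℂ) ≠ 0 := by exact_mod_cast (Fintype.card_pos (α := (ZMod d)ˣ)).ne'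
  obtain ⟨F, hF⟩ : ∃ F : (ZMod d)ˣ → ℝ, F = cv (den A) (den B) := ⟨_, rfl⟩
  obtain ⟨S, hS⟩ : ∃ S : (ZMod d)ˣ → ℝ, S = cv (sm β A) (sm β B) := ⟨_, rfl⟩
  have hF0 : ∀ x, 0 ≤ F x := by
    intro x
    rw [hF]
    exact av_nonneg fun y => mul_nonneg (blk_den_nonneg _ _) (blk_den_nonneg _ _)
  have hC0 : 0 ≤ C := (hF0 1).trans (by rw [hF]; exact hC 1)
  -- the coefficients
  have hSF : ∀ χ, SF S χ = ((b χ ^ 2 : ℝ) : ℂ) * SF F χ := by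
    intro χ
    have h1 := SF_cv (sm β A) (sm β B) χ
    have h2 := SF_cv (den A) (den B) χ
    rw [SF_sm, SF_sm, hK.coef] at h1
    rw [SF_den, SF_den] at h2
    rw [← hS] at h1
    rw [← hF] at h2
    apply mul_left_cancel₀ hφC
    rw [h1]
    have h3 : (Fintype.card (ZMod d)ˣ : ℂ) * (((b χ ^ 2 : ℝ) : ℂ) * SF F χ) =
        ((b χ ^ 2 : ℝ) : ℂ) * ((Fintype.card (ZMod d)ˣ : ℂ) * SF F χ) := by ring
    rw [h3, h2]
    push_cast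
    ring
  obtain ⟨h, hh⟩ : ∃ h : (ZMod d)ˣ → ℝ, h = fun z => sm S U z - sm F U z := ⟨_, rfl⟩
  have hSh : ∀ χ, SF h χ = (((b χ ^ 2 - 1 : ℝ) : ℂ) * SF F χ) *
      ∑ p ∈ U, ((1 / (p : ℝ) : ℝ) : ℂ) * (starRingEnd ℂ) (ev χ (ucl d p)) := by
    intro χ
    have h1 : SF h χ = SF (sm S U) χ - SF (sm F U) χ := by
      rw [hh]
      unfold SF
      rw [← sum_sub_distrib]
      refine sum_congr rfl fun c _ => ?_
      push_cast
      ring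
    rw [h1, SF_sm, SF_sm, hSF]
    push_cast
    ring
  have hnorm : ∀ χ, ‖SF h χ‖ ^ 2 ≤ (Wt U * (2 * η + τ)) ^ 2 * ‖SF F χ‖ ^ 2 := by
    intro χ
    rw [← mul_pow]
    refine pow_le_pow_left₀ (norm_nonneg _) ?_ 2
    rw [hSh, norm_mul, norm_mul, blk_D hU hW, Complex.norm_real, Real.norm_eq_abs]
    have hb0 := hK.b_nonneg χ
    have hb1 := hK.b_le χ
    have h1 : |b χ ^ 2 - 1| = 1 - b χ ^ 2 := by
      rw [abs_of_nonpos (by nlinarith)]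
      ring
    rw [h1]
    have hP := norm_Pa_le U χ
    have hP0 := norm_nonneg (Pa U χ)
    have h2 : (1 - b χ ^ 2) * ‖Pa U χ‖ ≤ 2 * η + τ := by
      by_cases hx : χ ∈ X
      · have h3 := hK.big χ hx
        have h4 : 1 - b χ ^ 2 ≤ 2 * η := by nlinarith
        have h5 : 0 ≤ 1 - b χ ^ 2 := by nlinarith
        calc (1 - b χ ^ 2) * ‖Pa U χ‖ ≤ (1 - b χ ^ 2) * 1 := mul_le_mul_of_nonneg_left hP h5
          _ ≤ 2 * η + τ := by linarith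
      · have h3 := hX χ hx
        have h4 : 1 - b χ ^ 2 ≤ 1 := by nlinarith
        calc (1 - b χ ^ 2) * ‖Pa U χ‖ ≤ 1 * ‖Pa U χ‖ := mul_le_mul_of_nonneg_right h4 hP0
          _ ≤ 2 * η + τ := by linarith
    have h3 : (1 - b χ ^ 2) * ‖SF F χ‖ * (Wt U * ‖Pa U χ‖) = Wt U * ((1 - b χ ^ 2) * ‖Pa U χ‖) * ‖SF F χ‖ := by ring
    rw [h3]
    exact mul_le_mul_of_nonneg_right (mul_le_mul_of_nonneg_left h2 hW.le) (norm_nonneg _)
  -- parseval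
  have hsum : ∑ z : (ZMod d)ˣ, h z ^ 2 ≤ (Wt U * (2 * η + τ) * C) ^ 2 * (Fintype.card (ZMod d)ˣ : ℝ) := by
    have h1 := parseval_SF h
    have h2 := parseval_SF F
    have h3 : ∑ χ : DirichletCharacter ℂ d, ‖SF h χ‖ ^ 2 ≤ (Wt U * (2 * η + τ)) ^ 2 * ∑ χ : DirichletCharacter ℂ d, ‖SF F χ‖ ^ 2 := by
      rw [mul_sum]
      exact sum_le_sum fun χ _ => hnorm χ
    rw [h1, h2] at h3
    have h4 : ∑ c : (ZMod d)ˣ, F c ^ 2 ≤ (Fintype.card (ZMod d)ˣ : ℝ) * C ^ 2 := by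
      calc ∑ c : (ZMod d)ˣ, F c ^ 2 ≤ ∑ _c : (ZMod d)ˣ, C ^ 2 :=
            sum_le_sum fun c _ => pow_le_pow_left₀ (hF0 c) (by rw [hF]; exact hC c) 2
        _ = (Fintype.card (ZMod d)ˣ : ℝ) * C ^ 2 := by
            rw [sum_const, card_univ, nsmul_eq_mul]
    have h5 : (Fintype.card (ZMod d)ˣ : ℝ) * ∑ z : (ZMod d)ˣ, h z ^ 2 ≤
        (Fintype.card (ZMod d)ˣ : ℝ) * ((Wt U * (2 * η + τ) * C) ^ 2 * (Fintype.card (ZMod d)ˣ : ℝ)) := by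
      refine h3.trans ?_
      have h6 : (Wt U * (2 * η + τ)) ^ 2 * ((Fintype.card (ZMod d)ˣ : ℝ) * ∑ c : (ZMod d)ˣ, F c ^ 2) ≤
          (Wt U * (2 * η + τ)) ^ 2 * ((Fintype.card (ZMod d)ˣ : ℝ) * ((Fintype.card (ZMod d)ˣ : ℝ) * C ^ 2)) :=
        mul_le_mul_of_nonneg_left (mul_le_mul_of_nonneg_left h4 hφ.le) (by positivity)
      refine h6.trans (le_of_eq ?_)
      ring
    exact le_of_mul_le_mul_left h5 hφ
  -- the classes in `E`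
  have hEz : ∀ z ∈ E, ∑ p ∈ U, 1 / (p : ℝ) * cv (sm β A) (sm β B) (z * (ucl d p)⁻¹) = h z := by
    intro z hz
    have h1 : sm F U z = 0 := by
      unfold sm
      refine sum_eq_zero fun p hp => ?_
      rw [hF, cv_den_zero A B hA hB, mul_zero]
      intro m hm n hn hc
      apply hE z hz p hp m hm n hn
      rw [Nat.cast_mul, hc, ← ucl_val (hU p hp), ← Units.val_mul, mul_comm z, mul_inv_cancel_left]
    rw [hh]
    show _ = sm S U z - sm F U z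
    rw [h1, sub_zero, hS]
    rfl
  rw [sum_congr rfl hEz]
  have hcs : ∑ z ∈ E, h z ≤ √(E.card : ℝ) * √(∑ z : (ZMod d)ˣ, h z ^ 2) := by
    have h1 : ∑ z ∈ E, h z ≤ √((E.card : ℝ) * ∑ z ∈ E, h z ^ 2) := by
      apply Real.le_sqrt_of_sq_le
      have h2 := sq_sum_le_card_mul_sum_sq (s := E) (f := h)
      exact h2
    refine h1.trans ?_
    rw [← Real.sqrt_mul (Nat.cast_nonneg _)]
    refine Real.sqrt_le_sqrt ?_
    refine mul_le_mul_of_nonneg_left ?_ (Nat.cast_nonneg _)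
    exact sum_le_sum_of_subset_of_nonneg (subset_univ _) fun _ _ _ => sq_nonneg _
  have hsq : √(∑ z : (ZMod d)ˣ, h z ^ 2) ≤ Wt U * (2 * η + τ) * C * √(Fintype.card (ZMod d)ˣ : ℝ) := by
    refine (Real.sqrt_le_sqrt hsum).trans (le_of_eq ?_)
    rw [Real.sqrt_mul (sq_nonneg _), Real.sqrt_sq (by positivity)]
  have hmu : √(mu (E : Set (ZMod d)ˣ)) = √(E.card : ℝ) / √(Fintype.card (ZMod d)ˣ : ℝ) := by
    rw [mu, Set.ncard_coe_finset, Real.sqrt_div (Nat.cast_nonneg _)]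
  rw [hmu, div_le_iff₀ hφ]
  have h6 : 0 < √(Fintype.card (ZMod d)ˣ : ℝ) := Real.sqrt_pos.2 hφ
  have h7 : √(Fintype.card (ZMod d)ˣ : ℝ) * √(Fintype.card (ZMod d)ˣ : ℝ) = (Fintype.card (ZMod d)ˣ : ℝ) :=
    Real.mul_self_sqrt hφ.le
  have h8 : Wt U * ((2 * η + τ) * C) * (√(E.card : ℝ) / √(Fintype.card (ZMod d)ˣ : ℝ)) * (Fintype.card (ZMod d)ˣ : ℝ) =
      √(E.card : ℝ) * (Wt U * (2 * η + τ) * C * √(Fintype.card (ZMod d)ˣ : ℝ)) := by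
    clear hsq hmu
    generalize √(Fintype.card (ZMod d)ˣ : ℝ) = r at *
    rw [← h7]
    field_simp
  rw [h8]
  exact hcs.trans (mul_le_mul_of_nonneg_left hsq (Real.sqrt_nonneg _))

/-- JOB Blk2. Choice of the class `g = z / p`. Proof: by `blk` for every `i ∈ I` and summation, the weighted average of
`∑_{i ∈ I} cv ..` over `(z, p) ∈ E × U` (total weight `mu E * Wt U`) is at most `#I (2 η + τ) C / √(mu E)`; take a pair at which it is at most the average;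
all the terms are `≥ 0`. -/
theorem exists_g {ι : Type*} (I : Finset ι) {X : Finset (DirichletCharacter ℂ d)} {η Q : ℝ} {β : (ZMod d)ˣ → ℝ}
    {b : DirichletCharacter ℂ d → ℝ} (hK : Ker X η Q β b) (hη : 0 ≤ η) {τ C : ℝ} (hτ : 0 ≤ τ) (U : Finset ℕ) (A B : ι → Finset ℕ)
    (hU : ∀ p ∈ U, p.Coprime d) (hA : ∀ i ∈ I, ∀ m ∈ A i, m.Coprime d) (hB : ∀ i ∈ I, ∀ n ∈ B i, n.Coprime d) (hW : 0 < Wt U)
    (hX : ∀ χ, χ ∉ X → ‖Pa U χ‖ ≤ τ) (hC : ∀ i ∈ I, ∀ x : (ZMod d)ˣ, cv (den (A i)) (den (B i)) x ≤ C) (E : Finset (ZMod d)ˣ)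
    (hE0 : E.Nonempty)
    (hE : ∀ z ∈ E, ∀ p ∈ U, ∀ i ∈ I, ∀ m ∈ A i, ∀ n ∈ B i, ((p * (m * n) : ℕ) : ZMod d) ≠ (z : ZMod d)) :
    ∃ z ∈ E, ∃ p ∈ U, ∀ i ∈ I, cv (sm β (A i)) (sm β (B i)) (z * (ucl d p)⁻¹) ≤
      (I.card : ℝ) * ((2 * η + τ) * C) / √(mu (E : Set (ZMod d)ˣ)) := by
  classical
  have hφ : (0 : ℝ) < (Fintype.card (ZMod d)ˣ : ℝ) := card_pos
  have hEc : (0 : ℝ) < E.card := by exact_mod_cast hE0.card_pos
  have hmu : 0 < mu (E : Set (ZMod d)ˣ) := by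
    rw [mu, Set.ncard_coe_finset]
    positivity
  obtain ⟨M, hM⟩ : ∃ M, M = (I.card : ℝ) * ((2 * η + τ) * C) / √(mu (E : Set (ZMod d)ˣ)) := ⟨_, rfl⟩
  rw [← hM]
  have hcv0 : ∀ i x, 0 ≤ cv (sm β (A i)) (sm β (B i)) x := fun i x =>
    av_nonneg fun y => mul_nonneg (sm_nonneg hK.nonneg _ _) (sm_nonneg hK.nonneg _ _)
  by_contra hcon
  push Not at hcon
  -- the sum over `I`
  have h1 : ∀ z ∈ E, ∀ p ∈ U, M < ∑ i ∈ I, cv (sm β (A i)) (sm β (B i)) (z * (ucl d p)⁻¹) := by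
    intro z hz p hp
    obtain ⟨i, hi, h2⟩ := hcon z hz p hp
    exact lt_of_lt_of_le h2 (single_le_sum (f := fun i => cv (sm β (A i)) (sm β (B i)) (z * (ucl d p)⁻¹))
      (fun i _ => hcv0 i _) hi)
  have hUne : U.Nonempty := by
    rw [nonempty_iff_ne_empty]
    intro h0
    rw [h0, Wt, sum_empty] at hW
    exact lt_irrefl _ hW
  have h2 : (E.card : ℝ) * Wt U * M < ∑ z ∈ E, ∑ p ∈ U, 1 / (p : ℝ) * ∑ i ∈ I, cv (sm β (A i)) (sm β (B i)) (z * (ucl d p)⁻¹) := by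
    have h3 : (E.card : ℝ) * Wt U * M = ∑ _z ∈ E, ∑ p ∈ U, 1 / (p : ℝ) * M := by
      rw [sum_const, nsmul_eq_mul, ← sum_mul, mul_assoc]
      rfl
    rw [h3]
    refine sum_lt_sum_of_nonempty hE0 fun z hz => ?_
    obtain ⟨p, hp, hp0⟩ : ∃ p ∈ U, 0 < 1 / (p : ℝ) := by
      by_contra hc
      push Not at hc
      have h5 : Wt U ≤ 0 := sum_nonpos fun p hp => hc p hp
      linarith
    refine sum_lt_sum (fun p hp => mul_le_mul_of_nonneg_left (h1 z hz p hp).le (by positivity)) ⟨p, hp, ?_⟩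
    exact mul_lt_mul_of_pos_left (h1 z hz p hp) hp0
  have h3 : ∑ z ∈ E, ∑ p ∈ U, 1 / (p : ℝ) * ∑ i ∈ I, cv (sm β (A i)) (sm β (B i)) (z * (ucl d p)⁻¹) =
      ∑ i ∈ I, ∑ z ∈ E, ∑ p ∈ U, 1 / (p : ℝ) * cv (sm β (A i)) (sm β (B i)) (z * (ucl d p)⁻¹) := by
    rw [sum_comm (s := I)]
    refine sum_congr rfl fun z _ => ?_
    rw [sum_comm (s := I)]
    exact sum_congr rfl fun p _ => mul_sum _ _ _
  have h4 : ∀ i ∈ I, ∑ z ∈ E, ∑ p ∈ U, 1 / (p : ℝ) * cv (sm β (A i)) (sm β (B i)) (z * (ucl d p)⁻¹) ≤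
      Wt U * ((2 * η + τ) * C) * √(mu (E : Set (ZMod d)ˣ)) * (Fintype.card (ZMod d)ˣ : ℝ) := by
    intro i hi
    have h5 := blk hK hη hτ U (A i) (B i) hU (hA i hi) (hB i hi) hW hX (hC i hi) E fun z hz p hp m hm n hn =>
      hE z hz p hp i hi m hm n hn
    rwa [div_le_iff₀ hφ] at h5
  rw [h3] at h2
  have h5 := h2.trans_le (sum_le_sum h4)
  rw [sum_const, nsmul_eq_mul] at h5
  have h6 : (E.card : ℝ) * Wt U * M = (I.card : ℝ) * (Wt U * ((2 * η + τ) * C) * √(mu (E : Set (ZMod d)ˣ)) *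
      (Fintype.card (ZMod d)ˣ : ℝ)) := by
    have h7 : (E.card : ℝ) = mu (E : Set (ZMod d)ˣ) * (Fintype.card (ZMod d)ˣ : ℝ) := by
      rw [mu, Set.ncard_coe_finset, div_mul_cancel₀ _ hφ.ne']
    have h8 : √(mu (E : Set (ZMod d)ˣ)) * √(mu (E : Set (ZMod d)ˣ)) = mu (E : Set (ZMod d)ˣ) := Real.mul_self_sqrt hmu.le
    have h9 : 0 < √(mu (E : Set (ZMod d)ˣ)) := Real.sqrt_pos.2 hmu
    rw [hM, h7]
    clear h5 h4 hM h1 hcon h2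
    generalize √(mu (E : Set (ZMod d)ˣ)) = r at *
    rw [← h8]
    field_simp
  rw [h6] at h5
  exact lt_irrefl _ h5

/-- from the convolution to the threshold sets -/
theorem pair_of_cv {β : (ZMod d)ˣ → ℝ} (hβ : ∀ g, 0 ≤ β g) {α a a' b b' : ℝ} {κ : ℕ → ℝ} {i j : ℕ} (hi : 0 ≤ κ i) (hj : 0 ≤ κ j)
    (g : (ZMod d)ˣ) :
    κ i * κ j * mu (Th d β α κ i a a' ∩ rf g (Th d β α κ j b b')) ≤ cv (sm β (EW d α i a a')) (sm β (EW d α j b b')) g := by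
  classical
  rw [mu_ind, ← mul_div_assoc, mul_sum, cv, av]
  refine div_le_div_of_nonneg_right (sum_le_sum fun x _ => ?_) card_pos.le
  by_cases h : x ∈ Th d β α κ i a a' ∩ rf g (Th d β α κ j b b')
  · rw [Set.indicator_of_mem h, mul_one]
    have h1 : κ i < sm β (EW d α i a a') x := h.1
    have h2 : κ j < sm β (EW d α j b b') (g * x⁻¹) := h.2
    exact mul_le_mul h1.le h2.le hj (sm_nonneg hβ _ _)
  · rw [Set.indicator_of_notMem h, mul_zero]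
    exact mul_nonneg (sm_nonneg hβ _ _) (sm_nonneg hβ _ _)

end Pool.Agent.Lib.MP_42948a_nt.TS
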