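import Pool.Agent.Lib.MP_42948a_nt.TS.Mu
import Pool.Agent.Lib.MP_42948a_nt.TF.FC

/-!
# Multiplication of the threshold sets by primes; the coverage with shifted counts
-/

set_option linter.unusedSectionVars false

namespace Pool.Agent.Lib.MP_42948a_nt.TS

open Finset Pool.Agent.Lib.MP_42948a_nt.OA Pool.Agent.Lib.MP_42948a_nt.TQ Pool.Agent.Lib.MP_42948a_nt.PS
  Pool.Agent.Lib.MP_42948a_nt.TF

section mu_ind

variable {G : Type*} [CommGroup G] [Fintype G]

theorem ncard_ind (A : Set G) : (A.ncard : ℝ) = ∑ x : G, A.indicator (fun _ => (1 : ℝ)) x := by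
  classical
  have h1 : A = ↑(univ.filter fun x => x ∈ A) := by
    ext x
    rw [coe_filter]
    simp
  have h2 : A.ncard = (univ.filter fun x => x ∈ A).card := by
    conv_lhs => rw [h1]
    rw [Set.ncard_coe_finset]
  rw [h2, card_filter]
  push_cast
  refine sum_congr rfl fun x _ => ?_
  by_cases h : x ∈ A
  · rw [if_pos h, Set.indicator_of_mem h]
  · rw [if_neg h, Set.indicator_of_notMem h]

theorem mu_ind (A : Set G) : mu A = (∑ x : G, A.indicator (fun _ => (1 : ℝ)) x) / (Fintype.card G : ℝ) := by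
  rw [mu, ncard_ind]

end mu_ind

variable {d : ℕ} [NeZero d]

/-- multiplication of the threshold sets by the primes of a window -/
theorem th_mul {β : (ZMod d)ˣ → ℝ} (hβ : ∀ g, 0 ≤ β g) {α a a' b b' A A' : ℝ} {κ : ℕ → ℝ} {i : ℕ} (hb : α ≤ b)
    (hA : A ≤ a + b) (hA' : a' + b' ≤ A') (hκ : 0 < κ i) (hκ' : 0 ≤ κ (i + 1)) :
    ∑ p ∈ PW d b b', 1 / (p : ℝ) * mu (tr (ucl d p) (Th d β α κ i a a') \ Th d β α κ (i + 1) A A') ≤
      (i + 1) * κ (i + 1) / κ i := by
  classical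
  have hd : 1 ≤ d := NeZero.one_le
  have hφ : (0 : ℝ) < (Fintype.card (ZMod d)ˣ : ℝ) := card_pos
  have key : ∀ x : (ZMod d)ˣ, ∑ p ∈ PW d b b', 1 / (p : ℝ) *
      (κ i * (tr (ucl d p) (Th d β α κ i a a') \ Th d β α κ (i + 1) A A').indicator (fun _ => (1 : ℝ)) x) ≤
      (i + 1) * κ (i + 1) := by
    intro x
    by_cases hx : x ∈ Th d β α κ (i + 1) A A'
    · rw [sum_eq_zero]
      · positivity
      · intro p _
        rw [Set.indicator_of_notMem (fun h => h.2 hx), mul_zero, mul_zero]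
    · have h1 : sm β (EW d α (i + 1) (a + b) (a' + b')) x ≤ κ (i + 1) := by
        refine (sm_mono hβ (EW_mono hd hA hA') x).trans ?_
        exact not_lt.1 hx
      have h2 := sm_dom hd hβ α a a' b b' i hb x
      refine le_trans (sum_le_sum fun p _ => ?_) (h2.trans (mul_le_mul_of_nonneg_left h1 (by positivity)))
      refine mul_le_mul_of_nonneg_left ?_ (by positivity)
      by_cases h3 : x ∈ tr (ucl d p) (Th d β α κ i a a') \ Th d β α κ (i + 1) A A'
      · rw [Set.indicator_of_mem h3, mul_one]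
        exact (show κ i < sm β (EW d α i a a') (x * (ucl d p)⁻¹) from h3.1).le
      · rw [Set.indicator_of_notMem h3, mul_zero]
        exact sm_nonneg hβ _ _
  have h3 : κ i * ∑ p ∈ PW d b b', 1 / (p : ℝ) * mu (tr (ucl d p) (Th d β α κ i a a') \ Th d β α κ (i + 1) A A') =
      (∑ x : (ZMod d)ˣ, ∑ p ∈ PW d b b', 1 / (p : ℝ) *
        (κ i * (tr (ucl d p) (Th d β α κ i a a') \ Th d β α κ (i + 1) A A').indicator (fun _ => (1 : ℝ)) x)) /
        (Fintype.card (ZMod d)ˣ : ℝ) := by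
    rw [sum_comm, mul_sum, sum_div]
    refine sum_congr rfl fun p _ => ?_
    rw [mu_ind, ← mul_sum, ← mul_sum]
    ring
  rw [le_div_iff₀ hκ, mul_comm, h3, div_le_iff₀ hφ]
  refine (sum_le_sum fun x _ => key x).trans ?_
  rw [sum_const, nsmul_eq_mul, card_univ, mul_comm]

/-- the coverage with shifted counts -/
theorem cov_shift {β : (ZMod d)ˣ → ℝ} (hβ : ∀ g, 0 ≤ β g) {α a a' b b' c : ℝ} {r : ℕ} (hb : α ≤ b)
    (hc : ∀ x, c ≤ ∑ i ∈ Icc 1 r, sm β (EW d α i a a') x) (l : ℕ) (x : (ZMod d)ˣ) :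
    c * ∏ m ∈ range l, (Wt (PW d b b') / (r + m + 1)) ≤
      ∑ i ∈ Icc 1 r, sm β (EW d α (i + l) (a + l * b) (a' + l * b')) x := by
  have hd : 1 ≤ d := NeZero.one_le
  induction l generalizing x with
  | zero =>
    rw [range_zero, prod_empty, mul_one]
    refine (hc x).trans (le_of_eq (sum_congr rfl fun i _ => ?_))
    rw [Nat.cast_zero, zero_mul, zero_mul, add_zero, add_zero, add_zero]
  | succ l ih =>
    have hr : (0 : ℝ) < r + l + 1 := by positivity
    have h1 : Wt (PW d b b') * (c * ∏ m ∈ range l, (Wt (PW d b b') / (r + m + 1))) ≤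
        ∑ y ∈ PW d b b', 1 / (y : ℝ) * ∑ i ∈ Icc 1 r, sm β (EW d α (i + l) (a + l * b) (a' + l * b')) (x * (ucl d y)⁻¹) := by
      rw [Wt, sum_mul]
      exact sum_le_sum fun y _ => mul_le_mul_of_nonneg_left (ih _) (by positivity)
    have h2 : ∑ y ∈ PW d b b', 1 / (y : ℝ) * ∑ i ∈ Icc 1 r, sm β (EW d α (i + l) (a + l * b) (a' + l * b')) (x * (ucl d y)⁻¹) =
        ∑ i ∈ Icc 1 r, ∑ y ∈ PW d b b', 1 / (y : ℝ) * sm β (EW d α (i + l) (a + l * b) (a' + l * b')) (x * (ucl d y)⁻¹) := by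
      rw [sum_comm]
      exact sum_congr rfl fun y _ => mul_sum _ _ _
    have h3 : ∀ i ∈ Icc 1 r, ∑ y ∈ PW d b b', 1 / (y : ℝ) * sm β (EW d α (i + l) (a + l * b) (a' + l * b')) (x * (ucl d y)⁻¹) ≤
        (r + l + 1) * sm β (EW d α (i + (l + 1)) (a + (l + 1 : ℕ) * b) (a' + (l + 1 : ℕ) * b')) x := by
      intro i hi
      have h4 := sm_dom hd hβ α (a + l * b) (a' + l * b') b b' (i + l) hb x
      rw [show a + l * b + b = a + (l + 1 : ℕ) * b by push_cast; ring,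
        show a' + l * b' + b' = a' + (l + 1 : ℕ) * b' by push_cast; ring, add_assoc i l 1] at h4
      refine h4.trans (mul_le_mul_of_nonneg_right ?_ (sm_nonneg hβ _ _))
      have h5 : (i : ℝ) ≤ r := by exact_mod_cast (mem_Icc.1 hi).2
      push_cast
      linarith
    have h4 := h1.trans (h2.le.trans (sum_le_sum h3))
    rw [← mul_sum] at h4
    rw [prod_range_succ]
    have h5 : c * ((∏ m ∈ range l, (Wt (PW d b b') / (r + m + 1))) * (Wt (PW d b b') / (r + l + 1))) =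
        Wt (PW d b b') * (c * ∏ m ∈ range l, (Wt (PW d b b') / (r + m + 1))) / (r + l + 1) := by
      ring
    rw [h5, div_le_iff₀ hr, mul_comm _ ((r : ℝ) + l + 1)]
    exact h4

/-- the coverage by threshold sets -/
theorem cov_sets {β : (ZMod d)ˣ → ℝ} (hβ : ∀ g, 0 ≤ β g) {α a a' b b' c A A' : ℝ} {κ : ℕ → ℝ} {r : ℕ} (hb : α ≤ b)
    (hc : ∀ x, c ≤ ∑ i ∈ Icc 1 r, sm β (EW d α i a a') x) (l : ℕ) (hA : A ≤ a + l * b) (hA' : a' + l * b' ≤ A')
    (hκ : ∑ i ∈ Icc 1 r, κ (i + l) < c * ∏ m ∈ range l, (Wt (PW d b b') / (r + m + 1))) (x : (ZMod d)ˣ) :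
    ∃ i ∈ Icc 1 r, x ∈ Th d β α κ (i + l) A A' := by
  have hd : 1 ≤ d := NeZero.one_le
  by_contra hcon
  push Not at hcon
  have h1 := cov_shift (b' := b') hβ hb hc l x
  have h2 : ∑ i ∈ Icc 1 r, sm β (EW d α (i + l) (a + l * b) (a' + l * b')) x ≤ ∑ i ∈ Icc 1 r, κ (i + l) := by
    refine sum_le_sum fun i hi => ?_
    refine (sm_mono hβ (EW_mono hd hA hA') x).trans ?_
    exact not_lt.1 (hcon i hi)
  linarith

end Pool.Agent.Lib.MP_42948a_nt.TS
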