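import Pool.Agent.Lib.MP_42948a_nt.TS.Rel
import Pool.Agent.Lib.MP_42948a_nt.TS.Thr

/-!
# All primes up to the exponent `s0` act in the same way on the threshold sets
-/

set_option linter.unusedSectionVars false

namespace Pool.Agent.Lib.MP_42948a_nt.TS

open Finset Pool.Agent.Lib.MP_42948a_nt.OA Pool.Agent.Lib.MP_42948a_nt.TQ Pool.Agent.Lib.MP_42948a_nt.PS
  Pool.Agent.Lib.MP_42948a_nt.TF

section pseudo

variable {G : Type*} [CommGroup G] [Fintype G]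

theorem mu_symm_tri (A B C : Set G) : mu (symmDiff A C) ≤ mu (symmDiff A B) + mu (symmDiff B C) := by
  refine mu_cov2 fun x hx => ?_
  by_cases h : x ∈ B
  · rcases hx with hx | hx
    · exact Or.inr (Or.inl ⟨h, hx.2⟩)
    · exact Or.inl (Or.inr ⟨h, hx.2⟩)
  · rcases hx with hx | hx
    · exact Or.inl (Or.inl ⟨hx.1, h⟩)
    · exact Or.inr (Or.inr ⟨hx.1, h⟩)

theorem mu_tr_diff (p q : G) (A : Set G) : mu (tr p A \ tr q A) = mu (tr (p * q⁻¹) A \ A) := by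
  rw [← mu_tr q (tr (p * q⁻¹) A \ A)]
  congr 1
  ext x
  rw [Set.mem_sdiff, mem_tr, mem_tr, mem_tr, Set.mem_sdiff, mem_tr, mul_inv, inv_inv, mul_comm p⁻¹ q, ← mul_assoc,
    inv_mul_cancel_right]

theorem mu_tr_symm {p q : G} {A : Set G} {c : ℝ} (h1 : mu (tr (p * q⁻¹) A \ A) ≤ c) (h2 : mu (tr (q * p⁻¹) A \ A) ≤ c) :
    mu (symmDiff (tr p A) (tr q A)) ≤ 2 * c := by
  have h3 := mu_symm (A := tr p A) (C := tr q A) (a := c) (b := c) (by rwa [mu_tr_diff]) (by rwa [mu_tr_diff])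
  linarith

/-- a chain of overlapping good sets -/
theorem pseudo_chain {P : Type*} (D : P → P → ℝ) (htri : ∀ p q r, D p r ≤ D p q + D q r) {c : ℝ} (good : ℕ → P → Prop) {n : ℕ}
    (h1 : ∀ m < n, ∀ p q, good m p → good m q → D p q ≤ c) (h2 : ∀ m, m + 1 < n → ∃ q, good m q ∧ good (m + 1) q)
    (l m : ℕ) (hm : m + l < n) (p q : P) (hp : good m p) (hq : good (m + l) q) : D p q ≤ (l + 1) * c := by
  induction l generalizing q with
  | zero =>
    rw [Nat.cast_zero, zero_add, one_mul]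
    exact h1 m hm p q hp hq
  | succ l ih =>
    obtain ⟨r, hr1, hr2⟩ := h2 (m + l) (by omega)
    have e1 := ih (by omega) r hr1
    have e2 := h1 (m + l + 1) (by omega) r q hr2 hq
    have e3 := htri p r q
    push_cast
    linarith

end pseudo

theorem wt_biUnion (X : ℕ → Finset ℕ) (n : ℕ) : Wt ((range n).biUnion X) ≤ ∑ m ∈ range n, Wt (X m) := by
  classical
  induction n with
  | zero => simp [Wt]
  | succ n ih =>
    rw [sum_range_succ, range_add_one, biUnion_insert]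
    have h4 : Wt (X n ∪ (range n).biUnion X) ≤ Wt (X n) + Wt ((range n).biUnion X) := by
      unfold Wt
      rw [← sum_union_inter]
      exact le_add_of_nonneg_right (sum_nonneg fun _ _ => by positivity)
    linarith

variable {d : ℕ} [NeZero d]

private theorem chain_loc {α s0 η : ℝ} {n : ℕ} (hη : 0 < η) (hn : s0 ≤ α + (n + 1) * η) (hn1 : 1 ≤ n) {p : ℕ}
    (hp : p ∈ PW d α s0) : ∃ m < n, p ∈ PW d (α + m * η) (α + (m + 2) * η) := by
  have hd : (1 : ℝ) ≤ d := by exact_mod_cast (NeZero.one_le : 1 ≤ d)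
  have hfl : ∀ a b : ℝ, a ≤ b → ⌊(d : ℝ) ^ a⌋₊ ≤ ⌊(d : ℝ) ^ b⌋₊ := fun a b h =>
    Nat.floor_le_floor (Real.rpow_le_rpow_of_exponent_le hd h)
  rw [mem_PW] at hp
  obtain ⟨hp1, hp2, hp3, hp4⟩ := hp
  classical
  have hex : ∃ m : ℕ, p ≤ ⌊(d : ℝ) ^ (α + (m + 1) * η)⌋₊ := ⟨n, hp3.trans (hfl _ _ hn)⟩
  obtain ⟨m, hm1, hm2⟩ : ∃ m : ℕ, p ≤ ⌊(d : ℝ) ^ (α + (m + 1) * η)⌋₊ ∧ ∀ j < m, ¬ p ≤ ⌊(d : ℝ) ^ (α + (j + 1) * η)⌋₊ :=
    ⟨Nat.find hex, Nat.find_spec hex, fun j hj => Nat.find_min hex hj⟩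
  have hmn : m ≤ n := by
    by_contra hcon
    exact hm2 n (by omega) (hp3.trans (hfl _ _ hn))
  have hlow : ⌊(d : ℝ) ^ (α + m * η)⌋₊ < p := by
    rcases Nat.eq_zero_or_pos m with h0 | h0
    · rw [h0, Nat.cast_zero, zero_mul, add_zero]
      exact hp2
    · have h3 := hm2 (m - 1) (by omega)
      have h4 : ((m - 1 : ℕ) : ℝ) + 1 = m := by
        rw [Nat.cast_sub h0]
        push_cast
        ring
      rw [h4] at h3
      exact not_le.1 h3
  by_cases h5 : m < n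
  · refine ⟨m, h5, ?_⟩
    rw [mem_PW]
    exact ⟨hp1, hlow, hm1.trans (hfl _ _ (by nlinarith)), hp4⟩
  · have h6 : m = n := by omega
    refine ⟨n - 1, by omega, ?_⟩
    have h7 : ((n - 1 : ℕ) : ℝ) = n - 1 := by
      rw [Nat.cast_sub hn1]
      push_cast
      ring
    rw [mem_PW, h7]
    rw [h6] at hlow hm1
    refine ⟨hp1, lt_of_le_of_lt (hfl _ _ (by nlinarith)) hlow, hm1.trans (hfl _ _ (by nlinarith)), hp4⟩

theorem chain (k n : ℕ) {β : (ZMod d)ˣ → ℝ} (hβ : ∀ g, 0 ≤ β g) {α aT hT hb s0 η e e1 δ : ℝ} {κ : ℕ → ℝ} {B : ℕ → Set (ZMod d)ˣ}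
    {g : (ZMod d)ˣ} (hη : 0 < η) (hbT : hb + 2 * η ≤ hT) (hn : s0 ≤ α + (n + 1) * η) (hn1 : 1 ≤ n) (he : 0 ≤ e)
    (hκ : ∀ i, 0 < κ i) (he1 : 0 < e1) (hκs : ∑ i ∈ Icc 1 (k - 1), ((i : ℝ) + 1) * κ (i + 1) / κ i ≤ e1 * δ)
    (hO : ∀ m : ℕ, m < n → 2 * δ < Wt (PW d (α + (m + 1) * η) (α + (m + 2) * η)))
    (hR : Rel k e g (fun i => Th d β α κ i aT (aT + hT)) B)
    (hR0 : Rel k e g (fun i => Th d β α κ i (aT - α) (aT - α + hb)) B)
    (hcov : ∀ m : ℕ, m < n → ∀ j, 1 ≤ j → j + 3 ≤ k → ∀ x,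
      x ∈ Th d β α κ j (aT - (α + m * η)) (aT - (α + m * η) + hb) ∨ x ∈ Th d β α κ (j + 1) (aT - (α + m * η)) (aT - (α + m * η) + hb) ∨
      x ∈ Th d β α κ (j + 2) (aT - (α + m * η)) (aT - (α + m * η) + hb) ∨
      x ∈ Th d β α κ (j + 3) (aT - (α + m * η)) (aT - (α + m * η) + hb)) :
    ∃ Bad : Finset ℕ, Bad ⊆ PW d α s0 ∧ Wt Bad ≤ n * δ ∧ ∀ i, 4 ≤ i → i + 4 ≤ k → ∀ p ∈ PW d α s0, p ∉ Bad →
      mu (symmDiff (tr (ucl d p) (Th d β α κ i aT (aT + hT))) (Th d β α κ (i + 1) aT (aT + hT))) ≤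
        (n + 1) * (16 * e + 10 * e1) + 13 * e + 3 * e1 := by
  classical
  have hd : 1 ≤ d := NeZero.one_le
  obtain ⟨T, hT'⟩ : ∃ T : ℕ → Set (ZMod d)ˣ, T = fun i => Th d β α κ i aT (aT + hT) := ⟨_, rfl⟩
  obtain ⟨U, hU⟩ : ∃ U : ℕ → ℕ → Set (ZMod d)ˣ, U = fun (m : ℕ) i => Th d β α κ i (aT - (α + m * η)) (aT - (α + m * η) + hb) := ⟨_, rfl⟩
  obtain ⟨err, herr⟩ : ∃ err : ℕ → ℕ → ℝ, err = fun m p => ∑ i ∈ Icc 1 (k - 1), mu (tr (ucl d p) (U m i) \ T (i + 1)) := ⟨_, rfl⟩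
  obtain ⟨I, hI⟩ : ∃ I : ℕ → Finset ℕ, I = fun (m : ℕ) => PW d (α + m * η) (α + (m + 2) * η) := ⟨_, rfl⟩
  obtain ⟨X, hX⟩ : ∃ X : ℕ → Finset ℕ, X = fun m => (I m).filter (fun p => e1 < err m p) := ⟨_, rfl⟩
  have hδ0 : 0 ≤ δ := by
    have h1 : 0 ≤ ∑ i ∈ Icc 1 (k - 1), ((i : ℝ) + 1) * κ (i + 1) / κ i :=
      sum_nonneg fun i _ => div_nonneg (mul_nonneg (by positivity) (hκ _).le) (hκ _).le
    by_contra hcon
    nlinarith
  -- the weight of the exceptional primes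
  have hXw : ∀ m, Wt (X m) ≤ δ := by
    intro m
    have h1 : ∑ p ∈ I m, 1 / (p : ℝ) * err m p ≤ e1 * δ := by
      refine le_trans ?_ hκs
      have h2 : ∑ p ∈ I m, 1 / (p : ℝ) * err m p =
          ∑ i ∈ Icc 1 (k - 1), ∑ p ∈ I m, 1 / (p : ℝ) * mu (tr (ucl d p) (U m i) \ T (i + 1)) := by
        rw [sum_comm, herr]
        exact sum_congr rfl fun p _ => mul_sum _ _ _
      rw [h2]
      refine sum_le_sum fun i _ => ?_
      rw [hI, hU, hT']
      have hm0 : 0 ≤ (m : ℝ) * η := by positivity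
      exact th_mul hβ (by linarith) (by linarith) (by linarith) (hκ i) (hκ (i + 1)).le
    have h3 : e1 * Wt (X m) ≤ ∑ p ∈ I m, 1 / (p : ℝ) * err m p := by
      have h4 : e1 * Wt (X m) = ∑ p ∈ X m, 1 / (p : ℝ) * e1 := by
        rw [Wt, mul_sum]
        exact sum_congr rfl fun p _ => mul_comm _ _
      rw [h4]
      have h5 : X m ⊆ I m := by
        rw [hX]
        exact filter_subset _ _
      refine (sum_le_sum fun p hp => ?_).trans (sum_le_sum_of_subset_of_nonneg h5 fun p _ _ => ?_)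
      · refine mul_le_mul_of_nonneg_left ?_ (by positivity)
        rw [hX] at hp
        exact (mem_filter.1 hp).2.le
      · rw [herr]
        exact mul_nonneg (by positivity) (sum_nonneg fun i _ => mu_nonneg _)
    exact le_of_mul_le_mul_left (h3.trans h1) he1
  -- good primes
  obtain ⟨good, hgood⟩ : ∃ good : ℕ → ℕ → Prop, good = fun m p => p ∈ I m ∧ p ∉ X m := ⟨_, rfl⟩
  have hgerr : ∀ m p, good m p → ∀ i, 1 ≤ i → i + 1 ≤ k → mu (tr (ucl d p) (U m i) \ T (i + 1)) ≤ e1 := by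
    intro m p hp i hi1 hi2
    rw [hgood] at hp
    have h1 : err m p ≤ e1 := by
      by_contra hcon
      apply hp.2
      rw [hX]
      exact mem_filter.2 ⟨hp.1, not_le.1 hcon⟩
    refine le_trans ?_ h1
    rw [herr]
    exact single_le_sum (f := fun i => mu (tr (ucl d p) (U m i) \ T (i + 1))) (fun i _ => mu_nonneg _)
      (mem_Icc.2 ⟨hi1, by omega⟩)
  have hOI : ∀ m : ℕ, PW d (α + (m + 1) * η) (α + (m + 2) * η) ⊆ I m := by
    intro m
    rw [hI]
    exact PW_mono hd (by nlinarith) le_rfl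
  have hOI' : ∀ m : ℕ, PW d (α + (m + 1) * η) (α + (m + 2) * η) ⊆ I (m + 1) := by
    intro m
    rw [hI]
    refine PW_mono hd ?_ ?_
    · push_cast
      linarith
    · push_cast
      nlinarith
  have hlink : ∀ m, m + 1 < n → ∃ q, good m q ∧ good (m + 1) q := by
    intro m hm
    by_contra hcon
    have h1 : PW d (α + (m + 1) * η) (α + (m + 2) * η) ⊆ X m ∪ X (m + 1) := by
      intro q hq
      by_contra hq2
      rw [mem_union, not_or] at hq2
      apply hcon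
      refine ⟨q, ?_, ?_⟩
      · rw [hgood]
        exact ⟨hOI m hq, hq2.1⟩
      · rw [hgood]
        exact ⟨hOI' m hq, hq2.2⟩
    have h2 : Wt (PW d (α + (m + 1) * η) (α + (m + 2) * η)) ≤ Wt (X m) + Wt (X (m + 1)) := by
      have h3 : Wt (PW d (α + (m + 1) * η) (α + (m + 2) * η)) ≤ Wt (X m ∪ X (m + 1)) :=
        sum_le_sum_of_subset_of_nonneg h1 fun _ _ _ => by positivity
      have h4 : Wt (X m ∪ X (m + 1)) ≤ Wt (X m) + Wt (X (m + 1)) := by
        unfold Wt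
        rw [← sum_union_inter]
        exact le_add_of_nonneg_right (sum_nonneg fun _ _ => by positivity)
      exact h3.trans h4
    linarith [hXw m, hXw (m + 1), hO m (by omega)]
  obtain ⟨p0, hp0⟩ : ∃ q, good 0 q := by
    by_contra hcon
    have h1 : PW d (α + ((0 : ℕ) + 1) * η) (α + ((0 : ℕ) + 2) * η) ⊆ X 0 := by
      intro q hq
      by_contra hq2
      exact hcon ⟨q, by rw [hgood]; exact ⟨hOI 0 hq, hq2⟩⟩
    have h2 : Wt (PW d (α + ((0 : ℕ) + 1) * η) (α + ((0 : ℕ) + 2) * η)) ≤ Wt (X 0) :=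
      sum_le_sum_of_subset_of_nonneg h1 fun _ _ _ => by positivity
    linarith [hXw 0, hO 0 (by omega)]
  refine ⟨(PW d α s0).filter (fun p => ∃ m < n, p ∈ X m), filter_subset _ _, ?_, ?_⟩
  · have h1 : (PW d α s0).filter (fun p => ∃ m < n, p ∈ X m) ⊆ (range n).biUnion X := by
      intro p hp
      obtain ⟨m, hm, hm2⟩ := (mem_filter.1 hp).2
      exact mem_biUnion.2 ⟨m, mem_range.2 hm, hm2⟩
    have h2 : Wt ((PW d α s0).filter (fun p => ∃ m < n, p ∈ X m)) ≤ Wt ((range n).biUnion X) :=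
      sum_le_sum_of_subset_of_nonneg h1 fun _ _ _ => by positivity
    have h3 : Wt ((range n).biUnion X) ≤ ∑ m ∈ range n, Wt (X m) := by
      exact wt_biUnion _ _
    have h4 : ∑ m ∈ range n, Wt (X m) ≤ ∑ _m ∈ range n, δ := sum_le_sum fun m _ => hXw m
    rw [sum_const, card_range, nsmul_eq_mul] at h4
    linarith
  · intro i hi1 hi2 p hp hpB
    obtain ⟨m, hm, hpm⟩ := chain_loc hη hn hn1 hp
    have hpg : good m p := by
      rw [hgood]
      refine ⟨by rw [hI]; exact hpm, fun h => hpB ?_⟩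
      exact mem_filter.2 ⟨hp, m, hm, h⟩
    have hRT : Rel k e g T B := by
      rw [hT']
      exact hR
    -- the pseudometric
    have hD1 : ∀ m < n, ∀ p q, good m p → good m q →
        mu (symmDiff (tr (ucl d p) (T i)) (tr (ucl d q) (T i))) ≤ 2 * (8 * e + 5 * e1) := by
      intro m hm p q hp hq
      have hcm : ∀ j, 1 ≤ j → j + 3 ≤ k → ∀ x, x ∈ U m j ∨ x ∈ U m (j + 1) ∨ x ∈ U m (j + 2) ∨ x ∈ U m (j + 3) := by
        rw [hU]
        exact hcov m hm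
      have h1 := rel_coset hRT hcm (hgerr m q hq) (hgerr m p hp) (j := i - 1) (by omega) (by omega)
      have h2 := rel_coset hRT hcm (hgerr m p hp) (hgerr m q hq) (j := i - 1) (by omega) (by omega)
      rw [show i - 1 + 1 = i by omega] at h1 h2
      exact mu_tr_symm h1 h2
    have hD : mu (symmDiff (tr (ucl d p0) (T i)) (tr (ucl d p) (T i))) ≤ (m + 1) * (2 * (8 * e + 5 * e1)) := by
      have h1 := pseudo_chain (fun p q : ℕ => mu (symmDiff (tr (ucl d p) (T i)) (tr (ucl d q) (T i))))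
        (fun p q r => mu_symm_tri _ _ _) good hD1 hlink m 0 (by omega) p0 p hp0 (by rw [zero_add]; exact hpg)
      exact h1
    have hsh : mu (symmDiff (tr (ucl d p0) (T i)) (T (i + 1))) ≤ 13 * e + 3 * e1 := by
      have h1 : Rel k e g (U 0) B := by
        rw [hU]
        have h2 : (fun i => Th d β α κ i (aT - (α + ((0 : ℕ) : ℝ) * η)) (aT - (α + ((0 : ℕ) : ℝ) * η) + hb)) =
            fun i => Th d β α κ i (aT - α) (aT - α + hb) := by
          rw [Nat.cast_zero, zero_mul, add_zero]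
        show Rel k e g (fun i => Th d β α κ i (aT - (α + ((0 : ℕ) : ℝ) * η)) (aT - (α + ((0 : ℕ) : ℝ) * η) + hb)) B
        rw [h2]
        exact hR0
      exact rel_shift hRT h1 (hgerr 0 p0 hp0) (by omega) (by omega)
    have hsy : mu (symmDiff (tr (ucl d p) (T i)) (tr (ucl d p0) (T i))) ≤ (m + 1) * (2 * (8 * e + 5 * e1)) := by
      rw [symmDiff_comm]
      exact hD
    have hfin := mu_symm_tri (tr (ucl d p) (T i)) (tr (ucl d p0) (T i)) (T (i + 1))
    have hmn : ((m : ℝ) + 1) * (2 * (8 * e + 5 * e1)) ≤ (n + 1) * (16 * e + 10 * e1) := by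
      have h1 : (m : ℝ) ≤ n := by exact_mod_cast hm.le
      nlinarith
    rw [hT'] at hfin hsh hsy
    linarith

end Pool.Agent.Lib.MP_42948a_nt.TS
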