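import Pool.Agent.Lib.MP_42948a_nt.TF.Defs

/-!
# Exactly `K` primes in almost all classes at the exponent `1 + ε`: definitions

`G = (ZMod d)ˣ`, `φ = Fintype.card G`. `EW`, `PW`, `den`, `sm`, `cv`, `av`, `Ker` are from `TF`, `Pa`, `Wt`, `ind` from `PS`,
`ucl`, `SF`, `ev` from `TQ`.
-/

namespace Pool.Agent.Lib.MP_42948a_nt.TS

open Finset Pool.Agent.Lib.MP_42948a_nt.OA Pool.Agent.Lib.MP_42948a_nt.TQ Pool.Agent.Lib.MP_42948a_nt.PS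
  Pool.Agent.Lib.MP_42948a_nt.TF

/-! ## Sets in a finite group -/

section sets

variable {G : Type*} [CommGroup G] [Fintype G]

/-- the density of a set -/
noncomputable def mu (A : Set G) : ℝ := (A.ncard : ℝ) / (Fintype.card G : ℝ)

/-- the translate `p A` -/
def tr (p : G) (A : Set G) : Set G := {x | x * p⁻¹ ∈ A}

/-- the reflection `g / A` -/
def rf (g : G) (A : Set G) : Set G := {x | g * x⁻¹ ∈ A}

/-- the relations of the threshold sets of two windows of total exponent slightly above `1`, for a class `g` which is (after division by a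
tiny prime) not represented -/
structure Rel (k : ℕ) (e : ℝ) (g : G) (T B : ℕ → Set G) : Prop where
  covB : ∀ j, 1 ≤ j → j + 1 ≤ k → ∀ x, x ∈ B j ∨ x ∈ B (j + 1)
  covT : ∀ j, 1 ≤ j → j + 2 ≤ k → ∀ x, x ∈ T j ∨ x ∈ T (j + 1) ∨ x ∈ T (j + 2)
  pair : ∀ j, 1 ≤ j → j + 1 ≤ k → mu (T j ∩ rf g (B (k - j))) ≤ e

end sets

/-! ## The bound of Burgess -/

/-- the bound of Burgess' type with the exponent `θ` for the characters mod `d` -/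
def BA (θ c : ℝ) (d : ℕ) : Prop := ∀ χ : DirichletCharacter ℂ d, χ ≠ 1 → ∀ N : ℕ, (d : ℝ) ^ θ ≤ (N : ℝ) →
  ‖∑ n ∈ Icc 1 N, χ (n : ZMod d)‖ ≤ (N : ℝ) * (d : ℝ) ^ (-c)

/-! ## Threshold sets -/

/-- the threshold set of the smoothed density of the products of `i` primes in the window `(d ^ a, d ^ b]`, with the thresholds `κ` -/
def Th (d : ℕ) (β : (ZMod d)ˣ → ℝ) (α : ℝ) (κ : ℕ → ℝ) (i : ℕ) (a b : ℝ) : Set (ZMod d)ˣ :=
  {x | κ i < sm β (EW d α i a b) x}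

/-! ## Dense classes -/

open Classical in
/-- the weight of the primes of the window `(d ^ a, d ^ b]` in the coset `c` of `N` -/
noncomputable def mc (d : ℕ) (N : Subgroup (ZMod d)ˣ) (a b : ℝ) (c : (ZMod d)ˣ ⧸ N) : ℝ :=
  ∑ p ∈ (PW d a b).filter (fun p : ℕ => ((ucl d p : (ZMod d)ˣ) : (ZMod d)ˣ ⧸ N) = c), 1 / (p : ℝ)

/-- the products of the classes `c / t`, `c ≠ t` with weight `≥ κ` in a window `(d ^ (w m), d ^ (w (m + 1))]`, `m ≥ 1`, of total exponent `≤ v` -/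
def QQ (d : ℕ) (N : Subgroup (ZMod d)ˣ) (t : (ZMod d)ˣ ⧸ N) (w κ v : ℝ) : Set ((ZMod d)ˣ ⧸ N) :=
  {x | ∃ l : List (((ZMod d)ˣ ⧸ N) × ℕ), (∀ y ∈ l, y.1 ≠ t ∧ 1 ≤ y.2 ∧ κ ≤ mc d N (w * y.2) (w * (y.2 + 1)) y.1) ∧
    (l.map fun y => w * ((y.2 : ℝ) + 1)).sum ≤ v ∧ (l.map fun y => y.1 / t).prod = x}

/-- the contract of the analytic part (block D) -/
def ANP (J : ℕ) : Prop := ∀ (θ c s0 v w : ℝ) (M : ℕ), 0 < θ → 0 < c → 0 < s0 → 0 < w → θ + J * w < v → v ≤ (J + 1) * s0 →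
  ∃ α0 : ℝ, 0 < α0 ∧ ∀ α : ℝ, 0 < α → α ≤ α0 → ∃ κ : ℝ, 0 < κ ∧ ∃ d0 : ℕ, ∀ d : ℕ, d0 ≤ d → ∀ [NeZero d], BA θ c d →
    ∀ (N : Subgroup (ZMod d)ˣ) (t : (ZMod d)ˣ ⧸ N), N.index ≤ M → t ≠ 1 → (∀ x, x ≠ t → mc d N α s0 x ≤ κ) →
      ∀ x, ∃ j : ℕ, j ≤ J ∧ x * (t ^ j)⁻¹ ∈ QQ d N t w κ v

end Pool.Agent.Lib.MP_42948a_nt.TS
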