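import Pool.Agent.Lib.MP_42948a_nt.TS.Thr

/-!
# Products of primes of dense classes
-/

set_option linter.unusedSectionVars false

namespace Pool.Agent.Lib.MP_42948a_nt.TS

open Finset Pool.Agent.Lib.MP_42948a_nt.OA Pool.Agent.Lib.MP_42948a_nt.TQ Pool.Agent.Lib.MP_42948a_nt.PS
  Pool.Agent.Lib.MP_42948a_nt.TF

variable {d : ℕ} [NeZero d]

open Classical in
/-- the mass of the smoothed density in a coset -/
noncomputable def dms (β : (ZMod d)ˣ → ℝ) (N : Subgroup (ZMod d)ˣ) (A : Finset ℕ) (c : (ZMod d)ˣ ⧸ N) : ℝ :=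
  ∑ x ∈ (univ : Finset (ZMod d)ˣ).filter (fun x : (ZMod d)ˣ => (x : (ZMod d)ˣ ⧸ N) = c), sm β A x

private theorem Dense_cg {Q : Type*} [CommGroup Q] (y t a b : Q) : y * (a * b) = a * t * (y / t * b) := by
  rw [div_eq_mul_inv, mul_comm y t⁻¹, mul_assoc t⁻¹ y b, mul_assoc a t, mul_inv_cancel_left, mul_left_comm]

private theorem Dense_pr {Q : Type*} [CommGroup Q] (t : Q) (l : List (Q × ℕ)) :
    (l.map fun y => y.1).prod = t ^ l.length * (l.map fun y => y.1 / t).prod := by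
  induction l with
  | nil => simp
  | cons y l ih =>
    rw [List.map_cons, List.map_cons, List.prod_cons, List.prod_cons, ih, List.length_cons, pow_succ]
    exact Dense_cg _ _ _ _

private theorem Dense_fin {Q : Type*} [CommGroup Q] (t x : Q) (n f : ℕ) : t ^ n * x * t ^ f = t ^ (n + f) * x := by
  rw [pow_add, mul_right_comm]

open Classical in
private theorem Dense_shift (N : Subgroup (ZMod d)ˣ) (c c' : (ZMod d)ˣ ⧸ N) (p : (ZMod d)ˣ)
    (hp : ((p : (ZMod d)ˣ) : (ZMod d)ˣ ⧸ N) = c') (f : (ZMod d)ˣ → ℝ) :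
    ∑ x ∈ (univ : Finset (ZMod d)ˣ).filter (fun x : (ZMod d)ˣ => (x : (ZMod d)ˣ ⧸ N) = c' * c), f (x * p⁻¹) =
      ∑ x ∈ (univ : Finset (ZMod d)ˣ).filter (fun x : (ZMod d)ˣ => (x : (ZMod d)ˣ ⧸ N) = c), f x := by
  refine Finset.sum_nbij' (fun x => x * p⁻¹) (fun x => x * p) ?_ ?_ ?_ ?_ ?_
  · intro x hx
    rw [mem_filter] at hx ⊢
    refine ⟨mem_univ _, ?_⟩
    have h3 : ((x * p⁻¹ : (ZMod d)ˣ) : (ZMod d)ˣ ⧸ N) = (x : (ZMod d)ˣ ⧸ N) * (p : (ZMod d)ˣ ⧸ N)⁻¹ := rfl
    rw [h3, hx.2, hp]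
    exact mul_inv_cancel_comm c' c
  · intro x hx
    rw [mem_filter] at hx ⊢
    refine ⟨mem_univ _, ?_⟩
    rw [← hx.2, ← hp, mul_comm x p]
    rfl
  · intro x _
    exact inv_mul_cancel_right x p
  · intro x _
    exact mul_inv_cancel_right x p
  · intro x _
    rfl

open Classical in
private theorem Dense_ms_nonneg {β : (ZMod d)ˣ → ℝ} (hβ : ∀ g, 0 ≤ β g) (N : Subgroup (ZMod d)ˣ) (A : Finset ℕ)
    (c : (ZMod d)ˣ ⧸ N) : 0 ≤ dms β N A c :=
  sum_nonneg fun x _ => sm_nonneg hβ A x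

open Classical in
private theorem Dense_ms_mono {β : (ZMod d)ˣ → ℝ} (hβ : ∀ g, 0 ≤ β g) (N : Subgroup (ZMod d)ˣ) {A B : Finset ℕ}
    (h : A ⊆ B) (c : (ZMod d)ˣ ⧸ N) : dms β N A c ≤ dms β N B c :=
  sum_le_sum fun x _ => sm_mono hβ h x

open Classical in
/-- JOB Dense1. One more prime. Proof: sum `sm_dom` over the `x` in the coset `c' * c`; for `p ∈ PW d b b'` of the class `c'` the substitution `x = y * ucl d p`
maps the coset `c` onto `c' * c`; the other `p` give terms `≥ 0`. -/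
theorem ms_step {β : (ZMod d)ˣ → ℝ} (hβ : ∀ g, 0 ≤ β g) {α a a' b b' : ℝ} {i : ℕ} (hb : α ≤ b) (N : Subgroup (ZMod d)ˣ)
    (c c' : (ZMod d)ˣ ⧸ N) :
    mc d N b b' c' * dms β N (EW d α i a a') c ≤ (i + 1) * dms β N (EW d α (i + 1) (a + b) (a' + b')) (c' * c) := by
  have hd : 1 ≤ d := NeZero.one_le
  have h1 : ∀ y ∈ (PW d b b').filter (fun p : ℕ => ((ucl d p : (ZMod d)ˣ) : (ZMod d)ˣ ⧸ N) = c'),
      1 / (y : ℝ) * dms β N (EW d α i a a') c =
      ∑ x ∈ (univ : Finset (ZMod d)ˣ).filter (fun x : (ZMod d)ˣ => (x : (ZMod d)ˣ ⧸ N) = c' * c),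
        1 / (y : ℝ) * sm β (EW d α i a a') (x * (ucl d y)⁻¹) := by
    intro y hy
    rw [← mul_sum, Dense_shift N c c' (ucl d y) (mem_filter.1 hy).2 (fun x => sm β (EW d α i a a') x)]
    rfl
  unfold mc
  rw [sum_mul, sum_congr rfl h1, sum_comm]
  unfold dms
  rw [mul_sum]
  refine sum_le_sum fun x _ => ?_
  refine le_trans ?_ (sm_dom hd hβ α a a' b b' i hb x)
  refine sum_le_sum_of_subset_of_nonneg (filter_subset _ _) fun y _ _ => ?_
  exact mul_nonneg (by positivity) (sm_nonneg hβ _ _)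

open Classical in
/-- JOB Dense1. The first prime: `EW d α 1 b b' = PW d b b'` (`EW_one`), and for `p` of the class `c` the sum of `β (x / p)` over `x` in the coset `c` is the sum of
`β` over `N`. -/
theorem ms_one {β : (ZMod d)ˣ → ℝ} (hβ : ∀ g, 0 ≤ β g) {α b b' : ℝ} (hb : α ≤ b) (N : Subgroup (ZMod d)ˣ) (c : (ZMod d)ˣ ⧸ N) :
    mc d N b b' c * ∑ x ∈ (univ : Finset (ZMod d)ˣ).filter (fun x => x ∈ N), β x ≤ dms β N (EW d α 1 b b') c := by
  have hd : 1 ≤ d := NeZero.one_le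
  have hN : (univ : Finset (ZMod d)ˣ).filter (fun x => x ∈ N) =
      (univ : Finset (ZMod d)ˣ).filter (fun x : (ZMod d)ˣ => (x : (ZMod d)ˣ ⧸ N) = 1) := by
    refine filter_congr fun x _ => ?_
    rw [QuotientGroup.eq_one_iff]
  have h1 : ∀ y ∈ (PW d b b').filter (fun p : ℕ => ((ucl d p : (ZMod d)ˣ) : (ZMod d)ˣ ⧸ N) = c),
      1 / (y : ℝ) * ∑ x ∈ (univ : Finset (ZMod d)ˣ).filter (fun x => x ∈ N), β x =
      ∑ x ∈ (univ : Finset (ZMod d)ˣ).filter (fun x : (ZMod d)ˣ => (x : (ZMod d)ˣ ⧸ N) = c),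
        1 / (y : ℝ) * β (x * (ucl d y)⁻¹) := by
    intro y hy
    have h2 := Dense_shift N 1 c (ucl d y) (mem_filter.1 hy).2 β
    have h3 : c * 1 = c := mul_one c
    rw [h3] at h2
    rw [← mul_sum, h2, hN]
  unfold mc
  rw [sum_mul, sum_congr rfl h1, sum_comm]
  unfold dms
  refine sum_le_sum fun x _ => ?_
  rw [EW_one hd hb]
  unfold sm
  refine sum_le_sum_of_subset_of_nonneg (filter_subset _ _) fun y _ _ => ?_
  exact mul_nonneg (by positivity) (hβ _)

open Classical in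
/-- JOB Dense1. A list of windows `(b_i, b_i']` with masses `≥ m` of the classes `c_i`. Proof: induction on the list with `ms_one`, `ms_step`; `m ≤ 1`. -/
theorem ms_list {β : (ZMod d)ˣ → ℝ} (hβ : ∀ g, 0 ≤ β g) {α m : ℝ} (hm : 0 ≤ m) (N : Subgroup (ZMod d)ˣ)
    (l : List (((ZMod d)ˣ ⧸ N) × ℝ × ℝ)) (hl : l ≠ []) (h : ∀ y ∈ l, α ≤ y.2.1 ∧ m ≤ mc d N y.2.1 y.2.2 y.1) :
    m ^ l.length / (l.length.factorial : ℝ) * ∑ x ∈ (univ : Finset (ZMod d)ˣ).filter (fun x => x ∈ N), β x ≤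
      dms β N (EW d α l.length (l.map fun y => y.2.1).sum (l.map fun y => y.2.2).sum) (l.map fun y => y.1).prod := by
  induction l with
  | nil => exact absurd rfl hl
  | cons y l ih =>
    have hS : 0 ≤ ∑ x ∈ (univ : Finset (ZMod d)ˣ).filter (fun x => x ∈ N), β x := sum_nonneg fun x _ => hβ x
    have hy := h y List.mem_cons_self
    rcases l.eq_nil_or_concat with hnil | ⟨_, _, hne⟩
    · subst hnil
      have h1 := ms_one hβ (b' := y.2.2) hy.1 N y.1
      have h3 : y.1 * 1 = y.1 := mul_one y.1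
      simp only [List.length_cons, List.length_nil, List.map_cons, List.map_nil, List.sum_cons, List.sum_nil,
        List.prod_cons, List.prod_nil, zero_add, add_zero, pow_one, Nat.factorial_one, Nat.cast_one, div_one]
      rw [h3]
      exact (mul_le_mul_of_nonneg_right hy.2 hS).trans h1
    · have hl' : l ≠ [] := by
        rw [hne]
        simp
      have h1 := ih hl' (fun z hz => h z (List.mem_cons_of_mem _ hz))
      have h2 := ms_step hβ (a := (l.map fun y => y.2.1).sum) (a' := (l.map fun y => y.2.2).sum) (b' := y.2.2)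
        (i := l.length) hy.1 N (l.map fun y => y.1).prod y.1
      have h3 := Dense_ms_nonneg hβ N (EW d α l.length (l.map fun y => y.2.1).sum (l.map fun y => y.2.2).sum)
        (l.map fun y => y.1).prod
      have h4 : m * (m ^ l.length / (l.length.factorial : ℝ) *
          ∑ x ∈ (univ : Finset (ZMod d)ˣ).filter (fun x => x ∈ N), β x) ≤
          (l.length + 1) * dms β N (EW d α (l.length + 1) ((l.map fun y => y.2.1).sum + y.2.1)
            ((l.map fun y => y.2.2).sum + y.2.2)) (y.1 * (l.map fun y => y.1).prod) :=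
        ((mul_le_mul_of_nonneg_left h1 hm).trans (mul_le_mul_of_nonneg_right hy.2 h3)).trans h2
      rw [List.length_cons, List.map_cons, List.map_cons, List.map_cons, List.sum_cons, List.sum_cons, List.prod_cons,
        add_comm y.2.1, add_comm y.2.2, Nat.factorial_succ]
      have hn : (0 : ℝ) < (l.length : ℝ) + 1 := by positivity
      have hf : (0 : ℝ) < (l.length.factorial : ℝ) := by exact_mod_cast Nat.factorial_pos _
      have h5 : m ^ (l.length + 1) / (((l.length + 1) * l.length.factorial : ℕ) : ℝ) *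
          ∑ x ∈ (univ : Finset (ZMod d)ˣ).filter (fun x => x ∈ N), β x =
          m * (m ^ l.length / (l.length.factorial : ℝ) *
          ∑ x ∈ (univ : Finset (ZMod d)ˣ).filter (fun x => x ∈ N), β x) / ((l.length : ℝ) + 1) := by
        push_cast
        rw [pow_succ]
        field_simp
      rw [h5, div_le_iff₀ hn, mul_comm _ ((l.length : ℝ) + 1)]
      exact h4

/-- JOB Dense2. A coset with enough mass meets the approximating set. Proof: the sum of `sm` over the coset is at most `κ i φ + C0 φ mu (Th ∩ coset)`; if the class `c` were not in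
`Z` then `Th ∩ coset` would be in the symmetric difference, so `dms ≤ φ (κ i + C0 ε)`. -/
theorem mem_of_mass {β : (ZMod d)ˣ → ℝ} (hβ : ∀ g, 0 ≤ β g) {α a a' ε C0 : ℝ} {κ : ℕ → ℝ} {i : ℕ} (hκ : 0 ≤ κ i) (hC0 : 0 ≤ C0)
    (N : Subgroup (ZMod d)ˣ) (Z : Set ((ZMod d)ˣ ⧸ N)) (hC : ∀ x, sm β (EW d α i a a') x ≤ C0)
    (hZ : mu (symmDiff (Th d β α κ i a a') {x : (ZMod d)ˣ | (x : (ZMod d)ˣ ⧸ N) ∈ Z}) ≤ ε) (c : (ZMod d)ˣ ⧸ N)
    (hc : (κ i + C0 * ε) * (Fintype.card (ZMod d)ˣ : ℝ) < dms β N (EW d α i a a') c) : c ∈ Z := by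
  classical
  by_contra hcon
  have hφ : (0 : ℝ) < (Fintype.card (ZMod d)ˣ : ℝ) := card_pos
  set D : Set (ZMod d)ˣ := symmDiff (Th d β α κ i a a') {x : (ZMod d)ˣ | (x : (ZMod d)ˣ ⧸ N) ∈ Z} with hD
  have h1 : dms β N (EW d α i a a') c ≤ ∑ x : (ZMod d)ˣ, (κ i + C0 * D.indicator (fun _ => (1 : ℝ)) x) := by
    unfold dms
    have h2 : ∀ x ∈ (univ : Finset (ZMod d)ˣ).filter (fun x : (ZMod d)ˣ => (x : (ZMod d)ˣ ⧸ N) = c),
        sm β (EW d α i a a') x ≤ κ i + C0 * D.indicator (fun _ => (1 : ℝ)) x := by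
      intro x hx
      by_cases hT : x ∈ Th d β α κ i a a'
      · have h3 : x ∈ D := by
          rw [hD, Set.mem_symmDiff]
          left
          refine ⟨hT, fun h4 => hcon ?_⟩
          have h5 : (x : (ZMod d)ˣ ⧸ N) ∈ Z := h4
          rw [(mem_filter.1 hx).2] at h5
          exact h5
        rw [Set.indicator_of_mem h3, mul_one]
        linarith [hC x]
      · have h3 : sm β (EW d α i a a') x ≤ κ i := not_lt.1 hT
        have h4 : 0 ≤ C0 * D.indicator (fun _ => (1 : ℝ)) x :=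
          mul_nonneg hC0 (Set.indicator_nonneg (fun _ _ => zero_le_one) x)
        linarith
    refine (sum_le_sum h2).trans ?_
    refine sum_le_sum_of_subset_of_nonneg (filter_subset _ _) fun x _ _ => ?_
    exact add_nonneg hκ (mul_nonneg hC0 (Set.indicator_nonneg (fun _ _ => zero_le_one) x))
  rw [sum_add_distrib, sum_const, nsmul_eq_mul, card_univ, ← mul_sum] at h1
  have h2 : (∑ x : (ZMod d)ˣ, D.indicator (fun _ => (1 : ℝ)) x) ≤ ε * (Fintype.card (ZMod d)ˣ : ℝ) := by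
    rw [mu_ind, div_le_iff₀ hφ] at hZ
    exact hZ
  have h3 := mul_le_mul_of_nonneg_left h2 hC0
  nlinarith

open Classical in
/-- JOB Dense3. The products of dense classes, filled up with `i - l` primes of the class `t`. Here `κD` is the density of the dense classes, `m` the mass of the class `t` in the
windows of width `w` in `[α, s0]`; below `s0` only the class `t` is dense. Proof. Let `l` be the list of `x ∈ QQ`, `n = l.length`; every entry has `s0 < w (m_r + 1)` (by `hnd`), so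
`n (s0 - w) ≤ ∑ w m_r`, `f = i - n > 0` by `hi` (`n (s0 - w) ≤ u ≤ a0 < i (s0 - w)`). Let `af = (a0 + h0 / 4 - ∑ w m_r) / f`: `α ≤ σ / i ≤ af` and `af + w ≤ s0` by `hi`. Add to the
list `f` times the entry `(t, af, af + w)`; the sum of the lower ends is `a0 + h0 / 4`, the sum of the upper ends is `≤ a0 + h0 / 4 + i w ≤ a0 + h0`; `ms_list`, monotonicity of
`sm` in the window, `mem_of_mass`; the product of the classes is `t ^ i * x`. -/
theorem dense_mem {β : (ZMod d)ˣ → ℝ} (hβ : ∀ g, 0 ≤ β g) {α a0 h0 s0 w u σ κD m ε C0 : ℝ} {κ : ℕ → ℝ} {i : ℕ} (hα : 0 < α) (hw : 0 < w)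
    (hw0 : w < s0) (hαw : α ≤ w) (hσ : 0 < σ) (hασ : α * i ≤ σ) (hu : u + σ ≤ a0) (hiw : i * w ≤ h0 / 4) (hi1 : 1 ≤ i)
    (hi : a0 + h0 / 4 ≤ i * (s0 - w)) (hh0 : 0 < h0) (hκ : 0 ≤ κ i) (hC0 : 0 ≤ C0) (N : Subgroup (ZMod d)ˣ) (t : (ZMod d)ˣ ⧸ N)
    (hm : 0 < m) (hm1 : m ≤ κD) (hnd : ∀ c, c ≠ t → ∀ n : ℕ, 1 ≤ n → w * (n + 1) ≤ s0 → mc d N (w * n) (w * (n + 1)) c < κD)
    (hfill : ∀ a, α ≤ a → a + w ≤ s0 → m ≤ mc d N a (a + w) t)
    (hC : ∀ x, sm β (EW d α i a0 (a0 + h0)) x ≤ C0) (Z : Set ((ZMod d)ˣ ⧸ N))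
    (hZ : mu (symmDiff (Th d β α κ i a0 (a0 + h0)) {x : (ZMod d)ˣ | (x : (ZMod d)ˣ ⧸ N) ∈ Z}) ≤ ε)
    (hβN : (Fintype.card (ZMod d)ˣ : ℝ) / 2 ≤ ∑ x ∈ (univ : Finset (ZMod d)ˣ).filter (fun x => x ∈ N), β x)
    (hsm : 2 * (κ i + C0 * ε) < m ^ i / (i.factorial : ℝ)) (x : (ZMod d)ˣ ⧸ N) (hx : x ∈ QQ d N t w κD u) : t ^ i * x ∈ Z := by
  obtain ⟨l, hl, hsum, hprod⟩ := hx
  have hd : 1 ≤ d := NeZero.one_le
  have hφ : (0 : ℝ) < (Fintype.card (ZMod d)ˣ : ℝ) := card_pos
  have hsw : 0 < s0 - w := by linarith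
  -- every entry lies above `s0`
  have hbig : ∀ y ∈ l, s0 - w ≤ w * (y.2 : ℝ) := by
    intro y hy
    obtain ⟨h1, h2, h3⟩ := hl y hy
    by_contra hcon
    have h4 := hnd y.1 h1 y.2 h2 (by linarith)
    linarith
  -- the sums of the lower and of the upper ends
  have hup : ∀ l' : List (((ZMod d)ˣ ⧸ N) × ℕ), (l'.map fun y => w * ((y.2 : ℝ) + 1)).sum =
      (l'.map fun y => w * (y.2 : ℝ)).sum + l'.length * w := by
    intro l'
    induction l' with
    | nil => simp
    | cons y l' ih =>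
      rw [List.map_cons, List.map_cons, List.sum_cons, List.sum_cons, ih, List.length_cons]
      push_cast
      ring
  have hlow : ∀ l' : List (((ZMod d)ˣ ⧸ N) × ℕ), (∀ y ∈ l', s0 - w ≤ w * (y.2 : ℝ)) →
      (l'.length : ℝ) * (s0 - w) ≤ (l'.map fun y => w * (y.2 : ℝ)).sum := by
    intro l' hl'
    induction l' with
    | nil => simp
    | cons y l' ih =>
      have h1 := ih (fun z hz => hl' z (List.mem_cons_of_mem _ hz))
      have h2 := hl' y List.mem_cons_self
      rw [List.map_cons, List.sum_cons, List.length_cons]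
      push_cast
      linarith
  set A : ℝ := (l.map fun y => w * (y.2 : ℝ)).sum with hA
  rw [hup l, ← hA] at hsum
  have hlA : (l.length : ℝ) * (s0 - w) ≤ A := hlow l hbig
  have hlw : 0 ≤ (l.length : ℝ) * w := by positivity
  have hlt : (l.length : ℝ) < i := by
    by_contra hcon
    have h1 : (i : ℝ) * (s0 - w) ≤ l.length * (s0 - w) := mul_le_mul_of_nonneg_right (not_lt.1 hcon) hsw.le
    linarith
  have hlt' : l.length < i := by exact_mod_cast hlt
  obtain ⟨f, hf⟩ : ∃ f : ℕ, i = l.length + f := ⟨i - l.length, by omega⟩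
  have hf1 : 1 ≤ f := by omega
  have hfR : (0 : ℝ) < f := by exact_mod_cast hf1
  have hiR : (i : ℝ) = l.length + f := by exact_mod_cast hf
  set af : ℝ := (a0 + h0 / 4 - A) / f with haf
  have haff : (f : ℝ) * af = a0 + h0 / 4 - A := by
    rw [haf]
    field_simp
  have haf1 : α ≤ af := by
    rw [haf, le_div_iff₀ hfR]
    have h1 : α * f ≤ α * i := mul_le_mul_of_nonneg_left (by rw [hiR]; linarith [(Nat.cast_nonneg l.length : (0 : ℝ) ≤ l.length)]) hα.le
    linarith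
  have haf2 : af + w ≤ s0 := by
    have h1 : af ≤ s0 - w := by
      rw [haf, div_le_iff₀ hfR]
      have h2 : (i : ℝ) * (s0 - w) = l.length * (s0 - w) + f * (s0 - w) := by rw [hiR]; ring
      linarith
    linarith
  -- the list with the primes of the class `t`
  set L : List (((ZMod d)ˣ ⧸ N) × ℝ × ℝ) :=
    (l.map fun y => (y.1, w * (y.2 : ℝ), w * ((y.2 : ℝ) + 1))) ++ List.replicate f (t, af, af + w) with hL
  have hLlen : L.length = i := by
    rw [hL, List.length_append, List.length_map, List.length_replicate, hf]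
  have hLne : L ≠ [] := by
    intro h1
    rw [h1, List.length_nil] at hLlen
    omega
  have hLm : ∀ y ∈ L, α ≤ y.2.1 ∧ m ≤ mc d N y.2.1 y.2.2 y.1 := by
    intro y hy
    rw [hL, List.mem_append] at hy
    rcases hy with hy | hy
    · obtain ⟨z, hz, rfl⟩ := List.mem_map.1 hy
      obtain ⟨_, h2, h3⟩ := hl z hz
      refine ⟨?_, hm1.trans h3⟩
      have h4 : (1 : ℝ) ≤ z.2 := by exact_mod_cast h2
      have h5 : w * 1 ≤ w * (z.2 : ℝ) := mul_le_mul_of_nonneg_left h4 hw.le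
      show α ≤ w * (z.2 : ℝ)
      linarith
    · rw [List.eq_of_mem_replicate hy]
      exact ⟨haf1, hfill af haf1 haf2⟩
  have hLs1 : (L.map fun y => y.2.1).sum = a0 + h0 / 4 := by
    rw [hL, List.map_append, List.sum_append, List.map_map, List.map_replicate, List.sum_replicate, nsmul_eq_mul]
    show (l.map fun y => w * (y.2 : ℝ)).sum + (f : ℝ) * af = a0 + h0 / 4
    rw [← hA, haff]
    ring
  have hLs2 : (L.map fun y => y.2.2).sum = a0 + h0 / 4 + i * w := by
    rw [hL, List.map_append, List.sum_append, List.map_map, List.map_replicate, List.sum_replicate, nsmul_eq_mul]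
    show (l.map fun y => w * ((y.2 : ℝ) + 1)).sum + (f : ℝ) * (af + w) = a0 + h0 / 4 + i * w
    rw [hup l, ← hA, mul_add, haff, hiR]
    ring
  have hLp : (L.map fun y => y.1).prod = t ^ i * x := by
    rw [hL, List.map_append, List.prod_append, List.map_map, List.map_replicate, List.prod_replicate]
    show (l.map fun y => y.1).prod * t ^ f = t ^ i * x
    rw [Dense_pr t l, hprod, hf]
    exact Dense_fin t x l.length f
  have h1 := ms_list hβ hm.le N L hLne hLm
  rw [hLlen, hLs1, hLs2, hLp] at h1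
  have h2 : dms β N (EW d α i (a0 + h0 / 4) (a0 + h0 / 4 + i * w)) (t ^ i * x) ≤
      dms β N (EW d α i a0 (a0 + h0)) (t ^ i * x) :=
    Dense_ms_mono hβ N (EW_mono hd (by linarith) (by linarith)) _
  refine mem_of_mass hβ hκ hC0 N Z hC hZ _ ?_
  refine lt_of_lt_of_le ?_ (h1.trans h2)
  have hm0 : 0 ≤ m ^ i / (i.factorial : ℝ) := by positivity
  have h3 := mul_le_mul_of_nonneg_left hβN hm0
  have h4 := mul_lt_mul_of_pos_right hsm hφ
  linarith

end Pool.Agent.Lib.MP_42948a_nt.TS
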