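import Pool.Agent.Lib.MP_42948a_nt.TS.PR

/-!
# The Euler product side
-/

namespace Pool.Agent.Lib.MP_42948a_nt.TS

open Filter

/-- `-log(1-z) - z` is Lipschitz with the constant `2 r` on the disc of radius `r ≤ 1/2` -/
theorem neg_log_lip (r : ℝ) (hr : r ≤ 1 / 2) (z z' : ℂ) (hz : ‖z‖ ≤ r) (hz' : ‖z'‖ ≤ r) :
    ‖(-Complex.log (1 - z)) - (-Complex.log (1 - z')) - (z - z')‖ ≤ 2 * r * ‖z - z'‖ := by
  have hr0 : 0 ≤ r := (norm_nonneg _).trans hz
  have h1 : ∀ x ∈ Metric.closedBall (0 : ℂ) r, HasDerivWithinAt (fun z => -Complex.log (1 - z) - z) ((1 - x)⁻¹ - 1)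
      (Metric.closedBall (0 : ℂ) r) x := by
    intro x hx
    rw [mem_closedBall_zero_iff] at hx
    have hx1 : (1 - x) ∈ Complex.slitPlane := by
      rw [Complex.mem_slitPlane_iff]
      left
      have h2 : |x.re| ≤ ‖x‖ := Complex.abs_re_le_norm x
      have h3 : x.re ≤ 1 / 2 := (le_abs_self _).trans (h2.trans (hx.trans hr))
      simp
      linarith
    have h2 : HasDerivAt (fun z : ℂ => 1 - z) (-1) x := by
      simpa using (hasDerivAt_id x).const_sub 1
    have h3 := (h2.clog hx1).neg.sub (hasDerivAt_id x)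
    refine (h3.congr_deriv ?_).hasDerivWithinAt
    rw [neg_div, neg_neg, one_div]
  have h2 : ∀ x ∈ Metric.closedBall (0 : ℂ) r, ‖(1 - x)⁻¹ - 1‖ ≤ 2 * r := by
    intro x hx
    rw [mem_closedBall_zero_iff] at hx
    have h3 : 1 / 2 ≤ ‖1 - x‖ := by
      have := norm_sub_norm_le (1 : ℂ) x
      rw [norm_one] at this
      linarith
    have h4 : (1 - x) ≠ 0 := by
      intro h5
      rw [h5, norm_zero] at h3
      linarith
    have h5 : (1 - x)⁻¹ - 1 = x / (1 - x) := by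
      field_simp
      ring
    rw [h5, norm_div, div_le_iff₀ (by linarith)]
    nlinarith
  have h3 := (convex_closedBall (0 : ℂ) r).norm_image_sub_le_of_norm_hasDerivWithin_le h1 h2
    (mem_closedBall_zero_iff.mpr hz') (mem_closedBall_zero_iff.mpr hz)
  have h4 : (-Complex.log (1 - z)) - (-Complex.log (1 - z')) - (z - z') =
      (-Complex.log (1 - z) - z) - (-Complex.log (1 - z') - z') := by ring
  rw [h4]
  exact h3

/-- the Euler factor variable -/
noncomputable def zp {N : ℕ} (χ : DirichletCharacter ℂ N) (L : ℝ) (s : ℂ) (p : Nat.Primes) : ℂ :=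
  χ ((p : ℕ) : ZMod N) * ((p : ℕ) : ℂ) ^ (-(1 + s / L))

/-- the difference of two powers -/
noncomputable def dlt (L : ℝ) (s : ℂ) (p : Nat.Primes) : ℝ :=
  ‖((p : ℕ) : ℂ) ^ (-(1 + s / L)) - ((p : ℕ) : ℂ) ^ (-(1 + 1 / (L : ℂ)))‖

theorem norm_pow_p (L : ℝ) (s : ℂ) (p : Nat.Primes) :
    ‖((p : ℕ) : ℂ) ^ (-(1 + s / L))‖ = ((p : ℕ) : ℝ) ^ (-(1 + s.re / L)) := by
  rw [Complex.norm_natCast_cpow_of_pos p.2.pos]
  congr 1
  simp

theorem norm_zp_le {N : ℕ} (χ : DirichletCharacter ℂ N) (L : ℝ) (s : ℂ) (p : Nat.Primes) :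
    ‖zp χ L s p‖ ≤ ((p : ℕ) : ℝ) ^ (-(1 + s.re / L)) := by
  unfold zp
  rw [norm_mul, norm_pow_p]
  exact mul_le_of_le_one_left (Real.rpow_nonneg (Nat.cast_nonneg _) _) (DirichletCharacter.norm_le_one χ _)

theorem rpow_le_inv (L : ℝ) (hL : 0 < L) (x : ℝ) (hx : 0 ≤ x) (p : Nat.Primes) :
    ((p : ℕ) : ℝ) ^ (-(1 + x / L)) ≤ 1 / ((p : ℕ) : ℝ) := by
  have h1 : (1 : ℝ) ≤ ((p : ℕ) : ℝ) := by exact_mod_cast p.2.one_le
  rw [one_div, ← Real.rpow_neg_one]
  refine Real.rpow_le_rpow_of_exponent_le h1 ?_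
  have := div_nonneg hx hL.le
  linarith

theorem inv_p_le_half (p : Nat.Primes) : 1 / ((p : ℕ) : ℝ) ≤ 1 / 2 := by
  have h1 : (2 : ℝ) ≤ ((p : ℕ) : ℝ) := by exact_mod_cast p.2.two_le
  exact one_div_le_one_div_of_le (by norm_num) h1

theorem norm_zp_le_inv {N : ℕ} (χ : DirichletCharacter ℂ N) (L : ℝ) (hL : 0 < L) (s : ℂ) (hs : 0 ≤ s.re) (p : Nat.Primes) :
    ‖zp χ L s p‖ ≤ 1 / ((p : ℕ) : ℝ) :=
  (norm_zp_le χ L s p).trans (rpow_le_inv L hL s.re hs p)

theorem zp_summable {N : ℕ} (χ : DirichletCharacter ℂ N) (L : ℝ) (hL : 0 < L) (s : ℂ) (hs : 0 < s.re) :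
    Summable (zp χ L s) := by
  refine Summable.of_norm_bounded (pr_summable' s.re L hs hL) fun p => norm_zp_le χ L s p

theorem norm_neg_log_le {N : ℕ} (χ : DirichletCharacter ℂ N) (L : ℝ) (hL : 0 < L) (s : ℂ) (hs : 0 ≤ s.re) (p : Nat.Primes) :
    ‖-Complex.log (1 - zp χ L s p) - zp χ L s p‖ ≤ 2 * (1 / ((p : ℕ) : ℝ)) * ‖zp χ L s p‖ := by
  have h1 := neg_log_lip (1 / ((p : ℕ) : ℝ)) (inv_p_le_half p) (zp χ L s p) 0 (norm_zp_le_inv χ L hL s hs p)
    (by rw [norm_zero]; positivity)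
  simpa using h1

theorem log_summable {N : ℕ} (χ : DirichletCharacter ℂ N) (L : ℝ) (hL : 0 < L) (s : ℂ) (hs : 0 < s.re) :
    Summable (fun p => -Complex.log (1 - zp χ L s p)) := by
  have h1 : Summable (fun p => -Complex.log (1 - zp χ L s p) - zp χ L s p) := by
    refine Summable.of_norm_bounded (pr_summable' s.re L hs hL) fun p => ?_
    refine (norm_neg_log_le χ L hL s hs.le p).trans ?_
    have h2 := norm_zp_le χ L s p
    have h3 := inv_p_le_half p
    have h4 : 2 * (1 / ((p : ℕ) : ℝ)) ≤ 1 := by linarith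
    exact (mul_le_of_le_one_left (norm_nonneg _) h4).trans h2
  have h2 := h1.add (zp_summable χ L hL s hs)
  refine h2.congr fun p => ?_
  ring

theorem dlt_nonneg (L : ℝ) (s : ℂ) (p : Nat.Primes) : 0 ≤ dlt L s p := norm_nonneg _

theorem norm_zp_sub_le {N : ℕ} (χ : DirichletCharacter ℂ N) (L : ℝ) (s : ℂ) (p : Nat.Primes) :
    ‖zp χ L s p - zp χ L 1 p‖ ≤ dlt L s p := by
  unfold zp dlt
  rw [← mul_sub, norm_mul]
  exact mul_le_of_le_one_left (norm_nonneg _) (DirichletCharacter.norm_le_one χ _)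

theorem dlt_summable (L : ℝ) (hL : 0 < L) (s : ℂ) (hs : 0 < s.re) : Summable (dlt L s) := by
  refine Summable.of_nonneg_of_le (dlt_nonneg L s) (fun p => ?_) ((pr_summable' s.re L hs hL).add (pr_summable' 1 L one_pos hL))
  unfold dlt
  refine (norm_sub_le _ _).trans ?_
  rw [norm_pow_p]
  have h1 := norm_pow_p L 1 p
  rw [Complex.one_re] at h1
  rw [h1]

/-- the ratio of two values of the `L`-series -/
theorem ratio {N : ℕ} (χ : DirichletCharacter ℂ N) (L : ℝ) (hL : 0 < L) (s : ℂ) (hs : 0 < s.re) :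
    ∃ e : ℂ, ‖e‖ ≤ ∑' p : Nat.Primes, 2 * (1 / ((p : ℕ) : ℝ)) * dlt L s p ∧
      LSeries (fun n => χ (n : ZMod N)) (1 + s / L) =
        LSeries (fun n => χ (n : ZMod N)) (1 + 1 / L) * Complex.exp (∑' p, (zp χ L s p - zp χ L 1 p) + e) := by
  have hs1 : 1 < (1 + s / L : ℂ).re := by
    have : (1 + s / L : ℂ).re = 1 + s.re / L := by simp
    rw [this]
    have := div_pos hs hL
    linarith
  have hs2 : 1 < (1 + 1 / L : ℂ).re := by
    have : (1 + 1 / L : ℂ).re = 1 + 1 / L := by simp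
    rw [this]
    have := div_pos one_pos hL
    linarith
  have e1 := DirichletCharacter.LSeries_eulerProduct_exp_log χ hs1
  have e2 := DirichletCharacter.LSeries_eulerProduct_exp_log χ hs2
  have hS1 := log_summable χ L hL s hs
  have hS2 := log_summable χ L hL 1 (by simp)
  have hZ := (zp_summable χ L hL s hs).sub (zp_summable χ L hL 1 (by simp))
  have hbd : ∀ p : Nat.Primes, ‖(-Complex.log (1 - zp χ L s p)) - (-Complex.log (1 - zp χ L 1 p)) - (zp χ L s p - zp χ L 1 p)‖ ≤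
      2 * (1 / ((p : ℕ) : ℝ)) * dlt L s p := by
    intro p
    refine (neg_log_lip (1 / ((p : ℕ) : ℝ)) (inv_p_le_half p) _ _ (norm_zp_le_inv χ L hL s hs.le p)
      (norm_zp_le_inv χ L hL 1 (by simp) p)).trans ?_
    exact mul_le_mul_of_nonneg_left (norm_zp_sub_le χ L s p) (by positivity)
  have hSd : Summable (fun p : Nat.Primes => 2 * (1 / ((p : ℕ) : ℝ)) * dlt L s p) := by
    refine Summable.of_nonneg_of_le (fun p => mul_nonneg (by positivity) (dlt_nonneg L s p)) (fun p => ?_) (dlt_summable L hL s hs)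
    have h3 := inv_p_le_half p
    exact mul_le_of_le_one_left (dlt_nonneg L s p) (by linarith)
  refine ⟨∑' p : Nat.Primes, ((-Complex.log (1 - zp χ L s p)) - (-Complex.log (1 - zp χ L 1 p)) - (zp χ L s p - zp χ L 1 p)), ?_, ?_⟩
  · exact tsum_of_norm_bounded hSd.hasSum hbd
  · have hE : Summable (fun p : Nat.Primes => (-Complex.log (1 - zp χ L s p)) - (-Complex.log (1 - zp χ L 1 p)) - (zp χ L s p - zp χ L 1 p)) :=
      (hS1.sub hS2).sub hZ
    rw [← hZ.tsum_add hE]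
    have h4 : ∑' p, (zp χ L s p - zp χ L 1 p + (-Complex.log (1 - zp χ L s p) - -Complex.log (1 - zp χ L 1 p) - (zp χ L s p - zp χ L 1 p))) =
        ∑' p, -Complex.log (1 - zp χ L s p) - ∑' p, -Complex.log (1 - zp χ L 1 p) := by
      rw [← hS1.tsum_sub hS2]
      refine tsum_congr fun p => ?_
      ring
    rw [h4, Complex.exp_sub]
    have f1 : Complex.exp (∑' p, -Complex.log (1 - zp χ L s p)) = LSeries (fun n => χ (n : ZMod N)) (1 + s / L) := by
      rw [← e1]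
      rfl
    have f2 : Complex.exp (∑' p, -Complex.log (1 - zp χ L 1 p)) = LSeries (fun n => χ (n : ZMod N)) (1 + 1 / L) := by
      rw [← e2]
      rfl
    rw [f1, ← f2, mul_div_cancel₀ _ (Complex.exp_ne_zero _)]

end Pool.Agent.Lib.MP_42948a_nt.TS
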