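import Pool.Agent.Lib.MP_42948a_nt.TS.EU1

/-!
# The Euler product side: estimates
-/

namespace Pool.Agent.Lib.MP_42948a_nt.TS

open Filter

/-- `P(1+κ) = -log κ + O(1)` -/
theorem P_bound : ∃ C κ0 : ℝ, 0 < C ∧ 0 < κ0 ∧ κ0 ≤ 1 ∧ ∀ κ : ℝ, 0 < κ → κ ≤ κ0 →
    |∑' p : Nat.Primes, ((p : ℕ) : ℝ) ^ (-(1 + κ)) + Real.log κ| ≤ C := by
  obtain ⟨B, hB⟩ := P_tendsto
  have h1 := hB.eventually (Metric.ball_mem_nhds B one_pos)
  rw [eventually_nhdsWithin_iff, Metric.eventually_nhds_iff] at h1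
  obtain ⟨ε, hε, h2⟩ := h1
  refine ⟨|B| + 1, min (ε / 2) 1, by positivity, lt_min (by positivity) one_pos, min_le_right _ _, fun κ hκ hκ1 => ?_⟩
  have h3 : κ ≤ ε / 2 := hκ1.trans (min_le_left _ _)
  have h4 := @h2 (1 + κ) (by rw [Real.dist_eq]; simp [abs_of_pos hκ]; linarith) (by simpa using hκ)
  rw [Real.dist_eq] at h4
  have e1 : (1 + κ - 1 : ℝ) = κ := by ring
  rw [e1] at h4
  have h5 : |∑' p : Nat.Primes, ((p : ℕ) : ℝ) ^ (-(1 + κ)) + Real.log κ| ≤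
      |∑' p : Nat.Primes, ((p : ℕ) : ℝ) ^ (-(1 + κ)) + Real.log κ - B| + |B| := by
    have := abs_add_le (∑' p : Nat.Primes, ((p : ℕ) : ℝ) ^ (-(1 + κ)) + Real.log κ - B) B
    simpa using this
  linarith

/-- the sum over all primes of `p^(-2)` -/
theorem sq_summable : Summable (fun p : Nat.Primes => 1 / ((p : ℕ) : ℝ) * (1 / ((p : ℕ) : ℝ))) := by
  have h1 : Summable (fun p : Nat.Primes => ((p : ℕ) : ℝ) ^ (-2 : ℝ)) := Nat.Primes.summable_rpow.2 (by norm_num)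
  refine h1.congr fun p => ?_
  rw [Real.rpow_neg (Nat.cast_nonneg _)]
  norm_num
  ring

/-- lower bound for the `L`-series at `1 + 1/L` -/
theorem L_lower : ∃ c L0 : ℝ, 0 < c ∧ 1 ≤ L0 ∧ ∀ L : ℝ, L0 ≤ L → ∀ (N : ℕ) (χ : DirichletCharacter ℂ N),
    c / L ≤ ‖LSeries (fun n => χ (n : ZMod N)) (1 + 1 / L)‖ := by
  obtain ⟨C, κ0, hC, hκ0, hκ1, hP⟩ := P_bound
  set S2 : ℝ := ∑' p : Nat.Primes, 1 / ((p : ℕ) : ℝ) * (1 / ((p : ℕ) : ℝ)) with hS2
  refine ⟨Real.exp (-(C + 2 * S2)), max 1 (1 / κ0), Real.exp_pos _, le_max_left _ _, fun L hL N χ => ?_⟩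
  have hL1 : 1 ≤ L := (le_max_left _ _).trans hL
  have hLp : 0 < L := by linarith
  have hLκ : 1 / κ0 ≤ L := (le_max_right _ _).trans hL
  have hκL : 1 / L ≤ κ0 := by
    rw [div_le_iff₀ hκ0] at hLκ
    rw [div_le_iff₀ hLp]
    linarith
  have hs2 : 1 < (1 + 1 / L : ℂ).re := by
    have : (1 + 1 / L : ℂ).re = 1 + 1 / L := by simp
    rw [this]
    have := div_pos one_pos hLp
    linarith
  have e2 := DirichletCharacter.LSeries_eulerProduct_exp_log χ hs2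
  have e3 : Complex.exp (∑' p, -Complex.log (1 - zp χ L 1 p)) = LSeries (fun n => χ (n : ZMod N)) (1 + 1 / L) := by
    rw [← e2]
    rfl
  rw [← e3, Complex.norm_exp]
  have hPS := pr_summable' 1 L one_pos hLp
  have hbd : ∀ p : Nat.Primes, ‖-Complex.log (1 - zp χ L 1 p)‖ ≤ ((p : ℕ) : ℝ) ^ (-(1 + 1 / L)) + 2 * (1 / ((p : ℕ) : ℝ) * (1 / ((p : ℕ) : ℝ))) := by
    intro p
    have h1 := norm_neg_log_le χ L hLp 1 (by simp) p
    have h2 := norm_zp_le χ L 1 p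
    rw [Complex.one_re] at h2
    have h3 := norm_zp_le_inv χ L hLp 1 (by simp) p
    have h4 : ‖-Complex.log (1 - zp χ L 1 p)‖ ≤ ‖zp χ L 1 p‖ + ‖-Complex.log (1 - zp χ L 1 p) - zp χ L 1 p‖ := by
      have := norm_add_le (zp χ L 1 p) (-Complex.log (1 - zp χ L 1 p) - zp χ L 1 p)
      simpa using this
    have h5 : 2 * (1 / ((p : ℕ) : ℝ)) * ‖zp χ L 1 p‖ ≤ 2 * (1 / ((p : ℕ) : ℝ) * (1 / ((p : ℕ) : ℝ))) := by
      rw [mul_assoc]
      exact mul_le_mul_of_nonneg_left (mul_le_mul_of_nonneg_left h3 (by positivity)) (by norm_num)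
    linarith
  have hsum : ‖∑' p, -Complex.log (1 - zp χ L 1 p)‖ ≤ ∑' p : Nat.Primes, ((p : ℕ) : ℝ) ^ (-(1 + 1 / L)) + 2 * S2 := by
    have h1 : Summable (fun p : Nat.Primes => ((p : ℕ) : ℝ) ^ (-(1 + 1 / L)) + 2 * (1 / ((p : ℕ) : ℝ) * (1 / ((p : ℕ) : ℝ)))) :=
      hPS.add (sq_summable.mul_left 2)
    have h2 := tsum_of_norm_bounded h1.hasSum hbd
    rwa [hPS.tsum_add (sq_summable.mul_left 2), tsum_mul_left] at h2
  have hPL := hP (1 / L) (by positivity) hκL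
  have h5 : Real.log (1 / L) = -Real.log L := by rw [one_div, Real.log_inv]
  rw [h5] at hPL
  have h6 := (abs_le.mp hPL).2
  have h7 : -(Real.log L + (C + 2 * S2)) ≤ (∑' p, -Complex.log (1 - zp χ L 1 p)).re := by
    have h8 := Complex.abs_re_le_norm (∑' p, -Complex.log (1 - zp χ L 1 p))
    have h9 := (abs_le.mp (h8.trans hsum)).1
    linarith
  calc Real.exp (-(C + 2 * S2)) / L = Real.exp (-(Real.log L + (C + 2 * S2))) := by
        rw [neg_add (Real.log L), Real.exp_add, Real.exp_neg (Real.log L), Real.exp_log hLp]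
        field_simp
    _ ≤ _ := Real.exp_le_exp.mpr h7

/-- the difference on the line `Re s = 1` -/
theorem dlt_line (L : ℝ) (hL : 0 < L) (s : ℂ) (hs : s.re = 1) (p : Nat.Primes) :
    dlt L s p ≤ ((p : ℕ) : ℝ) ^ (-(1 + 1 / L)) * min 2 (|s.im| * Real.log ((p : ℕ) : ℝ) / L) := by
  have hp0 : ((p : ℕ) : ℂ) ≠ 0 := by exact_mod_cast p.2.ne_zero
  have hpR : (0 : ℝ) < ((p : ℕ) : ℝ) := by exact_mod_cast p.2.pos
  have hLC : (L : ℂ) ≠ 0 := by exact_mod_cast hL.ne'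
  have hs' : s = 1 + s.im * Complex.I := by
    apply Complex.ext <;> simp [hs]
  have h1 : ((p : ℕ) : ℂ) ^ (-(1 + s / L)) = ((p : ℕ) : ℂ) ^ (-(1 + 1 / (L : ℂ))) *
      Complex.exp (Complex.I * ((-(s.im * Real.log ((p : ℕ) : ℝ) / L) : ℝ) : ℂ)) := by
    have h2 : -(1 + s / (L : ℂ)) = -(1 + 1 / (L : ℂ)) + (-(s.im * Complex.I / L)) := by
      nth_rewrite 1 [hs']
      ring
    rw [h2, Complex.cpow_add _ _ hp0]
    congr 1
    rw [Complex.cpow_def_of_ne_zero hp0]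
    congr 1
    have h3 : Complex.log ((p : ℕ) : ℂ) = ((Real.log ((p : ℕ) : ℝ) : ℝ) : ℂ) := by
      rw [← Complex.natCast_log]
    rw [h3]
    push_cast
    ring
  unfold dlt
  rw [h1]
  have h2 : ((p : ℕ) : ℂ) ^ (-(1 + 1 / (L : ℂ))) * Complex.exp (Complex.I * ((-(s.im * Real.log ((p : ℕ) : ℝ) / L) : ℝ) : ℂ)) -
      ((p : ℕ) : ℂ) ^ (-(1 + 1 / (L : ℂ))) = ((p : ℕ) : ℂ) ^ (-(1 + 1 / (L : ℂ))) *
        (Complex.exp (Complex.I * ((-(s.im * Real.log ((p : ℕ) : ℝ) / L) : ℝ) : ℂ)) - 1) := by ring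
  rw [h2, norm_mul]
  have h3 := norm_pow_p L 1 p
  rw [Complex.one_re] at h3
  rw [h3]
  refine mul_le_mul_of_nonneg_left (le_min ?_ ?_) (Real.rpow_nonneg hpR.le _)
  · refine (norm_sub_le _ _).trans ?_
    rw [norm_one, mul_comm, Complex.norm_exp_ofReal_mul_I]
    norm_num
  · refine (Real.norm_exp_I_mul_ofReal_sub_one_le).trans ?_
    rw [Real.norm_eq_abs, abs_neg, abs_div, abs_mul, abs_of_pos hL]
    have h4 : 0 ≤ Real.log ((p : ℕ) : ℝ) := Real.log_nonneg (by exact_mod_cast p.2.one_le)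
    rw [abs_of_nonneg h4]

end Pool.Agent.Lib.MP_42948a_nt.TS
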