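import Pool.Agent.Lib.MP_42948a_nt.TS.EU2

/-!
# The Euler product side: the line `Re s = 1` and real `s`
-/

namespace Pool.Agent.Lib.MP_42948a_nt.TS

open Filter

/-- `∑ dlt` on the line, small imaginary part -/
theorem dlt_line_small : ∃ C L0 : ℝ, 0 < C ∧ 1 ≤ L0 ∧ ∀ L : ℝ, L0 ≤ L → ∀ s : ℂ, s.re = 1 → |s.im| ≤ 2 →
    ∑' p, dlt L s p ≤ C := by
  obtain ⟨C, L0, hC, hL0, h⟩ := pr_logsum
  refine ⟨2 * C, L0, by positivity, hL0, fun L hL s hs him => ?_⟩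
  have hLp : 0 < L := by linarith
  obtain ⟨h1, h2⟩ := h L hL
  have h3 : ∀ p : Nat.Primes, dlt L s p ≤ 2 / L * (Real.log ((p : ℕ) : ℝ) * ((p : ℕ) : ℝ) ^ (-(1 + 1 / L))) := by
    intro p
    refine (dlt_line L hLp s hs p).trans ?_
    have h4 : 0 ≤ Real.log ((p : ℕ) : ℝ) := Real.log_nonneg (by exact_mod_cast p.2.one_le)
    have h5 : min 2 (|s.im| * Real.log ((p : ℕ) : ℝ) / L) ≤ 2 / L * Real.log ((p : ℕ) : ℝ) := by
      refine (min_le_right _ _).trans ?_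
      rw [div_mul_eq_mul_div]
      exact div_le_div_of_nonneg_right (mul_le_mul_of_nonneg_right him h4) hLp.le
    have h6 : 0 ≤ ((p : ℕ) : ℝ) ^ (-(1 + 1 / L)) := Real.rpow_nonneg (Nat.cast_nonneg _) _
    calc _ ≤ ((p : ℕ) : ℝ) ^ (-(1 + 1 / L)) * (2 / L * Real.log ((p : ℕ) : ℝ)) := mul_le_mul_of_nonneg_left h5 h6
      _ = _ := by ring
  have h4 := Summable.tsum_le_tsum h3 (dlt_summable L hLp s (by rw [hs]; exact one_pos)) (h1.mul_left (2 / L))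
  rw [tsum_mul_left] at h4
  refine h4.trans ?_
  calc 2 / L * ∑' p : Nat.Primes, Real.log ((p : ℕ) : ℝ) * ((p : ℕ) : ℝ) ^ (-(1 + 1 / L)) ≤ 2 / L * (C * L) :=
        mul_le_mul_of_nonneg_left h2 (by positivity)
    _ = 2 * C := by field_simp

/-- `∑ dlt` on the line, large imaginary part -/
theorem dlt_line_large : ∃ C L0 δ : ℝ, 0 < C ∧ 1 ≤ L0 ∧ 0 < δ ∧ ∀ L : ℝ, L0 ≤ L → ∀ s : ℂ, s.re = 1 → 2 ≤ |s.im| → |s.im| ≤ δ * L →
    ∑' p, dlt L s p ≤ C + 6 * Real.log |s.im| := by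
  obtain ⟨C, L0, hC, hL0, h⟩ := pr_logsum
  obtain ⟨C1, κ0, hC1, hκ0, hκ1, hP⟩ := P_bound
  refine ⟨Real.exp 1 * C + 12 * C1, max 1 (1 / κ0), min κ0 (1 / L0), by positivity, le_max_left _ _, lt_min hκ0 (by positivity),
    fun L hL s hs him1 him2 => ?_⟩
  have hL1 : 1 ≤ L := (le_max_left _ _).trans hL
  have hLp : 0 < L := by linarith
  set y : ℝ := |s.im| with hy
  have hy0 : 0 < y := by linarith
  set κ' : ℝ := y / L with hκ'
  have hκ'0 : 0 < κ' := by positivity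
  have hκ'1 : κ' ≤ κ0 := by
    rw [hκ', div_le_iff₀ hLp]
    exact him2.trans (mul_le_mul_of_nonneg_right (min_le_left _ _) hLp.le)
  have hκ'2 : L0 ≤ 1 / κ' := by
    rw [le_div_iff₀ hκ'0, hκ']
    have h1 : y ≤ 1 / L0 * L := him2.trans (mul_le_mul_of_nonneg_right (min_le_right _ _) hLp.le)
    rw [mul_div_assoc', div_le_one hLp]
    calc L0 * y ≤ L0 * (1 / L0 * L) := mul_le_mul_of_nonneg_left h1 (by linarith)
      _ = L := by
        have : L0 ≠ 0 := by linarith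
        field_simp
  have hκL : 1 / L ≤ κ0 := by
    have h1 : 1 / κ0 ≤ L := (le_max_right _ _).trans hL
    rw [div_le_iff₀ hκ0] at h1
    rw [div_le_iff₀ hLp]
    linarith
  obtain ⟨h1, h2⟩ := h (1 / κ') hκ'2
  rw [one_div_one_div] at h1 h2
  -- the majorant
  have hS1 := pr_summable' 1 L one_pos hLp
  have hS2 : Summable (fun p : Nat.Primes => ((p : ℕ) : ℝ) ^ (-(1 + κ'))) := pr_summable (1 + κ') (by linarith)
  have hmaj : ∀ p : Nat.Primes, dlt L s p ≤ Real.exp 1 * κ' * (Real.log ((p : ℕ) : ℝ) * ((p : ℕ) : ℝ) ^ (-(1 + κ'))) +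
      6 * (((p : ℕ) : ℝ) ^ (-(1 + 1 / L)) - ((p : ℕ) : ℝ) ^ (-(1 + κ'))) := by
    intro p
    have hp1 : (1 : ℝ) ≤ ((p : ℕ) : ℝ) := by exact_mod_cast p.2.one_le
    have hp0 : (0 : ℝ) < ((p : ℕ) : ℝ) := by linarith
    have hlog : 0 ≤ Real.log ((p : ℕ) : ℝ) := Real.log_nonneg hp1
    have hκκ : 1 / L ≤ κ' := by
      rw [hκ']
      exact div_le_div_of_nonneg_right (by linarith) hLp.le
    have hdiff : ((p : ℕ) : ℝ) ^ (-(1 + κ')) ≤ ((p : ℕ) : ℝ) ^ (-(1 + 1 / L)) :=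
      Real.rpow_le_rpow_of_exponent_le hp1 (by linarith)
    have hA0 : 0 ≤ ((p : ℕ) : ℝ) ^ (-(1 + 1 / L)) := Real.rpow_nonneg hp0.le _
    have hB0 : 0 ≤ ((p : ℕ) : ℝ) ^ (-(1 + κ')) := Real.rpow_nonneg hp0.le _
    refine (dlt_line L hLp s hs p).trans ?_
    by_cases hcase : Real.log ((p : ℕ) : ℝ) * κ' ≤ 1
    · -- small primes
      have h3 : ((p : ℕ) : ℝ) ^ (-(1 + 1 / L)) ≤ Real.exp 1 * ((p : ℕ) : ℝ) ^ (-(1 + κ')) := by
        rw [Real.rpow_def_of_pos hp0, Real.rpow_def_of_pos hp0, ← Real.exp_add]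
        refine Real.exp_le_exp.mpr ?_
        have h4 : 0 ≤ Real.log ((p : ℕ) : ℝ) * (1 / L) := by positivity
        nlinarith
      have h5 : min 2 (|s.im| * Real.log ((p : ℕ) : ℝ) / L) ≤ κ' * Real.log ((p : ℕ) : ℝ) := by
        refine (min_le_right _ _).trans (le_of_eq ?_)
        rw [hκ']
        ring
      calc ((p : ℕ) : ℝ) ^ (-(1 + 1 / L)) * min 2 (|s.im| * Real.log ((p : ℕ) : ℝ) / L)
          ≤ (Real.exp 1 * ((p : ℕ) : ℝ) ^ (-(1 + κ'))) * (κ' * Real.log ((p : ℕ) : ℝ)) :=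
            mul_le_mul h3 h5 (le_min (by norm_num) (by positivity)) (by positivity)
        _ = Real.exp 1 * κ' * (Real.log ((p : ℕ) : ℝ) * ((p : ℕ) : ℝ) ^ (-(1 + κ'))) := by ring
        _ ≤ _ := by
          have h7 : 0 ≤ 6 * (((p : ℕ) : ℝ) ^ (-(1 + 1 / L)) - ((p : ℕ) : ℝ) ^ (-(1 + κ'))) := by
            refine mul_nonneg (by norm_num) ?_
            linarith
          linarith
    · -- large primes
      push Not at hcase
      have h3 : ((p : ℕ) : ℝ) ^ (-(1 + κ')) ≤ 2 / 3 * ((p : ℕ) : ℝ) ^ (-(1 + 1 / L)) := by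
        have h4 : Real.exp (-(1 / 2)) ≤ 2 / 3 := by
          have h5 : Real.exp (-(1 / 2)) ^ 2 = Real.exp (-1) := by
            rw [← Real.exp_nat_mul]
            norm_num
          have h6 : Real.exp (-1) ≤ 4 / 9 := by
            rw [Real.exp_neg, inv_le_comm₀ (Real.exp_pos _) (by norm_num)]
            have := Real.exp_one_gt_d9
            norm_num
            linarith
          nlinarith [Real.exp_pos (-(1 / 2 : ℝ))]
        have h5 : ((p : ℕ) : ℝ) ^ (-(1 + κ')) ≤ Real.exp (-(1 / 2)) * ((p : ℕ) : ℝ) ^ (-(1 + 1 / L)) := by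
          rw [Real.rpow_def_of_pos hp0, Real.rpow_def_of_pos hp0, ← Real.exp_add]
          refine Real.exp_le_exp.mpr ?_
          have h6 : 1 / L ≤ κ' / 2 := by
            rw [hκ', div_div, div_le_div_iff₀ hLp (by positivity)]
            nlinarith
          have h7 : Real.log ((p : ℕ) : ℝ) * (1 / L) ≤ Real.log ((p : ℕ) : ℝ) * (κ' / 2) := mul_le_mul_of_nonneg_left h6 hlog
          nlinarith
        exact h5.trans (mul_le_mul_of_nonneg_right h4 hA0)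
      calc ((p : ℕ) : ℝ) ^ (-(1 + 1 / L)) * min 2 (|s.im| * Real.log ((p : ℕ) : ℝ) / L)
          ≤ ((p : ℕ) : ℝ) ^ (-(1 + 1 / L)) * 2 := mul_le_mul_of_nonneg_left (min_le_left _ _) hA0
        _ ≤ 6 * (((p : ℕ) : ℝ) ^ (-(1 + 1 / L)) - ((p : ℕ) : ℝ) ^ (-(1 + κ'))) := by linarith
        _ ≤ _ := by
          have : 0 ≤ Real.exp 1 * κ' * (Real.log ((p : ℕ) : ℝ) * ((p : ℕ) : ℝ) ^ (-(1 + κ'))) := by positivity
          linarith
  have hsum := Summable.tsum_le_tsum hmaj (dlt_summable L hLp s (by rw [hs]; exact one_pos))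
    ((h1.mul_left (Real.exp 1 * κ')).add ((hS1.sub hS2).mul_left 6))
  rw [(h1.mul_left (Real.exp 1 * κ')).tsum_add ((hS1.sub hS2).mul_left 6), tsum_mul_left, tsum_mul_left, hS1.tsum_sub hS2] at hsum
  refine hsum.trans ?_
  have h3 : Real.exp 1 * κ' * ∑' p : Nat.Primes, Real.log ((p : ℕ) : ℝ) * ((p : ℕ) : ℝ) ^ (-(1 + κ')) ≤ Real.exp 1 * C := by
    calc _ ≤ Real.exp 1 * κ' * (C * (1 / κ')) := mul_le_mul_of_nonneg_left h2 (by positivity)
      _ = _ := by field_simp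
  have h4 := (abs_le.mp (hP (1 / L) (by positivity) hκL)).2
  have h5 := (abs_le.mp (hP κ' hκ'0 hκ'1)).1
  have h6 : Real.log κ' = Real.log y - Real.log L := by
    rw [hκ', Real.log_div hy0.ne' hLp.ne']
  have h7 : Real.log (1 / L) = -Real.log L := by rw [one_div, Real.log_inv]
  linarith

/-- real `s`: the sum of the differences is bounded -/
theorem dlt_real (s : ℝ) (hs : 0 < s) : ∃ C L0 : ℝ, 0 < C ∧ 1 ≤ L0 ∧ ∀ L : ℝ, L0 ≤ L → ∑' p, dlt L (s : ℂ) p ≤ C := by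
  have h1 := pr_log s hs
  have h2 := h1.eventually (Metric.ball_mem_nhds _ one_pos)
  obtain ⟨L1, hL1⟩ := eventually_atTop.mp h2
  refine ⟨|Real.log s| + 1, max 1 L1, by positivity, le_max_left _ _, fun L hL => ?_⟩
  have hLone : 1 ≤ L := (le_max_left _ _).trans hL
  have hLp : 0 < L := by linarith
  have h3 := hL1 L ((le_max_right _ _).trans hL)
  rw [Real.dist_eq, sub_neg_eq_add] at h3
  have hS1 := pr_summable' s L hs hLp
  have hS2 := pr_summable' 1 L one_pos hLp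
  have hd : ∀ p : Nat.Primes, dlt L (s : ℂ) p = |((p : ℕ) : ℝ) ^ (-(1 + s / L)) - ((p : ℕ) : ℝ) ^ (-(1 + 1 / L))| := by
    intro p
    unfold dlt
    have h4 : ((p : ℕ) : ℂ) ^ (-(1 + (s : ℂ) / L)) = (((((p : ℕ) : ℝ) ^ (-(1 + s / L)) : ℝ)) : ℂ) := by
      rw [Complex.ofReal_cpow (Nat.cast_nonneg _)]
      push_cast
      rfl
    have h5 : ((p : ℕ) : ℂ) ^ (-(1 + 1 / (L : ℂ))) = (((((p : ℕ) : ℝ) ^ (-(1 + 1 / L)) : ℝ)) : ℂ) := by
      rw [Complex.ofReal_cpow (Nat.cast_nonneg _)]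
      push_cast
      rfl
    rw [h4, h5, ← Complex.ofReal_sub, Complex.norm_real, Real.norm_eq_abs]
  have h4 : ∑' p, dlt L (s : ℂ) p = |∑' p : Nat.Primes, (((p : ℕ) : ℝ) ^ (-(1 + s / L)) - ((p : ℕ) : ℝ) ^ (-(1 + 1 / L)))| := by
    rcases le_total s 1 with hs1 | hs1
    · have h5 : ∀ p : Nat.Primes, dlt L (s : ℂ) p = ((p : ℕ) : ℝ) ^ (-(1 + s / L)) - ((p : ℕ) : ℝ) ^ (-(1 + 1 / L)) := by
        intro p
        rw [hd, abs_of_nonneg]
        rw [sub_nonneg]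
        refine Real.rpow_le_rpow_of_exponent_le (by exact_mod_cast p.2.one_le) ?_
        have : s / L ≤ 1 / L := div_le_div_of_nonneg_right hs1 hLp.le
        linarith
      rw [tsum_congr h5, abs_of_nonneg]
      exact tsum_nonneg fun p => by rw [← h5]; exact dlt_nonneg _ _ _
    · have h5 : ∀ p : Nat.Primes, dlt L (s : ℂ) p = -(((p : ℕ) : ℝ) ^ (-(1 + s / L)) - ((p : ℕ) : ℝ) ^ (-(1 + 1 / L))) := by
        intro p
        rw [hd, abs_of_nonpos]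
        rw [sub_nonpos]
        refine Real.rpow_le_rpow_of_exponent_le (by exact_mod_cast p.2.one_le) ?_
        have : 1 / L ≤ s / L := div_le_div_of_nonneg_right hs1 hLp.le
        linarith
      rw [tsum_congr h5, tsum_neg, abs_of_nonpos]
      rw [← neg_nonneg, ← tsum_neg]
      exact tsum_nonneg fun p => by rw [← h5]; exact dlt_nonneg _ _ _
  rw [h4]
  have h5 : |∑' p : Nat.Primes, (((p : ℕ) : ℝ) ^ (-(1 + s / L)) - ((p : ℕ) : ℝ) ^ (-(1 + 1 / L)))| ≤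
      |∑' p : Nat.Primes, (((p : ℕ) : ℝ) ^ (-(1 + s / L)) - ((p : ℕ) : ℝ) ^ (-(1 + 1 / L))) + Real.log s| + |Real.log s| := by
    have := abs_sub (∑' p : Nat.Primes, (((p : ℕ) : ℝ) ^ (-(1 + s / L)) - ((p : ℕ) : ℝ) ^ (-(1 + 1 / L))) + Real.log s) (Real.log s)
    simpa using this
  linarith

/-- real `s`: the error of the Euler product is `O(1/L)` -/
theorem err_real (s : ℝ) (hs : 0 < s) : ∃ C : ℝ, 0 < C ∧ ∀ L : ℝ, 1 ≤ L →
    ∑' p : Nat.Primes, 2 * (1 / ((p : ℕ) : ℝ)) * dlt L (s : ℂ) p ≤ C / L := by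
  have hSl : Summable (fun p : Nat.Primes => ((p : ℕ) : ℝ) ^ (-(3 / 2) : ℝ)) := Nat.Primes.summable_rpow.2 (by norm_num)
  set S : ℝ := ∑' p : Nat.Primes, ((p : ℕ) : ℝ) ^ (-(3 / 2) : ℝ) with hS
  have hS0 : 0 ≤ S := tsum_nonneg fun p => Real.rpow_nonneg (Nat.cast_nonneg _) _
  refine ⟨4 * |s - 1| * S + 1, by positivity, fun L hL => ?_⟩
  have hLp : 0 < L := by linarith
  have h1 : ∀ p : Nat.Primes, 2 * (1 / ((p : ℕ) : ℝ)) * dlt L (s : ℂ) p ≤ 4 * |s - 1| / L * ((p : ℕ) : ℝ) ^ (-(3 / 2) : ℝ) := by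
    intro p
    have hp1 : (1 : ℝ) ≤ ((p : ℕ) : ℝ) := by exact_mod_cast p.2.one_le
    have hp0 : (0 : ℝ) < ((p : ℕ) : ℝ) := by linarith
    have hlog : 0 ≤ Real.log ((p : ℕ) : ℝ) := Real.log_nonneg hp1
    have hd : dlt L (s : ℂ) p = |((p : ℕ) : ℝ) ^ (-(1 + s / L)) - ((p : ℕ) : ℝ) ^ (-(1 + 1 / L))| := by
      unfold dlt
      have h4 : ((p : ℕ) : ℂ) ^ (-(1 + (s : ℂ) / L)) = (((((p : ℕ) : ℝ) ^ (-(1 + s / L)) : ℝ)) : ℂ) := by
        rw [Complex.ofReal_cpow (Nat.cast_nonneg _)]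
        push_cast
        rfl
      have h5 : ((p : ℕ) : ℂ) ^ (-(1 + 1 / (L : ℂ))) = (((((p : ℕ) : ℝ) ^ (-(1 + 1 / L)) : ℝ)) : ℂ) := by
        rw [Complex.ofReal_cpow (Nat.cast_nonneg _)]
        push_cast
        rfl
      rw [h4, h5, ← Complex.ofReal_sub, Complex.norm_real, Real.norm_eq_abs]
    have e1 : ∀ x : ℝ, ((p : ℕ) : ℝ) ^ (-(1 + x / L)) = (1 / ((p : ℕ) : ℝ)) * Real.exp (-(x * Real.log ((p : ℕ) : ℝ) / L)) := by
      intro x
      rw [Real.rpow_def_of_pos hp0, one_div]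
      nth_rewrite 2 [← Real.exp_log hp0]
      rw [← Real.exp_neg, ← Real.exp_add]
      congr 1
      ring
    have h2 : dlt L (s : ℂ) p ≤ (1 / ((p : ℕ) : ℝ)) * (|s - 1| * Real.log ((p : ℕ) : ℝ) / L) := by
      rw [hd, e1 s, e1 1, ← mul_sub, abs_mul, abs_of_nonneg (by positivity : (0 : ℝ) ≤ 1 / ((p : ℕ) : ℝ))]
      refine mul_le_mul_of_nonneg_left ?_ (by positivity)
      refine (abs_exp_sub_le _ _ (by positivity) (by positivity)).trans (le_of_eq ?_)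
      rw [show s * Real.log ((p : ℕ) : ℝ) / L - 1 * Real.log ((p : ℕ) : ℝ) / L = (s - 1) * (Real.log ((p : ℕ) : ℝ) / L) by ring,
        abs_mul, abs_of_nonneg (div_nonneg hlog hLp.le)]
      ring
    have h3 : Real.log ((p : ℕ) : ℝ) ≤ 2 * ((p : ℕ) : ℝ) ^ (1 / 2 : ℝ) := by
      have := Real.log_le_rpow_div hp0.le (by norm_num : (0 : ℝ) < 1 / 2)
      linarith
    have h4 : (1 / ((p : ℕ) : ℝ)) * (1 / ((p : ℕ) : ℝ)) * ((p : ℕ) : ℝ) ^ (1 / 2 : ℝ) = ((p : ℕ) : ℝ) ^ (-(3 / 2) : ℝ) := by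
      have h5 : (1 / ((p : ℕ) : ℝ)) = ((p : ℕ) : ℝ) ^ (-1 : ℝ) := by rw [Real.rpow_neg_one, one_div]
      rw [h5, ← Real.rpow_add hp0, ← Real.rpow_add hp0]
      norm_num
    calc 2 * (1 / ((p : ℕ) : ℝ)) * dlt L (s : ℂ) p ≤ 2 * (1 / ((p : ℕ) : ℝ)) * ((1 / ((p : ℕ) : ℝ)) * (|s - 1| * Real.log ((p : ℕ) : ℝ) / L)) :=
          mul_le_mul_of_nonneg_left h2 (by positivity)
      _ ≤ 2 * (1 / ((p : ℕ) : ℝ)) * ((1 / ((p : ℕ) : ℝ)) * (|s - 1| * (2 * ((p : ℕ) : ℝ) ^ (1 / 2 : ℝ)) / L)) := by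
          gcongr
      _ = 4 * |s - 1| / L * ((1 / ((p : ℕ) : ℝ)) * (1 / ((p : ℕ) : ℝ)) * ((p : ℕ) : ℝ) ^ (1 / 2 : ℝ)) := by ring
      _ = _ := by rw [h4]
  have hd0 : Summable (fun p : Nat.Primes => 2 * (1 / ((p : ℕ) : ℝ)) * dlt L (s : ℂ) p) := by
    refine Summable.of_nonneg_of_le (fun p => mul_nonneg (by positivity) (dlt_nonneg L _ p)) h1 (hSl.mul_left _)
  have h2 := Summable.tsum_le_tsum h1 hd0 (hSl.mul_left _)
  rw [tsum_mul_left] at h2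
  refine h2.trans ?_
  rw [div_mul_eq_mul_div, div_le_div_iff_of_pos_right hLp]
  linarith

end Pool.Agent.Lib.MP_42948a_nt.TS
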