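import Pool.Agent.Lib.MP_42948a_nt.TS.Mu
import Pool.Agent.Lib.MP_42948a_nt.PS.A1
import Pool.Agent.Lib.MP_42948a_nt.EG.Kr

/-!
# Characters nearly constant on a set of primes; the mass of the kernel on a subgroup
-/

set_option linter.unusedSectionVars false

namespace Pool.Agent.Lib.MP_42948a_nt.TS

open Finset Pool.Agent.Lib.MP_42948a_nt.OA Pool.Agent.Lib.MP_42948a_nt.TQ Pool.Agent.Lib.MP_42948a_nt.PS
  Pool.Agent.Lib.MP_42948a_nt.TF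

variable {d : ℕ} [NeZero d]

private theorem chi_norm {χ : DirichletCharacter ℂ d} {p : ℕ} (hp : p.Coprime d) : ‖χ (p : ZMod d)‖ = 1 := by
  have h2 := norm_ev χ (ucl d p)
  unfold ev at h2
  rwa [ucl_val hp] at h2

/-- the variance of a character on a set of primes -/
theorem var_eq {U : Finset ℕ} (hU : ∀ p ∈ U, p.Coprime d) (hW : 0 < Wt U) (χ : DirichletCharacter ℂ d) :
    ∑ p ∈ U, 1 / (p : ℝ) * ‖χ (p : ZMod d) - Pa U χ‖ ^ 2 = Wt U * (1 - ‖Pa U χ‖ ^ 2) := by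
  obtain ⟨a, ha⟩ : ∃ a, a = Pa U χ := ⟨_, rfl⟩
  have h0 : ((Wt U : ℝ) : ℂ) ≠ 0 := by exact_mod_cast hW.ne'
  have h1 : ∑ p ∈ U, ((1 / (p : ℝ) : ℝ) : ℂ) * χ (p : ZMod d) = ((Wt U : ℝ) : ℂ) * a := by
    rw [ha, Pa, mul_div_cancel₀ _ h0]
  rw [← ha]
  have h2 : ∀ p ∈ U, 1 / (p : ℝ) * ‖χ (p : ZMod d) - a‖ ^ 2 =
      1 / (p : ℝ) * (1 + ‖a‖ ^ 2) - 2 * ((((1 / (p : ℝ) : ℝ) : ℂ) * χ (p : ZMod d)) * (starRingEnd ℂ) a).re := by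
    intro p hp
    have h3 : ‖χ (p : ZMod d) - a‖ ^ 2 = 1 + ‖a‖ ^ 2 - 2 * (χ (p : ZMod d) * (starRingEnd ℂ) a).re := by
      have h4 := Complex.normSq_sub (χ (p : ZMod d)) a
      rw [Complex.normSq_eq_norm_sq, Complex.normSq_eq_norm_sq, Complex.normSq_eq_norm_sq, chi_norm (hU p hp)] at h4
      rw [h4]
      ring
    rw [h3, mul_assoc, Complex.re_ofReal_mul]
    ring
  rw [sum_congr rfl h2, sum_sub_distrib, ← sum_mul, ← mul_sum, ← Complex.re_sum, ← sum_mul, h1]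
  have h3 : ((((Wt U : ℝ) : ℂ) * a) * (starRingEnd ℂ) a).re = Wt U * ‖a‖ ^ 2 := by
    rw [mul_assoc, Complex.re_ofReal_mul, Complex.mul_conj, Complex.ofReal_re, Complex.normSq_eq_norm_sq]
  rw [h3]
  show Wt U * (1 + ‖a‖ ^ 2) - 2 * (Wt U * ‖a‖ ^ 2) = Wt U * (1 - ‖a‖ ^ 2)
  ring

/-- a character nearly constant on `U` is large on a part of `U` -/
theorem pa_sub {U U' : Finset ℕ} (hU : ∀ p ∈ U, p.Coprime d) (hUU : U' ⊆ U) {ρ : ℝ} (hρ : 0 < ρ) (hW : 0 < Wt U)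
    (hW' : ρ * Wt U ≤ Wt U') (χ : DirichletCharacter ℂ d) (h : 1 - ‖Pa U χ‖ ^ 2 ≤ ρ / 16) : 1 / 2 ≤ ‖Pa U' χ‖ := by
  have hW'0 : 0 < Wt U' := lt_of_lt_of_le (mul_pos hρ hW) hW'
  have hρ1 : ρ ≤ 1 := by
    have h1 : Wt U' ≤ Wt U := sum_le_sum_of_subset_of_nonneg hUU fun _ _ _ => by positivity
    by_contra hc
    nlinarith
  have h1 := var_eq hU hW χ
  obtain ⟨a, ha⟩ : ∃ a, a = Pa U χ := ⟨_, rfl⟩
  rw [← ha] at h1 h
  have h2 : ∑ p ∈ U', 1 / (p : ℝ) * ‖χ (p : ZMod d) - a‖ ^ 2 ≤ Wt U' / 16 := by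
    have h3 : ∑ p ∈ U', 1 / (p : ℝ) * ‖χ (p : ZMod d) - a‖ ^ 2 ≤ ∑ p ∈ U, 1 / (p : ℝ) * ‖χ (p : ZMod d) - a‖ ^ 2 :=
      sum_le_sum_of_subset_of_nonneg hUU fun _ _ _ => by positivity
    rw [h1] at h3
    have h4 := mul_le_mul_of_nonneg_left h hW.le
    linarith
  -- the mean over `U'`
  have h0 : ((Wt U' : ℝ) : ℂ) ≠ 0 := by exact_mod_cast hW'0.ne'
  have h3 : ((Wt U' : ℝ) : ℂ) * (Pa U' χ - a) = ∑ p ∈ U', ((1 / (p : ℝ) : ℝ) : ℂ) * (χ (p : ZMod d) - a) := by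
    have h4 : ∑ p ∈ U', ((1 / (p : ℝ) : ℝ) : ℂ) * (χ (p : ZMod d) - a) =
        ∑ p ∈ U', ((1 / (p : ℝ) : ℝ) : ℂ) * χ (p : ZMod d) - ((Wt U' : ℝ) : ℂ) * a := by
      simp_rw [mul_sub]
      rw [sum_sub_distrib, ← sum_mul, ← Complex.ofReal_sum]
      rfl
    rw [h4, mul_sub, Pa, mul_div_cancel₀ _ h0]
  have h4 : Wt U' * ‖Pa U' χ - a‖ ≤ ∑ p ∈ U', 1 / (p : ℝ) * ‖χ (p : ZMod d) - a‖ := by
    have h5 := congrArg norm h3
    rw [norm_mul, Complex.norm_real, Real.norm_of_nonneg hW'0.le] at h5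
    rw [h5]
    refine (norm_sum_le _ _).trans (sum_le_sum fun p _ => ?_)
    rw [norm_mul, Complex.norm_real, Real.norm_of_nonneg (by positivity)]
  have h5 : ∑ p ∈ U', 1 / (p : ℝ) * ‖χ (p : ZMod d) - a‖ ≤ Wt U' / 4 := by
    have h6 : ∑ p ∈ U', 1 / (p : ℝ) * ‖χ (p : ZMod d) - a‖ ≤
        ∑ p ∈ U', (1 / (p : ℝ) * (1 / 8) + 2 * (1 / (p : ℝ) * ‖χ (p : ZMod d) - a‖ ^ 2)) := by
      refine sum_le_sum fun p _ => ?_
      have h7 : ‖χ (p : ZMod d) - a‖ ≤ 1 / 8 + 2 * ‖χ (p : ZMod d) - a‖ ^ 2 := by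
        nlinarith [sq_nonneg (‖χ (p : ZMod d) - a‖ - 1 / 4)]
      have h8 : (0 : ℝ) ≤ 1 / (p : ℝ) := by positivity
      nlinarith [mul_le_mul_of_nonneg_left h7 h8]
    rw [sum_add_distrib, ← sum_mul, ← mul_sum] at h6
    change _ ≤ Wt U' * (1 / 8) + _ at h6
    linarith
  have h6 : ‖Pa U' χ - a‖ ≤ 1 / 4 := by
    have h7 : Wt U' * ‖Pa U' χ - a‖ ≤ Wt U' * (1 / 4) := by linarith
    exact le_of_mul_le_mul_left h7 hW'0
  have h7 : 3 / 4 ≤ ‖a‖ := by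
    have h8 : (3 / 4 : ℝ) ^ 2 ≤ ‖a‖ ^ 2 := by nlinarith
    exact le_of_sq_le_sq h8 (norm_nonneg a)
  have h8 : ‖a‖ ≤ ‖Pa U' χ‖ + ‖Pa U' χ - a‖ := by
    have h9 := norm_sub_norm_le a (Pa U' χ)
    rw [norm_sub_rev] at h9
    linarith
  linarith

open Classical in
/-- the mass of the kernel on a subgroup -/
theorem kern_mass {X : Finset (DirichletCharacter ℂ d)} {η Q : ℝ} {β : (ZMod d)ˣ → ℝ} {b : DirichletCharacter ℂ d → ℝ}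
    (hK : Ker X η Q β b) (N : Subgroup (ZMod d)ˣ) (hN : ∀ χ : DirichletCharacter ℂ d, (∀ x ∈ N, ev χ x = 1) → 1 / 2 ≤ b χ) :
    (Fintype.card (ZMod d)ˣ : ℝ) / 2 ≤ ∑ x ∈ (univ : Finset (ZMod d)ˣ).filter (fun x => x ∈ N), β x := by
  obtain ⟨S, hS⟩ : ∃ S, S = EG.SH N := ⟨_, rfl⟩
  have hSne : S.Nonempty := by
    rw [hS]
    exact EG.SH_nonempty N
  have hSc : (0 : ℝ) < S.card := by exact_mod_cast hSne.card_pos
  have hSN : ∀ ψ ∈ S, ∀ x ∈ N, ev ψ x = 1 := by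
    intro ψ hψ x hx
    rw [hS] at hψ
    obtain ⟨φ, rfl⟩ := EG.mem_SH.1 hψ
    rw [EG.ev_lft, (QuotientGroup.eq_one_iff x).2 hx, map_one, Units.val_one]
  -- the Fourier coefficients
  have h1 : ∀ ψ : DirichletCharacter ℂ d, ∑ x : (ZMod d)ˣ, (β x : ℂ) * ev ψ x = (((Fintype.card (ZMod d)ˣ : ℝ) * b ψ : ℝ) : ℂ) := by
    intro ψ
    have h2 := congrArg (starRingEnd ℂ) (hK.coef ψ)
    rw [Complex.conj_ofReal] at h2
    rw [← h2]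
    unfold SF
    rw [map_sum]
    refine sum_congr rfl fun x _ => ?_
    rw [map_mul, Complex.conj_ofReal, Complex.conj_conj]
  have h2 : ((S.card : ℝ) : ℂ) * ((∑ x ∈ (univ : Finset (ZMod d)ˣ).filter (fun x => x ∈ N), β x : ℝ) : ℂ) =
      ∑ ψ ∈ S, (((Fintype.card (ZMod d)ˣ : ℝ) * b ψ : ℝ) : ℂ) := by
    rw [← sum_congr rfl fun ψ _ => h1 ψ, sum_comm]
    have h3 : ∀ x : (ZMod d)ˣ, ∑ ψ ∈ S, (β x : ℂ) * ev ψ x = if x ∈ N then ((S.card : ℝ) : ℂ) * (β x : ℂ) else 0 := by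
      intro x
      rw [← mul_sum]
      by_cases hx : x ∈ N
      · rw [if_pos hx, sum_congr rfl fun ψ hψ => hSN ψ hψ x hx, sum_const, nsmul_eq_mul, mul_one, mul_comm]
        push_cast
        ring
      · rw [if_neg hx, hS, EG.sum_SH N x hx, mul_zero]
    rw [sum_congr rfl fun x _ => h3 x, ← sum_filter, ← mul_sum, Complex.ofReal_sum]
  rw [← Complex.ofReal_sum, ← Complex.ofReal_mul] at h2
  have h3 := Complex.ofReal_injective h2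
  have h4 : (S.card : ℝ) * ((Fintype.card (ZMod d)ˣ : ℝ) / 2) ≤ ∑ ψ ∈ S, (Fintype.card (ZMod d)ˣ : ℝ) * b ψ := by
    rw [← nsmul_eq_mul, ← sum_const]
    refine sum_le_sum fun ψ hψ => ?_
    have h5 := hN ψ (hSN ψ hψ)
    have h6 : (0 : ℝ) ≤ Fintype.card (ZMod d)ˣ := Nat.cast_nonneg _
    nlinarith
  rw [← h3] at h4
  exact le_of_mul_le_mul_left h4 hSc

end Pool.Agent.Lib.MP_42948a_nt.TS
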