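import Mathlib

/-!
# Limits of entire functions along an ultrafilter, maximum modulus on half discs
-/

namespace Pool.Agent.Lib.MP_42948a_nt.TS

open Filter Metric

/-- pointwise limit along an ultrafilter of entire functions which are bounded on discs -/
theorem ulim_entire (U : Ultrafilter ℕ) (f : ℕ → ℂ → ℂ) (hf : ∀ m, Differentiable ℂ (f m)) (B : ℂ → ℝ)
    (hB : ∀ R : ℝ, ∃ K : ℝ, ∀ s : ℂ, ‖s‖ ≤ R → B s ≤ K)
    (hb : ∀ R : ℝ, ∀ᶠ m in (U : Filter ℕ), ∀ s : ℂ, ‖s‖ ≤ R → ‖f m s‖ ≤ B s) :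
    ∃ G : ℂ → ℂ, Differentiable ℂ G ∧ (∀ s, Tendsto (fun m => f m s) (U : Filter ℕ) (nhds (G s))) ∧ ∀ s, ‖G s‖ ≤ B s := by
  have h1 : ∀ s : ℂ, ∃ l : ℂ, ‖l‖ ≤ B s ∧ Tendsto (fun m => f m s) (U : Filter ℕ) (nhds l) := by
    intro s
    have hc : IsCompact (closedBall (0 : ℂ) (B s)) := isCompact_closedBall _ _
    obtain ⟨l, hl, hle⟩ := isCompact_iff_ultrafilter_le_nhds.mp hc (U.map (fun m => f m s)) (by
      rw [Filter.le_principal_iff]
      have h2 := hb ‖s‖
      change ∀ᶠ m in (U : Filter ℕ), f m s ∈ closedBall (0 : ℂ) (B s)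
      filter_upwards [h2] with m hm
      rw [mem_closedBall_zero_iff]
      exact hm s le_rfl)
    refine ⟨l, ?_, hle⟩
    rwa [mem_closedBall_zero_iff] at hl
  choose G hG1 hG2 using h1
  refine ⟨G, ?_, hG2, hG1⟩
  have hloc : TendstoLocallyUniformlyOn f G (U : Filter ℕ) Set.univ := by
    rw [Metric.tendstoLocallyUniformlyOn_iff]
    intro ε hε x _
    obtain ⟨K, hK⟩ := hB (‖x‖ + 1)
    set K1 : ℝ := max K 0 with hK1
    have hK10 : 0 ≤ K1 := le_max_right _ _
    set δ : ℝ := min 1 (ε / (3 * (2 * K1 + 1))) with hδ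
    have hδ0 : 0 < δ := by
      rw [hδ]
      refine lt_min one_pos ?_
      positivity
    -- Lipschitz bound
    have hlip : ∀ᶠ m in (U : Filter ℕ), ∀ y ∈ ball x δ, dist (f m y) (f m x) ≤ (2 * K1 + 1) * dist y x := by
      filter_upwards [hb (‖x‖ + 1)] with m hm
      intro y hy
      have hmaps : Set.MapsTo (f m) (ball x 1) (closedBall (f m x) (2 * K1 + 1)) := by
        intro z hz
        rw [mem_closedBall, dist_eq_norm]
        have hz1 : ‖z‖ ≤ ‖x‖ + 1 := by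
          have h3 : ‖z - x‖ < 1 := by rwa [mem_ball, dist_eq_norm] at hz
          calc ‖z‖ = ‖x + (z - x)‖ := by congr 1; ring
            _ ≤ ‖x‖ + ‖z - x‖ := norm_add_le _ _
            _ ≤ _ := by linarith
        have h4 : ‖f m z‖ ≤ K1 := ((hm z hz1).trans (hK z hz1)).trans (le_max_left _ _)
        have h5 : ‖f m x‖ ≤ K1 := ((hm x (by linarith)).trans (hK x (by linarith))).trans (le_max_left _ _)
        calc ‖f m z - f m x‖ ≤ ‖f m z‖ + ‖f m x‖ := norm_sub_le _ _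
          _ ≤ _ := by linarith
      have hy1 : y ∈ ball x 1 := ball_subset_ball (min_le_left _ _) hy
      have h6 := Complex.dist_le_div_mul_dist_of_mapsTo_ball ((hf m).differentiableOn) hmaps hy1
      rw [div_one] at h6
      exact h6
    have hlipG : ∀ y ∈ ball x δ, dist (G y) (G x) ≤ (2 * K1 + 1) * dist y x := by
      intro y hy
      refine le_of_tendsto ((hG2 y).dist (hG2 x)) ?_
      filter_upwards [hlip] with m hm
      exact hm y hy
    refine ⟨ball x δ, mem_nhdsWithin_of_mem_nhds (ball_mem_nhds x hδ0), ?_⟩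
    have hx : ∀ᶠ m in (U : Filter ℕ), dist (f m x) (G x) < ε / 3 :=
      (Metric.tendsto_nhds.mp (hG2 x)) (ε / 3) (by positivity)
    filter_upwards [hlip, hx] with m hm1 hm2
    intro y hy
    have h7 : (2 * K1 + 1) * dist y x < ε / 3 := by
      have h8 : dist y x < ε / (3 * (2 * K1 + 1)) := lt_of_lt_of_le (mem_ball.mp hy) (min_le_right _ _)
      rw [lt_div_iff₀ (by positivity)] at h8
      nlinarith
    have h9 := hlipG y hy
    have h10 := hm1 y hy
    calc dist (G y) (f m y) ≤ dist (G y) (G x) + dist (G x) (f m y) := dist_triangle _ _ _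
      _ ≤ dist (G y) (G x) + (dist (G x) (f m x) + dist (f m x) (f m y)) := by
        gcongr
        exact dist_triangle _ _ _
      _ < ε := by
        rw [dist_comm (G x) (f m x), dist_comm (f m x) (f m y)]
        linarith
  have h2 := hloc.differentiableOn (Eventually.of_forall fun m => (hf m).differentiableOn) isOpen_univ
  rwa [differentiableOn_univ] at h2

/-- the maximum principle on a bounded region -/
theorem max_region (f : ℂ → ℂ) (V : Set ℂ) (hV : IsOpen V) (hVb : Bornology.IsBounded V) (W : Set ℂ) (hW : closure V ⊆ W)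
    (hf : DifferentiableOn ℂ f W) (K : ℝ) (hK : ∀ z ∈ W, z ∉ V → z ∈ closure V → ‖f z‖ ≤ K) (z : ℂ) (hz : z ∈ V) : ‖f z‖ ≤ K := by
  have hd : DiffContOnCl ℂ f V := by
    refine DifferentiableOn.diffContOnCl ?_
    exact hf.mono hW
  refine Complex.norm_le_of_forall_mem_frontier_norm_le hVb hd ?_ (subset_closure hz)
  intro y hy
  have h1 : y ∈ closure V := frontier_subset_closure hy
  have h2 : y ∉ V := by
    rw [hV.frontier_eq] at hy
    exact hy.2
  exact hK y (hW h1) h2 h1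

theorem half_disc_left (n : ℕ) (A R : ℝ) (hA : 0 ≤ A) (f : ℂ → ℂ) (hf : Differentiable ℂ f)
    (h1 : ∀ s : ℂ, s.re = 1 → ‖s - 1‖ ≤ R → ‖f s‖ ≤ A * (1 + ‖s‖) ^ n)
    (h2 : ∀ s : ℂ, ‖s - 1‖ = R → ‖f s‖ ≤ A * R ^ n * Real.exp (max 0 (-s.re)))
    (s : ℂ) (hs : ‖s - 1‖ ≤ R) (hs1 : s.re ≤ 1) :
    ‖f s‖ ≤ (Real.exp 1 * 9 ^ n * A) * (1 + ‖s‖) ^ n * Real.exp (max 0 (-s.re)) := by
  -- the auxiliary function
  set g : ℂ → ℂ := fun z => f z * Complex.exp (z - 1) * ((z - 3) ^ n)⁻¹ with hg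
  have hne : ∀ z : ℂ, z.re ≤ 1 → 2 ≤ ‖z - 3‖ := by
    intro z hz
    have h3 : |(z - 3).re| ≤ ‖z - 3‖ := Complex.abs_re_le_norm _
    have h4 : (z - 3).re = z.re - 3 := by simp
    rw [h4, abs_of_nonpos (by linarith)] at h3
    linarith
  have h13 : ∀ z : ℂ, z.re ≤ 1 → 1 + ‖z‖ ≤ 3 * ‖z - 3‖ := by
    intro z hz
    have h3 := hne z hz
    have h4 : ‖z‖ ≤ ‖z - 3‖ + 3 := by
      calc ‖z‖ = ‖(z - 3) + 3‖ := by congr 1; ring
        _ ≤ ‖z - 3‖ + ‖(3 : ℂ)‖ := norm_add_le _ _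
        _ = _ := by norm_num
    linarith
  have hpos3 : ∀ z : ℂ, z.re ≤ 1 → 0 < ‖z - 3‖ ^ n := fun z hz => pow_pos (by linarith [hne z hz]) _
  have hgn : ∀ z : ℂ, ‖g z‖ = ‖f z‖ * Real.exp (z.re - 1) / ‖z - 3‖ ^ n := by
    intro z
    rw [hg]
    dsimp only
    rw [norm_mul, norm_mul, norm_inv, norm_pow, Complex.norm_exp, div_eq_mul_inv]
    simp
  have hA3 : A ≤ 3 ^ n * A := by
    have : (1 : ℝ) ≤ 3 ^ n := one_le_pow₀ (by norm_num)
    nlinarith
  -- the boundary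
  have hline : ∀ z : ℂ, z.re = 1 → ‖z - 1‖ ≤ R → ‖g z‖ ≤ 3 ^ n * A := by
    intro z hz hzR
    rw [hgn, hz, sub_self, Real.exp_zero, mul_one, div_le_iff₀ (hpos3 z hz.le)]
    refine (h1 z hz hzR).trans ?_
    have h3 : (1 + ‖z‖) ^ n ≤ (3 * ‖z - 3‖) ^ n := pow_le_pow_left₀ (by positivity) (h13 z hz.le) n
    rw [mul_pow] at h3
    calc A * (1 + ‖z‖) ^ n ≤ A * (3 ^ n * ‖z - 3‖ ^ n) := mul_le_mul_of_nonneg_left h3 hA
      _ = _ := by ring
  have harc : ∀ z : ℂ, z.re ≤ 1 → ‖z - 1‖ = R → ‖g z‖ ≤ 3 ^ n * A := by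
    intro z hz hzR
    rw [hgn, div_le_iff₀ (hpos3 z hz)]
    have h3 := h2 z hzR
    have hR0 : 0 ≤ R := by rw [← hzR]; exact norm_nonneg _
    have h4 : ‖z - 1‖ ≤ ‖z - 3‖ := by
      have e1 : ‖z - 1‖ ^ 2 ≤ ‖z - 3‖ ^ 2 := by
        rw [← Complex.normSq_eq_norm_sq, ← Complex.normSq_eq_norm_sq, Complex.normSq_apply, Complex.normSq_apply]
        simp
        nlinarith
      exact le_of_sq_le_sq e1 (norm_nonneg _)
    have h5 : R ^ n ≤ ‖z - 3‖ ^ n := by
      rw [← hzR]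
      exact pow_le_pow_left₀ (norm_nonneg _) h4 n
    have h6 : Real.exp (max 0 (-z.re)) * Real.exp (z.re - 1) ≤ 1 := by
      rw [← Real.exp_add]
      refine Real.exp_le_one_iff.mpr ?_
      rcases le_total 0 (-z.re) with h7 | h7
      · rw [max_eq_right h7]; linarith
      · rw [max_eq_left h7]; linarith
    calc ‖f z‖ * Real.exp (z.re - 1) ≤ A * R ^ n * Real.exp (max 0 (-z.re)) * Real.exp (z.re - 1) :=
          mul_le_mul_of_nonneg_right h3 (Real.exp_pos _).le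
      _ = A * R ^ n * (Real.exp (max 0 (-z.re)) * Real.exp (z.re - 1)) := by ring
      _ ≤ A * R ^ n * 1 := mul_le_mul_of_nonneg_left h6 (by positivity)
      _ = A * R ^ n := mul_one _
      _ ≤ (3 ^ n * A) * ‖z - 3‖ ^ n := mul_le_mul hA3 h5 (by positivity) (by positivity)
  have hgs : ‖g s‖ ≤ 3 ^ n * A := by
    rcases eq_or_lt_of_le hs1 with h3 | h3
    · exact hline s h3 hs
    · rcases eq_or_lt_of_le hs with h4 | h4
      · exact harc s hs1 h4
      · set V : Set ℂ := ball (1 : ℂ) R ∩ {z : ℂ | z.re < 1} with hV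
        have hVo : IsOpen V := isOpen_ball.inter (isOpen_lt Complex.continuous_re continuous_const)
        have hVb : Bornology.IsBounded V := isBounded_ball.subset Set.inter_subset_left
        have hVc : closure V ⊆ closedBall (1 : ℂ) R ∩ {z : ℂ | z.re ≤ 1} := by
          refine closure_minimal ?_ (isClosed_closedBall.inter (isClosed_le Complex.continuous_re continuous_const))
          rintro z ⟨h5, h6⟩
          exact ⟨ball_subset_closedBall h5, le_of_lt (show z.re < 1 from h6)⟩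
        refine max_region g V hVo hVb (closedBall (1 : ℂ) R ∩ {z : ℂ | z.re ≤ 1}) hVc ?_ (3 ^ n * A) ?_ s ?_
        · intro z hz
          refine DifferentiableAt.differentiableWithinAt ?_
          rw [hg]
          refine DifferentiableAt.mul (DifferentiableAt.mul (hf z) (by fun_prop)) ?_
          refine DifferentiableAt.inv (by fun_prop) ?_
          refine pow_ne_zero _ ?_
          intro h5
          have h6 := hne z hz.2
          rw [h5, norm_zero] at h6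
          linarith
        · intro z hz hzV _
          have hz1 : ‖z - 1‖ ≤ R := by
            have := hz.1
            rwa [mem_closedBall, dist_eq_norm] at this
          rcases eq_or_lt_of_le hz1 with h5 | h5
          · exact harc z hz.2 h5
          · refine hline z ?_ hz1
            by_contra h6
            apply hzV
            refine ⟨?_, lt_of_le_of_ne hz.2 h6⟩
            rw [mem_ball, dist_eq_norm]
            exact h5
        · refine ⟨?_, h3⟩
          rw [mem_ball, dist_eq_norm]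
          exact h4
  rw [hgn, div_le_iff₀ (hpos3 s hs1)] at hgs
  have h3 : ‖f s‖ ≤ 3 ^ n * A * ‖s - 3‖ ^ n * Real.exp (1 - s.re) := by
    have h4 : Real.exp (s.re - 1) * Real.exp (1 - s.re) = 1 := by
      rw [← Real.exp_add]
      simp
    calc ‖f s‖ = ‖f s‖ * Real.exp (s.re - 1) * Real.exp (1 - s.re) := by rw [mul_assoc, h4, mul_one]
      _ ≤ _ := mul_le_mul_of_nonneg_right hgs (Real.exp_pos _).le
  refine h3.trans ?_
  have h5 : ‖s - 3‖ ≤ 3 * (1 + ‖s‖) := by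
    calc ‖s - 3‖ ≤ ‖s‖ + ‖(3 : ℂ)‖ := norm_sub_le _ _
      _ = ‖s‖ + 3 := by norm_num
      _ ≤ _ := by linarith [norm_nonneg s]
  have h6 : ‖s - 3‖ ^ n ≤ 3 ^ n * (1 + ‖s‖) ^ n := by
    rw [← mul_pow]
    exact pow_le_pow_left₀ (norm_nonneg _) h5 n
  have h7 : Real.exp (1 - s.re) ≤ Real.exp 1 * Real.exp (max 0 (-s.re)) := by
    rw [← Real.exp_add]
    refine Real.exp_le_exp.mpr ?_
    have := le_max_right 0 (-s.re)
    linarith
  have h8 : (9 : ℝ) ^ n = 3 ^ n * 3 ^ n := by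
    rw [← mul_pow]
    norm_num
  calc 3 ^ n * A * ‖s - 3‖ ^ n * Real.exp (1 - s.re) ≤ 3 ^ n * A * (3 ^ n * (1 + ‖s‖) ^ n) * (Real.exp 1 * Real.exp (max 0 (-s.re))) :=
        mul_le_mul (mul_le_mul_of_nonneg_left h6 (by positivity)) h7 (Real.exp_pos _).le (by positivity)
    _ = _ := by rw [h8]; ring

theorem half_disc_right (n : ℕ) (A R : ℝ) (hA : 0 ≤ A) (f : ℂ → ℂ) (hf : Differentiable ℂ f)
    (h1 : ∀ s : ℂ, s.re = 1 → ‖s - 1‖ ≤ R → ‖f s‖ ≤ A * (1 + ‖s‖) ^ n)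
    (h2 : ∀ s : ℂ, ‖s - 1‖ = R → ‖f s‖ ≤ A * R ^ n * Real.exp (max 0 (-s.re)))
    (s : ℂ) (hs : ‖s - 1‖ ≤ R) (hs1 : 1 ≤ s.re) :
    ‖f s‖ ≤ (2 ^ n * A) * (1 + ‖s‖) ^ n := by
  set g : ℂ → ℂ := fun z => f z * ((z + 1) ^ n)⁻¹ with hg
  have hne : ∀ z : ℂ, 1 ≤ z.re → 2 ≤ ‖z + 1‖ := by
    intro z hz
    have h3 : |(z + 1).re| ≤ ‖z + 1‖ := Complex.abs_re_le_norm _
    have h4 : (z + 1).re = z.re + 1 := by simp
    rw [h4, abs_of_nonneg (by linarith)] at h3
    linarith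
  have hsq : ∀ z : ℂ, 1 ≤ z.re → ‖z‖ ≤ ‖z + 1‖ ∧ ‖z - 1‖ ≤ ‖z + 1‖ := by
    intro z hz
    constructor
    · have e1 : ‖z‖ ^ 2 ≤ ‖z + 1‖ ^ 2 := by
        rw [← Complex.normSq_eq_norm_sq, ← Complex.normSq_eq_norm_sq, Complex.normSq_apply, Complex.normSq_apply]
        simp
        nlinarith
      exact le_of_sq_le_sq e1 (norm_nonneg _)
    · have e1 : ‖z - 1‖ ^ 2 ≤ ‖z + 1‖ ^ 2 := by
        rw [← Complex.normSq_eq_norm_sq, ← Complex.normSq_eq_norm_sq, Complex.normSq_apply, Complex.normSq_apply]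
        simp
        nlinarith
      exact le_of_sq_le_sq e1 (norm_nonneg _)
  have h13 : ∀ z : ℂ, 1 ≤ z.re → 1 + ‖z‖ ≤ 2 * ‖z + 1‖ := by
    intro z hz
    have h3 := hne z hz
    have h4 := (hsq z hz).1
    linarith
  have hpos3 : ∀ z : ℂ, 1 ≤ z.re → 0 < ‖z + 1‖ ^ n := fun z hz => pow_pos (by linarith [hne z hz]) _
  have hgn : ∀ z : ℂ, ‖g z‖ = ‖f z‖ / ‖z + 1‖ ^ n := by
    intro z
    rw [hg]
    dsimp only
    rw [norm_mul, norm_inv, norm_pow, div_eq_mul_inv]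
  have hA2 : A ≤ 2 ^ n * A := by
    have : (1 : ℝ) ≤ 2 ^ n := one_le_pow₀ (by norm_num)
    nlinarith
  have hline : ∀ z : ℂ, z.re = 1 → ‖z - 1‖ ≤ R → ‖g z‖ ≤ 2 ^ n * A := by
    intro z hz hzR
    rw [hgn, div_le_iff₀ (hpos3 z hz.ge)]
    refine (h1 z hz hzR).trans ?_
    have h3 : (1 + ‖z‖) ^ n ≤ (2 * ‖z + 1‖) ^ n := pow_le_pow_left₀ (by positivity) (h13 z hz.ge) n
    rw [mul_pow] at h3
    calc A * (1 + ‖z‖) ^ n ≤ A * (2 ^ n * ‖z + 1‖ ^ n) := mul_le_mul_of_nonneg_left h3 hA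
      _ = _ := by ring
  have harc : ∀ z : ℂ, 1 ≤ z.re → ‖z - 1‖ = R → ‖g z‖ ≤ 2 ^ n * A := by
    intro z hz hzR
    rw [hgn, div_le_iff₀ (hpos3 z hz)]
    have h3 := h2 z hzR
    have hR0 : 0 ≤ R := by rw [← hzR]; exact norm_nonneg _
    rw [max_eq_left (by linarith), Real.exp_zero, mul_one] at h3
    have h5 : R ^ n ≤ ‖z + 1‖ ^ n := by
      rw [← hzR]
      exact pow_le_pow_left₀ (norm_nonneg _) (hsq z hz).2 n
    calc ‖f z‖ ≤ A * R ^ n := h3
      _ ≤ (2 ^ n * A) * ‖z + 1‖ ^ n := mul_le_mul hA2 h5 (by positivity) (by positivity)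
  have hgs : ‖g s‖ ≤ 2 ^ n * A := by
    rcases eq_or_lt_of_le hs1 with h3 | h3
    · exact hline s h3.symm hs
    · rcases eq_or_lt_of_le hs with h4 | h4
      · exact harc s hs1 h4
      · set V : Set ℂ := ball (1 : ℂ) R ∩ {z : ℂ | 1 < z.re} with hV
        have hVo : IsOpen V := isOpen_ball.inter (isOpen_lt continuous_const Complex.continuous_re)
        have hVb : Bornology.IsBounded V := isBounded_ball.subset Set.inter_subset_left
        have hVc : closure V ⊆ closedBall (1 : ℂ) R ∩ {z : ℂ | 1 ≤ z.re} := by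
          refine closure_minimal ?_ (isClosed_closedBall.inter (isClosed_le continuous_const Complex.continuous_re))
          rintro z ⟨h5, h6⟩
          exact ⟨ball_subset_closedBall h5, le_of_lt (show 1 < z.re from h6)⟩
        refine max_region g V hVo hVb (closedBall (1 : ℂ) R ∩ {z : ℂ | 1 ≤ z.re}) hVc ?_ (2 ^ n * A) ?_ s ?_
        · intro z hz
          refine DifferentiableAt.differentiableWithinAt ?_
          rw [hg]
          refine DifferentiableAt.mul (hf z) ?_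
          refine DifferentiableAt.inv (by fun_prop) ?_
          refine pow_ne_zero _ ?_
          intro h5
          have h6 := hne z hz.2
          rw [h5, norm_zero] at h6
          linarith
        · intro z hz hzV _
          have hz1 : ‖z - 1‖ ≤ R := by
            have := hz.1
            rwa [mem_closedBall, dist_eq_norm] at this
          rcases eq_or_lt_of_le hz1 with h5 | h5
          · exact harc z hz.2 h5
          · refine hline z ?_ hz1
            by_contra h6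
            apply hzV
            refine ⟨?_, lt_of_le_of_ne hz.2 (fun h7 => h6 h7.symm)⟩
            rw [mem_ball, dist_eq_norm]
            exact h5
        · refine ⟨?_, h3⟩
          rw [mem_ball, dist_eq_norm]
          exact h4
  rw [hgn, div_le_iff₀ (hpos3 s hs1)] at hgs
  refine hgs.trans ?_
  refine mul_le_mul_of_nonneg_left ?_ (by positivity)
  refine pow_le_pow_left₀ (norm_nonneg _) ?_ n
  calc ‖s + 1‖ ≤ ‖s‖ + ‖(1 : ℂ)‖ := norm_add_le _ _
    _ = 1 + ‖s‖ := by rw [norm_one]; ring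

/-- the disc lemma -/
theorem disc_bound (n : ℕ) (A R : ℝ) (hA : 0 ≤ A) (f : ℂ → ℂ) (hf : Differentiable ℂ f)
    (h1 : ∀ s : ℂ, s.re = 1 → ‖s - 1‖ ≤ R → ‖f s‖ ≤ A * (1 + ‖s‖) ^ n)
    (h2 : ∀ s : ℂ, ‖s - 1‖ = R → ‖f s‖ ≤ A * R ^ n * Real.exp (max 0 (-s.re)))
    (s : ℂ) (hs : ‖s - 1‖ ≤ R) :
    ‖f s‖ ≤ (Real.exp 1 * 9 ^ n * A) * (1 + ‖s‖) ^ n * Real.exp (max 0 (-s.re)) := by
  rcases le_total s.re 1 with h3 | h3
  · exact half_disc_left n A R hA f hf h1 h2 s hs h3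
  · have h4 := half_disc_right n A R hA f hf h1 h2 s hs h3
    have h5 : 2 ^ n * A ≤ Real.exp 1 * 9 ^ n * A := by
      refine mul_le_mul_of_nonneg_right ?_ hA
      have h6 : (2 : ℝ) ^ n ≤ 9 ^ n := pow_le_pow_left₀ (by norm_num) (by norm_num) n
      have h7 : (1 : ℝ) ≤ Real.exp 1 := Real.one_le_exp (by norm_num)
      have h8 : (0 : ℝ) ≤ 9 ^ n := by positivity
      nlinarith
    have h6 : 1 ≤ Real.exp (max 0 (-s.re)) := Real.one_le_exp (le_max_left _ _)
    calc ‖f s‖ ≤ (2 ^ n * A) * (1 + ‖s‖) ^ n := h4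
      _ ≤ (Real.exp 1 * 9 ^ n * A) * (1 + ‖s‖) ^ n := mul_le_mul_of_nonneg_right h5 (by positivity)
      _ ≤ (Real.exp 1 * 9 ^ n * A) * (1 + ‖s‖) ^ n * Real.exp (max 0 (-s.re)) := by
        refine le_mul_of_one_le_right (by positivity) h6

end Pool.Agent.Lib.MP_42948a_nt.TS
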