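import Pool.Agent.Lib.MP_42948a_nt.TS.TL
import Pool.Agent.Lib.MP_42948a_nt.TS.UL

/-!
# Uniform bounds for the normalised Dirichlet polynomials
-/

namespace Pool.Agent.Lib.MP_42948a_nt.TS

open Filter Finset

theorem sq_exp_small (a η : ℝ) (ha : 0 < a) (hη : 0 < η) : ∃ L1 : ℝ, 1 ≤ L1 ∧ ∀ L : ℝ, L1 ≤ L → L ^ 2 * Real.exp (-(a * L)) ≤ η := by
  have h1 := Real.tendsto_pow_mul_exp_neg_atTop_nhds_zero 2
  have h2 : Tendsto (fun L : ℝ => a * L) atTop atTop := tendsto_id.const_mul_atTop ha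
  have h3 := (h1.comp h2).const_mul (1 / a ^ 2)
  rw [mul_zero] at h3
  obtain ⟨L1, hL1⟩ := eventually_atTop.mp (h3.eventually (gt_mem_nhds hη))
  refine ⟨max 1 L1, le_max_left _ _, fun L hL => ?_⟩
  refine le_trans (le_of_eq ?_) (hL1 L ((le_max_right _ _).trans hL)).le
  simp only [Function.comp]
  have : a ≠ 0 := ha.ne'
  field_simp

/-- `∑ dlt` on the line -/
theorem dlt_line_all : ∃ C L0 δ : ℝ, 0 < C ∧ 1 ≤ L0 ∧ 0 < δ ∧ δ ≤ 1 ∧ ∀ L : ℝ, L0 ≤ L → ∀ s : ℂ, s.re = 1 → |s.im| ≤ δ * L →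
    ∑' p, dlt L s p ≤ C + 6 * Real.log (1 + |s.im|) := by
  obtain ⟨C1, L1, hC1, hL1, h1⟩ := dlt_line_small
  obtain ⟨C2, L2, δ, hC2, hL2, hδ, h2⟩ := dlt_line_large
  refine ⟨C1 + C2, max L1 L2, min δ 1, by positivity, hL1.trans (le_max_left _ _), lt_min hδ one_pos, min_le_right _ _,
    fun L hL s hs him => ?_⟩
  have hLp : 0 < L := by linarith [le_max_left L1 L2]
  have h0 : 0 ≤ Real.log (1 + |s.im|) := Real.log_nonneg (by linarith [abs_nonneg s.im])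
  rcases le_total |s.im| 2 with h3 | h3
  · have := h1 L ((le_max_left _ _).trans hL) s hs h3
    linarith
  · have h4 := h2 L ((le_max_right _ _).trans hL) s hs h3 (him.trans (mul_le_mul_of_nonneg_right (min_le_left _ _) hLp.le))
    have h5 : Real.log |s.im| ≤ Real.log (1 + |s.im|) := Real.log_le_log (by linarith) (by linarith)
    linarith

theorem two_inv_le (L : ℝ) (s : ℂ) (p : Nat.Primes) : 2 * (1 / ((p : ℕ) : ℝ)) * dlt L s p ≤ dlt L s p := by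
  have h3 := inv_p_le_half p
  exact mul_le_of_le_one_left (dlt_nonneg L s p) (by linarith)

theorem err_le_dlt (L : ℝ) (hL : 0 < L) (s : ℂ) (hs : 0 < s.re) :
    ∑' p : Nat.Primes, 2 * (1 / ((p : ℕ) : ℝ)) * dlt L s p ≤ ∑' p, dlt L s p := by
  refine Summable.tsum_le_tsum (two_inv_le L s) ?_ (dlt_summable L hL s hs)
  exact Summable.of_nonneg_of_le (fun p => mul_nonneg (by positivity) (dlt_nonneg L s p)) (two_inv_le L s) (dlt_summable L hL s hs)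

theorem norm_T_le {N : ℕ} (χ : DirichletCharacter ℂ N) (L : ℝ) (hL : 0 < L) (s : ℂ) (hs : 0 < s.re) :
    ‖∑' p, (zp χ L s p - zp χ L 1 p)‖ ≤ ∑' p, dlt L s p :=
  tsum_of_norm_bounded (dlt_summable L hL s hs).hasSum (norm_zp_sub_le χ L s)

/-- the data at one level -/
structure Lev (c0 E L : ℝ) (N0 : ℕ) {N : ℕ} (χ : DirichletCharacter ℂ N) : Prop where
  low : c0 / L ≤ ‖LSeries (fun n => χ (n : ZMod N)) (1 + 1 / L)‖
  tail : ∀ s : ℂ, 0 < s.re → ‖LSeries (fun n => χ (n : ZMod N)) (1 + s / L) - PD χ N0 L s‖ ≤ 2 * (1 + ‖s‖) * E * L / s.re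
  small : 4 * E * L ≤ c0 / (2 * L)

theorem Lev.tail_one {c0 E L : ℝ} {N0 N : ℕ} {χ : DirichletCharacter ℂ N} (h : Lev c0 E L N0 χ) :
    ‖LSeries (fun n => χ (n : ZMod N)) (1 + 1 / L) - PD χ N0 L 1‖ ≤ 4 * E * L := by
  have h1 := h.tail 1 (by simp)
  rw [norm_one, Complex.one_re, div_one] at h1
  refine h1.trans (le_of_eq (by ring))

theorem Lev.pd_low {c0 E L : ℝ} {N0 N : ℕ} {χ : DirichletCharacter ℂ N} (h : Lev c0 E L N0 χ) (hL : 0 < L) :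
    c0 / (2 * L) ≤ ‖PD χ N0 L 1‖ := by
  have h1 := h.tail_one
  have h2 := h.low
  have h3 := norm_sub_norm_le (LSeries (fun n => χ (n : ZMod N)) (1 + 1 / L)) (PD χ N0 L 1)
  have h4 := h.small
  have h5 : c0 / L = c0 / (2 * L) + c0 / (2 * L) := by
    field_simp
    ring
  linarith

theorem Lev.ls_le {c0 E L : ℝ} {N0 N : ℕ} {χ : DirichletCharacter ℂ N} (h : Lev c0 E L N0 χ) (hL : 0 < L) :
    ‖LSeries (fun n => χ (n : ZMod N)) (1 + 1 / L)‖ ≤ 2 * ‖PD χ N0 L 1‖ := by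
  have h1 := h.tail_one
  have h3 := norm_sub_norm_le (LSeries (fun n => χ (n : ZMod N)) (1 + 1 / L)) (PD χ N0 L 1)
  have h4 := h.small
  have h5 := h.pd_low hL
  linarith

/-- the bound on the line -/
theorem Lev.line {c0 E L : ℝ} {N0 N : ℕ} {χ : DirichletCharacter ℂ N} (h : Lev c0 E L N0 χ) (hc0 : 0 < c0) (hL : 1 ≤ L) (hE : 0 ≤ E)
    (C1 : ℝ) (s : ℂ) (hs : s.re = 1) (hd : ∑' p, dlt L s p ≤ C1 + 6 * Real.log (1 + |s.im|)) :
    ‖PD χ N0 L s / PD χ N0 L 1‖ ≤ (2 * Real.exp (2 * C1) + 1) * (1 + ‖s‖) ^ 12 := by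
  have hLp : 0 < L := by linarith
  have hs0 : 0 < s.re := by rw [hs]; exact one_pos
  obtain ⟨e, he1, he2⟩ := ratio χ L hLp s hs0
  set T := ∑' p, (zp χ L s p - zp χ L 1 p) with hT
  have h1 : ‖T‖ ≤ ∑' p, dlt L s p := norm_T_le χ L hLp s hs0
  have h2 : ‖e‖ ≤ ∑' p, dlt L s p := he1.trans (err_le_dlt L hLp s hs0)
  have h3 : ‖Complex.exp (T + e)‖ ≤ Real.exp (2 * C1) * (1 + ‖s‖) ^ 12 := by
    refine (Complex.norm_exp_le_exp_norm _).trans ?_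
    have h4 : ‖T + e‖ ≤ 2 * C1 + 12 * Real.log (1 + |s.im|) := by
      refine (norm_add_le _ _).trans ?_
      linarith
    have h5 : Real.exp (2 * C1 + 12 * Real.log (1 + |s.im|)) = Real.exp (2 * C1) * (1 + |s.im|) ^ 12 := by
      have h6 : 0 < 1 + |s.im| := by positivity
      rw [Real.exp_add]
      congr 1
      have h7 : (12 : ℝ) * Real.log (1 + |s.im|) = ((12 : ℕ) : ℝ) * Real.log (1 + |s.im|) := by norm_num
      rw [h7, Real.exp_nat_mul, Real.exp_log h6]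
    calc Real.exp ‖T + e‖ ≤ Real.exp (2 * C1 + 12 * Real.log (1 + |s.im|)) := Real.exp_le_exp.mpr h4
      _ = Real.exp (2 * C1) * (1 + |s.im|) ^ 12 := h5
      _ ≤ _ := by
        refine mul_le_mul_of_nonneg_left ?_ (Real.exp_pos _).le
        exact pow_le_pow_left₀ (by positivity) (by linarith [Complex.abs_im_le_norm s]) 12
  have hpd := h.pd_low hLp
  have hpd0 : 0 < ‖PD χ N0 L 1‖ := lt_of_lt_of_le (by positivity) hpd
  rw [norm_div, div_le_iff₀ hpd0]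
  have h4 := h.tail s hs0
  rw [hs, div_one] at h4
  have h5 : ‖PD χ N0 L s‖ ≤ ‖LSeries (fun n => χ (n : ZMod N)) (1 + s / L)‖ + 2 * (1 + ‖s‖) * E * L := by
    have h6 := norm_sub_norm_le (PD χ N0 L s) (LSeries (fun n => χ (n : ZMod N)) (1 + s / L))
    rw [norm_sub_rev] at h6
    linarith
  rw [he2, norm_mul] at h5
  have h6 := h.ls_le hLp
  have h7 : 2 * E * L ≤ ‖PD χ N0 L 1‖ := by
    have h8 := h.small
    have h9 : 0 ≤ E * L := by positivity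
    nlinarith
  have h8 : (1 : ℝ) ≤ (1 + ‖s‖) ^ 11 := one_le_pow₀ (by linarith [norm_nonneg s])
  have h9 : 1 + ‖s‖ ≤ (1 + ‖s‖) ^ 12 := by
    have h10 : 0 ≤ 1 + ‖s‖ := by positivity
    calc 1 + ‖s‖ = (1 + ‖s‖) * 1 := (mul_one _).symm
      _ ≤ (1 + ‖s‖) * (1 + ‖s‖) ^ 11 := mul_le_mul_of_nonneg_left h8 h10
      _ = _ := by ring
  calc ‖PD χ N0 L s‖ ≤ ‖LSeries (fun n => χ (n : ZMod N)) (1 + 1 / L)‖ * ‖Complex.exp (T + e)‖ + 2 * (1 + ‖s‖) * E * L := h5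
    _ ≤ 2 * ‖PD χ N0 L 1‖ * (Real.exp (2 * C1) * (1 + ‖s‖) ^ 12) + (1 + ‖s‖) * (2 * E * L) := by
      refine add_le_add (mul_le_mul h6 h3 (norm_nonneg _) (by positivity)) (le_of_eq (by ring))
    _ ≤ 2 * ‖PD χ N0 L 1‖ * (Real.exp (2 * C1) * (1 + ‖s‖) ^ 12) + (1 + ‖s‖) ^ 12 * ‖PD χ N0 L 1‖ := by
      refine add_le_add le_rfl (mul_le_mul h9 h7 (by positivity) (by positivity))
    _ = _ := by ring

/-- real `s` -/
theorem Lev.real {c0 E L : ℝ} {N0 N : ℕ} {χ : DirichletCharacter ℂ N} (h : Lev c0 E L N0 χ) (hc0 : 0 < c0) (hL : 1 ≤ L) (hE : 0 ≤ E)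
    (s : ℝ) (hs : 0 < s) (Cd Ce : ℝ) (hCd : ∑' p, dlt L (s : ℂ) p ≤ Cd)
    (hCe : ∑' p : Nat.Primes, 2 * (1 / ((p : ℕ) : ℝ)) * dlt L (s : ℂ) p ≤ Ce / L) (hCeL : Ce ≤ L) :
    ‖PD χ N0 L s / PD χ N0 L 1 - Complex.exp (∑' p, (zp χ L s p - zp χ L 1 p))‖ ≤
      4 * Real.exp Cd * Ce / L + (2 * (1 + s) / s + 4 * Real.exp Cd) * (2 / c0) * (L ^ 2 * E) := by
  have hLp : 0 < L := by linarith
  have hs0 : 0 < (s : ℂ).re := by simpa using hs
  obtain ⟨e, he1, he2⟩ := ratio χ L hLp s hs0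
  set T := ∑' p, (zp χ L s p - zp χ L 1 p) with hT
  have h1 : ‖T‖ ≤ Cd := (norm_T_le χ L hLp s hs0).trans hCd
  have h2 : ‖e‖ ≤ Ce / L := he1.trans hCe
  have he1' : ‖e‖ ≤ 1 := h2.trans ((div_le_one hLp).mpr hCeL)
  have h3 : ‖Complex.exp T‖ ≤ Real.exp Cd := (Complex.norm_exp_le_exp_norm _).trans (Real.exp_le_exp.mpr h1)
  have h4 : ‖Complex.exp e - 1‖ ≤ 2 * (Ce / L) := by
    refine (Complex.norm_exp_sub_one_le he1').trans ?_
    linarith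
  have hpd := h.pd_low hLp
  have hpd0 : 0 < ‖PD χ N0 L 1‖ := lt_of_lt_of_le (by positivity) hpd
  have hpdne : PD χ N0 L 1 ≠ 0 := norm_pos_iff.mp hpd0
  set LS1 := LSeries (fun n => χ (n : ZMod N)) (1 + 1 / L) with hLS1
  set LSs := LSeries (fun n => χ (n : ZMod N)) (1 + (s : ℂ) / L) with hLSs
  have h5 : PD χ N0 L s / PD χ N0 L 1 - Complex.exp T =
      (LS1 * Complex.exp T * (Complex.exp e - 1) - (LSs - PD χ N0 L s) + Complex.exp T * (LS1 - PD χ N0 L 1)) / PD χ N0 L 1 := by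
    have h6 : LSs = LS1 * (Complex.exp T * Complex.exp e) := by rw [he2, Complex.exp_add]
    rw [h6]
    field_simp
    ring
  rw [h5, norm_div, div_le_iff₀ hpd0]
  have h6 := h.tail s hs0
  have h7 := h.tail_one
  have h8 := h.ls_le hLp
  have hsn : ‖(s : ℂ)‖ = s := by rw [Complex.norm_real, Real.norm_of_nonneg hs.le]
  rw [hsn, Complex.ofReal_re] at h6
  have hA : ‖LS1 * Complex.exp T * (Complex.exp e - 1)‖ ≤ (4 * Real.exp Cd * Ce / L) * ‖PD χ N0 L 1‖ := by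
    rw [norm_mul, norm_mul]
    calc ‖LS1‖ * ‖Complex.exp T‖ * ‖Complex.exp e - 1‖ ≤ (2 * ‖PD χ N0 L 1‖) * Real.exp Cd * (2 * (Ce / L)) :=
          mul_le_mul (mul_le_mul h8 h3 (norm_nonneg _) (by positivity)) h4 (norm_nonneg _) (by positivity)
      _ = _ := by ring
  have hone : 1 ≤ (2 / c0) * L * ‖PD χ N0 L 1‖ := by
    rw [div_le_iff₀ (by positivity)] at hpd
    have h9 : (2 / c0) * L * ‖PD χ N0 L 1‖ = (‖PD χ N0 L 1‖ * (2 * L)) / c0 := by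
      field_simp
    rw [h9, le_div_iff₀ hc0]
    linarith
  have hB : ‖LSs - PD χ N0 L s‖ + ‖Complex.exp T * (LS1 - PD χ N0 L 1)‖ ≤
      ((2 * (1 + s) / s + 4 * Real.exp Cd) * (2 / c0) * (L ^ 2 * E)) * ‖PD χ N0 L 1‖ := by
    rw [norm_mul]
    have h9 : ‖LSs - PD χ N0 L s‖ + ‖Complex.exp T‖ * ‖LS1 - PD χ N0 L 1‖ ≤ (2 * (1 + s) / s + 4 * Real.exp Cd) * (E * L) := by
      have h10 : ‖Complex.exp T‖ * ‖LS1 - PD χ N0 L 1‖ ≤ Real.exp Cd * (4 * E * L) :=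
        mul_le_mul h3 h7 (norm_nonneg _) (Real.exp_pos _).le
      have h11 : 2 * (1 + s) * E * L / s = 2 * (1 + s) / s * (E * L) := by ring
      rw [h11] at h6
      linarith
    refine h9.trans ?_
    have h10 : 0 ≤ (2 * (1 + s) / s + 4 * Real.exp Cd) * (E * L) := by positivity
    calc (2 * (1 + s) / s + 4 * Real.exp Cd) * (E * L) = (2 * (1 + s) / s + 4 * Real.exp Cd) * (E * L) * 1 := (mul_one _).symm
      _ ≤ (2 * (1 + s) / s + 4 * Real.exp Cd) * (E * L) * ((2 / c0) * L * ‖PD χ N0 L 1‖) := mul_le_mul_of_nonneg_left hone h10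
      _ = _ := by ring
  have hC := norm_add_le (LS1 * Complex.exp T * (Complex.exp e - 1) - (LSs - PD χ N0 L s)) (Complex.exp T * (LS1 - PD χ N0 L 1))
  have hD := norm_sub_le (LS1 * Complex.exp T * (Complex.exp e - 1)) (LSs - PD χ N0 L s)
  rw [add_mul]
  linarith

end Pool.Agent.Lib.MP_42948a_nt.TS
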