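import Pool.Agent.Lib.MP_42948a_nt.TS.LG

/-!
# The entire limit functions
-/

namespace Pool.Agent.Lib.MP_42948a_nt.TS

open Filter Finset

/-- the data for large `d` -/
theorem lev_exists (θ c : ℝ) (hθ : 0 < θ) (hc : 0 < c) : ∃ c0 : ℝ, 0 < c0 ∧ ∀ η : ℝ, 0 < η → ∃ d0 : ℕ, ∀ d : ℕ, d0 ≤ d →
    1 ≤ d ∧ (θ * Real.log d) ^ 2 * (d : ℝ) ^ (-c) ≤ η ∧ ∀ χ : DirichletCharacter ℂ d,
      (∀ N : ℕ, (d : ℝ) ^ θ ≤ N → ‖∑ n ∈ Icc 1 N, χ (n : ZMod d)‖ ≤ N * (d : ℝ) ^ (-c)) →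
        Lev c0 ((d : ℝ) ^ (-c)) (θ * Real.log d) ⌈(d : ℝ) ^ θ⌉₊ χ := by
  obtain ⟨c0, L0, hc0, hL0, hlow⟩ := L_lower
  refine ⟨c0, hc0, fun η hη => ?_⟩
  obtain ⟨L1, hL1, hsq⟩ := sq_exp_small (c / θ) (min η (c0 / 8)) (by positivity) (lt_min hη (by positivity))
  have hlog : Tendsto (fun d : ℕ => Real.log (d : ℝ)) atTop atTop := Real.tendsto_log_atTop.comp tendsto_natCast_atTop_atTop
  have hL : Tendsto (fun d : ℕ => θ * Real.log (d : ℝ)) atTop atTop := hlog.const_mul_atTop hθ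
  obtain ⟨d0, hd0⟩ := eventually_atTop.mp ((hL.eventually_ge_atTop (max L0 L1)).and (eventually_ge_atTop 1))
  refine ⟨d0, fun d hd => ?_⟩
  obtain ⟨h1, h2⟩ := hd0 d hd
  set L := θ * Real.log (d : ℝ) with hLd
  have hLL0 : L0 ≤ L := (le_max_left _ _).trans h1
  have hLL1 : L1 ≤ L := (le_max_right _ _).trans h1
  have hL1' : 1 ≤ L := hL0.trans hLL0
  have hLp : 0 < L := by linarith
  have hd0' : (0 : ℝ) < d := by exact_mod_cast (by omega : 0 < d)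
  have hE : (d : ℝ) ^ (-c) = Real.exp (-(c / θ * L)) := by
    rw [Real.rpow_def_of_pos hd0', hLd]
    congr 1
    field_simp
  have h3 := hsq L hLL1
  rw [← hE] at h3
  refine ⟨h2, h3.trans (min_le_left _ _), fun χ hχ => ⟨hlow L hLL0 d χ, fun s hs => ?_, ?_⟩⟩
  · refine tail_bound χ ⌈(d : ℝ) ^ θ⌉₊ ((d : ℝ) ^ (-c)) (fun n hn => hχ n ?_) L hL1' s hs
    exact (Nat.le_ceil _).trans (by exact_mod_cast hn)
  · rw [le_div_iff₀ (by positivity)]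
    have h4 : L ^ 2 * (d : ℝ) ^ (-c) ≤ c0 / 8 := h3.trans (min_le_right _ _)
    nlinarith

/-- the uniform bound -/
theorem GD_bound (θ c : ℝ) (hθ : 0 < θ) (hc : 0 < c) : ∃ A : ℝ, 0 ≤ A ∧ ∀ R : ℝ, ∃ d0 : ℕ, ∀ d : ℕ, d0 ≤ d →
    ∀ χ : DirichletCharacter ℂ d, (∀ N : ℕ, (d : ℝ) ^ θ ≤ N → ‖∑ n ∈ Icc 1 N, χ (n : ZMod d)‖ ≤ N * (d : ℝ) ^ (-c)) →
      ∀ s : ℂ, ‖s‖ ≤ R → ‖PD χ ⌈(d : ℝ) ^ θ⌉₊ (θ * Real.log d) s / PD χ ⌈(d : ℝ) ^ θ⌉₊ (θ * Real.log d) 1‖ ≤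
        A * (1 + ‖s‖) ^ 12 * Real.exp (max 0 (-s.re)) := by
  obtain ⟨c0, hc0, hlev0⟩ := lev_exists θ c hθ hc
  obtain ⟨d1, hlev⟩ := hlev0 1 one_pos
  obtain ⟨C1, L1, δ, hC1, hL1, hδ, hδ1, hline⟩ := dlt_line_all
  set A0 : ℝ := (2 * Real.exp (2 * C1) + 1) + 6 * Real.exp 2 / (c0 * δ ^ 2) with hA0
  have hA00 : 0 ≤ A0 := by positivity
  refine ⟨Real.exp 1 * 9 ^ 12 * A0, by positivity, fun R => ?_⟩
  have hlog : Tendsto (fun d : ℕ => Real.log (d : ℝ)) atTop atTop := Real.tendsto_log_atTop.comp tendsto_natCast_atTop_atTop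
  have hLt : Tendsto (fun d : ℕ => θ * Real.log (d : ℝ)) atTop atTop := hlog.const_mul_atTop hθ
  obtain ⟨d2, hd2⟩ := eventually_atTop.mp (hLt.eventually_ge_atTop (max L1 (max (1 / δ) ((|R| + 1) / δ))))
  refine ⟨max d1 d2, fun d hd χ hχ => ?_⟩
  obtain ⟨hd1, _, hlv⟩ := hlev d ((le_max_left _ _).trans hd)
  have h1 := hd2 d ((le_max_right _ _).trans hd)
  set L := θ * Real.log (d : ℝ) with hLd
  have hLL1 : L1 ≤ L := (le_max_left _ _).trans h1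
  have hLδ : 1 / δ ≤ L := ((le_max_left _ _).trans (le_max_right _ _)).trans h1
  have hLR : (|R| + 1) / δ ≤ L := ((le_max_right _ _).trans (le_max_right _ _)).trans h1
  have hL1' : 1 ≤ L := hL1.trans hLL1
  have hLp : 0 < L := by linarith
  have hd0' : (0 : ℝ) < d := by exact_mod_cast (by omega : 0 < d)
  set N0 := ⌈(d : ℝ) ^ θ⌉₊ with hN0
  have hlv' := hlv χ hχ
  have hE0 : 0 ≤ (d : ℝ) ^ (-c) := Real.rpow_nonneg hd0'.le _
  have hRd1 : 1 ≤ δ * L := by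
    rw [div_le_iff₀ hδ] at hLδ
    linarith
  have hRR : |R| + 1 ≤ δ * L := by
    rw [div_le_iff₀ hδ] at hLR
    linarith
  have hpd := hlv'.pd_low hLp
  have hpd0 : 0 < ‖PD χ N0 L 1‖ := lt_of_lt_of_le (by positivity) hpd
  -- `log N0 ≤ L + 1`
  have hN0pos : 0 < N0 := by
    rw [hN0, Nat.ceil_pos]
    positivity
  have hlogN : Real.log N0 ≤ L + 1 := by
    have h2 : (1 : ℝ) ≤ (d : ℝ) ^ θ := Real.one_le_rpow (by exact_mod_cast hd1) hθ.le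
    have h3 : (N0 : ℝ) ≤ 2 * (d : ℝ) ^ θ := by
      have := Nat.ceil_lt_add_one (by positivity : (0 : ℝ) ≤ (d : ℝ) ^ θ)
      rw [← hN0] at this
      linarith
    have h4 : Real.log N0 ≤ Real.log (2 * (d : ℝ) ^ θ) := Real.log_le_log (by exact_mod_cast hN0pos) h3
    rw [Real.log_mul (by norm_num) (by positivity), Real.log_rpow hd0'] at h4
    have h5 : Real.log 2 ≤ 1 := by
      have := Real.log_two_lt_d9
      linarith
    linarith
  have hlogN0 : 0 ≤ Real.log N0 := Real.log_nonneg (by exact_mod_cast hN0pos)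
  have hfd : Differentiable ℂ (fun s => PD χ N0 L s / PD χ N0 L 1) := (PD_differentiable χ N0 L).div_const _
  intro s hs
  have hkey := disc_bound 12 A0 (δ * L) hA00 (fun s => PD χ N0 L s / PD χ N0 L 1) hfd ?_ ?_ s ?_
  · exact hkey
  · -- the line
    intro z hz hzR
    have hzim : |z.im| ≤ δ * L := by
      have h2 : |(z - 1).im| ≤ ‖z - 1‖ := Complex.abs_im_le_norm _
      have h3 : (z - 1).im = z.im := by simp
      rw [h3] at h2
      exact h2.trans hzR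
    refine (hlv'.line hc0 hL1' hE0 C1 z hz (hline L hLL1 z hz hzim)).trans ?_
    refine mul_le_mul_of_nonneg_right ?_ (by positivity)
    rw [hA0]
    have : 0 ≤ 6 * Real.exp 2 / (c0 * δ ^ 2) := by positivity
    linarith
  · -- the arc
    intro z hz
    rw [norm_div, div_le_iff₀ hpd0]
    have h2 := PD_bound χ N0 L hLp z
    have hzn : ‖z‖ ≤ 2 * L := by
      calc ‖z‖ = ‖(z - 1) + 1‖ := by congr 1; ring
        _ ≤ ‖z - 1‖ + ‖(1 : ℂ)‖ := norm_add_le _ _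
        _ = δ * L + 1 := by rw [hz, norm_one]
        _ ≤ 2 * L := by nlinarith
    have hm0 : 0 ≤ max 0 (-z.re) := le_max_left _ _
    have hm1 : max 0 (-z.re) ≤ ‖z‖ := by
      refine max_le (norm_nonneg _) ?_
      exact (neg_le_abs _).trans (Complex.abs_re_le_norm z)
    have h3 : max 0 (-z.re) * (Real.log N0 / L) ≤ max 0 (-z.re) + 2 := by
      have h4 : Real.log N0 / L ≤ 1 + 1 / L := by
        rw [div_le_iff₀ hLp, add_mul, one_mul, one_div, inv_mul_cancel₀ hLp.ne']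
        exact hlogN
      calc max 0 (-z.re) * (Real.log N0 / L) ≤ max 0 (-z.re) * (1 + 1 / L) := mul_le_mul_of_nonneg_left h4 hm0
        _ = max 0 (-z.re) + max 0 (-z.re) / L := by ring
        _ ≤ max 0 (-z.re) + 2 := by
          have h5 : max 0 (-z.re) / L ≤ 2 := by
            rw [div_le_iff₀ hLp]
            linarith
          linarith
    have h4 : Real.exp (max 0 (-z.re) * (Real.log N0 / L)) ≤ Real.exp 2 * Real.exp (max 0 (-z.re)) := by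
      rw [← Real.exp_add]
      refine Real.exp_le_exp.mpr ?_
      linarith
    have h5 : ‖PD χ N0 L z‖ ≤ (3 * L) * (Real.exp 2 * Real.exp (max 0 (-z.re))) := by
      refine h2.trans ?_
      refine mul_le_mul ?_ h4 (Real.exp_pos _).le (by positivity)
      linarith
    have h6 : A0 * (δ * L) ^ 12 * Real.exp (max 0 (-z.re)) * ‖PD χ N0 L 1‖ ≥
        (6 * Real.exp 2 / (c0 * δ ^ 2)) * (δ * L) ^ 2 * Real.exp (max 0 (-z.re)) * (c0 / (2 * L)) := by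
      have h7 : 6 * Real.exp 2 / (c0 * δ ^ 2) ≤ A0 := by
        rw [hA0]
        have : 0 ≤ 2 * Real.exp (2 * C1) + 1 := by positivity
        linarith
      have h8 : (δ * L) ^ 2 ≤ (δ * L) ^ 12 := pow_le_pow_right₀ hRd1 (by norm_num)
      exact mul_le_mul (mul_le_mul_of_nonneg_right (mul_le_mul h7 h8 (by positivity) hA00) (Real.exp_pos _).le) hpd
        (by positivity) (by positivity)
    have h7 : (6 * Real.exp 2 / (c0 * δ ^ 2)) * (δ * L) ^ 2 * Real.exp (max 0 (-z.re)) * (c0 / (2 * L)) =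
        (3 * L) * (Real.exp 2 * Real.exp (max 0 (-z.re))) := by
      field_simp
      ring
    rw [h7] at h6
    exact h5.trans h6
  · calc ‖s - 1‖ ≤ ‖s‖ + ‖(1 : ℂ)‖ := norm_sub_le _ _
      _ ≤ |R| + 1 := by
        rw [norm_one]
        linarith [le_abs_self R]
      _ ≤ δ * L := hRR

/-- real `s` -/
theorem GD_real (θ c : ℝ) (hθ : 0 < θ) (hc : 0 < c) (s : ℝ) (hs : 0 < s) (ε : ℝ) (hε : 0 < ε) : ∃ d0 : ℕ, ∀ d : ℕ, d0 ≤ d →
    ∀ χ : DirichletCharacter ℂ d, (∀ N : ℕ, (d : ℝ) ^ θ ≤ N → ‖∑ n ∈ Icc 1 N, χ (n : ZMod d)‖ ≤ N * (d : ℝ) ^ (-c)) →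
      ‖PD χ ⌈(d : ℝ) ^ θ⌉₊ (θ * Real.log d) s / PD χ ⌈(d : ℝ) ^ θ⌉₊ (θ * Real.log d) 1 -
        Complex.exp (∑' p, (zp χ (θ * Real.log d) s p - zp χ (θ * Real.log d) 1 p))‖ ≤ ε := by
  obtain ⟨Cd, L1, hCd, hL1, h1⟩ := dlt_real s hs
  obtain ⟨Ce, hCe, h2⟩ := err_real s hs
  obtain ⟨c0, hc0, hlev0⟩ := lev_exists θ c hθ hc
  set K : ℝ := (2 * (1 + s) / s + 4 * Real.exp Cd) * (2 / c0) with hK
  have hK0 : 0 < K := by positivity
  obtain ⟨d1, hlev⟩ := hlev0 (ε / (2 * K)) (by positivity)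
  have hlog : Tendsto (fun d : ℕ => Real.log (d : ℝ)) atTop atTop := Real.tendsto_log_atTop.comp tendsto_natCast_atTop_atTop
  have hLt : Tendsto (fun d : ℕ => θ * Real.log (d : ℝ)) atTop atTop := hlog.const_mul_atTop hθ
  obtain ⟨d2, hd2⟩ := eventually_atTop.mp (hLt.eventually_ge_atTop (max L1 (max Ce (8 * Real.exp Cd * Ce / ε))))
  refine ⟨max d1 d2, fun d hd χ hχ => ?_⟩
  obtain ⟨hd1, hsmall, hlv⟩ := hlev d ((le_max_left _ _).trans hd)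
  have h3 := hd2 d ((le_max_right _ _).trans hd)
  set L := θ * Real.log (d : ℝ) with hLd
  have hLL1 : L1 ≤ L := (le_max_left _ _).trans h3
  have hLCe : Ce ≤ L := ((le_max_left _ _).trans (le_max_right _ _)).trans h3
  have hLε : 8 * Real.exp Cd * Ce / ε ≤ L := ((le_max_right _ _).trans (le_max_right _ _)).trans h3
  have hL1' : 1 ≤ L := hL1.trans hLL1
  have hLp : 0 < L := by linarith
  have hd0' : (0 : ℝ) < d := by exact_mod_cast (by omega : 0 < d)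
  have hE0 : 0 ≤ (d : ℝ) ^ (-c) := Real.rpow_nonneg hd0'.le _
  refine ((hlv χ hχ).real hc0 hL1' hE0 s hs Cd Ce (h1 L hLL1) (h2 L hL1') hLCe).trans ?_
  have h4 : 4 * Real.exp Cd * Ce / L ≤ ε / 2 := by
    rw [div_le_iff₀ hε] at hLε
    rw [div_le_iff₀ hLp]
    linarith
  have h5 : K * (L ^ 2 * (d : ℝ) ^ (-c)) ≤ ε / 2 := by
    calc K * (L ^ 2 * (d : ℝ) ^ (-c)) ≤ K * (ε / (2 * K)) := mul_le_mul_of_nonneg_left hsmall hK0.le
      _ = ε / 2 := by field_simp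
  linarith

/-- THE LIMIT FUNCTIONS -/
theorem lim_G (U : Ultrafilter ℕ) (d : ℕ → ℕ) (hd : Tendsto d (U : Filter ℕ) atTop) (θ c : ℝ) (hθ : 0 < θ) (hc : 0 < c)
    (χ : ∀ m, DirichletCharacter ℂ (d m))
    (hB : ∀ᶠ m in (U : Filter ℕ), ∀ N : ℕ, (d m : ℝ) ^ θ ≤ N → ‖∑ n ∈ Finset.Icc 1 N, χ m (n : ZMod (d m))‖ ≤ N * (d m : ℝ) ^ (-c)) :
    ∃ G : ℂ → ℂ, Differentiable ℂ G ∧ (∃ (M : ℝ) (n : ℕ), ∀ s : ℂ, ‖G s‖ ≤ M * (1 + ‖s‖) ^ n * Real.exp (max 0 (-s.re))) ∧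
      ∀ s : ℝ, 0 < s → Tendsto (fun m => Complex.exp (∑' p : Nat.Primes, χ m ((p : ℕ) : ZMod (d m)) *
        (((((p : ℕ) : ℝ) ^ (-(1 + s / (θ * Real.log (d m)))) - ((p : ℕ) : ℝ) ^ (-(1 + 1 / (θ * Real.log (d m)))) : ℝ)) : ℂ)))
        (U : Filter ℕ) (nhds (G s)) := by
  obtain ⟨A, hA, hbd⟩ := GD_bound θ c hθ hc
  set f : ℕ → ℂ → ℂ := fun m s => PD (χ m) ⌈(d m : ℝ) ^ θ⌉₊ (θ * Real.log (d m)) s / PD (χ m) ⌈(d m : ℝ) ^ θ⌉₊ (θ * Real.log (d m)) 1 with hf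
  obtain ⟨G, hG1, hG2, hG3⟩ := ulim_entire U f (fun m => (PD_differentiable (χ m) _ _).div_const _)
    (fun s => A * (1 + ‖s‖) ^ 12 * Real.exp (max 0 (-s.re)))
    (fun R => ⟨A * (1 + |R|) ^ 12 * Real.exp |R|, fun s hs => by
      have hsR : ‖s‖ ≤ |R| := hs.trans (le_abs_self R)
      have h1 : max 0 (-s.re) ≤ |R| := by
        refine max_le (abs_nonneg _) ?_
        exact ((neg_le_abs _).trans (Complex.abs_re_le_norm s)).trans hsR
      have h2 : (1 + ‖s‖) ^ 12 ≤ (1 + |R|) ^ 12 := pow_le_pow_left₀ (by positivity) (by linarith) 12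
      exact mul_le_mul (mul_le_mul_of_nonneg_left h2 hA) (Real.exp_le_exp.mpr h1) (Real.exp_pos _).le (by positivity)⟩)
    (fun R => by
      obtain ⟨d0, h0⟩ := hbd R
      filter_upwards [hB, hd.eventually_ge_atTop d0] with m hm1 hm2
      intro s hs
      exact h0 (d m) hm2 (χ m) hm1 s hs)
  refine ⟨G, hG1, ⟨A, 12, hG3⟩, fun s hs => ?_⟩
  have h1 : Tendsto (fun m => f m s - Complex.exp (∑' p, (zp (χ m) (θ * Real.log (d m)) s p - zp (χ m) (θ * Real.log (d m)) 1 p)))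
      (U : Filter ℕ) (nhds 0) := by
    rw [Metric.tendsto_nhds]
    intro ε hε
    obtain ⟨d0, h0⟩ := GD_real θ c hθ hc s hs (ε / 2) (by positivity)
    filter_upwards [hB, hd.eventually_ge_atTop d0] with m hm1 hm2
    rw [dist_zero_right]
    exact lt_of_le_of_lt (h0 (d m) hm2 (χ m) hm1) (by linarith)
  have h2 := (hG2 s).sub h1
  rw [sub_zero] at h2
  refine h2.congr fun m => ?_
  rw [sub_sub_cancel]
  congr 1
  refine tsum_congr fun p => ?_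
  unfold zp
  rw [← mul_sub]
  congr 1
  push_cast
  rw [Complex.ofReal_cpow (Nat.cast_nonneg _), Complex.ofReal_cpow (Nat.cast_nonneg _)]
  push_cast
  rfl

end Pool.Agent.Lib.MP_42948a_nt.TS
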