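import Pool.Agent.Lib.MP_42948a_nt.TS.SpecA

/-!
# The spectrum lemmas: `spec`, `dist_mul`, `char_group` are in `TS/SpecA.lean`, `main_class`, `in1`, `approx` in `TS/SpecB.lean`
-/
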