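import Pool.Agent.Lib.MP_42948a_nt.TS.Rel
import Pool.Agent.Lib.MP_42948a_nt.TS.Spec

/-!
# The finite model of the threshold sets
-/

set_option linter.unusedSectionVars false

namespace Pool.Agent.Lib.MP_42948a_nt.TS

open Finset Pool.Agent.Lib.MP_42948a_nt.OA Pool.Agent.Lib.MP_42948a_nt.TQ Pool.Agent.Lib.MP_42948a_nt.PS
  Pool.Agent.Lib.MP_42948a_nt.TF

variable {d : ℕ} [NeZero d]

/-- the finite model: up to sets of density `ε` the sets `T i`, `B j` are unions of cosets of `N` -/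
structure Mdl (k : ℕ) (T B : ℕ → Set (ZMod d)ˣ) (N : Subgroup (ZMod d)ˣ) (t γ : (ZMod d)ˣ ⧸ N) (A : Set ((ZMod d)ˣ ⧸ N)) (ε : ℝ) :
    Prop where
  apT : ∀ i, 4 ≤ i → i + 3 ≤ k → mu (symmDiff (T i) {x | (x : (ZMod d)ˣ ⧸ N) * (t ^ i)⁻¹ ∈ A}) ≤ ε
  apB : ∀ j, 3 ≤ j → j + 4 ≤ k → mu (symmDiff (B j) {x | γ * t ^ j * (x : (ZMod d)ˣ ⧸ N)⁻¹ ∉ A}) ≤ ε
  disj : ∀ x ∈ A, x * t ∉ A
  cov : ∀ x, x ∈ A ∨ x * t ∈ A ∨ x * t⁻¹ ∈ A

/-- JOB Model1. Sets of density `< 1 / M` which are unions of cosets of a subgroup of index `≤ M` are empty. -/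
theorem coset_empty (N : Subgroup (ZMod d)ˣ) {M : ℕ} (hM : 0 < M) (hN : N.index ≤ M) (A : Set ((ZMod d)ˣ ⧸ N))
    (h : mu {x : (ZMod d)ˣ | (x : (ZMod d)ˣ ⧸ N) ∈ A} < 1 / (M : ℝ)) : A = ∅ := by
  by_contra hne
  obtain ⟨c, hc⟩ := Set.nonempty_iff_ne_empty.mpr hne
  obtain ⟨g, rfl⟩ := QuotientGroup.mk_surjective c
  have hsub : (fun n : (ZMod d)ˣ => g * n) '' (N : Set (ZMod d)ˣ) ⊆ {x : (ZMod d)ˣ | (x : (ZMod d)ˣ ⧸ N) ∈ A} := by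
    rintro x ⟨n, hn, rfl⟩
    have h1 : ((g * n : (ZMod d)ˣ) : (ZMod d)ˣ ⧸ N) = (g : (ZMod d)ˣ ⧸ N) := by
      rw [QuotientGroup.mk_mul_of_mem g hn]
    show ((g * n : (ZMod d)ˣ) : (ZMod d)ˣ ⧸ N) ∈ A
    rw [h1]
    exact hc
  have h2 := mu_mono hsub
  have h3 : mu ((fun n : (ZMod d)ˣ => g * n) '' (N : Set (ZMod d)ˣ)) = (Nat.card N : ℝ) / (Fintype.card (ZMod d)ˣ : ℝ) := by
    unfold mu
    rw [Set.ncard_image_of_injective _ (mul_right_injective g)]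
    rfl
  have h4 : (Nat.card N : ℝ) * (N.index : ℝ) = (Fintype.card (ZMod d)ˣ : ℝ) := by
    have h5 := N.card_mul_index
    rw [Nat.card_eq_fintype_card (α := (ZMod d)ˣ)] at h5
    exact_mod_cast h5
  have h6 : (0 : ℝ) < (Fintype.card (ZMod d)ˣ : ℝ) := card_pos
  have h7 : (N.index : ℝ) ≤ M := by exact_mod_cast hN
  have hM0 : (0 : ℝ) < M := by exact_mod_cast hM
  have h8 : 1 / (M : ℝ) ≤ (Nat.card N : ℝ) / (Fintype.card (ZMod d)ˣ : ℝ) := by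
    rw [div_le_div_iff₀ hM0 h6, one_mul, ← h4]
    exact mul_le_mul_of_nonneg_left h7 (Nat.cast_nonneg _)
  rw [h3] at h2
  linarith

section quotient

variable {Q : Type*} [CommGroup Q]

private theorem q_zero (x t : Q) : x * (t ^ 0)⁻¹ = x := by
  rw [pow_zero, inv_one, mul_one]

private theorem q_step (x t : Q) (n : ℕ) : x * t⁻¹ * (t ^ n)⁻¹ = x * (t ^ (n + 1))⁻¹ := by
  rw [pow_succ, mul_inv_rev, mul_assoc]

private theorem q_four (x t : Q) (n : ℕ) : x * (t ^ (n + 4))⁻¹ * t ^ 4 = x * (t ^ n)⁻¹ := by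
  rw [pow_add, mul_inv, ← mul_assoc, inv_mul_cancel_right]

private theorem q_k (g t x : Q) (i j : ℕ) : g * x⁻¹ * (t ^ i)⁻¹ = g * (t ^ (i + j))⁻¹ * t ^ j * x⁻¹ := by
  rw [pow_add, mul_inv, ← mul_assoc, inv_mul_cancel_right]
  exact mul_right_comm _ _ _

private theorem q_a (x t : Q) : x * t ^ 5 * (t ^ 4)⁻¹ = x * t := by
  rw [pow_succ' t 4, ← mul_assoc, mul_inv_cancel_right]

private theorem q_b (x t : Q) : x * t ^ 5 * (t ^ 5)⁻¹ = x := mul_inv_cancel_right _ _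

private theorem q_c (x t : Q) : x * t ^ 5 * (t ^ 6)⁻¹ = x * t⁻¹ := by
  rw [pow_succ t 5, mul_inv_rev, mul_comm t⁻¹, ← mul_assoc, mul_inv_cancel_right]

private theorem q_fin [Finite Q] (s : Q) (A : Set Q) (hs : ∀ x ∈ A, s * x ∈ A) : ∀ x, x ∈ A ↔ s * x ∈ A := by
  have h1 : ∀ m : ℕ, ∀ x ∈ A, s ^ m * x ∈ A := by
    intro m
    induction m with
    | zero =>
      intro x hx
      rw [pow_zero, one_mul]
      exact hx
    | succ m ih =>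
      intro x hx
      rw [pow_succ', mul_assoc]
      exact hs _ (ih x hx)
  intro x
  refine ⟨hs x, fun hx => ?_⟩
  have h3 := h1 (orderOf s - 1) _ hx
  have h4 : 0 < orderOf s := orderOf_pos s
  rw [← mul_assoc, ← pow_succ, Nat.sub_add_cancel h4, pow_orderOf_eq_one, one_mul] at h3
  exact h3

end quotient

/-- the triangle inequality for symmetric differences -/
theorem mu_tri (A B C : Set (ZMod d)ˣ) : mu (symmDiff A C) ≤ mu (symmDiff A B) + mu (symmDiff B C) := by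
  refine mu_cov2 fun x hx => ?_
  by_cases h : x ∈ B
  · rcases hx with ⟨h1, h2⟩ | ⟨h1, h2⟩
    · exact Or.inr (Or.inl ⟨h, h2⟩)
    · exact Or.inl (Or.inr ⟨h, h2⟩)
  · rcases hx with ⟨h1, h2⟩ | ⟨h1, h2⟩
    · exact Or.inl (Or.inl ⟨h1, h⟩)
    · exact Or.inr (Or.inr ⟨h1, h⟩)

open Classical in
/-- the index of `perp H` is the number of characters in `H` -/
theorem perp_index (H : Subgroup (DirichletCharacter ℂ d)) {M : ℕ}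
    (hM : ((univ : Finset (DirichletCharacter ℂ d)).filter (fun χ => χ ∈ H)).card ≤ M) : (perp H).index ≤ M := by
  have h1 := perp_card H
  have h2 : ((Nat.card (perp H) : ℕ) : ℝ) * ((perp H).index : ℝ) = (Fintype.card (ZMod d)ˣ : ℝ) := by
    have h5 := (perp H).card_mul_index
    rw [Nat.card_eq_fintype_card (α := (ZMod d)ˣ)] at h5
    exact_mod_cast h5
  have h3 : (0 : ℝ) < (Nat.card (perp H) : ℝ) := by exact_mod_cast Nat.card_pos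
  have h4 : ((perp H).index : ℝ) = (((univ : Finset (DirichletCharacter ℂ d)).filter (fun χ => χ ∈ H)).card : ℝ) := by
    have h5 : ((Nat.card (perp H) : ℕ) : ℝ) * ((perp H).index : ℝ) =
        (Nat.card (perp H) : ℝ) * (((univ : Finset (DirichletCharacter ℂ d)).filter (fun χ => χ ∈ H)).card : ℝ) := by
      rw [h2, h1]
      ring
    exact mul_left_cancel₀ h3.ne' h5
  have h5 : (perp H).index = ((univ : Finset (DirichletCharacter ℂ d)).filter (fun χ => χ ∈ H)).card := by exact_mod_cast h4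
  rw [h5]
  exact hM

/-- a character trivial on `perp H` is in `H` -/
theorem mem_of_perp (H : Subgroup (DirichletCharacter ℂ d)) (χ : DirichletCharacter ℂ d) (h : ∀ x ∈ perp H, ev χ x = 1) : χ ∈ H := by
  classical
  obtain ⟨H', hH'⟩ : ∃ H' : Subgroup (DirichletCharacter ℂ d), ∀ ψ, ψ ∈ H' ↔ ∀ x ∈ perp H, ev ψ x = 1 :=
    ⟨{ carrier := {ψ | ∀ x ∈ perp H, ev ψ x = 1}
       one_mem' := fun x _ => by
         show (1 : DirichletCharacter ℂ d) (x : ZMod d) = 1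
         exact MulChar.one_apply_coe x
       mul_mem' := fun {a b} ha hb x hx => by rw [ev_mul_char, ha x hx, hb x hx, mul_one]
       inv_mem' := fun {a} ha x hx => by rw [← conj_ev', ha x hx, map_one] }, fun ψ => Iff.rfl⟩
  have h1 : H ≤ H' := by
    intro ψ hψ
    rw [hH']
    intro x hx
    exact hx ψ hψ
  have h2 : perp H' = perp H := by
    refine le_antisymm ?_ ?_
    · intro x hx ψ hψ
      exact hx ψ (h1 hψ)
    · intro x hx ψ hψ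
      exact (hH' ψ).mp hψ x hx
  have h3 := perp_card H
  have h4 := perp_card H'
  rw [h2] at h4
  have h5 : (0 : ℝ) < (Nat.card (perp H) : ℝ) := by exact_mod_cast Nat.card_pos
  have h6 : (((univ : Finset (DirichletCharacter ℂ d)).filter (fun χ => χ ∈ H)).card : ℝ) =
      (((univ : Finset (DirichletCharacter ℂ d)).filter (fun χ => χ ∈ H')).card : ℝ) :=
    mul_right_cancel₀ h5.ne' (h3.symm.trans h4)
  have h7 : (univ : Finset (DirichletCharacter ℂ d)).filter (fun χ => χ ∈ H) =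
      (univ : Finset (DirichletCharacter ℂ d)).filter (fun χ => χ ∈ H') := by
    refine eq_of_subset_of_card_le ?_ ?_
    · intro ψ hψ
      rw [mem_filter] at hψ ⊢
      exact ⟨hψ.1, h1 hψ.2⟩
    · have h8 : ((univ : Finset (DirichletCharacter ℂ d)).filter (fun χ => χ ∈ H)).card =
          ((univ : Finset (DirichletCharacter ℂ d)).filter (fun χ => χ ∈ H')).card := by exact_mod_cast h6
      exact h8.ge
  have h9 : χ ∈ (univ : Finset (DirichletCharacter ℂ d)).filter (fun χ => χ ∈ H) := by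
    rw [h7, mem_filter]
    exact ⟨mem_univ _, (hH' χ).mpr h⟩
  exact (mem_filter.mp h9).2

open Classical in
/-- JOB Model2. The finite model. Choice: `e0 = min (ε / (100 (k + 1) 4 ^ M / r0)) ..` small enough, see below. Proof. `spec` for `T 4`, `T 5`, then
`char_group` (`H`, `r ≥ r0 / 4 ^ M`), so `∑_{χ ∉ H} ‖SF (in1 (T 4)) χ‖^2 ≤ φ^2 (e2 + δ) 4 ^ M / r0`, and `approx`: `T 4` is `ε4`-close to the preimage of a set
`A4`, `ε4 = 4 (e2 + δ) 4 ^ M / r0`. `N = perp H`, index `≤ M` (`perp_card`). `main_class`: `t` with the mass outside `≤ r0 Wt U`; since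
`r0 + δ < 1` there is `p ∈ U`, `p ∉ Bad` in the class `t`; then `T i` is `(ε4 + (i - 4) e2)`-close to the preimage of `t ^ (i - 4) A4` for `4 ≤ i ≤ k - 3` by induction
(`hsh`, `mu_tr`). `A = t ^ (-4) A4`. `disj`, `cov`: `rel_disj` and `covT` for `j = 4` and `coset_empty` (all errors together are `< 1 / M`).
`apB`: `rel_compl`, `mu_rf`, `γ = g t ^ (-k)`. The last claim: a character trivial on `perp H` is in `H` (`perp_card` for `H` and for the subgroup of all characters trivial on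
`perp H`). -/
theorem model (k M : ℕ) (hk : 9 ≤ k) (hM : 0 < M) (ε r0 : ℝ) (hε : 0 < ε) (hr0 : 0 < r0) (hr1 : r0 ≤ 1 / 4) :
    ∃ e0 : ℝ, 0 < e0 ∧ ∀ (d : ℕ) [NeZero d] (U Bad : Finset ℕ) (T B : ℕ → Set (ZMod d)ˣ) (g : (ZMod d)ˣ),
      (∀ p ∈ U, p.Coprime d) → Bad ⊆ U → 0 < Wt U → Wt Bad ≤ e0 * Wt U → Rel k e0 g T B →
      (∀ i, 4 ≤ i → i + 4 ≤ k → ∀ p ∈ U, p ∉ Bad → mu (symmDiff (tr (ucl d p) (T i)) (T (i + 1))) ≤ e0) →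
      ((univ : Finset (DirichletCharacter ℂ d)).filter (fun χ => 1 - ‖Pa U χ‖ ^ 2 ≤ r0)).card ≤ M →
      ∃ (N : Subgroup (ZMod d)ˣ) (t γ : (ZMod d)ˣ ⧸ N) (A : Set ((ZMod d)ˣ ⧸ N)), N.index ≤ M ∧ Mdl k T B N t γ A ε ∧
        Wt (U.filter (fun p : ℕ => ((ucl d p : (ZMod d)ˣ) : (ZMod d)ˣ ⧸ N) ≠ t)) ≤ r0 * Wt U ∧
        ∀ χ : DirichletCharacter ℂ d, (∀ x ∈ N, ev χ x = 1) → 1 - ‖Pa U χ‖ ^ 2 ≤ r0 := by
  have hM0 : (0 : ℝ) < M := by exact_mod_cast hM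
  have hM1 : (1 : ℝ) ≤ M := by exact_mod_cast hM
  obtain ⟨K, hK⟩ : ∃ K : ℝ, K = 4 ^ M / r0 := ⟨_, rfl⟩
  have hK0 : 0 < K := by
    rw [hK]
    positivity
  obtain ⟨m0, hm0⟩ : ∃ m0 : ℝ, m0 = min ε (1 / (M : ℝ)) := ⟨_, rfl⟩
  have hm00 : 0 < m0 := by
    rw [hm0]
    exact lt_min hε (by positivity)
  have hm1 : m0 ≤ ε := by
    rw [hm0]
    exact min_le_left _ _
  have hm2 : m0 ≤ 1 / (M : ℝ) := by
    rw [hm0]
    exact min_le_right _ _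
  have hm3 : 1 / (M : ℝ) ≤ 1 := by
    rw [div_le_one hM0]
    exact hM1
  have hD0 : 0 < 8 * K + k + 3 := by positivity
  obtain ⟨e0, he0⟩ : ∃ e0 : ℝ, e0 = m0 / 4 / (8 * K + k + 3) := ⟨_, rfl⟩
  have he00 : 0 < e0 := by
    rw [he0]
    positivity
  have hE : e0 * (8 * K + k + 3) = m0 / 4 := by
    rw [he0]
    field_simp
  have hke : 0 ≤ (k : ℝ) * e0 := by positivity
  have hKe : 0 ≤ K * e0 := by positivity
  have hE' : 8 * (K * e0) + k * e0 + 3 * e0 = m0 / 4 := by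
    rw [← hE]
    ring
  refine ⟨e0, he00, ?_⟩
  intro d _ U Bad T B g hU hBU hW hBad hR hsh hcard
  obtain ⟨H, r, hr1', hr2, hH1, hH2, hH3⟩ := char_group U hU hW M hr0 hcard
  have hr : 0 < r := lt_of_lt_of_le (by positivity) hr1'
  -- the approximation of `T 4`
  have hsp := spec U Bad hU hBU hW he00.le hBad (T 4) (T 5) (fun p hp hpB => hsh 4 le_rfl (by omega) p hp hpB)
  have hφ : (0 : ℝ) < (Fintype.card (ZMod d)ˣ : ℝ) := card_pos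
  have hPa : ∀ χ : DirichletCharacter ℂ d, 0 ≤ 1 - ‖Pa U χ‖ ^ 2 := by
    intro χ
    have h1 := norm_Pa_le U χ
    have h2 : ‖Pa U χ‖ ^ 2 ≤ 1 := pow_le_one₀ (norm_nonneg _) h1
    linarith
  have hsum : ∑ χ ∈ (univ : Finset (DirichletCharacter ℂ d)).filter (fun χ => χ ∉ H), ‖SF (in1 (T 4)) χ‖ ^ 2 ≤
      (Fintype.card (ZMod d)ˣ : ℝ) ^ 2 * (2 * (K * e0)) := by
    have h1 : r * ∑ χ ∈ (univ : Finset (DirichletCharacter ℂ d)).filter (fun χ => χ ∉ H), ‖SF (in1 (T 4)) χ‖ ^ 2 ≤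
        (Fintype.card (ZMod d)ˣ : ℝ) ^ 2 * (e0 + e0) := by
      refine le_trans ?_ hsp
      rw [mul_sum]
      refine (sum_le_sum fun χ hχ => ?_).trans (sum_le_sum_of_subset_of_nonneg (filter_subset _ _)
        fun χ _ _ => mul_nonneg (sq_nonneg _) (hPa χ))
      rw [mul_comm]
      exact mul_le_mul_of_nonneg_left (hH2 χ (mem_filter.mp hχ).2).le (sq_nonneg _)
    have h2 : (1 : ℝ) ≤ K * r := by
      have h3 : K * (r0 / 4 ^ M) = 1 := by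
        rw [hK]
        field_simp
      rw [← h3]
      exact mul_le_mul_of_nonneg_left hr1' hK0.le
    obtain ⟨S0, hS0⟩ : ∃ S : ℝ, S = ∑ χ ∈ (univ : Finset (DirichletCharacter ℂ d)).filter (fun χ => χ ∉ H),
        ‖SF (in1 (T 4)) χ‖ ^ 2 := ⟨_, rfl⟩
    rw [← hS0] at h1 ⊢
    have hS1 : 0 ≤ S0 := by
      rw [hS0]
      exact sum_nonneg fun χ _ => sq_nonneg _
    calc S0 = 1 * S0 := (one_mul _).symm
      _ ≤ K * r * S0 := mul_le_mul_of_nonneg_right h2 hS1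
      _ = K * (r * S0) := by ring
      _ ≤ K * ((Fintype.card (ZMod d)ˣ : ℝ) ^ 2 * (e0 + e0)) := mul_le_mul_of_nonneg_left h1 hK0.le
      _ = (Fintype.card (ZMod d)ˣ : ℝ) ^ 2 * (2 * (K * e0)) := by ring
  obtain ⟨A4, hA4⟩ := approx H (T 4) hsum
  have hA4' : mu (symmDiff (T 4) {x | (x : (ZMod d)ˣ ⧸ perp H) ∈ A4}) ≤ 8 * (K * e0) := by linarith
  have hidx : (perp H).index ≤ M := perp_index H hH3
  obtain ⟨t0, ht0⟩ := main_class U hU hW H hH1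
  obtain ⟨t, ht⟩ : ∃ t : (ZMod d)ˣ ⧸ perp H, t = (t0 : (ZMod d)ˣ ⧸ perp H) := ⟨_, rfl⟩
  have hmain : Wt (U.filter (fun p : ℕ => ((ucl d p : (ZMod d)ˣ) : (ZMod d)ˣ ⧸ perp H) ≠ t)) ≤ r0 * Wt U := by
    refine le_trans (le_of_eq ?_) ht0
    congr 1
    refine filter_congr fun p _ => ?_
    rw [ht, ne_eq, eq_comm, QuotientGroup.eq]
  -- a good prime of the class `t`
  obtain ⟨p1, hp1U, hp1B, hp1t⟩ : ∃ p ∈ U, p ∉ Bad ∧ ((ucl d p : (ZMod d)ˣ) : (ZMod d)ˣ ⧸ perp H) = t := by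
    by_contra hcon
    push Not at hcon
    have h1 : Wt U ≤ Wt Bad + Wt (U.filter (fun p : ℕ => ((ucl d p : (ZMod d)ˣ) : (ZMod d)ˣ ⧸ perp H) ≠ t)) := by
      unfold Wt
      rw [← sum_union_inter]
      have h2 : U ⊆ Bad ∪ U.filter (fun p : ℕ => ((ucl d p : (ZMod d)ˣ) : (ZMod d)ˣ ⧸ perp H) ≠ t) := by
        intro p hp
        rw [mem_union, mem_filter]
        by_cases hpB : p ∈ Bad
        · exact Or.inl hpB
        · exact Or.inr ⟨hp, hcon p hp hpB⟩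
      have h3 := sum_le_sum_of_subset_of_nonneg (f := fun p : ℕ => 1 / (p : ℝ)) h2 fun p _ _ => by positivity
      have h4 : 0 ≤ ∑ p ∈ Bad ∩ U.filter (fun p : ℕ => ((ucl d p : (ZMod d)ˣ) : (ZMod d)ˣ ⧸ perp H) ≠ t), 1 / (p : ℝ) :=
        sum_nonneg fun p _ => by positivity
      linarith
    have h2 : Wt U ≤ (e0 + r0) * Wt U := by linarith
    have h3 : e0 + r0 < 1 := by linarith
    have h4 : (e0 + r0) * Wt U < 1 * Wt U := mul_lt_mul_of_pos_right h3 hW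
    linarith
  -- the approximation of all `T i`
  have hTi : ∀ n : ℕ, n + 4 + 3 ≤ k →
      mu (symmDiff (T (n + 4)) {x | (x : (ZMod d)ˣ ⧸ perp H) * (t ^ n)⁻¹ ∈ A4}) ≤ 8 * (K * e0) + n * e0 := by
    intro n
    induction n with
    | zero =>
      intro _
      have h0 : ∀ x : (ZMod d)ˣ, (x : (ZMod d)ˣ ⧸ perp H) * (t ^ 0)⁻¹ = (x : (ZMod d)ˣ ⧸ perp H) := fun x =>
        q_zero (x : (ZMod d)ˣ ⧸ perp H) t
      have h1 : {x : (ZMod d)ˣ | (x : (ZMod d)ˣ ⧸ perp H) * (t ^ 0)⁻¹ ∈ A4} =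
          {x : (ZMod d)ˣ | (x : (ZMod d)ˣ ⧸ perp H) ∈ A4} := by
        ext x
        show (x : (ZMod d)ˣ ⧸ perp H) * (t ^ 0)⁻¹ ∈ A4 ↔ (x : (ZMod d)ˣ ⧸ perp H) ∈ A4
        rw [h0 x]
      rw [Nat.cast_zero, zero_mul, add_zero, h1]
      exact hA4'
    | succ n ih =>
      intro hn
      have h1 := ih (by omega)
      have h2 := hsh (n + 4) (by omega) (by omega) p1 hp1U hp1B
      have h3 := mu_tri (T (n + 1 + 4)) (tr (ucl d p1) (T (n + 4)))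
        {x | (x : (ZMod d)ˣ ⧸ perp H) * (t ^ (n + 1))⁻¹ ∈ A4}
      have h4 : symmDiff (tr (ucl d p1) (T (n + 4))) {x | (x : (ZMod d)ˣ ⧸ perp H) * (t ^ (n + 1))⁻¹ ∈ A4} =
          tr (ucl d p1) (symmDiff (T (n + 4)) {x | (x : (ZMod d)ˣ ⧸ perp H) * (t ^ n)⁻¹ ∈ A4}) := by
        have h5 : ∀ x : (ZMod d)ˣ, ((x * (ucl d p1)⁻¹ : (ZMod d)ˣ) : (ZMod d)ˣ ⧸ perp H) * (t ^ n)⁻¹ =
            (x : (ZMod d)ˣ ⧸ perp H) * (t ^ (n + 1))⁻¹ := by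
          intro x
          rw [QuotientGroup.mk_mul, QuotientGroup.mk_inv, hp1t]
          exact q_step (x : (ZMod d)ˣ ⧸ perp H) t n
        ext x
        show (x * (ucl d p1)⁻¹ ∈ T (n + 4) ∧ ¬ (x : (ZMod d)ˣ ⧸ perp H) * (t ^ (n + 1))⁻¹ ∈ A4 ∨
            (x : (ZMod d)ˣ ⧸ perp H) * (t ^ (n + 1))⁻¹ ∈ A4 ∧ ¬ x * (ucl d p1)⁻¹ ∈ T (n + 4)) ↔
          (x * (ucl d p1)⁻¹ ∈ T (n + 4) ∧ ¬ ((x * (ucl d p1)⁻¹ : (ZMod d)ˣ) : (ZMod d)ˣ ⧸ perp H) * (t ^ n)⁻¹ ∈ A4 ∨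
            ((x * (ucl d p1)⁻¹ : (ZMod d)ˣ) : (ZMod d)ˣ ⧸ perp H) * (t ^ n)⁻¹ ∈ A4 ∧ ¬ x * (ucl d p1)⁻¹ ∈ T (n + 4))
        rw [h5 x]
      rw [h4, mu_tr, symmDiff_comm (T (n + 1 + 4)) (tr (ucl d p1) (T (n + 4)))] at h3
      rw [show n + 4 + 1 = n + 1 + 4 by omega] at h2
      push_cast
      linarith
  obtain ⟨A, hA⟩ : ∃ A : Set ((ZMod d)ˣ ⧸ perp H), A = {y | y * t ^ 4 ∈ A4} := ⟨_, rfl⟩
  have hset : ∀ n : ℕ, {x : (ZMod d)ˣ | (x : (ZMod d)ˣ ⧸ perp H) * (t ^ n)⁻¹ ∈ A4} =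
      {x : (ZMod d)ˣ | (x : (ZMod d)ˣ ⧸ perp H) * (t ^ (n + 4))⁻¹ ∈ A} := by
    intro n
    ext x
    show (x : (ZMod d)ˣ ⧸ perp H) * (t ^ n)⁻¹ ∈ A4 ↔ (x : (ZMod d)ˣ ⧸ perp H) * (t ^ (n + 4))⁻¹ ∈ A
    rw [hA]
    show _ ↔ (x : (ZMod d)ˣ ⧸ perp H) * (t ^ (n + 4))⁻¹ * t ^ 4 ∈ A4
    have e : (x : (ZMod d)ˣ ⧸ perp H) * (t ^ (n + 4))⁻¹ * t ^ 4 = (x : (ZMod d)ˣ ⧸ perp H) * (t ^ n)⁻¹ :=
      q_four (x : (ZMod d)ˣ ⧸ perp H) t n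
    rw [e]
  have hapT : ∀ i, 4 ≤ i → i + 3 ≤ k →
      mu (symmDiff (T i) {x | (x : (ZMod d)ˣ ⧸ perp H) * (t ^ i)⁻¹ ∈ A}) ≤ 8 * (K * e0) + k * e0 := by
    intro i hi hik
    obtain ⟨n, rfl⟩ : ∃ n, i = n + 4 := ⟨i - 4, by omega⟩
    have h1 := hTi n hik
    rw [hset] at h1
    refine h1.trans ?_
    have h2 : (n : ℝ) ≤ k := by exact_mod_cast (by omega : n ≤ k)
    have h3 := mul_le_mul_of_nonneg_right h2 he00.le
    linarith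
  obtain ⟨γ, hγ⟩ : ∃ γ : (ZMod d)ˣ ⧸ perp H, γ = (g : (ZMod d)ˣ ⧸ perp H) * (t ^ k)⁻¹ := ⟨_, rfl⟩
  refine ⟨perp H, t, γ, A, hidx, ⟨?_, ?_, ?_, ?_⟩, hmain, ?_⟩
  · intro i hi hik
    have h1 := hapT i hi hik
    linarith
  · intro j hj hjk
    have h1 := rel_compl hR (j := j) (by omega) (by omega)
    have h2 := hapT (k - j) (by omega) (by omega)
    have h3 := mu_tri (B j) (rf g (T (k - j)))ᶜ {x | γ * t ^ j * (x : (ZMod d)ˣ ⧸ perp H)⁻¹ ∉ A}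
    have h4 : symmDiff (rf g (T (k - j)))ᶜ {x | γ * t ^ j * (x : (ZMod d)ˣ ⧸ perp H)⁻¹ ∉ A} =
        rf g (symmDiff (T (k - j)) {x | (x : (ZMod d)ˣ ⧸ perp H) * (t ^ (k - j))⁻¹ ∈ A}) := by
      have h5 : ∀ x : (ZMod d)ˣ, ((g * x⁻¹ : (ZMod d)ˣ) : (ZMod d)ˣ ⧸ perp H) * (t ^ (k - j))⁻¹ =
          γ * t ^ j * (x : (ZMod d)ˣ ⧸ perp H)⁻¹ := by
        intro x
        have h6 : k = k - j + j := (Nat.sub_add_cancel (by omega)).symm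
        have h7 : γ = (g : (ZMod d)ˣ ⧸ perp H) * (t ^ (k - j + j))⁻¹ := by
          rw [← h6]
          exact hγ
        rw [h7, QuotientGroup.mk_mul, QuotientGroup.mk_inv]
        exact q_k (g : (ZMod d)ˣ ⧸ perp H) t (x : (ZMod d)ˣ ⧸ perp H) (k - j) j
      ext x
      show (¬ (g * x⁻¹ ∈ T (k - j)) ∧ ¬ ¬ (γ * t ^ j * (x : (ZMod d)ˣ ⧸ perp H)⁻¹ ∈ A) ∨
          ¬ (γ * t ^ j * (x : (ZMod d)ˣ ⧸ perp H)⁻¹ ∈ A) ∧ ¬ ¬ (g * x⁻¹ ∈ T (k - j))) ↔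
        (g * x⁻¹ ∈ T (k - j) ∧ ¬ ((g * x⁻¹ : (ZMod d)ˣ) : (ZMod d)ˣ ⧸ perp H) * (t ^ (k - j))⁻¹ ∈ A ∨
          ((g * x⁻¹ : (ZMod d)ˣ) : (ZMod d)ˣ ⧸ perp H) * (t ^ (k - j))⁻¹ ∈ A ∧ ¬ g * x⁻¹ ∈ T (k - j))
      rw [h5 x]
      tauto
    rw [h4, mu_rf] at h3
    linarith
  · -- `A` and `A / t` are disjoint
    have h1 := rel_disj hR (j := 4) (by omega) (by omega)
    have h2 := hapT 4 (by omega) (by omega)
    have h3 := hapT 5 (by omega) (by omega)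
    have h4 : {y : (ZMod d)ˣ ⧸ perp H | y * (t ^ 4)⁻¹ ∈ A ∧ y * (t ^ 5)⁻¹ ∈ A} = ∅ := by
      refine coset_empty (perp H) hM hidx _ ?_
      have h5 : mu {x : (ZMod d)ˣ | (x : (ZMod d)ˣ ⧸ perp H) ∈
          {y : (ZMod d)ˣ ⧸ perp H | y * (t ^ 4)⁻¹ ∈ A ∧ y * (t ^ 5)⁻¹ ∈ A}} ≤
          mu (T 4 ∩ T 5) + mu (symmDiff (T 4) {x | (x : (ZMod d)ˣ ⧸ perp H) * (t ^ 4)⁻¹ ∈ A}) +
            mu (symmDiff (T 5) {x | (x : (ZMod d)ˣ ⧸ perp H) * (t ^ 5)⁻¹ ∈ A}) := by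
        refine mu_cov3 fun x hx => ?_
        have hx1 : (x : (ZMod d)ˣ ⧸ perp H) * (t ^ 4)⁻¹ ∈ A := hx.1
        have hx2 : (x : (ZMod d)ˣ ⧸ perp H) * (t ^ 5)⁻¹ ∈ A := hx.2
        by_cases g1 : x ∈ T 4
        · by_cases g2 : x ∈ T 5
          · exact Or.inl ⟨g1, g2⟩
          · exact Or.inr (Or.inr (Or.inr ⟨hx2, g2⟩))
        · exact Or.inr (Or.inl (Or.inr ⟨hx1, g1⟩))
      refine lt_of_le_of_lt h5 ?_
      linarith
    intro x hx hxt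
    have h5 : x * t ^ 5 ∈ {y : (ZMod d)ˣ ⧸ perp H | y * (t ^ 4)⁻¹ ∈ A ∧ y * (t ^ 5)⁻¹ ∈ A} := by
      refine ⟨?_, ?_⟩
      · have e : x * t ^ 5 * (t ^ 4)⁻¹ = x * t := q_a x t
        show x * t ^ 5 * (t ^ 4)⁻¹ ∈ A
        rw [e]
        exact hxt
      · have e : x * t ^ 5 * (t ^ 5)⁻¹ = x := q_b x t
        show x * t ^ 5 * (t ^ 5)⁻¹ ∈ A
        rw [e]
        exact hx
    rw [h4] at h5
    exact h5
  · -- the coverage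
    have h2 := hapT 4 (by omega) (by omega)
    have h3 := hapT 5 (by omega) (by omega)
    have h4 := hapT 6 (by omega) (by omega)
    have h5 : {y : (ZMod d)ˣ ⧸ perp H | y * (t ^ 4)⁻¹ ∉ A ∧ y * (t ^ 5)⁻¹ ∉ A ∧ y * (t ^ 6)⁻¹ ∉ A} = ∅ := by
      refine coset_empty (perp H) hM hidx _ ?_
      have h6 : mu {x : (ZMod d)ˣ | (x : (ZMod d)ˣ ⧸ perp H) ∈
          {y : (ZMod d)ˣ ⧸ perp H | y * (t ^ 4)⁻¹ ∉ A ∧ y * (t ^ 5)⁻¹ ∉ A ∧ y * (t ^ 6)⁻¹ ∉ A}} ≤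
          mu (symmDiff (T 4) {x | (x : (ZMod d)ˣ ⧸ perp H) * (t ^ 4)⁻¹ ∈ A}) +
            mu (symmDiff (T 5) {x | (x : (ZMod d)ˣ ⧸ perp H) * (t ^ 5)⁻¹ ∈ A}) +
            mu (symmDiff (T 6) {x | (x : (ZMod d)ˣ ⧸ perp H) * (t ^ 6)⁻¹ ∈ A}) := by
        refine mu_cov3 fun x hx => ?_
        obtain ⟨hx1, hx2, hx3⟩ := hx
        rcases hR.covT 4 (by omega) (by omega) x with g1 | g1 | g1
        · exact Or.inl (Or.inl ⟨g1, hx1⟩)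
        · exact Or.inr (Or.inl (Or.inl ⟨g1, hx2⟩))
        · exact Or.inr (Or.inr (Or.inl ⟨g1, hx3⟩))
      refine lt_of_le_of_lt h6 ?_
      linarith
    intro x
    by_contra hcon
    push Not at hcon
    obtain ⟨c1, c2, c3⟩ := hcon
    have h6 : x * t ^ 5 ∈ {y : (ZMod d)ˣ ⧸ perp H | y * (t ^ 4)⁻¹ ∉ A ∧ y * (t ^ 5)⁻¹ ∉ A ∧ y * (t ^ 6)⁻¹ ∉ A} := by
      refine ⟨?_, ?_, ?_⟩
      · have e : x * t ^ 5 * (t ^ 4)⁻¹ = x * t := q_a x t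
        show x * t ^ 5 * (t ^ 4)⁻¹ ∉ A
        rw [e]
        exact c2
      · have e : x * t ^ 5 * (t ^ 5)⁻¹ = x := q_b x t
        show x * t ^ 5 * (t ^ 5)⁻¹ ∉ A
        rw [e]
        exact c1
      · have e : x * t ^ 5 * (t ^ 6)⁻¹ = x * t⁻¹ := q_c x t
        show x * t ^ 5 * (t ^ 6)⁻¹ ∉ A
        rw [e]
        exact c3
    rw [h5] at h6
    exact h6
  · intro χ hχ
    exact hH1 χ (mem_of_perp H χ hχ)

open Classical in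
/-- JOB Model3. Division by the stabiliser of `A`. Proof: `S = {s : (ZMod d)ˣ ⧸ N | ∀ x, x ∈ A ↔ s * x ∈ A}` (a subgroup), `N' = S.comap (QuotientGroup.mk' N)`; the set
`{x | (x : G ⧸ N) ∈ A}` is `N'`-invariant; `A' = {y | ∃ x : G, (x : G ⧸ N') = y ∧ (x : G ⧸ N) ∈ A}`. All sets in `Mdl` are the same subsets of
`(ZMod d)ˣ` (write `t`, `γ` as classes of elements of `(ZMod d)ˣ`). -/
theorem stab_red {k M : ℕ} {T B : ℕ → Set (ZMod d)ˣ} {N : Subgroup (ZMod d)ˣ} {t γ : (ZMod d)ˣ ⧸ N} {A : Set ((ZMod d)ˣ ⧸ N)} {ε : ℝ}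
    (h : Mdl k T B N t γ A ε) (hN : N.index ≤ M) :
    ∃ (N' : Subgroup (ZMod d)ˣ) (t' γ' : (ZMod d)ˣ ⧸ N') (A' : Set ((ZMod d)ˣ ⧸ N')), N ≤ N' ∧ N'.index ≤ M ∧
      Mdl k T B N' t' γ' A' ε ∧ (∀ x : (ZMod d)ˣ, (x : (ZMod d)ˣ ⧸ N) = t → (x : (ZMod d)ˣ ⧸ N') = t') ∧
      ∀ s, (∀ x ∈ A', s * x ∈ A') → s = 1 := by
  obtain ⟨S, hS⟩ : ∃ S : Subgroup ((ZMod d)ˣ ⧸ N), ∀ s, s ∈ S ↔ ∀ x, x ∈ A ↔ s * x ∈ A :=
    ⟨{ carrier := {s | ∀ x, x ∈ A ↔ s * x ∈ A}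
       one_mem' := fun x => by rw [one_mul]
       mul_mem' := fun {a b} ha hb x => by rw [mul_assoc]; exact (hb x).trans (ha (b * x))
       inv_mem' := fun {a} ha x => by
         have h1 := ha (a⁻¹ * x)
         rw [mul_inv_cancel_left] at h1
         exact h1.symm }, fun s => Iff.rfl⟩
  obtain ⟨N', hN'⟩ : ∃ N' : Subgroup (ZMod d)ˣ, ∀ x : (ZMod d)ˣ, x ∈ N' ↔ (x : (ZMod d)ˣ ⧸ N) ∈ S :=
    ⟨S.comap (QuotientGroup.mk' N), fun x => Iff.rfl⟩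
  obtain ⟨A', hA'⟩ : ∃ A' : Set ((ZMod d)ˣ ⧸ N'), A' = {y | ∃ x : (ZMod d)ˣ, (x : (ZMod d)ˣ ⧸ N') = y ∧ (x : (ZMod d)ˣ ⧸ N) ∈ A} :=
    ⟨_, rfl⟩
  have key : ∀ x : (ZMod d)ˣ, (x : (ZMod d)ˣ ⧸ N') ∈ A' ↔ (x : (ZMod d)ˣ ⧸ N) ∈ A := by
    intro x
    rw [hA']
    constructor
    · rintro ⟨y, hy, hyA⟩
      rw [QuotientGroup.eq, hN', hS] at hy
      have h1 := (hy (y : (ZMod d)ˣ ⧸ N)).mp hyA
      have h2 : ((y⁻¹ * x : (ZMod d)ˣ) : (ZMod d)ˣ ⧸ N) * (y : (ZMod d)ˣ ⧸ N) = (x : (ZMod d)ˣ ⧸ N) := by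
        rw [← QuotientGroup.mk_mul, mul_comm y⁻¹ x, inv_mul_cancel_right]
      rwa [h2] at h1
    · intro hx
      exact ⟨x, rfl, hx⟩
  have hle : N ≤ N' := by
    intro x hx
    rw [hN']
    have h1 : (x : (ZMod d)ˣ ⧸ N) = 1 := (QuotientGroup.eq_one_iff x).mpr hx
    rw [h1]
    exact S.one_mem
  obtain ⟨t0, ht0⟩ := QuotientGroup.mk_surjective t
  obtain ⟨γ0, hγ0⟩ := QuotientGroup.mk_surjective γ
  refine ⟨N', (t0 : (ZMod d)ˣ ⧸ N'), (γ0 : (ZMod d)ˣ ⧸ N'), A', hle, ?_, ⟨?_, ?_, ?_, ?_⟩, ?_, ?_⟩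
  · refine le_trans (Nat.le_of_dvd ?_ (Subgroup.index_dvd_of_le hle)) hN
    exact Nat.pos_of_ne_zero Subgroup.index_ne_zero_of_finite
  · intro i hi hik
    have h1 := h.apT i hi hik
    have h2 : {x : (ZMod d)ˣ | (x : (ZMod d)ˣ ⧸ N') * ((t0 : (ZMod d)ˣ ⧸ N') ^ i)⁻¹ ∈ A'} =
        {x : (ZMod d)ˣ | (x : (ZMod d)ˣ ⧸ N) * (t ^ i)⁻¹ ∈ A} := by
      ext x
      show (x : (ZMod d)ˣ ⧸ N') * ((t0 : (ZMod d)ˣ ⧸ N') ^ i)⁻¹ ∈ A' ↔ (x : (ZMod d)ˣ ⧸ N) * (t ^ i)⁻¹ ∈ A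
      rw [← ht0]
      exact key (x * (t0 ^ i)⁻¹)
    rw [h2]
    exact h1
  · intro j hj hjk
    have h1 := h.apB j hj hjk
    have h2 : {x : (ZMod d)ˣ | (γ0 : (ZMod d)ˣ ⧸ N') * (t0 : (ZMod d)ˣ ⧸ N') ^ j * (x : (ZMod d)ˣ ⧸ N')⁻¹ ∉ A'} =
        {x : (ZMod d)ˣ | γ * t ^ j * (x : (ZMod d)ˣ ⧸ N)⁻¹ ∉ A} := by
      ext x
      show ¬ ((γ0 : (ZMod d)ˣ ⧸ N') * (t0 : (ZMod d)ˣ ⧸ N') ^ j * (x : (ZMod d)ˣ ⧸ N')⁻¹ ∈ A') ↔
        ¬ (γ * t ^ j * (x : (ZMod d)ˣ ⧸ N)⁻¹ ∈ A)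
      rw [← ht0, ← hγ0]
      exact not_congr (key (γ0 * t0 ^ j * x⁻¹))
    rw [h2]
    exact h1
  · intro y hy hyt
    obtain ⟨x, rfl⟩ := QuotientGroup.mk_surjective y
    have h1 := (key x).mp hy
    have h2 := (key (x * t0)).mp hyt
    refine h.disj _ h1 ?_
    rw [← ht0]
    exact h2
  · intro y
    obtain ⟨x, rfl⟩ := QuotientGroup.mk_surjective y
    rcases h.cov (x : (ZMod d)ˣ ⧸ N) with h1 | h1 | h1
    · exact Or.inl ((key x).mpr h1)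
    · rw [← ht0] at h1
      exact Or.inr (Or.inl ((key (x * t0)).mpr h1))
    · rw [← ht0] at h1
      exact Or.inr (Or.inr ((key (x * t0⁻¹)).mpr h1))
  · intro x hx
    rw [← ht0, QuotientGroup.eq] at hx
    rw [QuotientGroup.eq]
    exact hle hx
  · intro s hs
    obtain ⟨s0, rfl⟩ := QuotientGroup.mk_surjective s
    have h2 : ∀ x, x ∈ A' ↔ (s0 : (ZMod d)ˣ ⧸ N') * x ∈ A' := q_fin _ A' hs
    rw [QuotientGroup.eq_one_iff, hN', hS]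
    intro y
    obtain ⟨x, rfl⟩ := QuotientGroup.mk_surjective y
    exact ((key x).symm.trans (h2 _)).trans (key (s0 * x))

end Pool.Agent.Lib.MP_42948a_nt.TS
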