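import Mathlib

/-!
# The numbers
-/

namespace Pool.Agent.Lib.MP_42948a_nt.TS

/-- the parameters which do not depend on `α` -/
structure Num (θ ε : ℝ) (aT aB s0 s1 v H w : ℝ) (m1 mB : ℕ) : Prop where
  sum : aT + aB = 4 * θ
  H0 : 0 < H
  w0 : 0 < w
  s00 : 0 < s0
  v0 : 0 ≤ v
  hHε : 2 * H ≤ ε / 2
  h7w : 7 * w ≤ H / 4
  hiT : aT + H / 4 ≤ 7 * (s0 - w)
  hiB : aB + H / 4 ≤ 4 * (s1 - w)
  ws0 : w < s0
  s0s1 : s0 ≤ s1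
  s1le : s1 ≤ 1 / 2
  s0q : s0 / 2 ≤ 1 / 4
  an3 : θ + 3 * w < v
  an3' : v ≤ 4 * s0
  an1 : θ + 1 * w < v
  an1' : v ≤ 2 * s1
  m1a : s1 ≤ w * m1
  m1b : w * m1 + v + w ≤ aT
  mBa : w * mB + w ≤ aB
  mBb : 1 < aT + w * mB
  v2 : v + v + w ≤ aB
  wθ : 8 * w ≤ 4 * θ - 1
  aT1 : θ < aT
  aB1 : θ < aB
  aT34 : aT + w < 3 / 4
  aT3 : 1598 / 1000 * θ ≤ aT - w
  aB2 : 23526 / 10000 * θ ≤ aB
  aT4 : 13838 / 10000 * θ ≤ aT - s0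
  aT32 : aT ≤ 3 / 2
  aB32 : aB ≤ 3 / 2
  Hs : s0 + H ≤ 1
  H4 : 4 * H ≤ s0

theorem num_exists (θ ε : ℝ) (hθ : 1 / 4 < θ) (hθ1 : θ ≤ 7 / 20) (hε : 0 < ε) :
    ∃ (aT aB s0 s1 v H w : ℝ) (m1 mB : ℕ), Num θ ε aT aB s0 s1 v H w m1 mB := by
  obtain ⟨H, hH⟩ : ∃ H, H = min (ε / 4) (θ / 200) := ⟨_, rfl⟩
  have hH0 : 0 < H := by
    rw [hH]
    exact lt_min (by linarith) (by linarith)
  have hH1 : H ≤ ε / 4 := by
    rw [hH]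
    exact min_le_left _ _
  have hH2 : H ≤ θ / 200 := by
    rw [hH]
    exact min_le_right _ _
  obtain ⟨w, hw⟩ : ∃ w, w = min (H / 100) ((4 * θ - 1) / 8) := ⟨_, rfl⟩
  have hw0 : 0 < w := by
    rw [hw]
    exact lt_min (by linarith) (by linarith)
  have hw1 : w ≤ H / 100 := by
    rw [hw]
    exact min_le_left _ _
  have hw2 : w ≤ (4 * θ - 1) / 8 := by
    rw [hw]
    exact min_le_right _ _
  obtain ⟨m1, hm1⟩ : ∃ m1 : ℕ, m1 = ⌈(3 / 5 * θ) / w⌉₊ := ⟨_, rfl⟩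
  obtain ⟨mB, hmB⟩ : ∃ mB : ℕ, mB = ⌊(1177 / 500 * θ - w) / w⌋₊ := ⟨_, rfl⟩
  have e1 : 3 / 5 * θ ≤ w * m1 := by
    have h1 := Nat.le_ceil ((3 / 5 * θ) / w)
    rw [← hm1, div_le_iff₀ hw0] at h1
    linarith
  have e2 : w * m1 ≤ 3 / 5 * θ + w := by
    have h1 := (Nat.ceil_lt_add_one (a := (3 / 5 * θ) / w) (by positivity)).le
    rw [← hm1] at h1
    have h2 := mul_le_mul_of_nonneg_left h1 hw0.le
    rw [mul_add, mul_one, mul_div_cancel₀ _ hw0.ne'] at h2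
    exact h2
  have e3 : w * mB ≤ 1177 / 500 * θ - w := by
    have h1 := Nat.floor_le (a := (1177 / 500 * θ - w) / w) (div_nonneg (by linarith) hw0.le)
    rw [← hmB, le_div_iff₀ hw0] at h1
    linarith
  have e4 : 1177 / 500 * θ - 2 * w ≤ w * mB := by
    have h1 := (Nat.lt_floor_add_one ((1177 / 500 * θ - w) / w)).le
    rw [← hmB, div_le_iff₀ hw0] at h1
    linarith
  refine ⟨823 / 500 * θ, 1177 / 500 * θ, 131 / 500 * θ, 3 / 5 * θ, 26 / 25 * θ, H, w, m1, mB, ?_⟩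
  constructor <;> linarith

end Pool.Agent.Lib.MP_42948a_nt.TS
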