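import Mathlib

/-!
# The choice of the small parameters
-/

namespace Pool.Agent.Lib.MP_42948a_nt.TS

open Finset

/-- the density of the dense classes and the radius of the characters -/
theorem ch_kD {κ3 κ1 σ0 w WU ρ : ℝ} (h3 : 0 < κ3) (h1 : 0 < κ1) (hσ : 0 < σ0) (hw : 0 < w) (hw1 : w ≤ 1) (hWU : 0 < WU) (hρ : 0 < ρ)
    (m1 mB M : ℕ) (hM : 1 ≤ M) :
    ∃ κD r0 : ℝ, 0 < κD ∧ 0 < r0 ∧ r0 ≤ 1 / 4 ∧ r0 ≤ ρ / 16 ∧ κD ≤ κ3 ∧ κD ≤ κ1 ∧ κD ≤ 1 ∧ r0 * WU < κD ∧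
      r0 * WU + m1 * M * κD ≤ κ1 ∧ r0 * WU ≤ κ3 ∧ κD + (r0 * WU + m1 * M * κD) ≤ w / 2 ∧ r0 * WU + mB * M * κD ≤ σ0 := by
  have hM1 : (1 : ℝ) ≤ M := by exact_mod_cast hM
  have hm1 : (0 : ℝ) ≤ m1 := Nat.cast_nonneg _
  have hmB : (0 : ℝ) ≤ mB := Nat.cast_nonneg _
  obtain ⟨L, hL⟩ : ∃ L : ℝ, L = ((m1 : ℝ) + mB + 2) * M := ⟨_, rfl⟩
  have hL2 : 2 ≤ L := by
    rw [hL]
    nlinarith [mul_nonneg hm1 (by linarith : (0 : ℝ) ≤ M), mul_nonneg hmB (by linarith : (0 : ℝ) ≤ M)]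
  obtain ⟨z, hz⟩ : ∃ z : ℝ, z = min (min κ3 κ1) (min σ0 (w / 4)) := ⟨_, rfl⟩
  have hz0 : 0 < z := by
    rw [hz]
    exact lt_min (lt_min h3 h1) (lt_min hσ (by linarith))
  have z3 : z ≤ κ3 := by
    rw [hz]
    exact (min_le_left _ _).trans (min_le_left _ _)
  have z1 : z ≤ κ1 := by
    rw [hz]
    exact (min_le_left _ _).trans (min_le_right _ _)
  have zσ : z ≤ σ0 := by
    rw [hz]
    exact (min_le_right _ _).trans (min_le_left _ _)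
  have zw : z ≤ w / 4 := by
    rw [hz]
    exact (min_le_right _ _).trans (min_le_right _ _)
  obtain ⟨κD, hκD⟩ : ∃ κD : ℝ, κD = z / L := ⟨_, rfl⟩
  have hκ0 : 0 < κD := by
    rw [hκD]
    exact div_pos hz0 (by linarith)
  have hLz : L * κD = z := by
    rw [hκD, mul_div_cancel₀ _ (by linarith : L ≠ 0)]
  obtain ⟨r0, hr0⟩ : ∃ r0 : ℝ, r0 = min (1 / 4) (min (ρ / 16) (κD / (2 * WU))) := ⟨_, rfl⟩
  have hr00 : 0 < r0 := by
    rw [hr0]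
    exact lt_min (by norm_num) (lt_min (by linarith) (by positivity))
  have hrW : r0 * WU ≤ κD / 2 := by
    have h4 : r0 ≤ κD / (2 * WU) := by
      rw [hr0]
      exact (min_le_right _ _).trans (min_le_right _ _)
    rw [le_div_iff₀ (by positivity)] at h4
    linarith
  have hmM : ((m1 : ℝ) * M + 2) * κD ≤ z := by
    rw [← hLz]
    refine mul_le_mul_of_nonneg_right ?_ hκ0.le
    rw [hL]
    nlinarith [mul_nonneg hmB (by linarith : (0 : ℝ) ≤ M)]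
  have hmM2 : ((mB : ℝ) * M + 2) * κD ≤ z := by
    rw [← hLz]
    refine mul_le_mul_of_nonneg_right ?_ hκ0.le
    rw [hL]
    nlinarith [mul_nonneg hm1 (by linarith : (0 : ℝ) ≤ M)]
  have hz2 : κD ≤ z := by
    rw [← hLz]
    nlinarith
  have hm : (m1 : ℝ) * M * κD = (m1 : ℝ) * M * κD := rfl
  refine ⟨κD, r0, hκ0, hr00, ?_, ?_, by linarith, by linarith, by linarith, by linarith, ?_, by linarith, ?_, ?_⟩
  · rw [hr0]
    exact min_le_left _ _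
  · rw [hr0]
    exact (min_le_right _ _).trans (min_le_left _ _)
  · nlinarith
  · nlinarith
  · nlinarith

/-- the thresholds -/
theorem ch_thr {x0 y0 z0 : ℝ} (hx : 0 < x0) (hy : 0 < y0) (hz : 0 < z0) (k : ℕ) (hk : 1 ≤ k) :
    ∃ (κ : ℕ → ℝ) (κm : ℝ), 0 < κm ∧ (∀ i, 0 < κ i) ∧ (∀ i, κ i ≤ x0) ∧ ∑ i ∈ Icc 1 k, κ i < y0 ∧
      ∑ i ∈ Icc 1 (k - 1), ((i : ℝ) + 1) * κ (i + 1) / κ i ≤ z0 ∧ ∀ i, 1 ≤ i → i ≤ k → κm ≤ κ i := by
  have hk1 : (1 : ℝ) ≤ k := by exact_mod_cast hk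
  obtain ⟨A, hA⟩ : ∃ A : ℝ, A = min x0 (y0 / (2 * k)) := ⟨_, rfl⟩
  have hA0 : 0 < A := by
    rw [hA]
    exact lt_min hx (by positivity)
  have hAx : A ≤ x0 := by
    rw [hA]
    exact min_le_left _ _
  have hAy : A * (2 * k) ≤ y0 := by
    have h1 : A ≤ y0 / (2 * k) := by
      rw [hA]
      exact min_le_right _ _
    rwa [le_div_iff₀ (by positivity)] at h1
  obtain ⟨q, hq⟩ : ∃ q : ℝ, q = min 1 (z0 / (k : ℝ) ^ 2) := ⟨_, rfl⟩
  have hq0 : 0 < q := by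
    rw [hq]
    exact lt_min one_pos (by positivity)
  have hq1 : q ≤ 1 := by
    rw [hq]
    exact min_le_left _ _
  have hqz : q * (k : ℝ) ^ 2 ≤ z0 := by
    have h1 : q ≤ z0 / (k : ℝ) ^ 2 := by
      rw [hq]
      exact min_le_right _ _
    rwa [le_div_iff₀ (by positivity)] at h1
  refine ⟨fun i => A * q ^ i, A * q ^ k, by positivity, fun i => by positivity, fun i => ?_, ?_, ?_, ?_⟩
  · have h1 : q ^ i ≤ 1 := pow_le_one₀ hq0.le hq1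
    have h2 : A * q ^ i ≤ A * 1 := mul_le_mul_of_nonneg_left h1 hA0.le
    show A * q ^ i ≤ x0
    linarith
  · have h1 : ∑ i ∈ Icc 1 k, A * q ^ i ≤ ∑ _i ∈ Icc 1 k, A := by
      refine sum_le_sum fun i _ => ?_
      have h1 : q ^ i ≤ 1 := pow_le_one₀ hq0.le hq1
      have h2 : A * q ^ i ≤ A * 1 := mul_le_mul_of_nonneg_left h1 hA0.le
      linarith
    rw [sum_const, Nat.card_Icc, nsmul_eq_mul, Nat.add_sub_cancel] at h1
    show ∑ i ∈ Icc 1 k, A * q ^ i < y0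
    nlinarith
  · have h1 : ∀ i ∈ Icc 1 (k - 1), ((i : ℝ) + 1) * (A * q ^ (i + 1)) / (A * q ^ i) ≤ k * q := by
      intro i hi
      have h2 : ((i : ℝ) + 1) * (A * q ^ (i + 1)) / (A * q ^ i) = ((i : ℝ) + 1) * q := by
        rw [pow_succ]
        field_simp
      rw [h2]
      refine mul_le_mul_of_nonneg_right ?_ hq0.le
      have h3 := (mem_Icc.1 hi).2
      have h4 : i + 1 ≤ k := by omega
      exact_mod_cast h4
    have h2 := sum_le_sum h1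
    rw [sum_const, Nat.card_Icc, nsmul_eq_mul, Nat.add_sub_cancel] at h2
    refine h2.trans ?_
    have h3 : ((k - 1 : ℕ) : ℝ) ≤ k := by
      have : k - 1 ≤ k := by omega
      exact_mod_cast this
    calc ((k - 1 : ℕ) : ℝ) * (k * q) ≤ k * (k * q) := mul_le_mul_of_nonneg_right h3 (by positivity)
      _ = q * (k : ℝ) ^ 2 := by ring
      _ ≤ z0 := hqz
  · intro i _ hi2
    exact mul_le_mul_of_nonneg_left (pow_le_pow_of_le_one hq0.le hq1 hi2) hA0.le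

/-- the accuracy of the kernel -/
theorem ch_tau {τ0 e κm κs C : ℝ} (hτ0 : 0 < τ0) (he : 0 < e) (hκm : 0 < κm) (hκs : 0 < κs) (hC : 0 ≤ C) (k : ℕ) :
    ∃ τ : ℝ, 0 < τ ∧ τ ≤ τ0 ∧ τ < 1 / 2 ∧ 2 * k * ((2 * τ + τ) * C) / √κs ≤ e * κm ^ 2 ∧
      8 * ((2 * τ + τ) * C) / κm ^ 2 ≤ √(κs / 3) := by
  have hsq : 0 < √κs := Real.sqrt_pos.2 hκs
  have hsq3 : 0 < √(κs / 3) := Real.sqrt_pos.2 (by positivity)
  have hk0 : (0 : ℝ) ≤ k := Nat.cast_nonneg _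
  obtain ⟨x, hx⟩ : ∃ x : ℝ, x = e * κm ^ 2 * √κs / (6 * (k + 1) * (C + 1)) := ⟨_, rfl⟩
  obtain ⟨y, hy⟩ : ∃ y : ℝ, y = √(κs / 3) * κm ^ 2 / (24 * (C + 1)) := ⟨_, rfl⟩
  have hx0 : 0 < x := by
    rw [hx]
    positivity
  have hy0 : 0 < y := by
    rw [hy]
    positivity
  obtain ⟨τ, hτ⟩ : ∃ τ : ℝ, τ = min (min τ0 (1 / 4)) (min x y) := ⟨_, rfl⟩
  have t0 : 0 < τ := by
    rw [hτ]
    exact lt_min (lt_min hτ0 (by norm_num)) (lt_min hx0 hy0)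
  have t1 : τ ≤ τ0 := by
    rw [hτ]
    exact (min_le_left _ _).trans (min_le_left _ _)
  have t2 : τ ≤ 1 / 4 := by
    rw [hτ]
    exact (min_le_left _ _).trans (min_le_right _ _)
  have t3 : τ ≤ x := by
    rw [hτ]
    exact (min_le_right _ _).trans (min_le_left _ _)
  have t4 : τ ≤ y := by
    rw [hτ]
    exact (min_le_right _ _).trans (min_le_right _ _)
  refine ⟨τ, t0, t1, by linarith, ?_, ?_⟩
  · rw [div_le_iff₀ hsq]
    rw [hx, le_div_iff₀ (by positivity)] at t3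
    refine le_trans ?_ t3
    have h1 : (k : ℝ) * C ≤ (k + 1) * (C + 1) := by nlinarith
    calc 2 * k * ((2 * τ + τ) * C) = 6 * τ * (k * C) := by ring
      _ ≤ 6 * τ * ((k + 1) * (C + 1)) := mul_le_mul_of_nonneg_left h1 (by positivity)
      _ = τ * (6 * (k + 1) * (C + 1)) := by ring
  · rw [div_le_iff₀ (by positivity)]
    rw [hy, le_div_iff₀ (by positivity)] at t4
    refine le_trans ?_ t4
    nlinarith

end Pool.Agent.Lib.MP_42948a_nt.TS
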