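import Mathlib

/-!
# T*, Phragmen-Lindelof lemma on the logarithmic surface (helper50)

`F` entire in `w = log p`, of exponential type `b < b'` in `p` (with polynomial factors) for
`0 ≤ arg p ≤ 3 π / 2`, and `O(exp (-b' p))` for real `p ≥ 1`: then `F = 0`.
-/

open Complex Set Filter Asymptotics Topology
open scoped Real

namespace Pool.Agent.Lib.MP_42948a_nt.TS

lemma one_add_exp_lower (w : ℂ) (h0 : 0 ≤ (cexp w).re) :
    (1 + Real.exp w.re) / 2 ≤ ‖1 + cexp w‖ := by
  have hr : ‖cexp w‖ = Real.exp w.re := Complex.norm_exp w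
  have h1 : ‖1 + cexp w‖ ^ 2 = 1 + 2 * (cexp w).re + ‖cexp w‖ ^ 2 := by
    rw [Complex.sq_norm, Complex.sq_norm, Complex.normSq_apply, Complex.normSq_apply]
    simp only [Complex.add_re, Complex.add_im, Complex.one_re, Complex.one_im]
    ring
  rw [hr] at h1
  have hp : 0 < Real.exp w.re := Real.exp_pos _
  have hn : 0 ≤ ‖1 + cexp w‖ := norm_nonneg _
  nlinarith [sq_nonneg (1 - Real.exp w.re)]

lemma exp_re_nonneg (w : ℂ) (h1 : 0 ≤ w.im) (h2 : w.im ≤ π / 2) : 0 ≤ (cexp w).re := by
  rw [Complex.exp_re]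
  apply mul_nonneg (Real.exp_pos _).le
  apply Real.cos_nonneg_of_mem_Icc
  constructor <;> linarith [Real.pi_pos]

lemma exp_re_nonpos (w : ℂ) (h1 : π / 2 ≤ w.im) (h2 : w.im ≤ 3 * π / 2) :
    (cexp w).re ≤ 0 := by
  rw [Complex.exp_re]
  apply mul_nonpos_of_nonneg_of_nonpos (Real.exp_pos _).le
  apply Real.cos_nonpos_of_pi_div_two_le_of_le h1
  linarith [Real.pi_pos]

/-- the auxiliary function of the first quadrant -/
noncomputable def gaux (F : ℂ → ℂ) (b' : ℝ) (N : ℕ) (w : ℂ) : ℂ :=
  F w * cexp (b' * cexp w) * (cexp (2 * w) / (1 + cexp w) ^ (N + 2))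

lemma norm_gaux (F : ℂ → ℂ) (b' : ℝ) (N : ℕ) (w : ℂ) :
    ‖gaux F b' N w‖ = ‖F w‖ * Real.exp (b' * (cexp w).re) *
      (Real.exp (2 * w.re) / ‖1 + cexp w‖ ^ (N + 2)) := by
  unfold gaux
  rw [norm_mul, norm_mul, norm_div, norm_pow, Complex.norm_exp, Complex.norm_exp]
  simp

lemma ratio_bound (x : ℝ) (N : ℕ) (y : ℝ) (hy : (1 + Real.exp x) / 2 ≤ y) :
    Real.exp (-x) * (1 + Real.exp x) ^ N * (Real.exp (2 * x) / y ^ (N + 2)) ≤ 2 ^ (N + 2) := by
  have hp : 0 < Real.exp x := Real.exp_pos _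
  have hy0 : 0 < y := by linarith
  have h1 : Real.exp (-x) * Real.exp (2 * x) = Real.exp x := by
    rw [← Real.exp_add]
    congr 1
    ring
  have h2 : ((1 + Real.exp x) / 2) ^ (N + 2) ≤ y ^ (N + 2) :=
    pow_le_pow_left₀ (by linarith) hy _
  have h3 : Real.exp x * (1 + Real.exp x) ^ N ≤ (1 + Real.exp x) ^ (N + 2) := by
    have e : (1 + Real.exp x) ^ (N + 2) = (1 + Real.exp x) ^ 2 * (1 + Real.exp x) ^ N := by
      rw [← pow_add, add_comm 2 N]
    rw [e]
    apply mul_le_mul_of_nonneg_right _ (pow_nonneg (by linarith) _)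
    nlinarith
  have h4 : Real.exp (-x) * (1 + Real.exp x) ^ N * (Real.exp (2 * x) / y ^ (N + 2))
      = (Real.exp x * (1 + Real.exp x) ^ N) / y ^ (N + 2) := by
    rw [← h1]
    ring
  rw [h4, div_le_iff₀ (pow_pos hy0 _)]
  calc Real.exp x * (1 + Real.exp x) ^ N ≤ (1 + Real.exp x) ^ (N + 2) := h3
    _ = 2 ^ (N + 2) * ((1 + Real.exp x) / 2) ^ (N + 2) := by
        rw [← mul_pow]
        congr 1
        ring
    _ ≤ 2 ^ (N + 2) * y ^ (N + 2) := by
        apply mul_le_mul_of_nonneg_left h2 (by positivity)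

/-- decay in the first quadrant -/
theorem quad_one (F : ℂ → ℂ) (hF : Differentiable ℂ F) (M b' : ℝ) (N : ℕ) (hb' : 0 ≤ b')
    (hM : 0 ≤ M)
    (hg : ∀ w : ℂ, 0 ≤ w.im → w.im ≤ π / 2 →
      ‖F w‖ ≤ M * (Real.exp (-w.re) * (1 + Real.exp w.re) ^ N))
    (hr : ∀ x : ℝ, 0 ≤ x → ‖F x‖ ≤ M * Real.exp (-(b' * Real.exp x)))
    (w : ℂ) (hw1 : 0 ≤ w.im) (hw2 : w.im ≤ π / 2) :
    ‖gaux F b' N w‖ ≤ M * 2 ^ (N + 2) * Real.exp b' := by
  have hb1 : (1 : ℝ) ≤ Real.exp b' := Real.one_le_exp hb'
  have hgrow : ∀ z : ℂ, 0 ≤ z.im → z.im ≤ π / 2 →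
      ‖gaux F b' N z‖ ≤ M * 2 ^ (N + 2) * Real.exp (b' * (cexp z).re) := by
    intro z h1 h2
    have hre := exp_re_nonneg z h1 h2
    have hlow := one_add_exp_lower z hre
    rw [norm_gaux]
    have h3 := ratio_bound z.re N _ hlow
    have h4 := hg z h1 h2
    have h5 : 0 ≤ Real.exp (2 * z.re) / ‖1 + cexp z‖ ^ (N + 2) := by positivity
    calc ‖F z‖ * Real.exp (b' * (cexp z).re) * (Real.exp (2 * z.re) / ‖1 + cexp z‖ ^ (N + 2))
        ≤ (M * (Real.exp (-z.re) * (1 + Real.exp z.re) ^ N)) * Real.exp (b' * (cexp z).re) *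
          (Real.exp (2 * z.re) / ‖1 + cexp z‖ ^ (N + 2)) := by
          gcongr
      _ = M * Real.exp (b' * (cexp z).re) * (Real.exp (-z.re) * (1 + Real.exp z.re) ^ N *
          (Real.exp (2 * z.re) / ‖1 + cexp z‖ ^ (N + 2))) := by ring
      _ ≤ M * Real.exp (b' * (cexp z).re) * 2 ^ (N + 2) := by
          gcongr
      _ = M * 2 ^ (N + 2) * Real.exp (b' * (cexp z).re) := by ring
  have hne : ∀ z : ℂ, 0 ≤ z.im → z.im ≤ π / 2 → 1 + cexp z ≠ 0 := by
    intro z h1 h2 h0
    have := one_add_exp_lower z (exp_re_nonneg z h1 h2)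
    rw [h0, norm_zero] at this
    linarith [Real.exp_pos z.re]
  have hcl : closure (im ⁻¹' Ioo (0 : ℝ) (π / 2)) ⊆ im ⁻¹' Icc (0 : ℝ) (π / 2) := by
    apply closure_minimal
    · intro z hz
      exact ⟨hz.1.le, hz.2.le⟩
    · exact isClosed_Icc.preimage Complex.continuous_im
  have hd : DiffContOnCl ℂ (gaux F b' N) (im ⁻¹' Ioo (0 : ℝ) (π / 2)) := by
    apply DifferentiableOn.diffContOnCl
    intro z hz
    have hz' := hcl hz
    have hne' := hne z hz'.1 hz'.2
    apply DifferentiableAt.differentiableWithinAt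
    unfold gaux
    apply DifferentiableAt.mul
    · apply DifferentiableAt.mul (hF z)
      fun_prop
    · apply DifferentiableAt.div
      · fun_prop
      · fun_prop
      · exact pow_ne_zero _ hne'
  apply PhragmenLindelof.horizontal_strip hd _ _ _ hw1 hw2
  · refine ⟨1, ?_, b', ?_⟩
    · rw [sub_zero, lt_div_iff₀ (by positivity)]
      linarith [Real.pi_pos]
    · apply IsBigO.of_bound (M * 2 ^ (N + 2))
      have : ∀ᶠ z : ℂ in 𝓟 (im ⁻¹' Ioo (0 : ℝ) (π / 2)), ‖gaux F b' N z‖ ≤
          M * 2 ^ (N + 2) * ‖Real.exp (b' * Real.exp (1 * |z.re|))‖ := by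
        rw [eventually_principal]
        intro z hz
        refine (hgrow z hz.1.le hz.2.le).trans ?_
        rw [Real.norm_eq_abs, abs_of_pos (Real.exp_pos _)]
        apply mul_le_mul_of_nonneg_left _ (by positivity)
        apply Real.exp_le_exp.2
        apply mul_le_mul_of_nonneg_left _ hb'
        calc (cexp z).re ≤ ‖cexp z‖ := Complex.re_le_norm _
          _ = Real.exp z.re := Complex.norm_exp z
          _ ≤ Real.exp (1 * |z.re|) := by
            apply Real.exp_le_exp.2
            rw [one_mul]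
            exact le_abs_self _
      exact this.filter_mono inf_le_right
  · -- real axis
    intro z hz
    have hzx : z = (z.re : ℂ) := by
      apply Complex.ext <;> simp [hz]
    rcases le_or_gt 0 z.re with hx | hx
    · rw [norm_gaux]
      have hre : (cexp z).re = Real.exp z.re := by
        rw [Complex.exp_re, hz, Real.cos_zero, mul_one]
      have hFz : ‖F z‖ ≤ M * Real.exp (-(b' * Real.exp z.re)) := by
        have := hr z.re hx
        rwa [← hzx] at this
      have hlow := one_add_exp_lower z (by rw [hre]; positivity)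
      have h5 : 0 ≤ Real.exp (2 * z.re) / ‖1 + cexp z‖ ^ (N + 2) := by positivity
      have h6 : Real.exp (2 * z.re) / ‖1 + cexp z‖ ^ (N + 2) ≤ 2 ^ (N + 2) := by
        have hy0 : 0 < ‖1 + cexp z‖ := by linarith [Real.exp_pos z.re]
        rw [div_le_iff₀ (pow_pos hy0 _)]
        calc Real.exp (2 * z.re) = (Real.exp z.re) ^ 2 := by
              rw [← Real.exp_nat_mul]
              norm_num
          _ ≤ (1 + Real.exp z.re) ^ 2 := by
              apply pow_le_pow_left₀ (Real.exp_pos _).le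
              linarith
          _ ≤ (1 + Real.exp z.re) ^ (N + 2) := by
              apply pow_le_pow_right₀
              · linarith [Real.exp_pos z.re]
              · omega
          _ = 2 ^ (N + 2) * ((1 + Real.exp z.re) / 2) ^ (N + 2) := by
              rw [← mul_pow]
              congr 1
              ring
          _ ≤ 2 ^ (N + 2) * ‖1 + cexp z‖ ^ (N + 2) := by
              gcongr
      calc ‖F z‖ * Real.exp (b' * (cexp z).re) * (Real.exp (2 * z.re) / ‖1 + cexp z‖ ^ (N + 2))
          ≤ (M * Real.exp (-(b' * Real.exp z.re))) * Real.exp (b' * (cexp z).re) *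
            2 ^ (N + 2) := by
            gcongr
        _ = M * 2 ^ (N + 2) * (Real.exp (-(b' * Real.exp z.re)) *
            Real.exp (b' * Real.exp z.re)) := by
            rw [hre]
            ring
        _ = M * 2 ^ (N + 2) * 1 := by
            rw [← Real.exp_add, neg_add_cancel, Real.exp_zero]
        _ ≤ M * 2 ^ (N + 2) * Real.exp b' := by
            gcongr
    · refine (hgrow z (by rw [hz]) (by rw [hz]; positivity)).trans ?_
      apply mul_le_mul_of_nonneg_left _ (by positivity)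
      apply Real.exp_le_exp.2
      have h1 : (cexp z).re ≤ 1 := by
        calc (cexp z).re ≤ ‖cexp z‖ := Complex.re_le_norm _
          _ = Real.exp z.re := Complex.norm_exp z
          _ ≤ 1 := Real.exp_le_one_iff.2 hx.le
      nlinarith
  · -- imaginary axis
    intro z hz
    refine (hgrow z (by rw [hz]; positivity) hz.le).trans ?_
    apply mul_le_mul_of_nonneg_left _ (by positivity)
    apply Real.exp_le_exp.2
    have h1 : (cexp z).re = 0 := by
      rw [Complex.exp_re, hz, Real.cos_pi_div_two, mul_zero]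
    rw [h1, mul_zero]
    exact hb'

/-- the parametrisation of the sector `0 ≤ arg p ≤ 3 π / 2`, `‖p‖ ≥ 1` by a half plane -/
noncomputable def wq (q : ℂ) : ℂ := ((3 * π / 4 : ℝ) : ℂ) * I + ((3 / 2 : ℝ) : ℂ) * Complex.log (q + 1)

lemma wq_re (q : ℂ) : (wq q).re = 3 / 2 * Real.log ‖q + 1‖ := by
  unfold wq
  simp [Complex.log_re]

lemma wq_im (q : ℂ) : (wq q).im = 3 * π / 4 + 3 / 2 * (q + 1).arg := by
  unfold wq
  simp [Complex.log_im]

lemma norm_add_one_ge (q : ℂ) (hq : 0 ≤ q.re) : 1 ≤ ‖q + 1‖ := by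
  calc (1 : ℝ) ≤ (q + 1).re := by simp [hq]
    _ ≤ ‖q + 1‖ := Complex.re_le_norm _

lemma wq_im_nonneg (q : ℂ) (hq : 0 ≤ q.re) : 0 ≤ (wq q).im := by
  rw [wq_im]
  have h : |(q + 1).arg| ≤ π / 2 := by
    rw [Complex.abs_arg_le_pi_div_two_iff]
    simp only [Complex.add_re, Complex.one_re]
    linarith
  have := (abs_le.1 h).1
  linarith

lemma wq_im_le (q : ℂ) (hq : 0 ≤ q.re) : (wq q).im ≤ 3 * π / 2 := by
  rw [wq_im]
  have h : |(q + 1).arg| ≤ π / 2 := by
    rw [Complex.abs_arg_le_pi_div_two_iff]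
    simp only [Complex.add_re, Complex.one_re]
    linarith
  have := (abs_le.1 h).2
  linarith

lemma exp_wq_re_le (q : ℂ) (hq : 0 ≤ q.re) : Real.exp (wq q).re ≤ ‖q + 1‖ ^ 2 := by
  have h1 := norm_add_one_ge q hq
  have h0 : 0 < ‖q + 1‖ := by linarith
  have hl : 0 ≤ Real.log ‖q + 1‖ := Real.log_nonneg h1
  rw [wq_re]
  calc Real.exp (3 / 2 * Real.log ‖q + 1‖) ≤ Real.exp (2 * Real.log ‖q + 1‖) := by
        apply Real.exp_le_exp.2
        linarith
    _ = ‖q + 1‖ ^ 2 := by
        rw [two_mul, Real.exp_add, Real.exp_log h0]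
        ring

/-- the auxiliary function on the right half plane -/
noncomputable def faux (F : ℂ → ℂ) (k : ℝ) (m : ℕ) (q : ℂ) : ℂ :=
  F (wq q) * cexp (k * cexp (wq q)) / (q + 1) ^ m

lemma norm_faux (F : ℂ → ℂ) (k : ℝ) (m : ℕ) (q : ℂ) :
    ‖faux F k m q‖ = ‖F (wq q)‖ * Real.exp (k * (cexp (wq q)).re) / ‖q + 1‖ ^ m := by
  unfold faux
  rw [norm_div, norm_mul, norm_pow, Complex.norm_exp]
  simp

/-- Phragmen-Lindelof lemma of the T* page, in the coordinate `w = log p`. -/
theorem pl_core (F : ℂ → ℂ) (hF : Differentiable ℂ F) (M b b' : ℝ) (N : ℕ) (hb : 0 ≤ b)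
    (hbb : b < b')
    (hg : ∀ w : ℂ, 0 ≤ w.im → w.im ≤ 3 * π / 2 →
      ‖F w‖ ≤ M * (Real.exp (-w.re) * (1 + Real.exp w.re) ^ N) *
        Real.exp (b * max 0 (-(cexp w).re)))
    (hr : ∀ x : ℝ, 0 ≤ x → ‖F x‖ ≤ M * Real.exp (-(b' * Real.exp x))) :
    ∀ w, F w = 0 := by
  have hpi := Real.pi_pos
  have hM : 0 ≤ M := by
    have h1 := hr 0 le_rfl
    have h2 := norm_nonneg (F ((0 : ℝ) : ℂ))
    have h3 := Real.exp_pos (-(b' * Real.exp 0))
    by_contra h
    have h' : M < 0 := lt_of_not_ge h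
    nlinarith
  have hb' : 0 ≤ b' := by linarith
  have hg1 : ∀ w : ℂ, 0 ≤ w.im → w.im ≤ π / 2 →
      ‖F w‖ ≤ M * (Real.exp (-w.re) * (1 + Real.exp w.re) ^ N) := by
    intro w h1 h2
    have := hg w h1 (by linarith)
    rw [max_eq_left (by linarith [exp_re_nonneg w h1 h2]), mul_zero, Real.exp_zero, mul_one]
      at this
    exact this
  have hq1 := quad_one F hF M b' N hb' hM hg1 hr
  -- choice of k
  obtain ⟨k, hk1, hk2⟩ : ∃ k, b < k ∧ k < b' := exists_between hbb
  set C0 : ℝ := M * 2 ^ (N + 2) * Real.exp b' with hC0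
  have hC0n : 0 ≤ C0 := by positivity
  have hMC : M ≤ C0 := by
    have h1 : (1 : ℝ) ≤ 2 ^ (N + 2) := one_le_pow₀ (by norm_num)
    have h2 : (1 : ℝ) ≤ Real.exp b' := Real.one_le_exp hb'
    calc M = M * 1 * 1 := by ring
      _ ≤ M * 2 ^ (N + 2) * Real.exp b' := by gcongr
  -- the bound of F e^{k p} in the sector
  have hsec : ∀ w : ℂ, 0 ≤ w.re → 0 ≤ w.im → w.im ≤ 3 * π / 2 →
      ‖F w‖ * Real.exp (k * (cexp w).re) ≤ C0 * (1 + Real.exp w.re) ^ (N + 2) := by
    intro w h0 h1 h2
    rcases le_total w.im (π / 2) with h3 | h3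
    · have hre := exp_re_nonneg w h1 h3
      have h4 := hq1 w h1 h3
      rw [norm_gaux] at h4
      have hy := one_add_exp_lower w hre
      have hy0 : 0 < ‖1 + cexp w‖ := by linarith [Real.exp_pos w.re]
      have hy1 : ‖1 + cexp w‖ ≤ 1 + Real.exp w.re := by
        calc ‖1 + cexp w‖ ≤ ‖(1 : ℂ)‖ + ‖cexp w‖ := norm_add_le _ _
          _ = 1 + Real.exp w.re := by rw [Complex.norm_exp, norm_one]
      have h5 : ‖F w‖ * Real.exp (b' * (cexp w).re) * Real.exp (2 * w.re)
          ≤ C0 * ‖1 + cexp w‖ ^ (N + 2) := by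
        have h6 : ‖F w‖ * Real.exp (b' * (cexp w).re) * (Real.exp (2 * w.re) /
            ‖1 + cexp w‖ ^ (N + 2)) = ‖F w‖ * Real.exp (b' * (cexp w).re) * Real.exp (2 * w.re) /
            ‖1 + cexp w‖ ^ (N + 2) := by ring
        rw [h6, div_le_iff₀ (pow_pos hy0 _)] at h4
        exact h4
      have h7 : (1 : ℝ) ≤ Real.exp (2 * w.re) := Real.one_le_exp (by linarith)
      calc ‖F w‖ * Real.exp (k * (cexp w).re)
          ≤ ‖F w‖ * Real.exp (b' * (cexp w).re) := by
            apply mul_le_mul_of_nonneg_left _ (norm_nonneg _)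
            apply Real.exp_le_exp.2
            nlinarith
        _ ≤ ‖F w‖ * Real.exp (b' * (cexp w).re) * Real.exp (2 * w.re) := by
            apply le_mul_of_one_le_right (by positivity) h7
        _ ≤ C0 * ‖1 + cexp w‖ ^ (N + 2) := h5
        _ ≤ C0 * (1 + Real.exp w.re) ^ (N + 2) := by gcongr
    · have hre := exp_re_nonpos w h3 h2
      have h4 := hg w h1 h2
      rw [max_eq_right (by linarith)] at h4
      have h5 : Real.exp (b * -(cexp w).re) * Real.exp (k * (cexp w).re) ≤ 1 := by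
        rw [← Real.exp_add]
        apply Real.exp_le_one_iff.2
        nlinarith
      have h6 : Real.exp (-w.re) ≤ 1 := Real.exp_le_one_iff.2 (by linarith)
      have h7 : (1 + Real.exp w.re) ^ N ≤ (1 + Real.exp w.re) ^ (N + 2) := by
        apply pow_le_pow_right₀
        · linarith [Real.exp_pos w.re]
        · omega
      calc ‖F w‖ * Real.exp (k * (cexp w).re)
          ≤ (M * (Real.exp (-w.re) * (1 + Real.exp w.re) ^ N) *
            Real.exp (b * -(cexp w).re)) * Real.exp (k * (cexp w).re) := by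
            apply mul_le_mul_of_nonneg_right h4 (Real.exp_pos _).le
        _ = M * (Real.exp (-w.re) * (1 + Real.exp w.re) ^ N) *
            (Real.exp (b * -(cexp w).re) * Real.exp (k * (cexp w).re)) := by ring
        _ ≤ M * (1 * (1 + Real.exp w.re) ^ (N + 2)) * 1 := by gcongr
        _ = M * (1 + Real.exp w.re) ^ (N + 2) := by ring
        _ ≤ C0 * (1 + Real.exp w.re) ^ (N + 2) := by gcongr
  set m : ℕ := 2 * (N + 2) with hm
  have hbd : ∀ q : ℂ, 0 ≤ q.re → ‖faux F k m q‖ ≤ C0 * 2 ^ (N + 2) := by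
    intro q hq
    rw [norm_faux]
    have h1 := norm_add_one_ge q hq
    have h0 : 0 < ‖q + 1‖ := by linarith
    rw [div_le_iff₀ (pow_pos h0 _)]
    have hre : 0 ≤ (wq q).re := by
      rw [wq_re]
      have := Real.log_nonneg h1
      positivity
    refine (hsec (wq q) hre (wq_im_nonneg q hq) (wq_im_le q hq)).trans ?_
    have h2 := exp_wq_re_le q hq
    have h3 : 1 + Real.exp (wq q).re ≤ 2 * ‖q + 1‖ ^ 2 := by
      have : (1 : ℝ) ≤ ‖q + 1‖ ^ 2 := one_le_pow₀ h1
      linarith
    calc C0 * (1 + Real.exp (wq q).re) ^ (N + 2) ≤ C0 * (2 * ‖q + 1‖ ^ 2) ^ (N + 2) := by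
          gcongr
      _ = C0 * 2 ^ (N + 2) * ‖q + 1‖ ^ m := by
          rw [mul_pow, ← pow_mul]
          ring
  -- differentiability
  have hcl : closure {z : ℂ | 0 < z.re} ⊆ {z : ℂ | 0 ≤ z.re} := by
    apply closure_minimal
    · intro z hz
      have hz' : 0 < z.re := hz
      exact hz'.le
    · exact isClosed_le continuous_const Complex.continuous_re
  have hd : DiffContOnCl ℂ (faux F k m) {z : ℂ | 0 < z.re} := by
    apply DifferentiableOn.diffContOnCl
    intro q hq
    have hq' : 0 ≤ q.re := hcl hq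
    have hs : q + 1 ∈ slitPlane := by
      left
      simp only [Complex.add_re, Complex.one_re]
      linarith
    have hne : q + 1 ≠ 0 := slitPlane_ne_zero hs
    have hw : DifferentiableAt ℂ wq q := by
      unfold wq
      apply DifferentiableAt.add (differentiableAt_const _)
      apply DifferentiableAt.mul (differentiableAt_const _)
      have h1 : DifferentiableAt ℂ (fun q : ℂ => q + 1) q := by fun_prop
      exact h1.clog hs
    apply DifferentiableAt.differentiableWithinAt
    unfold faux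
    apply DifferentiableAt.div
    · apply DifferentiableAt.mul
      · exact (hF (wq q)).comp q hw
      · apply DifferentiableAt.cexp
        apply DifferentiableAt.mul (differentiableAt_const _)
        exact hw.cexp
    · fun_prop
    · exact pow_ne_zero _ hne
  have hzero := PhragmenLindelof.eq_zero_on_right_half_plane_of_superexponential_decay hd
    ?_ ?_ ?_
  · -- conclusion
    have hF0 : ∀ y : ℝ, 0 ≤ y → F (((3 * π / 4 : ℝ) : ℂ) * I + (y : ℂ)) = 0 := by
      intro y hy
      have h1 : (1 : ℝ) ≤ Real.exp (2 / 3 * y) := Real.one_le_exp (by positivity)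
      have hq : (0 : ℝ) ≤ (((Real.exp (2 / 3 * y) - 1 : ℝ)) : ℂ).re := by
        rw [Complex.ofReal_re]
        linarith
      have h2 := hzero hq
      simp only [faux, Pi.zero_apply] at h2
      have e1 : (((Real.exp (2 / 3 * y) - 1 : ℝ)) : ℂ) + 1 = ((Real.exp (2 / 3 * y) : ℝ) : ℂ) := by
        push_cast
        ring
      have e2 : wq (((Real.exp (2 / 3 * y) - 1 : ℝ)) : ℂ)
          = ((3 * π / 4 : ℝ) : ℂ) * I + (y : ℂ) := by
        unfold wq
        rw [e1, ← Complex.ofReal_log (Real.exp_pos _).le, Real.log_exp]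
        push_cast
        ring
      rw [e1, e2] at h2
      rw [div_eq_zero_iff] at h2
      rcases h2 with h2 | h2
      · rcases mul_eq_zero.1 h2 with h3 | h3
        · exact h3
        · exact absurd h3 (Complex.exp_ne_zero _)
      · exfalso
        apply pow_ne_zero m _ h2
        exact_mod_cast (Real.exp_pos _).ne'
    have hA : AnalyticOnNhd ℂ F univ := hF.differentiableOn.analyticOnNhd isOpen_univ
    have hfr : ∃ᶠ z in 𝓝[≠] (((3 * π / 4 : ℝ) : ℂ) * I), F z = (fun _ => (0 : ℂ)) z := by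
      have ht : Tendsto (fun n : ℕ => ((3 * π / 4 : ℝ) : ℂ) * I + (((1 / ((n : ℝ) + 1)) : ℝ) : ℂ))
          atTop (𝓝[≠] (((3 * π / 4 : ℝ) : ℂ) * I)) := by
        rw [tendsto_nhdsWithin_iff]
        constructor
        · have h1 : Tendsto (fun n : ℕ => (((1 / ((n : ℝ) + 1)) : ℝ) : ℂ)) atTop (𝓝 0) := by
            have := (Complex.continuous_ofReal.tendsto 0).comp
              (tendsto_one_div_add_atTop_nhds_zero_nat (𝕜 := ℝ))
            rw [Complex.ofReal_zero] at this
            exact this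
          have h2 := h1.const_add (((3 * π / 4 : ℝ) : ℂ) * I)
          rw [add_zero] at h2
          exact h2
        · refine Eventually.of_forall (fun n => ?_)
          simp only [mem_compl_iff, mem_singleton_iff]
          intro h
          have h3 : ((((1 / ((n : ℝ) + 1)) : ℝ) : ℂ)) = 0 := by
            have := congrArg (fun z => z - ((3 * π / 4 : ℝ) : ℂ) * I) h
            simpa using this
          have h4 : (1 / ((n : ℝ) + 1)) = 0 := by exact_mod_cast h3
          have h5 : (0 : ℝ) < 1 / ((n : ℝ) + 1) := by positivity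
          linarith
      apply ht.frequently
      apply Eventually.frequently
      refine Eventually.of_forall (fun n => ?_)
      exact hF0 _ (by positivity)
    have := AnalyticOnNhd.eq_of_frequently_eq hA analyticOnNhd_const hfr
    intro w
    rw [this]
  · -- growth
    refine ⟨1, by norm_num, 0, ?_⟩
    apply IsBigO.of_bound (C0 * 2 ^ (N + 2))
    have : ∀ᶠ z : ℂ in 𝓟 {z : ℂ | 0 < z.re}, ‖faux F k m z‖ ≤
        C0 * 2 ^ (N + 2) * ‖Real.exp (0 * ‖z‖ ^ (1 : ℝ))‖ := by
      rw [eventually_principal]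
      intro z hz
      have hz' : 0 < z.re := hz
      rw [zero_mul, Real.exp_zero, norm_one, mul_one]
      exact hbd z hz'.le
    exact this.filter_mono inf_le_right
  · -- decay on the positive real axis
    intro n
    have hc : 0 < (k - b) * (Real.sqrt 2 / 2) := by
      have : 0 < Real.sqrt 2 := Real.sqrt_pos.2 (by norm_num)
      have : 0 < k - b := by linarith
      positivity
    set c : ℝ := (k - b) * (Real.sqrt 2 / 2) with hcdef
    have hkey : ∀ᶠ x : ℝ in atTop, ‖Real.exp x ^ n * ‖faux F k m (x : ℂ)‖‖ ≤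
        (M * 2 ^ (N + 2)) * Real.exp (-x) := by
      filter_upwards [eventually_ge_atTop (0 : ℝ), eventually_ge_atTop (((n : ℝ) + 1) / c)  ,
        eventually_ge_atTop ((((n : ℝ) + 1) / c) ^ 2)] with x hx0 _ hx2
      have hx1 : 0 < x + 1 := by linarith
      have hn1 : ‖((x : ℂ)) + 1‖ = x + 1 := by
        have : ((x : ℂ)) + 1 = ((x + 1 : ℝ) : ℂ) := by push_cast; ring
        rw [this, Complex.norm_real, Real.norm_eq_abs, abs_of_pos hx1]
      have hre : (wq (x : ℂ)).re = 3 / 2 * Real.log (x + 1) := by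
        rw [wq_re, hn1]
      have him : (wq (x : ℂ)).im = 3 * π / 4 := by
        rw [wq_im]
        have : ((x : ℂ)) + 1 = ((x + 1 : ℝ) : ℂ) := by push_cast; ring
        rw [this, Complex.arg_ofReal_of_nonneg hx1.le]
        ring
      have hlog : 0 ≤ Real.log (x + 1) := Real.log_nonneg (by linarith)
      have hre0 : 0 ≤ (wq (x : ℂ)).re := by rw [hre]; positivity
      have hE : Real.exp (wq (x : ℂ)).re = (x + 1) * Real.sqrt (x + 1) := by
        rw [hre, show 3 / 2 * Real.log (x + 1) = Real.log (x + 1) + Real.log (x + 1) / 2 by ring,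
          Real.exp_add, Real.exp_log hx1, Real.exp_half, Real.exp_log hx1]
      have hpre : (cexp (wq (x : ℂ))).re = -((x + 1) * Real.sqrt (x + 1)) * (Real.sqrt 2 / 2) := by
        rw [Complex.exp_re, hE, him]
        have : Real.cos (3 * π / 4) = -(Real.sqrt 2 / 2) := by
          rw [show 3 * π / 4 = π - π / 4 by ring, Real.cos_pi_sub, Real.cos_pi_div_four]
        rw [this]
        ring
      have hw := hg (wq (x : ℂ)) (by rw [him]; positivity) (by rw [him]; linarith)
      have hpneg : (cexp (wq (x : ℂ))).re ≤ 0 := by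
        rw [hpre]
        have : 0 ≤ (x + 1) * Real.sqrt (x + 1) := by positivity
        nlinarith [Real.sqrt_nonneg 2]
      rw [max_eq_right (by linarith)] at hw
      rw [norm_mul, norm_norm, Real.norm_eq_abs, abs_of_pos (pow_pos (Real.exp_pos _) _),
        norm_faux, hn1]
      -- F e^{kp} ≤ M e^{-X} (1+e^X)^N e^{-(k-b)|Re p|}
      have h1 : ‖F (wq (x : ℂ))‖ * Real.exp (k * (cexp (wq (x : ℂ))).re) ≤
          M * (1 + Real.exp (wq (x : ℂ)).re) ^ (N + 2) *
            Real.exp (-(c * ((x + 1) * Real.sqrt (x + 1)))) := by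
        have h6 : Real.exp (-(wq (x : ℂ)).re) ≤ 1 := Real.exp_le_one_iff.2 (by linarith)
        have h7 : (1 + Real.exp (wq (x : ℂ)).re) ^ N ≤ (1 + Real.exp (wq (x : ℂ)).re) ^ (N + 2) := by
          apply pow_le_pow_right₀
          · linarith [Real.exp_pos (wq (x : ℂ)).re]
          · omega
        have h8 : Real.exp (b * -(cexp (wq (x : ℂ))).re) * Real.exp (k * (cexp (wq (x : ℂ))).re)
            = Real.exp (-(c * ((x + 1) * Real.sqrt (x + 1)))) := by
          rw [← Real.exp_add]
          congr 1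
          rw [hpre, hcdef]
          ring
        calc ‖F (wq (x : ℂ))‖ * Real.exp (k * (cexp (wq (x : ℂ))).re)
            ≤ (M * (Real.exp (-(wq (x : ℂ)).re) * (1 + Real.exp (wq (x : ℂ)).re) ^ N) *
              Real.exp (b * -(cexp (wq (x : ℂ))).re)) * Real.exp (k * (cexp (wq (x : ℂ))).re) := by
              apply mul_le_mul_of_nonneg_right hw (Real.exp_pos _).le
          _ = M * (Real.exp (-(wq (x : ℂ)).re) * (1 + Real.exp (wq (x : ℂ)).re) ^ N) *
              (Real.exp (b * -(cexp (wq (x : ℂ))).re) * Real.exp (k * (cexp (wq (x : ℂ))).re)) := by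
              ring
          _ ≤ M * (1 * (1 + Real.exp (wq (x : ℂ)).re) ^ (N + 2)) *
              (Real.exp (b * -(cexp (wq (x : ℂ))).re) * Real.exp (k * (cexp (wq (x : ℂ))).re)) := by
              gcongr
          _ = M * (1 + Real.exp (wq (x : ℂ)).re) ^ (N + 2) *
              Real.exp (-(c * ((x + 1) * Real.sqrt (x + 1)))) := by
              rw [h8]
              ring
      have h2 : (1 + Real.exp (wq (x : ℂ)).re) ^ (N + 2) ≤ 2 ^ (N + 2) * (x + 1) ^ m := by
        have h3 := exp_wq_re_le (x : ℂ) (by simpa using hx0)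
        rw [hn1] at h3
        have h4 : 1 + Real.exp (wq (x : ℂ)).re ≤ 2 * (x + 1) ^ 2 := by
          have : (1 : ℝ) ≤ (x + 1) ^ 2 := one_le_pow₀ (by linarith)
          linarith
        calc (1 + Real.exp (wq (x : ℂ)).re) ^ (N + 2) ≤ (2 * (x + 1) ^ 2) ^ (N + 2) := by
              gcongr
          _ = 2 ^ (N + 2) * (x + 1) ^ m := by
              rw [mul_pow, ← pow_mul]
      have h5 : Real.exp x ^ n * Real.exp (-(c * ((x + 1) * Real.sqrt (x + 1))))
          ≤ Real.exp (-x) := by
        rw [← Real.exp_nat_mul, ← Real.exp_add]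
        apply Real.exp_le_exp.2
        have h6 : ((n : ℝ) + 1) / c ≤ Real.sqrt (x + 1) := by
          apply Real.le_sqrt_of_sq_le
          linarith
        have h7 : (n : ℝ) + 1 ≤ c * Real.sqrt (x + 1) := by
          rw [div_le_iff₀ hc] at h6
          linarith
        have h8 : ((n : ℝ) + 1) * (x + 1) ≤ c * ((x + 1) * Real.sqrt (x + 1)) := by
          nlinarith
        nlinarith
      calc Real.exp x ^ n * (‖F (wq (x : ℂ))‖ * Real.exp (k * (cexp (wq (x : ℂ))).re) /
            (x + 1) ^ m)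
          ≤ Real.exp x ^ n * ((M * (2 ^ (N + 2) * (x + 1) ^ m) *
            Real.exp (-(c * ((x + 1) * Real.sqrt (x + 1))))) / (x + 1) ^ m) := by
            apply mul_le_mul_of_nonneg_left _ (pow_nonneg (Real.exp_pos _).le _)
            apply div_le_div_of_nonneg_right _ (pow_nonneg hx1.le _)
            refine h1.trans ?_
            gcongr
        _ = (M * 2 ^ (N + 2)) * (Real.exp x ^ n *
            Real.exp (-(c * ((x + 1) * Real.sqrt (x + 1))))) := by
            have : (x + 1) ^ m ≠ 0 := (pow_pos hx1 _).ne'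
            field_simp
        _ ≤ (M * 2 ^ (N + 2)) * Real.exp (-x) := by
            gcongr
    have h0 : Tendsto (fun x : ℝ => (M * 2 ^ (N + 2)) * Real.exp (-x)) atTop (𝓝 0) := by
      have := (Real.tendsto_exp_neg_atTop_nhds_zero).const_mul (M * 2 ^ (N + 2))
      simpa using this
    exact squeeze_zero_norm' hkey h0
  · -- bounded on the imaginary axis
    refine ⟨C0 * 2 ^ (N + 2), fun x => hbd _ ?_⟩
    simp

end Pool.Agent.Lib.MP_42948a_nt.TS
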