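import Mathlib

/-!
# T*, real sums over primes (helper50)

`P(σ) = ∑ p^(-σ)`: `P(σ) + log (σ - 1)` has a limit as `σ → 1+` (Euler product and residue of zeta).
Consequences: `pr_log`, `pr_small`, `pr_tail`.
-/

open Filter Topology
open scoped Real

namespace Pool.Agent.Lib.MP_42948a_nt.TS

lemma pr_summable (σ : ℝ) (h : 1 < σ) : Summable (fun p : Nat.Primes => (p : ℝ) ^ (-σ)) :=
  Nat.Primes.summable_rpow.2 (by linarith)

lemma pr_summable' (s L : ℝ) (hs : 0 < s) (hL : 0 < L) :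
    Summable (fun p : Nat.Primes => (p : ℝ) ^ (-(1 + s / L))) :=
  pr_summable _ (by have := div_pos hs hL; linarith)

lemma neg_log_sub (x : ℝ) (_h0 : 0 ≤ x) (h1 : x ≤ 1 / 2) :
    0 ≤ -Real.log (1 - x) - x ∧ -Real.log (1 - x) - x ≤ 2 * x ^ 2 := by
  have hp : 0 < 1 - x := by linarith
  constructor
  · have := Real.log_le_sub_one_of_pos hp
    linarith
  · have h2 := Real.one_sub_inv_le_log_of_pos hp
    have h3 : (1 - x)⁻¹ - 1 - x ≤ 2 * x ^ 2 := by
      have h4 : (1 - x)⁻¹ - 1 - x = x ^ 2 / (1 - x) := by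
        field_simp
        ring
      rw [h4, div_le_iff₀ hp]
      nlinarith [sq_nonneg x]
    linarith

lemma pr_ge_two (p : Nat.Primes) : (2 : ℝ) ≤ (p : ℝ) := by
  exact_mod_cast p.2.two_le

lemma pr_rpow_nonneg (p : Nat.Primes) (σ : ℝ) : 0 ≤ (p : ℝ) ^ (-σ) :=
  Real.rpow_nonneg (by linarith [pr_ge_two p]) _

lemma pr_rpow_le (p : Nat.Primes) (σ : ℝ) (h : 1 ≤ σ) : (p : ℝ) ^ (-σ) ≤ (p : ℝ)⁻¹ := by
  rw [← Real.rpow_neg_one]
  apply Real.rpow_le_rpow_of_exponent_le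
  · linarith [pr_ge_two p]
  · linarith

lemma pr_rpow_le_half (p : Nat.Primes) (σ : ℝ) (h : 1 ≤ σ) : (p : ℝ) ^ (-σ) ≤ 1 / 2 := by
  refine (pr_rpow_le p σ h).trans ?_
  rw [one_div]
  exact inv_anti₀ (by norm_num) (pr_ge_two p)

noncomputable def gg (σ : ℝ) (p : Nat.Primes) : ℝ :=
  -Real.log (1 - (p : ℝ) ^ (-σ)) - (p : ℝ) ^ (-σ)

lemma gg_bound (σ : ℝ) (h : 1 ≤ σ) (p : Nat.Primes) :
    ‖gg σ p‖ ≤ 2 * (p : ℝ) ^ (-2 : ℝ) := by
  obtain ⟨h1, h2⟩ := neg_log_sub _ (pr_rpow_nonneg p σ) (pr_rpow_le_half p σ h)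
  rw [Real.norm_eq_abs, gg, abs_of_nonneg h1]
  refine h2.trans ?_
  have h3 : ((p : ℝ) ^ (-σ)) ^ 2 ≤ (p : ℝ) ^ (-2 : ℝ) := by
    calc ((p : ℝ) ^ (-σ)) ^ 2 ≤ ((p : ℝ)⁻¹) ^ 2 :=
          pow_le_pow_left₀ (pr_rpow_nonneg p σ) (pr_rpow_le p σ h) 2
      _ = (p : ℝ) ^ (-2 : ℝ) := by
          rw [Real.rpow_neg (by linarith [pr_ge_two p]), inv_pow]
          norm_num
  linarith

lemma gg_summable_bound : Summable (fun p : Nat.Primes => 2 * (p : ℝ) ^ (-2 : ℝ)) :=
  (Nat.Primes.summable_rpow.2 (by norm_num)).mul_left 2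

lemma gg_summable (σ : ℝ) (h : 1 ≤ σ) : Summable (gg σ) :=
  Summable.of_norm_bounded gg_summable_bound (gg_bound σ h)

lemma gg_tendsto : Tendsto (fun σ : ℝ => ∑' p : Nat.Primes, gg σ p) (𝓝[>] 1)
    (𝓝 (∑' p : Nat.Primes, gg 1 p)) := by
  apply tendsto_tsum_of_dominated_convergence gg_summable_bound
  · intro p
    have hp : 0 < (p : ℝ) := by linarith [pr_ge_two p]
    have hc : ContinuousAt (fun σ : ℝ => gg σ p) 1 := by
      unfold gg
      have h1 : ContinuousAt (fun σ : ℝ => (p : ℝ) ^ (-σ)) 1 := by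
        apply ContinuousAt.rpow continuousAt_const
        · fun_prop
        · left
          exact hp.ne'
      have h2 : (1 : ℝ) - (p : ℝ) ^ (-(1 : ℝ)) ≠ 0 := by
        have := pr_rpow_le_half p 1 le_rfl
        linarith
      exact ((continuousAt_const.sub h1).log h2).neg.sub h1
    exact hc.tendsto.mono_left nhdsWithin_le_nhds
  · have : ∀ᶠ σ : ℝ in 𝓝[>] 1, 1 < σ := self_mem_nhdsWithin
    filter_upwards [this] with σ hσ
    exact gg_bound σ hσ.le

/-- Euler product, logarithm of the absolute value -/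
lemma exp_E (σ : ℝ) (h : 1 < σ) :
    Real.exp (∑' p : Nat.Primes, -Real.log (1 - (p : ℝ) ^ (-σ))) = ‖riemannZeta (σ : ℂ)‖ := by
  have h1 := riemannZeta_eulerProduct_exp_log (s := (σ : ℂ)) (by simpa using h)
  have h2 : ∑' p : Nat.Primes, -Complex.log (1 - (p : ℂ) ^ (-(σ : ℂ)))
      = ((∑' p : Nat.Primes, -Real.log (1 - (p : ℝ) ^ (-σ)) : ℝ) : ℂ) := by
    rw [Complex.ofReal_tsum]
    apply tsum_congr
    intro p
    have h3 : (p : ℂ) ^ (-(σ : ℂ)) = (((p : ℝ) ^ (-σ) : ℝ) : ℂ) := by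
      rw [Complex.ofReal_cpow (by linarith [pr_ge_two p])]
      push_cast
      rfl
    have h4 : 0 ≤ 1 - (p : ℝ) ^ (-σ) := by
      have := pr_rpow_le_half p σ h.le
      linarith
    rw [h3, Complex.ofReal_neg, Complex.ofReal_log h4]
    push_cast
    rfl
  rw [← h1, h2, Complex.norm_exp, Complex.ofReal_re]

lemma E_tendsto : Tendsto (fun σ : ℝ => (∑' p : Nat.Primes, -Real.log (1 - (p : ℝ) ^ (-σ)))
    + Real.log (σ - 1)) (𝓝[>] 1) (𝓝 0) := by
  have h1 : Tendsto (fun σ : ℝ => (σ : ℂ)) (𝓝[>] 1) (𝓝[≠] 1) := by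
    rw [tendsto_nhdsWithin_iff]
    constructor
    · have : Tendsto (fun σ : ℝ => (σ : ℂ)) (𝓝 1) (𝓝 ((1 : ℝ) : ℂ)) :=
        Complex.continuous_ofReal.tendsto 1
      rw [Complex.ofReal_one] at this
      exact this.mono_left nhdsWithin_le_nhds
    · have : ∀ᶠ σ : ℝ in 𝓝[>] 1, 1 < σ := self_mem_nhdsWithin
      filter_upwards [this] with σ hσ
      simp only [Set.mem_compl_iff, Set.mem_singleton_iff]
      intro h
      have : σ = 1 := by exact_mod_cast h
      linarith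
  have h2 := (riemannZeta_residue_one.comp h1).norm
  rw [norm_one] at h2
  have h3 := (Real.continuousAt_log (x := 1) one_ne_zero).tendsto.comp h2
  rw [Real.log_one] at h3
  refine h3.congr' ?_
  have : ∀ᶠ σ : ℝ in 𝓝[>] 1, 1 < σ := self_mem_nhdsWithin
  filter_upwards [this] with σ hσ
  simp only [Function.comp]
  have h4 : ‖((σ : ℂ) - 1)‖ = σ - 1 := by
    rw [← Complex.ofReal_one, ← Complex.ofReal_sub, Complex.norm_real, Real.norm_eq_abs,
      abs_of_pos (by linarith)]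
  rw [norm_mul, h4, ← exp_E σ hσ, Real.log_mul (by linarith) (Real.exp_pos _).ne', Real.log_exp,
    add_comm]

/-- `P(σ) + log (σ - 1)` converges as `σ → 1+` -/
theorem P_tendsto : ∃ B : ℝ, Tendsto (fun σ : ℝ => (∑' p : Nat.Primes, (p : ℝ) ^ (-σ))
    + Real.log (σ - 1)) (𝓝[>] 1) (𝓝 B) := by
  refine ⟨0 - ∑' p : Nat.Primes, gg 1 p, ?_⟩
  refine (E_tendsto.sub gg_tendsto).congr' ?_
  have : ∀ᶠ σ : ℝ in 𝓝[>] 1, 1 < σ := self_mem_nhdsWithin
  filter_upwards [this] with σ hσ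
  have h1 : ∑' p : Nat.Primes, -Real.log (1 - (p : ℝ) ^ (-σ))
      = (∑' p : Nat.Primes, gg σ p) + ∑' p : Nat.Primes, (p : ℝ) ^ (-σ) := by
    rw [← (gg_summable σ hσ.le).tsum_add (pr_summable σ hσ)]
    apply tsum_congr
    intro p
    unfold gg
    ring
  rw [h1]
  ring

lemma one_add_div_tendsto (s : ℝ) (hs : 0 < s) :
    Tendsto (fun L : ℝ => 1 + s / L) atTop (𝓝[>] 1) := by
  rw [tendsto_nhdsWithin_iff]
  constructor
  · have h1 : Tendsto (fun L : ℝ => s / L) atTop (𝓝 0) := tendsto_const_nhds.div_atTop tendsto_id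
    simpa using h1.const_add 1
  · filter_upwards [eventually_gt_atTop 0] with L hL
    have := div_pos hs hL
    simp only [Set.mem_Ioi]
    linarith

/-- Mertens: `log zeta (1 + s/L) - log zeta (1 + 1/L) → - log s` -/
theorem pr_log (s : ℝ) (hs : 0 < s) :
    Tendsto (fun L : ℝ => ∑' p : Nat.Primes, ((p : ℝ) ^ (-(1 + s / L)) - (p : ℝ) ^ (-(1 + 1 / L))))
      atTop (𝓝 (-Real.log s)) := by
  obtain ⟨B, hB⟩ := P_tendsto
  have h1 := hB.comp (one_add_div_tendsto s hs)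
  have h2 := hB.comp (one_add_div_tendsto 1 one_pos)
  have h3 := (h1.sub h2).sub_const (Real.log s)
  have e : B - B - Real.log s = -Real.log s := by ring
  rw [e] at h3
  refine h3.congr' ?_
  filter_upwards [eventually_gt_atTop 0] with L hL
  simp only [Function.comp]
  rw [(pr_summable' s L hs hL).tsum_sub (pr_summable' 1 L one_pos hL)]
  have e1 : 1 + s / L - 1 = s / L := by ring
  have e2 : 1 + 1 / L - 1 = 1 / L := by ring
  rw [e1, e2, Real.log_div hs.ne' hL.ne', Real.log_div one_ne_zero hL.ne', Real.log_one]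
  ring

/-- `∑ log p * p^(-(1+1/L)) ≤ C L` -/
theorem pr_logsum : ∃ C L0 : ℝ, 0 < C ∧ 1 ≤ L0 ∧ ∀ L, L0 ≤ L →
    Summable (fun p : Nat.Primes => Real.log p * (p : ℝ) ^ (-(1 + 1 / L))) ∧
    ∑' p : Nat.Primes, Real.log p * (p : ℝ) ^ (-(1 + 1 / L)) ≤ C * L := by
  have h1 := pr_log (1 / 2) (by norm_num)
  have h2 : ∀ᶠ L : ℝ in atTop, ∑' p : Nat.Primes,
      ((p : ℝ) ^ (-(1 + (1 / 2) / L)) - (p : ℝ) ^ (-(1 + 1 / L))) < 1 := by
    apply h1.eventually_lt_const
    rw [one_div, Real.log_inv, neg_neg]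
    have := Real.log_two_lt_d9
    linarith
  obtain ⟨L1, hL1⟩ := eventually_atTop.1 h2
  refine ⟨2, max L1 1, by norm_num, le_max_right _ _, ?_⟩
  intro L hL
  have hLp : 0 < L := lt_of_lt_of_le one_pos ((le_max_right _ _).trans hL)
  have hle : ∀ p : Nat.Primes, Real.log p * (p : ℝ) ^ (-(1 + 1 / L)) ≤
      2 * L * ((p : ℝ) ^ (-(1 + (1 / 2) / L)) - (p : ℝ) ^ (-(1 + 1 / L))) := by
    intro p
    have hp : 0 < (p : ℝ) := by linarith [pr_ge_two p]
    have h3 : (p : ℝ) ^ (-(1 + (1 / 2) / L)) = (p : ℝ) ^ (-(1 + 1 / L)) *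
        Real.exp (Real.log p * (1 / (2 * L))) := by
      rw [← Real.rpow_def_of_pos hp, ← Real.rpow_add hp]
      congr 1
      field_simp
      ring
    rw [h3]
    have h4 : 1 + Real.log p * (1 / (2 * L)) ≤ Real.exp (Real.log p * (1 / (2 * L))) := by
      have := Real.add_one_le_exp (Real.log p * (1 / (2 * L)))
      linarith
    have h5 : 0 ≤ (p : ℝ) ^ (-(1 + 1 / L)) := pr_rpow_nonneg p _
    have h6 : (p : ℝ) ^ (-(1 + 1 / L)) * (Real.log p * (1 / (2 * L))) ≤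
        (p : ℝ) ^ (-(1 + 1 / L)) * Real.exp (Real.log p * (1 / (2 * L)))
          - (p : ℝ) ^ (-(1 + 1 / L)) := by
      nlinarith
    calc Real.log p * (p : ℝ) ^ (-(1 + 1 / L))
        = 2 * L * ((p : ℝ) ^ (-(1 + 1 / L)) * (Real.log p * (1 / (2 * L)))) := by
          field_simp
      _ ≤ 2 * L * ((p : ℝ) ^ (-(1 + 1 / L)) * Real.exp (Real.log p * (1 / (2 * L)))
          - (p : ℝ) ^ (-(1 + 1 / L))) := by
          gcongr
  have hsum : Summable (fun p : Nat.Primes =>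
      2 * L * ((p : ℝ) ^ (-(1 + (1 / 2) / L)) - (p : ℝ) ^ (-(1 + 1 / L)))) :=
    ((pr_summable' (1 / 2) L (by norm_num) hLp).sub (pr_summable' 1 L one_pos hLp)).mul_left _
  have hnn : ∀ p : Nat.Primes, 0 ≤ Real.log p * (p : ℝ) ^ (-(1 + 1 / L)) := by
    intro p
    apply mul_nonneg
    · apply Real.log_nonneg
      linarith [pr_ge_two p]
    · exact pr_rpow_nonneg p _
  have hs1 : Summable (fun p : Nat.Primes => Real.log p * (p : ℝ) ^ (-(1 + 1 / L))) :=
    Summable.of_nonneg_of_le hnn hle hsum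
  refine ⟨hs1, ?_⟩
  calc ∑' p : Nat.Primes, Real.log p * (p : ℝ) ^ (-(1 + 1 / L))
      ≤ ∑' p : Nat.Primes, 2 * L * ((p : ℝ) ^ (-(1 + (1 / 2) / L)) - (p : ℝ) ^ (-(1 + 1 / L))) :=
        hs1.tsum_le_tsum hle hsum
    _ = 2 * L * ∑' p : Nat.Primes, ((p : ℝ) ^ (-(1 + (1 / 2) / L)) - (p : ℝ) ^ (-(1 + 1 / L))) :=
        tsum_mul_left
    _ ≤ 2 * L * 1 := by
        have := hL1 L ((le_max_left _ _).trans hL)
        gcongr
    _ = 2 * L := by ring

/-- tail -/
theorem pr_tail (u : ℝ) (hu : 0 < u) : ∃ C L0 : ℝ, ∀ L, L0 ≤ L →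
    ∑' p : Nat.Primes, (if u * L < Real.log p then (p : ℝ) ^ (-(1 + 1 / L)) else 0) ≤ C := by
  obtain ⟨C, L0, hC, hL0, h⟩ := pr_logsum
  refine ⟨C / u, L0, ?_⟩
  intro L hL
  have hLp : 0 < L := by linarith
  obtain ⟨h1, h2⟩ := h L hL
  have huL : 0 < u * L := mul_pos hu hLp
  have hle : ∀ p : Nat.Primes, (if u * L < Real.log p then (p : ℝ) ^ (-(1 + 1 / L)) else 0) ≤
      (u * L)⁻¹ * (Real.log p * (p : ℝ) ^ (-(1 + 1 / L))) := by
    intro p
    have h5 : 0 ≤ (p : ℝ) ^ (-(1 + 1 / L)) := pr_rpow_nonneg p _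
    have h6 : 0 ≤ Real.log p := Real.log_nonneg (by linarith [pr_ge_two p])
    split_ifs with hp
    · rw [← mul_assoc]
      apply le_mul_of_one_le_left h5
      rw [inv_mul_eq_div, one_le_div huL]
      exact hp.le
    · positivity
  have hnn : ∀ p : Nat.Primes, 0 ≤ (if u * L < Real.log p then (p : ℝ) ^ (-(1 + 1 / L)) else 0) := by
    intro p
    split_ifs
    · exact pr_rpow_nonneg p _
    · exact le_rfl
  have hs := h1.mul_left ((u * L)⁻¹)
  calc ∑' p : Nat.Primes, (if u * L < Real.log p then (p : ℝ) ^ (-(1 + 1 / L)) else 0)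
      ≤ ∑' p : Nat.Primes, (u * L)⁻¹ * (Real.log p * (p : ℝ) ^ (-(1 + 1 / L))) :=
        (Summable.of_nonneg_of_le hnn hle hs).tsum_le_tsum hle hs
    _ = (u * L)⁻¹ * ∑' p : Nat.Primes, (Real.log p * (p : ℝ) ^ (-(1 + 1 / L))) := tsum_mul_left
    _ ≤ (u * L)⁻¹ * (C * L) := by gcongr
    _ = C / u := by
        field_simp

lemma abs_exp_sub_le (a b : ℝ) (ha : 0 ≤ a) (hb : 0 ≤ b) :
    |Real.exp (-a) - Real.exp (-b)| ≤ |a - b| := by
  wlog hab : a ≤ b generalizing a b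
  · rw [abs_sub_comm, abs_sub_comm a b]
    exact this b a hb ha (le_of_not_ge hab)
  have h1 : Real.exp (-b) ≤ Real.exp (-a) := Real.exp_le_exp.2 (by linarith)
  rw [abs_of_nonneg (by linarith), abs_sub_comm, abs_of_nonneg (by linarith)]
  have h2 : Real.exp (-b) = Real.exp (-a) * Real.exp (-(b - a)) := by
    rw [← Real.exp_add]
    congr 1
    ring
  have h3 : 1 - (b - a) ≤ Real.exp (-(b - a)) := by
    have := Real.add_one_le_exp (-(b - a))
    linarith
  have h4 : Real.exp (-a) ≤ 1 := Real.exp_le_one_iff.2 (by linarith)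
  have h5 := Real.exp_pos (-a)
  rw [h2]
  nlinarith

/-- the primes of small scale contribute little -/
theorem pr_small (s : ℝ) (hs : 0 < s) : ∃ C L0 : ℝ, ∀ L, L0 ≤ L → ∀ al, 0 < al →
    Summable (fun p : Nat.Primes => (if Real.log p ≤ al * L then
      |(p : ℝ) ^ (-(1 + s / L)) - (p : ℝ) ^ (-(1 + 1 / L))| else 0)) ∧
    ∑' p : Nat.Primes, (if Real.log p ≤ al * L then
      |(p : ℝ) ^ (-(1 + s / L)) - (p : ℝ) ^ (-(1 + 1 / L))| else 0) ≤ C * (al + 1 / L) := by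
  obtain ⟨C, L1, hC, hL1, h⟩ := pr_logsum
  refine ⟨|s - 1| * (Real.exp 1 * C * (1 + L1)), 1, ?_⟩
  intro L hL al hal
  have hLp : 0 < L := by linarith
  -- L' ≥ al L, L' ≥ L1
  set L' : ℝ := max (al * L) L1 with hL'
  have hL'1 : L1 ≤ L' := le_max_right _ _
  have hL'p : 0 < L' := by linarith
  obtain ⟨h1, h2⟩ := h L' hL'1
  have hle : ∀ p : Nat.Primes, (if Real.log p ≤ al * L then
      |(p : ℝ) ^ (-(1 + s / L)) - (p : ℝ) ^ (-(1 + 1 / L))| else 0) ≤
      (|s - 1| / L * Real.exp 1) * (Real.log p * (p : ℝ) ^ (-(1 + 1 / L'))) := by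
    intro p
    have hp : 0 < (p : ℝ) := by linarith [pr_ge_two p]
    have h5 : 0 ≤ (p : ℝ) ^ (-(1 + 1 / L')) := pr_rpow_nonneg p _
    have h6 : 0 ≤ Real.log p := Real.log_nonneg (by linarith [pr_ge_two p])
    split_ifs with hpl
    · have e1 : ∀ r : ℝ, (p : ℝ) ^ (-(1 + r / L)) = (p : ℝ)⁻¹ *
          Real.exp (-(r * (Real.log p / L))) := by
        intro r
        rw [show -(1 + r / L) = -1 + -(r / L) by ring, Real.rpow_add hp, Real.rpow_neg_one,
          Real.rpow_def_of_pos hp]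
        congr 2
        ring
      rw [e1 s, e1 1, ← mul_sub, abs_mul, abs_of_pos (inv_pos.2 hp)]
      have h7 := abs_exp_sub_le (s * (Real.log p / L)) (1 * (Real.log p / L)) (by positivity)
        (by positivity)
      have h8 : |s * (Real.log p / L) - 1 * (Real.log p / L)| = |s - 1| * (Real.log p / L) := by
        rw [← sub_mul, abs_mul, abs_of_nonneg (a := Real.log p / L) (by positivity)]
      rw [h8] at h7
      have h9 : (p : ℝ)⁻¹ ≤ Real.exp 1 * (p : ℝ) ^ (-(1 + 1 / L')) := by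
        have e2 : (p : ℝ) ^ (-(1 + 1 / L')) = (p : ℝ)⁻¹ * Real.exp (-(Real.log p / L')) := by
          rw [show -(1 + 1 / L') = -1 + -(1 / L') by ring, Real.rpow_add hp, Real.rpow_neg_one,
            Real.rpow_def_of_pos hp]
          congr 2
          ring
        rw [e2]
        have h10 : Real.log p / L' ≤ 1 := by
          rw [div_le_one hL'p]
          exact hpl.trans (le_max_left _ _)
        have h11 : 1 ≤ Real.exp 1 * Real.exp (-(Real.log p / L')) := by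
          rw [← Real.exp_add]
          apply Real.one_le_exp
          linarith
        calc (p : ℝ)⁻¹ = (p : ℝ)⁻¹ * 1 := (mul_one _).symm
          _ ≤ (p : ℝ)⁻¹ * (Real.exp 1 * Real.exp (-(Real.log p / L'))) := by gcongr
          _ = Real.exp 1 * ((p : ℝ)⁻¹ * Real.exp (-(Real.log p / L'))) := by ring
      calc (p : ℝ)⁻¹ * |Real.exp (-(s * (Real.log p / L))) - Real.exp (-(1 * (Real.log p / L)))|
          ≤ (Real.exp 1 * (p : ℝ) ^ (-(1 + 1 / L'))) * (|s - 1| * (Real.log p / L)) := by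
            gcongr
        _ = (|s - 1| / L * Real.exp 1) * (Real.log p * (p : ℝ) ^ (-(1 + 1 / L'))) := by
            ring
    · positivity
  have hnn : ∀ p : Nat.Primes, 0 ≤ (if Real.log p ≤ al * L then
      |(p : ℝ) ^ (-(1 + s / L)) - (p : ℝ) ^ (-(1 + 1 / L))| else 0) := by
    intro p
    split_ifs
    · exact abs_nonneg _
    · exact le_rfl
  have hs2 := h1.mul_left (|s - 1| / L * Real.exp 1)
  have hs3 := Summable.of_nonneg_of_le hnn hle hs2
  refine ⟨hs3, ?_⟩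
  calc ∑' p : Nat.Primes, (if Real.log p ≤ al * L then
      |(p : ℝ) ^ (-(1 + s / L)) - (p : ℝ) ^ (-(1 + 1 / L))| else 0)
      ≤ ∑' p : Nat.Primes, (|s - 1| / L * Real.exp 1) *
        (Real.log p * (p : ℝ) ^ (-(1 + 1 / L'))) := hs3.tsum_le_tsum hle hs2
    _ = (|s - 1| / L * Real.exp 1) * ∑' p : Nat.Primes,
        (Real.log p * (p : ℝ) ^ (-(1 + 1 / L'))) := tsum_mul_left
    _ ≤ (|s - 1| / L * Real.exp 1) * (C * L') := by gcongr
    _ ≤ (|s - 1| / L * Real.exp 1) * (C * ((1 + L1) * (al * L + 1))) := by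
        have : L' ≤ (1 + L1) * (al * L + 1) := by
          rw [hL']
          apply max_le
          · have : 0 < al * L := mul_pos hal hLp
            nlinarith
          · have : 0 < al * L := mul_pos hal hLp
            nlinarith
        gcongr
    _ = |s - 1| * (Real.exp 1 * C * (1 + L1)) * (al + 1 / L) := by
        field_simp

end Pool.Agent.Lib.MP_42948a_nt.TS
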