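import Pool.Agent.Lib.MP_42948a_nt.TS.Mu

/-!
# Relations between the threshold sets
-/

set_option linter.unusedSectionVars false

namespace Pool.Agent.Lib.MP_42948a_nt.TS

variable {G : Type*} [CommGroup G] [Fintype G] {k : ℕ} {e : ℝ} {g : G} {T B U : ℕ → Set G}

theorem mu_diff_le {A C : Set G} {c : ℝ} (h : mu (symmDiff A C) ≤ c) : mu (A \ C) ≤ c :=
  (mu_mono fun x hx => Or.inl hx).trans h

theorem mu_symm {A C : Set G} {a b : ℝ} (h1 : mu (A \ C) ≤ a) (h2 : mu (C \ A) ≤ b) : mu (symmDiff A C) ≤ a + b :=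
  (mu_cov2 fun x hx => hx).trans (add_le_add h1 h2)

/-- two consecutive threshold sets are almost disjoint -/
theorem rel_disj (h : Rel k e g T B) {j : ℕ} (h1 : 1 ≤ j) (h2 : j + 2 ≤ k) : mu (T j ∩ T (j + 1)) ≤ 2 * e := by
  have e1 := h.pair j h1 (by omega)
  have e2 := h.pair (j + 1) (by omega) (by omega)
  have e3 : mu (T j ∩ T (j + 1)) ≤ mu (T j ∩ rf g (B (k - j))) + mu (T (j + 1) ∩ rf g (B (k - (j + 1)))) := by
    refine mu_cov2 fun x hx => ?_
    have h3 := h.covB (k - (j + 1)) (by omega) (by omega) (g * x⁻¹)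
    rw [show k - (j + 1) + 1 = k - j by omega] at h3
    rcases h3 with h3 | h3
    · exact Or.inr ⟨hx.2, h3⟩
    · exact Or.inl ⟨hx.1, h3⟩
  linarith

/-- the sets of two windows with the same complementary window are almost the same -/
theorem rel_same (h : Rel k e g T B) (h' : Rel k e g U B) {j : ℕ} (h1 : 2 ≤ j) (h2 : j + 2 ≤ k) :
    mu (U j \ T j) ≤ 3 * e := by
  have e1 := h'.pair j (by omega) (by omega)
  have e2 := h.pair (j - 1) (by omega) (by omega)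
  have e3 := h.pair (j + 1) (by omega) (by omega)
  have e4 : mu (U j \ T j) ≤ mu (U j ∩ rf g (B (k - j))) + mu (T (j - 1) ∩ rf g (B (k - (j - 1)))) +
      mu (T (j + 1) ∩ rf g (B (k - (j + 1)))) := by
    refine mu_cov3 fun x hx => ?_
    have h3 := h.covT (j - 1) (by omega) (by omega) x
    rw [show j - 1 + 1 = j by omega, show j - 1 + 2 = j + 1 by omega] at h3
    rcases h3 with h3 | h3 | h3
    · have h4 := h.covB (k - j) (by omega) (by omega) (g * x⁻¹)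
      rw [show k - j + 1 = k - (j - 1) by omega] at h4
      rcases h4 with h4 | h4
      · exact Or.inl ⟨hx.1, h4⟩
      · exact Or.inr (Or.inl ⟨h3, h4⟩)
    · exact absurd h3 hx.2
    · have h4 := h.covB (k - (j + 1)) (by omega) (by omega) (g * x⁻¹)
      rw [show k - (j + 1) + 1 = k - j by omega] at h4
      rcases h4 with h4 | h4
      · exact Or.inr (Or.inr ⟨h3, h4⟩)
      · exact Or.inl ⟨hx.1, h4⟩
  linarith

/-- multiplication by a tiny prime -/
theorem rel_shift (h : Rel k e g T B) (h' : Rel k e g U B) {p : G} {e1 : ℝ}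
    (hp : ∀ i, 1 ≤ i → i + 1 ≤ k → mu (tr p (U i) \ T (i + 1)) ≤ e1) {j : ℕ} (h1 : 3 ≤ j) (h2 : j + 3 ≤ k) :
    mu (symmDiff (tr p (T j)) (T (j + 1))) ≤ 13 * e + 3 * e1 := by
  have key : ∀ i, 2 ≤ i → i + 2 ≤ k → mu (tr p (T i) \ T (i + 1)) ≤ 3 * e + e1 := by
    intro i hi hi2
    have e1 := rel_same h' h hi hi2
    have e2 := hp i (by omega) (by omega)
    have e3 : mu (tr p (T i) \ T (i + 1)) ≤ mu (tr p (T i \ U i)) + mu (tr p (U i) \ T (i + 1)) := by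
      refine mu_cov2 fun x hx => ?_
      by_cases h3 : x * p⁻¹ ∈ U i
      · exact Or.inr ⟨h3, hx.2⟩
      · exact Or.inl ⟨hx.1, h3⟩
    rw [mu_tr] at e3
    linarith
  have k1 := key j (by omega) (by omega)
  have k2 := key (j - 1) (by omega) (by omega)
  have k3 := key (j + 1) (by omega) (by omega)
  rw [show j - 1 + 1 = j by omega] at k2
  have d1 := rel_disj h (j := j) (by omega) (by omega)
  have d2 := rel_disj h (j := j + 1) (by omega) (by omega)
  have e4 : mu (T (j + 1) \ tr p (T j)) ≤ mu (tr p (T (j - 1)) \ T j) + mu (T j ∩ T (j + 1)) +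
      mu (tr p (T (j + 1)) \ T (j + 1 + 1)) + mu (T (j + 1) ∩ T (j + 1 + 1)) := by
    refine mu_cov4 fun x hx => ?_
    have h3 := h.covT (j - 1) (by omega) (by omega) (x * p⁻¹)
    rw [show j - 1 + 1 = j by omega, show j - 1 + 2 = j + 1 by omega] at h3
    rcases h3 with h3 | h3 | h3
    · by_cases h4 : x ∈ T j
      · exact Or.inr (Or.inl ⟨h4, hx.1⟩)
      · exact Or.inl ⟨h3, h4⟩
    · exact absurd h3 hx.2
    · by_cases h4 : x ∈ T (j + 1 + 1)
      · exact Or.inr (Or.inr (Or.inr ⟨hx.1, h4⟩))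
      · exact Or.inr (Or.inr (Or.inl ⟨h3, h4⟩))
  have := mu_symm k1 e4
  linarith

/-- two primes of the same window act in the same way -/
theorem rel_coset (h : Rel k e g T B)
    (hU : ∀ j, 1 ≤ j → j + 3 ≤ k → ∀ x, x ∈ U j ∨ x ∈ U (j + 1) ∨ x ∈ U (j + 2) ∨ x ∈ U (j + 3)) {p p' : G} {e1 : ℝ}
    (hp : ∀ i, 1 ≤ i → i + 1 ≤ k → mu (tr p (U i) \ T (i + 1)) ≤ e1)
    (hp' : ∀ i, 1 ≤ i → i + 1 ≤ k → mu (tr p' (U i) \ T (i + 1)) ≤ e1) {j : ℕ} (h1 : 3 ≤ j) (h2 : j + 4 ≤ k) :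
    mu (tr (p' * p⁻¹) (T (j + 1)) \ T (j + 1)) ≤ 8 * e + 5 * e1 := by
  -- the bad sets, as sets of `x` (the image) or of `b = x p / p'`
  have d1 := rel_disj h (j := j) (by omega) (by omega)
  have d2 := rel_disj h (j := j + 1) (by omega) (by omega)
  have d3 := rel_disj h (j := j - 1) (by omega) (by omega)
  have d4 := rel_disj h (j := j + 2) (by omega) (by omega)
  rw [show j - 1 + 1 = j by omega] at d3
  have q1 := hp (j - 1) (by omega) (by omega)
  have q2 := hp (j + 1) (by omega) (by omega)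
  have q3 := hp' j (by omega) (by omega)
  have q4 := hp' (j - 2) (by omega) (by omega)
  have q5 := hp' (j + 2) (by omega) (by omega)
  rw [show j - 1 + 1 = j by omega] at q1
  rw [show j - 2 + 1 = j - 1 by omega] at q4
  have hs : ∀ x : G, x * (p' * p⁻¹)⁻¹ * p⁻¹ = x * p'⁻¹ := by
    intro x
    rw [mul_inv, inv_inv, ← mul_assoc, mul_inv_cancel_right]
  have key : ∀ x ∈ tr (p' * p⁻¹) (T (j + 1)) \ T (j + 1),
      (x ∈ tr (p' * p⁻¹) (tr p (U (j - 1)) \ T j) ∨ x ∈ tr (p' * p⁻¹) (T j ∩ T (j + 1))) ∨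
      (x ∈ tr (p' * p⁻¹) (tr p (U (j + 1)) \ T (j + 1 + 1)) ∨ x ∈ tr (p' * p⁻¹) (T (j + 1) ∩ T (j + 1 + 1))) ∨
      (x ∈ tr p' (U j) \ T (j + 1) ∨ x ∈ tr p' (U (j - 2)) \ T (j - 1) ∨ x ∈ tr p' (U (j + 2)) \ T (j + 2 + 1)) ∨
      (x ∈ T (j - 1) ∩ T j ∨ x ∈ T (j + 2) ∩ T (j + 2 + 1)) := by
    intro x hx
    have hx1 : x * (p' * p⁻¹)⁻¹ ∈ T (j + 1) := hx.1
    have c1 := hU (j - 2) (by omega) (by omega) (x * p'⁻¹)
    have c2 := hU (j - 1) (by omega) (by omega) (x * p'⁻¹)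
    rw [show j - 2 + 1 = j - 1 by omega, show j - 2 + 2 = j by omega, show j - 2 + 3 = j + 1 by omega] at c1
    rw [show j - 1 + 1 = j by omega, show j - 1 + 2 = j + 1 by omega, show j - 1 + 3 = j + 2 by omega] at c2
    -- the case of the count `j - 1`
    have f1 : x * p'⁻¹ ∈ U (j - 1) → (x ∈ tr (p' * p⁻¹) (tr p (U (j - 1)) \ T j) ∨ x ∈ tr (p' * p⁻¹) (T j ∩ T (j + 1))) := by
      intro h3
      by_cases h4 : x * (p' * p⁻¹)⁻¹ ∈ T j
      · exact Or.inr ⟨h4, hx1⟩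
      · refine Or.inl ⟨?_, h4⟩
        rw [mem_tr, hs]
        exact h3
    have f2 : x * p'⁻¹ ∈ U (j + 1) → (x ∈ tr (p' * p⁻¹) (tr p (U (j + 1)) \ T (j + 1 + 1)) ∨
        x ∈ tr (p' * p⁻¹) (T (j + 1) ∩ T (j + 1 + 1))) := by
      intro h3
      by_cases h4 : x * (p' * p⁻¹)⁻¹ ∈ T (j + 1 + 1)
      · exact Or.inr ⟨hx1, h4⟩
      · refine Or.inl ⟨?_, h4⟩
        rw [mem_tr, hs]
        exact h3
    by_cases g1 : x * p'⁻¹ ∈ U (j - 1)
    · exact Or.inl (f1 g1)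
    by_cases g2 : x * p'⁻¹ ∈ U (j + 1)
    · exact Or.inr (Or.inl (f2 g2))
    by_cases g3 : x * p'⁻¹ ∈ U j
    · exact Or.inr (Or.inr (Or.inl (Or.inl ⟨g3, hx.2⟩)))
    have c3 : x * p'⁻¹ ∈ U (j - 2) := by
      rcases c1 with c | c | c | c
      · exact c
      · exact absurd c g1
      · exact absurd c g3
      · exact absurd c g2
    have c4 : x * p'⁻¹ ∈ U (j + 2) := by
      rcases c2 with c | c | c | c
      · exact absurd c g1
      · exact absurd c g3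
      · exact absurd c g2
      · exact c
    by_cases g4 : x ∈ T (j - 1)
    · by_cases g5 : x ∈ T (j + 2 + 1)
      · have c5 := h.covT j (by omega) (by omega) x
        rcases c5 with c | c | c
        · exact Or.inr (Or.inr (Or.inr (Or.inl ⟨g4, c⟩)))
        · exact absurd c hx.2
        · exact Or.inr (Or.inr (Or.inr (Or.inr ⟨c, g5⟩)))
      · exact Or.inr (Or.inr (Or.inl (Or.inr (Or.inr ⟨c4, g5⟩))))
    · exact Or.inr (Or.inr (Or.inl (Or.inr (Or.inl ⟨c3, g4⟩))))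
  have m1 := mu_cov4 (A := tr (p' * p⁻¹) (T (j + 1)) \ T (j + 1))
    (B := tr (p' * p⁻¹) (tr p (U (j - 1)) \ T j) ∪ tr (p' * p⁻¹) (T j ∩ T (j + 1)))
    (C := tr (p' * p⁻¹) (tr p (U (j + 1)) \ T (j + 1 + 1)) ∪ tr (p' * p⁻¹) (T (j + 1) ∩ T (j + 1 + 1)))
    (D := tr p' (U j) \ T (j + 1) ∪ (tr p' (U (j - 2)) \ T (j - 1) ∪ tr p' (U (j + 2)) \ T (j + 2 + 1)))
    (E := T (j - 1) ∩ T j ∪ T (j + 2) ∩ T (j + 2 + 1)) key
  have m2 := mu_union (tr (p' * p⁻¹) (tr p (U (j - 1)) \ T j)) (tr (p' * p⁻¹) (T j ∩ T (j + 1)))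
  have m3 := mu_union (tr (p' * p⁻¹) (tr p (U (j + 1)) \ T (j + 1 + 1))) (tr (p' * p⁻¹) (T (j + 1) ∩ T (j + 1 + 1)))
  have m4 := mu_cov3 (A := tr p' (U j) \ T (j + 1) ∪ (tr p' (U (j - 2)) \ T (j - 1) ∪ tr p' (U (j + 2)) \ T (j + 2 + 1)))
    (B := tr p' (U j) \ T (j + 1)) (C := tr p' (U (j - 2)) \ T (j - 1)) (D := tr p' (U (j + 2)) \ T (j + 2 + 1))
    fun x hx => hx
  have m5 := mu_union (T (j - 1) ∩ T j) (T (j + 2) ∩ T (j + 2 + 1))
  rw [mu_tr, mu_tr] at m2 m3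
  linarith

/-- the complementary sets -/
theorem rel_compl (h : Rel k e g T B) {j : ℕ} (h1 : 2 ≤ j) (h2 : j + 2 ≤ k) :
    mu (symmDiff (B j) (rf g (T (k - j)))ᶜ) ≤ 3 * e := by
  have e1 := h.pair (k - j) (by omega) (by omega)
  have e2 := h.pair (k - j - 1) (by omega) (by omega)
  have e3 := h.pair (k - j + 1) (by omega) (by omega)
  rw [show k - (k - j) = j by omega] at e1
  rw [show k - (k - j - 1) = j + 1 by omega] at e2
  rw [show k - (k - j + 1) = j - 1 by omega] at e3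
  have f1 : mu (B j \ (rf g (T (k - j)))ᶜ) ≤ e := by
    refine le_trans (le_of_eq ?_) e1
    rw [← mu_rf g (T (k - j) ∩ rf g (B j))]
    congr 1
    ext x
    rw [Set.mem_sdiff, Set.mem_compl_iff, not_not, mem_rf, mem_rf, Set.mem_inter_iff, mem_rf, rf_rf]
    exact and_comm
  have f2 : mu ((rf g (T (k - j)))ᶜ \ B j) ≤ mu (rf g (T (k - j - 1) ∩ rf g (B (j + 1)))) +
      mu (rf g (T (k - j + 1) ∩ rf g (B (j - 1)))) := by
    refine mu_cov2 fun x hx => ?_
    have h3 := h.covT (k - j - 1) (by omega) (by omega) (g * x⁻¹)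
    rw [show k - j - 1 + 1 = k - j by omega, show k - j - 1 + 2 = k - j + 1 by omega] at h3
    rcases h3 with h3 | h3 | h3
    · have h4 := h.covB j (by omega) (by omega) x
      rcases h4 with h4 | h4
      · exact absurd h4 hx.2
      · refine Or.inl ⟨h3, ?_⟩
        rw [mem_rf, rf_rf]
        exact h4
    · exact absurd h3 hx.1
    · have h4 := h.covB (j - 1) (by omega) (by omega) x
      rw [show j - 1 + 1 = j by omega] at h4
      rcases h4 with h4 | h4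
      · refine Or.inr ⟨h3, ?_⟩
        rw [mem_rf, rf_rf]
        exact h4
      · exact absurd h4 hx.2
  rw [mu_rf, mu_rf] at f2
  have := mu_symm f1 (f2.trans (add_le_add e2 e3))
  linarith

end Pool.Agent.Lib.MP_42948a_nt.TS
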