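import Mathlib

/-!
# T*, section 5: finite group combinatorics (helper50)

`A`, `B`, `Q` subsets of a finite abelian group `C`, written additively, `t, gg : C`.
`hA1`, `hA2`: the gaps of `A` along `t` are 2 or 3.  `hAN1`, `hAN2` are the analytic inputs.
-/

namespace MP42948TS

variable {C : Type*} [AddCommGroup C]

/-- every integer multiple is a nonnegative multiple of `-t` (finite group), even version -/
lemma exists_neg_even [Finite C] (t : C) (k : ℤ) : ∃ n : ℕ, (2 * k) • t = (-(2 * (n : ℤ))) • t := by
  have hN : 0 < addOrderOf t := addOrderOf_pos t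
  refine ⟨(-k + (addOrderOf t : ℤ) * |k|).toNat, ?_⟩
  have h1 : 0 ≤ -k + (addOrderOf t : ℤ) * |k| := by
    have : (1 : ℤ) ≤ (addOrderOf t : ℤ) := by exact_mod_cast hN
    nlinarith [le_abs_self k, abs_nonneg k]
  rw [Int.toNat_of_nonneg h1]
  have h2 : (-(2 * (-k + (addOrderOf t : ℤ) * |k|))) • t
      = (2 * k) • t + (-(2 * |k|)) • ((addOrderOf t : ℤ) • t) := by
    rw [← mul_smul, ← add_smul]
    congr 1
    ring
  rw [h2, natCast_zsmul, addOrderOf_nsmul_eq_zero]
  simp

/-- Section 5 of the T* page. -/
theorem sec5 [Finite C] (t gg : C) (A B Q : Set C)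
    (hA1 : ∀ x ∈ A, x + t ∉ A)
    (hA2 : ∀ x, x - t ∈ A ∨ x ∈ A ∨ x + t ∈ A)
    (hB : ∀ x, x ∈ B ↔ gg - x ∉ A)
    (hstab : ∀ s : C, (∀ x, x ∈ A ↔ x + s ∈ A) → s = 0)
    (h0 : (0 : C) ∈ Q) (hQA : Q ⊆ A) (hQQ : ∀ x ∈ Q, ∀ y ∈ Q, x + y ∈ B)
    (hAN1 : t + t ≠ 0 → ∀ l : ℤ, Even l → (l - 1) • t ∈ Q ∨ (l - 2) • t ∈ Q)
    (hAN2 : ∀ x, ∃ k : ℤ, x + k • t ∈ Q) :
    t ≠ 0 ∧ t + t = 0 ∧ gg = t ∧ A = {0} ∧ B = {0} ∧ Q = {0} ∧ ∀ x, x = 0 ∨ x = t := by
  have h0A : (0 : C) ∈ A := hQA h0
  have ht0 : t ≠ 0 := by
    intro h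
    have := hA1 0 h0A
    rw [h, add_zero] at this
    exact this h0A
  -- the case of order at least three
  have h2t : t + t = 0 := by
    by_contra hne
    have hAN := hAN1 hne
    have hneg : ∀ n : ℕ, (-(2 * (n : ℤ))) • t ∈ Q := by
      intro n
      induction n with
      | zero => simpa using h0
      | succ n ih =>
        have hl : Even (-(2 * (n : ℤ))) := ⟨-(n : ℤ), by ring⟩
        rcases hAN _ hl with h | h
        · exfalso
          have h' := hA1 _ (hQA h)
          apply h'
          have e : (-(2 * (n : ℤ)) - 1) • t + t = (-(2 * (n : ℤ))) • t := by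
            rw [sub_smul, one_smul, sub_add_cancel]
          rw [e]
          exact hQA ih
        · have e : (-(2 * (n : ℤ)) - 2) = (-(2 * ((n + 1 : ℕ) : ℤ))) := by
            push_cast
            ring
          rw [e] at h
          exact h
    have hev : ∀ k : ℤ, (2 * k) • t ∈ Q := by
      intro k
      obtain ⟨n, hn⟩ := exists_neg_even t k
      rw [hn]
      exact hneg n
    -- for y in Q, gg - y + (even) t is not in A
    have hmiss : ∀ y ∈ Q, ∀ k : ℤ, gg - y + (2 * k) • t ∉ A := by
      intro y hy k
      have := (hB _).1 (hQQ y hy _ (hev (-k)))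
      have e : gg - (y + (2 * (-k)) • t) = gg - y + (2 * k) • t := by
        have : (2 * (-k)) • t = -((2 * k) • t) := by rw [← neg_smul]; congr 1; ring
        rw [this]
        abel
      rwa [e] at this
    have hhit : ∀ y ∈ Q, ∀ k : ℤ, gg - y + (2 * k + 1) • t ∈ A := by
      intro y hy k
      rcases hA2 (gg - y + (2 * k + 1) • t) with h | h | h
      · exfalso
        apply hmiss y hy k
        have e : gg - y + (2 * k + 1) • t - t = gg - y + (2 * k) • t := by
          rw [add_smul, one_smul]
          abel
        rwa [e] at h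
      · exact h
      · exfalso
        apply hmiss y hy (k + 1)
        have e : gg - y + (2 * k + 1) • t + t = gg - y + (2 * (k + 1)) • t := by
          have h3 : (2 * (k + 1)) • t = (2 * k + 1) • t + t := by
            have : (2 * (k + 1)) = (2 * k + 1) + 1 := by ring
            rw [this, add_smul (2 * k + 1) 1 t, one_smul]
          rw [h3, add_assoc]
        rwa [e] at h
    have hper : ∀ x, x ∈ A ↔ x + (t + t) ∈ A := by
      intro x
      obtain ⟨k, hk⟩ := hAN2 (gg - x)
      obtain ⟨m, hm | hm⟩ := Int.even_or_odd' k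
      · have e1 : x = gg - (gg - x + k • t) + (2 * m) • t := by
          rw [hm]
          abel
        have e2 : x + (t + t) = gg - (gg - x + k • t) + (2 * (m + 1)) • t := by
          have : (2 * (m + 1)) = 2 * m + 2 := by ring
          rw [hm, this, add_smul _ 2 t, two_smul]
          abel
        constructor
        · intro hx
          exact absurd (e1 ▸ hx) (hmiss _ hk m)
        · intro hx
          exact absurd (e2 ▸ hx) (hmiss _ hk (m + 1))
      · have e1 : x = gg - (gg - x + k • t) + (2 * m + 1) • t := by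
          rw [hm]
          abel
        have e2 : x + (t + t) = gg - (gg - x + k • t) + (2 * (m + 1) + 1) • t := by
          have : (2 * (m + 1) + 1) = (2 * m + 1) + 2 := by ring
          rw [hm, this, add_smul _ 2 t, two_smul]
          abel
        constructor
        · intro _
          rw [e2]
          exact hhit _ hk (m + 1)
        · intro _
          rw [e1]
          exact hhit _ hk m
    exact hne (hstab _ hper)
  have hzs : ∀ k : ℤ, k • t = 0 ∨ k • t = t := by
    intro k
    obtain ⟨m, hm | hm⟩ := Int.even_or_odd' k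
    · left
      have : k • t = m • (t + t) := by rw [hm, mul_comm, mul_smul, two_smul]
      rw [this, h2t, smul_zero]
    · right
      have : k • t = m • (t + t) + t := by
        rw [hm, add_smul, one_smul, mul_comm, mul_smul, two_smul]
      rw [this, h2t, smul_zero, zero_add]
  have hnt : -t = t := by
    rw [neg_eq_iff_add_eq_zero]
    exact h2t
  have hor : ∀ x, x ∈ A ∨ x + t ∈ A := by
    intro x
    rcases hA2 x with h | h | h
    · right
      rwa [sub_eq_add_neg, hnt] at h
    · exact Or.inl h
    · exact Or.inr h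
  have hQor : ∀ x, x ∈ Q ∨ x + t ∈ Q := by
    intro x
    obtain ⟨k, hk⟩ := hAN2 x
    rcases hzs k with h | h
    · left
      rwa [h, add_zero] at hk
    · right
      rwa [h] at hk
  have hAQ : A = Q := by
    apply Set.Subset.antisymm _ hQA
    intro x hx
    rcases hQor x with h | h
    · exact h
    · exact absurd (hQA h) (hA1 x hx)
  have hQB : Q ⊆ B := by
    intro x hx
    have := hQQ x hx 0 h0
    rwa [add_zero] at this
  have hBne : ∀ x ∈ B, x + t ∉ B := by
    intro x hx hxt
    have h1 := (hB x).1 hx
    have h2 := (hB _).1 hxt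
    rcases hor (gg - x) with h | h
    · exact h1 h
    · apply h2
      have e : gg - (x + t) = gg - x + t := by
        have : gg - (x + t) = gg - x + -t := by abel
        rw [this, hnt]
      rwa [e]
  have hBQ : B = Q := by
    apply Set.Subset.antisymm _ hQB
    intro x hx
    rcases hQor x with h | h
    · exact h
    · exact absurd (hQB h) (hBne x hx)
  have hadd : ∀ x ∈ A, ∀ y ∈ A, x + y ∈ A := by
    intro x hx y hy
    rw [hAQ] at hx hy ⊢
    have := hQQ x hx y hy
    rwa [hBQ] at this
  have hmul : ∀ s ∈ A, ∀ n : ℕ, n • s ∈ A := by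
    intro s hs n
    induction n with
    | zero => simpa using h0A
    | succ n ih =>
      rw [succ_nsmul]
      exact hadd _ ih _ hs
  have hA0 : ∀ s ∈ A, s = 0 := by
    intro s hs
    apply hstab
    intro x
    constructor
    · intro hx
      exact hadd _ hx _ hs
    · intro hx
      have hN : 0 < addOrderOf s := addOrderOf_pos s
      have e : x = (x + s) + (addOrderOf s - 1) • s := by
        have h1 : s + (addOrderOf s - 1) • s = 0 := by
          have : s + (addOrderOf s - 1) • s = (addOrderOf s) • s := by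
            conv_rhs => rw [show addOrderOf s = 1 + (addOrderOf s - 1) by omega]
            rw [add_smul, one_smul]
          rw [this, addOrderOf_nsmul_eq_zero]
        rw [add_assoc, h1, add_zero]
      rw [e]
      exact hadd _ hx _ (hmul s hs _)
  have hAs : A = {0} := by
    apply Set.Subset.antisymm
    · intro x hx
      exact hA0 x hx
    · intro x hx
      rw [Set.mem_singleton_iff] at hx
      rw [hx]
      exact h0A
  have hQs : Q = {0} := by rw [← hAQ, hAs]
  have hBs : B = {0} := by rw [hBQ, hQs]
  refine ⟨ht0, h2t, ?_, hAs, hBs, hQs, ?_⟩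
  · have htB : t ∉ B := by
      rw [hBs, Set.mem_singleton_iff]
      exact ht0
    have : gg - t ∈ A := by
      by_contra h
      exact htB ((hB t).2 h)
    rw [hAs, Set.mem_singleton_iff] at this
    exact sub_eq_zero.1 this
  · intro x
    rcases hor x with h | h
    · left
      rw [hAs] at h
      exact h
    · right
      rw [hAs, Set.mem_singleton_iff] at h
      have : x = -t := eq_neg_of_add_eq_zero_left h
      rw [this, hnt]

/-- in a finite group, `A + y ⊆ A` implies that `y` stabilises `A` -/
lemma stab_of_subset [Finite C] (A : Set C) (y : C) (h : ∀ x ∈ A, x + y ∈ A) :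
    ∀ x, x ∈ A ↔ x + y ∈ A := by
  have hmul : ∀ n : ℕ, ∀ x ∈ A, x + n • y ∈ A := by
    intro n
    induction n with
    | zero => intro x hx; simpa using hx
    | succ n ih =>
      intro x hx
      rw [succ_nsmul, ← add_assoc]
      exact h _ (ih x hx)
  intro x
  refine ⟨h x, ?_⟩
  intro hx
  have hN : 0 < addOrderOf y := addOrderOf_pos y
  have e : x = (x + y) + (addOrderOf y - 1) • y := by
    have h1 : y + (addOrderOf y - 1) • y = 0 := by
      have : y + (addOrderOf y - 1) • y = (addOrderOf y) • y := by
        conv_rhs => rw [show addOrderOf y = 1 + (addOrderOf y - 1) by omega]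
        rw [add_smul, one_smul]
      rw [this, addOrderOf_nsmul_eq_zero]
    rw [add_assoc, h1, add_zero]
  rw [e]
  exact hmul _ _ hx

/-- Step 1 (`J = 3`): if the gaps of `A` are 2 or 3, those of `Q ⊆ A` at most 4 and `Q + y ⊆ A`,
then `y = 0`. -/
theorem fill_stab [Finite C] (t : C) (A Q : Set C)
    (hA1 : ∀ x ∈ A, x + t ∉ A)
    (hA2 : ∀ x, x - t ∈ A ∨ x ∈ A ∨ x + t ∈ A)
    (hstab : ∀ s : C, (∀ x, x ∈ A ↔ x + s ∈ A) → s = 0)
    (hQA : Q ⊆ A)
    (hgap : ∀ x, x ∈ Q ∨ x - t ∈ Q ∨ x - t - t ∈ Q ∨ x - t - t - t ∈ Q)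
    (y : C) (hy : ∀ x ∈ Q, x + y ∈ A) : y = 0 := by
  apply hstab
  apply stab_of_subset
  intro a ha
  by_cases haQ : a ∈ Q
  · exact hy a haQ
  have h1 : a + t ∉ Q := fun h => hA1 a ha (hQA h)
  have h2 : a - t ∉ Q := by
    intro h
    have := hA1 _ (hQA h)
    rw [sub_add_cancel] at this
    exact this ha
  have h3 : a + t + t ∈ Q := by
    rcases hgap (a + t + t) with h | h | h | h
    · exact h
    · rw [add_sub_cancel_right] at h
      exact absurd h h1
    · rw [add_sub_cancel_right, add_sub_cancel_right] at h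
      exact absurd h haQ
    · rw [add_sub_cancel_right, add_sub_cancel_right] at h
      exact absurd h h2
  have h4 : a - t - t ∈ Q := by
    rcases hgap (a + t) with h | h | h | h
    · exact absurd h h1
    · rw [add_sub_cancel_right] at h
      exact absurd h haQ
    · rw [add_sub_cancel_right] at h
      exact absurd h h2
    · rw [add_sub_cancel_right] at h
      exact h
  have h5 := hy _ h3
  have h6 := hy _ h4
  rcases hA2 (a + y) with h | h | h
  · exfalso
    have := hA1 _ h6
    apply this
    have e : a - t - t + y + t = a + y - t := by abel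
    rwa [e]
  · exact h
  · exfalso
    have := hA1 _ h
    apply this
    have e : a + y + t + t = a + t + t + y := by abel
    rwa [e]

/-- Step 2 (`J = 1`): if moreover the gaps of `Q` are at most 2, the group is `{0, t}`. -/
theorem end_struct [Finite C] (t gg : C) (A B Q : Set C)
    (hA1 : ∀ x ∈ A, x + t ∉ A)
    (hB : ∀ x, x ∈ B ↔ gg - x ∉ A)
    (hstab : ∀ s : C, (∀ x, x ∈ A ↔ x + s ∈ A) → s = 0)
    (h0 : (0 : C) ∈ Q) (hQA : Q ⊆ A) (hQQ : ∀ x ∈ Q, ∀ y ∈ Q, x + y ∈ B)
    (hgap : ∀ x, x ∈ Q ∨ x - t ∈ Q) :
    t ≠ 0 ∧ t + t = 0 ∧ gg = t ∧ A = {0} ∧ B = {0} ∧ Q = {0} ∧ ∀ x, x = 0 ∨ x = t := by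
  have h0A : (0 : C) ∈ A := hQA h0
  have ht0 : t ≠ 0 := by
    intro h
    have := hA1 0 h0A
    rw [h, add_zero] at this
    exact this h0A
  have hAQ : A = Q := by
    apply Set.Subset.antisymm _ hQA
    intro x hx
    rcases hgap x with h | h
    · exact h
    · exfalso
      have := hA1 _ (hQA h)
      rw [sub_add_cancel] at this
      exact this hx
  have h2t : t + t = 0 := by
    apply hstab
    apply stab_of_subset
    intro x hx
    have h1 : x + t ∉ Q := by
      rw [← hAQ]
      exact hA1 x hx
    rcases hgap (x + t + t) with h | h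
    · rw [hAQ, ← add_assoc]
      exact h
    · rw [add_sub_cancel_right] at h
      exact absurd h h1
  have hnt : -t = t := by
    rw [neg_eq_iff_add_eq_zero]
    exact h2t
  have hor : ∀ x, x ∈ A ∨ x + t ∈ A := by
    intro x
    rw [hAQ]
    rcases hgap x with h | h
    · exact Or.inl h
    · right
      rwa [sub_eq_add_neg, hnt] at h
  have hQB : Q ⊆ B := by
    intro x hx
    have := hQQ x hx 0 h0
    rwa [add_zero] at this
  have hBne : ∀ x ∈ B, x + t ∉ B := by
    intro x hx hxt
    have h1 := (hB x).1 hx
    have h2 := (hB _).1 hxt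
    rcases hor (gg - x) with h | h
    · exact h1 h
    · apply h2
      have e : gg - (x + t) = gg - x + t := by
        have : gg - (x + t) = gg - x + -t := by abel
        rw [this, hnt]
      rwa [e]
  have hBQ : B = Q := by
    apply Set.Subset.antisymm _ hQB
    intro x hx
    rcases hor x with h | h
    · rwa [← hAQ]
    · rw [hAQ] at h
      exact absurd (hQB h) (hBne x hx)
  have hadd : ∀ x ∈ A, ∀ y ∈ A, x + y ∈ A := by
    intro x hx y hy
    rw [hAQ] at hx hy ⊢
    have := hQQ x hx y hy
    rwa [hBQ] at this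
  have hA0 : ∀ s ∈ A, s = 0 := by
    intro s hs
    apply hstab
    apply stab_of_subset
    intro x hx
    exact hadd x hx s hs
  have hAs : A = {0} := by
    apply Set.Subset.antisymm
    · intro x hx
      exact hA0 x hx
    · intro x hx
      rw [Set.mem_singleton_iff] at hx
      rw [hx]
      exact h0A
  have hQs : Q = {0} := by rw [← hAQ, hAs]
  have hBs : B = {0} := by rw [hBQ, hQs]
  refine ⟨ht0, h2t, ?_, hAs, hBs, hQs, ?_⟩
  · have htB : t ∉ B := by
      rw [hBs, Set.mem_singleton_iff]
      exact ht0
    have : gg - t ∈ A := by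
      by_contra h
      exact htB ((hB t).2 h)
    rw [hAs, Set.mem_singleton_iff] at this
    exact sub_eq_zero.1 this
  · intro x
    rcases hor x with h | h
    · left
      rw [hAs] at h
      exact h
    · right
      rw [hAs, Set.mem_singleton_iff] at h
      have : x = -t := eq_neg_of_add_eq_zero_left h
      rw [this, hnt]

end MP42948TS
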