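import Pool.Agent.Lib.MP_42948a_nt.TS.SpecB

/-!
# The spectrum of a set which is almost invariant under the quotients of the primes
-/

set_option linter.unusedSectionVars false

namespace Pool.Agent.Lib.MP_42948a_nt.TS

open Finset Pool.Agent.Lib.MP_42948a_nt.OA Pool.Agent.Lib.MP_42948a_nt.TQ Pool.Agent.Lib.MP_42948a_nt.PS
  Pool.Agent.Lib.MP_42948a_nt.TF

variable {d : ℕ} [NeZero d]

/-- the variance -/
private theorem SpA_var (U : Finset ℕ) (h : ℕ → ℂ) (hh : ∀ p ∈ U, Complex.normSq (h p) = 1) (m a b : ℂ)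
    (hm : ((Wt U : ℝ) : ℂ) * m = ∑ p ∈ U, ((1 / (p : ℝ) : ℝ) : ℂ) * h p) :
    ∑ p ∈ U, 1 / (p : ℝ) * Complex.normSq (h p * a - b) =
      Wt U * (Complex.normSq a * (1 - Complex.normSq m) + Complex.normSq (m * a - b)) := by
  have h1 : ∀ p ∈ U, 1 / (p : ℝ) * Complex.normSq (h p * a - b) =
      1 / (p : ℝ) * (Complex.normSq a + Complex.normSq b) -
        2 * ((((1 / (p : ℝ) : ℝ) : ℂ) * h p) * (a * (starRingEnd ℂ) b)).re := by
    intro p hp
    rw [Complex.normSq_sub, Complex.normSq_mul, hh p hp, one_mul]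
    have : (((1 / (p : ℝ) : ℝ) : ℂ) * h p * (a * (starRingEnd ℂ) b)).re = 1 / (p : ℝ) * (h p * a * (starRingEnd ℂ) b).re := by
      rw [mul_assoc, Complex.re_ofReal_mul, ← mul_assoc]
    rw [this]
    ring
  rw [Finset.sum_congr rfl h1, Finset.sum_sub_distrib, ← Finset.sum_mul, ← Finset.mul_sum, ← Complex.re_sum,
    ← Finset.sum_mul, ← hm, Complex.normSq_sub, Complex.normSq_mul]
  have h2 : (((Wt U : ℝ) : ℂ) * m * (a * (starRingEnd ℂ) b)).re = Wt U * (m * a * (starRingEnd ℂ) b).re := by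
    rw [mul_assoc, Complex.re_ofReal_mul, ← mul_assoc]
  rw [h2]
  have h3 : ∑ p ∈ U, 1 / (p : ℝ) = Wt U := rfl
  rw [h3]
  ring

private theorem SpA_Pa (U : Finset ℕ) (hU : ∀ p ∈ U, p.Coprime d) (hW : 0 < Wt U) (χ : DirichletCharacter ℂ d) :
    ((Wt U : ℝ) : ℂ) * Pa U χ = ∑ p ∈ U, ((1 / (p : ℝ) : ℝ) : ℂ) * ev χ (ucl d p) := by
  have h0 : ((Wt U : ℝ) : ℂ) ≠ 0 := by exact_mod_cast hW.ne'
  unfold Pa
  rw [mul_div_cancel₀ _ h0]
  refine Finset.sum_congr rfl fun p hp => ?_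
  unfold ev
  rw [ucl_val (hU p hp)]

private theorem SpA_ev (χ : DirichletCharacter ℂ d) (x : (ZMod d)ˣ) : Complex.normSq (ev χ x) = 1 := by
  rw [← Complex.sq_norm, norm_ev, one_pow]

/-- JOB Spec1. If most `p ∈ U` map `T` almost to the same set `T'`, the Fourier transform of `T` is concentrated on the characters which are
nearly constant on `U`. -/
theorem spec (U Bad : Finset ℕ) (hU : ∀ p ∈ U, p.Coprime d) (hBU : Bad ⊆ U) (hW : 0 < Wt U) {δ e : ℝ} (he : 0 ≤ e)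
    (hBad : Wt Bad ≤ δ * Wt U) (T T' : Set (ZMod d)ˣ)
    (hT : ∀ p ∈ U, p ∉ Bad → mu (symmDiff (tr (ucl d p) T) T') ≤ e) :
    ∑ χ : DirichletCharacter ℂ d, ‖SF (in1 T) χ‖ ^ 2 * (1 - ‖Pa U χ‖ ^ 2) ≤ (Fintype.card (ZMod d)ˣ : ℝ) ^ 2 * (e + δ) := by
  classical
  have hφ : (0 : ℝ) < (Fintype.card (ZMod d)ˣ : ℝ) := by exact_mod_cast Fintype.card_pos
  -- the transform of the difference
  have h1 : ∀ (p : ℕ) (χ : DirichletCharacter ℂ d),
      SF (fun x => in1 (tr (ucl d p) T) x - in1 T' x) χ = (starRingEnd ℂ) (ev χ (ucl d p)) * SF (in1 T) χ - SF (in1 T') χ := by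
    intro p χ
    have h2 : SF (fun x => in1 (tr (ucl d p) T) x) χ = (starRingEnd ℂ) (ev χ (ucl d p)) * SF (in1 T) χ := by
      unfold SF
      rw [Finset.mul_sum]
      refine Fintype.sum_equiv (Equiv.mulRight (ucl d p)⁻¹) _ _ fun x => ?_
      rw [Equiv.coe_mulRight]
      have h3 : in1 (tr (ucl d p) T) x = in1 T (x * (ucl d p)⁻¹) := by
        unfold in1 tr
        by_cases hx : x * (ucl d p)⁻¹ ∈ T
        · rw [Set.indicator_of_mem hx, Set.indicator_of_mem (show x ∈ {x | x * (ucl d p)⁻¹ ∈ T} from hx)]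
        · rw [Set.indicator_of_notMem hx, Set.indicator_of_notMem (show x ∉ {x | x * (ucl d p)⁻¹ ∈ T} from hx)]
      dsimp only
      rw [h3]
      have h4 : (starRingEnd ℂ) (ev χ x) = (starRingEnd ℂ) (ev χ (ucl d p)) * (starRingEnd ℂ) (ev χ (x * (ucl d p)⁻¹)) := by
        rw [← map_mul, ← ev_mul]
        congr 2
        rw [mul_comm, inv_mul_cancel_right]
      rw [h4]
      ring
    rw [← h2]
    unfold SF
    rw [← Finset.sum_sub_distrib]
    refine Finset.sum_congr rfl fun x _ => ?_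
    push_cast
    ring
  have h2 : ∀ p : ℕ, ∑ χ : DirichletCharacter ℂ d, ‖(starRingEnd ℂ) (ev χ (ucl d p)) * SF (in1 T) χ - SF (in1 T') χ‖ ^ 2 =
      (Fintype.card (ZMod d)ˣ : ℝ) ^ 2 * mu (symmDiff (tr (ucl d p) T) T') := by
    intro p
    have h3 := parseval_SF (fun x => in1 (tr (ucl d p) T) x - in1 T' x)
    rw [Finset.sum_congr rfl fun χ _ => by rw [h1 p χ]] at h3
    rw [h3, mu_ind]
    have h4 : ∑ c : (ZMod d)ˣ, (in1 (tr (ucl d p) T) c - in1 T' c) ^ 2 =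
        ∑ c : (ZMod d)ˣ, (symmDiff (tr (ucl d p) T) T').indicator (fun _ => (1 : ℝ)) c := by
      refine Finset.sum_congr rfl fun c _ => ?_
      unfold in1
      by_cases h5 : c ∈ tr (ucl d p) T
      · by_cases h6 : c ∈ T'
        · rw [Set.indicator_of_mem h5, Set.indicator_of_mem h6, Set.indicator_of_notMem]
          · norm_num
          · rintro (h | h)
            · exact h.2 h6
            · exact h.2 h5
        · rw [Set.indicator_of_mem h5, Set.indicator_of_notMem h6, Set.indicator_of_mem (s := symmDiff _ _) (Or.inl ⟨h5, h6⟩)]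
          norm_num
      · by_cases h6 : c ∈ T'
        · rw [Set.indicator_of_notMem h5, Set.indicator_of_mem h6, Set.indicator_of_mem (s := symmDiff _ _) (Or.inr ⟨h6, h5⟩)]
          norm_num
        · rw [Set.indicator_of_notMem h5, Set.indicator_of_notMem h6, Set.indicator_of_notMem]
          · norm_num
          · rintro (h | h)
            · exact h5 h.1
            · exact h6 h.1
    rw [h4]
    field_simp
  -- the average over the primes
  have h3 : ∑ p ∈ U, 1 / (p : ℝ) * ∑ χ : DirichletCharacter ℂ d,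
      ‖(starRingEnd ℂ) (ev χ (ucl d p)) * SF (in1 T) χ - SF (in1 T') χ‖ ^ 2 ≤ Wt U * ((Fintype.card (ZMod d)ˣ : ℝ) ^ 2 * (e + δ)) := by
    have h4 : ∀ p ∈ U, 1 / (p : ℝ) * ∑ χ : DirichletCharacter ℂ d,
        ‖(starRingEnd ℂ) (ev χ (ucl d p)) * SF (in1 T) χ - SF (in1 T') χ‖ ^ 2 ≤
        (Fintype.card (ZMod d)ˣ : ℝ) ^ 2 * (1 / (p : ℝ) * e) +
          (Fintype.card (ZMod d)ˣ : ℝ) ^ 2 * (if p ∈ Bad then 1 / (p : ℝ) else 0) := by
      intro p hp
      rw [h2]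
      have hp0 : (0 : ℝ) ≤ 1 / (p : ℝ) := by positivity
      have hmu1 : mu (symmDiff (tr (ucl d p) T) T') ≤ 1 := by
        unfold mu
        rw [div_le_one hφ]
        have := Set.ncard_le_card (symmDiff (tr (ucl d p) T) T')
        rw [Nat.card_eq_fintype_card] at this
        exact_mod_cast this
      by_cases hb : p ∈ Bad
      · rw [if_pos hb]
        have h5 := mul_le_mul_of_nonneg_left hmu1 (show 0 ≤ 1 / (p : ℝ) * (Fintype.card (ZMod d)ˣ : ℝ) ^ 2 by positivity)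
        have h6 : 0 ≤ (Fintype.card (ZMod d)ˣ : ℝ) ^ 2 * (1 / (p : ℝ) * e) := by positivity
        linarith
      · rw [if_neg hb, mul_zero, add_zero]
        have h5 := mul_le_mul_of_nonneg_left (hT p hp hb) (show 0 ≤ 1 / (p : ℝ) * (Fintype.card (ZMod d)ˣ : ℝ) ^ 2 by positivity)
        linarith
    refine (Finset.sum_le_sum h4).trans ?_
    rw [Finset.sum_add_distrib, ← Finset.mul_sum, ← Finset.mul_sum, ← Finset.sum_mul, ← Finset.sum_filter]
    have h5 : U.filter (fun p => p ∈ Bad) = Bad := by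
      ext p
      rw [Finset.mem_filter]
      exact ⟨fun h => h.2, fun h => ⟨hBU h, h⟩⟩
    have h6 : ∑ p ∈ U, 1 / (p : ℝ) = Wt U := rfl
    have h7 : ∑ p ∈ Bad, 1 / (p : ℝ) = Wt Bad := rfl
    rw [h5, h6, h7]
    have h8 := mul_le_mul_of_nonneg_left hBad (show 0 ≤ (Fintype.card (ZMod d)ˣ : ℝ) ^ 2 by positivity)
    linarith
  -- every character
  have h4 : ∀ χ : DirichletCharacter ℂ d, Wt U * (‖SF (in1 T) χ‖ ^ 2 * (1 - ‖Pa U χ‖ ^ 2)) ≤
      ∑ p ∈ U, 1 / (p : ℝ) * ‖(starRingEnd ℂ) (ev χ (ucl d p)) * SF (in1 T) χ - SF (in1 T') χ‖ ^ 2 := by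
    intro χ
    have h5 := SpA_var U (fun p => (starRingEnd ℂ) (ev χ (ucl d p))) (fun p _ => by
      rw [Complex.normSq_conj, SpA_ev]) ((starRingEnd ℂ) (Pa U χ)) (SF (in1 T) χ) (SF (in1 T') χ) (by
      have h6 := congrArg (starRingEnd ℂ) (SpA_Pa U hU hW χ)
      rw [map_mul, Complex.conj_ofReal, map_sum] at h6
      rw [h6]
      refine Finset.sum_congr rfl fun p _ => ?_
      rw [map_mul, Complex.conj_ofReal])
    rw [Complex.normSq_conj] at h5
    simp only [← Complex.sq_norm] at h5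
    rw [h5]
    refine mul_le_mul_of_nonneg_left ?_ hW.le
    have := sq_nonneg ‖(starRingEnd ℂ) (Pa U χ) * SF (in1 T) χ - SF (in1 T') χ‖
    linarith
  have h5 : Wt U * ∑ χ : DirichletCharacter ℂ d, ‖SF (in1 T) χ‖ ^ 2 * (1 - ‖Pa U χ‖ ^ 2) ≤
      Wt U * ((Fintype.card (ZMod d)ˣ : ℝ) ^ 2 * (e + δ)) := by
    refine le_trans ?_ h3
    rw [Finset.mul_sum]
    refine (Finset.sum_le_sum fun χ _ => h4 χ).trans (le_of_eq ?_)
    rw [Finset.sum_comm]
    exact Finset.sum_congr rfl fun p _ => by rw [Finset.mul_sum]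
  exact le_of_mul_le_mul_left h5 hW

/-- JOB Spec2. The distance to the constants of a product of two characters. -/
theorem dist_mul (U : Finset ℕ) (hU : ∀ p ∈ U, p.Coprime d) (hW : 0 < Wt U) (χ ψ : DirichletCharacter ℂ d) :
    1 - ‖Pa U (χ * ψ)‖ ^ 2 ≤ 2 * (1 - ‖Pa U χ‖ ^ 2) + 2 * (1 - ‖Pa U ψ‖ ^ 2) := by
  have hv : ∀ (ξ : DirichletCharacter ℂ d) (c : ℂ), ∑ p ∈ U, 1 / (p : ℝ) * Complex.normSq (ev ξ (ucl d p) - c) =
      Wt U * ((1 - ‖Pa U ξ‖ ^ 2) + Complex.normSq (Pa U ξ - c)) := by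
    intro ξ c
    have h := SpA_var U (fun p => ev ξ (ucl d p)) (fun p _ => SpA_ev ξ _) (Pa U ξ) 1 c (SpA_Pa U hU hW ξ)
    rw [Complex.normSq_one, one_mul] at h
    simp only [mul_one] at h
    rw [h, Complex.sq_norm]
  have h1 := hv (χ * ψ) (Pa U χ * Pa U ψ)
  have h2 := hv χ (Pa U χ)
  have h3 := hv ψ (Pa U ψ)
  rw [sub_self, Complex.normSq_zero, add_zero] at h2 h3
  have hb : Complex.normSq (Pa U ψ) ≤ 1 := by
    rw [← Complex.sq_norm]
    exact pow_le_one₀ (norm_nonneg _) (norm_Pa_le U ψ)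
  have h4 : ∀ p ∈ U, 1 / (p : ℝ) * Complex.normSq (ev (χ * ψ) (ucl d p) - Pa U χ * Pa U ψ) ≤
      2 * (1 / (p : ℝ) * Complex.normSq (ev χ (ucl d p) - Pa U χ)) + 2 * (1 / (p : ℝ) * Complex.normSq (ev ψ (ucl d p) - Pa U ψ)) := by
    intro p _
    have h5 : Complex.normSq (ev (χ * ψ) (ucl d p) - Pa U χ * Pa U ψ) ≤
        2 * Complex.normSq (ev χ (ucl d p) - Pa U χ) + 2 * Complex.normSq (ev ψ (ucl d p) - Pa U ψ) := by
      have h6 : ev (χ * ψ) (ucl d p) - Pa U χ * Pa U ψ =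
          ev χ (ucl d p) * (ev ψ (ucl d p) - Pa U ψ) + Pa U ψ * (ev χ (ucl d p) - Pa U χ) := by
        rw [ev_mul_char]
        ring
      have h7 : ∀ z w : ℂ, Complex.normSq (z + w) ≤ 2 * Complex.normSq z + 2 * Complex.normSq w := by
        intro z w
        rw [Complex.normSq_apply, Complex.normSq_apply, Complex.normSq_apply, Complex.add_re, Complex.add_im]
        nlinarith [sq_nonneg (z.re - w.re), sq_nonneg (z.im - w.im)]
      rw [h6]
      refine (h7 _ _).trans ?_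
      rw [Complex.normSq_mul, Complex.normSq_mul, SpA_ev, one_mul]
      have h8 : Complex.normSq (Pa U ψ) * Complex.normSq (ev χ (ucl d p) - Pa U χ) ≤ 1 * Complex.normSq (ev χ (ucl d p) - Pa U χ) :=
        mul_le_mul_of_nonneg_right hb (Complex.normSq_nonneg _)
      linarith
    have h6 := mul_le_mul_of_nonneg_left h5 (show (0 : ℝ) ≤ 1 / (p : ℝ) by positivity)
    linarith
  have h5 := Finset.sum_le_sum h4
  rw [Finset.sum_add_distrib, ← Finset.mul_sum, ← Finset.mul_sum, h1, h2, h3] at h5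
  have h6 : Wt U * (1 - ‖Pa U (χ * ψ)‖ ^ 2) ≤ Wt U * (2 * (1 - ‖Pa U χ‖ ^ 2) + 2 * (1 - ‖Pa U ψ‖ ^ 2)) := by
    have h7 := mul_nonneg hW.le (Complex.normSq_nonneg (Pa U (χ * ψ) - Pa U χ * Pa U ψ))
    linarith
  exact le_of_mul_le_mul_left h6 hW

open Classical in
/-- JOB Spec2. The characters nearly constant on `U` form a group for a suitable radius. -/
theorem char_group (U : Finset ℕ) (hU : ∀ p ∈ U, p.Coprime d) (hW : 0 < Wt U) (M : ℕ) {r0 : ℝ} (hr0 : 0 < r0)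
    (hM : ((univ : Finset (DirichletCharacter ℂ d)).filter (fun χ => 1 - ‖Pa U χ‖ ^ 2 ≤ r0)).card ≤ M) :
    ∃ (H : Subgroup (DirichletCharacter ℂ d)) (r : ℝ), r0 / 4 ^ M ≤ r ∧ r ≤ r0 ∧ (∀ χ ∈ H, 1 - ‖Pa U χ‖ ^ 2 ≤ r0) ∧
      (∀ χ, χ ∉ H → r < 1 - ‖Pa U χ‖ ^ 2) ∧ ((univ : Finset (DirichletCharacter ℂ d)).filter (fun χ => χ ∈ H)).card ≤ M := by
  obtain ⟨N, hN⟩ : ∃ N : ℕ → Finset (DirichletCharacter ℂ d),
      N = fun i => (univ : Finset (DirichletCharacter ℂ d)).filter (fun χ => 1 - ‖Pa U χ‖ ^ 2 ≤ r0 / 4 ^ i) := ⟨_, rfl⟩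
  have hmem : ∀ i χ, χ ∈ N i ↔ 1 - ‖Pa U χ‖ ^ 2 ≤ r0 / 4 ^ i := by
    intro i χ
    rw [hN]
    simp only [Finset.mem_filter, Finset.mem_univ, true_and]
  have hN0 : (N 0).card ≤ M := by
    have h1 : N 0 = (univ : Finset (DirichletCharacter ℂ d)).filter (fun χ => 1 - ‖Pa U χ‖ ^ 2 ≤ r0) := by
      rw [hN]
      dsimp only
      rw [pow_zero, div_one]
    rw [h1]
    exact hM
  have hPa1 : Pa U (1 : DirichletCharacter ℂ d) = 1 := by
    have h1 := SpA_Pa U hU hW (1 : DirichletCharacter ℂ d)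
    have h2 : ∑ p ∈ U, ((1 / (p : ℝ) : ℝ) : ℂ) * ev (1 : DirichletCharacter ℂ d) (ucl d p) = ((Wt U : ℝ) : ℂ) := by
      unfold Wt
      rw [Complex.ofReal_sum]
      refine Finset.sum_congr rfl fun p _ => ?_
      have h3 : ev (1 : DirichletCharacter ℂ d) (ucl d p) = 1 := by
        unfold ev
        exact MulChar.one_apply_coe _
      rw [h3, mul_one]
    rw [h2] at h1
    have h0 : ((Wt U : ℝ) : ℂ) ≠ 0 := by exact_mod_cast hW.ne'
    exact mul_left_cancel₀ h0 (by rw [h1, mul_one])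
  have h1N : ∀ i, (1 : DirichletCharacter ℂ d) ∈ N i := by
    intro i
    rw [hmem, hPa1, norm_one, one_pow, sub_self]
    positivity
  have hsub : ∀ i, N (i + 1) ⊆ N i := by
    intro i χ hχ
    rw [hmem] at hχ ⊢
    refine hχ.trans ?_
    rw [pow_succ]
    exact div_le_div_of_nonneg_left hr0.le (by positivity) (by
      have : (0 : ℝ) < 4 ^ i := by positivity
      linarith)
  obtain ⟨i, hi, hNi⟩ : ∃ i, i < M ∧ N (i + 1) = N i := by
    by_contra hcon
    push Not at hcon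
    have h1 : ∀ i, i ≤ M → (N i).card + i ≤ M := by
      intro i
      induction i with
      | zero =>
        intro _
        simpa using hN0
      | succ i ih =>
        intro h2
        have h3 := ih (by omega)
        have h4 : (N (i + 1)).card < (N i).card :=
          Finset.card_lt_card (Finset.ssubset_iff_subset_ne.2 ⟨hsub i, hcon i (by omega)⟩)
        omega
    have h2 := h1 M le_rfl
    have h3 : 0 < (N M).card := Finset.card_pos.2 ⟨1, h1N M⟩
    omega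
  have hinv : ∀ χ : DirichletCharacter ℂ d, ‖Pa U χ⁻¹‖ = ‖Pa U χ‖ := by
    intro χ
    have h1 : Pa U χ⁻¹ = (starRingEnd ℂ) (Pa U χ) := by
      have h2 := SpA_Pa U hU hW χ⁻¹
      have h3 := congrArg (starRingEnd ℂ) (SpA_Pa U hU hW χ)
      rw [map_mul, Complex.conj_ofReal, map_sum] at h3
      have h4 : ∑ p ∈ U, ((1 / (p : ℝ) : ℝ) : ℂ) * ev χ⁻¹ (ucl d p) =
          ∑ p ∈ U, (starRingEnd ℂ) (((1 / (p : ℝ) : ℝ) : ℂ) * ev χ (ucl d p)) := by
        refine Finset.sum_congr rfl fun p _ => ?_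
        rw [map_mul, Complex.conj_ofReal, conj_ev']
      rw [h4, ← h3] at h2
      have h0 : ((Wt U : ℝ) : ℂ) ≠ 0 := by exact_mod_cast hW.ne'
      exact mul_left_cancel₀ h0 h2
    rw [h1, RCLike.norm_conj]
  refine ⟨{ carrier := {χ | χ ∈ N i}
            one_mem' := h1N i
            mul_mem' := ?_
            inv_mem' := ?_ }, r0 / 4 ^ i, ?_, ?_, ?_, ?_, ?_⟩
  · intro χ ψ hχ hψ
    have h1 : χ ∈ N (i + 1) := by rw [hNi]; exact hχ
    have h2 : ψ ∈ N (i + 1) := by rw [hNi]; exact hψ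
    rw [hmem] at h1 h2
    show χ * ψ ∈ N i
    rw [hmem]
    refine (dist_mul U hU hW χ ψ).trans ?_
    have h3 : r0 / 4 ^ i = 4 * (r0 / 4 ^ (i + 1)) := by
      rw [pow_succ]
      field_simp
    rw [h3]
    linarith
  · intro χ hχ
    show χ⁻¹ ∈ N i
    rw [hmem, hinv]
    exact (hmem i χ).1 hχ
  · exact div_le_div_of_nonneg_left hr0.le (by positivity) (pow_le_pow_right₀ (by norm_num) hi.le)
  · exact div_le_self hr0.le (one_le_pow₀ (by norm_num))
  · intro χ hχ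
    refine ((hmem i χ).1 hχ).trans (div_le_self hr0.le (one_le_pow₀ (by norm_num)))
  · intro χ hχ
    by_contra hcon
    rw [not_lt] at hcon
    exact hχ ((hmem i χ).2 hcon)
  · refine le_trans ?_ hN0
    refine Finset.card_le_card ?_
    intro χ hχ
    have h1 : χ ∈ N i := (Finset.mem_filter.1 hχ).2
    rw [hmem] at h1 ⊢
    rw [pow_zero, div_one]
    exact h1.trans (div_le_self hr0.le (one_le_pow₀ (by norm_num)))

end Pool.Agent.Lib.MP_42948a_nt.TS
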