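import Pool.Agent.Lib.MP_42948a_nt.TS.Thr
import Pool.Agent.Lib.MP_42948a_nt.PS.A1
import Pool.Agent.Lib.MP_42948a_nt.PS.C3

/-!
# The main class and the approximation by unions of cosets
-/

set_option linter.unusedSectionVars false

namespace Pool.Agent.Lib.MP_42948a_nt.TS

open Finset Pool.Agent.Lib.MP_42948a_nt.OA Pool.Agent.Lib.MP_42948a_nt.TQ Pool.Agent.Lib.MP_42948a_nt.PS
  Pool.Agent.Lib.MP_42948a_nt.TF

variable {d : ℕ} [NeZero d]

open Classical in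
/-- the mass of the class `x` -/
private noncomputable def SpB_f (U : Finset ℕ) (x : (ZMod d)ˣ) : ℝ := ∑ p ∈ U.filter (fun p => ucl d p = x), 1 / (p : ℝ)

private theorem SpB_nonneg (U : Finset ℕ) (x : (ZMod d)ˣ) : 0 ≤ SpB_f U x := by
  unfold SpB_f
  exact Finset.sum_nonneg fun p _ => by positivity

open Classical in
private theorem SpB_sum (U : Finset ℕ) (P : (ZMod d)ˣ → Prop) :
    ∑ x ∈ univ.filter P, SpB_f U x = ∑ p ∈ U.filter (fun p => P (ucl d p)), 1 / (p : ℝ) := by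
  unfold SpB_f
  have h1 : ∀ x ∈ (univ : Finset (ZMod d)ˣ).filter P, ∑ p ∈ U.filter (fun p => ucl d p = x), 1 / (p : ℝ) =
      ∑ p ∈ (U.filter (fun p => P (ucl d p))).filter (fun p => ucl d p = x), 1 / (p : ℝ) := by
    intro x hx
    refine Finset.sum_congr ?_ fun _ _ => rfl
    ext p
    simp only [Finset.mem_filter]
    constructor
    · rintro ⟨a, b⟩
      exact ⟨⟨a, by rw [b]; exact (Finset.mem_filter.1 hx).2⟩, b⟩
    · rintro ⟨⟨a, _⟩, b⟩
      exact ⟨a, b⟩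
  rw [Finset.sum_congr rfl h1]
  refine Finset.sum_fiberwise_of_maps_to (g := fun p : ℕ => ucl d p) ?_ _
  intro p hp
  exact Finset.mem_filter.2 ⟨Finset.mem_univ _, (Finset.mem_filter.1 hp).2⟩

private theorem SpB_SF (U : Finset ℕ) (hU : ∀ p ∈ U, p.Coprime d) (hW : 0 < Wt U) (χ : DirichletCharacter ℂ d) :
    ‖SF (SpB_f U) χ‖ = Wt U * ‖Pa U χ‖ := by
  classical
  have h1 : SF (SpB_f U) χ = ∑ p ∈ U, ((1 / (p : ℝ) : ℝ) : ℂ) * (starRingEnd ℂ) (ev χ (ucl d p)) := by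
    unfold SF SpB_f
    rw [← Finset.sum_fiberwise_of_maps_to (s := U) (t := (univ : Finset (ZMod d)ˣ)) (g := fun p : ℕ => ucl d p)
      (fun p _ => Finset.mem_univ _) (fun p => ((1 / (p : ℝ) : ℝ) : ℂ) * (starRingEnd ℂ) (ev χ (ucl d p)))]
    refine Finset.sum_congr rfl fun x _ => ?_
    rw [Complex.ofReal_sum, Finset.sum_mul]
    refine Finset.sum_congr rfl fun p hp => ?_
    rw [(Finset.mem_filter.1 hp).2]
  have h2 : SF (SpB_f U) χ = (starRingEnd ℂ) (((Wt U : ℝ) : ℂ) * Pa U χ) := by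
    have h0 : ((Wt U : ℝ) : ℂ) ≠ 0 := by exact_mod_cast hW.ne'
    rw [h1]
    unfold Pa
    rw [mul_div_cancel₀ _ h0, map_sum]
    refine Finset.sum_congr rfl fun p hp => ?_
    rw [map_mul, Complex.conj_ofReal]
    unfold ev
    rw [ucl_val (hU p hp)]
  rw [h2, RCLike.norm_conj, norm_mul, Complex.norm_real, Real.norm_eq_abs, abs_of_pos hW]

/-- JOB Spec3. The main class. Proof: `f x = ∑_{p ∈ U, ucl d p = x} 1/p`; `SF f χ = conj (Wt U * Pa U χ)`, `∑ f = Wt U`. By `coset_mass_sum`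
`(Wt U)^2 ∑_{χ ∈ H} ‖Pa U χ‖^2 = |H| ∑_c f c F c`, `F c = ∑_{c' : c⁻¹ c' ∈ perp H} f c'`; the left side is `≥ |H| (1 - ρ) (Wt U)^2`, so there is `c`
with `f c ≠ 0`, `F c ≥ (1 - ρ) Wt U`. -/
theorem main_class (U : Finset ℕ) (hU : ∀ p ∈ U, p.Coprime d) (hW : 0 < Wt U) (H : Subgroup (DirichletCharacter ℂ d)) {ρ : ℝ}
    (hH : ∀ χ ∈ H, 1 - ‖Pa U χ‖ ^ 2 ≤ ρ) :
    ∃ t : (ZMod d)ˣ, Wt (open Classical in U.filter (fun p => t⁻¹ * ucl d p ∉ perp H)) ≤ ρ * Wt U := by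
  classical
  have hall : ∑ x : (ZMod d)ˣ, SpB_f U x = Wt U := by
    have h := SpB_sum (d := d) U (fun _ => True)
    rw [Finset.filter_true, Finset.filter_true] at h
    exact h
  obtain ⟨n, hn⟩ : ∃ n : ℝ, n = (((univ : Finset (DirichletCharacter ℂ d)).filter (fun χ => χ ∈ H)).card : ℝ) := ⟨_, rfl⟩
  have hn0 : 0 < n := by
    rw [hn]
    have : 0 < ((univ : Finset (DirichletCharacter ℂ d)).filter (fun χ => χ ∈ H)).card :=
      Finset.card_pos.2 ⟨1, Finset.mem_filter.2 ⟨Finset.mem_univ _, H.one_mem⟩⟩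
    exact_mod_cast this
  have hm := coset_mass_sum H (SpB_f (d := d) U)
  rw [← hn] at hm
  have hlow : n * ((1 - ρ) * Wt U ^ 2) ≤
      ∑ χ ∈ (univ : Finset (DirichletCharacter ℂ d)).filter (fun χ => χ ∈ H), ‖SF (SpB_f U) χ‖ ^ 2 := by
    rw [hn, ← nsmul_eq_mul, ← Finset.sum_const]
    refine Finset.sum_le_sum fun χ hχ => ?_
    rw [SpB_SF U hU hW, mul_pow]
    have := hH χ (Finset.mem_filter.1 hχ).2
    have h2 : 0 ≤ Wt U ^ 2 := sq_nonneg _
    nlinarith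
  rw [hm] at hlow
  have h3 := le_of_mul_le_mul_left hlow hn0
  obtain ⟨c, hc⟩ : ∃ c : (ZMod d)ˣ, (1 - ρ) * Wt U ≤
      ∑ c' ∈ (univ : Finset (ZMod d)ˣ).filter (fun c' => c⁻¹ * c' ∈ perp H), SpB_f U c' := by
    by_contra hcon
    push Not at hcon
    obtain ⟨c1, hc1⟩ : ∃ c, 0 < SpB_f (d := d) U c := by
      by_contra hc
      push Not at hc
      have : Wt U ≤ 0 := by
        rw [← hall]
        exact Finset.sum_nonpos fun c _ => hc c
      linarith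
    have h4 : ∑ c, SpB_f U c * ∑ c' ∈ (univ : Finset (ZMod d)ˣ).filter (fun c' => c⁻¹ * c' ∈ perp H), SpB_f U c' <
        ∑ c : (ZMod d)ˣ, SpB_f U c * ((1 - ρ) * Wt U) :=
      Finset.sum_lt_sum (fun c _ => mul_le_mul_of_nonneg_left (hcon c).le (SpB_nonneg U c))
        ⟨c1, Finset.mem_univ _, mul_lt_mul_of_pos_left (hcon c1) hc1⟩
    rw [← Finset.sum_mul, hall] at h4
    nlinarith
  refine ⟨c, ?_⟩
  rw [SpB_sum U (fun c' => c⁻¹ * c' ∈ perp H)] at hc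
  have h5 : ∑ p ∈ U.filter (fun p => c⁻¹ * ucl d p ∈ perp H), 1 / (p : ℝ) +
      ∑ p ∈ U.filter (fun p => ¬ c⁻¹ * ucl d p ∈ perp H), 1 / (p : ℝ) = Wt U :=
    Finset.sum_filter_add_sum_filter_not U (fun p => c⁻¹ * ucl d p ∈ perp H) _
  have h6 : Wt (U.filter (fun p => c⁻¹ * ucl d p ∉ perp H)) =
      ∑ p ∈ U.filter (fun p => ¬ c⁻¹ * ucl d p ∈ perp H), 1 / (p : ℝ) := rfl
  rw [h6]
  linarith

/-- the indicator function of a set -/
noncomputable def in1 (A : Set (ZMod d)ˣ) (x : (ZMod d)ˣ) : ℝ := A.indicator (fun _ => (1 : ℝ)) x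

open Classical in
/-- JOB Spec4. A set whose Fourier transform is concentrated on `H` is almost a union of cosets of `perp H`. -/
theorem approx (H : Subgroup (DirichletCharacter ℂ d)) (T : Set (ZMod d)ˣ) {ε : ℝ}
    (hT : ∑ χ ∈ (univ : Finset (DirichletCharacter ℂ d)).filter (fun χ => χ ∉ H), ‖SF (in1 T) χ‖ ^ 2 ≤
      (Fintype.card (ZMod d)ˣ : ℝ) ^ 2 * ε) :
    ∃ A : Set ((ZMod d)ˣ ⧸ perp H), mu (symmDiff T {x | (x : (ZMod d)ˣ ⧸ perp H) ∈ A}) ≤ 4 * ε := by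
  have hφ : (0 : ℝ) < (Fintype.card (ZMod d)ˣ : ℝ) := by exact_mod_cast Fintype.card_pos
  obtain ⟨n, hn⟩ : ∃ n : ℝ, n = (((univ : Finset (DirichletCharacter ℂ d)).filter (fun χ => χ ∈ H)).card : ℝ) := ⟨_, rfl⟩
  obtain ⟨g, hg⟩ : ∃ g : (ZMod d)ˣ → ℝ, g = fun x => n / (Fintype.card (ZMod d)ˣ : ℝ) *
      ∑ y ∈ (univ : Finset (ZMod d)ˣ).filter (fun y => y⁻¹ * x ∈ perp H), in1 T y := ⟨_, rfl⟩
  -- the part of the expansion on `H`
  have hpart : ∀ x, ∑ χ ∈ (univ : Finset (DirichletCharacter ℂ d)).filter (fun χ => χ ∈ H), SF (in1 T) χ * ev χ x =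
      (((Fintype.card (ZMod d)ˣ : ℝ) * g x : ℝ) : ℂ) := by
    intro x
    have h1 : ∀ χ : DirichletCharacter ℂ d, SF (in1 T) χ * ev χ x = ∑ y : (ZMod d)ˣ, (in1 T y : ℂ) * ev χ (y⁻¹ * x) := by
      intro χ
      unfold SF
      rw [Finset.sum_mul]
      refine Finset.sum_congr rfl fun y _ => ?_
      rw [ev_mul, conj_ev, mul_assoc]
    rw [Finset.sum_congr rfl fun χ _ => h1 χ, Finset.sum_comm]
    have h2 : ∀ y : (ZMod d)ˣ, ∑ χ ∈ (univ : Finset (DirichletCharacter ℂ d)).filter (fun χ => χ ∈ H),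
        (in1 T y : ℂ) * ev χ (y⁻¹ * x) = if y⁻¹ * x ∈ perp H then ((in1 T y * n : ℝ) : ℂ) else 0 := by
      intro y
      rw [← Finset.mul_sum, perp_sum]
      split_ifs with h
      · rw [hn]
        push_cast
        rfl
      · rw [mul_zero]
    rw [Finset.sum_congr rfl fun y _ => h2 y, ← Finset.sum_filter, ← Complex.ofReal_sum]
    congr 1
    rw [hg]
    dsimp only
    rw [← Finset.sum_mul]
    field_simp
  have hdiff : ∀ x, ∑ χ ∈ (univ : Finset (DirichletCharacter ℂ d)).filter (fun χ => χ ∉ H), SF (in1 T) χ * ev χ x =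
      (((Fintype.card (ZMod d)ˣ : ℝ) * (in1 T x - g x) : ℝ) : ℂ) := by
    intro x
    have h1 := inversion (in1 T) x
    have h2 := Finset.sum_filter_add_sum_filter_not (univ : Finset (DirichletCharacter ℂ d)) (fun χ => χ ∈ H)
      (fun χ => SF (in1 T) χ * ev χ x)
    rw [h1, hpart] at h2
    have h3 : ∑ χ ∈ (univ : Finset (DirichletCharacter ℂ d)).filter (fun χ => χ ∉ H), SF (in1 T) χ * ev χ x =
        (Fintype.card (ZMod d)ˣ : ℂ) * (in1 T x : ℂ) - (((Fintype.card (ZMod d)ˣ : ℝ) * g x : ℝ) : ℂ) := by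
      rw [← h2]
      ring
    rw [h3]
    push_cast
    ring
  have hpars := parseval_dual ((univ : Finset (DirichletCharacter ℂ d)).filter (fun χ => χ ∉ H)) (fun χ => SF (in1 T) χ)
  have h1 : ∀ x : (ZMod d)ˣ, ‖∑ χ ∈ (univ : Finset (DirichletCharacter ℂ d)).filter (fun χ => χ ∉ H), SF (in1 T) χ * ev χ x‖ ^ 2 =
      (Fintype.card (ZMod d)ˣ : ℝ) ^ 2 * (in1 T x - g x) ^ 2 := by
    intro x
    rw [hdiff, Complex.norm_real, Real.norm_eq_abs, sq_abs, mul_pow]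
  rw [Finset.sum_congr rfl fun x _ => h1 x, ← Finset.mul_sum] at hpars
  have h2 : ∑ x : (ZMod d)ˣ, (in1 T x - g x) ^ 2 ≤ (Fintype.card (ZMod d)ˣ : ℝ) * ε := by
    have h3 := mul_le_mul_of_nonneg_left hT hφ.le
    rw [← hpars] at h3
    have h4 : (Fintype.card (ZMod d)ˣ : ℝ) * ((Fintype.card (ZMod d)ˣ : ℝ) ^ 2 * ε) =
        (Fintype.card (ZMod d)ˣ : ℝ) ^ 2 * ((Fintype.card (ZMod d)ˣ : ℝ) * ε) := by ring
    rw [h4] at h3
    exact le_of_mul_le_mul_left h3 (by positivity)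
  -- invariance
  have hinv : ∀ x y : (ZMod d)ˣ, (x : (ZMod d)ˣ ⧸ perp H) = y → g x = g y := by
    intro x y hxy
    have hxy' : x⁻¹ * y ∈ perp H := QuotientGroup.eq.1 hxy
    rw [hg]
    dsimp only
    congr 1
    refine Finset.sum_congr ?_ fun _ _ => rfl
    refine Finset.filter_congr fun z _ => ?_
    constructor
    · intro h
      have := (perp H).mul_mem h hxy'
      rwa [mul_assoc, mul_inv_cancel_left] at this
    · intro h
      have := (perp H).mul_mem h ((perp H).inv_mem hxy')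
      rwa [mul_inv_rev, inv_inv, mul_assoc, mul_inv_cancel_left] at this
  refine ⟨{q | ∃ x : (ZMod d)ˣ, (x : (ZMod d)ˣ ⧸ perp H) = q ∧ 1 / 2 ≤ g x}, ?_⟩
  have hset : {x : (ZMod d)ˣ | (x : (ZMod d)ˣ ⧸ perp H) ∈ {q | ∃ x : (ZMod d)ˣ, (x : (ZMod d)ˣ ⧸ perp H) = q ∧ 1 / 2 ≤ g x}} =
      {x | 1 / 2 ≤ g x} := by
    ext x
    simp only [Set.mem_setOf_eq]
    constructor
    · rintro ⟨y, h1, h2⟩
      rwa [hinv y x h1] at h2
    · intro h
      exact ⟨x, rfl, h⟩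
  rw [hset, mu_ind, div_le_iff₀ hφ]
  have h3 : ∀ x : (ZMod d)ˣ, (symmDiff T {x | 1 / 2 ≤ g x}).indicator (fun _ => (1 : ℝ)) x ≤ 4 * (in1 T x - g x) ^ 2 := by
    intro x
    unfold in1
    by_cases hx : x ∈ T
    · by_cases hy : 1 / 2 ≤ g x
      · rw [Set.indicator_of_notMem]
        · positivity
        · rintro (h | h)
          · exact h.2 hy
          · exact h.2 hx
      · rw [Set.indicator_of_mem (s := symmDiff T _) (Or.inl ⟨hx, hy⟩), Set.indicator_of_mem hx]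
        rw [not_le] at hy
        nlinarith
    · by_cases hy : 1 / 2 ≤ g x
      · rw [Set.indicator_of_mem (s := symmDiff T _) (Or.inr ⟨hy, hx⟩), Set.indicator_of_notMem hx]
        nlinarith
      · rw [Set.indicator_of_notMem]
        · positivity
        · rintro (h | h)
          · exact hx h.1
          · exact hy h.1
  refine (Finset.sum_le_sum fun x _ => h3 x).trans ?_
  rw [← Finset.mul_sum]
  nlinarith

end Pool.Agent.Lib.MP_42948a_nt.TS
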