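import Pool.Agent.Lib.MP_42948a_nt.TS.Blk
import Pool.Agent.Lib.MP_42948a_nt.TS.Rel

/-!
# First step: the relations of the threshold sets for one modulus
-/

set_option linter.unusedSectionVars false

namespace Pool.Agent.Lib.MP_42948a_nt.TS

open Finset Pool.Agent.Lib.MP_42948a_nt.OA Pool.Agent.Lib.MP_42948a_nt.TQ Pool.Agent.Lib.MP_42948a_nt.PS
  Pool.Agent.Lib.MP_42948a_nt.TF

/-- the class `z` contains no `n ≤ d ^ E` which is a product of exactly `K` primes, all `> d ^ c` -/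
def Unr (d : ℕ) (E c : ℝ) (K : ℕ) (z : (ZMod d)ˣ) : Prop :=
  ∀ n : ℕ, (n : ℝ) ≤ (d : ℝ) ^ E → Rough ⌊(d : ℝ) ^ c⌋₊ n → ArithmeticFunction.cardFactors n = K → (n : ZMod d) ≠ (z : ZMod d)

theorem unr_mono {d : ℕ} (hd : 1 ≤ d) {E E' c c' : ℝ} (hE : E' ≤ E) (hc : c ≤ c') {K : ℕ} {z : (ZMod d)ˣ} (h : Unr d E c K z) :
    Unr d E' c' K z := by
  have hd1 : (1 : ℝ) ≤ d := by exact_mod_cast hd
  intro n hn hr hK
  refine h n (hn.trans (Real.rpow_le_rpow_of_exponent_le hd1 hE)) ⟨hr.1, fun p hp hpn => ?_⟩ hK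
  exact lt_of_le_of_lt (Nat.floor_le_floor (Real.rpow_le_rpow_of_exponent_le hd1 hc)) (hr.2 p hp hpn)

theorem prod_mem {d : ℕ} (hd : 1 ≤ d) {α a a' b b' E : ℝ} (hE : 2 * α + a' + b' ≤ E) {i j p m n : ℕ} (hp : p ∈ PW d α (2 * α))
    (hm : m ∈ EW d α i a a') (hn : n ∈ EW d α j b b') :
    ((p * (m * n) : ℕ) : ℝ) ≤ (d : ℝ) ^ E ∧ Rough ⌊(d : ℝ) ^ α⌋₊ (p * (m * n)) ∧
      ArithmeticFunction.cardFactors (p * (m * n)) = i + j + 1 := by
  have hd0 : (0 : ℝ) < d := by exact_mod_cast hd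
  have hd1 : (1 : ℝ) ≤ d := by exact_mod_cast hd
  obtain ⟨h1, h2, h3, _⟩ := mem_PW.1 hp
  obtain ⟨⟨_, h4⟩, h5, _, h6⟩ := mem_EW.1 hm
  obtain ⟨⟨_, h7⟩, h8, _, h9⟩ := mem_EW.1 hn
  have e1 : (p : ℝ) ≤ (d : ℝ) ^ (2 * α) := (Nat.le_floor_iff (Real.rpow_nonneg hd0.le _)).1 h3
  have e2 : (m : ℝ) ≤ (d : ℝ) ^ a' := (Nat.le_floor_iff (Real.rpow_nonneg hd0.le _)).1 h4
  have e3 : (n : ℝ) ≤ (d : ℝ) ^ b' := (Nat.le_floor_iff (Real.rpow_nonneg hd0.le _)).1 h7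
  have hpR : Rough ⌊(d : ℝ) ^ α⌋₊ p := by
    refine ⟨h1.pos, fun q hq hqp => ?_⟩
    rw [(Nat.prime_dvd_prime_iff_eq hq h1).1 hqp]
    exact h2
  refine ⟨?_, hpR.mul (h5.mul h8), ?_⟩
  · have e4 : (p : ℝ) * ((m : ℝ) * (n : ℝ)) ≤ (d : ℝ) ^ (2 * α) * ((d : ℝ) ^ a' * (d : ℝ) ^ b') := by
      refine mul_le_mul e1 (mul_le_mul e2 e3 (Nat.cast_nonneg _) (Real.rpow_nonneg hd0.le _)) (by positivity)
        (Real.rpow_nonneg hd0.le _)
    push_cast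
    refine e4.trans ?_
    rw [← Real.rpow_add hd0, ← Real.rpow_add hd0]
    exact Real.rpow_le_rpow_of_exponent_le hd1 (by linarith)
  · rw [ArithmeticFunction.cardFactors_mul h1.ne_zero (mul_ne_zero h5.1.ne' h8.1.ne'),
      ArithmeticFunction.cardFactors_mul h5.1.ne' h8.1.ne', ArithmeticFunction.cardFactors_apply_prime h1, h6, h9]
    omega

variable {d : ℕ} [NeZero d]

/-- coverage by the threshold sets of a window -/
theorem cov_win {β : (ZMod d)ˣ → ℝ} (hβ : ∀ g, 0 ≤ β g) {α a h A' c1 : ℝ} {κ : ℕ → ℝ} {r k : ℕ} (hα : 0 < α)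
    (h3 : ∀ x, c1 ≤ ∑ i ∈ Icc 1 r, sm β (EW d α i a (a + h)) x) (hr : 1 ≤ r) (hc1 : 0 ≤ c1)
    (hA' : a + h + 2 * k * α ≤ A') (hW : 1 / 20 ≤ Wt (PW d α (2 * α))) (hκ0 : ∀ i, 0 < κ i)
    (hκ : ∑ i ∈ Icc 1 k, κ i < c1 * (1 / (20 * ((k : ℝ) + 4))) ^ k) (j : ℕ) (hj : 1 ≤ j) (hjr : j + r ≤ k + 1) (x : (ZMod d)ˣ) :
    ∃ i ∈ Icc 1 r, x ∈ Th d β α κ (i + (j - 1)) a A' := by
  have hjk : j - 1 ≤ k := by omega
  have hjkR : ((j - 1 : ℕ) : ℝ) ≤ k := by exact_mod_cast hjk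
  refine cov_sets (b := α) (b' := 2 * α) hβ le_rfl h3 (j - 1) ?_ ?_ ?_ x
  · have : 0 ≤ ((j - 1 : ℕ) : ℝ) * α := by positivity
    linarith
  · have h1 : ((j - 1 : ℕ) : ℝ) * (2 * α) ≤ k * (2 * α) := mul_le_mul_of_nonneg_right hjkR (by linarith)
    linarith
  · have h1 : ∑ i ∈ Icc 1 r, κ (i + (j - 1)) ≤ ∑ i ∈ Icc 1 k, κ i := by
      have h2 : ∑ i ∈ Icc 1 r, κ (i + (j - 1)) = ∑ i ∈ (Icc 1 r).image (fun i => i + (j - 1)), κ i := by
        rw [sum_image]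
        intro a _ b _ hab
        exact Nat.add_right_cancel hab
      rw [h2]
      refine sum_le_sum_of_subset_of_nonneg ?_ fun i _ _ => (hκ0 i).le
      intro y hy
      obtain ⟨i, hi, rfl⟩ := mem_image.1 hy
      obtain ⟨h3, h4⟩ := mem_Icc.1 hi
      exact mem_Icc.2 ⟨by omega, by omega⟩
    have h2 : (1 / (20 * ((k : ℝ) + 4))) ^ k ≤ ∏ m ∈ range (j - 1), (Wt (PW d α (2 * α)) / (r + m + 1)) := by
      have h3 : (1 / (20 * ((k : ℝ) + 4))) ^ (j - 1) ≤ ∏ m ∈ range (j - 1), (Wt (PW d α (2 * α)) / (r + m + 1)) := by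
        rw [← card_range (j - 1), ← prod_const, card_range]
        refine prod_le_prod (fun _ _ => by positivity) fun m hm => ?_
        have h4 : ((r : ℝ) + m + 1) ≤ k + 4 := by
          have h5 : r + m + 1 ≤ k + 4 := by
            have := mem_range.1 hm
            omega
          exact_mod_cast h5
        have h5 : (0 : ℝ) < (r : ℝ) + m + 1 := by positivity
        rw [div_le_div_iff₀ (by positivity) h5]
        nlinarith
      refine le_trans ?_ h3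
      refine pow_le_pow_of_le_one (by positivity) ?_ hjk
      rw [div_le_one (by positivity)]
      have : (0 : ℝ) ≤ k := Nat.cast_nonneg _
      linarith
    exact lt_of_le_of_lt h1 (lt_of_lt_of_le hκ (mul_le_mul_of_nonneg_left h2 hc1))

theorem icc_two {P : ℕ → Prop} (h : ∃ i ∈ Icc 1 2, P i) : P 1 ∨ P 2 := by
  obtain ⟨i, hi, hP⟩ := h
  obtain ⟨h1, h2⟩ := mem_Icc.1 hi
  obtain rfl | rfl : i = 1 ∨ i = 2 := by omega
  · exact Or.inl hP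
  · exact Or.inr hP

theorem icc_three {P : ℕ → Prop} (h : ∃ i ∈ Icc 1 3, P i) : P 1 ∨ P 2 ∨ P 3 := by
  obtain ⟨i, hi, hP⟩ := h
  obtain ⟨h1, h2⟩ := mem_Icc.1 hi
  obtain rfl | rfl | rfl : i = 1 ∨ i = 2 ∨ i = 3 := by omega
  · exact Or.inl hP
  · exact Or.inr (Or.inl hP)
  · exact Or.inr (Or.inr hP)

theorem icc_four {P : ℕ → Prop} (h : ∃ i ∈ Icc 1 4, P i) : P 1 ∨ P 2 ∨ P 3 ∨ P 4 := by
  obtain ⟨i, hi, hP⟩ := h
  obtain ⟨h1, h2⟩ := mem_Icc.1 hi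
  obtain rfl | rfl | rfl | rfl : i = 1 ∨ i = 2 ∨ i = 3 ∨ i = 4 := by omega
  · exact Or.inl hP
  · exact Or.inr (Or.inl hP)
  · exact Or.inr (Or.inr (Or.inl hP))
  · exact Or.inr (Or.inr (Or.inr hP))

/-- the relations for the windows at `aT` and `aT - α` -/
theorem rels {k : ℕ} (hk : 2 ≤ k) {X : Finset (DirichletCharacter ℂ d)} {η Q : ℝ} {β : (ZMod d)ˣ → ℝ}
    {b : DirichletCharacter ℂ d → ℝ} (hK : Ker X η Q β b) (hη : 0 ≤ η) {τ C : ℝ} (hτ : 0 ≤ τ) {α aT aB H hb E : ℝ} (hα : 0 < α)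
    {κ : ℕ → ℝ} (hκ0 : ∀ i, 0 < κ i) (hX : ∀ χ, χ ∉ X → ‖Pa (PW d α (2 * α)) χ‖ ≤ τ) (hW : 1 / 20 ≤ Wt (PW d α (2 * α)))
    (hCT : ∀ (i j : ℕ) (x : (ZMod d)ˣ), cv (den (EW d α i aT (aT + H))) (den (EW d α j aB (aB + H))) x ≤ C)
    (hCb : ∀ (i j : ℕ) (x : (ZMod d)ˣ), cv (den (EW d α i (aT - α) (aT - α + hb))) (den (EW d α j aB (aB + H))) x ≤ C)
    (hcT : ∀ j, 1 ≤ j → j + 3 ≤ k + 1 → ∀ x, ∃ i ∈ Icc 1 3, x ∈ Th d β α κ (i + (j - 1)) aT (aT + H))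
    (hcb : ∀ j, 1 ≤ j → j + 3 ≤ k + 1 → ∀ x, ∃ i ∈ Icc 1 3, x ∈ Th d β α κ (i + (j - 1)) (aT - α) (aT - α + hb))
    (hcB : ∀ j, 1 ≤ j → j + 2 ≤ k + 1 → ∀ x, ∃ i ∈ Icc 1 2, x ∈ Th d β α κ (i + (j - 1)) aB (aB + H))
    (hE : 2 * α + (aT + H) + (aB + H) ≤ E) (hhb : hb ≤ H) {κs : ℝ} (hκs : 0 < κs) (S : Finset (ZMod d)ˣ)
    (hS : κs ≤ mu (S : Set (ZMod d)ˣ)) (hSE : ∀ z ∈ S, Unr d E α (k + 1) z) {e κm : ℝ} (hκm : 0 < κm)
    (hκm' : ∀ i, 1 ≤ i → i ≤ k → κm ≤ κ i) (he : 2 * k * ((2 * η + τ) * C) / √κs ≤ e * κm ^ 2) :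
    ∃ g, Rel k e g (fun i => Th d β α κ i aT (aT + H)) (fun i => Th d β α κ i aB (aB + H)) ∧
      Rel k e g (fun i => Th d β α κ i (aT - α) (aT - α + hb)) (fun i => Th d β α κ i aB (aB + H)) := by
  classical
  have hd : 1 ≤ d := NeZero.one_le
  have hC0 : 0 ≤ C := by
    refine le_trans ?_ (hCT 1 1 1)
    unfold cv
    refine av_nonneg fun y => mul_nonneg ?_ ?_
    all_goals
      unfold den
      refine mul_nonneg card_pos.le (sum_nonneg fun n _ => ?_)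
      split_ifs
      · positivity
      · exact le_rfl
  have hSne : S.Nonempty := by
    rw [nonempty_iff_ne_empty]
    intro h0
    rw [h0, coe_empty, mu_empty] at hS
    linarith
  obtain ⟨I, hI⟩ : ∃ I : Finset (Bool × ℕ), I = (univ : Finset Bool) ×ˢ Icc 1 (k - 1) := ⟨_, rfl⟩
  obtain ⟨lo, hlo⟩ : ∃ lo : Bool → ℝ, lo = fun s => if s then aT else aT - α := ⟨_, rfl⟩
  obtain ⟨hi', hhi⟩ : ∃ hi : Bool → ℝ, hi = fun s => if s then aT + H else aT - α + hb := ⟨_, rfl⟩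
  have hIc : (I.card : ℝ) ≤ 2 * k := by
    rw [hI, card_product, card_univ, Fintype.card_bool, Nat.card_Icc]
    have : k - 1 + 1 - 1 ≤ k := by omega
    have h2 : ((k - 1 + 1 - 1 : ℕ) : ℝ) ≤ k := by exact_mod_cast this
    push_cast at h2 ⊢
    linarith
  have hup : ∀ s, hi' s ≤ aT + H := by
    intro s
    rw [hhi]
    cases s
    · show aT - α + hb ≤ aT + H
      linarith
    · exact le_rfl
  have hCs : ∀ q ∈ I, ∀ x : (ZMod d)ˣ, cv (den (EW d α q.2 (lo q.1) (hi' q.1))) (den (EW d α (k - q.2) aB (aB + H))) x ≤ C := by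
    intro q _ x
    rw [hlo, hhi]
    rcases q with ⟨s, i⟩
    cases s
    · exact hCb _ _ _
    · exact hCT _ _ _
  have hW0 : 0 < Wt (PW d α (2 * α)) := by linarith
  obtain ⟨z, hz, p, hp, hzp⟩ := exists_g I hK hη hτ (PW d α (2 * α)) (fun q => EW d α q.2 (lo q.1) (hi' q.1))
    (fun q => EW d α (k - q.2) aB (aB + H)) (fun p hp => PW_coprime hp) (fun q _ m hm => EW_coprime hm)
    (fun q _ m hm => EW_coprime hm) hW0 hX hCs S hSne (by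
      intro z hz p hp q hq m hm n hn
      rw [hI] at hq
      obtain ⟨_, hq2⟩ := mem_product.1 hq
      obtain ⟨hq3, hq4⟩ := mem_Icc.1 hq2
      have h1 := prod_mem hd (E := E) (by linarith [hup q.1]) hp hm hn
      refine hSE z hz _ h1.1 h1.2.1 ?_
      rw [h1.2.2]
      omega)
  refine ⟨z * (ucl d p)⁻¹, ?_⟩
  have hsq : √κs ≤ √(mu (S : Set (ZMod d)ˣ)) := Real.sqrt_le_sqrt hS
  have hsq0 : 0 < √κs := Real.sqrt_pos.2 hκs
  have hD0 : 0 ≤ (2 * η + τ) * C := mul_nonneg (by linarith) hC0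
  have hbd : (I.card : ℝ) * ((2 * η + τ) * C) / √(mu (S : Set (ZMod d)ˣ)) ≤ e * κm ^ 2 := by
    refine le_trans ?_ he
    exact div_le_div₀ (by positivity) (mul_le_mul_of_nonneg_right hIc hD0) hsq0 hsq
  have hpair : ∀ s : Bool, ∀ j, 1 ≤ j → j + 1 ≤ k →
      mu (Th d β α κ j (lo s) (hi' s) ∩ rf (z * (ucl d p)⁻¹) (Th d β α κ (k - j) aB (aB + H))) ≤ e := by
    intro s j hj1 hj2
    have h1 := hzp (s, j) (by
      rw [hI]
      exact mem_product.2 ⟨mem_univ _, mem_Icc.2 ⟨hj1, by omega⟩⟩)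
    have h2 := pair_of_cv hK.nonneg (α := α) (a := lo s) (a' := hi' s) (b := aB) (b' := aB + H) (hκ0 j).le (hκ0 (k - j)).le
      (z * (ucl d p)⁻¹)
    have h3 := h2.trans (h1.trans hbd)
    have h4 := hκm' j hj1 (by omega)
    have h5 := hκm' (k - j) (by omega) (by omega)
    have h6 : κm ^ 2 ≤ κ j * κ (k - j) := by
      rw [sq]
      exact mul_le_mul h4 h5 hκm.le (hκ0 _).le
    have h7 := mul_le_mul_of_nonneg_right h6 (mu_nonneg (Th d β α κ j (lo s) (hi' s) ∩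
      rf (z * (ucl d p)⁻¹) (Th d β α κ (k - j) aB (aB + H))))
    have h8 : κm ^ 2 * mu (Th d β α κ j (lo s) (hi' s) ∩ rf (z * (ucl d p)⁻¹) (Th d β α κ (k - j) aB (aB + H))) ≤
        κm ^ 2 * e := by linarith
    exact le_of_mul_le_mul_left h8 (by positivity)
  have hcovB : ∀ j, 1 ≤ j → j + 1 ≤ k → ∀ x, x ∈ Th d β α κ j aB (aB + H) ∨ x ∈ Th d β α κ (j + 1) aB (aB + H) := by
    intro j h1 h2 x
    have h3 := icc_two (hcB j h1 (by omega) x)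
    rw [show 1 + (j - 1) = j by omega, show 2 + (j - 1) = j + 1 by omega] at h3
    exact h3
  refine ⟨⟨hcovB, ?_, ?_⟩, ⟨hcovB, ?_, ?_⟩⟩
  · intro j h1 h2 x
    have h3 := icc_three (hcT j h1 (by omega) x)
    rw [show 1 + (j - 1) = j by omega, show 2 + (j - 1) = j + 1 by omega, show 3 + (j - 1) = j + 2 by omega] at h3
    exact h3
  · intro j h1 h2
    have h3 := hpair true j h1 h2
    rw [hlo, hhi] at h3
    exact h3
  · intro j h1 h2 x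
    have h3 := icc_three (hcb j h1 (by omega) x)
    rw [show 1 + (j - 1) = j by omega, show 2 + (j - 1) = j + 1 by omega, show 3 + (j - 1) = j + 2 by omega] at h3
    exact h3
  · intro j h1 h2
    have h3 := hpair false j h1 h2
    rw [hlo, hhi] at h3
    exact h3

end Pool.Agent.Lib.MP_42948a_nt.TS
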