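import Pool.Agent.Lib.MP_42948a_nt.TS.Mu
import Pool.Agent.Lib.MP_42948a_nt.TS.S5

/-!
# The structure of the finite model
-/

set_option linter.unusedSectionVars false

namespace Pool.Agent.Lib.MP_42948a_nt.TS

open Finset Pool.Agent.Lib.MP_42948a_nt.OA Pool.Agent.Lib.MP_42948a_nt.TQ Pool.Agent.Lib.MP_42948a_nt.PS
  Pool.Agent.Lib.MP_42948a_nt.TF

/-! ## Multiplicative forms of the combinatorial lemmas -/

private theorem str_fill {G : Type*} [CommGroup G] [Finite G] (t : G) (A Q : Set G) (hA1 : ∀ x ∈ A, x * t ∉ A)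
    (hA2 : ∀ x, x * t⁻¹ ∈ A ∨ x ∈ A ∨ x * t ∈ A) (hstab : ∀ s : G, (∀ x, x ∈ A ↔ x * s ∈ A) → s = 1) (hQA : Q ⊆ A)
    (hgap : ∀ x, x ∈ Q ∨ x * t⁻¹ ∈ Q ∨ x * t⁻¹ * t⁻¹ ∈ Q ∨ x * t⁻¹ * t⁻¹ * t⁻¹ ∈ Q)
    (y : G) (hy : ∀ x ∈ Q, x * y ∈ A) : y = 1 := by
  have h := MP42948TS.fill_stab (C := Additive G) (Additive.ofMul t) (Additive.toMul ⁻¹' A) (Additive.toMul ⁻¹' Q)
    (fun x hx => hA1 x.toMul hx)
    (fun x => by
      have h1 := hA2 x.toMul
      rw [← div_eq_mul_inv] at h1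
      exact h1)
    (fun s hs => by
      have h1 := hstab s.toMul (fun x => hs (Additive.ofMul x))
      exact h1)
    (fun x hx => hQA hx)
    (fun x => by
      have h1 := hgap x.toMul
      simp only [← div_eq_mul_inv] at h1
      exact h1)
    (Additive.ofMul y) (fun x hx => hy x.toMul hx)
  exact h

private theorem str_end {G : Type*} [CommGroup G] [Finite G] (t gg : G) (A B Q : Set G) (hA1 : ∀ x ∈ A, x * t ∉ A)
    (hB : ∀ x, x ∈ B ↔ gg * x⁻¹ ∉ A) (hstab : ∀ s : G, (∀ x, x ∈ A ↔ x * s ∈ A) → s = 1)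
    (h0 : (1 : G) ∈ Q) (hQA : Q ⊆ A) (hQQ : ∀ x ∈ Q, ∀ y ∈ Q, x * y ∈ B)
    (hgap : ∀ x, x ∈ Q ∨ x * t⁻¹ ∈ Q) :
    t ≠ 1 ∧ t * t = 1 ∧ gg = t ∧ A = {1} ∧ B = {1} ∧ Q = {1} ∧ ∀ x, x = 1 ∨ x = t := by
  have h := MP42948TS.end_struct (C := Additive G) (Additive.ofMul t) (Additive.ofMul gg) (Additive.toMul ⁻¹' A)
    (Additive.toMul ⁻¹' B) (Additive.toMul ⁻¹' Q)
    (fun x hx => hA1 x.toMul hx)
    (fun x => by
      have h1 := hB x.toMul
      rw [← div_eq_mul_inv] at h1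
      exact h1)
    (fun s hs => by
      have h1 := hstab s.toMul (fun x => hs (Additive.ofMul x))
      exact h1)
    h0 (fun x hx => hQA hx) (fun x hx y hy => hQQ x.toMul hx y.toMul hy)
    (fun x => by
      have h1 := hgap x.toMul
      rw [← div_eq_mul_inv] at h1
      exact h1)
  exact h

private theorem str_fill' {G : Type*} [CommGroup G] [Finite G] (t : G) (A Q : Set G) (disj : ∀ x ∈ A, x * t ∉ A)
    (cov : ∀ x, x ∈ A ∨ x * t ∈ A ∨ x * t⁻¹ ∈ A) (hst : ∀ s, (∀ x ∈ A, s * x ∈ A) → s = 1) (hQA : Q ⊆ A)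
    (hgap : ∀ x, ∃ j : ℕ, j ≤ 3 ∧ x * (t ^ j)⁻¹ ∈ Q) (y : G) (hy : ∀ x ∈ Q, x * y ∈ A) : y = 1 := by
  refine str_fill t A Q disj (fun x => ?_) (fun s hs => hst s fun x hx => ?_) hQA (fun x => ?_) y hy
  · rcases cov x with h | h | h
    · exact Or.inr (Or.inl h)
    · exact Or.inr (Or.inr h)
    · exact Or.inl h
  · rw [mul_comm]
    exact (hs x).1 hx
  · obtain ⟨j, hj, h⟩ := hgap x
    interval_cases j
    · left
      simpa using h
    · right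
      left
      simpa using h
    · right
      right
      left
      rw [pow_two, mul_inv, ← mul_assoc] at h
      exact h
    · right
      right
      right
      rw [pow_succ, pow_two, mul_inv, mul_inv, ← mul_assoc, ← mul_assoc] at h
      exact h

private theorem str_end' {G : Type*} [CommGroup G] [Finite G] (t γ : G) (A Q : Set G) (disj : ∀ x ∈ A, x * t ∉ A)
    (hst : ∀ s, (∀ x ∈ A, s * x ∈ A) → s = 1) (h0 : (1 : G) ∈ Q) (hQA : Q ⊆ A)
    (hQB : ∀ x ∈ Q, ∀ y ∈ Q, γ * (x * y)⁻¹ ∉ A) (hgap : ∀ x, ∃ j : ℕ, j ≤ 1 ∧ x * (t ^ j)⁻¹ ∈ Q) :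
    t ≠ 1 ∧ t * t = 1 ∧ γ = t ∧ A = {1} ∧ ∀ x, x = 1 ∨ x = t := by
  have h := str_end t γ A {x | γ * x⁻¹ ∉ A} Q disj (fun x => Iff.rfl)
    (fun s hs => hst s fun x hx => by rw [mul_comm]; exact (hs x).1 hx) h0 hQA hQB (fun x => by
      obtain ⟨j, hj, h⟩ := hgap x
      interval_cases j
      · left
        simpa using h
      · right
        simpa using h)
  exact ⟨h.1, h.2.1, h.2.2.1, h.2.2.2.1, h.2.2.2.2.2.2⟩

private theorem str_psi {H G : Type*} [Group H] [CommGroup G] (f : H →* G) (hf : Function.Surjective f) {t : G}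
    (ht : t ≠ 1) (ht2 : t * t = 1) (h : ∀ x, x = 1 ∨ x = t) :
    ∃ ψ : H →* ℤˣ, ψ ≠ 1 ∧ ∀ (x : H) (i : ℕ), ψ x = (-1) ^ i ↔ f x = t ^ i := by
  classical
  have hne : (-1 : ℤˣ) ≠ 1 := by decide
  have hmul : ∀ x y : H, (if f (x * y) = 1 then (1 : ℤˣ) else -1) =
      (if f x = 1 then (1 : ℤˣ) else -1) * (if f y = 1 then (1 : ℤˣ) else -1) := by
    intro x y
    rw [map_mul]
    rcases h (f x) with hx | hx <;> rcases h (f y) with hy | hy <;> rw [hx, hy]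
    · simp
    · rw [one_mul, if_neg ht, if_pos rfl, one_mul]
    · rw [mul_one, if_neg ht, if_pos rfl, mul_one]
    · rw [ht2, if_pos rfl, if_neg ht]
      rfl
  obtain ⟨ψ, hψ⟩ : ∃ ψ : H →* ℤˣ, ∀ x, ψ x = if f x = 1 then (1 : ℤˣ) else -1 :=
    ⟨MonoidHom.mk' (fun x : H => if f x = 1 then (1 : ℤˣ) else -1) hmul, fun x => rfl⟩
  refine ⟨ψ, ?_, ?_⟩
  · intro h1
    obtain ⟨x, hx⟩ := hf t
    have h2 := hψ x
    rw [h1, hx, if_neg ht] at h2
    exact hne h2.symm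
  · intro x i
    rw [hψ x]
    rcases Nat.even_or_odd i with hi | hi
    · have h2 : t ^ i = 1 := by
        obtain ⟨k, rfl⟩ := hi
        rw [← two_mul, pow_mul, pow_two, ht2, one_pow]
      rw [hi.neg_one_pow, h2]
      rcases h (f x) with hx | hx
      · rw [hx]
        simp
      · rw [hx, if_neg ht]
        exact ⟨fun h3 => absurd h3 hne, fun h3 => absurd h3 ht⟩
    · have h2 : t ^ i = t := by
        obtain ⟨k, rfl⟩ := hi
        rw [pow_succ, pow_mul, pow_two, ht2, one_pow, one_mul]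
      rw [hi.neg_one_pow, h2]
      rcases h (f x) with hx | hx
      · rw [hx, if_pos rfl]
        exact ⟨fun h3 => absurd h3.symm hne, fun h3 => absurd h3.symm ht⟩
      · rw [hx, if_neg ht]
        simp

variable {d : ℕ} {N : Subgroup (ZMod d)ˣ} {t : (ZMod d)ˣ ⧸ N} {w κ : ℝ}

/-! ## The products of dense classes -/

theorem qq_mono {κ' v v' : ℝ} (hκ : κ' ≤ κ) (hv : v ≤ v') {x : (ZMod d)ˣ ⧸ N} (hx : x ∈ QQ d N t w κ v) : x ∈ QQ d N t w κ' v' := by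
  obtain ⟨l, h1, h2, h3⟩ := hx
  exact ⟨l, fun y hy => ⟨(h1 y hy).1, (h1 y hy).2.1, hκ.trans (h1 y hy).2.2⟩, h2.trans hv, h3⟩

theorem qq_one {v : ℝ} (hv : 0 ≤ v) : (1 : (ZMod d)ˣ ⧸ N) ∈ QQ d N t w κ v :=
  ⟨[], fun y hy => absurd hy List.not_mem_nil, by simpa using hv, by simp⟩

theorem qq_mul {u v : ℝ} {x y : (ZMod d)ˣ ⧸ N} (hx : x ∈ QQ d N t w κ u) (hy : y ∈ QQ d N t w κ v) : x * y ∈ QQ d N t w κ (u + v) := by
  obtain ⟨l, h1, h2, h3⟩ := hx
  obtain ⟨l', h1', h2', h3'⟩ := hy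
  refine ⟨l ++ l', fun z hz => ?_, ?_, ?_⟩
  · rw [List.mem_append] at hz
    rcases hz with hz | hz
    · exact h1 z hz
    · exact h1' z hz
  · rw [List.map_append, List.sum_append]
    exact add_le_add h2 h2'
  · rw [List.map_append, List.prod_append, h3, h3']

theorem qq_single {v : ℝ} {c : (ZMod d)ˣ ⧸ N} {n : ℕ} (hc : c ≠ t) (hn : 1 ≤ n) (h : κ ≤ mc d N (w * n) (w * (n + 1)) c)
    (hv : w * (n + 1) ≤ v) : c / t ∈ QQ d N t w κ v := by
  refine ⟨[(c, n)], fun z hz => ?_, ?_, ?_⟩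
  · rw [List.mem_singleton] at hz
    rw [hz]
    exact ⟨hc, hn, h⟩
  · simpa using hv
  · exact mul_one (c / t)

/-- gaps at most `4` of `Q(v)`, `Q(v + u)` in `A`: then `Q(u) = 1`. From `fill_stab` of `MP_42948a_nt_TS_S5.lean` (in `Additive`; `qq_mul`). -/
theorem fill3 [NeZero d] (A : Set ((ZMod d)ˣ ⧸ N)) (disj : ∀ x ∈ A, x * t ∉ A) (cov : ∀ x, x ∈ A ∨ x * t ∈ A ∨ x * t⁻¹ ∈ A)
    (hst : ∀ s, (∀ x ∈ A, s * x ∈ A) → s = 1) {u v : ℝ} (hu : 0 ≤ u) (hQA : ∀ x ∈ QQ d N t w κ (v + u), x ∈ A)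
    (hgap : ∀ x, ∃ j : ℕ, j ≤ 3 ∧ x * (t ^ j)⁻¹ ∈ QQ d N t w κ v) (y : (ZMod d)ˣ ⧸ N) (hy : y ∈ QQ d N t w κ u) : y = 1 := by
  exact str_fill' t A (QQ d N t w κ v) disj cov hst (fun x hx => hQA x (qq_mono le_rfl (by linarith) hx)) hgap y
    (fun x hx => hQA _ (qq_mul hx hy))

/-- gaps at most `2` of `Q(v)`: then there are two classes. From `end_struct`. -/
theorem end1 [NeZero d] (A : Set ((ZMod d)ˣ ⧸ N)) (disj : ∀ x ∈ A, x * t ∉ A)
    (hst : ∀ s, (∀ x ∈ A, s * x ∈ A) → s = 1) {γ : (ZMod d)ˣ ⧸ N} {v : ℝ} (hv : 0 ≤ v) (hQA : ∀ x ∈ QQ d N t w κ v, x ∈ A)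
    (hQB : ∀ x ∈ QQ d N t w κ (v + v), γ * x⁻¹ ∉ A)
    (hgap : ∀ x, ∃ j : ℕ, j ≤ 1 ∧ x * (t ^ j)⁻¹ ∈ QQ d N t w κ v) :
    t ≠ 1 ∧ t * t = 1 ∧ γ = t ∧ A = {1} ∧ ∀ x, x = 1 ∨ x = t := by
  exact str_end' t γ A (QQ d N t w κ v) disj hst (qq_one hv) hQA (fun x hx y hy => hQB _ (qq_mul hx hy)) hgap

/-- the real character of a subgroup of index `2` -/
theorem psi_of (ht : t ≠ 1) (ht2 : t * t = 1) (h : ∀ x : (ZMod d)ˣ ⧸ N, x = 1 ∨ x = t) :
    ∃ ψ : (ZMod d)ˣ →* ℤˣ, ψ ≠ 1 ∧ ∀ (x : (ZMod d)ˣ) (i : ℕ), ψ x = (-1) ^ i ↔ (x : (ZMod d)ˣ ⧸ N) = t ^ i := by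
  exact str_psi (QuotientGroup.mk' N) (QuotientGroup.mk'_surjective N) ht ht2 h

/-! ## Weights -/

open Classical in
/-- the weight of the primes of `(d ^ α, d ^ s]` which are not in the class `t` -/
noncomputable def nt (d : ℕ) (N : Subgroup (ZMod d)ˣ) (t : (ZMod d)ˣ ⧸ N) (α s : ℝ) : ℝ :=
  Wt ((PW d α s).filter (fun p : ℕ => ((ucl d p : (ZMod d)ˣ) : (ZMod d)ˣ ⧸ N) ≠ t))

private theorem str_PW [NeZero d] {α α' s s' : ℝ} (ha : α' ≤ α) (hs : s ≤ s') : PW d α s ⊆ PW d α' s' := by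
  have hd : (1 : ℝ) ≤ d := by
    exact_mod_cast Nat.one_le_iff_ne_zero.2 (NeZero.ne d)
  intro p hp
  simp only [PW, primesOff, Finset.mem_filter, Finset.mem_Icc] at hp ⊢
  obtain ⟨⟨h1, h2⟩, h3, h4, h5⟩ := hp
  exact ⟨⟨h1, h2.trans (Nat.floor_le_floor (Real.rpow_le_rpow_of_exponent_le hd hs))⟩, h3,
    lt_of_le_of_lt (Nat.floor_le_floor (Real.rpow_le_rpow_of_exponent_le hd ha)) h4, h5⟩

private theorem str_split {α b s : ℝ} : PW d α s ⊆ PW d α b ∪ PW d b s := by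
  intro p hp
  simp only [PW, primesOff, Finset.mem_filter, Finset.mem_Icc, Finset.mem_union] at hp ⊢
  obtain ⟨⟨h1, h2⟩, h3, h4, h5⟩ := hp
  rcases le_or_gt p ⌊(d : ℝ) ^ b⌋₊ with h | h
  · exact Or.inl ⟨⟨h1, h⟩, h3, h4, h5⟩
  · exact Or.inr ⟨⟨h1, h2⟩, h3, h, h5⟩

private theorem str_Wt {A B : Finset ℕ} (h : A ⊆ B) : Wt A ≤ Wt B :=
  Finset.sum_le_sum_of_subset_of_nonneg h fun p _ _ => by positivity

private theorem str_Wt_union (A B : Finset ℕ) : Wt (A ∪ B) ≤ Wt A + Wt B := by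
  have h := Finset.sum_union_inter (s₁ := A) (s₂ := B) (f := fun p : ℕ => 1 / (p : ℝ))
  have h1 : 0 ≤ ∑ p ∈ A ∩ B, 1 / (p : ℝ) := Finset.sum_nonneg fun p _ => by positivity
  unfold Wt
  linarith

theorem nt_mono [NeZero d] {α α' s s' : ℝ} (ha : α' ≤ α) (hs : s ≤ s') : nt d N t α s ≤ nt d N t α' s' := by
  classical
  unfold nt
  exact str_Wt (Finset.filter_subset_filter _ (str_PW ha hs))

private theorem nt_nonneg {α s : ℝ} : 0 ≤ nt d N t α s := by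
  unfold nt Wt
  exact Finset.sum_nonneg fun p _ => by positivity

private theorem nt_window [NeZero d] {M : ℕ} (hM : N.index ≤ M) {a b : ℝ} (hκ : 0 ≤ κ)
    (h : ∀ c, c ≠ t → mc d N a b c ≤ κ) : nt d N t a b ≤ M * κ := by
  classical
  have h1 : nt d N t a b = ∑ c ∈ (Finset.univ : Finset ((ZMod d)ˣ ⧸ N)).filter (fun c => c ≠ t), mc d N a b c := by
    unfold nt Wt mc
    rw [← Finset.sum_fiberwise_of_maps_to (t := (Finset.univ : Finset ((ZMod d)ˣ ⧸ N)).filter (fun c => c ≠ t))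
      (g := fun p : ℕ => ((ucl d p : (ZMod d)ˣ) : (ZMod d)ˣ ⧸ N))]
    · refine Finset.sum_congr rfl fun c hc => ?_
      rw [Finset.mem_filter] at hc
      refine Finset.sum_congr ?_ fun _ _ => rfl
      ext p
      simp only [Finset.mem_filter]
      constructor
      · rintro ⟨⟨h2, h3⟩, h4⟩
        exact ⟨h2, h4⟩
      · rintro ⟨h2, h4⟩
        exact ⟨⟨h2, by rw [h4]; exact hc.2⟩, h4⟩
    · intro p hp
      rw [Finset.mem_filter] at hp ⊢
      exact ⟨Finset.mem_univ _, hp.2⟩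
  rw [h1]
  have h2 : ∑ c ∈ (Finset.univ : Finset ((ZMod d)ˣ ⧸ N)).filter (fun c => c ≠ t), mc d N a b c ≤
      ∑ c ∈ (Finset.univ : Finset ((ZMod d)ˣ ⧸ N)).filter (fun c => c ≠ t), κ :=
    Finset.sum_le_sum fun c hc => h c (Finset.mem_filter.1 hc).2
  refine h2.trans ?_
  rw [Finset.sum_const, nsmul_eq_mul]
  refine mul_le_mul_of_nonneg_right ?_ hκ
  have h3 : ((Finset.univ : Finset ((ZMod d)ˣ ⧸ N)).filter (fun c => c ≠ t)).card ≤ M := by
    refine (Finset.card_filter_le _ _).trans ?_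
    rw [Finset.card_univ, ← Nat.card_eq_fintype_card]
    exact hM
  exact_mod_cast h3

/-- no class is dense: `PW d α (w m)` is contained in the union of `PW d α s0` and the windows `PW d (w n) (w (n + 1))`, `1 ≤ n < m`; in every window the
primes not in the class `t` have weight `≤ M κ` (sum over the at most `M` classes) -/
theorem nt_le [NeZero d] {M : ℕ} (hM : N.index ≤ M) {α s s0 r : ℝ} (hκ : 0 ≤ κ) (hw : 0 < w) (hws : w ≤ s0) (h0 : nt d N t α s0 ≤ r)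
    (hnd : ∀ c, c ≠ t → ∀ n : ℕ, 1 ≤ n → w * (n + 1) ≤ s → mc d N (w * n) (w * (n + 1)) c ≤ κ) (m : ℕ) (hm : w * m ≤ s) :
    nt d N t α (w * m) ≤ r + m * M * κ := by
  classical
  induction m with
  | zero =>
    have h1 : nt d N t α (w * (0 : ℕ)) ≤ nt d N t α s0 := nt_mono le_rfl (by push_cast; linarith)
    push_cast at h1 ⊢
    linarith
  | succ m ih =>
    have hMκ : 0 ≤ (M : ℝ) * κ := by positivity
    rcases Nat.eq_zero_or_pos m with h1 | h1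
    · subst h1
      have h2 : nt d N t α (w * ((0 + 1 : ℕ) : ℝ)) ≤ nt d N t α s0 := nt_mono le_rfl (by push_cast; linarith)
      push_cast at h2 ⊢
      linarith
    · have hm' : w * ((m : ℝ) + 1) ≤ s := by
        push_cast at hm
        exact hm
      have h2 := ih (by linarith)
      have h3 : nt d N t α (w * ((m + 1 : ℕ) : ℝ)) ≤ nt d N t α (w * m) + nt d N t (w * m) (w * (m + 1)) := by
        unfold nt
        refine le_trans (str_Wt ?_) (str_Wt_union _ _)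
        rw [← Finset.filter_union]
        push_cast
        exact Finset.filter_subset_filter _ str_split
      have h4 : nt d N t (w * m) (w * (m + 1)) ≤ M * κ :=
        nt_window hM hκ fun c hc => hnd c hc m h1 hm'
      push_cast at h3 ⊢
      linarith

theorem mc_le_nt [NeZero d] {α s a b : ℝ} (ha : α ≤ a) (hb : b ≤ s) {c : (ZMod d)ˣ ⧸ N} (hc : c ≠ t) : mc d N a b c ≤ nt d N t α s := by
  classical
  unfold mc nt Wt
  refine Finset.sum_le_sum_of_subset_of_nonneg ?_ fun p _ _ => by positivity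
  intro p hp
  rw [Finset.mem_filter] at hp ⊢
  exact ⟨str_PW ha hb hp.1, by rw [hp.2]; exact hc⟩

theorem mc_t_ge [NeZero d] {α s a b : ℝ} (ha : α ≤ a) (hb : b ≤ s) : Wt (PW d a b) - nt d N t α s ≤ mc d N a b t := by
  classical
  have h1 : nt d N t a b ≤ nt d N t α s := nt_mono ha hb
  have h2 := Finset.sum_filter_add_sum_filter_not (PW d a b)
    (fun p : ℕ => ((ucl d p : (ZMod d)ˣ) : (ZMod d)ˣ ⧸ N) = t) (fun p : ℕ => 1 / (p : ℝ))
  have h3 : mc d N a b t + nt d N t a b = Wt (PW d a b) := by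
    unfold mc nt Wt
    rw [← h2]
  linarith

end Pool.Agent.Lib.MP_42948a_nt.TS
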