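import Pool.Agent.Lib.MP_42948a_nt.TS.Chain
import Pool.Agent.Lib.MP_42948a_nt.TS.Model
import Pool.Agent.Lib.MP_42948a_nt.TS.Kmass
import Pool.Agent.Lib.MP_42948a_nt.TS.Str

/-!
# Second step: the finite model for one modulus
-/

set_option linter.unusedSectionVars false

namespace Pool.Agent.Lib.MP_42948a_nt.TS

open Finset Pool.Agent.Lib.MP_42948a_nt.OA Pool.Agent.Lib.MP_42948a_nt.TQ Pool.Agent.Lib.MP_42948a_nt.PS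
  Pool.Agent.Lib.MP_42948a_nt.TF

theorem rel_mono {G : Type*} [CommGroup G] [Fintype G] {k : ℕ} {e e' : ℝ} {g : G} {T B : ℕ → Set G} (h : Rel k e g T B) (he : e ≤ e') :
    Rel k e' g T B := ⟨h.covB, h.covT, fun j h1 h2 => (h.pair j h1 h2).trans he⟩

open Classical in
theorem step2 (k M : ℕ) (hk : 9 ≤ k) (hM : 0 < M) (ε r0 : ℝ) (hε : 0 < ε) (hr0 : 0 < r0) (hr1 : r0 ≤ 1 / 4) :
    ∃ e0 : ℝ, 0 < e0 ∧ ∀ (d : ℕ) [NeZero d] (X : Finset (DirichletCharacter ℂ d)) (η Q : ℝ) (β : (ZMod d)ˣ → ℝ)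
      (b : DirichletCharacter ℂ d → ℝ), Ker X η Q β b → η ≤ 1 / 2 →
      ∀ (n : ℕ) (α aT hT hb s0 η1 e e1 δ ρ τ : ℝ) (κ : ℕ → ℝ) (B : ℕ → Set (ZMod d)ˣ) (g : (ZMod d)ˣ), 0 < η1 → hb + 2 * η1 ≤ hT →
      s0 ≤ α + (n + 1) * η1 → 1 ≤ n → 0 ≤ e → (∀ i, 0 < κ i) → 0 < e1 →
      ∑ i ∈ Icc 1 (k - 1), ((i : ℝ) + 1) * κ (i + 1) / κ i ≤ e1 * δ →
      (∀ m : ℕ, m < n → 2 * δ < Wt (PW d (α + (m + 1) * η1) (α + (m + 2) * η1))) →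
      Rel k e g (fun i => Th d β α κ i aT (aT + hT)) B →
      Rel k e g (fun i => Th d β α κ i (aT - α) (aT - α + hb)) B →
      (∀ m : ℕ, m < n → ∀ j, 1 ≤ j → j + 3 ≤ k → ∀ x,
        x ∈ Th d β α κ j (aT - (α + m * η1)) (aT - (α + m * η1) + hb) ∨
        x ∈ Th d β α κ (j + 1) (aT - (α + m * η1)) (aT - (α + m * η1) + hb) ∨
        x ∈ Th d β α κ (j + 2) (aT - (α + m * η1)) (aT - (α + m * η1) + hb) ∨
        x ∈ Th d β α κ (j + 3) (aT - (α + m * η1)) (aT - (α + m * η1) + hb)) →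
      (n + 1) * (16 * e + 10 * e1) + 13 * e + 3 * e1 ≤ e0 → n * δ ≤ e0 * Wt (PW d α s0) → 0 < Wt (PW d α s0) →
      0 < ρ → ρ * Wt (PW d α s0) ≤ Wt (PW d (s0 / 2) s0) → ρ * Wt (PW d α s0) ≤ Wt (PW d α (2 * α)) → α ≤ s0 / 2 → r0 ≤ ρ / 16 →
      (∀ Y : Finset (DirichletCharacter ℂ d), (∀ χ ∈ Y, 1 / 2 ≤ ‖Pa (PW d (s0 / 2) s0) χ‖) → Y.card ≤ M) →
      (∀ χ, χ ∉ X → ‖Pa (PW d α (2 * α)) χ‖ ≤ τ) → τ < 1 / 2 →
      ∃ (N : Subgroup (ZMod d)ˣ) (t γ : (ZMod d)ˣ ⧸ N) (A : Set ((ZMod d)ˣ ⧸ N)), N.index ≤ M ∧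
        Mdl k (fun i => Th d β α κ i aT (aT + hT)) B N t γ A ε ∧ nt d N t α s0 ≤ r0 * Wt (PW d α s0) ∧
        (Fintype.card (ZMod d)ˣ : ℝ) / 2 ≤ ∑ x ∈ (univ : Finset (ZMod d)ˣ).filter (fun x => x ∈ N), β x ∧
        ∀ s, (∀ x ∈ A, s * x ∈ A) → s = 1 := by
  obtain ⟨e0, he0, hmod⟩ := model k M hk hM ε r0 hε hr0 hr1
  refine ⟨e0, he0, ?_⟩
  intro d _ X η Q β b hK hη n α aT hT hb s0 η1 e e1 δ ρ τ κ B g hη1 hbT hn hn1 he hκ he1 hκs hO hR hR0 hcov hE hnδ hW hρ hρ1 hρ2 hαs hrρ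
    hfew hX hτ
  have hd : 1 ≤ d := NeZero.one_le
  obtain ⟨Bad, hBad1, hBad2, hBad3⟩ := chain k n hK.nonneg hη1 hbT hn hn1 he hκ he1 hκs hO hR hR0 hcov
  have hee0 : e ≤ e0 := by
    have h1 : (0 : ℝ) ≤ n := Nat.cast_nonneg _
    have h2 : 0 ≤ ((n : ℝ) + 1) * (16 * e + 10 * e1) := by positivity
    linarith
  have hUc : ∀ p ∈ PW d α s0, p.Coprime d := fun p hp => PW_coprime hp
  have hsub1 : PW d (s0 / 2) s0 ⊆ PW d α s0 := PW_mono hd hαs le_rfl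
  obtain ⟨N, t, γ, A, hN1, hN2, hN3, hN4⟩ := hmod d (PW d α s0) Bad (fun i => Th d β α κ i aT (aT + hT)) B g hUc hBad1 hW
    (hBad2.trans hnδ) (rel_mono hR hee0) (fun i h1 h2 p hp hpB => (hBad3 i h1 h2 p hp hpB).trans hE) (by
      refine hfew _ fun χ hχ => ?_
      exact pa_sub hUc hsub1 hρ hW hρ1 χ ((mem_filter.1 hχ).2.trans hrρ))
  obtain ⟨N', t', γ', A', h1, h2, h3, h4, h5⟩ := stab_red hN2 hN1
  refine ⟨N', t', γ', A', h2, h3, ?_, ?_, h5⟩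
  · refine le_trans ?_ hN3
    unfold nt Wt
    refine sum_le_sum_of_subset_of_nonneg ?_ fun _ _ _ => by positivity
    intro p hp
    rw [mem_filter] at hp ⊢
    exact ⟨hp.1, fun h => hp.2 (h4 _ h)⟩
  · refine kern_mass hK N' fun χ hχ => ?_
    have h6 := hN4 χ fun x hx => hχ x (h1 hx)
    have h7 : PW d α (2 * α) ⊆ PW d α s0 := PW_mono hd le_rfl (by linarith)
    have h8 := pa_sub hUc h7 hρ hW hρ2 χ (h6.trans hrρ)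
    have h9 : χ ∈ X := by
      by_contra hcon
      have := hX χ hcon
      linarith
    have h10 := hK.big χ h9
    linarith

end Pool.Agent.Lib.MP_42948a_nt.TS
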