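import Pool.Agent.Lib.MP_42948a_nt.TS.Model
import Pool.Agent.Lib.MP_42948a_nt.TS.Dense
import Pool.Agent.Lib.MP_42948a_nt.TS.Str

/-!
# Third step: the real character for one modulus
-/

set_option linter.unusedSectionVars false

namespace Pool.Agent.Lib.MP_42948a_nt.TS

open Finset Pool.Agent.Lib.MP_42948a_nt.OA Pool.Agent.Lib.MP_42948a_nt.TQ Pool.Agent.Lib.MP_42948a_nt.PS
  Pool.Agent.Lib.MP_42948a_nt.TF

theorem neg_pow_ne {u : ℤˣ} {j : ℕ} : u ≠ (-1) ^ (j + 1) ↔ u = (-1) ^ j := by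
  rw [pow_succ]
  rcases Int.units_eq_one_or u with h | h <;> rcases Int.units_eq_one_or ((-1 : ℤˣ) ^ j) with h2 | h2 <;> rw [h, h2] <;> decide

private theorem gen1 {G : Type*} [CommGroup G] (γ a x : G) : γ * a * (a * x)⁻¹ = γ * x⁻¹ := by
  rw [mul_inv, mul_assoc, ← mul_assoc a, mul_inv_cancel, one_mul]

variable {d : ℕ} [NeZero d]

open Classical in
theorem step3 {k M : ℕ} (hk : 10 ≤ k) {β : (ZMod d)ˣ → ℝ} (hβ : ∀ g, 0 ≤ β g) {α aT aB H s0 s1 w σ v κD κ3 κ1 m ε C0 r : ℝ} {κ : ℕ → ℝ}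
    {N : Subgroup (ZMod d)ˣ} {t γ : (ZMod d)ˣ ⧸ N} {A : Set ((ZMod d)ˣ ⧸ N)} {m1 mB : ℕ}
    (hN : N.index ≤ M)
    (hmdl : Mdl k (fun i => Th d β α κ i aT (aT + H)) (fun i => Th d β α κ i aB (aB + H)) N t γ A ε)
    (hnt : nt d N t α s0 ≤ r)
    (hβN : (Fintype.card (ZMod d)ˣ : ℝ) / 2 ≤ ∑ x ∈ (univ : Finset (ZMod d)ˣ).filter (fun x => x ∈ N), β x)
    (hst : ∀ s, (∀ x ∈ A, s * x ∈ A) → s = 1) (hm : 0 < m) (hmD : m ≤ κD)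
    (hWin : ∀ a, α ≤ a → a + w ≤ 1 → w / 2 ≤ Wt (PW d a (a + w)))
    (hCT : ∀ x, sm β (EW d α 7 aT (aT + H)) x ≤ C0) (hCB : ∀ x, sm β (EW d α 4 aB (aB + H)) x ≤ C0) (hC0 : 0 ≤ C0)
    (hκ0 : ∀ i, 0 < κ i) (hsm7 : 2 * (κ 7 + C0 * ε) < m ^ 7 / ((7 : ℕ).factorial : ℝ))
    (hsm4 : 2 * (κ 4 + C0 * ε) < m ^ 4 / ((4 : ℕ).factorial : ℝ))
    (hANP3 : (∀ x, x ≠ t → mc d N α s0 x ≤ κ3) → ∀ x, ∃ j : ℕ, j ≤ 3 ∧ x * (t ^ j)⁻¹ ∈ QQ d N t w κ3 v)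
    (hANP1 : (∀ x, x ≠ t → mc d N α s1 x ≤ κ1) → ∀ x, ∃ j : ℕ, j ≤ 1 ∧ x * (t ^ j)⁻¹ ∈ QQ d N t w κ1 v)
    (hα : 0 < α) (hw : 0 < w) (hv : 0 ≤ v) (hs01 : s0 ≤ s1) (hs1 : s1 ≤ 1) (hw0 : w < s0) (hαw : α ≤ w) (hσ : 0 < σ) (hασ : α * 7 ≤ σ)
    (hH : 0 < H) (h7w : 7 * w ≤ H / 4) (hiT : aT + H / 4 ≤ 7 * (s0 - w)) (hiB : aB + H / 4 ≤ 4 * (s1 - w))
    (hm1 : s1 ≤ w * m1) (hm1' : w * m1 + v + σ ≤ aT) (hmB : w * mB + σ ≤ aB) (h2v : v + v + σ ≤ aB)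
    (hr1 : r + m1 * M * κD ≤ κ1) (hr3 : r ≤ κ3) (hκD3 : κD ≤ κ3) (hκD1 : κD ≤ κ1) (hrD : r < κD)
    (hfill : m + (r + m1 * M * κD) ≤ w / 2) :
    ∃ ψ : (ZMod d)ˣ →* ℤˣ, ψ ≠ 1 ∧
      (∀ i, 4 ≤ i → i + 3 ≤ k → mu (symmDiff (Th d β α κ i aT (aT + H)) {x | ψ x = (-1) ^ i}) ≤ ε) ∧
      (∀ j, 3 ≤ j → j + 4 ≤ k → mu (symmDiff (Th d β α κ j aB (aB + H)) {x | ψ x = (-1) ^ j}) ≤ ε) ∧
      ∑ p ∈ (PW d α (w * mB)).filter (fun p => ψ (ucl d p) = 1), 1 / (p : ℝ) ≤ r + mB * M * κD := by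
  have hκD0 : 0 < κD := lt_of_lt_of_le hm hmD
  have hr0 : 0 ≤ m1 * M * κD := by positivity
  have hwn : ∀ n : ℕ, 1 ≤ n → α ≤ w * n := by
    intro n hn
    have h1 : (1 : ℝ) ≤ n := by exact_mod_cast hn
    nlinarith
  -- the dense classes below `s0`
  have hnd0 : ∀ c, c ≠ t → ∀ n : ℕ, 1 ≤ n → w * (n + 1) ≤ s0 → mc d N (w * n) (w * (n + 1)) c < κD := by
    intro c hc n hn hws
    exact lt_of_le_of_lt ((mc_le_nt (hwn n hn) hws hc).trans hnt) hrD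
  have hQA : ∀ u, u + σ ≤ aT → ∀ x ∈ QQ d N t w κD u, x ∈ A := by
    intro u hu x hx
    have h1 := dense_mem (i := 7) hβ hα hw hw0 hαw hσ (by push_cast; linarith) hu (by push_cast; linarith) (by norm_num)
      (by push_cast; linarith) hH (hκ0 7).le hC0 N t hm hmD hnd0 (by
        intro a ha hb
        have h2 := mc_t_ge (N := N) (t := t) (α := α) (s := s0) (a := a) (b := a + w) ha hb
        have h3 := hWin a ha (by linarith)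
        linarith) hCT {x | x * (t ^ 7)⁻¹ ∈ A} (hmdl.apT 7 (by norm_num) (by omega)) hβN hsm7 x hx
    have h2 : t ^ 7 * x * (t ^ 7)⁻¹ ∈ A := h1
    have h3 : t ^ 7 * x * (t ^ 7)⁻¹ = x := by
      rw [mul_comm (t ^ 7) x, mul_assoc, mul_inv_cancel]
      exact mul_one x
    rwa [h3] at h2
  -- gaps at most `4`
  have hgap3 : ∀ x, ∃ j : ℕ, j ≤ 3 ∧ x * (t ^ j)⁻¹ ∈ QQ d N t w κD v := by
    intro x
    obtain ⟨j, h1, h2⟩ := hANP3 (fun x hx => ((mc_le_nt le_rfl le_rfl hx).trans hnt).trans hr3) x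
    exact ⟨j, h1, qq_mono hκD3 le_rfl h2⟩
  have hwm1 : 0 ≤ w * (m1 : ℝ) := by positivity
  have hfill3 := fill3 A hmdl.disj hmdl.cov hst (u := w * m1) (v := v) hwm1 (fun x hx => hQA (v + w * m1) (by linarith) x hx) hgap3
  have hnd1 : ∀ c, c ≠ t → ∀ n : ℕ, 1 ≤ n → w * (n + 1) ≤ w * m1 → mc d N (w * n) (w * (n + 1)) c < κD := by
    intro c hc n hn hws
    by_contra hcon
    have h1 := hfill3 _ (qq_single hc hn (not_lt.1 hcon) hws)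
    exact hc (div_eq_one.1 h1)
  have hnt1 : nt d N t α (w * m1) ≤ r + m1 * M * κD :=
    nt_le hN hκD0.le hw hw0.le hnt (fun c hc n hn h => (hnd1 c hc n hn h).le) m1 le_rfl
  have hnts1 : nt d N t α s1 ≤ r + m1 * M * κD := (nt_mono le_rfl hm1).trans hnt1
  -- gaps at most `2`
  have hgap1 : ∀ x, ∃ j : ℕ, j ≤ 1 ∧ x * (t ^ j)⁻¹ ∈ QQ d N t w κD v := by
    intro x
    obtain ⟨j, h1, h2⟩ := hANP1 (fun x hx => ((mc_le_nt le_rfl le_rfl hx).trans hnts1).trans hr1) x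
    exact ⟨j, h1, qq_mono hκD1 le_rfl h2⟩
  have hQB : ∀ u, u + σ ≤ aB → ∀ x ∈ QQ d N t w κD u, γ * x⁻¹ ∉ A := by
    intro u hu x hx
    have h1 := dense_mem (i := 4) hβ hα hw (lt_of_lt_of_le hw0 hs01) hαw hσ (by push_cast; linarith) hu (by push_cast; linarith)
      (by norm_num) (by push_cast; linarith) hH (hκ0 4).le hC0 N t hm hmD
      (fun c hc n hn hws => hnd1 c hc n hn (hws.trans hm1)) (by
        intro a ha hb
        have h2 := mc_t_ge (N := N) (t := t) (α := α) (s := s1) (a := a) (b := a + w) ha hb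
        have h3 := hWin a ha (by linarith)
        linarith) hCB {x | γ * t ^ 4 * x⁻¹ ∉ A} (hmdl.apB 4 (by norm_num) (by omega)) hβN hsm4 x hx
    have h2 : γ * t ^ 4 * (t ^ 4 * x)⁻¹ ∉ A := h1
    have h3 : γ * t ^ 4 * (t ^ 4 * x)⁻¹ = γ * x⁻¹ := gen1 γ (t ^ 4) x
    rwa [h3] at h2
  obtain ⟨e1, e2, e3, e4, e5⟩ := end1 A hmdl.disj hst hv (fun x hx => hQA v (by linarith) x hx)
    (fun x hx => hQB (v + v) (by linarith) x hx) hgap1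
  obtain ⟨ψ, hψ1, hψ2⟩ := psi_of e1 e2 e5
  refine ⟨ψ, hψ1, ?_, ?_, ?_⟩
  · intro i hi1 hi2
    have h1 := hmdl.apT i hi1 hi2
    have h2 : {x : (ZMod d)ˣ | ψ x = (-1) ^ i} = {x : (ZMod d)ˣ | (x : (ZMod d)ˣ ⧸ N) * (t ^ i)⁻¹ ∈ A} := by
      ext x
      rw [Set.mem_ofPred_eq, Set.mem_ofPred_eq, hψ2, e4, Set.mem_singleton_iff, mul_inv_eq_one]
    rw [h2]
    exact h1
  · intro j hj1 hj2
    have h1 := hmdl.apB j hj1 hj2
    have h2 : {x : (ZMod d)ˣ | ψ x = (-1) ^ j} = {x : (ZMod d)ˣ | γ * t ^ j * (x : (ZMod d)ˣ ⧸ N)⁻¹ ∉ A} := by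
      ext x
      rw [Set.mem_ofPred_eq, Set.mem_ofPred_eq, ← neg_pow_ne, e4, Set.mem_singleton_iff, mul_inv_eq_one, e3, ne_eq, hψ2]
      refine not_congr ⟨fun h => ?_, fun h => ?_⟩
      · rw [h, pow_succ']
      · rw [← h, pow_succ']
    rw [h2]
    exact h1
  · have hnd2 : ∀ c, c ≠ t → ∀ n : ℕ, 1 ≤ n → w * (n + 1) ≤ w * mB → mc d N (w * n) (w * (n + 1)) c ≤ κD := by
      intro c hc n hn hws
      by_contra hcon
      have h1 := hQB (w * mB) hmB _ (qq_single hc hn (not_le.1 hcon).le hws)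
      rw [e3, e4, Set.mem_singleton_iff, mul_inv_eq_one] at h1
      rcases e5 (c / t) with h2 | h2
      · exact hc (div_eq_one.1 h2)
      · exact h1 h2.symm
    refine le_trans ?_ (nt_le hN hκD0.le hw hw0.le hnt hnd2 mB le_rfl)
    unfold nt Wt
    refine sum_le_sum_of_subset_of_nonneg ?_ fun _ _ _ => by positivity
    intro p hp
    rw [mem_filter] at hp ⊢
    refine ⟨hp.1, fun h => ?_⟩
    have h1 := (hψ2 (ucl d p) 0).1 (by rw [pow_zero]; exact hp.2)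
    rw [pow_zero, h] at h1
    exact e1 h1

end Pool.Agent.Lib.MP_42948a_nt.TS
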