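import Pool.Agent.Lib.MP_42948a_nt.TS.St1

/-!
# Fourth step: the classes of the right parity
-/

set_option linter.unusedSectionVars false

namespace Pool.Agent.Lib.MP_42948a_nt.TS

open Finset Pool.Agent.Lib.MP_42948a_nt.OA Pool.Agent.Lib.MP_42948a_nt.TQ Pool.Agent.Lib.MP_42948a_nt.PS
  Pool.Agent.Lib.MP_42948a_nt.TF

section grp

variable {G : Type*} [CommGroup G] [Fintype G]

/-- the density of a class of a real character -/
theorem mu_psi {ψ : G →* ℤˣ} (hψ : ψ ≠ 1) (u : ℤˣ) : mu {x : G | ψ x = u} = 1 / 2 := by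
  obtain ⟨y, hy⟩ : ∃ y, ψ y ≠ 1 := by
    by_contra hcon
    push Not at hcon
    exact hψ (MonoidHom.ext hcon)
  have hy' : ψ y = -1 := by
    rcases Int.units_eq_one_or (ψ y) with h | h
    · exact absurd h hy
    · exact h
  have h1 : mu {x : G | ψ x = u} = mu {x : G | ψ x = -u} := by
    rw [← mu_tr y {x : G | ψ x = u}]
    congr 1
    ext x
    rw [mem_tr, Set.mem_ofPred_eq, Set.mem_ofPred_eq, map_mul, map_inv, hy']
    rcases Int.units_eq_one_or (ψ x) with h | h <;> rcases Int.units_eq_one_or u with h2 | h2 <;> rw [h, h2] <;> decide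
  have h2 : mu ({x : G | ψ x = u} ∪ {x : G | ψ x = -u}) = 1 := by
    have h3 : {x : G | ψ x = u} ∪ {x : G | ψ x = -u} = Set.univ := by
      ext x
      rw [Set.mem_union, Set.mem_ofPred_eq, Set.mem_ofPred_eq]
      rcases Int.units_eq_one_or (ψ x) with h | h <;> rcases Int.units_eq_one_or u with h2 | h2 <;> rw [h, h2] <;> simp
    rw [h3, mu, Set.ncard_univ, Nat.card_eq_fintype_card, div_self card_pos.ne']
  have h4 : mu ({x : G | ψ x = u} ∪ {x : G | ψ x = -u}) = mu {x : G | ψ x = u} + mu {x : G | ψ x = -u} := by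
    unfold mu
    rw [← add_div, ← Nat.cast_add, Set.ncard_union_eq ?_ (Set.toFinite _) (Set.toFinite _)]
    rw [Set.disjoint_left]
    intro x hx hx2
    rw [Set.mem_ofPred_eq] at hx hx2
    rw [hx] at hx2
    rcases Int.units_eq_one_or u with h2 | h2 <;> rw [h2] at hx2 <;> revert hx2 <;> decide
  linarith

/-- two sets which are almost the same class of `ψ` meet -/
theorem mu_pair_psi {ψ : G →* ℤˣ} (hψ : ψ ≠ 1) {i j : ℕ} {T B : Set G} {ε : ℝ} (hT : mu (symmDiff T {x | ψ x = (-1) ^ i}) ≤ ε)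
    (hB : mu (symmDiff B {x | ψ x = (-1) ^ j}) ≤ ε) {g : G} (hg : ψ g = (-1) ^ (i + j)) : 1 / 2 - 2 * ε ≤ mu (T ∩ rf g B) := by
  have h1 := mu_psi hψ ((-1) ^ i)
  have h2 : mu {x : G | ψ x = (-1) ^ i} ≤ mu (T ∩ rf g B) + mu (symmDiff T {x | ψ x = (-1) ^ i}) +
      mu (rf g (symmDiff B {x | ψ x = (-1) ^ j})) := by
    refine mu_cov3 fun x hx => ?_
    rw [Set.mem_ofPred_eq] at hx
    by_cases h3 : x ∈ T
    · by_cases h4 : g * x⁻¹ ∈ B
      · exact Or.inl ⟨h3, h4⟩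
      · refine Or.inr (Or.inr ?_)
        rw [mem_rf]
        refine Or.inr ⟨?_, h4⟩
        rw [Set.mem_ofPred_eq, map_mul, map_inv, hx, hg, pow_add, mul_comm ((-1 : ℤˣ) ^ i), mul_inv_cancel_right]
    · exact Or.inr (Or.inl (Or.inr ⟨hx, h3⟩))
  rw [mu_rf] at h2
  linarith

end grp

variable {d : ℕ} [NeZero d]

open Classical in
/-- the classes of the right parity are represented, up to a set of small density -/
theorem right_small {ψ : (ZMod d)ˣ →* ℤˣ} (hψ : ψ ≠ 1) {U : Finset ℕ} (hW : 0 < Wt U)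
    (hU : ∑ p ∈ U.filter (fun p => ψ (ucl d p) = 1), 1 / (p : ℝ) ≤ Wt U / 2) {T B : Set (ZMod d)ˣ} {i j : ℕ} {ε : ℝ}
    (hT : mu (symmDiff T {x | ψ x = (-1) ^ i}) ≤ ε) (hB : mu (symmDiff B {x | ψ x = (-1) ^ j}) ≤ ε) (hε : ε ≤ 1 / 8)
    {f : (ZMod d)ˣ → ℝ} {a D : ℝ} (ha : 0 < a) (hf0 : ∀ g, 0 ≤ f g) (hf : ∀ g, a * mu (T ∩ rf g B) ≤ f g) (E : Finset (ZMod d)ˣ)
    (hE : ∀ z ∈ E, ψ z = (-1) ^ (i + j + 1))
    (hblk : (∑ z ∈ E, ∑ p ∈ U, 1 / (p : ℝ) * f (z * (ucl d p)⁻¹)) / (Fintype.card (ZMod d)ˣ : ℝ) ≤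
      Wt U * D * √(mu (E : Set (ZMod d)ˣ))) : mu (E : Set (ZMod d)ˣ) ≤ (8 * D / a) ^ 2 := by
  have hφ : (0 : ℝ) < (Fintype.card (ZMod d)ˣ : ℝ) := card_pos
  -- the inert primes
  have h1 : ∀ z ∈ E, Wt U * (a / 8) ≤ ∑ p ∈ U, 1 / (p : ℝ) * f (z * (ucl d p)⁻¹) := by
    intro z hz
    have h2 : ∑ p ∈ U.filter (fun p => ¬ ψ (ucl d p) = 1), 1 / (p : ℝ) * (a / 4) ≤ ∑ p ∈ U, 1 / (p : ℝ) * f (z * (ucl d p)⁻¹) := by
      refine le_trans (sum_le_sum fun p hp => ?_) (sum_le_sum_of_subset_of_nonneg (filter_subset _ _) fun p _ _ =>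
        mul_nonneg (by positivity) (hf0 _))
      refine mul_le_mul_of_nonneg_left ?_ (by positivity)
      have h3 : ψ (ucl d p) = -1 := by
        rcases Int.units_eq_one_or (ψ (ucl d p)) with h | h
        · exact absurd h (mem_filter.1 hp).2
        · exact h
      have h4 : ψ (z * (ucl d p)⁻¹) = (-1) ^ (i + j) := by
        rw [map_mul, map_inv, hE z hz, h3, pow_succ, mul_inv_cancel_right]
      have h5 := mu_pair_psi hψ hT hB h4
      have h6 := hf (z * (ucl d p)⁻¹)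
      nlinarith
    have h3 : ∑ p ∈ U.filter (fun p => ¬ ψ (ucl d p) = 1), 1 / (p : ℝ) = Wt U - ∑ p ∈ U.filter (fun p => ψ (ucl d p) = 1), 1 / (p : ℝ) := by
      rw [Wt, ← sum_filter_add_sum_filter_not U (fun p => ψ (ucl d p) = 1)]
      ring
    rw [← sum_mul, h3] at h2
    nlinarith
  have h2 : (E.card : ℝ) * (Wt U * (a / 8)) ≤ ∑ z ∈ E, ∑ p ∈ U, 1 / (p : ℝ) * f (z * (ucl d p)⁻¹) := by
    rw [← nsmul_eq_mul, ← sum_const]
    exact sum_le_sum h1
  have hmu : mu (E : Set (ZMod d)ˣ) = (E.card : ℝ) / (Fintype.card (ZMod d)ˣ : ℝ) := by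
    rw [mu, Set.ncard_coe_finset]
  have h3 : mu (E : Set (ZMod d)ˣ) * (Wt U * (a / 8)) ≤ Wt U * D * √(mu (E : Set (ZMod d)ˣ)) := by
    refine le_trans ?_ hblk
    rw [hmu, div_mul_eq_mul_div]
    exact div_le_div_of_nonneg_right h2 hφ.le
  obtain ⟨m, hm⟩ : ∃ m, m = mu (E : Set (ZMod d)ˣ) := ⟨_, rfl⟩
  rw [← hm] at h3 ⊢
  have hm0 : 0 ≤ m := by
    rw [hm]
    exact mu_nonneg _
  rcases hm0.eq_or_lt with h4 | h4
  · rw [← h4]
    positivity
  · have h5 : 0 < √m := Real.sqrt_pos.2 h4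
    have h6 : √m * √m = m := Real.mul_self_sqrt hm0
    have h7 : √m ≤ 8 * D / a := by
      rw [le_div_iff₀ ha]
      have h8 : (Wt U * √m) * (√m * (a / 8)) ≤ (Wt U * √m) * D := by
        calc (Wt U * √m) * (√m * (a / 8)) = (√m * √m) * (Wt U * (a / 8)) := by ring
          _ = m * (Wt U * (a / 8)) := by rw [h6]
          _ ≤ Wt U * D * √m := h3
          _ = (Wt U * √m) * D := by ring
      have h9 := le_of_mul_le_mul_left h8 (mul_pos hW h5)
      linarith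
    calc m = √m * √m := h6.symm
      _ ≤ (8 * D / a) * (8 * D / a) := mul_le_mul h7 h7 h5.le (h5.le.trans h7)
      _ = (8 * D / a) ^ 2 := by ring

end Pool.Agent.Lib.MP_42948a_nt.TS
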