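import Pool.Agent.Lib.MP_42948a_nt.TF.U1
import Pool.Agent.Lib.MP_42948a_nt.TF.T1
import Pool.Agent.Lib.MP_42948a_nt.TQ.A2
import Pool.Agent.Lib.MP_42948a_nt.PS.B2b
import Pool.Agent.Lib.MP_42948a_nt.PO.Q2

/-!
# The convolution of two densities is bounded
-/

set_option linter.unusedSectionVars false

namespace Pool.Agent.Lib.MP_42948a_nt.TS

open Finset Pool.Agent.Lib.MP_42948a_nt.OA Pool.Agent.Lib.MP_42948a_nt.TQ Pool.Agent.Lib.MP_42948a_nt.PS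
  Pool.Agent.Lib.MP_42948a_nt.TF

open Classical in
private theorem SupC_block {K z : ℕ} {u l : Finset ℕ → ℝ} (hF : Fund 1 K z u l) (d : ℕ) [NeZero d] (M : ℕ) (hM : 1 ≤ M)
    (x : (ZMod d)ˣ) :
    ∑ n ∈ (Ioc M (2 * M)).filter (fun n : ℕ => Rough z n ∧ (n : ZMod d) = (x : ZMod d)), 1 / (n : ℝ) ≤
      2 / (d : ℝ) * VV d z + 2 * (z : ℝ) ^ K / M := by
  have hM0 : (0 : ℝ) < (M : ℝ) := by exact_mod_cast hM
  have h1 := class_block hF d M x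
  have h2 : ∀ n ∈ (Ioc M (2 * M)).filter (fun n : ℕ => Rough z n ∧ (n : ZMod d) = (x : ZMod d)), 1 / (n : ℝ) ≤ 1 / (M : ℝ) := by
    intro n hn
    have h3 : M < n := (mem_Ioc.1 (mem_filter.1 hn).1).1
    exact one_div_le_one_div_of_le hM0 (by exact_mod_cast h3.le)
  have h4 := Finset.sum_le_sum h2
  rw [Finset.sum_const, nsmul_eq_mul] at h4
  refine h4.trans ?_
  rw [mul_one_div, div_le_iff₀ hM0]
  refine h1.trans (le_of_eq ?_)
  have hd : (d : ℝ) ≠ 0 := by exact_mod_cast NeZero.ne d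
  field_simp
  ring

open Classical in
private theorem SupC_blocks {K z : ℕ} {u l : Finset ℕ → ℝ} (hF : Fund 1 K z u l) (d : ℕ) [NeZero d] (N : ℕ) (hN : 1 ≤ N)
    (x : (ZMod d)ˣ) (J : ℕ) :
    ∑ n ∈ (Ioc N (2 ^ J * N)).filter (fun n : ℕ => Rough z n ∧ (n : ZMod d) = (x : ZMod d)), 1 / (n : ℝ) ≤
      (J : ℝ) * (2 / (d : ℝ) * VV d z + 2 * (z : ℝ) ^ K / N) := by
  have hN0 : (0 : ℝ) < (N : ℝ) := by exact_mod_cast hN
  induction J with
  | zero => simp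
  | succ J ih =>
    have hpow : 1 ≤ 2 ^ J := Nat.one_le_two_pow
    have hle : N ≤ 2 ^ J * N := by nlinarith
    have h1 : Ioc N (2 ^ (J + 1) * N) = Ioc N (2 ^ J * N) ∪ Ioc (2 ^ J * N) (2 * (2 ^ J * N)) := by
      rw [Finset.Ioc_union_Ioc_eq_Ioc hle (by omega)]
      rw [pow_succ]
      ring_nf
    rw [h1, Finset.filter_union]
    have h2 : Disjoint ((Ioc N (2 ^ J * N)).filter (fun n : ℕ => Rough z n ∧ (n : ZMod d) = (x : ZMod d)))
        ((Ioc (2 ^ J * N) (2 * (2 ^ J * N))).filter (fun n : ℕ => Rough z n ∧ (n : ZMod d) = (x : ZMod d))) := by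
      rw [Finset.disjoint_left]
      intro n hn hn'
      have h3 := (mem_Ioc.1 (mem_filter.1 hn).1).2
      have h4 := (mem_Ioc.1 (mem_filter.1 hn').1).1
      omega
    rw [Finset.sum_union h2]
    have h5 := SupC_block hF d (2 ^ J * N) (by omega) x
    have h6 : 2 * (z : ℝ) ^ K / ((2 ^ J * N : ℕ) : ℝ) ≤ 2 * (z : ℝ) ^ K / N := by
      refine div_le_div_of_nonneg_left (by positivity) hN0 ?_
      exact_mod_cast hle
    push_cast
    push_cast at h5 h6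
    linarith

open Classical in
/-- the rough numbers of a class in a window beyond `d` -/
theorem rough_class (α A B : ℝ) (hα : 0 < α) (hA : 1 < A) (hAB : A ≤ B) : ∃ C : ℝ, 0 < C ∧ ∃ d0 : ℕ, ∀ d : ℕ, d0 ≤ d → ∀ [NeZero d],
    ∀ x : (ZMod d)ˣ, (Fintype.card (ZMod d)ˣ : ℝ) * ∑ n ∈ (Ioc ⌊(d : ℝ) ^ A⌋₊ ⌊(d : ℝ) ^ B⌋₊).filter
      (fun n : ℕ => Rough ⌊(d : ℝ) ^ α⌋₊ n ∧ (n : ZMod d) = (x : ZMod d)), 1 / (n : ℝ) ≤ C := by
  obtain ⟨K, hK⟩ := fund 1 one_pos le_rfl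
  obtain ⟨ε, hε⟩ : ∃ ε : ℝ, ε = (A - 1) / 2 := ⟨_, rfl⟩
  have hε0 : 0 < ε := by
    rw [hε]
    linarith
  have hAε : A = 1 + 2 * ε := by
    rw [hε]
    ring
  have hB0 : 0 < B := by linarith
  obtain ⟨v, hv⟩ : ∃ v : ℝ, v = min α (ε / ((K : ℝ) + 1)) := ⟨_, rfl⟩
  have hK1 : (0 : ℝ) < (K : ℝ) + 1 := by positivity
  have hv0 : 0 < v := by
    rw [hv]
    exact lt_min hα (by positivity)
  have hvα : v ≤ α := by
    rw [hv]
    exact min_le_left _ _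
  have hvK : v * K ≤ ε := by
    have h1 : v ≤ ε / ((K : ℝ) + 1) := by
      rw [hv]
      exact min_le_right _ _
    have h2 : v * K ≤ ε / ((K : ℝ) + 1) * ((K : ℝ) + 1) := by
      refine mul_le_mul h1 (by linarith) (by positivity) (by positivity)
    refine h2.trans (le_of_eq ?_)
    field_simp
  refine ⟨4 * (2 * B + 1) / v + 1, by positivity, ?_⟩
  have e1 : ∀ᶠ d : ℕ in Filter.atTop, (2 : ℝ) ≤ (d : ℝ) ^ (v / 2) :=
    ((tendsto_rpow_atTop (show 0 < v / 2 by positivity)).comp tendsto_natCast_atTop_atTop).eventually_ge_atTop 2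
  have e2 : ∀ᶠ d : ℕ in Filter.atTop, 4 * (2 * B + 1) / (ε / 2) ≤ (d : ℝ) ^ (ε / 2) :=
    ((tendsto_rpow_atTop (show 0 < ε / 2 by positivity)).comp tendsto_natCast_atTop_atTop).eventually_ge_atTop
      (4 * (2 * B + 1) / (ε / 2))
  have e3 : ∀ᶠ d : ℕ in Filter.atTop, 1 ≤ Real.log (d : ℝ) :=
    (Real.tendsto_log_atTop.comp tendsto_natCast_atTop_atTop).eventually_ge_atTop 1
  obtain ⟨d0, hd0⟩ := Filter.eventually_atTop.1 (e1.and (e2.and (e3.and (Filter.eventually_ge_atTop 3))))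
  refine ⟨d0, ?_⟩
  intro d hd _ x
  obtain ⟨h1, h2, h3, h4⟩ := hd0 d hd
  have hdR : (3 : ℝ) ≤ (d : ℝ) := by exact_mod_cast h4
  have hd1 : (1 : ℝ) ≤ (d : ℝ) := by linarith
  have hdp : (0 : ℝ) < (d : ℝ) := by linarith
  obtain ⟨L, hL⟩ : ∃ L : ℝ, L = Real.log (d : ℝ) := ⟨_, rfl⟩
  rw [← hL] at h3
  -- the parameter `z`
  obtain ⟨z, hz⟩ : ∃ z : ℕ, z = ⌊(d : ℝ) ^ v⌋₊ := ⟨_, rfl⟩
  have hdv : (d : ℝ) ^ v = (d : ℝ) ^ (v / 2) * (d : ℝ) ^ (v / 2) := by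
    rw [← Real.rpow_add hdp]
    congr 1
    ring
  have hzlow : (d : ℝ) ^ (v / 2) ≤ (z : ℝ) := by
    have h5 : (d : ℝ) ^ v < (z : ℝ) + 1 := by
      rw [hz]
      exact Nat.lt_floor_add_one _
    nlinarith
  have hzup : (z : ℝ) ≤ (d : ℝ) ^ v := by
    rw [hz]
    exact Nat.floor_le (by positivity)
  have hz2 : 2 ≤ z := by
    have h5 : (2 : ℝ) ≤ (z : ℝ) := h1.trans hzlow
    exact_mod_cast h5
  obtain ⟨u, l, hF⟩ := hK z hz2
  have hlogz : v / 2 * L ≤ Real.log (z : ℝ) := by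
    have h5 := Real.log_le_log (by positivity) hzlow
    rwa [Real.log_rpow hdp, ← hL] at h5
  -- the windows
  obtain ⟨N1, hN1⟩ : ∃ N1 : ℕ, N1 = ⌊(d : ℝ) ^ A⌋₊ := ⟨_, rfl⟩
  obtain ⟨N2, hN2⟩ : ∃ N2 : ℕ, N2 = ⌊(d : ℝ) ^ B⌋₊ := ⟨_, rfl⟩
  have hd1e : (2 : ℝ) ≤ (d : ℝ) ^ A := by
    have h5 : (d : ℝ) ^ (1 : ℝ) ≤ (d : ℝ) ^ A := Real.rpow_le_rpow_of_exponent_le hd1 (by linarith)
    rw [Real.rpow_one] at h5
    linarith
  have hN1low : (d : ℝ) ^ A / 2 ≤ (N1 : ℝ) := by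
    have h5 : (d : ℝ) ^ A < (N1 : ℝ) + 1 := by
      rw [hN1]
      exact Nat.lt_floor_add_one _
    linarith
  have hN1pos : 1 ≤ N1 := by
    have h5 : (1 : ℝ) ≤ (N1 : ℝ) := by linarith
    exact_mod_cast h5
  have hN1R : (0 : ℝ) < (N1 : ℝ) := by exact_mod_cast hN1pos
  have hN2up : (N2 : ℝ) ≤ (d : ℝ) ^ B := by
    rw [hN2]
    exact Nat.floor_le (by positivity)
  have hN12 : N1 ≤ N2 := by
    rw [hN1, hN2]
    exact Nat.floor_mono (Real.rpow_le_rpow_of_exponent_le hd1 hAB)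
  have hN2ne : N2 ≠ 0 := by omega
  obtain ⟨J, hJ⟩ : ∃ J : ℕ, J = Nat.log 2 N2 + 1 := ⟨_, rfl⟩
  have hJ2 : N2 ≤ 2 ^ J * N1 := by
    have h5 : N2 < 2 ^ (Nat.log 2 N2 + 1) := Nat.lt_pow_succ_log_self (by norm_num) N2
    rw [← hJ] at h5
    nlinarith
  have hJL : (J : ℝ) ≤ (2 * B + 1) * L := by
    have h5 : 2 ^ Nat.log 2 N2 ≤ N2 := Nat.pow_log_le_self 2 hN2ne
    have h6 : ((2 : ℝ) ^ Nat.log 2 N2) ≤ (d : ℝ) ^ B := by
      refine le_trans ?_ hN2up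
      exact_mod_cast h5
    have h7 := Real.log_le_log (by positivity) h6
    rw [Real.log_pow, Real.log_rpow hdp, ← hL] at h7
    have h8 := Real.log_two_gt_d9
    have h9 : (0 : ℝ) ≤ (Nat.log 2 N2 : ℝ) := Nat.cast_nonneg _
    rw [hJ]
    push_cast
    nlinarith
  have hJ0 : (0 : ℝ) ≤ (J : ℝ) := Nat.cast_nonneg _
  have hφ0 : (0 : ℝ) ≤ (Fintype.card (ZMod d)ˣ : ℝ) := Nat.cast_nonneg _
  have hφd : (Fintype.card (ZMod d)ˣ : ℝ) ≤ (d : ℝ) := by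
    rw [ZMod.card_units_eq_totient]
    exact_mod_cast Nat.totient_le d
  -- comparison of the sums
  have hsub : ∑ n ∈ (Ioc ⌊(d : ℝ) ^ A⌋₊ ⌊(d : ℝ) ^ B⌋₊).filter
      (fun n : ℕ => Rough ⌊(d : ℝ) ^ α⌋₊ n ∧ (n : ZMod d) = (x : ZMod d)), 1 / (n : ℝ) ≤
      ∑ n ∈ (Ioc N1 (2 ^ J * N1)).filter (fun n : ℕ => Rough z n ∧ (n : ZMod d) = (x : ZMod d)), 1 / (n : ℝ) := by
    refine Finset.sum_le_sum_of_subset_of_nonneg ?_ ?_
    · intro n hn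
      rw [Finset.mem_filter, Finset.mem_Ioc, ← hN1, ← hN2] at hn
      obtain ⟨⟨h7, h8⟩, h9, h10⟩ := hn
      rw [Finset.mem_filter, Finset.mem_Ioc]
      refine ⟨⟨h7, h8.trans hJ2⟩, ⟨h9.1, ?_⟩, h10⟩
      intro p hp hpn
      refine lt_of_le_of_lt ?_ (h9.2 p hp hpn)
      rw [hz]
      exact Nat.floor_mono (Real.rpow_le_rpow_of_exponent_le hd1 hvα)
    · intro n _ _
      positivity
  refine (mul_le_mul_of_nonneg_left (hsub.trans (SupC_blocks hF d N1 hN1pos x J)) hφ0).trans ?_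
  have hA' : (Fintype.card (ZMod d)ˣ : ℝ) * ((J : ℝ) * (2 / (d : ℝ) * VV d z)) ≤ 4 * (2 * B + 1) / v := by
    have h5 := PS.VV_upper d z hz2
    have hlz : 0 < v / 2 * L := by positivity
    have h6 : VV d z * ((Fintype.card (ZMod d)ˣ : ℝ) / d) ≤ 1 / (v / 2 * L) :=
      h5.trans (one_div_le_one_div_of_le hlz hlogz)
    have h7 : (Fintype.card (ZMod d)ˣ : ℝ) * ((J : ℝ) * (2 / (d : ℝ) * VV d z)) =
        2 * (J : ℝ) * (VV d z * ((Fintype.card (ZMod d)ˣ : ℝ) / d)) := by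
      field_simp
    rw [h7]
    have h8 : 2 * (J : ℝ) * (VV d z * ((Fintype.card (ZMod d)ˣ : ℝ) / d)) ≤ 2 * (J : ℝ) * (1 / (v / 2 * L)) :=
      mul_le_mul_of_nonneg_left h6 (by positivity)
    refine h8.trans ?_
    have h9 : 2 * (J : ℝ) * (1 / (v / 2 * L)) ≤ 2 * ((2 * B + 1) * L) * (1 / (v / 2 * L)) :=
      mul_le_mul_of_nonneg_right (by linarith) (by positivity)
    refine h9.trans (le_of_eq ?_)
    have hL0 : L ≠ 0 := by linarith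
    field_simp
    ring
  have hB' : (Fintype.card (ZMod d)ˣ : ℝ) * ((J : ℝ) * (2 * (z : ℝ) ^ K / N1)) ≤ 1 := by
    have hzK : (z : ℝ) ^ K ≤ (d : ℝ) ^ ε := by
      have h5 : (z : ℝ) ^ K ≤ ((d : ℝ) ^ v) ^ K := pow_le_pow_left₀ (Nat.cast_nonneg _) hzup K
      have h6 : ((d : ℝ) ^ v) ^ K = (d : ℝ) ^ (v * K) := by
        rw [Real.rpow_mul hdp.le, Real.rpow_natCast]
      rw [h6] at h5
      exact h5.trans (Real.rpow_le_rpow_of_exponent_le hd1 hvK)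
    have hN1b : 2 * (z : ℝ) ^ K / N1 ≤ 2 * (d : ℝ) ^ ε / ((d : ℝ) ^ A / 2) := by
      refine div_le_div₀ (by positivity) (by linarith) (by positivity) hN1low
    have hLd : L ≤ (d : ℝ) ^ (ε / 2) / (ε / 2) := by
      rw [hL]
      exact Real.log_le_rpow_div hdp.le (by positivity)
    have h5 : (Fintype.card (ZMod d)ˣ : ℝ) * ((J : ℝ) * (2 * (z : ℝ) ^ K / N1)) ≤
        (d : ℝ) * (((2 * B + 1) * ((d : ℝ) ^ (ε / 2) / (ε / 2))) * (2 * (d : ℝ) ^ ε / ((d : ℝ) ^ A / 2))) := by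
      refine mul_le_mul hφd ?_ (by positivity) hdp.le
      refine mul_le_mul (hJL.trans (mul_le_mul_of_nonneg_left hLd (by positivity))) hN1b (by positivity) (by positivity)
    refine h5.trans ?_
    obtain ⟨w, hw⟩ : ∃ w : ℝ, w = (d : ℝ) ^ (ε / 2) := ⟨_, rfl⟩
    have hw0 : 0 < w := by
      rw [hw]
      positivity
    have hw2 : (d : ℝ) ^ ε = w * w := by
      rw [hw, ← Real.rpow_add hdp]
      congr 1
      ring
    have hw4 : (d : ℝ) ^ A = d * (w * w * (w * w)) := by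
      rw [hAε, Real.rpow_add hdp, Real.rpow_one, ← hw2, ← Real.rpow_add hdp]
      congr 2
      ring
    rw [hw2, hw4, ← hw]
    rw [← hw] at h2
    have h6 : (d : ℝ) * (((2 * B + 1) * (w / (ε / 2))) * (2 * (w * w) / (d * (w * w * (w * w)) / 2))) =
        4 * (2 * B + 1) / (ε / 2) / w := by
      field_simp
      ring
    rw [h6, div_le_one hw0]
    exact h2
  have h5 : (Fintype.card (ZMod d)ˣ : ℝ) * ((J : ℝ) * (2 / (d : ℝ) * VV d z + 2 * (z : ℝ) ^ K / N1)) =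
      (Fintype.card (ZMod d)ˣ : ℝ) * ((J : ℝ) * (2 / (d : ℝ) * VV d z)) +
      (Fintype.card (ZMod d)ˣ : ℝ) * ((J : ℝ) * (2 * (z : ℝ) ^ K / N1)) := by ring
  rw [h5]
  linarith

open Classical in
/-- the convolution of two densities -/
theorem cv_den {d : ℕ} [NeZero d] (A B : Finset ℕ) (c : (ZMod d)ˣ) :
    cv (den A) (den B) c = (Fintype.card (ZMod d)ˣ : ℝ) *
      ∑ m ∈ A, ∑ n ∈ B, if ucl d m * ucl d n = c then 1 / ((m : ℝ) * n) else 0 := by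
  have hφ : (0 : ℝ) < (Fintype.card (ZMod d)ˣ : ℝ) := by exact_mod_cast Fintype.card_pos
  have h1 : ∀ y : (ZMod d)ˣ, den A y * den B (c * y⁻¹) = (Fintype.card (ZMod d)ˣ : ℝ) ^ 2 *
      ∑ m ∈ A, ∑ n ∈ B, if ucl d m = y then (if ucl d n = c * y⁻¹ then 1 / ((m : ℝ) * n) else 0) else 0 := by
    intro y
    unfold den
    rw [mul_mul_mul_comm, ← sq, sum_mul_sum]
    congr 1
    refine sum_congr rfl fun m _ => sum_congr rfl fun n _ => ?_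
    split_ifs
    · rw [one_div_mul_one_div]
    · rw [mul_zero]
    · rw [zero_mul]
    · rw [zero_mul]
  unfold cv av
  rw [sum_congr rfl (fun y _ => h1 y), ← mul_sum, sum_comm]
  have h2 : ∀ m ∈ A, ∑ y : (ZMod d)ˣ, ∑ n ∈ B, (if ucl d m = y then (if ucl d n = c * y⁻¹ then 1 / ((m : ℝ) * n) else 0) else 0) =
      ∑ n ∈ B, if ucl d m * ucl d n = c then 1 / ((m : ℝ) * n) else 0 := by
    intro m _
    rw [sum_comm]
    refine sum_congr rfl fun n _ => ?_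
    rw [sum_ite_eq univ (ucl d m), if_pos (mem_univ _)]
    have h3 : (ucl d n = c * (ucl d m)⁻¹) ↔ (ucl d m * ucl d n = c) := by
      rw [eq_mul_inv_iff_mul_eq, mul_comm]
    by_cases h4 : ucl d m * ucl d n = c
    · rw [if_pos h4, if_pos (h3.2 h4)]
    · rw [if_neg h4, if_neg (fun h5 => h4 (h3.1 h5))]
  rw [sum_congr rfl h2]
  field_simp

/-- The convolution of two densities of total exponent `> 1` is bounded. -/
theorem sup_cv {α a a' b b' : ℝ} (hα : 0 < α) (ha : 0 < a) (hb : 0 < b) (haa : a ≤ a') (hbb : b ≤ b') (hab : 1 < a + b) :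
    ∃ C : ℝ, 0 < C ∧ ∃ d0 : ℕ, ∀ d : ℕ, d0 ≤ d → ∀ [NeZero d], ∀ (i j : ℕ) (x : (ZMod d)ˣ),
      cv (den (EW d α i a a')) (den (EW d α j b b')) x ≤ C := by
  classical
  obtain ⟨C, hC, d1, hC1⟩ := rough_class α (a + b) (a' + b') hα hab (by linarith)
  obtain ⟨k, hk⟩ : ∃ k : ℕ, k = ⌈2 * (a' + b') / α⌉₊ := ⟨_, rfl⟩
  have hk1 : a' + b' ≤ α / 2 * k := by
    have h1 := Nat.le_ceil (2 * (a' + b') / α)
    rw [← hk, div_le_iff₀ hα] at h1
    linarith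
  have e1 : ∀ᶠ d : ℕ in Filter.atTop, (2 : ℝ) ≤ (d : ℝ) ^ (α / 2) :=
    ((tendsto_rpow_atTop (show 0 < α / 2 by positivity)).comp tendsto_natCast_atTop_atTop).eventually_ge_atTop 2
  obtain ⟨d2, hd2⟩ := Filter.eventually_atTop.1 e1
  refine ⟨2 ^ k * C, by positivity, max (max d1 d2) 1, fun d hd _ i j x => ?_⟩
  have hd1' : d1 ≤ d := ((le_max_left _ _).trans (le_max_left _ _)).trans hd
  have hd2' : d2 ≤ d := ((le_max_right _ _).trans (le_max_left _ _)).trans hd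
  have hd3 : 1 ≤ d := (le_max_right _ _).trans hd
  have hdR : (1 : ℝ) ≤ (d : ℝ) := by exact_mod_cast hd3
  have hdp : (0 : ℝ) < (d : ℝ) := by linarith
  have h2 := hd2 d hd2'
  have hφ : (0 : ℝ) ≤ (Fintype.card (ZMod d)ˣ : ℝ) := Nat.cast_nonneg _
  obtain ⟨z, hz⟩ : ∃ z : ℕ, z = ⌊(d : ℝ) ^ α⌋₊ := ⟨_, rfl⟩
  have hzlow : (d : ℝ) ^ (α / 2) ≤ (z : ℝ) := by
    have h5 : (d : ℝ) ^ α < (z : ℝ) + 1 := by
      rw [hz]
      exact Nat.lt_floor_add_one _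
    have h6 : (d : ℝ) ^ α = (d : ℝ) ^ (α / 2) * (d : ℝ) ^ (α / 2) := by
      rw [← Real.rpow_add hdp]
      congr 1
      ring
    nlinarith
  have hz2 : 2 ≤ z := by
    have h5 : (2 : ℝ) ≤ (z : ℝ) := h2.trans hzlow
    exact_mod_cast h5
  obtain ⟨W, hW⟩ : ∃ W : Finset ℕ, W = (Ioc ⌊(d : ℝ) ^ (a + b)⌋₊ ⌊(d : ℝ) ^ (a' + b')⌋₊).filter
      (fun n : ℕ => Rough ⌊(d : ℝ) ^ α⌋₊ n ∧ (n : ZMod d) = (x : ZMod d)) := ⟨_, rfl⟩
  have key := hC1 d hd1' x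
  rw [← hW] at key
  -- the pairs
  obtain ⟨P, hP⟩ : ∃ P : Finset (ℕ × ℕ), P = ((EW d α i a a') ×ˢ (EW d α j b b')).filter
      (fun q : ℕ × ℕ => ucl d q.1 * ucl d q.2 = x) := ⟨_, rfl⟩
  have hPW : ∀ q ∈ P, q.1 * q.2 ∈ W := by
    intro q hq
    rw [hP, mem_filter, mem_product] at hq
    obtain ⟨⟨h5, h6⟩, h7⟩ := hq
    unfold EW at h5 h6
    rw [mem_filter, mem_Ioc] at h5 h6
    obtain ⟨⟨a1, a2⟩, a3, a4, _⟩ := h5
    obtain ⟨⟨b1, b2⟩, b3, b4, _⟩ := h6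
    rw [hW, mem_filter, mem_Ioc]
    have k1 : (d : ℝ) ^ a < (q.1 : ℝ) := Nat.lt_of_floor_lt a1
    have k2 : (d : ℝ) ^ b < (q.2 : ℝ) := Nat.lt_of_floor_lt b1
    have k3 : (q.1 : ℝ) ≤ (d : ℝ) ^ a' := (Nat.le_floor_iff (by positivity)).1 a2
    have k4 : (q.2 : ℝ) ≤ (d : ℝ) ^ b' := (Nat.le_floor_iff (by positivity)).1 b2
    refine ⟨⟨?_, ?_⟩, a3.mul b3, ?_⟩
    · rw [Nat.floor_lt (by positivity), Nat.cast_mul, Real.rpow_add hdp]
      exact mul_lt_mul'' k1 k2 (by positivity) (by positivity)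
    · refine Nat.le_floor ?_
      rw [Nat.cast_mul, Real.rpow_add hdp]
      exact mul_le_mul k3 k4 (by positivity) (by positivity)
    · rw [← h7, Units.val_mul, ucl_val a4, ucl_val b4, Nat.cast_mul]
  have h3 : ∑ m ∈ EW d α i a a', ∑ n ∈ EW d α j b b', (if ucl d m * ucl d n = x then 1 / ((m : ℝ) * n) else 0) =
      ∑ q ∈ P, 1 / (((q.1 * q.2 : ℕ) : ℕ) : ℝ) := by
    rw [hP, sum_filter, sum_product]
    refine sum_congr rfl fun m _ => sum_congr rfl fun n _ => ?_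
    rw [Nat.cast_mul]
  have h4 : ∑ q ∈ P, 1 / (((q.1 * q.2 : ℕ) : ℕ) : ℝ) ≤ 2 ^ k * ∑ n ∈ W, 1 / (n : ℝ) := by
    rw [← sum_fiberwise_of_maps_to hPW, mul_sum]
    refine sum_le_sum fun n hn => ?_
    have h5 : ∀ q ∈ P.filter (fun q : ℕ × ℕ => q.1 * q.2 = n), 1 / (((q.1 * q.2 : ℕ) : ℕ) : ℝ) = 1 / (n : ℝ) := by
      intro q hq
      rw [(mem_filter.1 hq).2]
    rw [sum_congr rfl h5, sum_const, nsmul_eq_mul]
    refine mul_le_mul_of_nonneg_right ?_ (by positivity)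
    rw [hW, mem_filter, mem_Ioc] at hn
    obtain ⟨⟨_, n2⟩, n3, _⟩ := hn
    have h6 : n.divisors.card ≤ 2 ^ k := by
      refine PO.div_rough z k n hz2 (by rw [hz]; exact n3) ?_
      have k1 : (n : ℝ) ≤ (d : ℝ) ^ (a' + b') := (Nat.le_floor_iff (by positivity)).1 n2
      have k2 : (d : ℝ) ^ (a' + b') ≤ (z : ℝ) ^ k := by
        calc (d : ℝ) ^ (a' + b') ≤ (d : ℝ) ^ (α / 2 * k) := Real.rpow_le_rpow_of_exponent_le hdR hk1
          _ = ((d : ℝ) ^ (α / 2)) ^ k := by rw [Real.rpow_mul hdp.le, Real.rpow_natCast]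
          _ ≤ (z : ℝ) ^ k := pow_le_pow_left₀ (by positivity) hzlow k
      exact_mod_cast k1.trans k2
    have h7 : (P.filter (fun q : ℕ × ℕ => q.1 * q.2 = n)).card ≤ n.divisors.card := by
      refine card_le_card_of_injOn (fun q => q.1) ?_ ?_
      · intro q hq
        rw [mem_coe, mem_filter] at hq
        rw [mem_coe, Nat.mem_divisors]
        exact ⟨Dvd.intro _ hq.2, n3.1.ne'⟩
      · intro q hq q' hq' hqq
        rw [mem_coe, mem_filter] at hq hq'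
        have h8 : q.1 = q'.1 := hqq
        refine Prod.ext h8 ?_
        have h9 : q.1 * q.2 = q.1 * q'.2 := by
          rw [hq.2, h8, hq'.2]
        refine Nat.eq_of_mul_eq_mul_left ?_ h9
        by_contra h10
        have h11 : q.1 = 0 := by omega
        rw [h11, zero_mul] at hq
        have := n3.1
        omega
    exact_mod_cast h7.trans h6
  rw [cv_den, h3]
  calc (Fintype.card (ZMod d)ˣ : ℝ) * ∑ q ∈ P, 1 / (((q.1 * q.2 : ℕ) : ℕ) : ℝ) ≤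
      (Fintype.card (ZMod d)ˣ : ℝ) * (2 ^ k * ∑ n ∈ W, 1 / (n : ℝ)) := mul_le_mul_of_nonneg_left h4 hφ
    _ = 2 ^ k * ((Fintype.card (ZMod d)ˣ : ℝ) * ∑ n ∈ W, 1 / (n : ℝ)) := by ring
    _ ≤ 2 ^ k * C := mul_le_mul_of_nonneg_left key (by positivity)

end Pool.Agent.Lib.MP_42948a_nt.TS
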