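import Pool.Agent.Lib.MP_42948a_nt.EK.TI4
import Pool.Agent.Lib.MP_42948a_nt.TQ.A4
import Pool.Agent.Lib.MP_42948a_nt.PS.B2b

/-!
# The upper bound sieve as a function of the divisors
-/

set_option linter.unusedSectionVars false

namespace Pool.Agent.Lib.MP_42948a_nt.TS

open Finset Pool.Agent.Lib.MP_42948a_nt.EK Pool.Agent.Lib.MP_42948a_nt.OA Pool.Agent.Lib.MP_42948a_nt.AC
  Pool.Agent.Lib.MP_42948a_nt.TQ Pool.Agent.Lib.MP_42948a_nt.PS

open Classical in
/-- the coefficients of the upper weights -/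
noncomputable def omu (d z : ℕ) (u : Finset ℕ → ℝ) (m : ℕ) : ℝ :=
  if Squarefree m ∧ m.Coprime d ∧ m.primeFactors ⊆ PP z then u m.primeFactors else 0

theorem mem_PP' {z p : ℕ} : p ∈ PP z ↔ (1 ≤ p ∧ p ≤ z) ∧ p.Prime := by
  unfold PP
  rw [mem_filter, mem_Icc]

private theorem SupW_prod {z : ℕ} {T : Finset ℕ} (hT : T ⊆ PP z) :
    0 < ∏ p ∈ T, p ∧ Squarefree (∏ p ∈ T, p) ∧ (∏ p ∈ T, p).primeFactors = T := by
  have hp : ∀ p ∈ T, p.Prime := fun p hp => (mem_PP'.1 (hT hp)).2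
  have h1 : (∏ p ∈ T, p).primeFactors = T := Nat.primeFactors_prod hp
  refine ⟨Finset.prod_pos fun p h => (hp p h).pos, ?_, h1⟩
  refine Finset.squarefree_prod_of_pairwise_isCoprime ?_ (fun p h => (hp p h).squarefree)
  intro p h q h' hpq
  exact Nat.coprime_iff_isRelPrime.1 ((Nat.coprime_primes (hp p h) (hp q h')).2 hpq)

private theorem SupW_dvd {z n : ℕ} {T : Finset ℕ} (hT : T ⊆ PP z) (h : ∀ p ∈ T, p ∣ n) : ∏ p ∈ T, p ∣ n := by
  have hp : ∀ p ∈ T, p.Prime := fun p hp => (mem_PP'.1 (hT hp)).2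
  exact Finset.prod_primes_dvd n (fun p h' => (hp p h').prime) h

/-- the sum over the divisors -/
theorem omu_div (d z : ℕ) (u : Finset ℕ → ℝ) {n : ℕ} (hn : 0 < n) (hnd : n.Coprime d) :
    ∑ m ∈ n.divisors, omu d z u m = ∑ T ∈ (PP z).powerset, u T * (if ∀ p ∈ T, p ∣ n then (1 : ℝ) else 0) := by
  classical
  have h1 : ∑ T ∈ (PP z).powerset, u T * (if ∀ p ∈ T, p ∣ n then (1 : ℝ) else 0) =
      ∑ T ∈ (PP z).powerset.filter (fun T => ∀ p ∈ T, p ∣ n), u T := by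
    rw [sum_filter]
    refine sum_congr rfl fun T _ => ?_
    split_ifs
    · rw [mul_one]
    · rw [mul_zero]
  have h2 : ∑ m ∈ n.divisors, omu d z u m =
      ∑ m ∈ n.divisors.filter (fun m => Squarefree m ∧ m.primeFactors ⊆ PP z), u m.primeFactors := by
    rw [sum_filter]
    refine sum_congr rfl fun m hm => ?_
    have hmd : m.Coprime d := Nat.Coprime.coprime_dvd_left (Nat.dvd_of_mem_divisors hm) hnd
    unfold omu
    by_cases h : Squarefree m ∧ m.primeFactors ⊆ PP z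
    · rw [if_pos h, if_pos ⟨h.1, hmd, h.2⟩]
    · rw [if_neg h, if_neg (fun h' => h ⟨h'.1, h'.2.2⟩)]
  rw [h1, h2]
  refine sum_nbij' (fun m => m.primeFactors) (fun T => ∏ p ∈ T, p) ?_ ?_ ?_ ?_ ?_
  · intro m hm
    rw [mem_filter, Nat.mem_divisors] at hm
    rw [mem_filter, mem_powerset]
    exact ⟨hm.2.2, fun p hp => (Nat.dvd_of_mem_primeFactors hp).trans hm.1.1⟩
  · intro T hT
    rw [mem_filter, mem_powerset] at hT
    obtain ⟨h3, h4, h5⟩ := SupW_prod hT.1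
    rw [mem_filter, Nat.mem_divisors]
    refine ⟨⟨SupW_dvd hT.1 hT.2, hn.ne'⟩, h4, ?_⟩
    rw [h5]
    exact hT.1
  · intro m hm
    rw [mem_filter] at hm
    exact Nat.prod_primeFactors_of_squarefree hm.2.1
  · intro T hT
    rw [mem_filter, mem_powerset] at hT
    exact (SupW_prod hT.1).2.2
  · intro m _
    rfl

theorem abs_omu_le (d z : ℕ) {u : Finset ℕ → ℝ} (hu : ∀ T, |u T| ≤ 1) (m : ℕ) : |omu d z u m| ≤ 1 := by
  unfold omu
  split_ifs
  · exact hu _
  · rw [abs_zero]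
    norm_num

theorem omu_supp {d z K : ℕ} {u l : Finset ℕ → ℝ} {τ : ℝ} (hF : Fund τ K z u l) {m : ℕ} (hm : omu d z u m ≠ 0) :
    1 ≤ m ∧ m ≤ z ^ K ∧ m.Coprime d := by
  unfold omu at hm
  by_cases h : Squarefree m ∧ m.Coprime d ∧ m.primeFactors ⊆ PP z
  · rw [if_pos h] at hm
    have h1 := hF.u_sup _ h.2.2 hm
    rw [Nat.prod_primeFactors_of_squarefree h.1] at h1
    refine ⟨?_, h1, h.2.1⟩
    rcases Nat.eq_zero_or_pos m with h2 | h2
    · rw [h2] at h
      exact absurd h.1 not_squarefree_zero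
    · exact h2
  · rw [if_neg h] at hm
    exact absurd rfl hm

/-- the main sum -/
theorem omu_sum {d z K : ℕ} {u l : Finset ℕ → ℝ} {τ : ℝ} (hF : Fund τ K z u l) {D : ℕ} (hD : z ^ K ≤ D) :
    ∑ m ∈ Icc 1 D, omu d z u m / m ≤ (1 + τ) * VV d z := by
  classical
  refine le_trans (le_of_eq ?_) (hF.u_sum _ (adm_gd d z))
  have h1 : ∑ T ∈ (PP z).powerset, u T * ∏ p ∈ T, gd d p =
      ∑ T ∈ (PP z).powerset.filter (fun T => ∏ p ∈ T, p ≤ D ∧ (∏ p ∈ T, p).Coprime d), u T / ((∏ p ∈ T, p : ℕ) : ℝ) := by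
    rw [sum_filter]
    refine sum_congr rfl fun T hT => ?_
    rw [mem_powerset] at hT
    by_cases h : ∏ p ∈ T, p ≤ D ∧ (∏ p ∈ T, p).Coprime d
    · rw [if_pos h]
      have h2 : ∀ p ∈ T, gd d p = 1 / (p : ℝ) := by
        intro p hp
        unfold gd
        rw [if_neg]
        intro hpd
        have h3 : p.Coprime d := Nat.Coprime.coprime_dvd_left (Finset.dvd_prod_of_mem _ hp) h.2
        have h4 := Nat.eq_one_of_dvd_coprimes h3 dvd_rfl hpd
        exact (mem_PP'.1 (hT hp)).2.one_lt.ne' h4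
      rw [prod_congr rfl h2, prod_div_distrib, prod_const_one, Nat.cast_prod, mul_one_div]
    · rw [if_neg h]
      by_cases h2 : ∏ p ∈ T, p ≤ D
      · have h3 : ¬ (∏ p ∈ T, p).Coprime d := fun h' => h ⟨h2, h'⟩
        rw [Nat.coprime_prod_left_iff] at h3
        push Not at h3
        obtain ⟨p, hp, hpd⟩ := h3
        have h4 : gd d p = 0 := by
          unfold gd
          rw [if_pos]
          by_contra h5
          exact hpd (((mem_PP'.1 (hT hp)).2.coprime_iff_not_dvd).2 h5)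
        rw [prod_eq_zero hp h4, mul_zero]
      · have h3 : u T = 0 := by
          by_contra h4
          exact h2 ((hF.u_sup T hT h4).trans hD)
        rw [h3, zero_mul]
  have h2 : ∑ m ∈ Icc 1 D, omu d z u m / m =
      ∑ m ∈ (Icc 1 D).filter (fun m => Squarefree m ∧ m.Coprime d ∧ m.primeFactors ⊆ PP z), u m.primeFactors / (m : ℝ) := by
    rw [sum_filter]
    refine sum_congr rfl fun m _ => ?_
    unfold omu
    split_ifs
    · rfl
    · rw [zero_div]
  rw [h1, h2]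
  refine sum_nbij' (fun m => m.primeFactors) (fun T => ∏ p ∈ T, p) ?_ ?_ ?_ ?_ ?_
  · intro m hm
    rw [mem_filter, mem_Icc] at hm
    rw [mem_filter, mem_powerset, Nat.prod_primeFactors_of_squarefree hm.2.1]
    exact ⟨hm.2.2.2, hm.1.2, hm.2.2.1⟩
  · intro T hT
    rw [mem_filter, mem_powerset] at hT
    obtain ⟨h3, h4, h5⟩ := SupW_prod hT.1
    rw [mem_filter, mem_Icc]
    refine ⟨⟨h3, hT.2.1⟩, h4, hT.2.2, ?_⟩
    rw [h5]
    exact hT.1
  · intro m hm
    rw [mem_filter] at hm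
    exact Nat.prod_primeFactors_of_squarefree hm.2.1
  · intro T hT
    rw [mem_filter, mem_powerset] at hT
    exact (SupW_prod hT.1).2.2
  · intro m hm
    rw [mem_filter] at hm
    rw [Nat.prod_primeFactors_of_squarefree hm.2.1]

variable {d : ℕ} [NeZero d]

open Classical in
/-- the upper bound for the smoothed density of the rough numbers -/
theorem weighted_upper (S : Finset (DirichletCharacter ℂ d)) (hS : S.Nonempty) (δ err : ℝ) (hδ : 0 ≤ δ) (herr : 0 ≤ err) (A B D : ℕ)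
    (hAB : A ≤ B) (hA : 1 ≤ A) {z K : ℕ} {u l : Finset ℕ → ℝ} (hF : Fund 1 K z u l) (hD : z ^ K ≤ D) (hD1 : 1 ≤ D)
    (hm : ∀ m, 1 ≤ m → m ≤ D → 1 ≤ A / m ∧
      (∀ χ : DirichletCharacter ℂ d, χ ≠ 1 → ∀ N : ℕ, A / m ≤ N → ‖∑ n ∈ Icc 1 N, χ (n : ZMod d)‖ ≤ (N : ℝ) * δ) ∧
      |hc d (A / m) (B / m) - (d.totient : ℝ) / d * Real.log ((B : ℝ) / A)| +
        (S.card : ℝ) ^ 2 * (δ * (2 + Real.log (((B / m : ℕ) : ℝ) / ((A / m : ℕ) : ℝ)))) ≤ err)
    (g : (ZMod d)ˣ) :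
    (d.totient : ℝ) * ∑ n ∈ (Ioc A B).filter (fun n : ℕ => n.Coprime d ∧ ∀ p ∈ PP z, ¬ p ∣ n), rw1 n * bt S ((ucl d n)⁻¹ * g) ≤
      (d.totient : ℝ) / d * Real.log ((B : ℝ) / A) * (2 * VV d z) + err * (3 + Real.log D) := by
  have hφ : (Fintype.card (ZMod d)ˣ : ℝ) = (d.totient : ℝ) := by
    rw [ZMod.card_units_eq_totient]
  have hφ0 : (0 : ℝ) < (d.totient : ℝ) := by
    exact_mod_cast Nat.totient_pos.2 (Nat.pos_of_ne_zero (NeZero.ne d))
  obtain ⟨w, hw⟩ : ∃ w : ℕ → ℝ, w = fun m => (if m = 1 then (1 : ℝ) else 0) - omu d z u m := ⟨_, rfl⟩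
  have hw0 : ∀ m, w m ≠ 0 → 1 ≤ m ∧ m ≤ D ∧ m.Coprime d := by
    intro m h
    rw [hw] at h
    by_cases h1 : m = 1
    · subst h1
      exact ⟨le_rfl, hD1, Nat.coprime_one_left d⟩
    · simp only [if_neg h1, zero_sub, ne_eq, neg_eq_zero] at h
      obtain ⟨e1, e2, e3⟩ := omu_supp hF h
      exact ⟨e1, e2.trans hD, e3⟩
  obtain ⟨P, hP⟩ : ∃ P : ℕ → Prop, P = fun n => ¬ ∀ p ∈ PP z, ¬ p ∣ n := ⟨_, rfl⟩
  obtain ⟨E, hE0⟩ : ∃ E : ℕ → Prop, E = fun _ => False := ⟨_, rfl⟩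
  have h1 := weighted S hS δ err hδ A B D hAB hA w hw0 (fun m h => hm m (hw0 m h).1 (hw0 m h).2.1)
    P E (fun n hn hnd => by
      have hn0 : 0 < n := by
        have := (mem_Ioc.1 hn).1
        omega
      have e1 : ∑ m ∈ n.divisors, w m = 1 - ∑ m ∈ n.divisors, omu d z u m := by
        rw [hw, sum_sub_distrib, sum_ite_eq' n.divisors 1, if_pos (Nat.one_mem_divisors.mpr hn0.ne')]
      have hEn : ¬ E n := by
        rw [hE0]
        exact fun h => h
      rw [e1, omu_div d z u hn0 hnd, if_neg hEn, add_zero]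
      have e2 := hF.u_pt n
      by_cases h : ∀ p ∈ PP z, ¬ p ∣ n
      · rw [if_pos h] at e2
        have hPn : ¬ P n := by
          rw [hP]
          exact fun h' => h' h
        rw [if_neg hPn]
        linarith
      · rw [if_neg h] at e2
        have hPn : P n := by
          rw [hP]
          exact h
        rw [if_pos hPn]
        linarith) g
  obtain ⟨e1, e2, e3⟩ := hm 1 le_rfl hD1
  have h2 := typeI S hS δ hδ 1 A B one_pos (Nat.coprime_one_left d) e1 hAB e2 g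
  rw [hφ] at h2
  obtain ⟨L, hL⟩ : ∃ L : ℝ, L = (d.totient : ℝ) / d * Real.log ((B : ℝ) / A) := ⟨_, rfl⟩
  rw [← hL] at h1 e3 ⊢
  obtain ⟨b, hb⟩ : ∃ b : ℕ → ℝ, b = fun n => rw1 n * bt S ((ucl d n)⁻¹ * g) := ⟨_, rfl⟩
  have hE : ∑ n ∈ (Ioc A B).filter (fun n : ℕ => E n), rw1 n = 0 := by
    refine sum_eq_zero fun n hn => ?_
    rw [mem_filter, hE0] at hn
    exact absurd hn.2 (fun h => h)
  rw [hE, mul_zero, add_zero, sm_CF] at h1
  have hset : (Ioc A B).filter (fun n : ℕ => n.Coprime d ∧ ∀ p ∈ PP z, ¬ p ∣ n) =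
      (Ioc A B).filter (fun n : ℕ => n.Coprime d ∧ ¬ P n) := by
    refine filter_congr fun n _ => ?_
    rw [hP]
    simp only [not_not]
  rw [hset]
  -- all the numbers
  have h3 : ∑ n ∈ (Ioc A B).filter (fun n : ℕ => n.Coprime d), b n ≤ 1 / (d.totient : ℝ) * (L + err) := by
    have k1 : (Ioc A B).filter (fun n : ℕ => n.Coprime d ∧ 1 ∣ n) = (Ioc A B).filter (fun n : ℕ => n.Coprime d) := by
      refine filter_congr fun n _ => ?_
      simp
    have k2 : rw1 1 = 1 := by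
      unfold rw1
      norm_num
    rw [k1, k2] at h2
    have k3 := (abs_le.1 h2).2
    have k4 := (abs_le.1 (le_refl |hc d (A / 1) (B / 1) - L|)).2
    have k5 : hc d (A / 1) (B / 1) + (S.card : ℝ) ^ 2 * (δ * (2 + Real.log (((B / 1 : ℕ) : ℝ) / ((A / 1 : ℕ) : ℝ)))) ≤ L + err := by
      linarith
    have k6 := mul_le_mul_of_nonneg_left k5 (show (0 : ℝ) ≤ 1 / (d.totient : ℝ) by positivity)
    rw [hb]
    refine le_trans ?_ k6
    rw [mul_add]
    linarith
  have h4 : ∑ n ∈ (Ioc A B).filter (fun n : ℕ => n.Coprime d), b n =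
      ∑ n ∈ (Ioc A B).filter (fun n : ℕ => n.Coprime d ∧ P n), b n +
      ∑ n ∈ (Ioc A B).filter (fun n : ℕ => n.Coprime d ∧ ¬ P n), b n := by
    rw [← filter_filter, ← filter_filter]
    exact (sum_filter_add_sum_filter_not _ _ _).symm
  -- the sums of the weights
  have h5 : ∑ m ∈ Icc 1 D, w m / m = 1 - ∑ m ∈ Icc 1 D, omu d z u m / m := by
    rw [hw]
    have k1 : ∀ m ∈ Icc 1 D, ((if m = 1 then (1 : ℝ) else 0) - omu d z u m) / (m : ℝ) =
        (if m = 1 then (1 : ℝ) else 0) - omu d z u m / m := by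
      intro m _
      rw [sub_div]
      congr 1
      split_ifs with h
      · rw [h]
        norm_num
      · rw [zero_div]
    rw [sum_congr rfl k1, sum_sub_distrib, sum_ite_eq' (Icc 1 D) 1, if_pos (mem_Icc.2 ⟨le_rfl, hD1⟩)]
  have h6 : ∑ m ∈ Icc 1 D, |w m| / m ≤ 2 + Real.log D := by
    have k1 : ∀ m ∈ Icc 1 D, |w m| / m ≤ (if m = 1 then (1 : ℝ) else 0) + 1 / (m : ℝ) := by
      intro m hm
      have hm0 : (0 : ℝ) < m := by exact_mod_cast (mem_Icc.1 hm).1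
      have hwm : w m = (if m = 1 then (1 : ℝ) else 0) - omu d z u m := by rw [hw]
      rw [hwm]
      have k2 := abs_omu_le d z hF.u_abs m
      split_ifs with h
      · rw [h]
        rw [h] at k2
        have k3 := abs_sub (1 : ℝ) (omu d z u 1)
        rw [abs_one] at k3
        norm_num
        linarith
      · rw [zero_sub, abs_neg, zero_add]
        exact div_le_div_of_nonneg_right k2 hm0.le
    refine (sum_le_sum k1).trans ?_
    rw [sum_add_distrib, sum_ite_eq' (Icc 1 D) 1, if_pos (mem_Icc.2 ⟨le_rfl, hD1⟩)]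
    have k2 := harmonic_le_one_add_log D
    rw [harmonic_eq_sum_Icc] at k2
    push_cast at k2
    simp only [one_div]
    linarith
  have h7 := omu_sum (d := d) hF hD
  rw [h5] at h1
  rw [hb] at h4 h3
  rw [h4] at h3
  have h8 : 1 / (d.totient : ℝ) * (L * (1 - ∑ m ∈ Icc 1 D, omu d z u m / m) - err * (2 + Real.log D)) ≤
      1 / (d.totient : ℝ) * (L * (1 - ∑ m ∈ Icc 1 D, omu d z u m / m) - err * ∑ m ∈ Icc 1 D, |w m| / m) := by
    refine mul_le_mul_of_nonneg_left ?_ (by positivity)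
    have := mul_le_mul_of_nonneg_left h6 herr
    linarith
  have hL0 : 0 ≤ L := by
    rw [hL]
    have hA0 : (0 : ℝ) < A := by exact_mod_cast hA
    have : 0 ≤ Real.log ((B : ℝ) / A) := Real.log_nonneg (by
      rw [le_div_iff₀ hA0, one_mul]
      exact_mod_cast hAB)
    positivity
  have h9 := mul_le_mul_of_nonneg_left h7 hL0
  have h10 := h8.trans h1
  obtain ⟨R, hR⟩ : ∃ R, R = ∑ n ∈ (Ioc A B).filter (fun n : ℕ => n.Coprime d ∧ ¬ P n),
    rw1 n * bt S ((ucl d n)⁻¹ * g) := ⟨_, rfl⟩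
  obtain ⟨W1, hW1⟩ : ∃ W1, W1 = ∑ m ∈ Icc 1 D, omu d z u m / m := ⟨_, rfl⟩
  rw [← hR] at h3 ⊢
  rw [← hW1] at h10 h9
  have h11 : R ≤ 1 / (d.totient : ℝ) * (L + err) -
      1 / (d.totient : ℝ) * (L * (1 - W1) - err * (2 + Real.log D)) := by linarith
  have h12 : (d.totient : ℝ) * R ≤ (L + err) - (L * (1 - W1) - err * (2 + Real.log D)) := by
    have := mul_le_mul_of_nonneg_left h11 hφ0.le
    refine this.trans (le_of_eq ?_)
    field_simp
  refine h12.trans ?_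
  linarith

end Pool.Agent.Lib.MP_42948a_nt.TS
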