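import Pool.Agent.Lib.MP_42948a_nt.TS.Defs
import Pool.Agent.Lib.MP_42948a_nt.TS.SupE
import Pool.Agent.Lib.MP_42948a_nt.TS.SupW
import Pool.Agent.Lib.MP_42948a_nt.TS.SupC
import Pool.Agent.Lib.MP_42948a_nt.TF.BR
import Pool.Agent.Lib.MP_42948a_nt.TF.U1
import Pool.Agent.Lib.MP_42948a_nt.TQ.A2

/-!
# Upper bounds for the densities
-/

set_option linter.unusedSectionVars false

namespace Pool.Agent.Lib.MP_42948a_nt.TS

open Finset Pool.Agent.Lib.MP_42948a_nt.OA Pool.Agent.Lib.MP_42948a_nt.TQ Pool.Agent.Lib.MP_42948a_nt.PS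
  Pool.Agent.Lib.MP_42948a_nt.TF

private theorem Sup_big (κ M : ℝ) (hκ : 0 < κ) : ∃ d0 : ℕ, ∀ d : ℕ, d0 ≤ d → M ≤ (d : ℝ) ^ κ := by
  have h1 := (tendsto_rpow_atTop hκ).comp tendsto_natCast_atTop_atTop
  obtain ⟨d0, hd0⟩ := Filter.eventually_atTop.1 (h1.eventually_ge_atTop M)
  exact ⟨d0, hd0⟩

private theorem Sup_log (κ M : ℝ) (hκ : 0 < κ) : ∃ d0 : ℕ, ∀ d : ℕ, d0 ≤ d → 3 + M * Real.log d ≤ (d : ℝ) ^ κ := by
  have h1 := (isLittleO_log_rpow_atTop hκ).def (show 0 < 1 / (2 * (|M| + 1)) by positivity)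
  have h2 := (tendsto_natCast_atTop_atTop (R := ℝ)).eventually h1
  have h3 := ((tendsto_rpow_atTop hκ).comp (tendsto_natCast_atTop_atTop (R := ℝ))).eventually_ge_atTop 6
  obtain ⟨d0, hd0⟩ := Filter.eventually_atTop.1 (h2.and (h3.and (Filter.eventually_ge_atTop 1)))
  refine ⟨d0, fun d hd => ?_⟩
  obtain ⟨e1, e2, e3⟩ := hd0 d hd
  have hd1 : (1 : ℝ) ≤ d := by exact_mod_cast e3
  have hpos : 0 < (d : ℝ) ^ κ := Real.rpow_pos_of_pos (by linarith) _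
  have hl : 0 ≤ Real.log d := Real.log_nonneg hd1
  rw [Real.norm_eq_abs, Real.norm_eq_abs, abs_of_pos hpos, abs_of_nonneg hl] at e1
  have e4 : 6 ≤ (d : ℝ) ^ κ := e2
  have hM : 0 ≤ |M| := abs_nonneg M
  have e5 : M * Real.log d ≤ (|M| + 1) * (1 / (2 * (|M| + 1)) * (d : ℝ) ^ κ) := by
    have e6 : M * Real.log d ≤ (|M| + 1) * Real.log d := by
      refine mul_le_mul_of_nonneg_right ?_ hl
      have := le_abs_self M
      linarith
    exact e6.trans (mul_le_mul_of_nonneg_left e1 (by linarith))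
  have e7 : (|M| + 1) * (1 / (2 * (|M| + 1)) * (d : ℝ) ^ κ) = (d : ℝ) ^ κ / 2 := by
    field_simp
  linarith

private theorem Sup_floor {x : ℝ} (hx : 2 ≤ x) : x / 2 ≤ (⌊x⌋₊ : ℝ) := by
  have h1 := Nat.lt_floor_add_one x
  linarith

/-- The smoothed densities above the exponent of Burgess are bounded, by a constant which does not depend on the kernel. -/
theorem sup_sm {θ c α a h : ℝ} (hθ : 0 < θ) (hc : 0 < c) (hα : 0 < α) (ha : θ < a) (hh : 0 < h) :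
    ∃ C : ℝ, 0 < C ∧ ∀ Bd : ℕ, ∃ d0 : ℕ, ∀ d : ℕ, d0 ≤ d → ∀ [NeZero d], BA θ c d → ∀ S : Finset (DirichletCharacter ℂ d),
      S.Nonempty → S.card ≤ Bd → ∀ (i : ℕ) (x : (ZMod d)ˣ), sm (kr S) (EW d α i a (a + h)) x ≤ C := by
  classical
  obtain ⟨K, hK⟩ := fund 1 one_pos le_rfl
  have ha0 : 0 < a := by linarith
  obtain ⟨ν, hν⟩ : ∃ ν : ℝ, ν = (a - θ) / 2 := ⟨_, rfl⟩
  have hν0 : 0 < ν := by
    rw [hν]
    linarith
  have hK1 : (0 : ℝ) < (K : ℝ) + 1 := by positivity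
  obtain ⟨v, hv⟩ : ∃ v : ℝ, v = min α (ν / ((K : ℝ) + 1)) := ⟨_, rfl⟩
  have hv0 : 0 < v := by
    rw [hv]
    exact lt_min hα (by positivity)
  have hvα : v ≤ α := by
    rw [hv]
    exact min_le_left _ _
  have hvK : v * K ≤ ν := by
    have h1 : v ≤ ν / ((K : ℝ) + 1) := by
      rw [hv]
      exact min_le_right _ _
    have h2 : v * K ≤ ν / ((K : ℝ) + 1) * ((K : ℝ) + 1) :=
      mul_le_mul h1 (by linarith) (by positivity) (by positivity)
    refine h2.trans (le_of_eq ?_)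
    field_simp
  obtain ⟨ρ, hρ⟩ : ∃ ρ : ℝ, ρ = ν / a := ⟨_, rfl⟩
  have hρa : ρ * a = ν := by
    rw [hρ]
    field_simp
  have h13 : θ + 4 * ((a - θ) / 8) = (1 - ρ) * a := by
    rw [sub_mul, hρa, hν]
    ring
  refine ⟨4 * (h + 1) / v + 1, by positivity, fun Bd => ?_⟩
  obtain ⟨κ, hκ, d1, herr⟩ := err_small_gen θ ρ a h ((a - θ) / 8) c (a + h) hθ (by linarith) le_rfl hh (by linarith) h13 hc Bd
  obtain ⟨d2, hd2⟩ := Sup_big (v / 2) 2 (by positivity)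
  obtain ⟨d3, hd3⟩ := Sup_big a 2 ha0
  obtain ⟨d4, hd4⟩ := Sup_log κ ν hκ
  refine ⟨d1 + d2 + d3 + d4 + 3, fun d hd _ hB S hS hSB i x => ?_⟩
  have g2 := hd2 d (by omega)
  have g3 := hd3 d (by omega)
  have g4 := hd4 d (by omega)
  have hd3' : (3 : ℝ) ≤ d := by exact_mod_cast (by omega : 3 ≤ d)
  have hd1' : (1 : ℝ) ≤ d := by linarith
  have hdp : (0 : ℝ) < d := by linarith
  obtain ⟨L, hL⟩ : ∃ L : ℝ, L = Real.log (d : ℝ) := ⟨_, rfl⟩
  have hL1 : 1 ≤ L := by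
    rw [hL, Real.le_log_iff_exp_le hdp]
    have := Real.exp_one_lt_d9
    linarith
  -- the parameter `z`
  obtain ⟨z, hz⟩ : ∃ z : ℕ, z = ⌊(d : ℝ) ^ v⌋₊ := ⟨_, rfl⟩
  have hdv : (d : ℝ) ^ v = (d : ℝ) ^ (v / 2) * (d : ℝ) ^ (v / 2) := by
    rw [← Real.rpow_add hdp]
    congr 1
    ring
  have hzlow : (d : ℝ) ^ (v / 2) ≤ (z : ℝ) := by
    have h5 : (d : ℝ) ^ v < (z : ℝ) + 1 := by
      rw [hz]
      exact Nat.lt_floor_add_one _
    nlinarith
  have hzup : (z : ℝ) ≤ (d : ℝ) ^ v := by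
    rw [hz]
    exact Nat.floor_le (by positivity)
  have hz2 : 2 ≤ z := by
    have h5 : (2 : ℝ) ≤ (z : ℝ) := g2.trans hzlow
    exact_mod_cast h5
  obtain ⟨u, l, hF⟩ := hK z hz2
  have hlogz : v / 2 * L ≤ Real.log (z : ℝ) := by
    have h5 := Real.log_le_log (by positivity) hzlow
    rwa [Real.log_rpow hdp, ← hL] at h5
  -- the window
  obtain ⟨A, hA⟩ : ∃ A : ℕ, A = ⌊(d : ℝ) ^ a⌋₊ := ⟨_, rfl⟩
  obtain ⟨B, hBd⟩ : ∃ B : ℕ, B = ⌊(d : ℝ) ^ (a + h)⌋₊ := ⟨_, rfl⟩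
  obtain ⟨D, hD⟩ : ∃ D : ℕ, D = ⌊(d : ℝ) ^ ν⌋₊ := ⟨_, rfl⟩
  have hAB : A ≤ B := by
    rw [hA, hBd]
    exact Nat.floor_le_floor (Real.rpow_le_rpow_of_exponent_le hd1' (by linarith))
  have hAlow : (d : ℝ) ^ a / 2 ≤ (A : ℝ) := by
    rw [hA]
    exact Sup_floor g3
  have hA1 : 1 ≤ A := by
    have : (1 : ℝ) ≤ (A : ℝ) := by linarith
    exact_mod_cast this
  have hAp : (0 : ℝ) < (A : ℝ) := by exact_mod_cast hA1
  have hBup : (B : ℝ) ≤ (d : ℝ) ^ (a + h) := by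
    rw [hBd]
    exact Nat.floor_le (by positivity)
  have hBp : (0 : ℝ) < (B : ℝ) := by exact_mod_cast hA1.trans hAB
  have hDup : (D : ℝ) ≤ (d : ℝ) ^ ν := by
    rw [hD]
    exact Nat.floor_le (by positivity)
  have hD1 : 1 ≤ D := by
    rw [hD]
    exact Nat.le_floor (by
      rw [Nat.cast_one]
      exact Real.one_le_rpow hd1' hν0.le)
  have hDz : z ^ K ≤ D := by
    rw [hD]
    refine Nat.le_floor ?_
    rw [Nat.cast_pow]
    calc (z : ℝ) ^ K ≤ ((d : ℝ) ^ v) ^ K := pow_le_pow_left₀ (Nat.cast_nonneg _) hzup K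
      _ = (d : ℝ) ^ (v * K) := by rw [Real.rpow_mul hdp.le, Real.rpow_natCast]
      _ ≤ (d : ℝ) ^ ν := Real.rpow_le_rpow_of_exponent_le hd1' hvK
  have hφ : (Fintype.card (ZMod d)ˣ : ℝ) = (d.totient : ℝ) := by
    rw [ZMod.card_units_eq_totient]
  have hφ0 : (0 : ℝ) < (d.totient : ℝ) := by
    exact_mod_cast Nat.totient_pos.2 (Nat.pos_of_ne_zero (NeZero.ne d))
  have hκ0 : (0 : ℝ) ≤ (d : ℝ) ^ (-κ) := Real.rpow_nonneg hdp.le _
  have hSB' : (S.card : ℝ) ≤ Bd := by exact_mod_cast hSB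
  have key := weighted_upper S hS ((d : ℝ) ^ (-c)) ((d : ℝ) ^ (-κ)) (Real.rpow_nonneg hdp.le _) hκ0 A B D hAB hA1 hF hDz hD1
    (fun m hm1 hmD => by
      have e1 : (m : ℝ) ≤ (d : ℝ) ^ (ρ * a) := by
        rw [hρa]
        exact le_trans (by exact_mod_cast hmD) hDup
      obtain ⟨f1, f2, f3⟩ := herr d (by omega) m hm1 e1
      rw [← hA] at f1 f2 f3
      rw [← hBd] at f3
      refine ⟨f2, fun χ hχ N hN => hB χ hχ N ?_, ?_⟩
      · refine (Real.rpow_le_rpow_of_exponent_le hd1' (by linarith)).trans (f1.trans (by exact_mod_cast hN))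
      · refine le_trans (add_le_add_right ?_ _) f3
        refine mul_le_mul_of_nonneg_right (pow_le_pow_left₀ (Nat.cast_nonneg _) hSB' 2) ?_
        refine mul_nonneg (Real.rpow_nonneg hdp.le _) (add_nonneg (by norm_num) (Real.log_nonneg ?_))
        have f4 : (0 : ℝ) < ((A / m : ℕ) : ℝ) := by exact_mod_cast f2
        rw [le_div_iff₀ f4, one_mul]
        exact_mod_cast Nat.div_le_div_right hAB) x
  -- the sum over the window
  have hsm : sm (kr S) (EW d α i a (a + h)) x ≤ (d.totient : ℝ) *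
      ∑ n ∈ (Ioc A B).filter (fun n : ℕ => n.Coprime d ∧ ∀ p ∈ PP z, ¬ p ∣ n), EK.rw1 n * EK.bt S ((ucl d n)⁻¹ * x) := by
    rw [sm_kr, hφ, EK.sm_CF]
    refine mul_le_mul_of_nonneg_left ?_ hφ0.le
    refine sum_le_sum_of_subset_of_nonneg ?_ (fun n _ _ => mul_nonneg (by unfold EK.rw1; positivity) (EK.bt_nonneg _ _))
    intro n hn
    unfold EW at hn
    rw [mem_filter, ← hA, ← hBd] at hn
    obtain ⟨h5, h6, h7, _⟩ := hn
    rw [mem_filter]
    refine ⟨h5, h7, fun p hp hpn => ?_⟩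
    have h8 := mem_PP'.1 hp
    have h9 := h6.2 p h8.2 hpn
    have h10 : z ≤ ⌊(d : ℝ) ^ α⌋₊ := by
      rw [hz]
      exact Nat.floor_mono (Real.rpow_le_rpow_of_exponent_le hd1' hvα)
    omega
  refine hsm.trans (key.trans ?_)
  -- the main term
  have hlog : Real.log ((B : ℝ) / A) ≤ (h + 1) * L := by
    have h5 : (B : ℝ) / A ≤ 2 * (d : ℝ) ^ h := by
      rw [div_le_iff₀ hAp]
      have h6 : (d : ℝ) ^ (a + h) = (d : ℝ) ^ a * (d : ℝ) ^ h := Real.rpow_add hdp _ _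
      have h7 : 0 < (d : ℝ) ^ h := Real.rpow_pos_of_pos hdp _
      have h8 : 2 * (d : ℝ) ^ h * ((d : ℝ) ^ a / 2) ≤ 2 * (d : ℝ) ^ h * A := mul_le_mul_of_nonneg_left hAlow (by positivity)
      have h9 : 2 * (d : ℝ) ^ h * ((d : ℝ) ^ a / 2) = (d : ℝ) ^ a * (d : ℝ) ^ h := by ring
      linarith
    have h6 := Real.log_le_log (by positivity) h5
    rw [Real.log_mul (by norm_num) (Real.rpow_pos_of_pos hdp _).ne', Real.log_rpow hdp, ← hL] at h6
    have h7 := Real.log_two_lt_d9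
    linarith
  have hlog0 : 0 ≤ Real.log ((B : ℝ) / A) := Real.log_nonneg (by
    rw [le_div_iff₀ hAp, one_mul]
    exact_mod_cast hAB)
  have hmain : (d.totient : ℝ) / d * Real.log ((B : ℝ) / A) * (2 * VV d z) ≤ 4 * (h + 1) / v := by
    have h5 := PS.VV_upper d z hz2
    rw [hφ] at h5
    have hlz : 0 < v / 2 * L := by positivity
    have h6 : VV d z * ((d.totient : ℝ) / d) ≤ 1 / (v / 2 * L) :=
      h5.trans (one_div_le_one_div_of_le hlz hlogz)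
    have h7 : (d.totient : ℝ) / d * Real.log ((B : ℝ) / A) * (2 * VV d z) =
        2 * Real.log ((B : ℝ) / A) * (VV d z * ((d.totient : ℝ) / d)) := by ring
    rw [h7]
    have h8 : 2 * Real.log ((B : ℝ) / A) * (VV d z * ((d.totient : ℝ) / d)) ≤
        2 * ((h + 1) * L) * (1 / (v / 2 * L)) := by
      refine mul_le_mul (by linarith) h6 ?_ (by positivity)
      have := VV_pos d z
      positivity
    refine h8.trans (le_of_eq ?_)
    have hL0 : L ≠ 0 := by linarith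
    field_simp
    ring
  have hsec : (d : ℝ) ^ (-κ) * (3 + Real.log D) ≤ 1 := by
    have h5 : Real.log D ≤ ν * L := by
      have h6 := Real.log_le_log (by exact_mod_cast hD1) hDup
      rwa [Real.log_rpow hdp, ← hL] at h6
    rw [← hL] at g4
    have h7 : 3 + Real.log D ≤ (d : ℝ) ^ κ := by linarith
    rw [Real.rpow_neg hdp.le, inv_mul_le_iff₀ (Real.rpow_pos_of_pos hdp _), mul_one]
    exact h7
  linarith

end Pool.Agent.Lib.MP_42948a_nt.TS
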