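import Pool.Agent.Lib.MP_42948a_nt.SV.Defs

/-!
# The weighted sieve in the scale of its level: definitions

`x` is the level. Sifting limit `z = x ^ (1/5)`, limit of the weights `y = x ^ (14/15)`, weights `22/25 (1 - 15/14 log p / log x)`.
-/

namespace Pool.Agent.Lib.MP_42948a_nt.TS

open Finset Pool.Agent.Lib.MP_42948a_nt.OA Pool.Agent.Lib.MP_42948a_nt.OM Pool.Agent.Lib.MP_42948a_nt.SV

/-- The level. -/
noncomputable def Dy (x : ℝ) : ℕ := ⌊x⌋₊

/-- The sifting limit. -/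
noncomputable def zy (x : ℝ) : ℕ := ⌊x ^ (1 / 5 : ℝ)⌋₊

/-- The limit of the weights. -/
noncomputable def yy (x : ℝ) : ℕ := ⌊x ^ (14 / 15 : ℝ)⌋₊

/-- The sifting limit of the multiples of `p`. -/
noncomputable def Wy (x : ℝ) (p : ℕ) : ℕ := min p (zy x + 1)

/-- The root of the level of the multiples of `p`. -/
noncomputable def Xy (x : ℝ) (p : ℕ) : ℕ := Nat.sqrt (Dy x / p)

/-- The primes of the weights. -/
noncomputable def Py (d : ℕ) (x : ℝ) : Finset ℕ := Pw d (yy x + 1)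

open Classical in
/-- The weights. -/
noncomputable def cy (x : ℝ) (p : ℕ) : ℝ :=
  if p ≤ zy x then 1 else 22 / 25 * (1 - 15 / 14 * (Real.log p / Real.log x))

theorem Xy_mul_sq_le (x : ℝ) (p : ℕ) : p * (Xy x p) ^ 2 ≤ Dy x := by
  unfold Xy
  have h1 : (Nat.sqrt (Dy x / p)) ^ 2 ≤ Dy x / p := by
    rw [pow_two]
    exact Nat.sqrt_le _
  calc p * (Nat.sqrt (Dy x / p)) ^ 2 ≤ p * (Dy x / p) := Nat.mul_le_mul_left p h1
    _ ≤ Dy x := Nat.mul_div_le (Dy x) p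

theorem lt_Xy {x : ℝ} {p : ℕ} (hp : 1 ≤ p) : x < (p : ℝ) * ((Xy x p : ℝ) + 1) ^ 2 := by
  have h1 : Dy x / p < (Xy x p + 1) ^ 2 := by
    unfold Xy
    rw [pow_two]
    exact Nat.lt_succ_sqrt _
  have h2 : Dy x < p * (Xy x p + 1) ^ 2 := by
    have h3 : Dy x < p * (Dy x / p + 1) := by
      have h4 := Nat.div_add_mod (Dy x) p
      have h5 := Nat.mod_lt (Dy x) (show 0 < p from hp)
      calc Dy x = p * (Dy x / p) + Dy x % p := h4.symm
        _ < p * (Dy x / p) + p := Nat.add_lt_add_left h5 _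
        _ = p * (Dy x / p + 1) := by ring
    exact h3.trans_le (Nat.mul_le_mul_left p h1)
  have h3 : x < (Dy x : ℝ) + 1 := Nat.lt_floor_add_one _
  have h4 : ((Dy x : ℝ) + 1) ≤ ((p * (Xy x p + 1) ^ 2 : ℕ) : ℝ) := by exact_mod_cast h2
  have h5 : ((p * (Xy x p + 1) ^ 2 : ℕ) : ℝ) = (p : ℝ) * ((Xy x p : ℝ) + 1) ^ 2 := by
    push_cast
    ring
  rw [h5] at h4
  exact h3.trans_le h4

theorem one_le_Xy {x : ℝ} (hx : 1 ≤ x) {p : ℕ} (hp : 1 ≤ p) (hpy : p ≤ yy x) : 1 ≤ Xy x p := by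
  unfold Xy
  rw [Nat.le_sqrt]
  have h1 : yy x ≤ Dy x := by
    unfold yy Dy
    refine Nat.floor_le_floor ?_
    calc x ^ (14 / 15 : ℝ) ≤ x ^ (1 : ℝ) := Real.rpow_le_rpow_of_exponent_le hx (by norm_num)
      _ = x := Real.rpow_one x
  rw [one_mul]
  exact (Nat.le_div_iff_mul_le hp).mpr (by rw [one_mul]; exact hpy.trans h1)

end Pool.Agent.Lib.MP_42948a_nt.TS
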