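import Pool.Agent.Lib.MP_42948a_nt.SV.A1a
import Pool.Agent.Lib.MP_42948a_nt.TS.SvDefs

/-!
# The weighted sieve is at most the indicator of the products of `r` primes

The same weights serve for every `r`: a squarefree `n ≤ x ^ (7 (22 r - 3) / 165)` with at least `r + 1` prime factors, all of them `> x ^ (1/5)`,
has `22/25 ∑_{p ∣ n} (1 - 15/14 log p / log x) ≥ 22/25 (r + 1 - (22 r - 3)/22) = 1`.
-/

namespace Pool.Agent.Lib.MP_42948a_nt.TS

open Finset Pool.Agent.Lib.MP_42948a_nt.OA Pool.Agent.Lib.MP_42948a_nt.OM Pool.Agent.Lib.MP_42948a_nt.SV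

open Classical in
private theorem TS_A4_one {x : ℝ} (hx : 1 ≤ x) (d n p : ℕ) (hp : p.Prime) (hpy : p ≤ yy x)
    (hpn : p ∣ n) (h : ∀ q : ℕ, q.Prime → q ∣ n → Wy x p ≤ q) :
    (∑ a ∈ (Sq d (Wy x p) (Xy x p)).filter (fun a => a ∣ n / p),
      lamS d (Wy x p) (Xy x p) a) = 1 := by
  have hX : 1 ≤ Xy x p := one_le_Xy hx hp.one_lt.le hpy
  have hS : (Sq d (Wy x p) (Xy x p)).filter (fun a => a ∣ n / p) = {1} := by
    ext a
    rw [mem_filter, mem_singleton]
    constructor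
    · rintro ⟨ha, had⟩
      by_contra hne
      obtain ⟨q, hq, hqa⟩ := Nat.exists_prime_and_dvd hne
      have h1 := (mem_Sq.mp ha).2.2.2 q hq hqa
      have h2 : q ∣ n := (hqa.trans had).trans (Nat.div_dvd_of_dvd hpn)
      exact absurd (h q hq h2) (not_le.mpr h1)
    · rintro rfl
      exact ⟨one_mem_Sq d _ hX, one_dvd _⟩
  rw [hS, sum_singleton, lamS_one d _ hX]

private theorem TS_A4_term {x : ℝ} (hx : 2 ≤ x) (p : ℕ) (hp : p.Prime) (hpy : p ≤ yy x) :
    0 ≤ 1 - 15 / 14 * (Real.log p / Real.log x) := by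
  have hx0 : 0 < x := by linarith
  have hlx : 0 < Real.log x := Real.log_pos (by linarith)
  have hp0 : (0 : ℝ) < p := by exact_mod_cast hp.pos
  have h1 : (p : ℝ) ≤ x ^ (14 / 15 : ℝ) := by
    have h2 : ((yy x : ℕ) : ℝ) ≤ x ^ (14 / 15 : ℝ) := Nat.floor_le (Real.rpow_nonneg hx0.le _)
    have h3 : (p : ℝ) ≤ (yy x : ℕ) := by exact_mod_cast hpy
    exact h3.trans h2
  have h4 : Real.log p ≤ 14 / 15 * Real.log x := by
    have h5 := Real.log_le_log hp0 h1
    rwa [Real.log_rpow hx0] at h5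
  have h6 : Real.log p / Real.log x ≤ 14 / 15 := by
    rw [div_le_iff₀ hlx]
    exact h4
  linarith

private theorem TS_A4_term_neg {x : ℝ} (hx : 2 ≤ x) (p : ℕ) (hpy : yy x < p) :
    1 - 15 / 14 * (Real.log p / Real.log x) ≤ 0 := by
  have hx0 : 0 < x := by linarith
  have hlx : 0 < Real.log x := Real.log_pos (by linarith)
  have h1 : x ^ (14 / 15 : ℝ) ≤ (p : ℝ) := by
    have h2 : x ^ (14 / 15 : ℝ) < ((yy x : ℕ) : ℝ) + 1 := Nat.lt_floor_add_one _
    have h3 : ((yy x : ℕ) : ℝ) + 1 ≤ p := by exact_mod_cast hpy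
    linarith
  have h4 : 14 / 15 * Real.log x ≤ Real.log p := by
    have h5 := Real.log_le_log (Real.rpow_pos_of_pos hx0 _) h1
    rwa [Real.log_rpow hx0] at h5
  have h6 : 14 / 15 ≤ Real.log p / Real.log x := by
    rw [le_div_iff₀ hlx]
    exact h4
  linarith

private theorem TS_A4_zy {x : ℝ} (hx : 2 ≤ x) : zy x ≤ yy x := by
  unfold zy yy
  refine Nat.floor_le_floor ?_
  exact Real.rpow_le_rpow_of_exponent_le (by linarith) (by norm_num)

private theorem TS_A4_cy_nonneg {x : ℝ} (hx : 2 ≤ x) (p : ℕ) (hp : p.Prime) (hpy : p ≤ yy x) :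
    0 ≤ cy x p := by
  unfold cy
  split_ifs
  · exact zero_le_one
  · exact mul_nonneg (by norm_num) (TS_A4_term hx p hp hpy)

private theorem TS_A4_sum {x : ℝ} (hx : 2 ≤ x) {r n : ℕ} (hn : 1 < n)
    (hn2 : (n : ℝ) ≤ x ^ (7 * (22 * (r : ℝ) - 3) / 165)) (hsq : Squarefree n) (hO : r + 1 ≤ Om n) :
    25 / 22 ≤ ∑ p ∈ n.primeFactors, (1 - 15 / 14 * (Real.log p / Real.log x)) := by
  have hx0 : 0 < x := by linarith
  have hlx : 0 < Real.log x := Real.log_pos (by linarith)
  have hn0 : (0 : ℝ) < n := by exact_mod_cast (by omega : 0 < n)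
  have hn0' : n ≠ 0 := by omega
  have hcard : (r : ℝ) + 1 ≤ (n.primeFactors.card : ℝ) := by
    have h1 : n.primeFactors.card = Om n := by
      have h2 := (ArithmeticFunction.cardDistinctFactors_eq_cardFactors_iff_squarefree hn0').mpr hsq
      exact h2
    rw [h1]
    exact_mod_cast hO
  have hlog : ∑ p ∈ n.primeFactors, Real.log p = Real.log n := by
    have h1 := Nat.prod_primeFactors_of_squarefree hsq
    have h2 : ((∏ p ∈ n.primeFactors, p : ℕ) : ℝ) = n := by rw [h1]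
    rw [← h2, Nat.cast_prod, Real.log_prod]
    intro p hp
    have := (Nat.prime_of_mem_primeFactors hp).pos
    positivity
  have h3 : Real.log n ≤ 7 * (22 * (r : ℝ) - 3) / 165 * Real.log x := by
    have h5 := Real.log_le_log hn0 hn2
    rwa [Real.log_rpow hx0] at h5
  have h6 : Real.log n / Real.log x ≤ 7 * (22 * (r : ℝ) - 3) / 165 := by
    rw [div_le_iff₀ hlx]
    exact h3
  have h7 : ∑ p ∈ n.primeFactors, (1 - 15 / 14 * (Real.log p / Real.log x)) =
      (n.primeFactors.card : ℝ) - 15 / 14 * (Real.log n / Real.log x) := by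
    rw [sum_sub_distrib, ← mul_sum, ← sum_div, hlog, sum_const, nsmul_eq_mul, mul_one]
  rw [h7]
  linarith

open Classical in
theorem pointwise {x : ℝ} (hx : 2 ≤ x) (r d n : ℕ) (hn : 1 < n) (hn2 : (n : ℝ) ≤ x ^ (7 * (22 * (r : ℝ) - 3) / 165))
    (hd : n.Coprime d) :
    1 - ∑ p ∈ (Py d x).filter (fun p => p ∣ n),
        cy x p * (∑ a ∈ (Sq d (Wy x p) (Xy x p)).filter (fun a => a ∣ n / p), lamS d (Wy x p) (Xy x p) a) ^ 2 ≤
      (if Rough (zy x) n ∧ Om n ≤ r then 1 else 0) +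
        (if ∃ p : ℕ, p.Prime ∧ x ^ (1 / 5 : ℝ) < p ∧ p ^ 2 ∣ n then 1 else 0) := by
  have hx0 : 0 < x := by linarith
  have hx1 : 1 ≤ x := by linarith
  have hnpos : 0 < n := by omega
  have hn1 : n ≠ 1 := by omega
  have hR1 : (0 : ℝ) ≤ (if Rough (zy x) n ∧ Om n ≤ r then 1 else 0) := by
    split_ifs <;> norm_num
  have hR2 : (0 : ℝ) ≤ (if ∃ p : ℕ, p.Prime ∧ x ^ (1 / 5 : ℝ) < p ∧ p ^ 2 ∣ n then 1 else 0) := by
    split_ifs <;> norm_num
  have hmem : ∀ p : ℕ, p ∈ (Py d x).filter (fun p => p ∣ n) ↔ p.Prime ∧ p ∣ n ∧ p ≤ yy x := by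
    intro p
    unfold Py
    rw [mem_filter, mem_Pw]
    constructor
    · rintro ⟨⟨h1, h2, _⟩, h4⟩
      exact ⟨h2, h4, Nat.lt_succ_iff.mp h1⟩
    · rintro ⟨h1, h2, h3⟩
      refine ⟨⟨Nat.lt_succ_iff.mpr h3, h1, fun h4 => ?_⟩, h2⟩
      exact Nat.not_coprime_of_dvd_of_dvd h1.one_lt h2 h4 hd
  have hnn : ∀ p ∈ (Py d x).filter (fun p => p ∣ n), 0 ≤ cy x p *
      (∑ a ∈ (Sq d (Wy x p) (Xy x p)).filter (fun a => a ∣ n / p),
        lamS d (Wy x p) (Xy x p) a) ^ 2 := by
    intro p hp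
    obtain ⟨h1, _, h3⟩ := (hmem p).mp hp
    exact mul_nonneg (TS_A4_cy_nonneg hx p h1 h3) (sq_nonneg _)
  by_cases hcase : ∃ p : ℕ, p.Prime ∧ p ∣ n ∧ p ≤ zy x
  · obtain ⟨p0, hp0, hp0n, hp0z⟩ := hcase
    have hq : (n.minFac).Prime := Nat.minFac_prime hn1
    have hqn : n.minFac ∣ n := Nat.minFac_dvd n
    have hqz : n.minFac ≤ zy x := (Nat.minFac_le_of_dvd hp0.two_le hp0n).trans hp0z
    have hqy : n.minFac ≤ yy x := hqz.trans (TS_A4_zy hx)
    have hW : Wy x n.minFac = n.minFac := by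
      unfold Wy
      exact min_eq_left (by omega)
    have hc : cy x n.minFac = 1 := by
      unfold cy
      rw [if_pos hqz]
    have hs := TS_A4_one hx1 d n n.minFac hq hqy hqn (by
      intro r hr hrn
      rw [hW]
      exact Nat.minFac_le_of_dvd hr.two_le hrn)
    have hle := single_le_sum hnn ((hmem n.minFac).mpr ⟨hq, hqn, hqy⟩)
    rw [hs, hc] at hle
    have : (1 : ℝ) * 1 ^ 2 = 1 := by norm_num
    rw [this] at hle
    linarith
  · have hall : ∀ p : ℕ, p.Prime → p ∣ n → zy x < p := by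
      intro p hp hpn
      by_contra h
      exact hcase ⟨p, hp, hpn, not_lt.mp h⟩
    have hRough : Rough (zy x) n := ⟨hnpos, hall⟩
    have hterm : ∀ p ∈ (Py d x).filter (fun p => p ∣ n), cy x p *
        (∑ a ∈ (Sq d (Wy x p) (Xy x p)).filter (fun a => a ∣ n / p),
          lamS d (Wy x p) (Xy x p) a) ^ 2 = 22 / 25 * (1 - 15 / 14 * (Real.log p / Real.log x)) := by
      intro p hp
      obtain ⟨h1, h2, h3⟩ := (hmem p).mp hp
      have hs := TS_A4_one hx1 d n p h1 h3 h2 (by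
        intro r hr hrn
        have h5 := hall r hr hrn
        unfold Wy
        exact (min_le_right _ _).trans h5)
      rw [hs]
      unfold cy
      rw [if_neg (not_le.mpr (hall p h1 h2))]
      ring
    by_cases hO : Om n ≤ r
    · have h1 : (if Rough (zy x) n ∧ Om n ≤ r then (1 : ℝ) else 0) = 1 := if_pos ⟨hRough, hO⟩
      rw [h1]
      have h2 := sum_nonneg hnn
      linarith
    · by_cases hS : ∃ p : ℕ, p.Prime ∧ x ^ (1 / 5 : ℝ) < p ∧ p ^ 2 ∣ n
      · have h1 : (if ∃ p : ℕ, p.Prime ∧ x ^ (1 / 5 : ℝ) < p ∧ p ^ 2 ∣ n then (1 : ℝ) else 0) = 1 :=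
          if_pos hS
        rw [h1]
        have h2 := sum_nonneg hnn
        linarith
      · have hsq : Squarefree n := by
          rw [Nat.squarefree_iff_prime_squarefree]
          intro p hp hpp
          refine hS ⟨p, hp, ?_, by rw [pow_two]; exact hpp⟩
          have h5 := hall p hp (dvd_of_mul_left_dvd hpp)
          have h6 : x ^ (1 / 5 : ℝ) < ((zy x : ℕ) : ℝ) + 1 := Nat.lt_floor_add_one _
          have h7 : ((zy x : ℕ) : ℝ) + 1 ≤ p := by exact_mod_cast h5
          linarith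
        have h3 := TS_A4_sum hx hn hn2 hsq (by omega)
        have h4 : ∑ p ∈ n.primeFactors, (1 - 15 / 14 * (Real.log p / Real.log x)) ≤
            ∑ p ∈ (Py d x).filter (fun p => p ∣ n), (1 - 15 / 14 * (Real.log p / Real.log x)) := by
          have hsub : (Py d x).filter (fun p => p ∣ n) ⊆ n.primeFactors := by
            intro p hp
            obtain ⟨h1, h2, _⟩ := (hmem p).mp hp
            exact Nat.mem_primeFactors.mpr ⟨h1, h2, hnpos.ne'⟩
          rw [← sum_sdiff hsub]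
          have : ∑ p ∈ n.primeFactors \ (Py d x).filter (fun p => p ∣ n),
              (1 - 15 / 14 * (Real.log p / Real.log x)) ≤ 0 := by
            refine sum_nonpos fun p hp => ?_
            rw [mem_sdiff] at hp
            have h1 := Nat.mem_primeFactors.mp hp.1
            refine TS_A4_term_neg hx p ?_
            by_contra h2
            exact hp.2 ((hmem p).mpr ⟨h1.1, h1.2.1, not_lt.mp h2⟩)
          linarith
        rw [sum_congr rfl hterm, ← mul_sum]
        have h6 := mul_le_mul_of_nonneg_left (h3.trans h4) (by norm_num : (0 : ℝ) ≤ 22 / 25)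
        linarith

end Pool.Agent.Lib.MP_42948a_nt.TS
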