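import Pool.Agent.Lib.MP_42948a_nt.EK.TI2b
import Pool.Agent.Lib.MP_42948a_nt.OA.DV

/-!
# Error terms, from the exponent `th ≥ 1/4` on

As `EK/TI5b.lean`, with `th` in place of `1/3`: `x = ⌊d^a⌋ / m ≥ d^(th + μ)` and all the errors are `≤ d^(-κ'')`.
-/

namespace Pool.Agent.Lib.MP_42948a_nt.TS

open Finset Pool.Agent.Lib.MP_42948a_nt.EK Pool.Agent.Lib.MP_42948a_nt.OA Pool.Agent.Lib.MP_42948a_nt.AC Pool.Agent.Lib.MP_42948a_nt.TQ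
  Pool.Agent.Lib.MP_42948a_nt.PS

private theorem SvE_ev (e C : ℝ) (he : 0 < e) :
    ∃ d0 : ℕ, ∀ d : ℕ, d0 ≤ d → C ≤ (d : ℝ) ^ e := by
  have hev : ∀ᶠ d : ℕ in Filter.atTop, C ≤ (d : ℝ) ^ e :=
    ((tendsto_rpow_atTop he).comp tendsto_natCast_atTop_atTop).eventually_ge_atTop _
  exact Filter.eventually_atTop.1 hev

private theorem SvE_log (A B m : ℕ) (hm : 1 ≤ m) (hAB : A ≤ B) (hx : 1 ≤ A / m) :
    |Real.log (((B / m : ℕ) : ℝ) / ((A / m : ℕ) : ℝ)) - Real.log ((B : ℝ) / A)| ≤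
      1 / ((A / m : ℕ) : ℝ) := by
  have hxy : A / m ≤ B / m := Nat.div_le_div_right hAB
  have a1 : m * (A / m) ≤ A := Nat.mul_div_le A m
  have a2 : A ≤ m * (A / m + 1) := (Nat.lt_mul_div_succ A (by omega)).le
  have b1 : m * (B / m) ≤ B := Nat.mul_div_le B m
  have b2 : B ≤ m * (B / m + 1) := (Nat.lt_mul_div_succ B (by omega)).le
  generalize A / m = x at *
  generalize B / m = y at *
  have c1 : y * A ≤ B * (x + 1) := by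
    calc y * A ≤ y * (m * (x + 1)) := Nat.mul_le_mul_left _ a2
      _ = (m * y) * (x + 1) := by ring
      _ ≤ B * (x + 1) := Nat.mul_le_mul_right _ b1
  have c2 : x * B ≤ A * (y + 1) := by
    calc x * B ≤ x * (m * (y + 1)) := Nat.mul_le_mul_left _ b2
      _ = (m * x) * (y + 1) := by ring
      _ ≤ A * (y + 1) := Nat.mul_le_mul_right _ a1
  have hA0 : 0 < A := lt_of_lt_of_le (Nat.mul_pos (by omega) (by omega)) a1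
  have hB0 : 0 < B := lt_of_lt_of_le hA0 hAB
  have hxr : (0 : ℝ) < x := by exact_mod_cast (by omega : 0 < x)
  have hyr : (0 : ℝ) < y := by exact_mod_cast (by omega : 0 < y)
  have hAr : (0 : ℝ) < A := by exact_mod_cast hA0
  have hBr : (0 : ℝ) < B := by exact_mod_cast hB0
  have hxyr : (x : ℝ) ≤ y := by exact_mod_cast hxy
  have c1r : (y : ℝ) * A ≤ B * (x + 1) := by exact_mod_cast c1
  have c2r : (x : ℝ) * B ≤ A * (y + 1) := by exact_mod_cast c2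
  rw [abs_le]
  constructor
  · have h1 : Real.log ((B : ℝ) / A) - Real.log ((y : ℝ) / x) = Real.log (x * B / (y * A)) := by
      rw [← Real.log_div (by positivity) (by positivity)]
      congr 1
      field_simp
    have h2 : (x : ℝ) * B / (y * A) ≤ 1 + 1 / x := by
      have h3 : (x : ℝ) * B / (y * A) ≤ 1 + 1 / y := by
        rw [div_le_iff₀ (by positivity)]
        have : (1 + 1 / (y : ℝ)) * (y * A) = A * (y + 1) := by field_simp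
        rw [this]
        exact c2r
      have h4 : 1 / (y : ℝ) ≤ 1 / x := one_div_le_one_div_of_le hxr hxyr
      linarith
    have h3 : Real.log (x * B / (y * A)) ≤ x * B / (y * A) - 1 :=
      Real.log_le_sub_one_of_pos (by positivity)
    linarith
  · have h1 : Real.log ((y : ℝ) / x) - Real.log ((B : ℝ) / A) = Real.log (y * A / (x * B)) := by
      rw [← Real.log_div (by positivity) (by positivity)]
      congr 1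
      field_simp
    have h2 : (y : ℝ) * A / (x * B) ≤ 1 + 1 / x := by
      rw [div_le_iff₀ (by positivity)]
      have : (1 + 1 / (x : ℝ)) * (x * B) = B * (x + 1) := by field_simp
      rw [this]
      exact c1r
    have h3 : Real.log (y * A / (x * B)) ≤ y * A / (x * B) - 1 :=
      Real.log_le_sub_one_of_pos (by positivity)
    linarith

theorem err_small_th (th ρ a1 a2 μ κ' : ℝ) (hth : 1 / 4 ≤ th) (hρ0 : 0 < ρ) (hρ1 : ρ < 1) (ha1 : 0 < a1) (ha2 : a2 ≤ 2) (hμ : 0 < μ) (h13 : th + 4 * μ = (1 - ρ) * a1)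
    (hκ' : 0 < κ') (Q : ℕ) : ∃ κ'' : ℝ, 0 < κ'' ∧ ∃ d0 : ℕ, ∀ d : ℕ, d0 ≤ d → ∀ a h : ℝ, a1 ≤ a → a ≤ a2 → 0 < h → h ≤ 1 → ∀ m : ℕ,
      1 ≤ m → (m : ℝ) ≤ (d : ℝ) ^ (ρ * a) →
      (d : ℝ) ^ (th + μ) ≤ ((⌊(d : ℝ) ^ a⌋₊ / m : ℕ) : ℝ) ∧ 1 ≤ ⌊(d : ℝ) ^ a⌋₊ / m ∧
      |hc d (⌊(d : ℝ) ^ a⌋₊ / m) (⌊(d : ℝ) ^ (a + h)⌋₊ / m) -
          (d.totient : ℝ) / d * Real.log ((⌊(d : ℝ) ^ (a + h)⌋₊ : ℝ) / ⌊(d : ℝ) ^ a⌋₊)| +
        (Q : ℝ) ^ 2 * ((d : ℝ) ^ (-κ') * (2 + Real.log (((⌊(d : ℝ) ^ (a + h)⌋₊ / m : ℕ) : ℝ) / ((⌊(d : ℝ) ^ a⌋₊ / m : ℕ) : ℝ)))) ≤ (d : ℝ) ^ (-κ'') := by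
  obtain ⟨C, hC1, hC⟩ := divisor_bound (1 / 24) (by norm_num)
  obtain ⟨κ, hκd⟩ : ∃ κ : ℝ, κ = min (κ' / 2) (1 / 8) := ⟨_, rfl⟩
  have hκ0 : 0 < κ := by
    rw [hκd]
    exact lt_min (by linarith) (by norm_num)
  have hκ1 : κ ≤ κ' / 2 := by
    rw [hκd]
    exact min_le_left _ _
  have hκ2 : κ ≤ 1 / 8 := by
    rw [hκd]
    exact min_le_right _ _
  obtain ⟨ε, hεd⟩ : ∃ ε : ℝ, ε = (κ' - κ) / 2 := ⟨_, rfl⟩
  have hε0 : 0 < ε := by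
    rw [hεd]
    linarith
  obtain ⟨d1, h1⟩ := SvE_ev (3 * μ) 3 (by linarith)
  obtain ⟨d2, h2⟩ := SvE_ev (5 / 24 - κ) (12 * C) (by linarith)
  obtain ⟨d3, h3⟩ := SvE_ev (1 / 4 - κ) 3 (by linarith)
  obtain ⟨d4, h4⟩ := SvE_ev ε (3 * ((Q : ℝ) ^ 2 * (2 + 3 / ε))) hε0
  refine ⟨κ, hκ0, d1 + d2 + d3 + d4 + 2, fun d hd a h ha ha' hh hh1 m hm hmd => ?_⟩
  have e1 := h1 d (by omega)
  have e2 := h2 d (by omega)
  have e3 := h3 d (by omega)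
  have e4 := h4 d (by omega)
  have hd2 : 2 ≤ d := by omega
  have hd1 : (1 : ℝ) ≤ d := by exact_mod_cast (by omega : 1 ≤ d)
  have hd0 : (0 : ℝ) < d := by linarith
  have hm1 : (1 : ℝ) ≤ m := by exact_mod_cast hm
  have hm0 : (0 : ℝ) < m := by linarith
  -- the size of `A / m`
  have hA : (d : ℝ) ^ a < (⌊(d : ℝ) ^ a⌋₊ : ℝ) + 1 := Nat.lt_floor_add_one _
  have hAB : ⌊(d : ℝ) ^ a⌋₊ ≤ ⌊(d : ℝ) ^ (a + h)⌋₊ :=
    Nat.floor_le_floor (Real.rpow_le_rpow_of_exponent_le hd1 (by linarith))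
  have hBd : (⌊(d : ℝ) ^ (a + h)⌋₊ : ℝ) ≤ (d : ℝ) ^ (a + h) :=
    Nat.floor_le (Real.rpow_nonneg hd0.le _)
  have f1 : (⌊(d : ℝ) ^ a⌋₊ : ℝ) ≤ m * (((⌊(d : ℝ) ^ a⌋₊ / m : ℕ) : ℝ) + 1) := by
    exact_mod_cast (Nat.lt_mul_div_succ ⌊(d : ℝ) ^ a⌋₊ (by omega : 0 < m)).le
  have f2 : (d : ℝ) ^ (ρ * a) * (d : ℝ) ^ ((1 - ρ) * a) = (d : ℝ) ^ a := by
    rw [← Real.rpow_add hd0]
    congr 1
    ring
  have f3 : (d : ℝ) ^ (th + 4 * μ) ≤ (d : ℝ) ^ ((1 - ρ) * a) := by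
    refine Real.rpow_le_rpow_of_exponent_le hd1 ?_
    rw [h13]
    exact mul_le_mul_of_nonneg_left ha (by linarith)
  have f4 : (d : ℝ) ^ (th + 4 * μ) = (d : ℝ) ^ (th + μ) * (d : ℝ) ^ (3 * μ) := by
    rw [← Real.rpow_add hd0]
    congr 1
    ring
  have f5 : (1 : ℝ) ≤ (d : ℝ) ^ (th + μ) := Real.one_le_rpow hd1 (by linarith)
  have f6 : (d : ℝ) ^ ((1 - ρ) * a) ≤ ((⌊(d : ℝ) ^ a⌋₊ / m : ℕ) : ℝ) + 2 := by
    have g1 : (m : ℝ) * (d : ℝ) ^ ((1 - ρ) * a) ≤ (d : ℝ) ^ a := by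
      rw [← f2]
      exact mul_le_mul_of_nonneg_right hmd (Real.rpow_nonneg hd0.le _)
    have g2 : (m : ℝ) * (d : ℝ) ^ ((1 - ρ) * a) ≤
        m * (((⌊(d : ℝ) ^ a⌋₊ / m : ℕ) : ℝ) + 2) := by nlinarith
    exact le_of_mul_le_mul_left g2 hm0
  have hx : (d : ℝ) ^ (th + μ) ≤ ((⌊(d : ℝ) ^ a⌋₊ / m : ℕ) : ℝ) := by
    have g1 : (d : ℝ) ^ (th + μ) * 3 ≤ (d : ℝ) ^ (th + μ) * (d : ℝ) ^ (3 * μ) :=
      mul_le_mul_of_nonneg_left e1 (by linarith)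
    linarith
  have hx1 : 1 ≤ ⌊(d : ℝ) ^ a⌋₊ / m := by
    have : (1 : ℝ) ≤ ((⌊(d : ℝ) ^ a⌋₊ / m : ℕ) : ℝ) := f5.trans hx
    exact_mod_cast this
  refine ⟨hx, hx1, ?_⟩
  have hxy : ⌊(d : ℝ) ^ a⌋₊ / m ≤ ⌊(d : ℝ) ^ (a + h)⌋₊ / m := Nat.div_le_div_right hAB
  have hlog := SvE_log _ _ m hm hAB hx1
  have hhc := hc_bound d (by omega) _ _ hx1 hxy
  have hyB : (((⌊(d : ℝ) ^ (a + h)⌋₊ / m : ℕ) : ℕ) : ℝ) ≤ (⌊(d : ℝ) ^ (a + h)⌋₊ : ℝ) := by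
    exact_mod_cast Nat.div_le_self _ _
  generalize (⌊(d : ℝ) ^ a⌋₊ / m : ℕ) = x at *
  generalize (⌊(d : ℝ) ^ (a + h)⌋₊ / m : ℕ) = y at *
  have hx3 : (d : ℝ) ^ ((1 : ℝ) / 4) ≤ (x : ℝ) :=
    (Real.rpow_le_rpow_of_exponent_le hd1 (by linarith)).trans hx
  have hx1r : (1 : ℝ) ≤ x := f5.trans hx
  have hx0 : (0 : ℝ) < x := by linarith
  have hxyr : (x : ℝ) ≤ y := by exact_mod_cast hxy
  have hD0 : (0 : ℝ) < (d : ℝ) ^ (-κ) := Real.rpow_pos_of_pos hd0 _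
  -- first term
  have t1 : 4 * (d.divisors.card : ℝ) / x ≤ (d : ℝ) ^ (-κ) / 3 := by
    have g1 : (d.divisors.card : ℝ) ≤ C * (d : ℝ) ^ ((1 : ℝ) / 24) := hC d (by omega)
    rw [div_le_iff₀ hx0]
    have g2 : (d : ℝ) ^ (-κ) / 3 * (d : ℝ) ^ ((1 : ℝ) / 4) ≤ (d : ℝ) ^ (-κ) / 3 * x :=
      mul_le_mul_of_nonneg_left hx3 (by positivity)
    have g3 : (d : ℝ) ^ (-κ) * (d : ℝ) ^ ((1 : ℝ) / 4) =
        (d : ℝ) ^ ((1 : ℝ) / 24) * (d : ℝ) ^ (5 / 24 - κ) := by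
      rw [← Real.rpow_add hd0, ← Real.rpow_add hd0]
      congr 1
      ring
    have g4 : (d : ℝ) ^ ((1 : ℝ) / 24) * (12 * C) ≤
        (d : ℝ) ^ ((1 : ℝ) / 24) * (d : ℝ) ^ (5 / 24 - κ) :=
      mul_le_mul_of_nonneg_left e2 (Real.rpow_nonneg hd0.le _)
    have g5 : (d : ℝ) ^ (-κ) / 3 * (d : ℝ) ^ ((1 : ℝ) / 4) =
        (d : ℝ) ^ (-κ) * (d : ℝ) ^ ((1 : ℝ) / 4) / 3 := by ring
    linarith
  -- second term
  have t2 : 1 / (x : ℝ) ≤ (d : ℝ) ^ (-κ) / 3 := by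
    rw [div_le_iff₀ hx0]
    have g2 : (d : ℝ) ^ (-κ) / 3 * (d : ℝ) ^ ((1 : ℝ) / 4) ≤ (d : ℝ) ^ (-κ) / 3 * x :=
      mul_le_mul_of_nonneg_left hx3 (by positivity)
    have g3 : (d : ℝ) ^ (-κ) * (d : ℝ) ^ ((1 : ℝ) / 4) = (d : ℝ) ^ (1 / 4 - κ) := by
      rw [← Real.rpow_add hd0]
      congr 1
      ring
    have g5 : (d : ℝ) ^ (-κ) / 3 * (d : ℝ) ^ ((1 : ℝ) / 4) =
        (d : ℝ) ^ (-κ) * (d : ℝ) ^ ((1 : ℝ) / 4) / 3 := by ring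
    linarith
  -- third term
  have t3 : (Q : ℝ) ^ 2 * ((d : ℝ) ^ (-κ') * (2 + Real.log ((y : ℝ) / x))) ≤
      (d : ℝ) ^ (-κ) / 3 := by
    have g1 : Real.log ((y : ℝ) / x) ≤ 3 * Real.log d := by
      have k1 : (y : ℝ) / x ≤ (d : ℝ) ^ (3 : ℝ) := by
        rw [div_le_iff₀ hx0]
        have k2 : (d : ℝ) ^ (a + h) ≤ (d : ℝ) ^ (3 : ℝ) :=
          Real.rpow_le_rpow_of_exponent_le hd1 (by linarith)
        have k3 : (0 : ℝ) ≤ (d : ℝ) ^ (3 : ℝ) := Real.rpow_nonneg hd0.le _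
        nlinarith
      have k4 := Real.log_le_log (div_pos (by linarith) hx0 : (0 : ℝ) < (y : ℝ) / x) k1
      rwa [Real.log_rpow hd0] at k4
    have g2 : Real.log d ≤ (d : ℝ) ^ ε / ε := Real.log_le_rpow_div hd0.le hε0
    have g3 : (1 : ℝ) ≤ (d : ℝ) ^ ε := Real.one_le_rpow hd1 hε0.le
    have g4 : 2 + Real.log ((y : ℝ) / x) ≤ (2 + 3 / ε) * (d : ℝ) ^ ε := by
      have k1 : 3 * ((d : ℝ) ^ ε / ε) = 3 / ε * (d : ℝ) ^ ε := by ring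
      have k2 : (2 + 3 / ε) * (d : ℝ) ^ ε = 2 * (d : ℝ) ^ ε + 3 / ε * (d : ℝ) ^ ε := by ring
      linarith
    have g5 : (Q : ℝ) ^ 2 * ((d : ℝ) ^ (-κ') * (2 + Real.log ((y : ℝ) / x))) ≤
        (Q : ℝ) ^ 2 * ((d : ℝ) ^ (-κ') * ((2 + 3 / ε) * (d : ℝ) ^ ε)) :=
      mul_le_mul_of_nonneg_left
        (mul_le_mul_of_nonneg_left g4 (Real.rpow_nonneg hd0.le _)) (by positivity)
    have g6 : (d : ℝ) ^ (-κ') * (d : ℝ) ^ ε * (d : ℝ) ^ ε = (d : ℝ) ^ (-κ) := by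
      rw [← Real.rpow_add hd0, ← Real.rpow_add hd0]
      congr 1
      rw [hεd]
      ring
    have g7 : (d : ℝ) ^ (-κ') * (d : ℝ) ^ ε * (3 * ((Q : ℝ) ^ 2 * (2 + 3 / ε))) ≤
        (d : ℝ) ^ (-κ') * (d : ℝ) ^ ε * (d : ℝ) ^ ε :=
      mul_le_mul_of_nonneg_left e4
        (mul_nonneg (Real.rpow_nonneg hd0.le _) (Real.rpow_nonneg hd0.le _))
    have g8 : (Q : ℝ) ^ 2 * ((d : ℝ) ^ (-κ') * ((2 + 3 / ε) * (d : ℝ) ^ ε)) =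
        (d : ℝ) ^ (-κ') * (d : ℝ) ^ ε * (3 * ((Q : ℝ) ^ 2 * (2 + 3 / ε))) / 3 := by ring
    linarith
  -- the main difference
  have hφ0 : (0 : ℝ) ≤ (d.totient : ℝ) / d := by positivity
  have hφ1 : (d.totient : ℝ) / d ≤ 1 := by
    rw [div_le_one hd0]
    exact_mod_cast Nat.totient_le d
  have hmain : |hc d x y - (d.totient : ℝ) / d *
      Real.log ((⌊(d : ℝ) ^ (a + h)⌋₊ : ℝ) / ⌊(d : ℝ) ^ a⌋₊)| ≤
      4 * (d.divisors.card : ℝ) / x + 1 / x := by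
    have k1 : hc d x y - (d.totient : ℝ) / d *
        Real.log ((⌊(d : ℝ) ^ (a + h)⌋₊ : ℝ) / ⌊(d : ℝ) ^ a⌋₊) =
        (hc d x y - (d.totient : ℝ) / d * Real.log ((y : ℝ) / x)) +
        (d.totient : ℝ) / d * (Real.log ((y : ℝ) / x) -
          Real.log ((⌊(d : ℝ) ^ (a + h)⌋₊ : ℝ) / ⌊(d : ℝ) ^ a⌋₊)) := by ring
    rw [k1]
    refine (abs_add_le _ _).trans (add_le_add hhc ?_)
    rw [abs_mul, abs_of_nonneg hφ0]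
    calc _ ≤ 1 * |Real.log ((y : ℝ) / x) -
          Real.log ((⌊(d : ℝ) ^ (a + h)⌋₊ : ℝ) / ⌊(d : ℝ) ^ a⌋₊)| :=
          mul_le_mul_of_nonneg_right hφ1 (abs_nonneg _)
      _ ≤ 1 / x := by
          rw [one_mul]
          exact hlog
  linarith

end Pool.Agent.Lib.MP_42948a_nt.TS
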