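import Pool.Agent.Lib.MP_42948a_nt.TS.SvQ

/-!
# The primes from `x^(3 / 25)` to `x^(1 / 5)`
-/

namespace Pool.Agent.Lib.MP_42948a_nt.TS

open Finset Pool.Agent.Lib.MP_42948a_nt.OA Pool.Agent.Lib.MP_42948a_nt.OM Pool.Agent.Lib.MP_42948a_nt.SV

private theorem p60 (A : ℕ) : QP A f1 (60 / 500) (61 / 500) (80183 / 1000000) := by
  refine QP_step1 A (60 / 500) (61 / 500) (81 / 250) (48501 / 10000) (49663 / 50000) (1653 / 100000) (80183 / 1000000) ?_ ?_ ?_ ?_ ?_ ?_ ?_ ?_ ?_ ?_ ?_ ?_ ?_ <;>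
    norm_num [Finset.sum_range_succ, Nat.factorial]

private theorem p61 (A : ℕ) : QP A f1 (61 / 500) (62 / 500) (15517 / 200000) := by
  refine QP_step1 A (61 / 500) (62 / 500) (1647 / 5000) (23853 / 5000) (49663 / 50000) (16261 / 1000000) (15517 / 200000) ?_ ?_ ?_ ?_ ?_ ?_ ?_ ?_ ?_ ?_ ?_ ?_ ?_ <;>
    norm_num [Finset.sum_range_succ, Nat.factorial]

private theorem p62 (A : ℕ) : QP A f1 (62 / 500) (63 / 500) (75113 / 1000000) := by
  refine QP_step1 A (62 / 500) (63 / 500) (837 / 2500) (5867 / 1250) (49663 / 50000) (16001 / 1000000) (75113 / 1000000) ?_ ?_ ?_ ?_ ?_ ?_ ?_ ?_ ?_ ?_ ?_ ?_ ?_ <;>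
    norm_num [Finset.sum_range_succ, Nat.factorial]

private theorem p63 (A : ℕ) : QP A f1 (63 / 500) (64 / 500) (72757 / 1000000) := by
  refine QP_step1 A (63 / 500) (64 / 500) (1701 / 5000) (46191 / 10000) (49663 / 50000) (15749 / 1000000) (72757 / 1000000) ?_ ?_ ?_ ?_ ?_ ?_ ?_ ?_ ?_ ?_ ?_ ?_ ?_ <;>
    norm_num [Finset.sum_range_succ, Nat.factorial]

private theorem p64 (A : ℕ) : QP A f1 (64 / 500) (65 / 500) (4407 / 62500) := by
  refine QP_step1 A (64 / 500) (65 / 500) (216 / 625) (4547 / 1000) (49663 / 50000) (3101 / 200000) (4407 / 62500) ?_ ?_ ?_ ?_ ?_ ?_ ?_ ?_ ?_ ?_ ?_ ?_ ?_ <;>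
    norm_num [Finset.sum_range_succ, Nat.factorial]

private theorem p65 (A : ℕ) : QP A f1 (65 / 500) (66 / 500) (13673 / 200000) := by
  refine QP_step1 A (65 / 500) (66 / 500) (351 / 1000) (4477 / 1000) (49663 / 50000) (3817 / 250000) (13673 / 200000) ?_ ?_ ?_ ?_ ?_ ?_ ?_ ?_ ?_ ?_ ?_ ?_ ?_ <;>
    norm_num [Finset.sum_range_succ, Nat.factorial]

private theorem p66 (A : ℕ) : QP A f1 (66 / 500) (67 / 500) (16579 / 250000) := by
  refine QP_step1 A (66 / 500) (67 / 500) (891 / 2500) (11023 / 2500) (49663 / 50000) (7519 / 500000) (16579 / 250000) ?_ ?_ ?_ ?_ ?_ ?_ ?_ ?_ ?_ ?_ ?_ ?_ ?_ <;>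
    norm_num [Finset.sum_range_succ, Nat.factorial]

private theorem p67 (A : ℕ) : QP A f1 (67 / 500) (68 / 500) (32181 / 500000) := by
  refine QP_step1 A (67 / 500) (68 / 500) (1809 / 5000) (21717 / 5000) (49663 / 50000) (463 / 31250) (32181 / 500000) ?_ ?_ ?_ ?_ ?_ ?_ ?_ ?_ ?_ ?_ ?_ ?_ ?_ <;>
    norm_num [Finset.sum_range_succ, Nat.factorial]

private theorem p68 (A : ℕ) : QP A f1 (68 / 500) (69 / 500) (62487 / 1000000) := by
  refine QP_step1 A (68 / 500) (69 / 500) (459 / 1250) (8559 / 2000) (49663 / 50000) (14599 / 1000000) (62487 / 1000000) ?_ ?_ ?_ ?_ ?_ ?_ ?_ ?_ ?_ ?_ ?_ ?_ ?_ <;>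
    norm_num [Finset.sum_range_succ, Nat.factorial]

private theorem p69 (A : ℕ) : QP A f1 (69 / 500) (70 / 500) (7587 / 125000) := by
  refine QP_step1 A (69 / 500) (70 / 500) (1863 / 5000) (1687 / 400) (49663 / 50000) (14389 / 1000000) (7587 / 125000) ?_ ?_ ?_ ?_ ?_ ?_ ?_ ?_ ?_ ?_ ?_ ?_ ?_ <;>
    norm_num [Finset.sum_range_succ, Nat.factorial]

private theorem p70 (A : ℕ) : QP A f1 (70 / 500) (71 / 500) (2949 / 50000) := by
  refine QP_step1 A (70 / 500) (71 / 500) (189 / 500) (10393 / 2500) (49663 / 50000) (2837 / 200000) (2949 / 50000) ?_ ?_ ?_ ?_ ?_ ?_ ?_ ?_ ?_ ?_ ?_ ?_ ?_ <;>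
    norm_num [Finset.sum_range_succ, Nat.factorial]

private theorem p71 (A : ℕ) : QP A f1 (71 / 500) (72 / 500) (57339 / 1000000) := by
  refine QP_step1 A (71 / 500) (72 / 500) (1917 / 5000) (40987 / 10000) (49663 / 50000) (13987 / 1000000) (57339 / 1000000) ?_ ?_ ?_ ?_ ?_ ?_ ?_ ?_ ?_ ?_ ?_ ?_ ?_ <;>
    norm_num [Finset.sum_range_succ, Nat.factorial]

private theorem p72 (A : ℕ) : QP A f1 (72 / 500) (73 / 500) (55763 / 1000000) := by
  refine QP_step1 A (72 / 500) (73 / 500) (243 / 625) (20209 / 5000) (49663 / 50000) (6897 / 500000) (55763 / 1000000) ?_ ?_ ?_ ?_ ?_ ?_ ?_ ?_ ?_ ?_ ?_ ?_ ?_ <;>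
    norm_num [Finset.sum_range_succ, Nat.factorial]

private theorem p73 (A : ℕ) : QP A f1 (73 / 500) (74 / 500) (54249 / 1000000) := by
  refine QP_step1 A (73 / 500) (74 / 500) (1971 / 5000) (4983 / 1250) (49663 / 50000) (6803 / 500000) (54249 / 1000000) ?_ ?_ ?_ ?_ ?_ ?_ ?_ ?_ ?_ ?_ ?_ ?_ ?_ <;>
    norm_num [Finset.sum_range_succ, Nat.factorial]

private theorem p74 (A : ℕ) : QP A f1 (74 / 500) (75 / 500) (33 / 625) := by
  refine QP_step1 A (74 / 500) (75 / 500) (999 / 2500) (1573 / 400) (49663 / 50000) (839 / 62500) (33 / 625) ?_ ?_ ?_ ?_ ?_ ?_ ?_ ?_ ?_ ?_ ?_ ?_ ?_ <;>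
    norm_num [Finset.sum_range_succ, Nat.factorial]

private theorem p75 (A : ℕ) : QP A f1 (75 / 500) (76 / 500) (25703 / 500000) := by
  refine QP_step1 A (75 / 500) (76 / 500) (81 / 200) (38801 / 10000) (49663 / 50000) (6623 / 500000) (25703 / 500000) ?_ ?_ ?_ ?_ ?_ ?_ ?_ ?_ ?_ ?_ ?_ ?_ ?_ <;>
    norm_num [Finset.sum_range_succ, Nat.factorial]

private theorem p76 (A : ℕ) : QP A f1 (76 / 500) (77 / 500) (50067 / 1000000) := by
  refine QP_step1 A (76 / 500) (77 / 500) (513 / 1250) (3829 / 1000) (49663 / 50000) (13073 / 1000000) (50067 / 1000000) ?_ ?_ ?_ ?_ ?_ ?_ ?_ ?_ ?_ ?_ ?_ ?_ ?_ <;>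
    norm_num [Finset.sum_range_succ, Nat.factorial]

private theorem p77 (A : ℕ) : QP A f1 (77 / 500) (78 / 500) (48779 / 1000000) := by
  refine QP_step1 A (77 / 500) (78 / 500) (2079 / 5000) (37793 / 10000) (49663 / 50000) (1613 / 125000) (48779 / 1000000) ?_ ?_ ?_ ?_ ?_ ?_ ?_ ?_ ?_ ?_ ?_ ?_ ?_ <;>
    norm_num [Finset.sum_range_succ, Nat.factorial]

private theorem p78 (A : ℕ) : QP A f1 (78 / 500) (79 / 500) (47541 / 1000000) := by
  refine QP_step1 A (78 / 500) (79 / 500) (421 / 1000) (9327 / 2500) (49639 / 50000) (637 / 50000) (47541 / 1000000) ?_ ?_ ?_ ?_ ?_ ?_ ?_ ?_ ?_ ?_ ?_ ?_ ?_ <;>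
    norm_num [Finset.sum_range_succ, Nat.factorial]

private theorem p79 (A : ℕ) : QP A f1 (79 / 500) (80 / 500) (46363 / 1000000) := by
  refine QP_step1 A (79 / 500) (80 / 500) (21 / 50) (36849 / 10000) (97767 / 100000) (12579 / 1000000) (46363 / 1000000) ?_ ?_ ?_ ?_ ?_ ?_ ?_ ?_ ?_ ?_ ?_ ?_ ?_ <;>
    norm_num [Finset.sum_range_succ, Nat.factorial]

private theorem p80 (A : ℕ) : QP A f1 (80 / 500) (81 / 500) (22623 / 500000) := by
  refine QP_step1 A (80 / 500) (81 / 500) (419 / 1000) (36413 / 10000) (9627 / 10000) (12423 / 1000000) (22623 / 500000) ?_ ?_ ?_ ?_ ?_ ?_ ?_ ?_ ?_ ?_ ?_ ?_ ?_ <;>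
    norm_num [Finset.sum_range_succ, Nat.factorial]

private theorem p81 (A : ℕ) : QP A f1 (81 / 500) (82 / 500) (22093 / 500000) := by
  refine QP_step1 A (81 / 500) (82 / 500) (209 / 500) (18 / 5) (94789 / 100000) (12271 / 1000000) (22093 / 500000) ?_ ?_ ?_ ?_ ?_ ?_ ?_ ?_ ?_ ?_ ?_ ?_ ?_ <;>
    norm_num [Finset.sum_range_succ, Nat.factorial]

private theorem p82 (A : ℕ) : QP A f1 (82 / 500) (83 / 500) (1727 / 40000) := by
  refine QP_step1 A (82 / 500) (83 / 500) (417 / 1000) (4451 / 1250) (93323 / 100000) (6061 / 500000) (1727 / 40000) ?_ ?_ ?_ ?_ ?_ ?_ ?_ ?_ ?_ ?_ ?_ ?_ ?_ <;>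
    norm_num [Finset.sum_range_succ, Nat.factorial]

private theorem p83 (A : ℕ) : QP A f1 (83 / 500) (84 / 500) (4221 / 100000) := by
  refine QP_step1 A (83 / 500) (84 / 500) (52 / 125) (17617 / 5000) (9187 / 10000) (11977 / 1000000) (4221 / 100000) ?_ ?_ ?_ ?_ ?_ ?_ ?_ ?_ ?_ ?_ ?_ ?_ ?_ <;>
    norm_num [Finset.sum_range_succ, Nat.factorial]

private theorem p84 (A : ℕ) : QP A f1 (84 / 500) (85 / 500) (4129 / 100000) := by
  refine QP_step1 A (84 / 500) (85 / 500) (83 / 200) (34879 / 10000) (2826 / 3125) (2367 / 200000) (4129 / 100000) ?_ ?_ ?_ ?_ ?_ ?_ ?_ ?_ ?_ ?_ ?_ ?_ ?_ <;>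
    norm_num [Finset.sum_range_succ, Nat.factorial]

private theorem p85 (A : ℕ) : QP A f1 (85 / 500) (86 / 500) (40413 / 1000000) := by
  refine QP_step1 A (85 / 500) (86 / 500) (207 / 500) (34541 / 10000) (89007 / 100000) (11697 / 1000000) (40413 / 1000000) ?_ ?_ ?_ ?_ ?_ ?_ ?_ ?_ ?_ ?_ ?_ ?_ ?_ <;>
    norm_num [Finset.sum_range_succ, Nat.factorial]

private theorem p86 (A : ℕ) : QP A f1 (86 / 500) (87 / 500) (9893 / 250000) := by
  refine QP_step1 A (86 / 500) (87 / 500) (413 / 1000) (1711 / 500) (21899 / 25000) (11561 / 1000000) (9893 / 250000) ?_ ?_ ?_ ?_ ?_ ?_ ?_ ?_ ?_ ?_ ?_ ?_ ?_ <;>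
    norm_num [Finset.sum_range_succ, Nat.factorial]

private theorem p87 (A : ℕ) : QP A f1 (87 / 500) (88 / 500) (38771 / 1000000) := by
  refine QP_step1 A (87 / 500) (88 / 500) (103 / 250) (16957 / 5000) (86197 / 100000) (11429 / 1000000) (38771 / 1000000) ?_ ?_ ?_ ?_ ?_ ?_ ?_ ?_ ?_ ?_ ?_ ?_ ?_ <;>
    norm_num [Finset.sum_range_succ, Nat.factorial]

private theorem p88 (A : ℕ) : QP A f1 (88 / 500) (89 / 500) (38003 / 1000000) := by
  refine QP_step1 A (88 / 500) (89 / 500) (411 / 1000) (16811 / 5000) (84811 / 100000) (113 / 10000) (38003 / 1000000) ?_ ?_ ?_ ?_ ?_ ?_ ?_ ?_ ?_ ?_ ?_ ?_ ?_ <;>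
    norm_num [Finset.sum_range_succ, Nat.factorial]

private theorem p89 (A : ℕ) : QP A f1 (89 / 500) (90 / 500) (37269 / 1000000) := by
  refine QP_step1 A (89 / 500) (90 / 500) (41 / 100) (2084 / 625) (41719 / 50000) (5587 / 500000) (37269 / 1000000) ?_ ?_ ?_ ?_ ?_ ?_ ?_ ?_ ?_ ?_ ?_ ?_ ?_ <;>
    norm_num [Finset.sum_range_succ, Nat.factorial]

private theorem p90 (A : ℕ) : QP A f1 (90 / 500) (91 / 500) (36563 / 1000000) := by
  refine QP_step1 A (90 / 500) (91 / 500) (409 / 1000) (33079 / 10000) (20519 / 25000) (221 / 20000) (36563 / 1000000) ?_ ?_ ?_ ?_ ?_ ?_ ?_ ?_ ?_ ?_ ?_ ?_ ?_ <;>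
    norm_num [Finset.sum_range_succ, Nat.factorial]

private theorem p91 (A : ℕ) : QP A f1 (91 / 500) (92 / 500) (3589 / 100000) := by
  refine QP_step1 A (91 / 500) (92 / 500) (51 / 125) (32827 / 10000) (80727 / 100000) (1093 / 100000) (3589 / 100000) ?_ ?_ ?_ ?_ ?_ ?_ ?_ ?_ ?_ ?_ ?_ ?_ ?_ <;>
    norm_num [Finset.sum_range_succ, Nat.factorial]

private theorem p92 (A : ℕ) : QP A f1 (92 / 500) (93 / 500) (17619 / 500000) := by
  refine QP_step1 A (92 / 500) (93 / 500) (407 / 1000) (6517 / 2000) (19847 / 25000) (10811 / 1000000) (17619 / 500000) ?_ ?_ ?_ ?_ ?_ ?_ ?_ ?_ ?_ ?_ ?_ ?_ ?_ <;>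
    norm_num [Finset.sum_range_succ, Nat.factorial]

private theorem p93 (A : ℕ) : QP A f1 (93 / 500) (94 / 500) (34617 / 1000000) := by
  refine QP_step1 A (93 / 500) (94 / 500) (203 / 500) (6471 / 2000) (78061 / 100000) (1337 / 125000) (34617 / 1000000) ?_ ?_ ?_ ?_ ?_ ?_ ?_ ?_ ?_ ?_ ?_ ?_ ?_ <;>
    norm_num [Finset.sum_range_succ, Nat.factorial]

private theorem p94 (A : ℕ) : QP A f1 (94 / 500) (95 / 500) (1701 / 50000) := by
  refine QP_step1 A (94 / 500) (95 / 500) (81 / 200) (4017 / 1250) (15349 / 20000) (10583 / 1000000) (1701 / 50000) ?_ ?_ ?_ ?_ ?_ ?_ ?_ ?_ ?_ ?_ ?_ ?_ ?_ <;>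
    norm_num [Finset.sum_range_succ, Nat.factorial]

private theorem p95 (A : ℕ) : QP A f1 (95 / 500) (96 / 500) (8361 / 250000) := by
  refine QP_step1 A (95 / 500) (96 / 500) (101 / 250) (31927 / 10000) (943 / 1250) (1309 / 125000) (8361 / 250000) ?_ ?_ ?_ ?_ ?_ ?_ ?_ ?_ ?_ ?_ ?_ ?_ ?_ <;>
    norm_num [Finset.sum_range_succ, Nat.factorial]

private theorem p96 (A : ℕ) : QP A f1 (96 / 500) (97 / 500) (32889 / 1000000) := by
  refine QP_step1 A (96 / 500) (97 / 500) (403 / 1000) (31727 / 10000) (14829 / 20000) (10363 / 1000000) (32889 / 1000000) ?_ ?_ ?_ ?_ ?_ ?_ ?_ ?_ ?_ ?_ ?_ ?_ ?_ <;>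
    norm_num [Finset.sum_range_succ, Nat.factorial]

private theorem p97 (A : ℕ) : QP A f1 (97 / 500) (98 / 500) (32357 / 1000000) := by
  refine QP_step1 A (97 / 500) (98 / 500) (201 / 500) (1971 / 625) (3643 / 5000) (10257 / 1000000) (32357 / 1000000) ?_ ?_ ?_ ?_ ?_ ?_ ?_ ?_ ?_ ?_ ?_ ?_ ?_ <;>
    norm_num [Finset.sum_range_succ, Nat.factorial]

private theorem p98 (A : ℕ) : QP A f1 (98 / 500) (99 / 500) (7961 / 250000) := by
  refine QP_step1 A (98 / 500) (99 / 500) (401 / 1000) (15677 / 5000) (14317 / 20000) (10153 / 1000000) (7961 / 250000) ?_ ?_ ?_ ?_ ?_ ?_ ?_ ?_ ?_ ?_ ?_ ?_ ?_ <;>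
    norm_num [Finset.sum_range_succ, Nat.factorial]

private theorem p99 (A : ℕ) : QP A f1 (99 / 500) (100 / 500) (627 / 20000) := by
  refine QP_step1 A (99 / 500) (100 / 500) (2 / 5) (1559 / 500) (879 / 1250) (10051 / 1000000) (627 / 20000) ?_ ?_ ?_ ?_ ?_ ?_ ?_ ?_ ?_ ?_ ?_ ?_ ?_ <;>
    norm_num [Finset.sum_range_succ, Nat.factorial]

theorem reg1 (A : ℕ) : QP A f1 (3 / 25) (1 / 5) (19701 / 10000) := by
  have g61 := p60 A
  have g62 := QP_glue (by norm_num) (by norm_num) g61 (p61 A)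
  have g63 := QP_glue (by norm_num) (by norm_num) g62 (p62 A)
  have g64 := QP_glue (by norm_num) (by norm_num) g63 (p63 A)
  have g65 := QP_glue (by norm_num) (by norm_num) g64 (p64 A)
  have g66 := QP_glue (by norm_num) (by norm_num) g65 (p65 A)
  have g67 := QP_glue (by norm_num) (by norm_num) g66 (p66 A)
  have g68 := QP_glue (by norm_num) (by norm_num) g67 (p67 A)
  have g69 := QP_glue (by norm_num) (by norm_num) g68 (p68 A)
  have g70 := QP_glue (by norm_num) (by norm_num) g69 (p69 A)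
  have g71 := QP_glue (by norm_num) (by norm_num) g70 (p70 A)
  have g72 := QP_glue (by norm_num) (by norm_num) g71 (p71 A)
  have g73 := QP_glue (by norm_num) (by norm_num) g72 (p72 A)
  have g74 := QP_glue (by norm_num) (by norm_num) g73 (p73 A)
  have g75 := QP_glue (by norm_num) (by norm_num) g74 (p74 A)
  have g76 := QP_glue (by norm_num) (by norm_num) g75 (p75 A)
  have g77 := QP_glue (by norm_num) (by norm_num) g76 (p76 A)
  have g78 := QP_glue (by norm_num) (by norm_num) g77 (p77 A)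
  have g79 := QP_glue (by norm_num) (by norm_num) g78 (p78 A)
  have g80 := QP_glue (by norm_num) (by norm_num) g79 (p79 A)
  have g81 := QP_glue (by norm_num) (by norm_num) g80 (p80 A)
  have g82 := QP_glue (by norm_num) (by norm_num) g81 (p81 A)
  have g83 := QP_glue (by norm_num) (by norm_num) g82 (p82 A)
  have g84 := QP_glue (by norm_num) (by norm_num) g83 (p83 A)
  have g85 := QP_glue (by norm_num) (by norm_num) g84 (p84 A)
  have g86 := QP_glue (by norm_num) (by norm_num) g85 (p85 A)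
  have g87 := QP_glue (by norm_num) (by norm_num) g86 (p86 A)
  have g88 := QP_glue (by norm_num) (by norm_num) g87 (p87 A)
  have g89 := QP_glue (by norm_num) (by norm_num) g88 (p88 A)
  have g90 := QP_glue (by norm_num) (by norm_num) g89 (p89 A)
  have g91 := QP_glue (by norm_num) (by norm_num) g90 (p90 A)
  have g92 := QP_glue (by norm_num) (by norm_num) g91 (p91 A)
  have g93 := QP_glue (by norm_num) (by norm_num) g92 (p92 A)
  have g94 := QP_glue (by norm_num) (by norm_num) g93 (p93 A)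
  have g95 := QP_glue (by norm_num) (by norm_num) g94 (p94 A)
  have g96 := QP_glue (by norm_num) (by norm_num) g95 (p95 A)
  have g97 := QP_glue (by norm_num) (by norm_num) g96 (p96 A)
  have g98 := QP_glue (by norm_num) (by norm_num) g97 (p97 A)
  have g99 := QP_glue (by norm_num) (by norm_num) g98 (p98 A)
  have g100 := QP_glue (by norm_num) (by norm_num) g99 (p99 A)
  have e1 : (3 / 25 : ℝ) = 60 / 500 := by norm_num
  have e2 : (1 / 5 : ℝ) = 100 / 500 := by norm_num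
  rw [e1, e2]
  refine QP_mono g100 ?_
  norm_num

end Pool.Agent.Lib.MP_42948a_nt.TS
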