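import Pool.Agent.Lib.MP_42948a_nt.TS.SvQ

/-!
# The primes from `x^(1 / 5)` to `x^(17 / 30)`
-/

namespace Pool.Agent.Lib.MP_42948a_nt.TS

open Finset Pool.Agent.Lib.MP_42948a_nt.OA Pool.Agent.Lib.MP_42948a_nt.OM Pool.Agent.Lib.MP_42948a_nt.SV

private theorem p24 (A : ℕ) : QP A f2 (24 / 120) (25 / 120) (49617 / 500000) := by
  have hG : (1 : ℝ) < (31111 / 10000) * Gam (1 / 5) (19 / 48) := by
    refine QP_G1 (19 / 48) (31111 / 10000) (17067 / 25000) ?_ ?_ ?_ ?_ ?_ <;> norm_num [Finset.sum_range_succ, Nat.factorial]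
  refine QP_step2 A (24 / 120) (25 / 120) (19 / 48) (31111 / 10000) (20411 / 500000) (49617 / 500000) ?_ ?_ ?_ ?_ ?_ ?_ hG ?_ ?_ ?_ <;>
    norm_num [Finset.sum_range_succ, Nat.factorial]

private theorem p25 (A : ℕ) : QP A f2 (25 / 120) (26 / 120) (94647 / 1000000) := by
  have hG : (1 : ℝ) < (31241 / 10000) * Gam (1 / 5) (47 / 120) := by
    refine QP_G1 (47 / 120) (31241 / 10000) (6721 / 10000) ?_ ?_ ?_ ?_ ?_ <;> norm_num [Finset.sum_range_succ, Nat.factorial]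
  refine QP_step2 A (25 / 120) (26 / 120) (47 / 120) (31241 / 10000) (39221 / 1000000) (94647 / 1000000) ?_ ?_ ?_ ?_ ?_ ?_ hG ?_ ?_ ?_ <;>
    norm_num [Finset.sum_range_succ, Nat.factorial]

private theorem p26 (A : ℕ) : QP A f2 (26 / 120) (27 / 120) (18083 / 200000) := by
  have hG : (1 : ℝ) < (31377 / 10000) * Gam (1 / 5) (31 / 80) := by
    refine QP_G1 (31 / 80) (31377 / 10000) (3307 / 5000) ?_ ?_ ?_ ?_ ?_ <;> norm_num [Finset.sum_range_succ, Nat.factorial]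
  refine QP_step2 A (26 / 120) (27 / 120) (31 / 80) (31377 / 10000) (37741 / 1000000) (18083 / 200000) ?_ ?_ ?_ ?_ ?_ ?_ hG ?_ ?_ ?_ <;>
    norm_num [Finset.sum_range_succ, Nat.factorial]

private theorem p27 (A : ℕ) : QP A f2 (27 / 120) (28 / 120) (86497 / 1000000) := by
  have hG : (1 : ℝ) < (31519 / 10000) * Gam (1 / 5) (23 / 60) := by
    refine QP_G1 (23 / 60) (31519 / 10000) (65059 / 100000) ?_ ?_ ?_ ?_ ?_ <;> norm_num [Finset.sum_range_succ, Nat.factorial]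
  refine QP_step2 A (27 / 120) (28 / 120) (23 / 60) (31519 / 10000) (2273 / 62500) (86497 / 1000000) ?_ ?_ ?_ ?_ ?_ ?_ hG ?_ ?_ ?_ <;>
    norm_num [Finset.sum_range_succ, Nat.factorial]

private theorem p28 (A : ℕ) : QP A f2 (28 / 120) (29 / 120) (41431 / 500000) := by
  have hG : (1 : ℝ) < (31667 / 10000) * Gam (1 / 5) (91 / 240) := by
    refine QP_G1 (91 / 240) (31667 / 10000) (31983 / 50000) ?_ ?_ ?_ ?_ ?_ <;> norm_num [Finset.sum_range_succ, Nat.factorial]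
  refine QP_step2 A (28 / 120) (29 / 120) (91 / 240) (31667 / 10000) (8773 / 250000) (41431 / 500000) ?_ ?_ ?_ ?_ ?_ ?_ hG ?_ ?_ ?_ <;>
    norm_num [Finset.sum_range_succ, Nat.factorial]

private theorem p29 (A : ℕ) : QP A f2 (29 / 120) (30 / 120) (19869 / 250000) := by
  have hG : (1 : ℝ) < (1591 / 500) * Gam (1 / 5) (3 / 8) := by
    refine QP_G1 (3 / 8) (1591 / 500) (62861 / 100000) ?_ ?_ ?_ ?_ ?_ <;> norm_num [Finset.sum_range_succ, Nat.factorial]
  refine QP_step2 A (29 / 120) (30 / 120) (3 / 8) (1591 / 500) (16951 / 500000) (19869 / 250000) ?_ ?_ ?_ ?_ ?_ ?_ hG ?_ ?_ ?_ <;>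
    norm_num [Finset.sum_range_succ, Nat.factorial]

private theorem p30 (A : ℕ) : QP A f2 (30 / 120) (31 / 120) (76319 / 1000000) := by
  have hG : (1 : ℝ) < (1599 / 500) * Gam (1 / 5) (89 / 240) := by
    refine QP_G1 (89 / 240) (1599 / 500) (3859 / 6250) ?_ ?_ ?_ ?_ ?_ <;> norm_num [Finset.sum_range_succ, Nat.factorial]
  refine QP_step2 A (30 / 120) (31 / 120) (89 / 240) (1599 / 500) (3279 / 100000) (76319 / 1000000) ?_ ?_ ?_ ?_ ?_ ?_ hG ?_ ?_ ?_ <;>
    norm_num [Finset.sum_range_succ, Nat.factorial]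

private theorem p31 (A : ℕ) : QP A f2 (31 / 120) (32 / 120) (73369 / 1000000) := by
  have hG : (1 : ℝ) < (16073 / 5000) * Gam (1 / 5) (11 / 30) := by
    refine QP_G1 (11 / 30) (16073 / 5000) (30307 / 50000) ?_ ?_ ?_ ?_ ?_ <;> norm_num [Finset.sum_range_succ, Nat.factorial]
  refine QP_step2 A (31 / 120) (32 / 120) (11 / 30) (16073 / 5000) (31749 / 1000000) (73369 / 1000000) ?_ ?_ ?_ ?_ ?_ ?_ hG ?_ ?_ ?_ <;>
    norm_num [Finset.sum_range_succ, Nat.factorial]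

private theorem p32 (A : ℕ) : QP A f2 (32 / 120) (33 / 120) (35303 / 500000) := by
  have hG : (1 : ℝ) < (32319 / 10000) * Gam (1 / 5) (29 / 80) := by
    refine QP_G1 (29 / 80) (32319 / 10000) (59471 / 100000) ?_ ?_ ?_ ?_ ?_ <;> norm_num [Finset.sum_range_succ, Nat.factorial]
  refine QP_step2 A (32 / 120) (33 / 120) (29 / 80) (32319 / 10000) (7693 / 250000) (35303 / 500000) ?_ ?_ ?_ ?_ ?_ ?_ hG ?_ ?_ ?_ <;>
    norm_num [Finset.sum_range_succ, Nat.factorial]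

private theorem p33 (A : ℕ) : QP A f2 (33 / 120) (34 / 120) (68013 / 1000000) := by
  have hG : (1 : ℝ) < (32499 / 10000) * Gam (1 / 5) (43 / 120) := by
    refine QP_G1 (43 / 120) (32499 / 10000) (11663 / 20000) ?_ ?_ ?_ ?_ ?_ <;> norm_num [Finset.sum_range_succ, Nat.factorial]
  refine QP_step2 A (33 / 120) (34 / 120) (43 / 120) (32499 / 10000) (29853 / 1000000) (68013 / 1000000) ?_ ?_ ?_ ?_ ?_ ?_ hG ?_ ?_ ?_ <;>
    norm_num [Finset.sum_range_succ, Nat.factorial]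

private theorem p34 (A : ℕ) : QP A f2 (34 / 120) (35 / 120) (65579 / 1000000) := by
  have hG : (1 : ℝ) < (32687 / 10000) * Gam (1 / 5) (17 / 48) := by
    refine QP_G1 (17 / 48) (32687 / 10000) (28573 / 50000) ?_ ?_ ?_ ?_ ?_ <;> norm_num [Finset.sum_range_succ, Nat.factorial]
  refine QP_step2 A (34 / 120) (35 / 120) (17 / 48) (32687 / 10000) (7247 / 250000) (65579 / 1000000) ?_ ?_ ?_ ?_ ?_ ?_ hG ?_ ?_ ?_ <;>
    norm_num [Finset.sum_range_succ, Nat.factorial]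

private theorem p35 (A : ℕ) : QP A f2 (35 / 120) (36 / 120) (31641 / 500000) := by
  have hG : (1 : ℝ) < (32881 / 10000) * Gam (1 / 5) (7 / 20) := by
    refine QP_G1 (7 / 20) (32881 / 10000) (27981 / 50000) ?_ ?_ ?_ ?_ ?_ <;> norm_num [Finset.sum_range_succ, Nat.factorial]
  refine QP_step2 A (35 / 120) (36 / 120) (7 / 20) (32881 / 10000) (28171 / 1000000) (31641 / 500000) ?_ ?_ ?_ ?_ ?_ ?_ hG ?_ ?_ ?_ <;>
    norm_num [Finset.sum_range_succ, Nat.factorial]

private theorem p36 (A : ℕ) : QP A f2 (36 / 120) (37 / 120) (15279 / 250000) := by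
  have hG : (1 : ℝ) < (33083 / 10000) * Gam (1 / 5) (83 / 240) := by
    refine QP_G1 (83 / 240) (33083 / 10000) (13691 / 25000) ?_ ?_ ?_ ?_ ?_ <;> norm_num [Finset.sum_range_succ, Nat.factorial]
  refine QP_step2 A (36 / 120) (37 / 120) (83 / 240) (33083 / 10000) (27399 / 1000000) (15279 / 250000) ?_ ?_ ?_ ?_ ?_ ?_ hG ?_ ?_ ?_ <;>
    norm_num [Finset.sum_range_succ, Nat.factorial]

private theorem p37 (A : ℕ) : QP A f2 (37 / 120) (38 / 120) (29537 / 500000) := by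
  have hG : (1 : ℝ) < (33293 / 10000) * Gam (1 / 5) (41 / 120) := by
    refine QP_G1 (41 / 120) (33293 / 10000) (3347 / 6250) ?_ ?_ ?_ ?_ ?_ <;> norm_num [Finset.sum_range_succ, Nat.factorial]
  refine QP_step2 A (37 / 120) (38 / 120) (41 / 120) (33293 / 10000) (26669 / 1000000) (29537 / 500000) ?_ ?_ ?_ ?_ ?_ ?_ hG ?_ ?_ ?_ <;>
    norm_num [Finset.sum_range_succ, Nat.factorial]

private theorem p38 (A : ℕ) : QP A f2 (38 / 120) (39 / 120) (2857 / 50000) := by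
  have hG : (1 : ℝ) < (4189 / 1250) * Gam (1 / 5) (27 / 80) := by
    refine QP_G1 (27 / 80) (4189 / 1250) (2093 / 4000) ?_ ?_ ?_ ?_ ?_ <;> norm_num [Finset.sum_range_succ, Nat.factorial]
  refine QP_step2 A (38 / 120) (39 / 120) (27 / 80) (4189 / 1250) (3247 / 125000) (2857 / 50000) ?_ ?_ ?_ ?_ ?_ ?_ hG ?_ ?_ ?_ <;>
    norm_num [Finset.sum_range_succ, Nat.factorial]

private theorem p39 (A : ℕ) : QP A f2 (39 / 120) (40 / 120) (13827 / 250000) := by
  have hG : (1 : ℝ) < (1687 / 500) * Gam (1 / 5) (1 / 3) := by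
    refine QP_G1 (1 / 3) (1687 / 500) (51083 / 100000) ?_ ?_ ?_ ?_ ?_ <;> norm_num [Finset.sum_range_succ, Nat.factorial]
  refine QP_step2 A (39 / 120) (40 / 120) (1 / 3) (1687 / 500) (12659 / 500000) (13827 / 250000) ?_ ?_ ?_ ?_ ?_ ?_ hG ?_ ?_ ?_ <;>
    norm_num [Finset.sum_range_succ, Nat.factorial]

private theorem p40 (A : ℕ) : QP A f2 (40 / 120) (41 / 120) (13393 / 250000) := by
  have hG : (1 : ℝ) < (4247 / 1250) * Gam (1 / 5) (79 / 240) := by
    refine QP_G1 (79 / 240) (4247 / 1250) (1993 / 4000) ?_ ?_ ?_ ?_ ?_ <;> norm_num [Finset.sum_range_succ, Nat.factorial]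
  refine QP_step2 A (40 / 120) (41 / 120) (79 / 240) (4247 / 1250) (24693 / 1000000) (13393 / 250000) ?_ ?_ ?_ ?_ ?_ ?_ hG ?_ ?_ ?_ <;>
    norm_num [Finset.sum_range_succ, Nat.factorial]

private theorem p41 (A : ℕ) : QP A f2 (41 / 120) (42 / 120) (2077 / 40000) := by
  have hG : (1 : ℝ) < (34223 / 10000) * Gam (1 / 5) (13 / 40) := by
    refine QP_G1 (13 / 40) (34223 / 10000) (48551 / 100000) ?_ ?_ ?_ ?_ ?_ <;> norm_num [Finset.sum_range_succ, Nat.factorial]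
  refine QP_step2 A (41 / 120) (42 / 120) (13 / 40) (34223 / 10000) (12049 / 500000) (2077 / 40000) ?_ ?_ ?_ ?_ ?_ ?_ hG ?_ ?_ ?_ <;>
    norm_num [Finset.sum_range_succ, Nat.factorial]

private theorem p42 (A : ℕ) : QP A f2 (42 / 120) (43 / 120) (25179 / 500000) := by
  have hG : (1 : ℝ) < (34479 / 10000) * Gam (1 / 5) (77 / 240) := by
    refine QP_G1 (77 / 240) (34479 / 10000) (47261 / 100000) ?_ ?_ ?_ ?_ ?_ <;> norm_num [Finset.sum_range_succ, Nat.factorial]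
  refine QP_step2 A (42 / 120) (43 / 120) (77 / 240) (34479 / 10000) (23531 / 1000000) (25179 / 500000) ?_ ?_ ?_ ?_ ?_ ?_ hG ?_ ?_ ?_ <;>
    norm_num [Finset.sum_range_succ, Nat.factorial]

private theorem p43 (A : ℕ) : QP A f2 (43 / 120) (44 / 120) (48867 / 1000000) := by
  have hG : (1 : ℝ) < (6949 / 2000) * Gam (1 / 5) (19 / 60) := by
    refine QP_G1 (19 / 60) (6949 / 2000) (22977 / 50000) ?_ ?_ ?_ ?_ ?_ <;> norm_num [Finset.sum_range_succ, Nat.factorial]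
  refine QP_step2 A (43 / 120) (44 / 120) (19 / 60) (6949 / 2000) (2299 / 100000) (48867 / 1000000) ?_ ?_ ?_ ?_ ?_ ?_ hG ?_ ?_ ?_ <;>
    norm_num [Finset.sum_range_succ, Nat.factorial]

private theorem p44 (A : ℕ) : QP A f2 (44 / 120) (45 / 120) (47447 / 1000000) := by
  have hG : (1 : ℝ) < (35023 / 10000) * Gam (1 / 5) (5 / 16) := by
    refine QP_G1 (5 / 16) (35023 / 10000) (44629 / 100000) ?_ ?_ ?_ ?_ ?_ <;> norm_num [Finset.sum_range_succ, Nat.factorial]
  refine QP_step2 A (44 / 120) (45 / 120) (5 / 16) (35023 / 10000) (22473 / 1000000) (47447 / 1000000) ?_ ?_ ?_ ?_ ?_ ?_ hG ?_ ?_ ?_ <;>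
    norm_num [Finset.sum_range_succ, Nat.factorial]

private theorem p45 (A : ℕ) : QP A f2 (45 / 120) (46 / 120) (46093 / 1000000) := by
  have hG : (1 : ℝ) < (35311 / 10000) * Gam (1 / 5) (37 / 120) := by
    refine QP_G1 (37 / 120) (35311 / 10000) (43287 / 100000) ?_ ?_ ?_ ?_ ?_ <;> norm_num [Finset.sum_range_succ, Nat.factorial]
  refine QP_step2 A (45 / 120) (46 / 120) (37 / 120) (35311 / 10000) (21979 / 1000000) (46093 / 1000000) ?_ ?_ ?_ ?_ ?_ ?_ hG ?_ ?_ ?_ <;>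
    norm_num [Finset.sum_range_succ, Nat.factorial]

private theorem p46 (A : ℕ) : QP A f2 (46 / 120) (47 / 120) (8961 / 200000) := by
  have hG : (1 : ℝ) < (8903 / 2500) * Gam (1 / 5) (73 / 240) := by
    refine QP_G1 (73 / 240) (8903 / 2500) (20963 / 50000) ?_ ?_ ?_ ?_ ?_ <;> norm_num [Finset.sum_range_succ, Nat.factorial]
  refine QP_step2 A (46 / 120) (47 / 120) (73 / 240) (8903 / 2500) (21507 / 1000000) (8961 / 200000) ?_ ?_ ?_ ?_ ?_ ?_ hG ?_ ?_ ?_ <;>
    norm_num [Finset.sum_range_succ, Nat.factorial]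

private theorem p47 (A : ℕ) : QP A f2 (47 / 120) (48 / 120) (43571 / 1000000) := by
  have hG : (1 : ℝ) < (1437 / 400) * Gam (1 / 5) (3 / 10) := by
    refine QP_G1 (3 / 10) (1437 / 400) (40547 / 100000) ?_ ?_ ?_ ?_ ?_ <;> norm_num [Finset.sum_range_succ, Nat.factorial]
  refine QP_step2 A (47 / 120) (48 / 120) (3 / 10) (1437 / 400) (10527 / 500000) (43571 / 1000000) ?_ ?_ ?_ ?_ ?_ ?_ hG ?_ ?_ ?_ <;>
    norm_num [Finset.sum_range_succ, Nat.factorial]

private theorem p48 (A : ℕ) : QP A f2 (48 / 120) (49 / 120) (21197 / 500000) := by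
  have hG : (1 : ℝ) < (9063 / 2500) * Gam (1 / 5) (71 / 240) := by
    refine QP_G1 (71 / 240) (9063 / 2500) (9787 / 25000) ?_ ?_ ?_ ?_ ?_ <;> norm_num [Finset.sum_range_succ, Nat.factorial]
  refine QP_step2 A (48 / 120) (49 / 120) (71 / 240) (9063 / 2500) (1031 / 50000) (21197 / 500000) ?_ ?_ ?_ ?_ ?_ ?_ hG ?_ ?_ ?_ <;>
    norm_num [Finset.sum_range_succ, Nat.factorial]

private theorem p49 (A : ℕ) : QP A f2 (49 / 120) (50 / 120) (20633 / 500000) := by
  have hG : (1 : ℝ) < (2287 / 625) * Gam (1 / 5) (7 / 24) := by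
    refine QP_G1 (7 / 24) (2287 / 625) (3773 / 10000) ?_ ?_ ?_ ?_ ?_ <;> norm_num [Finset.sum_range_succ, Nat.factorial]
  refine QP_step2 A (49 / 120) (50 / 120) (7 / 24) (2287 / 625) (20203 / 1000000) (20633 / 500000) ?_ ?_ ?_ ?_ ?_ ?_ hG ?_ ?_ ?_ <;>
    norm_num [Finset.sum_range_succ, Nat.factorial]

private theorem p50 (A : ℕ) : QP A f2 (50 / 120) (51 / 120) (10047 / 250000) := by
  have hG : (1 : ℝ) < (36947 / 10000) * Gam (1 / 5) (23 / 80) := by
    refine QP_G1 (23 / 80) (36947 / 10000) (36291 / 100000) ?_ ?_ ?_ ?_ ?_ <;> norm_num [Finset.sum_range_succ, Nat.factorial]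
  refine QP_step2 A (50 / 120) (51 / 120) (23 / 80) (36947 / 10000) (19803 / 1000000) (10047 / 250000) ?_ ?_ ?_ ?_ ?_ ?_ hG ?_ ?_ ?_ <;>
    norm_num [Finset.sum_range_succ, Nat.factorial]

private theorem p51 (A : ℕ) : QP A f2 (51 / 120) (52 / 120) (19579 / 500000) := by
  have hG : (1 : ℝ) < (37317 / 10000) * Gam (1 / 5) (17 / 60) := by
    refine QP_G1 (17 / 60) (37317 / 10000) (34831 / 100000) ?_ ?_ ?_ ?_ ?_ <;> norm_num [Finset.sum_range_succ, Nat.factorial]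
  refine QP_step2 A (51 / 120) (52 / 120) (17 / 60) (37317 / 10000) (19419 / 1000000) (19579 / 500000) ?_ ?_ ?_ ?_ ?_ ?_ hG ?_ ?_ ?_ <;>
    norm_num [Finset.sum_range_succ, Nat.factorial]

private theorem p52 (A : ℕ) : QP A f2 (52 / 120) (53 / 120) (4771 / 125000) := by
  have hG : (1 : ℝ) < (37703 / 10000) * Gam (1 / 5) (67 / 240) := by
    refine QP_G1 (67 / 240) (37703 / 10000) (667 / 2000) ?_ ?_ ?_ ?_ ?_ <;> norm_num [Finset.sum_range_succ, Nat.factorial]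
  refine QP_step2 A (52 / 120) (53 / 120) (67 / 240) (37703 / 10000) (19049 / 1000000) (4771 / 125000) ?_ ?_ ?_ ?_ ?_ ?_ hG ?_ ?_ ?_ <;>
    norm_num [Finset.sum_range_succ, Nat.factorial]

private theorem p53 (A : ℕ) : QP A f2 (53 / 120) (54 / 120) (1861 / 50000) := by
  have hG : (1 : ℝ) < (38107 / 10000) * Gam (1 / 5) (11 / 40) := by
    refine QP_G1 (11 / 40) (38107 / 10000) (15923 / 50000) ?_ ?_ ?_ ?_ ?_ <;> norm_num [Finset.sum_range_succ, Nat.factorial]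
  refine QP_step2 A (53 / 120) (54 / 120) (11 / 40) (38107 / 10000) (18693 / 1000000) (1861 / 50000) ?_ ?_ ?_ ?_ ?_ ?_ hG ?_ ?_ ?_ <;>
    norm_num [Finset.sum_range_succ, Nat.factorial]

private theorem p54 (A : ℕ) : QP A f2 (54 / 120) (55 / 120) (36309 / 1000000) := by
  have hG : (1 : ℝ) < (2408 / 625) * Gam (1 / 5) (13 / 48) := by
    refine QP_G1 (13 / 48) (2408 / 625) (30319 / 100000) ?_ ?_ ?_ ?_ ?_ <;> norm_num [Finset.sum_range_succ, Nat.factorial]
  refine QP_step2 A (54 / 120) (55 / 120) (13 / 48) (2408 / 625) (367 / 20000) (36309 / 1000000) ?_ ?_ ?_ ?_ ?_ ?_ hG ?_ ?_ ?_ <;>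
    norm_num [Finset.sum_range_succ, Nat.factorial]

private theorem p55 (A : ℕ) : QP A f2 (55 / 120) (56 / 120) (7087 / 200000) := by
  have hG : (1 : ℝ) < (38969 / 10000) * Gam (1 / 5) (4 / 15) := by
    refine QP_G1 (4 / 15) (38969 / 10000) (28769 / 100000) ?_ ?_ ?_ ?_ ?_ <;> norm_num [Finset.sum_range_succ, Nat.factorial]
  refine QP_step2 A (55 / 120) (56 / 120) (4 / 15) (38969 / 10000) (18019 / 1000000) (7087 / 200000) ?_ ?_ ?_ ?_ ?_ ?_ hG ?_ ?_ ?_ <;>
    norm_num [Finset.sum_range_succ, Nat.factorial]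

private theorem p56 (A : ℕ) : QP A f2 (56 / 120) (57 / 120) (8649 / 250000) := by
  have hG : (1 : ℝ) < (3943 / 1000) * Gam (1 / 5) (21 / 80) := by
    refine QP_G1 (21 / 80) (3943 / 1000) (13597 / 50000) ?_ ?_ ?_ ?_ ?_ <;> norm_num [Finset.sum_range_succ, Nat.factorial]
  refine QP_step2 A (56 / 120) (57 / 120) (21 / 80) (3943 / 1000) (177 / 10000) (8649 / 250000) ?_ ?_ ?_ ?_ ?_ ?_ hG ?_ ?_ ?_ <;>
    norm_num [Finset.sum_range_succ, Nat.factorial]

private theorem p57 (A : ℕ) : QP A f2 (57 / 120) (58 / 120) (33791 / 1000000) := by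
  have hG : (1 : ℝ) < (39913 / 10000) * Gam (1 / 5) (31 / 120) := by
    refine QP_G1 (31 / 120) (39913 / 10000) (12797 / 50000) ?_ ?_ ?_ ?_ ?_ <;> norm_num [Finset.sum_range_succ, Nat.factorial]
  refine QP_step2 A (57 / 120) (58 / 120) (31 / 120) (39913 / 10000) (1087 / 62500) (33791 / 1000000) ?_ ?_ ?_ ?_ ?_ ?_ hG ?_ ?_ ?_ <;>
    norm_num [Finset.sum_range_succ, Nat.factorial]

private theorem p58 (A : ℕ) : QP A f2 (58 / 120) (59 / 120) (16509 / 500000) := by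
  have hG : (1 : ℝ) < (40419 / 10000) * Gam (1 / 5) (61 / 240) := by
    refine QP_G1 (61 / 240) (40419 / 10000) (749 / 3125) ?_ ?_ ?_ ?_ ?_ <;> norm_num [Finset.sum_range_succ, Nat.factorial]
  refine QP_step2 A (58 / 120) (59 / 120) (61 / 240) (40419 / 10000) (3419 / 200000) (16509 / 500000) ?_ ?_ ?_ ?_ ?_ ?_ hG ?_ ?_ ?_ <;>
    norm_num [Finset.sum_range_succ, Nat.factorial]

private theorem p59 (A : ℕ) : QP A f2 (59 / 120) (60 / 120) (1291 / 40000) := by
  have hG : (1 : ℝ) < (10237 / 2500) * Gam (1 / 5) (1 / 4) := by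
    refine QP_G1 (1 / 4) (10237 / 2500) (4463 / 20000) ?_ ?_ ?_ ?_ ?_ <;> norm_num [Finset.sum_range_succ, Nat.factorial]
  refine QP_step2 A (59 / 120) (60 / 120) (1 / 4) (10237 / 2500) (2101 / 125000) (1291 / 40000) ?_ ?_ ?_ ?_ ?_ ?_ hG ?_ ?_ ?_ <;>
    norm_num [Finset.sum_range_succ, Nat.factorial]

private theorem p60 (A : ℕ) : QP A f2 (60 / 120) (61 / 120) (31559 / 1000000) := by
  have hG : (1 : ℝ) < (2594 / 625) * Gam (1 / 5) (59 / 240) := by
    refine QP_G1 (59 / 240) (2594 / 625) (10317 / 50000) ?_ ?_ ?_ ?_ ?_ <;> norm_num [Finset.sum_range_succ, Nat.factorial]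
  refine QP_step2 A (60 / 120) (61 / 120) (59 / 240) (2594 / 625) (1653 / 100000) (31559 / 1000000) ?_ ?_ ?_ ?_ ?_ ?_ hG ?_ ?_ ?_ <;>
    norm_num [Finset.sum_range_succ, Nat.factorial]

private theorem p61 (A : ℕ) : QP A f2 (61 / 120) (62 / 120) (30871 / 1000000) := by
  have hG : (1 : ℝ) < (5261 / 1250) * Gam (1 / 5) (29 / 120) := by
    refine QP_G1 (29 / 120) (5261 / 1250) (757 / 4000) ?_ ?_ ?_ ?_ ?_ <;> norm_num [Finset.sum_range_succ, Nat.factorial]
  refine QP_step2 A (61 / 120) (62 / 120) (29 / 120) (5261 / 1250) (16261 / 1000000) (30871 / 1000000) ?_ ?_ ?_ ?_ ?_ ?_ hG ?_ ?_ ?_ <;>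
    norm_num [Finset.sum_range_succ, Nat.factorial]

private theorem p62 (A : ℕ) : QP A f2 (62 / 120) (63 / 120) (30211 / 1000000) := by
  have hG : (1 : ℝ) < (21351 / 5000) * Gam (1 / 5) (19 / 80) := by
    refine QP_G1 (19 / 80) (21351 / 5000) (8593 / 50000) ?_ ?_ ?_ ?_ ?_ <;> norm_num [Finset.sum_range_succ, Nat.factorial]
  refine QP_step2 A (62 / 120) (63 / 120) (19 / 80) (21351 / 5000) (16001 / 1000000) (30211 / 1000000) ?_ ?_ ?_ ?_ ?_ ?_ hG ?_ ?_ ?_ <;>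
    norm_num [Finset.sum_range_succ, Nat.factorial]

private theorem p63 (A : ℕ) : QP A f2 (63 / 120) (64 / 120) (3697 / 125000) := by
  have hG : (1 : ℝ) < (10837 / 2500) * Gam (1 / 5) (7 / 30) := by
    refine QP_G1 (7 / 30) (10837 / 2500) (1927 / 12500) ?_ ?_ ?_ ?_ ?_ <;> norm_num [Finset.sum_range_succ, Nat.factorial]
  refine QP_step2 A (63 / 120) (64 / 120) (7 / 30) (10837 / 2500) (15749 / 1000000) (3697 / 125000) ?_ ?_ ?_ ?_ ?_ ?_ hG ?_ ?_ ?_ <;>
    norm_num [Finset.sum_range_succ, Nat.factorial]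

private theorem p64 (A : ℕ) : QP A f2 (64 / 120) (65 / 120) (5793 / 200000) := by
  have hG : (1 : ℝ) < (44027 / 10000) * Gam (1 / 5) (11 / 48) := by
    refine QP_G1 (11 / 48) (44027 / 10000) (6807 / 50000) ?_ ?_ ?_ ?_ ?_ <;> norm_num [Finset.sum_range_succ, Nat.factorial]
  refine QP_step2 A (64 / 120) (65 / 120) (11 / 48) (44027 / 10000) (3101 / 200000) (5793 / 200000) ?_ ?_ ?_ ?_ ?_ ?_ hG ?_ ?_ ?_ <;>
    norm_num [Finset.sum_range_succ, Nat.factorial]

private theorem p65 (A : ℕ) : QP A f2 (65 / 120) (66 / 120) (3547 / 125000) := by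
  have hG : (1 : ℝ) < (5593 / 1250) * Gam (1 / 5) (9 / 40) := by
    refine QP_G1 (9 / 40) (5593 / 1250) (11779 / 100000) ?_ ?_ ?_ ?_ ?_ <;> norm_num [Finset.sum_range_succ, Nat.factorial]
  refine QP_step2 A (65 / 120) (66 / 120) (9 / 40) (5593 / 1250) (3817 / 250000) (3547 / 125000) ?_ ?_ ?_ ?_ ?_ ?_ hG ?_ ?_ ?_ <;>
    norm_num [Finset.sum_range_succ, Nat.factorial]

private theorem p66 (A : ℕ) : QP A f2 (66 / 120) (67 / 120) (869 / 31250) := by
  have hG : (1 : ℝ) < (91 / 20) * Gam (1 / 5) (53 / 240) := by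
    refine QP_G1 (53 / 240) (91 / 20) (991 / 10000) ?_ ?_ ?_ ?_ ?_ <;> norm_num [Finset.sum_range_succ, Nat.factorial]
  refine QP_step2 A (66 / 120) (67 / 120) (53 / 240) (91 / 20) (7519 / 500000) (869 / 31250) ?_ ?_ ?_ ?_ ?_ ?_ hG ?_ ?_ ?_ <;>
    norm_num [Finset.sum_range_succ, Nat.factorial]

private theorem p67 (A : ℕ) : QP A f2 (67 / 120) (68 / 120) (27269 / 1000000) := by
  have hG : (1 : ℝ) < (46299 / 10000) * Gam (1 / 5) (13 / 60) := by
    refine QP_G1 (13 / 60) (46299 / 10000) (1601 / 20000) ?_ ?_ ?_ ?_ ?_ <;> norm_num [Finset.sum_range_succ, Nat.factorial]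
  refine QP_step2 A (67 / 120) (68 / 120) (13 / 60) (46299 / 10000) (463 / 31250) (27269 / 1000000) ?_ ?_ ?_ ?_ ?_ ?_ hG ?_ ?_ ?_ <;>
    norm_num [Finset.sum_range_succ, Nat.factorial]

theorem reg2a (A : ℕ) : QP A f2 (1 / 5) (17 / 30) (22481 / 10000) := by
  have g25 := p24 A
  have g26 := QP_glue (by norm_num) (by norm_num) g25 (p25 A)
  have g27 := QP_glue (by norm_num) (by norm_num) g26 (p26 A)
  have g28 := QP_glue (by norm_num) (by norm_num) g27 (p27 A)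
  have g29 := QP_glue (by norm_num) (by norm_num) g28 (p28 A)
  have g30 := QP_glue (by norm_num) (by norm_num) g29 (p29 A)
  have g31 := QP_glue (by norm_num) (by norm_num) g30 (p30 A)
  have g32 := QP_glue (by norm_num) (by norm_num) g31 (p31 A)
  have g33 := QP_glue (by norm_num) (by norm_num) g32 (p32 A)
  have g34 := QP_glue (by norm_num) (by norm_num) g33 (p33 A)
  have g35 := QP_glue (by norm_num) (by norm_num) g34 (p34 A)
  have g36 := QP_glue (by norm_num) (by norm_num) g35 (p35 A)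
  have g37 := QP_glue (by norm_num) (by norm_num) g36 (p36 A)
  have g38 := QP_glue (by norm_num) (by norm_num) g37 (p37 A)
  have g39 := QP_glue (by norm_num) (by norm_num) g38 (p38 A)
  have g40 := QP_glue (by norm_num) (by norm_num) g39 (p39 A)
  have g41 := QP_glue (by norm_num) (by norm_num) g40 (p40 A)
  have g42 := QP_glue (by norm_num) (by norm_num) g41 (p41 A)
  have g43 := QP_glue (by norm_num) (by norm_num) g42 (p42 A)
  have g44 := QP_glue (by norm_num) (by norm_num) g43 (p43 A)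
  have g45 := QP_glue (by norm_num) (by norm_num) g44 (p44 A)
  have g46 := QP_glue (by norm_num) (by norm_num) g45 (p45 A)
  have g47 := QP_glue (by norm_num) (by norm_num) g46 (p46 A)
  have g48 := QP_glue (by norm_num) (by norm_num) g47 (p47 A)
  have g49 := QP_glue (by norm_num) (by norm_num) g48 (p48 A)
  have g50 := QP_glue (by norm_num) (by norm_num) g49 (p49 A)
  have g51 := QP_glue (by norm_num) (by norm_num) g50 (p50 A)
  have g52 := QP_glue (by norm_num) (by norm_num) g51 (p51 A)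
  have g53 := QP_glue (by norm_num) (by norm_num) g52 (p52 A)
  have g54 := QP_glue (by norm_num) (by norm_num) g53 (p53 A)
  have g55 := QP_glue (by norm_num) (by norm_num) g54 (p54 A)
  have g56 := QP_glue (by norm_num) (by norm_num) g55 (p55 A)
  have g57 := QP_glue (by norm_num) (by norm_num) g56 (p56 A)
  have g58 := QP_glue (by norm_num) (by norm_num) g57 (p57 A)
  have g59 := QP_glue (by norm_num) (by norm_num) g58 (p58 A)
  have g60 := QP_glue (by norm_num) (by norm_num) g59 (p59 A)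
  have g61 := QP_glue (by norm_num) (by norm_num) g60 (p60 A)
  have g62 := QP_glue (by norm_num) (by norm_num) g61 (p61 A)
  have g63 := QP_glue (by norm_num) (by norm_num) g62 (p62 A)
  have g64 := QP_glue (by norm_num) (by norm_num) g63 (p63 A)
  have g65 := QP_glue (by norm_num) (by norm_num) g64 (p64 A)
  have g66 := QP_glue (by norm_num) (by norm_num) g65 (p65 A)
  have g67 := QP_glue (by norm_num) (by norm_num) g66 (p66 A)
  have g68 := QP_glue (by norm_num) (by norm_num) g67 (p67 A)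
  have e1 : (1 / 5 : ℝ) = 24 / 120 := by norm_num
  have e2 : (17 / 30 : ℝ) = 68 / 120 := by norm_num
  rw [e1, e2]
  refine QP_mono g68 ?_
  norm_num

end Pool.Agent.Lib.MP_42948a_nt.TS
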