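import Pool.Agent.Lib.MP_42948a_nt.TS.SvQ

/-!
# The primes from `x^(17 / 30)` to `x^(14 / 15)`
-/

namespace Pool.Agent.Lib.MP_42948a_nt.TS

open Finset Pool.Agent.Lib.MP_42948a_nt.OA Pool.Agent.Lib.MP_42948a_nt.OM Pool.Agent.Lib.MP_42948a_nt.SV

private theorem p68 (A : ℕ) : QP A f2 (68 / 120) (69 / 120) (3343 / 125000) := by
  have hG : (1 : ℝ) < (9429 / 2000) * Gam (1 / 5) (17 / 80) := by
    refine QP_G1 (17 / 80) (9429 / 2000) (6063 / 100000) ?_ ?_ ?_ ?_ ?_ <;> norm_num [Finset.sum_range_succ, Nat.factorial]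
  refine QP_step2 A (68 / 120) (69 / 120) (17 / 80) (9429 / 2000) (14599 / 1000000) (3343 / 125000) ?_ ?_ ?_ ?_ ?_ ?_ hG ?_ ?_ ?_ <;>
    norm_num [Finset.sum_range_succ, Nat.factorial]

private theorem p69 (A : ℕ) : QP A f2 (69 / 120) (70 / 120) (13121 / 500000) := by
  have hG : (1 : ℝ) < (1201 / 250) * Gam (1 / 5) (5 / 24) := by
    refine QP_G1 (5 / 24) (1201 / 250) (4083 / 100000) ?_ ?_ ?_ ?_ ?_ <;> norm_num [Finset.sum_range_succ, Nat.factorial]
  refine QP_step2 A (69 / 120) (70 / 120) (5 / 24) (1201 / 250) (14389 / 1000000) (13121 / 500000) ?_ ?_ ?_ ?_ ?_ ?_ hG ?_ ?_ ?_ <;>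
    norm_num [Finset.sum_range_succ, Nat.factorial]

private theorem p70 (A : ℕ) : QP A f2 (70 / 120) (71 / 120) (12881 / 500000) := by
  have hG : (1 : ℝ) < (48991 / 10000) * Gam (1 / 5) (49 / 240) := by
    refine QP_G1 (49 / 240) (48991 / 10000) (1031 / 50000) ?_ ?_ ?_ ?_ ?_ <;> norm_num [Finset.sum_range_succ, Nat.factorial]
  refine QP_step2 A (70 / 120) (71 / 120) (49 / 240) (48991 / 10000) (2837 / 200000) (12881 / 500000) ?_ ?_ ?_ ?_ ?_ ?_ hG ?_ ?_ ?_ <;>
    norm_num [Finset.sum_range_succ, Nat.factorial]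

private theorem p71 (A : ℕ) : QP A f2 (71 / 120) (72 / 120) (25303 / 1000000) := by
  have hG : (1 : ℝ) < (50001 / 10000) * Gam (1 / 5) (1 / 5) := by
    refine QP_G2 (1 / 5) (50001 / 10000) ?_ ?_ <;> norm_num
  refine QP_step2 A (71 / 120) (72 / 120) (1 / 5) (50001 / 10000) (13987 / 1000000) (25303 / 1000000) ?_ ?_ ?_ ?_ ?_ ?_ hG ?_ ?_ ?_ <;>
    norm_num [Finset.sum_range_succ, Nat.factorial]

private theorem p72 (A : ℕ) : QP A f2 (72 / 120) (73 / 120) (4971 / 200000) := by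
  have hG : (1 : ℝ) < (6383 / 1250) * Gam (1 / 5) (47 / 240) := by
    refine QP_G2 (47 / 240) (6383 / 1250) ?_ ?_ <;> norm_num
  refine QP_step2 A (72 / 120) (73 / 120) (47 / 240) (6383 / 1250) (6897 / 500000) (4971 / 200000) ?_ ?_ ?_ ?_ ?_ ?_ hG ?_ ?_ ?_ <;>
    norm_num [Finset.sum_range_succ, Nat.factorial]

private theorem p73 (A : ℕ) : QP A f2 (73 / 120) (74 / 120) (4883 / 200000) := by
  have hG : (1 : ℝ) < (26087 / 5000) * Gam (1 / 5) (23 / 120) := by
    refine QP_G2 (23 / 120) (26087 / 5000) ?_ ?_ <;> norm_num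
  refine QP_step2 A (73 / 120) (74 / 120) (23 / 120) (26087 / 5000) (6803 / 500000) (4883 / 200000) ?_ ?_ ?_ ?_ ?_ ?_ hG ?_ ?_ ?_ <;>
    norm_num [Finset.sum_range_succ, Nat.factorial]

private theorem p74 (A : ℕ) : QP A f2 (74 / 120) (75 / 120) (11993 / 500000) := by
  have hG : (1 : ℝ) < (26667 / 5000) * Gam (1 / 5) (3 / 16) := by
    refine QP_G2 (3 / 16) (26667 / 5000) ?_ ?_ <;> norm_num
  refine QP_step2 A (74 / 120) (75 / 120) (3 / 16) (26667 / 5000) (839 / 62500) (11993 / 500000) ?_ ?_ ?_ ?_ ?_ ?_ hG ?_ ?_ ?_ <;>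
    norm_num [Finset.sum_range_succ, Nat.factorial]

private theorem p75 (A : ℕ) : QP A f2 (75 / 120) (76 / 120) (589 / 25000) := by
  have hG : (1 : ℝ) < (27273 / 5000) * Gam (1 / 5) (11 / 60) := by
    refine QP_G2 (11 / 60) (27273 / 5000) ?_ ?_ <;> norm_num
  refine QP_step2 A (75 / 120) (76 / 120) (11 / 60) (27273 / 5000) (6623 / 500000) (589 / 25000) ?_ ?_ ?_ ?_ ?_ ?_ hG ?_ ?_ ?_ <;>
    norm_num [Finset.sum_range_succ, Nat.factorial]

private theorem p76 (A : ℕ) : QP A f2 (76 / 120) (77 / 120) (23143 / 1000000) := by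
  have hG : (1 : ℝ) < (11163 / 2000) * Gam (1 / 5) (43 / 240) := by
    refine QP_G2 (43 / 240) (11163 / 2000) ?_ ?_ <;> norm_num
  refine QP_step2 A (76 / 120) (77 / 120) (43 / 240) (11163 / 2000) (13073 / 1000000) (23143 / 1000000) ?_ ?_ ?_ ?_ ?_ ?_ hG ?_ ?_ ?_ <;>
    norm_num [Finset.sum_range_succ, Nat.factorial]

private theorem p77 (A : ℕ) : QP A f2 (77 / 120) (78 / 120) (22727 / 1000000) := by
  have hG : (1 : ℝ) < (57143 / 10000) * Gam (1 / 5) (7 / 40) := by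
    refine QP_G2 (7 / 40) (57143 / 10000) ?_ ?_ <;> norm_num
  refine QP_step2 A (77 / 120) (78 / 120) (7 / 40) (57143 / 10000) (1613 / 125000) (22727 / 1000000) ?_ ?_ ?_ ?_ ?_ ?_ hG ?_ ?_ ?_ <;>
    norm_num [Finset.sum_range_succ, Nat.factorial]

private theorem p78 (A : ℕ) : QP A f2 (78 / 120) (79 / 120) (22321 / 1000000) := by
  have hG : (1 : ℝ) < (58537 / 10000) * Gam (1 / 5) (41 / 240) := by
    refine QP_G2 (41 / 240) (58537 / 10000) ?_ ?_ <;> norm_num
  refine QP_step2 A (78 / 120) (79 / 120) (41 / 240) (58537 / 10000) (637 / 50000) (22321 / 1000000) ?_ ?_ ?_ ?_ ?_ ?_ hG ?_ ?_ ?_ <;>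
    norm_num [Finset.sum_range_succ, Nat.factorial]

private theorem p79 (A : ℕ) : QP A f2 (79 / 120) (80 / 120) (21913 / 1000000) := by
  have hG : (1 : ℝ) < (60001 / 10000) * Gam (1 / 5) (1 / 6) := by
    refine QP_G2 (1 / 6) (60001 / 10000) ?_ ?_ <;> norm_num
  refine QP_step2 A (79 / 120) (80 / 120) (1 / 6) (60001 / 10000) (12579 / 1000000) (21913 / 1000000) ?_ ?_ ?_ ?_ ?_ ?_ hG ?_ ?_ ?_ <;>
    norm_num [Finset.sum_range_succ, Nat.factorial]

private theorem p80 (A : ℕ) : QP A f2 (80 / 120) (81 / 120) (4303 / 200000) := by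
  have hG : (1 : ℝ) < (61539 / 10000) * Gam (1 / 5) (13 / 80) := by
    refine QP_G2 (13 / 80) (61539 / 10000) ?_ ?_ <;> norm_num
  refine QP_step2 A (80 / 120) (81 / 120) (13 / 80) (61539 / 10000) (12423 / 1000000) (4303 / 200000) ?_ ?_ ?_ ?_ ?_ ?_ hG ?_ ?_ ?_ <;>
    norm_num [Finset.sum_range_succ, Nat.factorial]

private theorem p81 (A : ℕ) : QP A f2 (81 / 120) (82 / 120) (21121 / 1000000) := by
  have hG : (1 : ℝ) < (31579 / 5000) * Gam (1 / 5) (19 / 120) := by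
    refine QP_G2 (19 / 120) (31579 / 5000) ?_ ?_ <;> norm_num
  refine QP_step2 A (81 / 120) (82 / 120) (19 / 120) (31579 / 5000) (12271 / 1000000) (21121 / 1000000) ?_ ?_ ?_ ?_ ?_ ?_ hG ?_ ?_ ?_ <;>
    norm_num [Finset.sum_range_succ, Nat.factorial]

private theorem p82 (A : ℕ) : QP A f2 (82 / 120) (83 / 120) (829 / 40000) := by
  have hG : (1 : ℝ) < (12973 / 2000) * Gam (1 / 5) (37 / 240) := by
    refine QP_G2 (37 / 240) (12973 / 2000) ?_ ?_ <;> norm_num
  refine QP_step2 A (82 / 120) (83 / 120) (37 / 240) (12973 / 2000) (6061 / 500000) (829 / 40000) ?_ ?_ ?_ ?_ ?_ ?_ hG ?_ ?_ ?_ <;>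
    norm_num [Finset.sum_range_succ, Nat.factorial]

private theorem p83 (A : ℕ) : QP A f2 (83 / 120) (84 / 120) (20333 / 1000000) := by
  have hG : (1 : ℝ) < (66667 / 10000) * Gam (1 / 5) (3 / 20) := by
    refine QP_G2 (3 / 20) (66667 / 10000) ?_ ?_ <;> norm_num
  refine QP_step2 A (83 / 120) (84 / 120) (3 / 20) (66667 / 10000) (11977 / 1000000) (20333 / 1000000) ?_ ?_ ?_ ?_ ?_ ?_ hG ?_ ?_ ?_ <;>
    norm_num [Finset.sum_range_succ, Nat.factorial]

private theorem p84 (A : ℕ) : QP A f2 (84 / 120) (85 / 120) (997 / 50000) := by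
  have hG : (1 : ℝ) < (17143 / 2500) * Gam (1 / 5) (7 / 48) := by
    refine QP_G2 (7 / 48) (17143 / 2500) ?_ ?_ <;> norm_num
  refine QP_step2 A (84 / 120) (85 / 120) (7 / 48) (17143 / 2500) (2367 / 200000) (997 / 50000) ?_ ?_ ?_ ?_ ?_ ?_ hG ?_ ?_ ?_ <;>
    norm_num [Finset.sum_range_succ, Nat.factorial]

private theorem p85 (A : ℕ) : QP A f2 (85 / 120) (86 / 120) (19553 / 1000000) := by
  have hG : (1 : ℝ) < (70589 / 10000) * Gam (1 / 5) (17 / 120) := by
    refine QP_G2 (17 / 120) (70589 / 10000) ?_ ?_ <;> norm_num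
  refine QP_step2 A (85 / 120) (86 / 120) (17 / 120) (70589 / 10000) (11697 / 1000000) (19553 / 1000000) ?_ ?_ ?_ ?_ ?_ ?_ hG ?_ ?_ ?_ <;>
    norm_num [Finset.sum_range_succ, Nat.factorial]

private theorem p86 (A : ℕ) : QP A f2 (86 / 120) (87 / 120) (4789 / 250000) := by
  have hG : (1 : ℝ) < (9091 / 1250) * Gam (1 / 5) (11 / 80) := by
    refine QP_G2 (11 / 80) (9091 / 1250) ?_ ?_ <;> norm_num
  refine QP_step2 A (86 / 120) (87 / 120) (11 / 80) (9091 / 1250) (11561 / 1000000) (4789 / 250000) ?_ ?_ ?_ ?_ ?_ ?_ hG ?_ ?_ ?_ <;>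
    norm_num [Finset.sum_range_succ, Nat.factorial]

private theorem p87 (A : ℕ) : QP A f2 (87 / 120) (88 / 120) (4691 / 250000) := by
  have hG : (1 : ℝ) < (75001 / 10000) * Gam (1 / 5) (2 / 15) := by
    refine QP_G2 (2 / 15) (75001 / 10000) ?_ ?_ <;> norm_num
  refine QP_step2 A (87 / 120) (88 / 120) (2 / 15) (75001 / 10000) (11429 / 1000000) (4691 / 250000) ?_ ?_ ?_ ?_ ?_ ?_ hG ?_ ?_ ?_ <;>
    norm_num [Finset.sum_range_succ, Nat.factorial]

private theorem p88 (A : ℕ) : QP A f2 (88 / 120) (89 / 120) (1837 / 100000) := by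
  have hG : (1 : ℝ) < (3871 / 500) * Gam (1 / 5) (31 / 240) := by
    refine QP_G2 (31 / 240) (3871 / 500) ?_ ?_ <;> norm_num
  refine QP_step2 A (88 / 120) (89 / 120) (31 / 240) (3871 / 500) (113 / 10000) (1837 / 100000) ?_ ?_ ?_ ?_ ?_ ?_ hG ?_ ?_ ?_ <;>
    norm_num [Finset.sum_range_succ, Nat.factorial]

private theorem p89 (A : ℕ) : QP A f2 (89 / 120) (90 / 120) (8987 / 500000) := by
  have hG : (1 : ℝ) < (80001 / 10000) * Gam (1 / 5) (1 / 8) := by
    refine QP_G2 (1 / 8) (80001 / 10000) ?_ ?_ <;> norm_num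
  refine QP_step2 A (89 / 120) (90 / 120) (1 / 8) (80001 / 10000) (5587 / 500000) (8987 / 500000) ?_ ?_ ?_ ?_ ?_ ?_ hG ?_ ?_ ?_ <;>
    norm_num [Finset.sum_range_succ, Nat.factorial]

private theorem p90 (A : ℕ) : QP A f2 (90 / 120) (91 / 120) (17567 / 1000000) := by
  have hG : (1 : ℝ) < (82759 / 10000) * Gam (1 / 5) (29 / 240) := by
    refine QP_G2 (29 / 240) (82759 / 10000) ?_ ?_ <;> norm_num
  refine QP_step2 A (90 / 120) (91 / 120) (29 / 240) (82759 / 10000) (221 / 20000) (17567 / 1000000) ?_ ?_ ?_ ?_ ?_ ?_ hG ?_ ?_ ?_ <;>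
    norm_num [Finset.sum_range_succ, Nat.factorial]

private theorem p91 (A : ℕ) : QP A f2 (91 / 120) (92 / 120) (8583 / 500000) := by
  have hG : (1 : ℝ) < (17143 / 2000) * Gam (1 / 5) (7 / 60) := by
    refine QP_G2 (7 / 60) (17143 / 2000) ?_ ?_ <;> norm_num
  refine QP_step2 A (91 / 120) (92 / 120) (7 / 60) (17143 / 2000) (1093 / 100000) (8583 / 500000) ?_ ?_ ?_ ?_ ?_ ?_ hG ?_ ?_ ?_ <;>
    norm_num [Finset.sum_range_succ, Nat.factorial]

private theorem p92 (A : ℕ) : QP A f2 (92 / 120) (93 / 120) (16743 / 1000000) := by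
  have hG : (1 : ℝ) < (88889 / 10000) * Gam (1 / 5) (9 / 80) := by
    refine QP_G2 (9 / 80) (88889 / 10000) ?_ ?_ <;> norm_num
  refine QP_step2 A (92 / 120) (93 / 120) (9 / 80) (88889 / 10000) (10811 / 1000000) (16743 / 1000000) ?_ ?_ ?_ ?_ ?_ ?_ hG ?_ ?_ ?_ <;>
    norm_num [Finset.sum_range_succ, Nat.factorial]

private theorem p93 (A : ℕ) : QP A f2 (93 / 120) (94 / 120) (653 / 40000) := by
  have hG : (1 : ℝ) < (23077 / 2500) * Gam (1 / 5) (13 / 120) := by
    refine QP_G2 (13 / 120) (23077 / 2500) ?_ ?_ <;> norm_num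
  refine QP_step2 A (93 / 120) (94 / 120) (13 / 120) (23077 / 2500) (1337 / 125000) (653 / 40000) ?_ ?_ ?_ ?_ ?_ ?_ hG ?_ ?_ ?_ <;>
    norm_num [Finset.sum_range_succ, Nat.factorial]

private theorem p94 (A : ℕ) : QP A f2 (94 / 120) (95 / 120) (15893 / 1000000) := by
  have hG : (1 : ℝ) < (96001 / 10000) * Gam (1 / 5) (5 / 48) := by
    refine QP_G2 (5 / 48) (96001 / 10000) ?_ ?_ <;> norm_num
  refine QP_step2 A (94 / 120) (95 / 120) (5 / 48) (96001 / 10000) (10583 / 1000000) (15893 / 1000000) ?_ ?_ ?_ ?_ ?_ ?_ hG ?_ ?_ ?_ <;>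
    norm_num [Finset.sum_range_succ, Nat.factorial]

private theorem p95 (A : ℕ) : QP A f2 (95 / 120) (96 / 120) (3089 / 200000) := by
  have hG : (1 : ℝ) < (100001 / 10000) * Gam (1 / 5) (1 / 10) := by
    refine QP_G2 (1 / 10) (100001 / 10000) ?_ ?_ <;> norm_num
  refine QP_step2 A (95 / 120) (96 / 120) (1 / 10) (100001 / 10000) (1309 / 125000) (3089 / 200000) ?_ ?_ ?_ ?_ ?_ ?_ hG ?_ ?_ ?_ <;>
    norm_num [Finset.sum_range_succ, Nat.factorial]

private theorem p96 (A : ℕ) : QP A f2 (96 / 120) (97 / 120) (7489 / 500000) := by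
  have hG : (1 : ℝ) < (26087 / 2500) * Gam (1 / 5) (23 / 240) := by
    refine QP_G2 (23 / 240) (26087 / 2500) ?_ ?_ <;> norm_num
  refine QP_step2 A (96 / 120) (97 / 120) (23 / 240) (26087 / 2500) (10363 / 1000000) (7489 / 500000) ?_ ?_ ?_ ?_ ?_ ?_ hG ?_ ?_ ?_ <;>
    norm_num [Finset.sum_range_succ, Nat.factorial]

private theorem p97 (A : ℕ) : QP A f2 (97 / 120) (98 / 120) (14503 / 1000000) := by
  have hG : (1 : ℝ) < (27273 / 2500) * Gam (1 / 5) (11 / 120) := by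
    refine QP_G2 (11 / 120) (27273 / 2500) ?_ ?_ <;> norm_num
  refine QP_step2 A (97 / 120) (98 / 120) (11 / 120) (27273 / 2500) (10257 / 1000000) (14503 / 1000000) ?_ ?_ ?_ ?_ ?_ ?_ hG ?_ ?_ ?_ <;>
    norm_num [Finset.sum_range_succ, Nat.factorial]

private theorem p98 (A : ℕ) : QP A f2 (98 / 120) (99 / 120) (3501 / 250000) := by
  have hG : (1 : ℝ) < (57143 / 5000) * Gam (1 / 5) (7 / 80) := by
    refine QP_G2 (7 / 80) (57143 / 5000) ?_ ?_ <;> norm_num
  refine QP_step2 A (98 / 120) (99 / 120) (7 / 80) (57143 / 5000) (10153 / 1000000) (3501 / 250000) ?_ ?_ ?_ ?_ ?_ ?_ hG ?_ ?_ ?_ <;>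
    norm_num [Finset.sum_range_succ, Nat.factorial]

private theorem p99 (A : ℕ) : QP A f2 (99 / 120) (100 / 120) (337 / 25000) := by
  have hG : (1 : ℝ) < (120001 / 10000) * Gam (1 / 5) (1 / 12) := by
    refine QP_G2 (1 / 12) (120001 / 10000) ?_ ?_ <;> norm_num
  refine QP_step2 A (99 / 120) (100 / 120) (1 / 12) (120001 / 10000) (10051 / 1000000) (337 / 25000) ?_ ?_ ?_ ?_ ?_ ?_ hG ?_ ?_ ?_ <;>
    norm_num [Finset.sum_range_succ, Nat.factorial]

private theorem p100 (A : ℕ) : QP A f2 (100 / 120) (101 / 120) (517 / 40000) := by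
  have hG : (1 : ℝ) < (31579 / 2500) * Gam (1 / 5) (19 / 240) := by
    refine QP_G2 (19 / 240) (31579 / 2500) ?_ ?_ <;> norm_num
  refine QP_step2 A (100 / 120) (101 / 120) (19 / 240) (31579 / 2500) (9951 / 1000000) (517 / 40000) ?_ ?_ ?_ ?_ ?_ ?_ hG ?_ ?_ ?_ <;>
    norm_num [Finset.sum_range_succ, Nat.factorial]

private theorem p101 (A : ℕ) : QP A f2 (101 / 120) (102 / 120) (771 / 62500) := by
  have hG : (1 : ℝ) < (66667 / 5000) * Gam (1 / 5) (3 / 40) := by
    refine QP_G2 (3 / 40) (66667 / 5000) ?_ ?_ <;> norm_num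
  refine QP_step2 A (101 / 120) (102 / 120) (3 / 40) (66667 / 5000) (9853 / 1000000) (771 / 62500) ?_ ?_ ?_ ?_ ?_ ?_ hG ?_ ?_ ?_ <;>
    norm_num [Finset.sum_range_succ, Nat.factorial]

private theorem p102 (A : ℕ) : QP A f2 (102 / 120) (103 / 120) (5853 / 500000) := by
  have hG : (1 : ℝ) < (141177 / 10000) * Gam (1 / 5) (17 / 240) := by
    refine QP_G2 (17 / 240) (141177 / 10000) ?_ ?_ <;> norm_num
  refine QP_step2 A (102 / 120) (103 / 120) (17 / 240) (141177 / 10000) (9757 / 1000000) (5853 / 500000) ?_ ?_ ?_ ?_ ?_ ?_ hG ?_ ?_ ?_ <;>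
    norm_num [Finset.sum_range_succ, Nat.factorial]

private theorem p103 (A : ℕ) : QP A f2 (103 / 120) (104 / 120) (2753 / 250000) := by
  have hG : (1 : ℝ) < (150001 / 10000) * Gam (1 / 5) (1 / 15) := by
    refine QP_G2 (1 / 15) (150001 / 10000) ?_ ?_ <;> norm_num
  refine QP_step2 A (103 / 120) (104 / 120) (1 / 15) (150001 / 10000) (4831 / 500000) (2753 / 250000) ?_ ?_ ?_ ?_ ?_ ?_ hG ?_ ?_ ?_ <;>
    norm_num [Finset.sum_range_succ, Nat.factorial]

private theorem p104 (A : ℕ) : QP A f2 (104 / 120) (105 / 120) (10273 / 1000000) := by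
  have hG : (1 : ℝ) < (160001 / 10000) * Gam (1 / 5) (1 / 16) := by
    refine QP_G2 (1 / 16) (160001 / 10000) ?_ ?_ <;> norm_num
  refine QP_step2 A (104 / 120) (105 / 120) (1 / 16) (160001 / 10000) (957 / 100000) (10273 / 1000000) ?_ ?_ ?_ ?_ ?_ ?_ hG ?_ ?_ ?_ <;>
    norm_num [Finset.sum_range_succ, Nat.factorial]

private theorem p105 (A : ℕ) : QP A f2 (105 / 120) (106 / 120) (4723 / 500000) := by
  have hG : (1 : ℝ) < (171429 / 10000) * Gam (1 / 5) (7 / 120) := by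
    refine QP_G2 (7 / 120) (171429 / 10000) ?_ ?_ <;> norm_num
  refine QP_step2 A (105 / 120) (106 / 120) (7 / 120) (171429 / 10000) (9479 / 1000000) (4723 / 500000) ?_ ?_ ?_ ?_ ?_ ?_ hG ?_ ?_ ?_ <;>
    norm_num [Finset.sum_range_succ, Nat.factorial]

private theorem p106 (A : ℕ) : QP A f2 (106 / 120) (107 / 120) (8529 / 1000000) := by
  have hG : (1 : ℝ) < (23077 / 1250) * Gam (1 / 5) (13 / 240) := by
    refine QP_G2 (13 / 240) (23077 / 1250) ?_ ?_ <;> norm_num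
  refine QP_step2 A (106 / 120) (107 / 120) (13 / 240) (23077 / 1250) (939 / 100000) (8529 / 1000000) ?_ ?_ ?_ ?_ ?_ ?_ hG ?_ ?_ ?_ <;>
    norm_num [Finset.sum_range_succ, Nat.factorial]

private theorem p107 (A : ℕ) : QP A f2 (107 / 120) (108 / 120) (7499 / 1000000) := by
  have hG : (1 : ℝ) < (200001 / 10000) * Gam (1 / 5) (1 / 20) := by
    refine QP_G2 (1 / 20) (200001 / 10000) ?_ ?_ <;> norm_num
  refine QP_step2 A (107 / 120) (108 / 120) (1 / 20) (200001 / 10000) (9303 / 1000000) (7499 / 1000000) ?_ ?_ ?_ ?_ ?_ ?_ hG ?_ ?_ ?_ <;>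
    norm_num [Finset.sum_range_succ, Nat.factorial]

private theorem p108 (A : ℕ) : QP A f2 (108 / 120) (109 / 120) (197 / 31250) := by
  have hG : (1 : ℝ) < (218183 / 10000) * Gam (1 / 5) (11 / 240) := by
    refine QP_G2 (11 / 240) (218183 / 10000) ?_ ?_ <;> norm_num
  refine QP_step2 A (108 / 120) (109 / 120) (11 / 240) (218183 / 10000) (9217 / 1000000) (197 / 31250) ?_ ?_ ?_ ?_ ?_ ?_ hG ?_ ?_ ?_ <;>
    norm_num [Finset.sum_range_succ, Nat.factorial]

private theorem p109 (A : ℕ) : QP A f2 (109 / 120) (110 / 120) (4917 / 1000000) := by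
  have hG : (1 : ℝ) < (240001 / 10000) * Gam (1 / 5) (1 / 24) := by
    refine QP_G2 (1 / 24) (240001 / 10000) ?_ ?_ <;> norm_num
  refine QP_step2 A (109 / 120) (110 / 120) (1 / 24) (240001 / 10000) (9133 / 1000000) (4917 / 1000000) ?_ ?_ ?_ ?_ ?_ ?_ hG ?_ ?_ ?_ <;>
    norm_num [Finset.sum_range_succ, Nat.factorial]

private theorem p110 (A : ℕ) : QP A f2 (110 / 120) (111 / 120) (3249 / 1000000) := by
  have hG : (1 : ℝ) < (266667 / 10000) * Gam (1 / 5) (3 / 80) := by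
    refine QP_G2 (3 / 80) (266667 / 10000) ?_ ?_ <;> norm_num
  refine QP_step2 A (110 / 120) (111 / 120) (3 / 80) (266667 / 10000) (181 / 20000) (3249 / 1000000) ?_ ?_ ?_ ?_ ?_ ?_ hG ?_ ?_ ?_ <;>
    norm_num [Finset.sum_range_succ, Nat.factorial]

private theorem p111 (A : ℕ) : QP A f2 (111 / 120) (112 / 120) (1223 / 1000000) := by
  have hG : (1 : ℝ) < (300001 / 10000) * Gam (1 / 5) (1 / 30) := by
    refine QP_G2 (1 / 30) (300001 / 10000) ?_ ?_ <;> norm_num
  refine QP_step2 A (111 / 120) (112 / 120) (1 / 30) (300001 / 10000) (8969 / 1000000) (1223 / 1000000) ?_ ?_ ?_ ?_ ?_ ?_ hG ?_ ?_ ?_ <;>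
    norm_num [Finset.sum_range_succ, Nat.factorial]

theorem reg2b (A : ℕ) : QP A f2 (17 / 30) (14 / 15) (93 / 125) := by
  have g69 := p68 A
  have g70 := QP_glue (by norm_num) (by norm_num) g69 (p69 A)
  have g71 := QP_glue (by norm_num) (by norm_num) g70 (p70 A)
  have g72 := QP_glue (by norm_num) (by norm_num) g71 (p71 A)
  have g73 := QP_glue (by norm_num) (by norm_num) g72 (p72 A)
  have g74 := QP_glue (by norm_num) (by norm_num) g73 (p73 A)
  have g75 := QP_glue (by norm_num) (by norm_num) g74 (p74 A)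
  have g76 := QP_glue (by norm_num) (by norm_num) g75 (p75 A)
  have g77 := QP_glue (by norm_num) (by norm_num) g76 (p76 A)
  have g78 := QP_glue (by norm_num) (by norm_num) g77 (p77 A)
  have g79 := QP_glue (by norm_num) (by norm_num) g78 (p78 A)
  have g80 := QP_glue (by norm_num) (by norm_num) g79 (p79 A)
  have g81 := QP_glue (by norm_num) (by norm_num) g80 (p80 A)
  have g82 := QP_glue (by norm_num) (by norm_num) g81 (p81 A)
  have g83 := QP_glue (by norm_num) (by norm_num) g82 (p82 A)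
  have g84 := QP_glue (by norm_num) (by norm_num) g83 (p83 A)
  have g85 := QP_glue (by norm_num) (by norm_num) g84 (p84 A)
  have g86 := QP_glue (by norm_num) (by norm_num) g85 (p85 A)
  have g87 := QP_glue (by norm_num) (by norm_num) g86 (p86 A)
  have g88 := QP_glue (by norm_num) (by norm_num) g87 (p87 A)
  have g89 := QP_glue (by norm_num) (by norm_num) g88 (p88 A)
  have g90 := QP_glue (by norm_num) (by norm_num) g89 (p89 A)
  have g91 := QP_glue (by norm_num) (by norm_num) g90 (p90 A)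
  have g92 := QP_glue (by norm_num) (by norm_num) g91 (p91 A)
  have g93 := QP_glue (by norm_num) (by norm_num) g92 (p92 A)
  have g94 := QP_glue (by norm_num) (by norm_num) g93 (p93 A)
  have g95 := QP_glue (by norm_num) (by norm_num) g94 (p94 A)
  have g96 := QP_glue (by norm_num) (by norm_num) g95 (p95 A)
  have g97 := QP_glue (by norm_num) (by norm_num) g96 (p96 A)
  have g98 := QP_glue (by norm_num) (by norm_num) g97 (p97 A)
  have g99 := QP_glue (by norm_num) (by norm_num) g98 (p98 A)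
  have g100 := QP_glue (by norm_num) (by norm_num) g99 (p99 A)
  have g101 := QP_glue (by norm_num) (by norm_num) g100 (p100 A)
  have g102 := QP_glue (by norm_num) (by norm_num) g101 (p101 A)
  have g103 := QP_glue (by norm_num) (by norm_num) g102 (p102 A)
  have g104 := QP_glue (by norm_num) (by norm_num) g103 (p103 A)
  have g105 := QP_glue (by norm_num) (by norm_num) g104 (p104 A)
  have g106 := QP_glue (by norm_num) (by norm_num) g105 (p105 A)
  have g107 := QP_glue (by norm_num) (by norm_num) g106 (p106 A)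
  have g108 := QP_glue (by norm_num) (by norm_num) g107 (p107 A)
  have g109 := QP_glue (by norm_num) (by norm_num) g108 (p108 A)
  have g110 := QP_glue (by norm_num) (by norm_num) g109 (p109 A)
  have g111 := QP_glue (by norm_num) (by norm_num) g110 (p110 A)
  have g112 := QP_glue (by norm_num) (by norm_num) g111 (p111 A)
  have e1 : (17 / 30 : ℝ) = 68 / 120 := by norm_num
  have e2 : (14 / 15 : ℝ) = 112 / 120 := by norm_num
  rw [e1, e2]
  refine QP_mono g112 ?_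
  norm_num

end Pool.Agent.Lib.MP_42948a_nt.TS
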