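import Pool.Agent.Lib.MP_42948a_nt.TS.SvDefs
import Pool.Agent.Lib.MP_42948a_nt.SV.B5
import Pool.Agent.Lib.MP_42948a_nt.SV.B6
import Pool.Agent.Lib.MP_42948a_nt.SV.B7
import Pool.Agent.Lib.MP_42948a_nt.SV.B9b

/-!
# The small primes

`w = p`, `ξ = Xy x p`, `ε = η/log p`, `η = 11/5`. `lt_Xy`: `log(ξ+1) ≥ (log x - log p)/2`. `rankin` and `rsum_sharp`: with `s = 3 log x/(25 log p) ≥ 1`,
`1 - Vd Gs ≤ exp(-(55/6) s + 11/10 + 91/20) ≤ exp(-3516/1000) s^(-9) ≤ 298/10000 s^(-9)`.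
-/

namespace Pool.Agent.Lib.MP_42948a_nt.TS

open Finset Pool.Agent.Lib.MP_42948a_nt.OA Pool.Agent.Lib.MP_42948a_nt.OM Pool.Agent.Lib.MP_42948a_nt.SV

private theorem SvS_aux {V G T : ℝ} (hV : 0 < V) (hT : T < 1) (h : 1 ≤ V * G + T) :
    1 / G - V ≤ V * T / (1 - T) := by
  have h1 : 0 < 1 - T := by linarith
  have h2 : 0 < V * G := by linarith
  have hG : 0 < G := by
    by_contra h3
    have h4 : V * G ≤ 0 := mul_nonpos_of_nonneg_of_nonpos hV.le (not_lt.mp h3)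
    linarith
  have h3 : 1 / G ≤ V / (1 - T) := by
    rw [div_le_div_iff₀ hG h1]
    linarith
  have h4 : V / (1 - T) - V = V * T / (1 - T) := by
    field_simp
    ring
  linarith

private theorem SvS_log {x : ℝ} (hx : 0 < x) {p : ℕ} (hp : 1 ≤ p) :
    (Real.log x - Real.log p) / 2 ≤ Real.log ((Xy x p : ℝ) + 1) := by
  have h1 := lt_Xy (x := x) hp
  have hp0 : (0 : ℝ) < p := by exact_mod_cast hp
  have h2 : (0 : ℝ) < (Xy x p : ℝ) + 1 := by positivity
  have h3 := Real.log_le_log hx h1.le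
  rw [Real.log_mul hp0.ne' (by positivity), Real.log_pow] at h3
  push_cast at h3
  linarith

private theorem SvS_exp : Real.exp (-(3516 / 1000) : ℝ) ≤ 298 / 10000 := by
  rw [Real.exp_neg, inv_le_comm₀ (Real.exp_pos _) (by norm_num)]
  have h1 : Real.exp (3516 / 1000 : ℝ) = Real.exp 1 ^ 3 * Real.exp (516 / 1000 : ℝ) := by
    rw [← Real.exp_nat_mul, ← Real.exp_add]
    norm_num
  rw [h1]
  have h2 : (2718 / 1000 : ℝ) ≤ Real.exp 1 := by
    have := Real.exp_one_gt_d9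
    linarith
  have h3 : (1672 / 1000 : ℝ) ≤ Real.exp (516 / 1000 : ℝ) := by
    refine le_trans ?_ (Real.sum_le_exp_of_nonneg (show (0 : ℝ) ≤ 516 / 1000 by norm_num) 5)
    norm_num [Finset.sum_range_succ, Nat.factorial]
  have h4 : (2718 / 1000 : ℝ) ^ 3 ≤ Real.exp 1 ^ 3 := pow_le_pow_left₀ (by norm_num) h2 3
  calc ((298 / 10000 : ℝ))⁻¹ ≤ (2718 / 1000 : ℝ) ^ 3 * (1672 / 1000) := by
        norm_num
    _ ≤ Real.exp 1 ^ 3 * Real.exp (516 / 1000 : ℝ) := mul_le_mul h4 h3 (by norm_num) (by positivity)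

theorem main_term : ∃ w1 : ℕ, 3 ≤ w1 ∧ ∃ x0 : ℝ, 2 ≤ x0 ∧ ∀ x : ℝ, x0 ≤ x → ∀ d : ℕ, 1 ≤ d → ∀ p : ℕ, p.Prime → w1 ≤ p →
    (p : ℝ) ≤ x ^ (3 / 25 : ℝ) →
      1 / Gs d p (Xy x p) - Vd d p ≤
        31 / 1000 * (25 * Real.log p / (3 * Real.log x)) ^ 9 * ((d : ℝ) / d.totient / Real.log p) := by
  obtain ⟨w0, hw0, hS⟩ := rsum_sharp
  refine ⟨max w0 1001, by omega, 2, le_refl 2, ?_⟩
  intro x hx d hd p hp hwp hpx
  have hx0 : 0 < x := by linarith
  have hL : 0 < Real.log x := Real.log_pos (by linarith)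
  have hp1001 : 1001 ≤ p := (le_max_right _ _).trans hwp
  have hpR : (1001 : ℝ) ≤ p := by exact_mod_cast hp1001
  have hp0 : (0 : ℝ) < p := by linarith
  have hl1 : 1 ≤ Real.log p := by
    rw [Real.le_log_iff_exp_le hp0]
    have := Real.exp_one_lt_d9
    linarith
  have hl : 0 < Real.log p := by linarith
  have hlL : Real.log p ≤ 3 / 25 * Real.log x := by
    have h5 := Real.log_le_log hp0 hpx
    rwa [Real.log_rpow hx0] at h5
  have hlog := SvS_log hx0 (p := p) hp.one_lt.le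
  have hr := rankin d p (Xy x p) ((11 / 5 : ℝ) / Real.log p) (by positivity)
  have hs := hS p ((le_max_left _ _).trans hwp) d
  set L := Real.log x with hLdef
  set l := Real.log p with hldef
  set s := 3 * L / (25 * l) with hsdef
  have hs1 : 1 ≤ s := by
    rw [hsdef, le_div_iff₀ (by positivity)]
    linarith
  have hs0 : 0 < s := by linarith
  have hexp : -((11 / 5 : ℝ) / l * Real.log ((Xy x p : ℝ) + 1)) +
      ∑ q ∈ Pw d p, ((q : ℝ) ^ ((11 / 5 : ℝ) / l) - 1) / q ≤ -(3516 / 1000) - 9 * Real.log s := by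
    have h1 : (11 / 5 : ℝ) / l * ((L - l) / 2) ≤
        (11 / 5 : ℝ) / l * Real.log ((Xy x p : ℝ) + 1) :=
      mul_le_mul_of_nonneg_left hlog (by positivity)
    have h2 : (11 / 5 : ℝ) / l * ((L - l) / 2) = 55 / 6 * s - 11 / 10 := by
      rw [hsdef]
      field_simp
      ring
    have h3 : Real.log s ≤ s - 1 := Real.log_le_sub_one_of_pos hs0
    rw [h2] at h1
    linarith
  have hT : Real.exp (-((11 / 5 : ℝ) / l * Real.log ((Xy x p : ℝ) + 1)) +
      ∑ q ∈ Pw d p, ((q : ℝ) ^ ((11 / 5 : ℝ) / l) - 1) / q) ≤ 298 / 10000 * (25 * l / (3 * L)) ^ 9 := by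
    refine (Real.exp_le_exp.mpr hexp).trans ?_
    rw [sub_eq_add_neg, Real.exp_add]
    have h1 : Real.exp (-(9 * Real.log s)) = (25 * l / (3 * L)) ^ 9 := by
      have h2 : 9 * Real.log s = Real.log (s ^ 9) := by
        rw [Real.log_pow]
        norm_num
      rw [h2, Real.exp_neg, Real.exp_log (by positivity), hsdef, ← inv_pow, inv_div]
    rw [h1]
    exact mul_le_mul_of_nonneg_right SvS_exp (by positivity)
  set T := 298 / 10000 * (25 * l / (3 * L)) ^ 9 with hTdef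
  have ht1 : 25 * l / (3 * L) ≤ 1 := by
    rw [div_le_one (by positivity)]
    linarith
  have ht9 : (25 * l / (3 * L)) ^ 9 ≤ 1 := pow_le_one₀ (by positivity) ht1
  have hT3 : T ≤ 298 / 10000 := by
    rw [hTdef]
    linarith
  have hT0 : 0 ≤ T := by positivity
  have hVG : 1 ≤ Vd d p * Gs d p (Xy x p) + T := hr.trans (by linarith)
  have h1 := SvS_aux (Vd_pos d p) (show T < 1 by linarith) hVG
  refine h1.trans ?_
  have hV := Vd_upper hd p (by omega)
  have hlp : 999 / 1000 * l ≤ Real.log ((p : ℝ) - 1) := by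
    have h2 : Real.log p - Real.log ((p : ℝ) - 1) ≤ 1 / 1000 := by
      have h3 : (0 : ℝ) < (p : ℝ) - 1 := by linarith
      rw [← Real.log_div hp0.ne' h3.ne']
      have h4 := Real.log_le_sub_one_of_pos (show 0 < (p : ℝ) / ((p : ℝ) - 1) by positivity)
      have h5 : (p : ℝ) / ((p : ℝ) - 1) - 1 = 1 / ((p : ℝ) - 1) := by
        field_simp
        ring
      rw [h5] at h4
      refine h4.trans ?_
      exact one_div_le_one_div_of_le (by norm_num) (by linarith)
    linarith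
  have hdt : (0 : ℝ) < (d : ℝ) / d.totient := lt_of_lt_of_le one_pos (one_le_rd hd)
  have hV2 : Vd d p ≤ (d : ℝ) / d.totient / l * (1000 / 999) := by
    refine hV.trans ?_
    rw [div_mul_eq_mul_div, div_le_div_iff₀ (by linarith) hl]
    have h6 : (d : ℝ) / d.totient * (1000 / 999) * (999 / 1000 * l) ≤
        (d : ℝ) / d.totient * (1000 / 999) * Real.log ((p : ℝ) - 1) :=
      mul_le_mul_of_nonneg_left hlp (by positivity)
    calc (d : ℝ) / d.totient * l = (d : ℝ) / d.totient * (1000 / 999) * (999 / 1000 * l) := by ring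
      _ ≤ _ := h6
  have h7 : Vd d p * T / (1 - T) ≤ ((d : ℝ) / d.totient / l * (1000 / 999)) * T / (9702 / 10000) := by
    apply div_le_div₀
    · positivity
    · exact mul_le_mul_of_nonneg_right hV2 hT0
    · norm_num
    · linarith
  refine h7.trans ?_
  have h8 : ((d : ℝ) / d.totient / l * (1000 / 999)) * T / (9702 / 10000) =
      (1000 / 999 * (298 / 10000) / (9702 / 10000)) * ((25 * l / (3 * L)) ^ 9 * ((d : ℝ) / d.totient / l)) := by
    rw [hTdef]
    ring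
  rw [h8, mul_assoc (31 / 1000 : ℝ)]
  refine mul_le_mul_of_nonneg_right (by norm_num) ?_
  positivity

theorem small_term (w1 : ℕ) (hw : 3 ≤ w1) (δ : ℝ) (hδ : 0 < δ) : ∃ x0 : ℝ, 2 ≤ x0 ∧ ∀ x : ℝ, x0 ≤ x → ∀ d : ℕ, 1 ≤ d →
    ∀ p : ℕ, p.Prime → p < w1 → 1 / Gs d p (Xy x p) - Vd d p ≤ δ / Real.log x := by
  obtain ⟨C, hC0, hC⟩ := rsum_crude
  have hw1R : (3 : ℝ) ≤ w1 := by exact_mod_cast hw
  have hlw : 0 < Real.log w1 := Real.log_pos (by linarith)
  set κ := 11 / 10 / Real.log w1 with hκ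
  have hκ0 : 0 < κ := by positivity
  set A := Real.exp (C + 11 / 10) with hA
  have hA0 : 0 < A := Real.exp_pos _
  set L0 := max 1 (max (4 * A / (κ ^ 2 * δ)) (4 * A / κ ^ 2)) with hL0
  refine ⟨max 2 (Real.exp L0), le_max_left _ _, ?_⟩
  intro x hx d hd p hp hpw
  have hx2 : 2 ≤ x := (le_max_left _ _).trans hx
  have hx0 : 0 < x := by linarith
  have hLx : L0 ≤ Real.log x := by
    rw [Real.le_log_iff_exp_le hx0]
    exact (le_max_right _ _).trans hx
  have hL1 : 1 ≤ Real.log x := (le_max_left _ _).trans hLx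
  have hL2 : 4 * A / (κ ^ 2 * δ) ≤ Real.log x :=
    ((le_max_left _ _).trans (le_max_right _ _)).trans hLx
  have hL3 : 4 * A / κ ^ 2 ≤ Real.log x :=
    ((le_max_right _ _).trans (le_max_right _ _)).trans hLx
  have hp2 : (2 : ℝ) ≤ p := by exact_mod_cast hp.two_le
  have hp0 : (0 : ℝ) < p := by linarith
  have hl : 0 < Real.log p := Real.log_pos (by linarith)
  have hlw2 : Real.log p ≤ Real.log w1 := Real.log_le_log hp0 (by exact_mod_cast hpw.le)
  have hlog := SvS_log hx0 (p := p) hp.one_lt.le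
  have hr := rankin d p (Xy x p) ((11 / 5 : ℝ) / Real.log p) (by positivity)
  have hs := hC p hp.two_le d
  set L := Real.log x with hLdef
  set l := Real.log p with hldef
  have hexp : -((11 / 5 : ℝ) / l * Real.log ((Xy x p : ℝ) + 1)) +
      ∑ q ∈ Pw d p, ((q : ℝ) ^ ((11 / 5 : ℝ) / l) - 1) / q ≤ (C + 11 / 10) - κ * L := by
    have h1 : (11 / 5 : ℝ) / l * ((L - l) / 2) ≤
        (11 / 5 : ℝ) / l * Real.log ((Xy x p : ℝ) + 1) :=
      mul_le_mul_of_nonneg_left hlog (by positivity)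
    have h2 : (11 / 5 : ℝ) / l * ((L - l) / 2) = 11 / 10 / l * L - 11 / 10 := by
      field_simp
      ring
    have h3 : κ * L ≤ 11 / 10 / l * L := by
      refine mul_le_mul_of_nonneg_right ?_ (by linarith)
      rw [hκ]
      exact div_le_div_of_nonneg_left (by norm_num) hl hlw2
    rw [h2] at h1
    linarith
  set T := A * Real.exp (-(κ * L)) with hTdef
  have hT : Real.exp (-((11 / 5 : ℝ) / l * Real.log ((Xy x p : ℝ) + 1)) +
      ∑ q ∈ Pw d p, ((q : ℝ) ^ ((11 / 5 : ℝ) / l) - 1) / q) ≤ T := by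
    refine (Real.exp_le_exp.mpr hexp).trans ?_
    rw [sub_eq_add_neg, Real.exp_add]
  have hL0' : 0 < L := by linarith
  have hT0 : 0 < T := by positivity
  have hTL : T ≤ 2 * A / (κ ^ 2 * L ^ 2) := by
    have h1 : (κ * L) ^ 2 / 2 ≤ Real.exp (κ * L) := by
      have h2 := Real.quadratic_le_exp_of_nonneg (show 0 ≤ κ * L by positivity)
      have h3 : 0 ≤ κ * L := by positivity
      linarith
    have h4 : Real.exp (-(κ * L)) ≤ 2 / (κ * L) ^ 2 := by
      rw [Real.exp_neg, inv_le_comm₀ (Real.exp_pos _) (by positivity), inv_div]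
      exact h1
    calc T ≤ A * (2 / (κ * L) ^ 2) := mul_le_mul_of_nonneg_left h4 hA0.le
      _ = 2 * A / (κ ^ 2 * L ^ 2) := by
        rw [mul_pow]
        ring
  have hT2 : T ≤ 1 / 2 := by
    refine hTL.trans ?_
    rw [div_le_iff₀ (by positivity)] at hL3 ⊢
    have h5 : 1 * L ≤ L * L := mul_le_mul_of_nonneg_right hL1 hL0'.le
    have h6 : L * κ ^ 2 ≤ L * L * κ ^ 2 := by
      refine mul_le_mul_of_nonneg_right ?_ (by positivity)
      linarith
    calc 2 * A ≤ 1 / 2 * (L * κ ^ 2) := by linarith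
      _ ≤ 1 / 2 * (L * L * κ ^ 2) := by linarith
      _ = 1 / 2 * (κ ^ 2 * L ^ 2) := by ring
  have hT3 : 2 * T ≤ δ / L := by
    rw [le_div_iff₀ hL0']
    have h5 : 2 * T * L ≤ 2 * (2 * A / (κ ^ 2 * L ^ 2)) * L := by
      refine mul_le_mul_of_nonneg_right ?_ hL0'.le
      linarith
    refine h5.trans ?_
    have h6 : 2 * (2 * A / (κ ^ 2 * L ^ 2)) * L = 4 * A / (κ ^ 2 * L) := by
      field_simp
      ring
    rw [h6]
    rw [div_le_iff₀ (by positivity)] at hL2 ⊢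
    calc 4 * A ≤ L * (κ ^ 2 * δ) := hL2
      _ = δ * (κ ^ 2 * L) := by ring
  have hVG : 1 ≤ Vd d p * Gs d p (Xy x p) + T := hr.trans (by linarith)
  have h1 := SvS_aux (Vd_pos d p) (show T < 1 by linarith) hVG
  refine (h1.trans ?_).trans hT3
  have hV1 := Vd_le_one d p
  have hV0 := Vd_pos d p
  rw [div_le_iff₀ (by linarith)]
  have h7 : Vd d p * T ≤ 1 * T := mul_le_mul_of_nonneg_right hV1 hT0.le
  have h8 : 2 * T * (1 / 2) ≤ 2 * T * (1 - T) := mul_le_mul_of_nonneg_left (by linarith) (by positivity)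
  linarith

private theorem SvS_logpow : ∃ x0 : ℝ, 2 ≤ x0 ∧ ∀ x : ℝ, x0 ≤ x →
    ∑ p ∈ Pri 1 (x ^ (3 / 25 : ℝ)), Real.log p ^ 8 / p ≤ 1 / 5 * (3 / 25 * Real.log x) ^ 8 := by
  obtain ⟨x0, hx0, h⟩ := logpow_sum
  refine ⟨x0, hx0, fun x hx => ?_⟩
  have hx1 : 1 ≤ x := by linarith
  have hxp : 0 < x := by linarith
  have h1 : x ≤ x ^ (9 / 5 : ℝ) := by
    calc x = x ^ (1 : ℝ) := (Real.rpow_one x).symm
      _ ≤ x ^ (9 / 5 : ℝ) := Real.rpow_le_rpow_of_exponent_le hx1 (by norm_num)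
  have h2 := h (x ^ (9 / 5 : ℝ)) (hx.trans h1)
  rw [← Real.rpow_mul hxp.le, Real.log_rpow hxp] at h2
  have e1 : (9 / 5 : ℝ) * (1 / 15) = 3 / 25 := by norm_num
  have e2 : 9 / 5 * Real.log x / 15 = 3 / 25 * Real.log x := by ring
  rw [e1, e2] at h2
  exact h2

theorem small_primes' : ∃ x0 : ℝ, 2 ≤ x0 ∧ ∀ x : ℝ, x0 ≤ x → ∀ d : ℕ, 1 ≤ d →
    ∑ p ∈ Pw d (⌊x ^ (3 / 25 : ℝ)⌋₊ + 1), 1 / (p : ℝ) * (1 / Gs d p (Xy x p) - Vd d p) ≤
      53 / 1000 * ((d : ℝ) / d.totient / Real.log x) := by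
  classical
  obtain ⟨w1, hw1, x1, hx1, hmain⟩ := main_term
  have hw1r : (0 : ℝ) < w1 := by
    have : 0 < w1 := by omega
    exact_mod_cast this
  obtain ⟨x2, hx2, hsmall⟩ := small_term w1 hw1 (1 / 1000 / w1) (by positivity)
  obtain ⟨x3, hx3, hlog⟩ := SvS_logpow
  refine ⟨max x1 (max x2 x3), hx1.trans (le_max_left _ _), fun x hx d hd => ?_⟩
  have hxx1 : x1 ≤ x := (le_max_left _ _).trans hx
  have hxx2 : x2 ≤ x := ((le_max_left _ _).trans (le_max_right _ _)).trans hx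
  have hxx3 : x3 ≤ x := ((le_max_right _ _).trans (le_max_right _ _)).trans hx
  have hx2' : 2 ≤ x := hx1.trans hxx1
  have hlx : 0 < Real.log x := Real.log_pos (by linarith)
  have hX0 : 0 ≤ x ^ (3 / 25 : ℝ) := Real.rpow_nonneg (by linarith) _
  have hrd := one_le_rd hd
  have hrd0 : 0 ≤ (d : ℝ) / d.totient := zero_le_one.trans hrd
  set S := Pw d (⌊x ^ (3 / 25 : ℝ)⌋₊ + 1) with hS
  rw [← sum_filter_add_sum_filter_not S (fun p => p < w1)]
  have h1 : ∑ p ∈ S.filter (fun p => p < w1), 1 / (p : ℝ) * (1 / Gs d p (Xy x p) - Vd d p) ≤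
      1 / 1000 * ((d : ℝ) / d.totient / Real.log x) := by
    have h2 : ∀ p ∈ S.filter (fun p => p < w1),
        1 / (p : ℝ) * (1 / Gs d p (Xy x p) - Vd d p) ≤ 1 / 1000 / w1 / Real.log x := by
      intro p hp
      rw [mem_filter] at hp
      have hpp := (mem_Pw.1 hp.1).2.1
      have hp1 : (1 : ℝ) ≤ p := by exact_mod_cast hpp.one_lt.le
      have h3 := hsmall x hxx2 d hd p hpp hp.2
      have h4 : 1 / (p : ℝ) ≤ 1 := by
        rw [div_le_one (by linarith)]
        exact hp1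
      have h5 : 0 ≤ 1 / (p : ℝ) := by positivity
      have h6 : 0 ≤ 1 / 1000 / (w1 : ℝ) / Real.log x := by positivity
      calc 1 / (p : ℝ) * (1 / Gs d p (Xy x p) - Vd d p)
          ≤ 1 / (p : ℝ) * (1 / 1000 / w1 / Real.log x) := mul_le_mul_of_nonneg_left h3 h5
        _ ≤ 1 * (1 / 1000 / w1 / Real.log x) := mul_le_mul_of_nonneg_right h4 h6
        _ = 1 / 1000 / w1 / Real.log x := one_mul _
    refine (sum_le_sum h2).trans ?_
    rw [sum_const, nsmul_eq_mul]
    have h3 : (S.filter (fun p => p < w1)).card ≤ w1 := by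
      have h4 : S.filter (fun p => p < w1) ⊆ range w1 := by
        intro p hp
        rw [mem_filter] at hp
        exact mem_range.2 hp.2
      have h5 := card_le_card h4
      rwa [card_range] at h5
    have h4 : ((S.filter (fun p => p < w1)).card : ℝ) ≤ w1 := by exact_mod_cast h3
    have h6 : 0 ≤ 1 / 1000 / (w1 : ℝ) / Real.log x := by positivity
    calc ((S.filter (fun p => p < w1)).card : ℝ) * (1 / 1000 / w1 / Real.log x)
        ≤ w1 * (1 / 1000 / w1 / Real.log x) := mul_le_mul_of_nonneg_right h4 h6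
      _ = 1 / 1000 * (1 / Real.log x) := by
          field_simp
      _ ≤ 1 / 1000 * ((d : ℝ) / d.totient / Real.log x) := by
          refine mul_le_mul_of_nonneg_left ?_ (by norm_num)
          exact div_le_div_of_nonneg_right hrd hlx.le
  have h2 : ∑ p ∈ S.filter (fun p => ¬ p < w1), 1 / (p : ℝ) * (1 / Gs d p (Xy x p) - Vd d p) ≤
      31 / 600 * ((d : ℝ) / d.totient / Real.log x) := by
    have h3 : ∀ p ∈ S.filter (fun p => ¬ p < w1),
        1 / (p : ℝ) * (1 / Gs d p (Xy x p) - Vd d p) ≤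
          31 / 1000 * (25 / (3 * Real.log x)) ^ 9 * ((d : ℝ) / d.totient) * (Real.log p ^ 8 / p) := by
      intro p hp
      rw [mem_filter] at hp
      obtain ⟨hpS, hpw⟩ := hp
      obtain ⟨hpX, hpp, hpd⟩ := mem_Pw.1 hpS
      have hpX' : (p : ℝ) ≤ x ^ (3 / 25 : ℝ) :=
        (Nat.le_floor_iff hX0).1 (Nat.lt_succ_iff.1 hpX)
      have h4 := hmain x hxx1 d hd p hpp (not_lt.1 hpw) hpX'
      have hp1 : (1 : ℝ) < p := by exact_mod_cast hpp.one_lt
      have hlp : 0 < Real.log p := Real.log_pos hp1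
      have h5 : 0 ≤ 1 / (p : ℝ) := by positivity
      refine (mul_le_mul_of_nonneg_left h4 h5).trans (le_of_eq ?_)
      field_simp
    refine (sum_le_sum h3).trans ?_
    rw [← mul_sum]
    have h4 : ∑ p ∈ S.filter (fun p => ¬ p < w1), Real.log p ^ 8 / (p : ℝ) ≤
        1 / 5 * (3 / 25 * Real.log x) ^ 8 := by
      refine le_trans ?_ (hlog x hxx3)
      refine sum_le_sum_of_subset_of_nonneg ?_ fun p hp _ => ?_
      · intro p hp
        rw [mem_filter] at hp
        obtain ⟨hpX, hpp, hpd⟩ := mem_Pw.1 hp.1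
        rw [mem_Pri zero_le_one]
        refine ⟨hpp, by exact_mod_cast hpp.one_lt, ?_⟩
        exact (Nat.le_floor_iff hX0).1 (Nat.lt_succ_iff.1 hpX)
      · rw [mem_Pri zero_le_one] at hp
        have h5 : 0 ≤ Real.log p := Real.log_nonneg hp.2.1.le
        positivity
    have h5 : 0 ≤ 31 / 1000 * (25 / (3 * Real.log x)) ^ 9 * ((d : ℝ) / d.totient) := by positivity
    refine (mul_le_mul_of_nonneg_left h4 h5).trans (le_of_eq ?_)
    field_simp
    ring
  have h3 : 0 ≤ (d : ℝ) / d.totient / Real.log x := by positivity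
  linarith

end Pool.Agent.Lib.MP_42948a_nt.TS
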