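import Pool.Agent.Lib.MP_42948a_nt.EK.Defs
import Pool.Agent.Lib.MP_42948a_nt.TS.SvZ0

/-!
# The weighted sieve for products of at most `r` primes, uniformly for `x = d ^ a`
-/

namespace Pool.Agent.Lib.MP_42948a_nt.TS

open Finset Pool.Agent.Lib.MP_42948a_nt.OA

open Classical in
/-- The weighted sieve of level `x ^ ρ` for the products of at most `r` primes, `x = d ^ a`, uniform in `a ∈ [a1, a2]`. -/
def SVR (r : ℕ) (ρ a1 a2 : ℝ) : Prop :=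
  ∃ h0 c : ℝ, 0 < h0 ∧ 0 < c ∧ ∃ C d0 : ℕ, ∀ d : ℕ, d0 ≤ d → ∀ a : ℝ, a1 ≤ a → a ≤ a2 → ∃ ω : ℕ → ℝ,
    (∀ m, ω m ≠ 0 → 1 ≤ m ∧ (m : ℝ) ≤ (d : ℝ) ^ (ρ * a) ∧ m.Coprime d) ∧
    (∑ m ∈ Icc 1 ⌊(d : ℝ) ^ (ρ * a)⌋₊, |ω m| / m ≤ (Real.log d) ^ C) ∧
    (∀ n : ℕ, (d : ℝ) ^ a < n → (n : ℝ) ≤ (d : ℝ) ^ (a + h0) → n.Coprime d → ∑ m ∈ n.divisors, ω m ≤
      (if Rough ⌊(d : ℝ) ^ (1 / 100 : ℝ)⌋₊ n ∧ ArithmeticFunction.cardFactors n ≤ r then (1 : ℝ) else 0) +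
        (if ∃ p : ℕ, p.Prime ∧ (d : ℝ) ^ (1 / 100 : ℝ) < p ∧ p ^ 2 ∣ n then (1 : ℝ) else 0)) ∧
    (c * ((d : ℝ) / d.totient) / Real.log d ≤ ∑ m ∈ Icc 1 ⌊(d : ℝ) ^ (ρ * a)⌋₊, ω m / m)

theorem svr (r : ℕ) (ρ a1 a2 : ℝ) (hρ : 0 < ρ) (hρ1 : ρ ≤ 1) (h20 : 1 / 20 ≤ ρ * a1) (ha2 : a2 ≤ 2)
    (hk : 1 < 7 * (22 * (r : ℝ) - 3) / 165 * ρ) : SVR r ρ a1 a2 := by
  classical
  obtain ⟨x0, hx0, h⟩ := sv 20
  obtain ⟨k, hkd⟩ : ∃ k : ℝ, k = 7 * (22 * (r : ℝ) - 3) / 165 := ⟨_, rfl⟩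
  rw [← hkd] at hk
  have ha1 : 0 < a1 := by
    by_contra h1
    have h2 : ρ * a1 ≤ 0 := mul_nonpos_of_nonneg_of_nonpos hρ.le (not_lt.mp h1)
    linarith
  refine ⟨(k * ρ - 1) * a1, 1 / 100, mul_pos (by linarith) ha1, by norm_num, 10, ⌈x0 ^ 20⌉₊ + 10, ?_⟩
  intro d hd a haa1 haa2
  have hdN : 10 ≤ d := by omega
  have hd1 : (1 : ℝ) ≤ d := by exact_mod_cast (by omega : 1 ≤ d)
  have hd0 : (0 : ℝ) < d := by linarith
  have hdx0 : x0 ^ 20 ≤ (d : ℝ) := by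
    have h1 : x0 ^ 20 ≤ (⌈x0 ^ 20⌉₊ : ℝ) := Nat.le_ceil _
    have h2 : ((⌈x0 ^ 20⌉₊ : ℕ) : ℝ) ≤ d := by exact_mod_cast (by omega : ⌈x0 ^ 20⌉₊ ≤ d)
    exact h1.trans h2
  have hρa : 1 / 20 ≤ ρ * a := h20.trans (mul_le_mul_of_nonneg_left haa1 hρ.le)
  have hρa2 : ρ * a ≤ 2 := by
    calc ρ * a ≤ 1 * a := mul_le_mul_of_nonneg_right hρ1 (by linarith)
      _ ≤ 2 := by linarith
  obtain ⟨x, hx⟩ : ∃ x : ℝ, x = (d : ℝ) ^ (ρ * a) := ⟨_, rfl⟩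
  have hxpos : 0 < x := by
    rw [hx]
    exact Real.rpow_pos_of_pos hd0 _
  have hx0x : x0 ≤ x := by
    have h1 : x0 ≤ (d : ℝ) ^ (1 / 20 : ℝ) := by
      have h2 : x0 = (x0 ^ 20) ^ (1 / 20 : ℝ) := by
        rw [← Real.rpow_natCast, ← Real.rpow_mul (by linarith)]
        norm_num
      rw [h2]
      exact Real.rpow_le_rpow (by positivity) hdx0 (by norm_num)
    rw [hx]
    exact h1.trans (Real.rpow_le_rpow_of_exponent_le hd1 hρa)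
  have hdx2 : (d : ℝ) ≤ x ^ 20 := by
    have h1 : x ^ 20 = (d : ℝ) ^ (ρ * a * 20) := by
      rw [hx, ← Real.rpow_natCast, ← Real.rpow_mul hd0.le]
      norm_num
    rw [h1]
    calc (d : ℝ) = (d : ℝ) ^ (1 : ℝ) := (Real.rpow_one _).symm
      _ ≤ (d : ℝ) ^ (ρ * a * 20) := Real.rpow_le_rpow_of_exponent_le hd1 (by linarith)
  have hpow : ∀ s : ℝ, x ^ s = (d : ℝ) ^ (ρ * a * s) := by
    intro s
    rw [hx, ← Real.rpow_mul hd0.le]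
  have hlog : Real.log x = ρ * a * Real.log d := by
    rw [hx, Real.log_rpow hd0]
  have hld : 2 ≤ Real.log d := by
    have h1 : Real.exp 2 ≤ (d : ℝ) := by
      have h2 : Real.exp 2 = Real.exp 1 ^ 2 := by
        rw [← Real.exp_nat_mul]
        norm_num
      have h3 := Real.exp_one_lt_d9
      have h4 := Real.exp_pos 1
      have h5 : (10 : ℝ) ≤ d := by exact_mod_cast hdN
      rw [h2]
      nlinarith
    have h2 := Real.log_le_log (Real.exp_pos 2) h1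
    rwa [Real.log_exp] at h2
  obtain ⟨ω, hω1, hω2, hω3, hω4⟩ := h x hx0x d (by omega) hdx2
  rw [hx] at hω1
  refine ⟨ω, ?_, ?_, ?_, ?_⟩
  · intro m hm
    obtain ⟨m1, m2, m3⟩ := hω1 m hm
    exact ⟨m1, (Nat.le_floor_iff (Real.rpow_nonneg hd0.le _)).mp m2, m3⟩
  · rw [← hx]
    refine hω2.trans ?_
    rw [hlog]
    have h1 : ρ * a * Real.log d ≤ Real.log d ^ 2 := by
      calc ρ * a * Real.log d ≤ 2 * Real.log d := mul_le_mul_of_nonneg_right hρa2 (by linarith)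
        _ ≤ Real.log d * Real.log d := mul_le_mul_of_nonneg_right hld (by linarith)
        _ = Real.log d ^ 2 := by ring
    have h2 : Real.log d ^ 10 = (Real.log d ^ 2) ^ 5 := by ring
    rw [h2]
    exact pow_le_pow_left₀ (mul_nonneg (by linarith) (by linarith)) h1 5
  · intro n hn hn2 hnd
    have hn1 : 1 < n := by
      have h1 : (1 : ℝ) ≤ (d : ℝ) ^ a := Real.one_le_rpow hd1 (by linarith)
      have h2 : (1 : ℝ) < n := lt_of_le_of_lt h1 hn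
      exact_mod_cast h2
    have h1 : (n : ℝ) ≤ x ^ (7 * (22 * (r : ℝ) - 3) / 165) := by
      rw [hpow, ← hkd]
      refine hn2.trans (Real.rpow_le_rpow_of_exponent_le hd1 ?_)
      have h2 : (k * ρ - 1) * a1 ≤ (k * ρ - 1) * a := mul_le_mul_of_nonneg_left haa1 (by linarith)
      linarith
    refine (hω3 r n hn1 h1 hnd).trans ?_
    have h2 : (d : ℝ) ^ (1 / 100 : ℝ) ≤ x ^ (1 / 5 : ℝ) := by
      rw [hpow]
      exact Real.rpow_le_rpow_of_exponent_le hd1 (by linarith)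
    refine add_le_add ?_ ?_
    · by_cases h3 : Rough ⌊x ^ (1 / 5 : ℝ)⌋₊ n ∧ ArithmeticFunction.cardFactors n ≤ r
      · have h4 : Rough ⌊(d : ℝ) ^ (1 / 100 : ℝ)⌋₊ n ∧ ArithmeticFunction.cardFactors n ≤ r :=
          ⟨⟨h3.1.1, fun p hp hpn => (Nat.floor_le_floor h2).trans_lt (h3.1.2 p hp hpn)⟩, h3.2⟩
        rw [if_pos h3, if_pos h4]
      · rw [if_neg h3]
        split_ifs <;> norm_num
    · by_cases h3 : ∃ p : ℕ, p.Prime ∧ x ^ (1 / 5 : ℝ) < p ∧ p ^ 2 ∣ n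
      · have h4 : ∃ p : ℕ, p.Prime ∧ (d : ℝ) ^ (1 / 100 : ℝ) < p ∧ p ^ 2 ∣ n := by
          obtain ⟨p, hp1, hp2, hp3⟩ := h3
          exact ⟨p, hp1, h2.trans_lt hp2, hp3⟩
        rw [if_pos h3, if_pos h4]
      · rw [if_neg h3]
        split_ifs <;> norm_num
  · rw [← hx]
    refine le_trans ?_ hω4
    rw [hlog]
    have hr : 0 ≤ (d : ℝ) / d.totient := by positivity
    have h1 : 1 / 100 * ((d : ℝ) / d.totient) / Real.log d = 1 / 50 * ((d : ℝ) / d.totient / (2 * Real.log d)) := by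
      field_simp
      norm_num
    rw [h1]
    refine mul_le_mul_of_nonneg_left ?_ (by norm_num)
    refine div_le_div_of_nonneg_left hr (mul_pos (by linarith) (by linarith)) ?_
    exact mul_le_mul_of_nonneg_right (by linarith) (by linarith)

end Pool.Agent.Lib.MP_42948a_nt.TS
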