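import Pool.Agent.Lib.MP_42948a_nt.EK.TI4
import Pool.Agent.Lib.MP_42948a_nt.EK.TI5a
import Pool.Agent.Lib.MP_42948a_nt.TS.SvE
import Pool.Agent.Lib.MP_42948a_nt.TS.SvR

/-!
# Smoothed coverage by numbers with at most `r` prime factors

As `EK/TI6.lean`, with Burgess' bound for the modulus `d` from the exponent `th` on, and with the sieve `SVR r`.
-/

namespace Pool.Agent.Lib.MP_42948a_nt.TS

open Finset Pool.Agent.Lib.MP_42948a_nt.EK Pool.Agent.Lib.MP_42948a_nt.OA Pool.Agent.Lib.MP_42948a_nt.AC Pool.Agent.Lib.MP_42948a_nt.TQ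
  Pool.Agent.Lib.MP_42948a_nt.PS

private theorem SvTI_pow (κ ε : ℝ) (hκ : 0 < κ) (hε : 0 < ε) (C : ℕ) :
    ∃ d0 : ℕ, ∀ d : ℕ, d0 ≤ d → (d : ℝ) ^ (-κ) * (Real.log d) ^ C ≤ ε := by
  have h1 := (isLittleO_log_rpow_rpow_atTop (C : ℝ) hκ).def hε
  have h2 := (tendsto_natCast_atTop_atTop (R := ℝ)).eventually h1
  obtain ⟨d0, hd0⟩ := Filter.eventually_atTop.1 h2
  refine ⟨max d0 1, fun d hd => ?_⟩
  have h3 := hd0 d (le_trans (le_max_left _ _) hd)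
  have hd1 : (1 : ℝ) ≤ d := by exact_mod_cast le_trans (le_max_right _ _) hd
  have hpos : 0 < (d : ℝ) ^ κ := Real.rpow_pos_of_pos (by linarith) _
  rw [Real.rpow_natCast, Real.norm_eq_abs, Real.norm_eq_abs, abs_of_pos hpos] at h3
  have h4 : (Real.log d) ^ C ≤ ε * (d : ℝ) ^ κ := (le_abs_self _).trans h3
  rw [Real.rpow_neg (by linarith), inv_mul_le_iff₀ hpos]
  linarith

private theorem SvTI_big (κ M : ℝ) (hκ : 0 < κ) : ∃ d0 : ℕ, ∀ d : ℕ, d0 ≤ d → M ≤ (d : ℝ) ^ κ := by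
  have h1 := (tendsto_rpow_atTop hκ).comp (tendsto_natCast_atTop_atTop (R := ℝ))
  obtain ⟨d0, hd0⟩ := Filter.eventually_atTop.1 (h1.eventually_ge_atTop M)
  exact ⟨d0, hd0⟩

private theorem SvTI_biglog (M : ℝ) : ∃ d0 : ℕ, ∀ d : ℕ, d0 ≤ d → M ≤ Real.log d := by
  have h1 := Real.tendsto_log_atTop.comp (tendsto_natCast_atTop_atTop (R := ℝ))
  obtain ⟨d0, hd0⟩ := Filter.eventually_atTop.1 (h1.eventually_ge_atTop M)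
  exact ⟨d0, hd0⟩

private theorem SvTI_mem (s : Finset ℕ) (p : ℕ → Prop) (i : DecidablePred p) (n : ℕ)
    (h : n ∈ @Finset.filter _ p i s) : n ∈ s ∧ p n := Finset.mem_filter.1 h

private theorem SvTI_floor {x : ℝ} (hx : 2 ≤ x) : x / 2 ≤ (⌊x⌋₊ : ℝ) := by
  have h1 := Nat.lt_floor_add_one x
  linarith

private theorem SvTI_log {d : ℕ} {a h : ℝ} (hd : (1 : ℝ) ≤ d) (h2 : (2 : ℝ) ≤ (d : ℝ) ^ a) (hh : 0 < h)
    (hl : 4 * Real.log 2 ≤ h * Real.log d) :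
    3 / 4 * h * Real.log d ≤ Real.log ((⌊(d : ℝ) ^ (a + h)⌋₊ : ℝ) / ⌊(d : ℝ) ^ a⌋₊) := by
  have hd0 : (0 : ℝ) < d := by linarith
  have hA1 : (1 : ℝ) ≤ (⌊(d : ℝ) ^ a⌋₊ : ℝ) := by
    have h3 := SvTI_floor h2
    linarith
  have hA2 : (⌊(d : ℝ) ^ a⌋₊ : ℝ) ≤ (d : ℝ) ^ a := Nat.floor_le (by linarith)
  have h4 : (d : ℝ) ^ a ≤ (d : ℝ) ^ (a + h) := Real.rpow_le_rpow_of_exponent_le hd (by linarith)
  have hB := SvTI_floor (h2.trans h4)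
  have hpos : 0 < (d : ℝ) ^ h := Real.rpow_pos_of_pos hd0 _
  have h5 : (d : ℝ) ^ h / 2 ≤ (⌊(d : ℝ) ^ (a + h)⌋₊ : ℝ) / ⌊(d : ℝ) ^ a⌋₊ := by
    rw [le_div_iff₀ (by linarith)]
    calc (d : ℝ) ^ h / 2 * (⌊(d : ℝ) ^ a⌋₊ : ℝ) ≤ (d : ℝ) ^ h / 2 * (d : ℝ) ^ a :=
          mul_le_mul_of_nonneg_left hA2 (by positivity)
      _ = (d : ℝ) ^ (a + h) / 2 := by
          rw [Real.rpow_add hd0]
          ring
      _ ≤ _ := hB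
  have h6 := Real.log_le_log (by positivity) h5
  rw [Real.log_div hpos.ne' (by norm_num), Real.log_rpow hd0] at h6
  linarith

open Classical in
/-- the numbers in the window `(d^v, d^u]` coprime to `d`, with all prime factors `> ⌊d^δ⌋` and at most `r` of them -/
noncomputable def P1r (d r : ℕ) (δ v u : ℝ) : Finset ℕ :=
  (Icc 1 ⌊(d : ℝ) ^ u⌋₊).filter (fun n : ℕ => (d : ℝ) ^ v < n ∧ n.Coprime d ∧ Rough ⌊(d : ℝ) ^ δ⌋₊ n ∧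
    ArithmeticFunction.cardFactors n ≤ r)

theorem coverage_r (th c0 : ℝ) (hth : 1 / 4 ≤ th) (hc0 : 0 < c0) (r : ℕ) (ρ a1 a2 : ℝ) (hρ0 : 0 < ρ) (hρ1 : ρ < 1) (ha1 : 0 < a1) (ha2 : a2 ≤ 2)
    (h13 : th < (1 - ρ) * a1) (hSV : SVR r ρ a1 a2) :
    ∃ h0 c : ℝ, 0 < h0 ∧ 0 < c ∧ ∀ h : ℝ, 0 < h → h ≤ h0 → ∀ Q : ℕ, ∃ d0 : ℕ, ∀ d : ℕ, d0 ≤ d → ∀ [NeZero d],
      (∀ χ : DirichletCharacter ℂ d, χ ≠ 1 → ∀ N : ℕ, (d : ℝ) ^ th ≤ (N : ℝ) → ‖∑ n ∈ Icc 1 N, χ (n : ZMod d)‖ ≤ (N : ℝ) * (d : ℝ) ^ (-c0)) →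
      ∀ S : Finset (DirichletCharacter ℂ d), S.Nonempty → S.card ≤ Q → ∀ a : ℝ, a1 ≤ a → a ≤ a2 → ∀ g : (ZMod d)ˣ,
        c * h ≤ (Fintype.card (ZMod d)ˣ : ℝ) * sm S (CF d (P1r d r (1 / 100) a (a + h)) rw1) g := by
  classical
  obtain ⟨h0', c', hh0', hc', C, d1, hsv⟩ := hSV
  obtain ⟨μ, hμd⟩ : ∃ μ : ℝ, μ = ((1 - ρ) * a1 - th) / 4 := ⟨_, rfl⟩
  have hμ : 0 < μ := by
    rw [hμd]
    linarith
  have hμ4 : th + 4 * μ = (1 - ρ) * a1 := by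
    rw [hμd]
    ring
  refine ⟨min h0' 1, c' / 4, lt_min hh0' one_pos, by linarith, fun h hh hhle Q => ?_⟩
  have hh1 : h ≤ h0' := hhle.trans (min_le_left _ _)
  have hh2 : h ≤ 1 := hhle.trans (min_le_right _ _)
  obtain ⟨κ'', hκ'', d3, herr⟩ := err_small_th th ρ a1 a2 μ c0 hth hρ0 hρ1 ha1 ha2 hμ hμ4 hc0 Q
  have hε : 0 < c' * h / 8 := by positivity
  obtain ⟨d4, hd4⟩ := SvTI_pow κ'' (c' * h / 8) hκ'' hε C
  have hε2 : 0 < c' * h / 8 / (8 * ((Q : ℝ) + 1)) := by positivity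
  obtain ⟨d5, hd5⟩ := SvTI_pow (1 / 100) (c' * h / 8 / (8 * ((Q : ℝ) + 1))) (by norm_num) hε2 1
  obtain ⟨d6, hd6⟩ := SvTI_big a1 2 ha1
  obtain ⟨d7, hd7⟩ := SvTI_big (1 / 100) 2 (by norm_num)
  obtain ⟨d8, hd8⟩ := SvTI_biglog (4 * Real.log 2 / h)
  obtain ⟨d9, hd9⟩ := SvTI_biglog 1
  refine ⟨max (max d1 (max d3 d4)) (max (max d5 d6) (max (max d7 d8) (max d9 1))),
    fun d hd => ?_⟩
  simp only [max_le_iff] at hd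
  obtain ⟨⟨g1, g3, g4⟩, ⟨g5, g6⟩, ⟨g7, g8⟩, g9, g10⟩ := hd
  intro _ hbur S hS hSQ a haa1 haa2 g
  have hdR : (1 : ℝ) ≤ d := by exact_mod_cast g10
  have hd0 : (0 : ℝ) < d := by linarith
  have k4 := hd4 d g4
  have k5 := hd5 d g5
  have k6 := hd6 d g6
  have k7 := hd7 d g7
  have k8 := hd8 d g8
  have k9 := hd9 d g9
  rw [pow_one] at k5
  have hda : (2 : ℝ) ≤ (d : ℝ) ^ a := k6.trans (Real.rpow_le_rpow_of_exponent_le hdR haa1)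
  have hdah : (2 : ℝ) ≤ (d : ℝ) ^ (a + h) :=
    hda.trans (Real.rpow_le_rpow_of_exponent_le hdR (by linarith))
  have hlog : 3 / 4 * h * Real.log d ≤
      Real.log ((⌊(d : ℝ) ^ (a + h)⌋₊ : ℝ) / ⌊(d : ℝ) ^ a⌋₊) := by
    refine SvTI_log hdR hda hh ?_
    rw [div_le_iff₀ hh] at k8
    linarith
  have hA1 : 1 ≤ ⌊(d : ℝ) ^ a⌋₊ := by
    rw [Nat.one_le_floor_iff]
    linarith
  have hB1 : 1 ≤ ⌊(d : ℝ) ^ (a + h)⌋₊ := by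
    rw [Nat.one_le_floor_iff]
    linarith
  have hAB : ⌊(d : ℝ) ^ a⌋₊ ≤ ⌊(d : ℝ) ^ (a + h)⌋₊ :=
    Nat.floor_le_floor (Real.rpow_le_rpow_of_exponent_le hdR (by linarith))
  obtain ⟨ω, hω1, hω2, hω3, hω4⟩ := hsv d g1 a haa1 haa2
  have hφ : Fintype.card (ZMod d)ˣ = d.totient := ZMod.card_units_eq_totient d
  have hφ0 : (0 : ℝ) < (d.totient : ℝ) := by
    exact_mod_cast Nat.totient_pos.2 g10
  have hSQ' : (S.card : ℝ) ≤ Q := by exact_mod_cast hSQ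
  -- the main inequality
  have hw := weighted S hS ((d : ℝ) ^ (-c0)) ((d : ℝ) ^ (-κ'')) (Real.rpow_nonneg hd0.le _)
    ⌊(d : ℝ) ^ a⌋₊ ⌊(d : ℝ) ^ (a + h)⌋₊ ⌊(d : ℝ) ^ (ρ * a)⌋₊ hAB hA1 ω
    (fun m hm => ⟨(hω1 m hm).1, Nat.le_floor (hω1 m hm).2.1, (hω1 m hm).2.2⟩)
    (fun m hm => by
      obtain ⟨e1, e2, -⟩ := hω1 m hm
      obtain ⟨f1, f2, f3⟩ := herr d g3 a h haa1 haa2 hh hh2 m e1 e2
      refine ⟨f2, fun χ hχ N hN => hbur χ hχ N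
        ((Real.rpow_le_rpow_of_exponent_le hdR (by linarith)).trans (f1.trans (by exact_mod_cast hN))), ?_⟩
      refine le_trans (add_le_add_right ?_ _) f3
      refine mul_le_mul_of_nonneg_right ?_ ?_
      · exact pow_le_pow_left₀ (Nat.cast_nonneg _) hSQ' 2
      · refine mul_nonneg (Real.rpow_nonneg hd0.le _) (add_nonneg (by norm_num) ?_)
        refine Real.log_nonneg ?_
        have f4 : (0 : ℝ) < ((⌊(d : ℝ) ^ a⌋₊ / m : ℕ) : ℝ) := by exact_mod_cast f2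
        rw [le_div_iff₀ f4, one_mul]
        exact_mod_cast Nat.div_le_div_right hAB)
    (fun n => Rough ⌊(d : ℝ) ^ (1 / 100 : ℝ)⌋₊ n ∧ ArithmeticFunction.cardFactors n ≤ r)
    (fun n => ∃ p : ℕ, p.Prime ∧ (d : ℝ) ^ (1 / 100 : ℝ) < p ∧ p ^ 2 ∣ n)
    (fun n hn hnd => by
      rw [Finset.mem_Ioc] at hn
      have e1 : (d : ℝ) ^ a < n := Nat.lt_of_floor_lt hn.1
      have e2 : (n : ℝ) ≤ (d : ℝ) ^ (a + h) := by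
        have e3 : (n : ℝ) ≤ (⌊(d : ℝ) ^ (a + h)⌋₊ : ℝ) := by exact_mod_cast hn.2
        exact e3.trans (Nat.floor_le (by linarith))
      have e4 : (n : ℝ) ≤ (d : ℝ) ^ (a + h0') :=
        e2.trans (Real.rpow_le_rpow_of_exponent_le hdR (by linarith))
      refine (hω3 n e1 e4 hnd).trans (le_of_eq ?_)
      congr) g
  -- the multiples of squares
  have hz1 : (d : ℝ) ^ (1 / 100 : ℝ) / 2 ≤ (⌊(d : ℝ) ^ (1 / 100 : ℝ)⌋₊ : ℝ) := SvTI_floor k7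
  have hz0 : 1 ≤ ⌊(d : ℝ) ^ (1 / 100 : ℝ)⌋₊ := by
    rw [Nat.one_le_floor_iff]
    linarith
  have hE : ∑ n ∈ (Ioc ⌊(d : ℝ) ^ a⌋₊ ⌊(d : ℝ) ^ (a + h)⌋₊).filter
      (fun n : ℕ => ∃ p : ℕ, p.Prime ∧ (d : ℝ) ^ (1 / 100 : ℝ) < p ∧ p ^ 2 ∣ n), rw1 n ≤
      1 / (⌊(d : ℝ) ^ (1 / 100 : ℝ)⌋₊ : ℝ) * (1 + Real.log ⌊(d : ℝ) ^ (a + h)⌋₊) := by
    refine le_trans (Finset.sum_le_sum_of_subset_of_nonneg (fun n hn => ?_) fun n _ _ => ?_)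
      (sq_sum ⌊(d : ℝ) ^ (1 / 100 : ℝ)⌋₊ ⌊(d : ℝ) ^ a⌋₊ ⌊(d : ℝ) ^ (a + h)⌋₊ hz0 hB1)
    · rw [Finset.mem_filter] at hn ⊢
      obtain ⟨e1, p, e2, e3, e4⟩ := hn
      exact ⟨e1, p, e2, (Nat.floor_lt' e2.ne_zero).2 e3, e4⟩
    · unfold rw1
      positivity
  have hlogd : 0 < Real.log d := by linarith
  have hlogB : Real.log ⌊(d : ℝ) ^ (a + h)⌋₊ ≤ 3 * Real.log d := by
    have e1 : (⌊(d : ℝ) ^ (a + h)⌋₊ : ℝ) ≤ (d : ℝ) ^ (a + h) := Nat.floor_le (by linarith)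
    have e2 : (0 : ℝ) < (⌊(d : ℝ) ^ (a + h)⌋₊ : ℝ) := by exact_mod_cast hB1
    have e3 := Real.log_le_log e2 e1
    rw [Real.log_rpow hd0] at e3
    exact e3.trans (mul_le_mul_of_nonneg_right (by linarith) hlogd.le)
  have hE2 : (S.card : ℝ) * (1 / (⌊(d : ℝ) ^ (1 / 100 : ℝ)⌋₊ : ℝ) *
      (1 + Real.log ⌊(d : ℝ) ^ (a + h)⌋₊)) ≤ c' * h / 8 := by
    have hzp : (0 : ℝ) < (d : ℝ) ^ (1 / 100 : ℝ) := by linarith
    have e0 : (0 : ℝ) < (⌊(d : ℝ) ^ (1 / 100 : ℝ)⌋₊ : ℝ) := by linarith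
    have e1 : 1 / (⌊(d : ℝ) ^ (1 / 100 : ℝ)⌋₊ : ℝ) ≤ 2 * (d : ℝ) ^ (-(1 / 100) : ℝ) := by
      rw [Real.rpow_neg hd0.le, div_le_iff₀ e0]
      calc (1 : ℝ) = 2 * ((d : ℝ) ^ (1 / 100 : ℝ))⁻¹ * ((d : ℝ) ^ (1 / 100 : ℝ) / 2) := by
            field_simp
        _ ≤ 2 * ((d : ℝ) ^ (1 / 100 : ℝ))⁻¹ * (⌊(d : ℝ) ^ (1 / 100 : ℝ)⌋₊ : ℝ) :=
            mul_le_mul_of_nonneg_left hz1 (by positivity)
    have e2 : 1 + Real.log ⌊(d : ℝ) ^ (a + h)⌋₊ ≤ 4 * Real.log d := by linarith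
    have e3 : 0 ≤ 1 + Real.log ⌊(d : ℝ) ^ (a + h)⌋₊ :=
      add_nonneg zero_le_one (Real.log_nonneg (by exact_mod_cast hB1))
    have e5 : 1 / (⌊(d : ℝ) ^ (1 / 100 : ℝ)⌋₊ : ℝ) * (1 + Real.log ⌊(d : ℝ) ^ (a + h)⌋₊) ≤
        (2 * (d : ℝ) ^ (-(1 / 100) : ℝ)) * (4 * Real.log d) :=
      mul_le_mul e1 e2 e3 (by positivity)
    have e6 : (2 * (d : ℝ) ^ (-(1 / 100) : ℝ)) * (4 * Real.log d) ≤
        8 * (c' * h / 8 / (8 * ((Q : ℝ) + 1))) := by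
      have e7 := mul_le_mul_of_nonneg_left k5 (by norm_num : (0 : ℝ) ≤ 8)
      linarith
    have hQ1 : (0 : ℝ) < (Q : ℝ) + 1 := by positivity
    have e8 : 8 * (c' * h / 8 / (8 * ((Q : ℝ) + 1))) = (c' * h / 8) / ((Q : ℝ) + 1) := by
      field_simp
    rw [e8] at e6
    have e9 : 0 ≤ (c' * h / 8) / ((Q : ℝ) + 1) := by positivity
    calc (S.card : ℝ) * (1 / (⌊(d : ℝ) ^ (1 / 100 : ℝ)⌋₊ : ℝ) *
          (1 + Real.log ⌊(d : ℝ) ^ (a + h)⌋₊))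
        ≤ (S.card : ℝ) * ((c' * h / 8) / ((Q : ℝ) + 1)) :=
          mul_le_mul_of_nonneg_left (e5.trans e6) (Nat.cast_nonneg _)
      _ ≤ ((Q : ℝ) + 1) * ((c' * h / 8) / ((Q : ℝ) + 1)) :=
          mul_le_mul_of_nonneg_right (by linarith) e9
      _ = c' * h / 8 := by
          field_simp
  -- assembly
  obtain ⟨L, hL⟩ : ∃ L, L = Real.log ((⌊(d : ℝ) ^ (a + h)⌋₊ : ℝ) / ⌊(d : ℝ) ^ a⌋₊) := ⟨_, rfl⟩
  obtain ⟨W1, hW1⟩ : ∃ W1, W1 = ∑ m ∈ Icc 1 ⌊(d : ℝ) ^ (ρ * a)⌋₊, ω m / m := ⟨_, rfl⟩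
  obtain ⟨W2, hW2⟩ : ∃ W2, W2 = ∑ m ∈ Icc 1 ⌊(d : ℝ) ^ (ρ * a)⌋₊, |ω m| / m := ⟨_, rfl⟩
  obtain ⟨E1, hE1⟩ : ∃ E1, E1 = ∑ n ∈ (Ioc ⌊(d : ℝ) ^ a⌋₊ ⌊(d : ℝ) ^ (a + h)⌋₊).filter
      (fun n : ℕ => ∃ p : ℕ, p.Prime ∧ (d : ℝ) ^ (1 / 100 : ℝ) < p ∧ p ^ 2 ∣ n), rw1 n := ⟨_, rfl⟩
  obtain ⟨T1, hT1⟩ : ∃ T1, T1 = sm S (CF d (P1r d r (1 / 100) a (a + h)) rw1) g := ⟨_, rfl⟩
  rw [← hL] at hlog
  rw [← hW1] at hω4
  rw [← hW2] at hω2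
  rw [← hE1] at hE
  rw [← hL, ← hW1, ← hW2] at hw
  rw [hφ, ← hT1]
  have hw2 : 1 / (d.totient : ℝ) * ((d.totient : ℝ) / d * L * W1 - (d : ℝ) ^ (-κ'') * W2) ≤
      T1 + (S.card : ℝ) / (d.totient : ℝ) * E1 := by
    refine hw.trans (add_le_add ?_ (le_of_eq ?_))
    · rw [hT1]
      refine sm_mono S _ _ (fun x => CF_mono d _ _ (fun n hn => ?_) x) g
      obtain ⟨e0, e3, e4, e5⟩ := SvTI_mem _ _ _ n hn
      obtain ⟨e1, e2⟩ := Finset.mem_Ioc.1 e0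
      unfold P1r
      rw [Finset.mem_filter, Finset.mem_Icc]
      exact ⟨⟨by omega, e2⟩, Nat.lt_of_floor_lt e1, e3, e4, e5⟩
    · rw [hE1]
  have m1 : (d.totient : ℝ) / d * L * W1 - (d : ℝ) ^ (-κ'') * W2 ≤
      (d.totient : ℝ) * T1 + (S.card : ℝ) * E1 := by
    have m2 := mul_le_mul_of_nonneg_left hw2 hφ0.le
    have m3 : (d.totient : ℝ) * (1 / (d.totient : ℝ) *
        ((d.totient : ℝ) / d * L * W1 - (d : ℝ) ^ (-κ'') * W2)) =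
        (d.totient : ℝ) / d * L * W1 - (d : ℝ) ^ (-κ'') * W2 := by
      rw [← mul_assoc, mul_one_div_cancel hφ0.ne', one_mul]
    have m4 : (d.totient : ℝ) * (T1 + (S.card : ℝ) / (d.totient : ℝ) * E1) =
        (d.totient : ℝ) * T1 + (S.card : ℝ) * E1 := by
      field_simp
    rw [m3, m4] at m2
    exact m2
  have m5 : 3 / 4 * c' * h ≤ (d.totient : ℝ) / d * L * W1 := by
    have m6 : 0 ≤ c' * ((d : ℝ) / d.totient) / Real.log d := by positivity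
    have m7 : (0 : ℝ) ≤ (d.totient : ℝ) / d := by positivity
    calc 3 / 4 * c' * h = (d.totient : ℝ) / d * (3 / 4 * h * Real.log d) *
          (c' * ((d : ℝ) / d.totient) / Real.log d) := by
          field_simp
      _ ≤ (d.totient : ℝ) / d * L * (c' * ((d : ℝ) / d.totient) / Real.log d) :=
          mul_le_mul_of_nonneg_right (mul_le_mul_of_nonneg_left hlog m7) m6
      _ ≤ (d.totient : ℝ) / d * L * W1 := by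
          refine mul_le_mul_of_nonneg_left hω4 (mul_nonneg m7 (le_trans ?_ hlog))
          positivity
  have m8 : (d : ℝ) ^ (-κ'') * W2 ≤ c' * h / 8 :=
    (mul_le_mul_of_nonneg_left hω2 (Real.rpow_nonneg hd0.le _)).trans k4
  have m9 : (S.card : ℝ) * E1 ≤ c' * h / 8 :=
    (mul_le_mul_of_nonneg_left hE (Nat.cast_nonneg _)).trans hE2
  have m10 : 0 < c' * h := by positivity
  linarith

end Pool.Agent.Lib.MP_42948a_nt.TS
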