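import Pool.Agent.Lib.MP_42948a_nt.TF.BR
import Pool.Agent.Lib.MP_42948a_nt.TS.SvTI

/-!
# The smoothed coverage by products of at most `r` primes, `r = 2, 3, 4`

With Burgess' bound for the modulus `d` from the exponent `th` on, the products of at most `r` primes `> d ^ al` in the window `(d ^ a, d ^ (a + h)]`
have the smoothed density `≥ c1` in every class, for `W_r th ≤ a ≤ 3/2`, `W_2 = 2.3526`, `W_3 = 1.598`, `W_4 = 1.3838`.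
-/

namespace Pool.Agent.Lib.MP_42948a_nt.TS

open Finset Pool.Agent.Lib.MP_42948a_nt.OA Pool.Agent.Lib.MP_42948a_nt.TQ Pool.Agent.Lib.MP_42948a_nt.PS Pool.Agent.Lib.MP_42948a_nt.TF

/-- coverage by the products of at most `r` primes -/
theorem cover_gen (r : ℕ) (th c0 al ρ a1 : ℝ) (hth : 1 / 4 ≤ th) (hc0 : 0 < c0) (hal1 : al ≤ 1 / 100)
    (hρ0 : 0 < ρ) (hρ1 : ρ < 1) (h20 : 1 / 20 ≤ ρ * a1) (h13 : th < (1 - ρ) * a1) (hk : 1 < 7 * (22 * (r : ℝ) - 3) / 165 * ρ) :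
    ∃ h0 : ℝ, 0 < h0 ∧ ∀ h : ℝ, 0 < h → h ≤ h0 →
    ∃ c1 : ℝ, 0 < c1 ∧ ∀ B : ℕ, ∃ d0 : ℕ, ∀ d : ℕ, d0 ≤ d → ∀ [NeZero d],
      (∀ χ : DirichletCharacter ℂ d, χ ≠ 1 → ∀ N : ℕ, (d : ℝ) ^ th ≤ (N : ℝ) → ‖∑ n ∈ Icc 1 N, χ (n : ZMod d)‖ ≤ (N : ℝ) * (d : ℝ) ^ (-c0)) →
      ∀ S : Finset (DirichletCharacter ℂ d), S.Nonempty → S.card ≤ B → ∀ a : ℝ, a1 ≤ a → a ≤ 3 / 2 → ∀ x : (ZMod d)ˣ,
        c1 ≤ ∑ i ∈ Icc 1 r, sm (kr S) (EW d al i a (a + h)) x := by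
  classical
  have ha1 : 0 < a1 := by
    by_contra h1
    have h2 : ρ * a1 ≤ 0 := mul_nonpos_of_nonneg_of_nonpos hρ0.le (not_lt.mp h1)
    linarith
  obtain ⟨h0, c, hh0, hc, hcov⟩ := coverage_r th c0 hth hc0 r ρ a1 (3 / 2) hρ0 hρ1 ha1 (by norm_num) h13
    (svr r ρ a1 (3 / 2) hρ0 hρ1.le h20 (by norm_num) hk)
  refine ⟨h0, hh0, fun h hh hh1 => ⟨c * h, by positivity, fun B => ?_⟩⟩
  obtain ⟨d0, hd0⟩ := hcov h hh hh1 B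
  refine ⟨max d0 2, fun d hd _ hBA S hS hSB a haa1 haa2 x => ?_⟩
  have hd1 : d0 ≤ d := le_trans (le_max_left _ _) hd
  have hd2 : 2 ≤ d := le_trans (le_max_right _ _) hd
  have hdr : (1 : ℝ) ≤ d := by exact_mod_cast (by omega : 1 ≤ d)
  have hdp : (0 : ℝ) < d := by linarith
  have key := hd0 d hd1 hBA S hS hSB a haa1 haa2 x
  refine key.trans ?_
  rw [← sm_kr]
  -- the set of the coverage lies in the union of the sets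
  have hsub : P1r d r (1 / 100) a (a + h) ⊆ (Icc 1 r).biUnion (fun i => EW d al i a (a + h)) := by
    intro n hn
    unfold P1r at hn
    rw [mem_filter, mem_Icc] at hn
    obtain ⟨⟨hn1, hn2⟩, hn3, hn4, hn5, hn6⟩ := hn
    have hr : Rough ⌊(d : ℝ) ^ al⌋₊ n := by
      refine ⟨hn5.1, fun q hq hqn => ?_⟩
      refine lt_of_le_of_lt ?_ (hn5.2 q hq hqn)
      exact Nat.floor_le_floor (Real.rpow_le_rpow_of_exponent_le hdr hal1)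
    have hfl : ⌊(d : ℝ) ^ a⌋₊ < n := (Nat.floor_lt (Real.rpow_nonneg hdp.le _)).2 hn3
    have hn7 : 1 < n := by
      have h1 : (1 : ℝ) ≤ (d : ℝ) ^ a := Real.one_le_rpow hdr (by linarith)
      have h2 : (1 : ℝ) < n := lt_of_le_of_lt h1 hn3
      exact_mod_cast h2
    have hn8 : ArithmeticFunction.cardFactors n ≠ 0 := by
      intro h0
      rw [ArithmeticFunction.cardFactors_eq_zero_iff_eq_zero_or_one] at h0
      omega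
    rw [mem_biUnion]
    refine ⟨ArithmeticFunction.cardFactors n, mem_Icc.mpr ⟨by omega, hn6⟩, ?_⟩
    unfold EW
    rw [mem_filter, mem_Ioc]
    exact ⟨⟨hfl, hn2⟩, hr, hn4, rfl⟩
  have hnn : ∀ n : ℕ, 0 ≤ 1 / (n : ℝ) * kr S (x * (ucl d n)⁻¹) := fun n =>
    mul_nonneg (by positivity) (mul_nonneg (Nat.cast_nonneg _) (EK.bt_nonneg S _))
  unfold sm
  refine (sum_le_sum_of_subset_of_nonneg hsub fun n _ _ => hnn n).trans ?_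
  rw [sum_biUnion]
  intro i _ j _ hij
  rw [Function.onFun, disjoint_left]
  intro n hn1 hn2
  unfold EW at hn1 hn2
  rw [mem_filter] at hn1 hn2
  exact hij (hn1.2.2.2.symm.trans hn2.2.2.2)

/-- coverage by the products of at most two primes -/
theorem cover_2 (th c0 al : ℝ) (hth : 1 / 4 ≤ th) (hc0 : 0 < c0) (hal1 : al ≤ 1 / 100) :
    ∃ h0 : ℝ, 0 < h0 ∧ ∀ h : ℝ, 0 < h → h ≤ h0 →
    ∃ c1 : ℝ, 0 < c1 ∧ ∀ B : ℕ, ∃ d0 : ℕ, ∀ d : ℕ, d0 ≤ d → ∀ [NeZero d],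
      (∀ χ : DirichletCharacter ℂ d, χ ≠ 1 → ∀ N : ℕ, (d : ℝ) ^ th ≤ (N : ℝ) → ‖∑ n ∈ Icc 1 N, χ (n : ZMod d)‖ ≤ (N : ℝ) * (d : ℝ) ^ (-c0)) →
      ∀ S : Finset (DirichletCharacter ℂ d), S.Nonempty → S.card ≤ B → ∀ a : ℝ, 23526 / 10000 * th ≤ a → a ≤ 3 / 2 → ∀ x : (ZMod d)ˣ,
        c1 ≤ ∑ i ∈ Icc 1 2, sm (kr S) (EW d al i a (a + h)) x :=
  cover_gen 2 th c0 al (57493 / 100000) (23526 / 10000 * th) hth hc0 hal1 (by norm_num) (by norm_num) (by linarith) (by linarith)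
    (by norm_num)

/-- coverage by the products of at most three primes -/
theorem cover_3 (th c0 al : ℝ) (hth : 1 / 4 ≤ th) (hc0 : 0 < c0) (hal1 : al ≤ 1 / 100) :
    ∃ h0 : ℝ, 0 < h0 ∧ ∀ h : ℝ, 0 < h → h ≤ h0 →
    ∃ c1 : ℝ, 0 < c1 ∧ ∀ B : ℕ, ∃ d0 : ℕ, ∀ d : ℕ, d0 ≤ d → ∀ [NeZero d],
      (∀ χ : DirichletCharacter ℂ d, χ ≠ 1 → ∀ N : ℕ, (d : ℝ) ^ th ≤ (N : ℝ) → ‖∑ n ∈ Icc 1 N, χ (n : ZMod d)‖ ≤ (N : ℝ) * (d : ℝ) ^ (-c0)) →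
      ∀ S : Finset (DirichletCharacter ℂ d), S.Nonempty → S.card ≤ B → ∀ a : ℝ, 1598 / 1000 * th ≤ a → a ≤ 3 / 2 → ∀ x : (ZMod d)ˣ,
        c1 ≤ ∑ i ∈ Icc 1 3, sm (kr S) (EW d al i a (a + h)) x :=
  cover_gen 3 th c0 al (3742 / 10000) (1598 / 1000 * th) hth hc0 hal1 (by norm_num) (by norm_num) (by linarith) (by linarith)
    (by norm_num)

/-- coverage by the products of at most four primes -/
theorem cover_4 (th c0 al : ℝ) (hth : 1 / 4 ≤ th) (hc0 : 0 < c0) (hal1 : al ≤ 1 / 100) :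
    ∃ h0 : ℝ, 0 < h0 ∧ ∀ h : ℝ, 0 < h → h ≤ h0 →
    ∃ c1 : ℝ, 0 < c1 ∧ ∀ B : ℕ, ∃ d0 : ℕ, ∀ d : ℕ, d0 ≤ d → ∀ [NeZero d],
      (∀ χ : DirichletCharacter ℂ d, χ ≠ 1 → ∀ N : ℕ, (d : ℝ) ^ th ≤ (N : ℝ) → ‖∑ n ∈ Icc 1 N, χ (n : ZMod d)‖ ≤ (N : ℝ) * (d : ℝ) ^ (-c0)) →
      ∀ S : Finset (DirichletCharacter ℂ d), S.Nonempty → S.card ≤ B → ∀ a : ℝ, 13838 / 10000 * th ≤ a → a ≤ 3 / 2 → ∀ x : (ZMod d)ˣ,
        c1 ≤ ∑ i ∈ Icc 1 4, sm (kr S) (EW d al i a (a + h)) x :=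
  cover_gen 4 th c0 al (27733 / 100000) (13838 / 10000 * th) hth hc0 hal1 (by norm_num) (by norm_num) (by linarith) (by linarith)
    (by norm_num)

end Pool.Agent.Lib.MP_42948a_nt.TS
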