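import Pool.Agent.Lib.MP_42948a_nt.TS.SvDefs
import Pool.Agent.Lib.MP_42948a_nt.SV.B2b

/-!
# Upper bound of `SD y d` for `d ≤ x ^ A`
-/

namespace Pool.Agent.Lib.MP_42948a_nt.TS

open Finset Pool.Agent.Lib.MP_42948a_nt.OA Pool.Agent.Lib.MP_42948a_nt.OM Pool.Agent.Lib.MP_42948a_nt.SV

open Pool.Agent.Lib.MP_2a816b_nt.BH in
theorem SD_upperA (A : ℕ) (δ : ℝ) (hδ : 0 < δ) : ∃ x0 : ℝ, 2 ≤ x0 ∧ ∀ x : ℝ, x0 ≤ x → ∀ d : ℕ, 1 ≤ d → (d : ℝ) ≤ x ^ A →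
    ∀ y : ℕ, 1 ≤ y → (y : ℝ) ≤ x → (d : ℝ) / d.totient * SD y d ≤ Real.log y + δ * Real.log x := by
  obtain ⟨B, hB⟩ : ∃ B : ℕ, B = A + 1 := ⟨_, rfl⟩
  have hB0 : (0 : ℝ) < B := by
    rw [hB]
    positivity
  obtain ⟨x0, hx0, h⟩ := SD_upper (δ / B) (by positivity)
  refine ⟨x0, hx0, fun x hx d hd hdx y hy hyx => ?_⟩
  have hx1 : 1 ≤ x := by linarith
  have h1 : x ≤ x ^ B := by
    rw [hB]
    exact le_self_pow₀ hx1 (by omega)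
  have h2 : (d : ℝ) ≤ (x ^ B) ^ 2 := by
    rw [← pow_mul]
    refine hdx.trans (pow_le_pow_right₀ hx1 ?_)
    omega
  have h3 := h (x ^ B) (hx.trans h1) d hd h2 y hy (hyx.trans h1)
  rw [Real.log_pow] at h3
  have h4 : δ / B * ((B : ℝ) * Real.log x) = δ * Real.log x := by
    field_simp
  rwa [h4] at h3

end Pool.Agent.Lib.MP_42948a_nt.TS
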