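import Pool.Agent.Lib.MP_42948a_nt.TS.SvDefs
import Pool.Agent.Lib.MP_42948a_nt.SV.D4
import Pool.Agent.Lib.MP_42948a_nt.SV.B7

/-!
# Mertens' third theorem with the constant `.5613`, and the lower bound of `Vd`

`γ ≤ H_n - log (n + 1/2)` (a decreasing sequence), with `n = 16`.
-/

namespace Pool.Agent.Lib.MP_42948a_nt.TS

open Finset Pool.Agent.Lib.MP_42948a_nt.OA Pool.Agent.Lib.MP_42948a_nt.OM Pool.Agent.Lib.MP_42948a_nt.SV

private theorem SvGa_log {y : ℝ} (h0 : 0 ≤ y) (h1 : y < 1) : 2 * y ≤ Real.log (1 + y) - Real.log (1 - y) := by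
  have h := Real.hasSum_log_sub_log_of_abs_lt_one (abs_lt.2 ⟨by linarith, h1⟩)
  have h2 := le_hasSum h 0 (fun k _ => by positivity)
  norm_num at h2
  exact h2

private noncomputable def SvGa_u (n : ℕ) : ℝ := ((harmonic n : ℚ) : ℝ) - Real.log ((n : ℝ) + 1 / 2)

private theorem SvGa_anti : Antitone SvGa_u := by
  refine antitone_nat_of_succ_le fun n => ?_
  unfold SvGa_u
  rw [harmonic_succ]
  push_cast
  have hn : (0 : ℝ) ≤ n := Nat.cast_nonneg n
  have hn1 : (0 : ℝ) < (n : ℝ) + 1 := by linarith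
  obtain ⟨y, hy⟩ : ∃ y : ℝ, y = 1 / (2 * ((n : ℝ) + 1)) := ⟨_, rfl⟩
  have hy0 : 0 ≤ y := by
    rw [hy]
    positivity
  have hy1 : y < 1 := by
    rw [hy, div_lt_one (by positivity)]
    linarith
  have h1 := SvGa_log hy0 hy1
  have e1 : (n : ℝ) + 1 + 1 / 2 = ((n : ℝ) + 1) * (1 + y) := by
    rw [hy]
    field_simp
  have e2 : (n : ℝ) + 1 / 2 = ((n : ℝ) + 1) * (1 - y) := by
    rw [hy]
    field_simp
    ring
  have e3 : ((n : ℝ) + 1)⁻¹ = 2 * y := by
    rw [hy]
    field_simp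
  rw [e1, e2, Real.log_mul hn1.ne' (by linarith), Real.log_mul hn1.ne' (by linarith), e3]
  linarith

private theorem SvGa_tendsto : Filter.Tendsto SvGa_u Filter.atTop (nhds Real.eulerMascheroniConstant) := by
  refine tendsto_of_tendsto_of_tendsto_of_le_of_le' Real.tendsto_harmonic_sub_log_add_one
    Real.tendsto_harmonic_sub_log ?_ ?_
  · refine Filter.Eventually.of_forall fun n => ?_
    unfold SvGa_u
    have hn : (0 : ℝ) ≤ n := Nat.cast_nonneg n
    have := Real.log_le_log (show 0 < (n : ℝ) + 1 / 2 by linarith) (show (n : ℝ) + 1 / 2 ≤ n + 1 by linarith)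
    linarith
  · filter_upwards [Filter.eventually_ge_atTop 1] with n hn
    unfold SvGa_u
    have hn : (1 : ℝ) ≤ n := by exact_mod_cast hn
    have := Real.log_le_log (show 0 < (n : ℝ) by linarith) (show (n : ℝ) ≤ n + 1 / 2 by linarith)
    linarith

private theorem SvGa_harm : (harmonic 16 : ℚ) < 338073 / 100000 := by
  decide +kernel

theorem gamma_le : Real.eulerMascheroniConstant < 57738 / 100000 := by
  have h1 := SvGa_anti.le_of_tendsto SvGa_tendsto 16
  unfold SvGa_u at h1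
  have h5 : ((harmonic 16 : ℚ) : ℝ) < 338073 / 100000 := by
    have h6 : ((harmonic 16 : ℚ) : ℝ) < ((338073 / 100000 : ℚ) : ℝ) := by
      exact_mod_cast SvGa_harm
    refine h6.trans_le ?_
    norm_num
  have h2 : Real.log (((16 : ℕ) : ℝ) + 1 / 2) = 4 * Real.log 2 + Real.log (1 + 1 / 32) := by
    have h3 : (((16 : ℕ) : ℝ) + 1 / 2) = 2 ^ 4 * (1 + 1 / 32) := by norm_num
    rw [h3, Real.log_mul (by norm_num) (by norm_num), Real.log_pow]
    norm_num
  have h3 := Real.le_log_one_add_of_nonneg (show (0 : ℝ) ≤ 1 / 32 by norm_num)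
  have h4 := Real.log_two_gt_d9
  rw [h2] at h1
  norm_num at h3
  linarith

theorem exp_gamma' : 5613 / 10000 < Real.exp (-Real.eulerMascheroniConstant) := by
  have h1 : Real.exp (57738 / 100000) ≤ 17815 / 10000 := by
    have h2 := Real.exp_bound' (x := 57738 / 100000) (by norm_num) (by norm_num) (n := 7) (by norm_num)
    refine h2.trans ?_
    simp only [Finset.sum_range_succ, Finset.sum_range_zero, Nat.factorial]
    norm_num
  have h3 : Real.exp (-(57738 / 100000)) < Real.exp (-Real.eulerMascheroniConstant) :=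
    Real.exp_lt_exp.2 (by linarith [gamma_le])
  refine lt_of_le_of_lt ?_ h3
  rw [Real.exp_neg]
  have h4 : ((17815 / 10000 : ℝ))⁻¹ ≤ (Real.exp (57738 / 100000))⁻¹ :=
    inv_anti₀ (Real.exp_pos _) h1
  refine le_trans ?_ h4
  norm_num

end Pool.Agent.Lib.MP_42948a_nt.TS
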