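import Pool.Agent.Lib.MP_42948a_nt.TS.SvG

/-!
# The pieces

`r = d/φ d`, `L = log x`, `x` the level. `piece1`: the primes of `(x^a, x^b]`, sifting limit `p ≥ x^a`, `(Xy x p + 1)^2 > x/p ≥ x^(1-b)`, so `Xy x p + 1 ≥ x^b'` if `b' ≤ (1-b)/2`, and
`r Gs ≥ L/U` by `gs_lowerA`. `piece2`: the same with the sifting limit `zy x + 1 ≥ x^(1/5)` and the factor `1 - 15/14 log p/log x`.
-/

namespace Pool.Agent.Lib.MP_42948a_nt.TS

open Finset Pool.Agent.Lib.MP_42948a_nt.OA Pool.Agent.Lib.MP_42948a_nt.OM Pool.Agent.Lib.MP_42948a_nt.SV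

private theorem TS_P_inv {r L U g p : ℝ} (hp : 0 < p) (hL : 0 < L) (hU : 0 < U) (hr : 0 < r)
    (h : L / U ≤ r * g) : 1 / (p * g) ≤ r / L * U * (1 / p) := by
  have h1 : 0 < r * g := lt_of_lt_of_le (div_pos hL hU) h
  have hg : 0 < g := by
    by_contra hg
    have h2 : r * g ≤ 0 := mul_nonpos_of_nonneg_of_nonpos hr.le (not_lt.mp hg)
    linarith
  rw [div_le_iff₀ hU] at h
  rw [div_le_iff₀ (mul_pos hp hg)]
  have h2 : r / L * U * (1 / p) * (p * g) = r * g * U / L := by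
    field_simp
  rw [h2, le_div_iff₀ hL]
  linarith

private theorem TS_P_Xy {x b b' : ℝ} (hx : 1 ≤ x) (hbb : b' ≤ (1 - b) / 2) {p : ℕ}
    (hp : 1 ≤ p) (hpb : (p : ℝ) ≤ x ^ b) : x ^ b' ≤ (Xy x p : ℝ) + 1 := by
  have hx0 : 0 < x := by linarith
  have h1 := lt_Xy (x := x) hp
  have h2 : x < x ^ b * ((Xy x p : ℝ) + 1) ^ 2 :=
    h1.trans_le (mul_le_mul_of_nonneg_right hpb (sq_nonneg _))
  have h3 : x ^ (1 - b) < ((Xy x p : ℝ) + 1) ^ 2 := by
    rw [Real.rpow_sub hx0, Real.rpow_one, div_lt_iff₀ (Real.rpow_pos_of_pos hx0 b)]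
    linarith
  have h4 : (x ^ b') ^ 2 ≤ x ^ (1 - b) := by
    rw [← Real.rpow_natCast, ← Real.rpow_mul hx0.le]
    exact Real.rpow_le_rpow_of_exponent_le hx (by push_cast; linarith)
  exact le_of_lt (lt_of_pow_lt_pow_left₀ 2 (by positivity) (h4.trans_lt h3))

/-- the logarithms, and Mertens' theorem between powers of `x` -/
private theorem TS_P_mert {C : ℝ}
    (hC : ∀ u v : ℝ, 2 ≤ u → u ≤ v →
      |∑ p ∈ Pri u v, 1 / (p : ℝ) - Real.log (Real.log v / Real.log u)| ≤ C / Real.log u)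
    {x a b : ℝ} (hx : 1 ≤ x) (ha : 0 < a) (hab : a ≤ b) (hL : Real.log 2 / a ≤ Real.log x) :
    ∑ p ∈ Pri (x ^ a) (x ^ b), 1 / (p : ℝ) ≤ Real.log (b / a) + C / (a * Real.log x) := by
  have hx0 : 0 < x := by linarith
  have hlog2 : 0 < Real.log 2 := Real.log_pos (by norm_num)
  have hLp : 0 < Real.log x := lt_of_lt_of_le (div_pos hlog2 ha) hL
  have h2 : (2 : ℝ) ≤ x ^ a := by
    rw [Real.rpow_def_of_pos hx0]
    calc (2 : ℝ) = Real.exp (Real.log 2) := (Real.exp_log (by norm_num)).symm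
      _ ≤ Real.exp (Real.log x * a) := Real.exp_le_exp.2 ((div_le_iff₀ ha).1 hL)
  have h3 : x ^ a ≤ x ^ b := Real.rpow_le_rpow_of_exponent_le hx hab
  have h4 := hC (x ^ a) (x ^ b) h2 h3
  rw [Real.log_rpow hx0, Real.log_rpow hx0, mul_div_mul_right b a hLp.ne'] at h4
  have h5 := (abs_le.1 h4).2
  linarith

theorem piece1 (A : ℕ) (a b b' U : ℝ) (ha : 1 / 20 ≤ a) (hab : a ≤ b) (hb : b ≤ 1 / 2) (hb' : 1 / 50 ≤ b')
    (hbb : b' ≤ (1 - b) / 2) (hU0 : 0 < U) (hU : 1 < U * Gam a b') (δ : ℝ) (hδ : 0 < δ) :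
    ∃ x0 : ℝ, 2 ≤ x0 ∧ ∀ x : ℝ, x0 ≤ x → ∀ d : ℕ, 1 ≤ d → (d : ℝ) ≤ x ^ A →
      ∑ p ∈ Prd d (x ^ a) (x ^ b), 1 / (p * Gs d p (Xy x p)) ≤
        (d : ℝ) / d.totient / Real.log x * (U * Real.log (b / a) + δ) := by
  obtain ⟨C, hC0, hC⟩ := mertA
  have hd1 : 0 < Gam a b' - 1 / U := by
    rw [sub_pos, div_lt_iff₀ hU0]
    linarith
  obtain ⟨x1, hx12, hx1⟩ := gs_lowerA A (Gam a b' - 1 / U) hd1
  have ha0 : 0 < a := by linarith
  refine ⟨max x1 (Real.exp (max (Real.log 2 / a) (U * (C / a) / δ))), hx12.trans (le_max_left _ _), ?_⟩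
  intro x hx d hd hdx
  have hxx1 : x1 ≤ x := (le_max_left _ _).trans hx
  have hx2 : 2 ≤ x := hx12.trans hxx1
  have hx0 : 0 < x := by linarith
  have hx11 : 1 ≤ x := by linarith
  have hLL : max (Real.log 2 / a) (U * (C / a) / δ) ≤ Real.log x :=
    (Real.le_log_iff_exp_le hx0).2 ((le_max_right _ _).trans hx)
  have hL1 : Real.log 2 / a ≤ Real.log x := (le_max_left _ _).trans hLL
  have hL2 : U * (C / a) / δ ≤ Real.log x := (le_max_right _ _).trans hLL
  have hLp : 0 < Real.log x := Real.log_pos (by linarith)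
  have hr := one_le_rd hd
  have hr0 : 0 < (d : ℝ) / d.totient := by linarith
  have hterm : ∀ p ∈ Prd d (x ^ a) (x ^ b), 1 / (p * Gs d p (Xy x p)) ≤
      (d : ℝ) / d.totient / Real.log x * U * (1 / (p : ℝ)) := by
    intro p hp
    rw [mem_Prd (Real.rpow_nonneg hx0.le a)] at hp
    obtain ⟨⟨hpp, hp1, hp2⟩, hpd⟩ := hp
    have hp0 : (0 : ℝ) < p := by exact_mod_cast hpp.pos
    have h1 := hx1 x hxx1 d hd hdx a b' (by linarith) (by linarith) hb' (by linarith) p (Xy x p)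
      hp1.le (TS_P_Xy hx11 hbb hpp.one_lt.le hp2)
    rw [sub_sub_cancel, mul_one_div] at h1
    exact TS_P_inv hp0 hLp hU0 hr0 h1
  have hsum1 : ∑ p ∈ Prd d (x ^ a) (x ^ b), 1 / (p : ℝ) ≤ ∑ p ∈ Pri (x ^ a) (x ^ b), 1 / (p : ℝ) := by
    refine sum_le_sum_of_subset_of_nonneg (filter_subset _ _) fun p _ _ => by positivity
  have hsum2 := TS_P_mert hC hx11 ha0 hab hL1
  have hfac : 0 ≤ (d : ℝ) / d.totient / Real.log x * U :=
    mul_nonneg (div_nonneg hr0.le hLp.le) hU0.le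
  calc ∑ p ∈ Prd d (x ^ a) (x ^ b), 1 / (p * Gs d p (Xy x p))
      ≤ ∑ p ∈ Prd d (x ^ a) (x ^ b), (d : ℝ) / d.totient / Real.log x * U * (1 / (p : ℝ)) :=
        sum_le_sum hterm
    _ = (d : ℝ) / d.totient / Real.log x * U * ∑ p ∈ Prd d (x ^ a) (x ^ b), 1 / (p : ℝ) := by
        rw [mul_sum]
    _ ≤ (d : ℝ) / d.totient / Real.log x * U * (Real.log (b / a) + C / (a * Real.log x)) :=
        mul_le_mul_of_nonneg_left (hsum1.trans hsum2) hfac
    _ = (d : ℝ) / d.totient / Real.log x * (U * Real.log (b / a) + U * (C / a) / Real.log x) := by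
        field_simp
    _ ≤ (d : ℝ) / d.totient / Real.log x * (U * Real.log (b / a) + δ) := by
        refine mul_le_mul_of_nonneg_left ?_ (div_nonneg hr0.le hLp.le)
        have h6 : U * (C / a) / Real.log x ≤ δ := by
          rw [div_le_iff₀ hLp]
          rw [div_le_iff₀ hδ] at hL2
          linarith
        linarith

theorem piece2 (A : ℕ) (a b b' U : ℝ) (ha : 1 / 5 ≤ a) (hab : a ≤ b) (hb : b ≤ 14 / 15) (hb' : 1 / 50 ≤ b')
    (hbb : b' ≤ (1 - b) / 2) (hU0 : 0 < U) (hU : 1 < U * Gam (1 / 5) b') (δ : ℝ) (hδ : 0 < δ) :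
    ∃ x0 : ℝ, 2 ≤ x0 ∧ ∀ x : ℝ, x0 ≤ x → ∀ d : ℕ, 1 ≤ d → (d : ℝ) ≤ x ^ A →
      ∑ p ∈ Prd d (x ^ a) (x ^ b), (1 - 15 / 14 * (Real.log p / Real.log x)) / (p * Gs d (zy x + 1) (Xy x p)) ≤
        (d : ℝ) / d.totient / Real.log x * (U * (Real.log (b / a) - 15 / 14 * (b - a)) + δ) := by
  obtain ⟨C, hC0, hC⟩ := mertA
  obtain ⟨C', hC0', hC'⟩ := mertB
  have hd1 : 0 < Gam (1 / 5) b' - 1 / U := by
    rw [sub_pos, div_lt_iff₀ hU0]
    linarith
  obtain ⟨x1, hx12, hx1⟩ := gs_lowerA A (Gam (1 / 5) b' - 1 / U) hd1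
  have ha0 : 0 < a := by linarith
  refine ⟨max x1 (Real.exp (max (Real.log 2 / a) (U * (C / a + 15 / 14 * C') / δ))),
    hx12.trans (le_max_left _ _), ?_⟩
  intro x hx d hd hdx
  have hxx1 : x1 ≤ x := (le_max_left _ _).trans hx
  have hx2 : 2 ≤ x := hx12.trans hxx1
  have hx0 : 0 < x := by linarith
  have hx11 : 1 ≤ x := by linarith
  have hLL : max (Real.log 2 / a) (U * (C / a + 15 / 14 * C') / δ) ≤ Real.log x :=
    (Real.le_log_iff_exp_le hx0).2 ((le_max_right _ _).trans hx)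
  have hL1 : Real.log 2 / a ≤ Real.log x := (le_max_left _ _).trans hLL
  have hL2 : U * (C / a + 15 / 14 * C') / δ ≤ Real.log x := (le_max_right _ _).trans hLL
  have hLp : 0 < Real.log x := Real.log_pos (by linarith)
  have hr := one_le_rd hd
  have hr0 : 0 < (d : ℝ) / d.totient := by linarith
  have hnn : ∀ p : ℕ, p.Prime → (p : ℝ) ≤ x ^ b → 0 ≤ 1 - 15 / 14 * (Real.log p / Real.log x) := by
    intro p hpp hp2
    have hp0 : (0 : ℝ) < p := by exact_mod_cast hpp.pos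
    have h1 : Real.log p ≤ b * Real.log x := by
      rw [← Real.log_rpow hx0]
      exact Real.log_le_log hp0 hp2
    have h2 : Real.log p / Real.log x ≤ b := (div_le_iff₀ hLp).2 h1
    linarith
  have hzx : x ^ (1 / 5 : ℝ) ≤ ((zy x + 1 : ℕ) : ℝ) := by
    push_cast
    exact (Nat.lt_floor_add_one _).le
  have hterm : ∀ p ∈ Prd d (x ^ a) (x ^ b),
      (1 - 15 / 14 * (Real.log p / Real.log x)) / (p * Gs d (zy x + 1) (Xy x p)) ≤
      (d : ℝ) / d.totient / Real.log x * U *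
        ((1 - 15 / 14 * (Real.log p / Real.log x)) * (1 / (p : ℝ))) := by
    intro p hp
    rw [mem_Prd (Real.rpow_nonneg hx0.le a)] at hp
    obtain ⟨⟨hpp, hp1, hp2⟩, hpd⟩ := hp
    have hp0 : (0 : ℝ) < p := by exact_mod_cast hpp.pos
    have h1 := hx1 x hxx1 d hd hdx (1 / 5) b' (by norm_num) (by norm_num) hb' (by linarith)
      (zy x + 1) (Xy x p) hzx (TS_P_Xy hx11 hbb hpp.one_lt.le hp2)
    rw [sub_sub_cancel, mul_one_div] at h1
    have h2 := TS_P_inv hp0 hLp hU0 hr0 h1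
    have h3 := mul_le_mul_of_nonneg_left h2 (hnn p hpp hp2)
    calc (1 - 15 / 14 * (Real.log p / Real.log x)) / (p * Gs d (zy x + 1) (Xy x p))
        = (1 - 15 / 14 * (Real.log p / Real.log x)) * (1 / (p * Gs d (zy x + 1) (Xy x p))) := by
          rw [mul_one_div]
      _ ≤ (1 - 15 / 14 * (Real.log p / Real.log x)) *
          ((d : ℝ) / d.totient / Real.log x * U * (1 / (p : ℝ))) := h3
      _ = _ := by ring
  have hsum1 : ∑ p ∈ Prd d (x ^ a) (x ^ b),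
        (1 - 15 / 14 * (Real.log p / Real.log x)) * (1 / (p : ℝ)) ≤
      ∑ p ∈ Pri (x ^ a) (x ^ b), (1 - 15 / 14 * (Real.log p / Real.log x)) * (1 / (p : ℝ)) := by
    refine sum_le_sum_of_subset_of_nonneg (filter_subset _ _) fun p hp _ => ?_
    rw [mem_Pri (Real.rpow_nonneg hx0.le a)] at hp
    exact mul_nonneg (hnn p hp.1 hp.2.2) (by positivity)
  have hsum2 := TS_P_mert hC hx11 ha0 hab hL1
  have h1a : (1 : ℝ) ≤ x ^ a := Real.one_le_rpow hx11 ha0.le
  have hsum3 := (abs_le.1 (hC' (x ^ a) (x ^ b) h1a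
    (Real.rpow_le_rpow_of_exponent_le hx11 hab))).1
  rw [Real.log_rpow hx0, Real.log_rpow hx0] at hsum3
  have hsplit : ∑ p ∈ Pri (x ^ a) (x ^ b), (1 - 15 / 14 * (Real.log p / Real.log x)) * (1 / (p : ℝ))
      = ∑ p ∈ Pri (x ^ a) (x ^ b), 1 / (p : ℝ) -
        15 / 14 / Real.log x * ∑ p ∈ Pri (x ^ a) (x ^ b), Real.log p / p := by
    rw [mul_sum, ← sum_sub_distrib]
    refine sum_congr rfl fun p _ => ?_
    ring
  have hsum4 : ∑ p ∈ Pri (x ^ a) (x ^ b), (1 - 15 / 14 * (Real.log p / Real.log x)) * (1 / (p : ℝ))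
      ≤ Real.log (b / a) - 15 / 14 * (b - a) + (C / a + 15 / 14 * C') / Real.log x := by
    rw [hsplit]
    have h5 : 15 / 14 / Real.log x * (b * Real.log x - a * Real.log x - C') ≤
        15 / 14 / Real.log x * ∑ p ∈ Pri (x ^ a) (x ^ b), Real.log p / p := by
      refine mul_le_mul_of_nonneg_left (by linarith) (by positivity)
    have h6 : 15 / 14 / Real.log x * (b * Real.log x - a * Real.log x - C') =
        15 / 14 * (b - a) - 15 / 14 * C' / Real.log x := by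
      field_simp
    have h7 : (C / a + 15 / 14 * C') / Real.log x = C / (a * Real.log x) +
        15 / 14 * C' / Real.log x := by
      rw [add_div, div_div]
    rw [h7]
    linarith
  have hfac : 0 ≤ (d : ℝ) / d.totient / Real.log x * U :=
    mul_nonneg (div_nonneg hr0.le hLp.le) hU0.le
  calc ∑ p ∈ Prd d (x ^ a) (x ^ b),
        (1 - 15 / 14 * (Real.log p / Real.log x)) / (p * Gs d (zy x + 1) (Xy x p))
      ≤ ∑ p ∈ Prd d (x ^ a) (x ^ b), (d : ℝ) / d.totient / Real.log x * U *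
        ((1 - 15 / 14 * (Real.log p / Real.log x)) * (1 / (p : ℝ))) := sum_le_sum hterm
    _ = (d : ℝ) / d.totient / Real.log x * U * ∑ p ∈ Prd d (x ^ a) (x ^ b),
        ((1 - 15 / 14 * (Real.log p / Real.log x)) * (1 / (p : ℝ))) := by
        rw [mul_sum]
    _ ≤ (d : ℝ) / d.totient / Real.log x * U *
        (Real.log (b / a) - 15 / 14 * (b - a) + (C / a + 15 / 14 * C') / Real.log x) :=
        mul_le_mul_of_nonneg_left (hsum1.trans hsum4) hfac
    _ = (d : ℝ) / d.totient / Real.log x * (U * (Real.log (b / a) - 15 / 14 * (b - a)) +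
        U * (C / a + 15 / 14 * C') / Real.log x) := by
        ring
    _ ≤ (d : ℝ) / d.totient / Real.log x * (U * (Real.log (b / a) - 15 / 14 * (b - a)) + δ) := by
        refine mul_le_mul_of_nonneg_left ?_ (div_nonneg hr0.le hLp.le)
        have h6 : U * (C / a + 15 / 14 * C') / Real.log x ≤ δ := by
          rw [div_le_iff₀ hLp]
          rw [div_le_iff₀ hδ] at hL2
          linarith
        linarith

end Pool.Agent.Lib.MP_42948a_nt.TS
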