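import Pool.Agent.Lib.MP_42948a_nt.TS.SvP

/-!
# Gluing the pieces
-/

namespace Pool.Agent.Lib.MP_42948a_nt.TS

open Finset Pool.Agent.Lib.MP_42948a_nt.OA Pool.Agent.Lib.MP_42948a_nt.OM Pool.Agent.Lib.MP_42948a_nt.SV

/-- the sum of `f` over the primes of `(x^a, x^b]` not dividing `d` is at most `T (d/φ d)/log x`, uniformly for `d ≤ x^A` -/
def QP (A : ℕ) (f : ℝ → ℕ → ℕ → ℝ) (a b T : ℝ) : Prop :=
  ∃ x0 : ℝ, 2 ≤ x0 ∧ ∀ x : ℝ, x0 ≤ x → ∀ d : ℕ, 1 ≤ d → (d : ℝ) ≤ x ^ A →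
    ∑ p ∈ Prd d (x ^ a) (x ^ b), f x d p ≤ (d : ℝ) / d.totient / Real.log x * T

theorem QP_glue {A : ℕ} {f : ℝ → ℕ → ℕ → ℝ} {a b c T T' : ℝ} (hab : a ≤ b) (hbc : b ≤ c)
    (h1 : QP A f a b T) (h2 : QP A f b c T') : QP A f a c (T + T') := by
  obtain ⟨x1, hx1, h1⟩ := h1
  obtain ⟨x2, hx2, h2⟩ := h2
  refine ⟨max x1 x2, hx1.trans (le_max_left _ _), fun x hx d hd hdx => ?_⟩
  have g1 := h1 x ((le_max_left _ _).trans hx) d hd hdx
  have g2 := h2 x ((le_max_right _ _).trans hx) d hd hdx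
  have hx0 : 1 ≤ x := by
    have := (le_max_left x1 x2).trans hx
    linarith
  have p0 : 0 ≤ x ^ a := Real.rpow_nonneg (by linarith) a
  have p1 : 0 ≤ x ^ b := Real.rpow_nonneg (by linarith) b
  have q1 : x ^ a ≤ x ^ b := Real.rpow_le_rpow_of_exponent_le hx0 hab
  have q2 : x ^ b ≤ x ^ c := Real.rpow_le_rpow_of_exponent_le hx0 hbc
  have e : Prd d (x ^ a) (x ^ c) = Prd d (x ^ a) (x ^ b) ∪ Prd d (x ^ b) (x ^ c) := by
    ext p
    rw [mem_union, mem_Prd p0, mem_Prd p0, mem_Prd p1]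
    constructor
    · rintro ⟨⟨h3, h4, h5⟩, h6⟩
      rcases le_or_gt (p : ℝ) (x ^ b) with h7 | h7
      · exact Or.inl ⟨⟨h3, h4, h7⟩, h6⟩
      · exact Or.inr ⟨⟨h3, h7, h5⟩, h6⟩
    · rintro (⟨⟨h3, h4, h5⟩, h6⟩ | ⟨⟨h3, h4, h5⟩, h6⟩)
      · exact ⟨⟨h3, h4, h5.trans q2⟩, h6⟩
      · exact ⟨⟨h3, q1.trans_lt h4, h5⟩, h6⟩
  have hd : Disjoint (Prd d (x ^ a) (x ^ b)) (Prd d (x ^ b) (x ^ c)) := by
    rw [Finset.disjoint_left]
    intro p h3 h4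
    rw [mem_Prd p0] at h3
    rw [mem_Prd p1] at h4
    linarith [h3.1.2.2, h4.1.2.1]
  rw [e, sum_union hd, mul_add]
  exact add_le_add g1 g2

theorem QP_log (q r : ℝ) (n : ℕ) (hq : 0 < q) (hr : 0 ≤ r) (h : q ≤ ∑ i ∈ range n, r ^ i / (i.factorial : ℝ)) :
    Real.log q ≤ r := by
  rw [Real.log_le_iff_le_exp hq]
  exact h.trans (Real.sum_le_exp_of_nonneg hr n)

/-- the summand of the first region -/
noncomputable def f1 (x : ℝ) (d p : ℕ) : ℝ := 1 / (p * Gs d p (Xy x p))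

/-- the summand of the second region -/
noncomputable def f2 (x : ℝ) (d p : ℕ) : ℝ :=
  (1 - 15 / 14 * (Real.log p / Real.log x)) / (p * Gs d (zy x + 1) (Xy x p))

theorem QP_step1 (A : ℕ) (a b b' U r L T : ℝ) (ha : 1 / 20 ≤ a) (hab : a ≤ b) (hb : b ≤ 1 / 2) (hb' : 1 / 50 ≤ b')
    (hbb : b' ≤ (1 - b) / 2) (hU0 : 0 < U) (hlt : a < b') (hr0 : 0 ≤ r)
    (hr : b' / a ≤ ∑ i ∈ range 9, r ^ i / (i.factorial : ℝ)) (hU : 1 < U * (2 * b' - b' * r - a)) (hL0 : 0 ≤ L)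
    (hL : b / a ≤ ∑ i ∈ range 4, L ^ i / (i.factorial : ℝ)) (hT : U * L + 1 / 100000 ≤ T) :
    QP A f1 a b T := by
  have ha0 : 0 < a := by linarith
  have hb0 : 0 < b' := by linarith
  have h1 : Real.log (b' / a) ≤ r := QP_log _ _ 9 (div_pos hb0 ha0) hr0 hr
  have h2 : Real.log (b / a) ≤ L := QP_log _ _ 4 (div_pos (by linarith) ha0) hL0 hL
  have h3 : 1 < U * Gam a b' := by
    unfold Gam
    rw [if_neg (not_le.mpr hlt)]
    refine hU.trans_le (mul_le_mul_of_nonneg_left ?_ hU0.le)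
    have := mul_le_mul_of_nonneg_left h1 hb0.le
    linarith
  obtain ⟨x0, hx0, h⟩ := piece1 A a b b' U ha hab hb hb' hbb hU0 h3 (1 / 100000) (by norm_num)
  refine ⟨x0, hx0, fun x hx d hd hdx => ?_⟩
  refine (h x hx d hd hdx).trans (mul_le_mul_of_nonneg_left ?_ ?_)
  · have := mul_le_mul_of_nonneg_left h2 hU0.le
    linarith
  · have h4 : 0 ≤ Real.log x := Real.log_nonneg (by linarith)
    positivity

theorem QP_step2 (A : ℕ) (a b b' U L T : ℝ) (ha : 1 / 5 ≤ a) (hab : a ≤ b) (hb : b ≤ 14 / 15) (hb' : 1 / 50 ≤ b')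
    (hbb : b' ≤ (1 - b) / 2) (hU0 : 0 < U) (hG : 1 < U * Gam (1 / 5) b') (hL0 : 0 ≤ L)
    (hL : b / a ≤ ∑ i ∈ range 5, L ^ i / (i.factorial : ℝ)) (hT : U * (L - 15 / 14 * (b - a)) + 1 / 100000 ≤ T) :
    QP A f2 a b T := by
  have ha0 : 0 < a := by linarith
  have h2 : Real.log (b / a) ≤ L := QP_log _ _ 5 (div_pos (by linarith) ha0) hL0 hL
  obtain ⟨x0, hx0, h⟩ := piece2 A a b b' U ha hab hb hb' hbb hU0 hG (1 / 100000) (by norm_num)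
  refine ⟨x0, hx0, fun x hx d hd hdx => ?_⟩
  refine (h x hx d hd hdx).trans (mul_le_mul_of_nonneg_left ?_ ?_)
  · have := mul_le_mul_of_nonneg_left h2 hU0.le
    linarith
  · have h4 : 0 ≤ Real.log x := Real.log_nonneg (by linarith)
    positivity

theorem QP_G1 (b' U r : ℝ) (hU0 : 0 < U) (hlt : 1 / 5 < b') (hr0 : 0 ≤ r)
    (hr : b' / (1 / 5) ≤ ∑ i ∈ range 8, r ^ i / (i.factorial : ℝ)) (hU : 1 < U * (2 * b' - b' * r - 1 / 5)) :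
    1 < U * Gam (1 / 5) b' := by
  have hb0 : 0 < b' := by linarith
  have h1 : Real.log (b' / (1 / 5)) ≤ r := QP_log _ _ 8 (div_pos hb0 (by norm_num)) hr0 hr
  unfold Gam
  rw [if_neg (not_le.mpr hlt)]
  refine hU.trans_le (mul_le_mul_of_nonneg_left ?_ hU0.le)
  have := mul_le_mul_of_nonneg_left h1 hb0.le
  linarith

theorem QP_G2 (b' U : ℝ) (hlt : b' ≤ 1 / 5) (hU : 1 < U * b') : 1 < U * Gam (1 / 5) b' := by
  unfold Gam
  rw [if_pos hlt]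
  exact hU

theorem QP_log0 {x : ℝ} (hx : 2 ≤ x) (d : ℕ) : 0 ≤ (d : ℝ) / d.totient / Real.log x := by
  have h4 : 0 ≤ Real.log x := Real.log_nonneg (by linarith)
  positivity

theorem QP_mono {A : ℕ} {f : ℝ → ℕ → ℕ → ℝ} {a b T T' : ℝ} (h : QP A f a b T) (hT : T ≤ T') : QP A f a b T' := by
  obtain ⟨x0, hx0, h⟩ := h
  exact ⟨x0, hx0, fun x hx d hd hdx => (h x hx d hd hdx).trans
    (mul_le_mul_of_nonneg_left hT (QP_log0 (hx0.trans hx) d))⟩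

end Pool.Agent.Lib.MP_42948a_nt.TS
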