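import Pool.Agent.Lib.MP_42948a_nt.TS.SvGa

/-!
# Lower bound of `Vd` for `d ≤ x ^ A`, at `x ^ (3/25)`
-/

namespace Pool.Agent.Lib.MP_42948a_nt.TS

open Finset Pool.Agent.Lib.MP_42948a_nt.OA Pool.Agent.Lib.MP_42948a_nt.OM Pool.Agent.Lib.MP_42948a_nt.SV

theorem mertens3' : ∃ z0 : ℕ, 2 ≤ z0 ∧ ∀ z : ℕ, z0 ≤ z → 5613 / 10000 / Real.log z ≤ ∏ p ∈ PP z, (1 - 1 / (p : ℝ)) := by
  obtain ⟨c, C, hC, h⟩ := Al_asymp
  have hc := c_le c C hC h
  have hg := exp_gamma'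
  obtain ⟨δ, hδ⟩ : ∃ δ : ℝ, δ = -Real.eulerMascheroniConstant - Real.log (5613 / 10000) := ⟨_, rfl⟩
  have hδ0 : 0 < δ := by
    have h1 : Real.log (5613 / 10000) < -Real.eulerMascheroniConstant := by
      rw [Real.log_lt_iff_lt_exp (by norm_num)]
      exact hg
    rw [hδ]
    linarith
  refine ⟨max 2 ⌈Real.exp (C / δ)⌉₊, le_max_left _ _, fun z hz => ?_⟩
  have hz2 : 2 ≤ z := (le_max_left _ _).trans hz
  have hz0 : (0 : ℝ) < z := by exact_mod_cast (by omega : 0 < z)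
  have hz1 : (1 : ℝ) < z := by exact_mod_cast (by omega : 1 < z)
  have hlz : 0 < Real.log z := Real.log_pos hz1
  have hzC : C / δ ≤ Real.log z := by
    rw [Real.le_log_iff_exp_le hz0]
    refine (Nat.le_ceil _).trans ?_
    exact_mod_cast (le_max_right 2 _).trans hz
  have hCz : C / Real.log z ≤ δ := by
    rw [div_le_iff₀ hlz]
    rw [div_le_iff₀ hδ0] at hzC
    linarith
  have h1 := (abs_le.1 (h z hz2)).2
  have hpos : ∀ p ∈ PP z, (0 : ℝ) < 1 - 1 / (p : ℝ) := by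
    intro p hp
    have hp' : p.Prime := (Finset.mem_filter.1 hp).2
    have hp2 : (2 : ℝ) ≤ p := by exact_mod_cast hp'.two_le
    have h2 : 1 / (p : ℝ) ≤ 1 / 2 := one_div_le_one_div_of_le (by norm_num) hp2
    linarith
  have h2 : ∏ p ∈ PP z, (1 - 1 / (p : ℝ)) = Real.exp (-Al z) := by
    unfold Al
    rw [← Finset.sum_neg_distrib, Real.exp_sum]
    refine Finset.prod_congr rfl fun p hp => ?_
    rw [neg_neg, Real.exp_log (hpos p hp)]
  have h3 : 5613 / 10000 / Real.log z =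
      Real.exp (Real.log (5613 / 10000) - Real.log (Real.log z)) := by
    rw [Real.exp_sub, Real.exp_log (by norm_num), Real.exp_log hlz]
  rw [h2, h3]
  refine Real.exp_le_exp.2 ?_
  linarith

private theorem SvV_log (B : ℝ) (hB : 0 < B) : ∃ x1 : ℝ, 2 ≤ x1 ∧ ∀ x : ℝ, x1 ≤ x →
    B * Real.log x / x ^ (3 / 25 : ℝ) ≤ 1 / 10000 := by
  have h := isLittleO_log_rpow_atTop (show (0 : ℝ) < 3 / 25 by norm_num)
  have h1 := h.def (show (0 : ℝ) < 1 / (10000 * B) by positivity)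
  obtain ⟨x1, hx1⟩ := Filter.eventually_atTop.mp h1
  refine ⟨max x1 2, le_max_right _ _, fun x hx => ?_⟩
  have h2 := hx1 x ((le_max_left _ _).trans hx)
  have hx2 : (2 : ℝ) ≤ x := (le_max_right _ _).trans hx
  have hp : 0 < x ^ (3 / 25 : ℝ) := Real.rpow_pos_of_pos (by linarith) _
  rw [Real.norm_eq_abs, Real.norm_eq_abs, abs_of_pos hp,
    abs_of_nonneg (Real.log_nonneg (by linarith))] at h2
  rw [div_le_iff₀ hp]
  have h3 := mul_le_mul_of_nonneg_left h2 hB.le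
  have h4 : B * (1 / (10000 * B) * x ^ (3 / 25 : ℝ)) = 1 / 10000 * x ^ (3 / 25 : ℝ) := by
    field_simp
  linarith

theorem Vd_lowerA (A : ℕ) : ∃ x0 : ℝ, 2 ≤ x0 ∧ ∀ x : ℝ, x0 ≤ x → ∀ d : ℕ, 1 ≤ d → (d : ℝ) ≤ x ^ A →
    5612 / 10000 * (25 / 3) * ((d : ℝ) / d.totient / Real.log x) ≤ Vd d (⌊x ^ (3 / 25 : ℝ)⌋₊ + 1) := by
  obtain ⟨z0, hz0, hm⟩ := mertens3'
  obtain ⟨x1, hx1, hlog⟩ := SvV_log (2 * A + 1) (by positivity)
  refine ⟨max x1 ((z0 : ℝ) ^ (25 / 3 : ℝ)), le_max_of_le_left hx1, fun x hx d hd hdx => ?_⟩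
  have hxx1 : x1 ≤ x := (le_max_left _ _).trans hx
  have hx2 : (2 : ℝ) ≤ x := hx1.trans hxx1
  have hx0 : (0 : ℝ) < x := by linarith
  have hL : 0 < Real.log x := Real.log_pos (by linarith)
  have hz : (z0 : ℝ) ≤ x ^ (3 / 25 : ℝ) := by
    have h1 : (z0 : ℝ) ^ (25 / 3 : ℝ) ≤ x := (le_max_right _ _).trans hx
    have h2 : ((z0 : ℝ) ^ (25 / 3 : ℝ)) ^ (3 / 25 : ℝ) ≤ x ^ (3 / 25 : ℝ) :=
      Real.rpow_le_rpow (Real.rpow_nonneg (Nat.cast_nonneg _) _) h1 (by norm_num)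
    rw [← Real.rpow_mul (Nat.cast_nonneg _)] at h2
    have h3 : (25 / 3 : ℝ) * (3 / 25) = 1 := by norm_num
    rw [h3, Real.rpow_one] at h2
    exact h2
  obtain ⟨z, hzdef⟩ : ∃ z, z = ⌊x ^ (3 / 25 : ℝ)⌋₊ := ⟨_, rfl⟩
  have hz1 : z0 ≤ z := by
    rw [hzdef]
    exact Nat.le_floor hz
  have hz2 : (2 : ℝ) ≤ (z : ℝ) := by exact_mod_cast hz0.trans hz1
  have hp : 0 < x ^ (3 / 25 : ℝ) := Real.rpow_pos_of_pos hx0 _
  have hzx : (z : ℝ) ≤ x ^ (3 / 25 : ℝ) := by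
    rw [hzdef]
    exact Nat.floor_le hp.le
  have hlz : Real.log z ≤ 3 / 25 * Real.log x := by
    have h1 := Real.log_le_log (by linarith) hzx
    rw [Real.log_rpow hx0] at h1
    linarith
  have hlz0 : 0 < Real.log z := Real.log_pos (by linarith)
  have hM : 5613 / 10000 * (25 / 3) / Real.log x ≤ ∏ p ∈ PP z, (1 - 1 / (p : ℝ)) := by
    refine le_trans ?_ (hm z hz1)
    rw [div_le_div_iff₀ hL hlz0]
    nlinarith
  have hV := Vd_lower_of hd (z + 1) (by omega)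
  rw [Nat.add_sub_cancel] at hV
  rw [← hzdef]
  have hF : 9999 / 10000 ≤ 1 - Real.log d / Real.log 2 / ((z + 1 : ℕ) : ℝ) := by
    have h1 : x ^ (3 / 25 : ℝ) ≤ ((z + 1 : ℕ) : ℝ) := by
      rw [hzdef]
      push_cast
      exact (Nat.lt_floor_add_one _).le
    have hd0 : (0 : ℝ) < d := by exact_mod_cast hd
    have hd1 : (1 : ℝ) ≤ d := by exact_mod_cast hd
    have h2 : Real.log d ≤ A * Real.log x := by
      have h3 := Real.log_le_log hd0 hdx
      rw [Real.log_pow] at h3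
      exact h3
    have h3 : Real.log d / Real.log 2 ≤ (2 * A + 1) * Real.log x := by
      have h4 := Real.log_two_gt_d9
      rw [div_le_iff₀ (Real.log_pos (by norm_num))]
      have hA0 : (0 : ℝ) ≤ A := Nat.cast_nonneg A
      have h5 : (2 * (A : ℝ) + 1) * Real.log x * (1 / 2) ≤ (2 * (A : ℝ) + 1) * Real.log x * Real.log 2 :=
        mul_le_mul_of_nonneg_left (by linarith) (by positivity)
      have h6 : (2 * (A : ℝ) + 1) * Real.log x * (1 / 2) = A * Real.log x + Real.log x / 2 := by ring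
      linarith
    have h4 : Real.log d / Real.log 2 / ((z + 1 : ℕ) : ℝ) ≤ (2 * A + 1) * Real.log x / x ^ (3 / 25 : ℝ) :=
      div_le_div₀ (by positivity) h3 hp h1
    have h5 := hlog x hxx1
    linarith
  have hA : (0 : ℝ) ≤ (d : ℝ) / d.totient := by positivity
  have hM0 : (0 : ℝ) ≤ 5613 / 10000 * (25 / 3) / Real.log x := by positivity
  refine le_trans ?_ hV
  have e1 : (d : ℝ) / d.totient * (5613 / 10000 * (25 / 3) / Real.log x) ≤
      (d : ℝ) / d.totient * ∏ p ∈ PP z, (1 - 1 / (p : ℝ)) := mul_le_mul_of_nonneg_left hM hA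
  have e2 : (d : ℝ) / d.totient * (5613 / 10000 * (25 / 3) / Real.log x) * (9999 / 10000) ≤
      (d : ℝ) / d.totient * (∏ p ∈ PP z, (1 - 1 / (p : ℝ))) *
        (1 - Real.log d / Real.log 2 / ((z + 1 : ℕ) : ℝ)) :=
    mul_le_mul e1 hF (by norm_num) ((mul_nonneg hA hM0).trans e1)
  refine le_trans ?_ e2
  have e3 : 0 ≤ (d : ℝ) / d.totient / Real.log x := by positivity
  have e4 : (d : ℝ) / d.totient * (5613 / 10000 * (25 / 3) / Real.log x) * (9999 / 10000) =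
      5613 / 10000 * (25 / 3) * (9999 / 10000) * ((d : ℝ) / d.totient / Real.log x) := by ring
  rw [e4]
  exact mul_le_mul_of_nonneg_right (by norm_num) e3

end Pool.Agent.Lib.MP_42948a_nt.TS
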