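import Pool.Agent.Lib.MP_42948a_nt.TS.EU3

/-!
# The Dirichlet polynomial and the tail
-/

namespace Pool.Agent.Lib.MP_42948a_nt.TS

open Filter Finset MeasureTheory

/-- the Dirichlet polynomial -/
noncomputable def PD {N : ℕ} (χ : DirichletCharacter ℂ N) (N0 : ℕ) (L : ℝ) (s : ℂ) : ℂ :=
  ∑ n ∈ Icc 1 N0, χ (n : ZMod N) * (n : ℂ) ^ (-(1 + s / L))

theorem PD_differentiable {N : ℕ} (χ : DirichletCharacter ℂ N) (N0 : ℕ) (L : ℝ) : Differentiable ℂ (PD χ N0 L) := by
  unfold PD
  refine Differentiable.fun_sum fun n hn => ?_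
  have hn0 : (n : ℂ) ≠ 0 := by
    have := (mem_Icc.mp hn).1
    exact_mod_cast (by omega : n ≠ 0)
  refine Differentiable.const_mul ?_ _
  intro s
  refine DifferentiableAt.const_cpow ?_ (Or.inl hn0)
  fun_prop

/-- trivial bound -/
theorem PD_bound {N : ℕ} (χ : DirichletCharacter ℂ N) (N0 : ℕ) (L : ℝ) (hL : 0 < L) (s : ℂ) :
    ‖PD χ N0 L s‖ ≤ (1 + Real.log N0) * Real.exp (max 0 (-s.re) * (Real.log N0 / L)) := by
  rcases Nat.eq_zero_or_pos N0 with h0 | h0
  · subst h0
    unfold PD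
    simp
  unfold PD
  refine (norm_sum_le _ _).trans ?_
  have h1 : ∀ n ∈ Icc 1 N0, ‖χ (n : ZMod N) * (n : ℂ) ^ (-(1 + s / L))‖ ≤ Real.exp (max 0 (-s.re) * (Real.log N0 / L)) * ((n : ℝ))⁻¹ := by
    intro n hn
    have hn1 := (mem_Icc.mp hn).1
    have hn2 := (mem_Icc.mp hn).2
    have hn0 : (0 : ℝ) < n := by exact_mod_cast (by omega : 0 < n)
    rw [norm_mul, Complex.norm_natCast_cpow_of_pos (by omega)]
    have h2 : (-(1 + s / (L : ℂ))).re = -(1 + s.re / L) := by simp
    rw [h2]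
    have h3 : (n : ℝ) ^ (-(1 + s.re / L)) ≤ Real.exp (max 0 (-s.re) * (Real.log N0 / L)) * ((n : ℝ))⁻¹ := by
      have h4 : ((n : ℝ))⁻¹ = Real.exp (-Real.log n) := by rw [Real.exp_neg, Real.exp_log hn0]
      rw [Real.rpow_def_of_pos hn0, h4, ← Real.exp_add]
      refine Real.exp_le_exp.mpr ?_
      have h5 : 0 ≤ Real.log n := Real.log_nonneg (by exact_mod_cast hn1)
      have h6 : Real.log n ≤ Real.log N0 := Real.log_le_log hn0 (by exact_mod_cast hn2)
      have h7 : -s.re * (Real.log n / L) ≤ max 0 (-s.re) * (Real.log N0 / L) := by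
        calc -s.re * (Real.log n / L) ≤ max 0 (-s.re) * (Real.log n / L) :=
              mul_le_mul_of_nonneg_right (le_max_right _ _) (div_nonneg h5 hL.le)
          _ ≤ _ := mul_le_mul_of_nonneg_left (div_le_div_of_nonneg_right h6 hL.le) (le_max_left _ _)
      have h8 : Real.log n * (-(1 + s.re / L)) = -s.re * (Real.log n / L) + -Real.log n := by ring
      rw [h8]
      linarith
    calc ‖χ (n : ZMod N)‖ * (n : ℝ) ^ (-(1 + s.re / L)) ≤ 1 * (n : ℝ) ^ (-(1 + s.re / L)) :=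
          mul_le_mul_of_nonneg_right (DirichletCharacter.norm_le_one χ _) (Real.rpow_nonneg hn0.le _)
      _ ≤ _ := by rw [one_mul]; exact h3
  refine (sum_le_sum h1).trans ?_
  rw [← mul_sum, mul_comm]
  refine mul_le_mul_of_nonneg_right ?_ (Real.exp_pos _).le
  have h2 := harmonic_le_one_add_log N0
  have h3 : ((harmonic N0 : ℚ) : ℝ) = ∑ n ∈ Icc 1 N0, ((n : ℝ))⁻¹ := by
    rw [harmonic_eq_sum_Icc]
    push_cast
    rfl
  rw [← h3]
  exact h2

/-- the tail of the `L`-series -/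
theorem tail_bound {N : ℕ} (χ : DirichletCharacter ℂ N) (N0 : ℕ) (E : ℝ)
    (hB : ∀ n : ℕ, N0 ≤ n → ‖∑ k ∈ Icc 1 n, χ (k : ZMod N)‖ ≤ n * E) (L : ℝ) (hL : 1 ≤ L) (s : ℂ) (hs : 0 < s.re) :
    ‖LSeries (fun n => χ (n : ZMod N)) (1 + s / L) - PD χ N0 L s‖ ≤ 2 * (1 + ‖s‖) * E * L / s.re := by
  have hLp : 0 < L := by linarith
  set w : ℂ := 1 + s / L with hw
  have hwre : w.re = 1 + s.re / L := by rw [hw]; simp
  have hw1 : 1 < w.re := by
    rw [hwre]
    have := div_pos hs hLp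
    linarith
  have hE : 0 ≤ E := by
    by_contra h
    push Not at h
    have h1 := hB (N0 + 1) (by omega)
    have h2 : ((N0 + 1 : ℕ) : ℝ) * E < 0 := mul_neg_of_pos_of_neg (by positivity) h
    have h3 := norm_nonneg (∑ k ∈ Icc 1 (N0 + 1), χ (k : ZMod N))
    linarith
  set f : ℕ → ℂ := fun n => if N0 < n then χ (n : ZMod N) else 0 with hf
  set g : ℕ → ℂ := fun n => if N0 < n then 0 else χ (n : ZMod N) with hg
  have hfn : ∀ n, ‖f n‖ ≤ 1 := by
    intro n
    rw [hf]
    dsimp only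
    split_ifs
    · exact DirichletCharacter.norm_le_one χ _
    · simp
  have hgn : ∀ n, ‖g n‖ ≤ 1 := by
    intro n
    rw [hg]
    dsimp only
    split_ifs
    · simp
    · exact DirichletCharacter.norm_le_one χ _
  have hSf : LSeriesSummable f w := LSeriesSummable_of_bounded_of_one_lt_re (m := 1) (fun n _ => hfn n) hw1
  have hSg : LSeriesSummable g w := LSeriesSummable_of_bounded_of_one_lt_re (m := 1) (fun n _ => hgn n) hw1
  have hfg : (fun n : ℕ => χ (n : ZMod N)) = f + g := by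
    funext n
    rw [hf, hg]
    simp only [Pi.add_apply]
    split_ifs
    · rw [add_zero]
    · rw [zero_add]
  have hgP : LSeries g w = PD χ N0 L s := by
    unfold LSeries PD
    rw [tsum_eq_sum (s := Icc 1 N0)]
    · refine sum_congr rfl fun n hn => ?_
      have hn1 := (mem_Icc.mp hn).1
      have hn2 := (mem_Icc.mp hn).2
      rw [LSeries.term_of_ne_zero (by omega), hg]
      dsimp only
      rw [if_neg (by omega), div_eq_mul_inv, ← Complex.cpow_neg]
    · intro n hn
      rcases Nat.eq_zero_or_pos n with h0 | h0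
      · rw [h0, LSeries.term_zero]
      · rw [LSeries.term_of_ne_zero (by omega), hg]
        dsimp only
        rw [if_pos, zero_div]
        by_contra h1
        exact hn (mem_Icc.mpr ⟨h0, by omega⟩)
  rw [hfg, LSeries_add hSf hSg, hgP, add_sub_cancel_right]
  -- partial sums of `f`
  have hpart : ∀ n : ℕ, ‖∑ k ∈ Icc 1 n, f k‖ ≤ 2 * (n : ℝ) * E := by
    intro n
    rcases lt_or_ge N0 n with h1 | h1
    · have h2 : ∑ k ∈ Icc 1 n, f k = ∑ k ∈ Icc 1 n, χ (k : ZMod N) - ∑ k ∈ Icc 1 N0, χ (k : ZMod N) := by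
        have h3 : ∑ k ∈ Icc 1 n, χ (k : ZMod N) = ∑ k ∈ Icc 1 n, f k + ∑ k ∈ Icc 1 n, g k := by
          rw [← sum_add_distrib]
          refine sum_congr rfl fun k _ => ?_
          exact congrFun hfg k
        have h4 : ∑ k ∈ Icc 1 n, g k = ∑ k ∈ Icc 1 N0, χ (k : ZMod N) := by
          have h5 : Icc 1 N0 ⊆ Icc 1 n := Icc_subset_Icc_right h1.le
          rw [← sum_subset h5]
          · refine sum_congr rfl fun k hk => ?_
            rw [hg]
            dsimp only
            rw [if_neg (by have := (mem_Icc.mp hk).2; omega)]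
          · intro k hk hk2
            rw [hg]
            dsimp only
            rw [if_pos]
            by_contra h6
            exact hk2 (mem_Icc.mpr ⟨(mem_Icc.mp hk).1, by omega⟩)
        rw [h3, h4]
        ring
      rw [h2]
      refine (norm_sub_le _ _).trans ?_
      have h3 := hB n h1.le
      have h4 := hB N0 le_rfl
      have h5 : (N0 : ℝ) * E ≤ n * E := mul_le_mul_of_nonneg_right (by exact_mod_cast h1.le) hE
      linarith
    · have h2 : ∑ k ∈ Icc 1 n, f k = 0 := by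
        refine sum_eq_zero fun k hk => ?_
        rw [hf]
        dsimp only
        rw [if_neg (by have := (mem_Icc.mp hk).2; omega)]
      rw [h2, norm_zero]
      positivity
  have hO : (fun n : ℕ => ∑ k ∈ Icc 1 n, f k) =O[atTop] fun n : ℕ => (n : ℝ) ^ (1 : ℝ) := by
    refine Asymptotics.IsBigO.of_bound (2 * E) (Eventually.of_forall fun n => ?_)
    rw [Real.rpow_one, Real.norm_of_nonneg (Nat.cast_nonneg n)]
    refine (hpart n).trans (le_of_eq ?_)
    ring
  rw [LSeries_eq_mul_integral f zero_le_one hw1 hSf hO, norm_mul]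
  have hint : ‖∫ t in Set.Ioi (1 : ℝ), (∑ k ∈ Icc 1 ⌊t⌋₊, f k) * (t : ℂ) ^ (-(w + 1))‖ ≤ 2 * E * (L / s.re) := by
    have h1 : ∫ t in Set.Ioi (1 : ℝ), (2 * E) * t ^ (-w.re) = 2 * E * (L / s.re) := by
      rw [integral_const_mul, integral_Ioi_rpow_of_lt (by linarith) one_pos, Real.one_rpow]
      congr 1
      rw [hwre]
      rw [show -(1 + s.re / L) + 1 = -(s.re / L) by ring, neg_div_neg_eq, one_div_div]
    rw [← h1]
    refine norm_integral_le_of_norm_le ?_ ?_
    · exact ((integrableOn_Ioi_rpow_of_lt (by linarith) one_pos).const_mul (2 * E))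
    · rw [ae_restrict_iff' measurableSet_Ioi]
      refine Eventually.of_forall fun t ht => ?_
      have ht1 : (1 : ℝ) < t := ht
      have ht0 : (0 : ℝ) < t := by linarith
      rw [norm_mul, Complex.norm_cpow_eq_rpow_re_of_pos ht0]
      have h2 : (-(w + 1)).re = -w.re - 1 := by
        simp
        ring
      rw [h2, Real.rpow_sub_one ht0.ne']
      have h3 := hpart ⌊t⌋₊
      have h4 : ((⌊t⌋₊ : ℕ) : ℝ) ≤ t := Nat.floor_le ht0.le
      have h5 : ‖∑ k ∈ Icc 1 ⌊t⌋₊, f k‖ ≤ 2 * t * E := by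
        refine h3.trans ?_
        refine mul_le_mul_of_nonneg_right ?_ hE
        linarith
      have h6 : 0 ≤ t ^ (-w.re) := Real.rpow_nonneg ht0.le _
      calc ‖∑ k ∈ Icc 1 ⌊t⌋₊, f k‖ * (t ^ (-w.re) / t) ≤ (2 * t * E) * (t ^ (-w.re) / t) :=
            mul_le_mul_of_nonneg_right h5 (div_nonneg h6 ht0.le)
        _ = 2 * E * t ^ (-w.re) := by
          field_simp
  have hwn : ‖w‖ ≤ 1 + ‖s‖ := by
    rw [hw]
    refine (norm_add_le _ _).trans ?_
    rw [norm_one, norm_div, Complex.norm_real, Real.norm_of_nonneg hLp.le]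
    have := div_le_self (norm_nonneg s) hL
    linarith
  calc ‖w‖ * ‖∫ t in Set.Ioi (1 : ℝ), (∑ k ∈ Icc 1 ⌊t⌋₊, f k) * (t : ℂ) ^ (-(w + 1))‖ ≤ (1 + ‖s‖) * (2 * E * (L / s.re)) :=
        mul_le_mul hwn hint (norm_nonneg _) (by positivity)
    _ = _ := by ring

end Pool.Agent.Lib.MP_42948a_nt.TS
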