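import Pool.Agent.Lib.MP_42948a_nt.TS.PR

/-!
# Sums over the primes of a set, windows, ultrafilter limits
-/

namespace Pool.Agent.Lib.MP_42948a_nt.TS

open Filter Finset

theorem ulim (U : Ultrafilter ℕ) (f : ℕ → ℝ) (a b : ℝ) (h : ∀ᶠ m in (U : Filter ℕ), a ≤ f m ∧ f m ≤ b) :
    ∃ l : ℝ, a ≤ l ∧ l ≤ b ∧ Tendsto f (U : Filter ℕ) (nhds l) := by
  have hc : IsCompact (Set.Icc a b) := isCompact_Icc
  obtain ⟨l, hl, hle⟩ := isCompact_iff_ultrafilter_le_nhds.mp hc (U.map f) (by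
    rw [Filter.le_principal_iff]
    exact h)
  exact ⟨l, hl.1, hl.2, hle⟩

/-- the term `p^(-1-s/L)` -/
noncomputable def pz (L s : ℝ) (p : ℕ) : ℝ := (p : ℝ) ^ (-(1 + s / L))

theorem pz_nonneg (L s : ℝ) (p : ℕ) : 0 ≤ pz L s p := Real.rpow_nonneg (Nat.cast_nonneg _) _

/-- `p^(-1-s/L) = exp(-(s/L) log p) / p` -/
theorem pz_eq (L s : ℝ) {p : ℕ} (hp : 0 < p) : pz L s p = Real.exp (-(s * (Real.log p / L))) * (1 / (p : ℝ)) := by
  have h0 : (0 : ℝ) < p := by exact_mod_cast hp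
  unfold pz
  rw [Real.rpow_def_of_pos h0, one_div]
  nth_rewrite 3 [← Real.exp_log h0]
  rw [← Real.exp_neg, ← Real.exp_add]
  congr 1
  ring

theorem pz_le_one_div (L s : ℝ) (hL : 0 < L) (hs : 0 ≤ s) {p : ℕ} (hp : 0 < p) : pz L s p ≤ 1 / (p : ℝ) := by
  rw [pz_eq L s hp]
  have h0 : (1 : ℝ) ≤ p := by exact_mod_cast hp
  have h1 : 0 ≤ s * (Real.log p / L) := mul_nonneg hs (div_nonneg (Real.log_nonneg h0) hL.le)
  have h2 : Real.exp (-(s * (Real.log p / L))) ≤ 1 := Real.exp_le_one_iff.mpr (by linarith)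
  exact mul_le_of_le_one_left (by positivity) h2

/-- comparison of two values of `s` -/
theorem pz_shift (L s u : ℝ) (hL : 0 < L) (hs : 1 ≤ s) {p : ℕ} (hp : 0 < p) (hu : u * L ≤ Real.log p) :
    pz L s p ≤ Real.exp u * Real.exp (-(u * s)) * pz L 1 p := by
  rw [pz_eq L s hp, pz_eq L 1 hp, ← mul_assoc]
  refine mul_le_mul_of_nonneg_right ?_ (by positivity)
  rw [← Real.exp_add, ← Real.exp_add]
  refine Real.exp_le_exp.mpr ?_
  have h1 : u ≤ Real.log p / L := by rwa [le_div_iff₀ hL]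
  nlinarith

theorem pz_win (L s u : ℝ) (hL : 0 < L) (hs : 0 ≤ s) {p : ℕ} (hp : 0 < p) (hu : u * L ≤ Real.log p) :
    pz L s p ≤ Real.exp (-(u * s)) * (1 / (p : ℝ)) := by
  rw [pz_eq L s hp]
  refine mul_le_mul_of_nonneg_right (Real.exp_le_exp.mpr ?_) (by positivity)
  have h1 : u ≤ Real.log p / L := by rwa [le_div_iff₀ hL]
  nlinarith

open Classical in
/-- the sum of `F` over the primes with the property `A` -/
noncomputable def PA (A : ℕ → Prop) (F : ℕ → ℝ) : ℝ := ∑' p : Nat.Primes, if A p then F p else 0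

open Classical in
theorem PA_summable {F : ℕ → ℝ} (hF : Summable (fun p : Nat.Primes => F p)) (A : ℕ → Prop) :
    Summable (fun p : Nat.Primes => if A p then F p else 0) := by
  have h := hF.indicator {p : Nat.Primes | A p}
  refine h.congr fun p => ?_
  rw [Set.indicator_apply]
  rfl

theorem PA_nonneg {F : ℕ → ℝ} (hF : ∀ n, 0 ≤ F n) (A : ℕ → Prop) : 0 ≤ PA A F := by
  unfold PA
  refine tsum_nonneg fun p => ?_
  split_ifs
  · exact hF _
  · exact le_rfl

theorem PA_mono {A B : ℕ → Prop} {F E : ℕ → ℝ} (hE : Summable (fun p : Nat.Primes => E p)) (hE0 : ∀ n, 0 ≤ E n)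
    (hF0 : ∀ n, 0 ≤ F n) (hAB : ∀ p : ℕ, p.Prime → A p → B p) (hFE : ∀ p : ℕ, p.Prime → A p → F p ≤ E p) :
    PA A F ≤ PA B E := by
  classical
  unfold PA
  have h1 : ∀ p : Nat.Primes, (if A p then F p else 0) ≤ (if B p then E p else 0) := by
    intro p
    by_cases hA : A p
    · rw [if_pos hA, if_pos (hAB p p.2 hA)]
      exact hFE p p.2 hA
    · rw [if_neg hA]
      split_ifs
      · exact hE0 _
      · exact le_rfl
  have h2 := PA_summable hE B
  refine Summable.tsum_le_tsum h1 ?_ h2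
  refine Summable.of_nonneg_of_le (fun p => ?_) h1 h2
  split_ifs
  · exact hF0 _
  · exact le_rfl

theorem PA_add {A B : ℕ → Prop} {F : ℕ → ℝ} (hF : Summable (fun p : Nat.Primes => F p))
    (hAB : ∀ p : ℕ, p.Prime → ¬ (A p ∧ B p)) : PA (fun p => A p ∨ B p) F = PA A F + PA B F := by
  classical
  unfold PA
  rw [← Summable.tsum_add (PA_summable hF A) (PA_summable hF B)]
  refine tsum_congr fun p => ?_
  by_cases hA : A p
  · have hB : ¬ B p := fun hB => hAB p p.2 ⟨hA, hB⟩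
    simp [hA, hB]
  · simp [hA]

theorem PA_congr {A B : ℕ → Prop} {F : ℕ → ℝ} (hAB : ∀ p : ℕ, p.Prime → (A p ↔ B p)) : PA A F = PA B F := by
  classical
  unfold PA
  refine tsum_congr fun p => ?_
  by_cases hA : A p
  · rw [if_pos hA, if_pos ((hAB p p.2).mp hA)]
  · rw [if_neg hA, if_neg (fun hB => hA ((hAB p p.2).mpr hB))]

theorem PA_const_mul {A : ℕ → Prop} {F : ℕ → ℝ} (c : ℝ) : PA A (fun n => c * F n) = c * PA A F := by
  classical
  unfold PA
  rw [← tsum_mul_left]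
  refine tsum_congr fun p => ?_
  split_ifs <;> ring

open Classical in
theorem PA_sub {A : ℕ → Prop} {F E : ℕ → ℝ} (hF : Summable (fun p : Nat.Primes => F p)) (hE : Summable (fun p : Nat.Primes => E p)) :
    PA A (fun n => F n - E n) = PA A F - PA A E := by
  unfold PA
  rw [← Summable.tsum_sub (PA_summable hF A) (PA_summable hE A)]
  refine tsum_congr fun p => ?_
  split_ifs <;> ring

open Classical in
theorem abs_PA_le {A : ℕ → Prop} {F : ℕ → ℝ} (hF : Summable (fun p : Nat.Primes => |F p|)) :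
    |PA A F| ≤ PA A (fun n => |F n|) := by
  unfold PA
  have h0 := PA_summable (F := fun n => |F n|) hF A
  have h1 := norm_tsum_le_tsum_norm (f := fun p : Nat.Primes => if A p then F p else 0)
    (h0.congr fun p => by split_ifs <;> simp)
  rw [Real.norm_eq_abs] at h1
  refine h1.trans (le_of_eq (tsum_congr fun p => ?_))
  split_ifs <;> simp

/-- finite sums -/
theorem PA_finset {A : ℕ → Prop} {F : ℕ → ℝ} (S : Finset ℕ) (hS : ∀ p : ℕ, p ∈ S ↔ p.Prime ∧ A p) :
    PA A F = ∑ p ∈ S, F p := by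
  classical
  unfold PA
  have h1 : ∀ p ∈ S, p.Prime := fun p hp => ((hS p).mp hp).1
  set T : Finset Nat.Primes := S.attach.image (fun p => (⟨p.1, h1 p.1 p.2⟩ : Nat.Primes)) with hT
  have h2 : ∀ p : Nat.Primes, p ∉ T → (if A p then F p else 0) = 0 := by
    intro p hp
    rw [if_neg]
    intro hA
    apply hp
    rw [hT, mem_image]
    exact ⟨⟨p.1, (hS p.1).mpr ⟨p.2, hA⟩⟩, mem_attach _ _, rfl⟩
  rw [tsum_eq_sum (s := T) (fun p hp => h2 p hp)]
  refine sum_bij (fun p _ => (p : ℕ)) ?_ ?_ ?_ ?_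
  · intro p hp
    rw [hT, mem_image] at hp
    obtain ⟨q, _, hq⟩ := hp
    rw [← hq]
    exact q.2
  · intro p _ q _ h
    exact Subtype.ext h
  · intro q hq
    refine ⟨⟨q, h1 q hq⟩, ?_, rfl⟩
    rw [hT, mem_image]
    exact ⟨⟨q, hq⟩, mem_attach _ _, rfl⟩
  · intro p hp
    have h3 : A p := by
      rw [hT, mem_image] at hp
      obtain ⟨q, _, hq⟩ := hp
      rw [← hq]
      exact ((hS q.1).mp q.2).2
    rw [if_pos h3]

end Pool.Agent.Lib.MP_42948a_nt.TS
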