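import Pool.Agent.Lib.MP_42948a_nt.TS.W1

/-!
# Classes of primes: windows, tails, differences
-/

namespace Pool.Agent.Lib.MP_42948a_nt.TS

open Filter Finset

theorem pr_tail' (u : ℝ) (hu : 0 < u) : ∃ C L0 : ℝ, 0 < C ∧ 1 ≤ L0 ∧ ∀ L : ℝ, L0 ≤ L →
    ∑' p : Nat.Primes, (if u * L < Real.log ((p : ℕ) : ℝ) then ((p : ℕ) : ℝ) ^ (-(1 + 1 / L)) else 0) ≤ C := by
  obtain ⟨C, L0, h⟩ := pr_tail u hu
  exact ⟨max C 1, max L0 1, lt_of_lt_of_le one_pos (le_max_right _ _), le_max_right _ _,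
    fun L hL => (h L ((le_max_left _ _).trans hL)).trans (le_max_left _ _)⟩

theorem pr_small' (s : ℝ) (hs : 0 < s) : ∃ C L0 : ℝ, 0 < C ∧ 1 ≤ L0 ∧ ∀ L : ℝ, L0 ≤ L → ∀ al : ℝ, 0 < al →
    ∑' p : Nat.Primes, (if Real.log ((p : ℕ) : ℝ) ≤ al * L then
      |((p : ℕ) : ℝ) ^ (-(1 + s / L)) - ((p : ℕ) : ℝ) ^ (-(1 + 1 / L))| else 0) ≤ C * (al + 1 / L) := by
  obtain ⟨C, L0, h⟩ := pr_small s hs
  refine ⟨max C 1, max L0 1, lt_of_lt_of_le one_pos (le_max_right _ _), le_max_right _ _, fun L hL al hal => ?_⟩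
  have hL1 : 1 ≤ L := (le_max_right _ _).trans hL
  refine ((h L ((le_max_left _ _).trans hL) al hal).2).trans ?_
  exact mul_le_mul_of_nonneg_right (le_max_left _ _) (by positivity)

open Classical in
/-- the primes with the property `A` in the window `(e^(aL), e^(bL)]` -/
noncomputable def WA (A : ℕ → Prop) (L a b : ℝ) : Finset ℕ :=
  (Icc 1 ⌊Real.exp (b * L)⌋₊).filter (fun p => p.Prime ∧ A p ∧ a * L < Real.log p ∧ Real.log p ≤ b * L)

theorem mem_WA {A : ℕ → Prop} {L a b : ℝ} {p : ℕ} :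
    p ∈ WA A L a b ↔ p.Prime ∧ (A p ∧ a * L < Real.log p ∧ Real.log p ≤ b * L) := by
  classical
  unfold WA
  rw [mem_filter, mem_Icc]
  constructor
  · intro h
    exact h.2
  · intro h
    refine ⟨⟨h.1.one_le, ?_⟩, h⟩
    have h0 : (0 : ℝ) < p := by exact_mod_cast h.1.pos
    refine Nat.le_floor ?_
    rw [← Real.exp_log h0]
    exact Real.exp_le_exp.mpr h.2.2.2

/-- the mass of the primes in the window -/
noncomputable def ms (A : ℕ → Prop) (L a b : ℝ) : ℝ := ∑ p ∈ WA A L a b, 1 / (p : ℝ)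

theorem ms_nonneg (A : ℕ → Prop) (L a b : ℝ) : 0 ≤ ms A L a b := sum_nonneg fun p _ => by positivity

/-- the sum over the primes above `e^(uL)` -/
noncomputable def RA (A : ℕ → Prop) (L u s : ℝ) : ℝ := PA (fun p => A p ∧ u * L < Real.log p) (pz L s)

theorem pz_summable (s L : ℝ) (hs : 0 < s) (hL : 0 < L) : Summable (fun p : Nat.Primes => pz L s p) :=
  pr_summable' s L hs hL

theorem RA_nonneg (A : ℕ → Prop) (L u s : ℝ) : 0 ≤ RA A L u s := PA_nonneg (pz_nonneg L s) _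

theorem RA_tail (u : ℝ) (hu : 0 < u) : ∃ C L0 : ℝ, 0 < C ∧ 1 ≤ L0 ∧ ∀ L : ℝ, L0 ≤ L → ∀ A : ℕ → Prop, ∀ s : ℝ, 1 ≤ s →
    RA A L u s ≤ C * Real.exp (-(u * s)) := by
  obtain ⟨C, L0, hC, hL0, h⟩ := pr_tail' u hu
  refine ⟨Real.exp u * C, L0, by positivity, hL0, fun L hL A s hs => ?_⟩
  have hLp : 0 < L := by linarith
  have h1 : RA A L u s ≤ PA (fun p => u * L < Real.log p) (fun p => Real.exp u * Real.exp (-(u * s)) * pz L 1 p) := by
    refine PA_mono ?_ (fun n => mul_nonneg (by positivity) (pz_nonneg _ _ _)) (pz_nonneg L s) (fun p _ hp => hp.2)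
      (fun p hp hA => pz_shift L s u hLp hs hp.pos hA.2.le)
    exact (pz_summable 1 L one_pos hLp).mul_left _
  rw [PA_const_mul] at h1
  have h2 : PA (fun p => u * L < Real.log p) (pz L 1) ≤ C := by
    have := h L hL
    unfold PA pz
    convert this using 3
  calc RA A L u s ≤ Real.exp u * Real.exp (-(u * s)) * PA (fun p => u * L < Real.log p) (pz L 1) := h1
    _ ≤ Real.exp u * Real.exp (-(u * s)) * C := mul_le_mul_of_nonneg_left h2 (by positivity)
    _ = _ := by ring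

/-- one window -/
theorem PA_win (A : ℕ → Prop) (L a b s : ℝ) (hL : 0 < L) (hs : 0 ≤ s) :
    PA (fun p => A p ∧ a * L < Real.log p ∧ Real.log p ≤ b * L) (pz L s) ≤ Real.exp (-(a * s)) * ms A L a b := by
  rw [PA_finset (WA A L a b) (fun p => mem_WA)]
  unfold ms
  rw [mul_sum]
  refine sum_le_sum fun p hp => ?_
  have h := mem_WA.mp hp
  exact pz_win L s a hL hs h.1.pos h.2.2.1.le

theorem RA_split (A : ℕ → Prop) (L a b s : ℝ) (hL : 0 < L) (hs : 0 < s) (hab : a ≤ b) :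
    RA A L a s ≤ Real.exp (-(a * s)) * ms A L a b + RA A L b s := by
  have h1 : RA A L a s = PA (fun p => A p ∧ a * L < Real.log p ∧ Real.log p ≤ b * L) (pz L s) + RA A L b s := by
    unfold RA
    rw [← PA_add (pz_summable s L hs hL)]
    · refine PA_congr fun p _ => ?_
      have hab' : a * L ≤ b * L := mul_le_mul_of_nonneg_right hab hL.le
      constructor
      · intro h
        by_cases h2 : Real.log p ≤ b * L
        · exact Or.inl ⟨h.1, h.2, h2⟩
        · exact Or.inr ⟨h.1, not_le.mp h2⟩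
      · rintro (h | h)
        · exact ⟨h.1, h.2.1⟩
        · exact ⟨h.1, lt_of_le_of_lt hab' h.2⟩
    · intro p _ h
      exact absurd h.2.2 (not_lt.mpr h.1.2.2)
  rw [h1]
  have := PA_win A L a b s hL hs.le
  linarith

theorem RA_anti (A : ℕ → Prop) (L a b s : ℝ) (hL : 0 < L) (hs : 0 < s) (hab : a ≤ b) : RA A L b s ≤ RA A L a s := by
  unfold RA
  refine PA_mono (pz_summable s L hs hL) (pz_nonneg _ _) (pz_nonneg _ _) (fun p _ h => ⟨h.1, ?_⟩) (fun p _ _ => le_rfl)
  exact lt_of_le_of_lt (mul_le_mul_of_nonneg_right hab hL.le) h.2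

/-- decomposition into windows of width `w` -/
theorem RA_windows (A : ℕ → Prop) (L w s : ℝ) (hL : 0 < L) (hs : 0 < s) (hw : 0 < w) (j0 n : ℕ) :
    RA A L (j0 * w) s ≤ ∑ j ∈ Ico j0 (j0 + n), Real.exp (-(j * w * s)) * ms A L (j * w) ((j + 1) * w) +
      RA A L ((j0 + n : ℕ) * w) s := by
  induction n with
  | zero => simp
  | succ n ih =>
    have h1 := RA_split A L ((j0 + n : ℕ) * w) ((((j0 + n : ℕ) : ℝ) + 1) * w) s hL hs
      (mul_le_mul_of_nonneg_right (by linarith) hw.le)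
    rw [← Nat.add_assoc, Finset.sum_Ico_succ_top (by omega)]
    have h2 : ((j0 + n + 1 : ℕ) : ℝ) * w = (((j0 + n : ℕ) : ℝ) + 1) * w := by push_cast; ring
    rw [h2]
    linarith

/-- the sum of the differences over a class is given by the primes above `e^(uL)` -/
theorem TA_close (s : ℝ) (hs : 0 < s) : ∃ C L0 : ℝ, 0 < C ∧ 1 ≤ L0 ∧ ∀ L : ℝ, L0 ≤ L → ∀ A : ℕ → Prop, ∀ α u : ℝ, 0 < α →
    |PA A (fun p => pz L s p - pz L 1 p) - (RA A L u s - RA A L u 1)| ≤ C * (α + 1 / L) + 2 * ms A L α u := by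
  classical
  obtain ⟨C, L0, hC, hL0, h⟩ := pr_small' s hs
  refine ⟨C, L0, hC, hL0, fun L hL A α u hα => ?_⟩
  have hLp : 0 < L := by linarith
  have hS1 := pz_summable s L hs hLp
  have hS2 := pz_summable 1 L one_pos hLp
  have hSd : Summable (fun p : Nat.Primes => pz L s p - pz L 1 p) := hS1.sub hS2
  have hSa : Summable (fun p : Nat.Primes => |pz L s p - pz L 1 p|) := by
    refine Summable.of_nonneg_of_le (fun _ => abs_nonneg _) (fun p => ?_) (hS1.add hS2)
    have h1 := pz_nonneg L s p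
    have h2 := pz_nonneg L 1 p
    rw [abs_le]
    constructor <;> linarith
  have e1 : PA A (fun p => pz L s p - pz L 1 p) =
      PA (fun p => A p ∧ u * L < Real.log p) (fun p => pz L s p - pz L 1 p) +
        PA (fun p => A p ∧ Real.log p ≤ u * L) (fun p => pz L s p - pz L 1 p) := by
    rw [← PA_add (F := fun p => pz L s p - pz L 1 p) hSd]
    · refine PA_congr fun p _ => ?_
      constructor
      · intro h1
        rcases lt_or_ge (u * L) (Real.log p) with h2 | h2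
        · exact Or.inl ⟨h1, h2⟩
        · exact Or.inr ⟨h1, h2⟩
      · rintro (h1 | h1) <;> exact h1.1
    · intro p _ h1
      exact absurd h1.1.2 (not_lt.mpr h1.2.2)
  have e2 : PA (fun p => A p ∧ u * L < Real.log p) (fun p => pz L s p - pz L 1 p) = RA A L u s - RA A L u 1 := by
    unfold RA
    exact PA_sub hS1 hS2
  rw [e1, e2]
  have e3 : RA A L u s - RA A L u 1 + PA (fun p => A p ∧ Real.log p ≤ u * L) (fun p => pz L s p - pz L 1 p) -
      (RA A L u s - RA A L u 1) = PA (fun p => A p ∧ Real.log p ≤ u * L) (fun p => pz L s p - pz L 1 p) := by ring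
  rw [e3]
  have e4 : |PA (fun p => A p ∧ Real.log p ≤ u * L) (fun p => pz L s p - pz L 1 p)| ≤
      PA (fun p => A p ∧ Real.log p ≤ u * L) (fun p => |pz L s p - pz L 1 p|) := abs_PA_le (F := fun p => pz L s p - pz L 1 p) hSa
  refine e4.trans ?_
  have e5 : PA (fun p => A p ∧ Real.log p ≤ u * L) (fun p => |pz L s p - pz L 1 p|) ≤
      PA (fun p => (Real.log p ≤ α * L) ∨ (A p ∧ α * L < Real.log p ∧ Real.log p ≤ u * L)) (fun p => |pz L s p - pz L 1 p|) := by
    refine PA_mono hSa (fun _ => abs_nonneg _) (fun _ => abs_nonneg _) (fun p _ h1 => ?_) (fun p _ _ => le_rfl)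
    rcases lt_or_ge (α * L) (Real.log p) with h2 | h2
    · exact Or.inr ⟨h1.1, h2, h1.2⟩
    · exact Or.inl h2
  refine e5.trans ?_
  rw [PA_add (F := fun p => |pz L s p - pz L 1 p|) hSa (fun p _ h1 => absurd h1.2.2.1 (not_lt.mpr h1.1))]
  refine add_le_add ?_ ?_
  · have := h L hL α hα
    unfold PA pz
    convert this using 3
  · rw [PA_finset (WA A L α u) (fun p => mem_WA)]
    unfold ms
    rw [mul_sum]
    refine sum_le_sum fun p hp => ?_
    have h1 := (mem_WA.mp hp).1.pos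
    have h2 := pz_le_one_div L s hLp hs.le h1
    have h3 := pz_le_one_div L 1 hLp zero_le_one h1
    have h4 := pz_nonneg L s p
    have h5 := pz_nonneg L 1 p
    have h6 : (0 : ℝ) ≤ 1 / (p : ℝ) := by positivity
    rw [abs_le]
    constructor <;> linarith

end Pool.Agent.Lib.MP_42948a_nt.TS
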