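import Pool.Agent.Lib.MP_42948a_nt.TS.W2

/-!
# The primes dividing the modulus; products of windows
-/

namespace Pool.Agent.Lib.MP_42948a_nt.TS

open Filter Finset

theorem ms_le (A : ℕ → Prop) (L a b : ℝ) (hL : 0 < L) : ms A L a b ≤ Real.exp b * RA A L a 1 := by
  classical
  have h0 : PA (fun p => A p ∧ a * L < Real.log p ∧ Real.log p ≤ b * L) (pz L 1) ≤ RA A L a 1 := by
    unfold RA
    exact PA_mono (pz_summable 1 L one_pos hL) (pz_nonneg _ _) (pz_nonneg _ _) (fun p _ h => ⟨h.1, h.2.1⟩) (fun p _ _ => le_rfl)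
  rw [PA_finset (WA A L a b) (fun p => mem_WA)] at h0
  refine le_trans ?_ (mul_le_mul_of_nonneg_left h0 (Real.exp_pos b).le)
  unfold ms
  rw [mul_sum]
  refine sum_le_sum fun p hp => ?_
  have h := mem_WA.mp hp
  rw [pz_eq L 1 h.1.pos, ← mul_assoc]
  have h1 : (0 : ℝ) ≤ 1 / (p : ℝ) := by positivity
  have h2 : 1 ≤ Real.exp b * Real.exp (-(1 * (Real.log p / L))) := by
    rw [← Real.exp_add]
    refine Real.one_le_exp ?_
    have h3 : Real.log p / L ≤ b := by
      rw [div_le_iff₀ hL]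
      exact h.2.2.2
    linarith
  calc 1 / (p : ℝ) = 1 * (1 / (p : ℝ)) := (one_mul _).symm
    _ ≤ _ := mul_le_mul_of_nonneg_right h2 h1

/-- the primes dividing `d` are negligible -/
theorem dv_small (s θ : ℝ) (hs : 0 < s) (hθ : 0 < θ) (ε : ℝ) (hε : 0 < ε) : ∃ d0 : ℕ, ∀ d : ℕ, d0 ≤ d →
    |PA (fun p => ¬ p.Coprime d) (fun p => pz (θ * Real.log d) s p - pz (θ * Real.log d) 1 p)| ≤ ε := by
  classical
  obtain ⟨C, L0, hC, hL0, h⟩ := TA_close s hs
  -- `α = ε / (4 C)`
  set α : ℝ := ε / (4 * C) with hα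
  have hα0 : 0 < α := by positivity
  have hlog : Tendsto (fun d : ℕ => Real.log (d : ℝ)) atTop atTop := Real.tendsto_log_atTop.comp tendsto_natCast_atTop_atTop
  have hL : Tendsto (fun d : ℕ => θ * Real.log (d : ℝ)) atTop atTop := hlog.const_mul_atTop hθ
  have e1 : ∀ᶠ d : ℕ in atTop, max L0 (4 * C / ε) ≤ θ * Real.log d := hL.eventually_ge_atTop _
  -- `(log d / log 2) exp (- α θ log d) → 0`
  have e2 : ∀ᶠ d : ℕ in atTop, 2 * (Real.log d / Real.log 2 * Real.exp (-(α * (θ * Real.log d)))) ≤ ε / 2 := by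
    have h1 : Tendsto (fun x : ℝ => x * Real.exp (-(α * θ) * x)) atTop (nhds 0) := by
      have := Real.tendsto_pow_mul_exp_neg_atTop_nhds_zero 1
      have h2 : Tendsto (fun x : ℝ => (α * θ) * x) atTop atTop := tendsto_id.const_mul_atTop (by positivity)
      have h3 := this.comp h2
      have h4 := h3.const_mul (1 / (α * θ))
      simp only [mul_zero] at h4
      refine h4.congr fun x => ?_
      simp only [Function.comp, pow_one]
      have h5 : α * θ ≠ 0 := by positivity
      rw [neg_mul]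
      field_simp
    have h2 := (h1.comp hlog).const_mul (2 / Real.log 2)
    simp only [mul_zero] at h2
    have h3 := h2.eventually (gt_mem_nhds (show (0 : ℝ) < ε / 2 by positivity))
    filter_upwards [h3] with d hd
    refine le_trans (le_of_eq ?_) hd.le
    simp only [Function.comp]
    rw [show -(α * (θ * Real.log d)) = -(α * θ) * Real.log d by ring]
    ring
  obtain ⟨d0, hd0⟩ := eventually_atTop.mp (e1.and (e2.and (eventually_ge_atTop 2)))
  refine ⟨d0, fun d hd => ?_⟩
  obtain ⟨f1, f2, f3⟩ := hd0 d hd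
  set L : ℝ := θ * Real.log d with hLdef
  have hdpos : 0 < d := by omega
  have hd1 : (1 : ℝ) ≤ d := by exact_mod_cast hdpos
  have hLL0 : L0 ≤ L := (le_max_left _ _).trans f1
  have hL2 : 4 * C / ε ≤ L := (le_max_right _ _).trans f1
  have hLp : 0 < L := by linarith
  have h1 := h L hLL0 (fun p => ¬ p.Coprime d) α (1 / θ) hα0
  have hz : ∀ s' : ℝ, RA (fun p => ¬ p.Coprime d) L (1 / θ) s' = 0 := by
    intro s'
    unfold RA
    have h2 : PA (fun p => (¬ p.Coprime d) ∧ 1 / θ * L < Real.log p) (pz L s') = ∑ p ∈ (∅ : Finset ℕ), pz L s' p := by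
      refine PA_finset ∅ fun p => ?_
      constructor
      · intro h3
        simp at h3
      · rintro ⟨hp, h3, h4⟩
        exfalso
        have h5 : p ∣ d := by
          by_contra h6
          exact h3 ((Nat.Prime.coprime_iff_not_dvd hp).mpr h6)
        have h6 : (p : ℝ) ≤ d := by exact_mod_cast Nat.le_of_dvd hdpos h5
        have h7 : Real.log p ≤ Real.log d := Real.log_le_log (by exact_mod_cast hp.pos) h6
        have h8 : 1 / θ * L = Real.log d := by
          rw [hLdef]
          field_simp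
        linarith
    rw [h2, sum_empty]
  rw [hz, hz, sub_zero, sub_zero] at h1
  refine h1.trans ?_
  have h3 : C * (α + 1 / L) ≤ ε / 2 := by
    have h4 : C * α = ε / 4 := by
      rw [hα]
      field_simp
    have h5 : C * (1 / L) ≤ ε / 4 := by
      rw [div_le_iff₀ hε] at hL2
      rw [mul_one_div, div_le_iff₀ hLp]
      linarith
    rw [mul_add]
    linarith
  have h4 : ms (fun p => ¬ p.Coprime d) L α (1 / θ) ≤ Real.log d / Real.log 2 * Real.exp (-(α * L)) := by
    unfold ms
    have h5 : ∀ p ∈ WA (fun p => ¬ p.Coprime d) L α (1 / θ), 1 / (p : ℝ) ≤ Real.exp (-(α * L)) := by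
      intro p hp
      have h6 := mem_WA.mp hp
      have h7 : (0 : ℝ) < p := by exact_mod_cast h6.1.pos
      rw [Real.exp_neg, ← one_div]
      refine one_div_le_one_div_of_le (Real.exp_pos _) ?_
      rw [← Real.exp_log h7]
      exact Real.exp_le_exp.mpr h6.2.2.1.le
    refine (sum_le_sum h5).trans ?_
    rw [sum_const, nsmul_eq_mul]
    refine mul_le_mul_of_nonneg_right ?_ (Real.exp_pos _).le
    have h6 : (WA (fun p => ¬ p.Coprime d) L α (1 / θ)).card ≤ d.primeFactors.card := by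
      refine card_le_card fun p hp => ?_
      have h7 := mem_WA.mp hp
      rw [Nat.mem_primeFactors]
      refine ⟨h7.1, ?_, hdpos.ne'⟩
      by_contra h8
      exact h7.2.1 ((Nat.Prime.coprime_iff_not_dvd h7.1).mpr h8)
    have h7 : 2 ^ d.primeFactors.card ≤ d := by
      have h8 : ∏ p ∈ d.primeFactors, 2 ≤ ∏ p ∈ d.primeFactors, p :=
        prod_le_prod' fun p hp => (Nat.prime_of_mem_primeFactors hp).two_le
      rw [prod_const] at h8
      exact h8.trans (Nat.le_of_dvd hdpos (Nat.prod_primeFactors_dvd d))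
    have h8 : (d.primeFactors.card : ℝ) * Real.log 2 ≤ Real.log d := by
      rw [← Real.log_pow]
      refine Real.log_le_log (by positivity) ?_
      exact_mod_cast h7
    have h9 : (0 : ℝ) < Real.log 2 := Real.log_pos (by norm_num)
    rw [le_div_iff₀ h9]
    refine le_trans ?_ h8
    refine mul_le_mul_of_nonneg_right ?_ h9.le
    exact_mod_cast h6
  linarith

/-- products of decompositions into windows -/
theorem prod_windows {ι : Type} [Fintype ι] (J : ℕ) (hcard : Fintype.card ι ≤ J) (w v s K k : ℝ) (hw : 0 < w) (hs : 0 ≤ s)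
    (hK : 1 ≤ K) (hk0 : 0 ≤ k) (j0 j1 : ℕ) (hj1 : v ≤ j1 * w) (R : ι → ℝ) (hR0 : ∀ i, 0 ≤ R i) (ν : ι → ℕ → ℝ)
    (hν0 : ∀ i j, 0 ≤ ν i j) (hνK : ∀ i j, j0 ≤ j → j ≤ j1 → ν i j ≤ K)
    (hR : ∀ i, R i ≤ ∑ j ∈ Icc j0 j1, Real.exp (-(j * w * s)) * ν i j)
    (hQ : ∀ p : ι → ℕ, (∀ i, j0 ≤ p i ∧ p i < j1) → ∑ i, ((p i : ℝ) + 1) * w ≤ v → ∃ i, ν i (p i) ≤ k) :
    ∏ i, R i ≤ ((j1 + 1 : ℕ) : ℝ) ^ J * K ^ J * (Real.exp (-((v - J * w) * s)) + k) := by
  classical
  have hK0 : 0 ≤ K := by linarith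
  have h1 : ∏ i, R i ≤ ∏ i, ∑ j ∈ Icc j0 j1, Real.exp (-(j * w * s)) * ν i j :=
    prod_le_prod (fun i _ => hR0 i) (fun i _ => hR i)
  refine h1.trans ?_
  rw [Finset.prod_univ_sum]
  have h2 : ∀ p ∈ Fintype.piFinset (fun _ : ι => Icc j0 j1), ∏ i, Real.exp (-(p i * w * s)) * ν i (p i) ≤
      K ^ J * (Real.exp (-((v - J * w) * s)) + k) := by
    intro p hp
    have hp' : ∀ i, j0 ≤ p i ∧ p i ≤ j1 := fun i => mem_Icc.mp (Fintype.mem_piFinset.mp hp i)
    rw [prod_mul_distrib, ← Real.exp_sum]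
    have hexp : ∑ i, -((p i : ℝ) * w * s) = -((∑ i, (p i : ℝ) * w) * s) := by
      rw [sum_neg_distrib, sum_mul]
    rw [hexp]
    have hprodK : ∏ i, ν i (p i) ≤ K ^ J := by
      calc ∏ i, ν i (p i) ≤ ∏ i : ι, K := prod_le_prod (fun i _ => hν0 _ _) (fun i _ => hνK i _ (hp' i).1 (hp' i).2)
        _ = K ^ Fintype.card ι := by rw [prod_const, card_univ]
        _ ≤ K ^ J := pow_le_pow_right₀ hK hcard
    have hprod0 : 0 ≤ ∏ i, ν i (p i) := prod_nonneg fun i _ => hν0 _ _
    have hsum0 : 0 ≤ ∑ i, (p i : ℝ) * w := sum_nonneg fun i _ => by positivity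
    by_cases hcase : (∑ i, (p i : ℝ) * w) < v - J * w
    · -- all the windows are below `v`
      have hlt : ∑ i, ((p i : ℝ) + 1) * w ≤ v := by
        have h3 : ∑ i, ((p i : ℝ) + 1) * w = ∑ i, (p i : ℝ) * w + Fintype.card ι * w := by
          simp_rw [add_mul, one_mul]
          rw [sum_add_distrib, sum_const, nsmul_eq_mul, card_univ]
        have h4 : (Fintype.card ι : ℝ) * w ≤ J * w := mul_le_mul_of_nonneg_right (by exact_mod_cast hcard) hw.le
        linarith
      have hlt2 : ∀ i, p i < j1 := by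
        intro i
        by_contra h3
        push Not at h3
        have h4 : (j1 : ℝ) * w ≤ p i * w := mul_le_mul_of_nonneg_right (by exact_mod_cast h3) hw.le
        have h5 : (p i : ℝ) * w ≤ ∑ i, (p i : ℝ) * w := single_le_sum (f := fun i => (p i : ℝ) * w) (fun i _ => by positivity) (mem_univ i)
        have h6 : (0 : ℝ) ≤ J * w := by positivity
        linarith
      obtain ⟨i, hi⟩ := hQ p (fun i => ⟨(hp' i).1, hlt2 i⟩) hlt
      have h3 : ∏ i, ν i (p i) ≤ K ^ J * k := by
        rw [← mul_prod_erase univ (fun i => ν i (p i)) (mem_univ i), mul_comm]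
        refine mul_le_mul ?_ hi (hν0 _ _) (pow_nonneg hK0 _)
        calc ∏ i ∈ univ.erase i, ν i (p i) ≤ ∏ i ∈ univ.erase i, K :=
              prod_le_prod (fun i _ => hν0 _ _) (fun i _ => hνK i _ (hp' i).1 (hp' i).2)
          _ = K ^ (univ.erase i).card := by rw [prod_const]
          _ ≤ K ^ J := by
            refine pow_le_pow_right₀ hK ?_
            refine (card_erase_le).trans ?_
            rw [card_univ]
            exact hcard
      have h4 : Real.exp (-((∑ i, (p i : ℝ) * w) * s)) ≤ 1 := by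
        refine Real.exp_le_one_iff.mpr ?_
        have := mul_nonneg hsum0 hs
        linarith
      calc Real.exp (-((∑ i, (p i : ℝ) * w) * s)) * ∏ i, ν i (p i) ≤ 1 * (K ^ J * k) :=
            mul_le_mul h4 h3 hprod0 zero_le_one
        _ ≤ K ^ J * (Real.exp (-((v - J * w) * s)) + k) := by
          rw [one_mul]
          refine mul_le_mul_of_nonneg_left ?_ (pow_nonneg hK0 _)
          linarith [Real.exp_pos (-((v - J * w) * s))]
    · push Not at hcase
      have h4 : Real.exp (-((∑ i, (p i : ℝ) * w) * s)) ≤ Real.exp (-((v - J * w) * s)) := by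
        refine Real.exp_le_exp.mpr ?_
        have := mul_le_mul_of_nonneg_right hcase hs
        linarith
      calc Real.exp (-((∑ i, (p i : ℝ) * w) * s)) * ∏ i, ν i (p i) ≤ Real.exp (-((v - J * w) * s)) * K ^ J :=
            mul_le_mul h4 hprodK hprod0 (Real.exp_pos _).le
        _ ≤ K ^ J * (Real.exp (-((v - J * w) * s)) + k) := by
          rw [mul_comm]
          refine mul_le_mul_of_nonneg_left ?_ (pow_nonneg hK0 _)
          linarith
  refine (sum_le_sum h2).trans ?_
  rw [sum_const, nsmul_eq_mul, mul_assoc]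
  refine mul_le_mul_of_nonneg_right ?_ (mul_nonneg (pow_nonneg hK0 _) (by positivity))
  have h3 : (Fintype.piFinset (fun _ : ι => Icc j0 j1)).card = (Icc j0 j1).card ^ Fintype.card ι := by
    rw [Fintype.card_piFinset, prod_const, card_univ]
  rw [h3]
  have h4 : (Icc j0 j1).card ≤ j1 + 1 := by
    rw [Nat.card_Icc]
    omega
  have h5 : (Icc j0 j1).card ^ Fintype.card ι ≤ (j1 + 1) ^ J :=
    (Nat.pow_le_pow_left h4 _).trans (Nat.pow_le_pow_right (by omega) hcard)
  exact_mod_cast h5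

end Pool.Agent.Lib.MP_42948a_nt.TS
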