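import Pool.Agent.Lib.MP_42948a_nt.TS.W3
import Pool.Agent.Lib.MP_42948a_nt.TS.AL3
import Pool.Agent.Lib.MP_42948a_nt.TS.LIM

/-!
# The theorem for a sequence of moduli
-/

namespace Pool.Agent.Lib.MP_42948a_nt.TS

open Filter Finset

/-- the normalised products of dense classes `≠ t` of total scale `≤ v` -/
def QS {C : Type*} [CommGroup C] (t : C) (k w v : ℝ) (mass : C → ℕ → ℝ) : Set C :=
  {y | ∃ l : List (C × ℕ), (∀ z ∈ l, z.1 ≠ t ∧ 1 ≤ z.2 ∧ k ≤ mass z.1 z.2) ∧
    (l.map (fun z => ((z.2 : ℝ) + 1) * w)).sum ≤ v ∧ y = (l.map (fun z => z.1 * t⁻¹)).prod}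

section
variable {C : Type*} [CommGroup C] [Fintype C]

omit [CommGroup C] in
/-- the sums over the classes at one level -/
theorem TA_sum (d : ℕ) (L s : ℝ) (hL : 0 < L) (hs : 0 < s) (cl : ℕ → C) (F : C → ℂ) (f : ℕ → ℂ)
    (hf : ∀ p : ℕ, p.Prime → f p = if p.Coprime d then F (cl p) else 0) :
    ∑' p : Nat.Primes, f p * ((((p : ℕ) : ℝ) ^ (-(1 + s / L)) - ((p : ℕ) : ℝ) ^ (-(1 + 1 / L)) : ℝ) : ℂ) =
      ∑ x : C, F x * ((PA (fun p => p.Coprime d ∧ cl p = x) (fun p => pz L s p - pz L 1 p) : ℝ) : ℂ) := by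
  classical
  have hS : Summable (fun p : Nat.Primes => pz L s p - pz L 1 p) :=
    (pz_summable s L hs hL).sub (pz_summable 1 L one_pos hL)
  have h1 : ∀ x : C, ((PA (fun p => p.Coprime d ∧ cl p = x) (fun p => pz L s p - pz L 1 p) : ℝ) : ℂ) =
      ∑' p : Nat.Primes, (((if (p : ℕ).Coprime d ∧ cl p = x then (pz L s p - pz L 1 p) else 0 : ℝ)) : ℂ) := by
    intro x
    rw [← Complex.ofReal_tsum]
    congr 1
    unfold PA
    refine tsum_congr fun p => ?_
    by_cases hA : (p : ℕ).Coprime d ∧ cl p = x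
    · rw [if_pos hA, if_pos hA]
    · rw [if_neg hA, if_neg hA]
  have h2 : ∀ x : C, Summable (fun p : Nat.Primes => (((if (p : ℕ).Coprime d ∧ cl p = x then (pz L s p - pz L 1 p) else 0 : ℝ)) : ℂ)) := by
    intro x
    rw [Complex.summable_ofReal]
    refine (PA_summable (F := fun p => pz L s p - pz L 1 p) hS (fun p => p.Coprime d ∧ cl p = x)).congr fun p => ?_
    by_cases hA : (p : ℕ).Coprime d ∧ cl p = x
    · rw [if_pos hA, if_pos hA]
    · rw [if_neg hA, if_neg hA]
  simp_rw [h1, ← tsum_mul_left]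
  rw [← Summable.tsum_finsetSum (fun x _ => (h2 x).mul_left (F x))]
  refine tsum_congr fun p => ?_
  rw [hf p p.2]
  by_cases hp : (p : ℕ).Coprime d
  · rw [if_pos hp]
    have h3 : ∀ x ∈ (univ : Finset C), x ≠ cl p → F x * (((if (p : ℕ).Coprime d ∧ cl p = x then (pz L s p - pz L 1 p) else 0 : ℝ)) : ℂ) = 0 := by
      intro x _ hx
      rw [if_neg (fun h => hx h.2.symm)]
      simp
    rw [sum_eq_single (cl p) h3 (fun h => absurd (mem_univ _) h), if_pos ⟨hp, rfl⟩]
    rfl
  · rw [if_neg hp, zero_mul]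
    symm
    refine sum_eq_zero fun x _ => ?_
    rw [if_neg (fun h => hp h.1)]
    simp

omit [CommGroup C] in
/-- all primes: the classes and the primes dividing `d` -/
theorem TA_all (d : ℕ) (L s : ℝ) (hL : 0 < L) (hs : 0 < s) (cl : ℕ → C) :
    ∑' p : Nat.Primes, (((p : ℕ) : ℝ) ^ (-(1 + s / L)) - ((p : ℕ) : ℝ) ^ (-(1 + 1 / L))) =
      ∑ x : C, PA (fun p => p.Coprime d ∧ cl p = x) (fun p => pz L s p - pz L 1 p) +
        PA (fun p => ¬ p.Coprime d) (fun p => pz L s p - pz L 1 p) := by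
  classical
  have hS : Summable (fun p : Nat.Primes => pz L s p - pz L 1 p) :=
    (pz_summable s L hs hL).sub (pz_summable 1 L one_pos hL)
  have h2 : ∀ A : ℕ → Prop, Summable (fun p : Nat.Primes => if A p then (pz L s p - pz L 1 p) else 0) := by
    intro A
    refine (PA_summable (F := fun p => pz L s p - pz L 1 p) hS A).congr fun p => ?_
    by_cases hA : A p <;> simp [hA]
  have h1 : ∀ A : ℕ → Prop, PA A (fun p => pz L s p - pz L 1 p) = ∑' p : Nat.Primes, if A p then (pz L s p - pz L 1 p) else 0 := by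
    intro A
    unfold PA
    refine tsum_congr fun p => ?_
    by_cases hA : A p <;> simp [hA]
  have hx : ∀ x : C, Summable (fun p : Nat.Primes => if (p : ℕ).Coprime d ∧ cl p = x then (pz L s p - pz L 1 p) else 0) := by
    intro x
    refine (h2 (fun p => p.Coprime d ∧ cl p = x)).congr fun p => ?_
    by_cases hA : (p : ℕ).Coprime d ∧ cl p = x <;> simp [hA]
  have hy : Summable (fun p : Nat.Primes => if ¬ (p : ℕ).Coprime d then (pz L s p - pz L 1 p) else 0) := by
    refine (h2 (fun p => ¬ p.Coprime d)).congr fun p => ?_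
    by_cases hA : (p : ℕ).Coprime d <;> simp [hA]
  have h1x : ∀ x : C, PA (fun p => p.Coprime d ∧ cl p = x) (fun p => pz L s p - pz L 1 p) =
      ∑' p : Nat.Primes, if (p : ℕ).Coprime d ∧ cl p = x then (pz L s p - pz L 1 p) else 0 := by
    intro x
    rw [h1]
    refine tsum_congr fun p => ?_
    by_cases hA : (p : ℕ).Coprime d ∧ cl p = x <;> simp [hA]
  have h1y : PA (fun p => ¬ p.Coprime d) (fun p => pz L s p - pz L 1 p) =
      ∑' p : Nat.Primes, if ¬ (p : ℕ).Coprime d then (pz L s p - pz L 1 p) else 0 := by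
    rw [h1]
    refine tsum_congr fun p => ?_
    by_cases hA : (p : ℕ).Coprime d <;> simp [hA]
  rw [h1y, sum_congr rfl (fun x _ => h1x x), ← Summable.tsum_finsetSum (fun x _ => hx x), ← Summable.tsum_add (summable_sum fun x _ => hx x) hy]
  refine tsum_congr fun p => ?_
  by_cases hp : (p : ℕ).Coprime d
  · have h3 : ∀ x ∈ (univ : Finset C), x ≠ cl p → (if (p : ℕ).Coprime d ∧ cl p = x then (pz L s p - pz L 1 p) else 0) = 0 := by
      intro x _ hx
      rw [if_neg (fun h => hx h.2.symm)]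
    rw [sum_eq_single (cl p) h3 (fun h => absurd (mem_univ _) h), if_pos ⟨hp, rfl⟩, if_neg (fun h => h hp), add_zero]
    rfl
  · rw [if_pos hp]
    have h3 : ∀ x ∈ (univ : Finset C), (if (p : ℕ).Coprime d ∧ cl p = x then (pz L s p - pz L 1 p) else 0) = 0 := by
      intro x _
      rw [if_neg (fun h => hp h.1)]
    rw [sum_eq_zero h3, zero_add]
    rfl

end

end Pool.Agent.Lib.MP_42948a_nt.TS
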