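import Pool.Agent.Lib.MP_42948a_nt.TS.W4

/-!
# The theorem for a sequence of moduli: limits along an ultrafilter
-/

namespace Pool.Agent.Lib.MP_42948a_nt.TS

open Filter Finset

section
variable {C : Type*} [CommGroup C] [Fintype C]

/-- the class of primes -/
def AC (d : ℕ) (cl : ℕ → C) (x : C) (p : ℕ) : Prop := p.Coprime d ∧ cl p = x

omit [CommGroup C] [Fintype C] in
/-- the limits of the sums over the classes -/
theorem lim_class (U : Ultrafilter ℕ) (d : ℕ → ℕ) (L : ℕ → ℝ) (hL : Tendsto L (U : Filter ℕ) atTop)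
    (cl : ℕ → ℕ → C) (t : C) (α k : ℕ → ℝ) (hα : Tendsto α (U : Filter ℕ) (nhds 0)) (hα0 : ∀ m, 0 < α m)
    (hk : Tendsto k (U : Filter ℕ) (nhds 0)) (s0 : ℝ)
    (hsmall : ∀ x, x ≠ t → ∀ᶠ m in (U : Filter ℕ), ms (AC (d m) (cl m) x) (L m) (α m) s0 ≤ k m)
    (R : C → ℝ → ℝ) (s : ℝ) (hs : 0 < s)
    (hR : ∀ x, Tendsto (fun m => RA (AC (d m) (cl m) x) (L m) s0 s) (U : Filter ℕ) (nhds (R x s)))
    (hR1 : ∀ x, Tendsto (fun m => RA (AC (d m) (cl m) x) (L m) s0 1) (U : Filter ℕ) (nhds (R x 1)))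
    (x : C) (hx : x ≠ t) :
    Tendsto (fun m => PA (AC (d m) (cl m) x) (fun p => pz (L m) s p - pz (L m) 1 p)) (U : Filter ℕ)
      (nhds (R x s - R x 1)) := by
  obtain ⟨C1, L0, hC, hL0, h⟩ := TA_close s hs
  have h1 : Tendsto (fun m => PA (AC (d m) (cl m) x) (fun p => pz (L m) s p - pz (L m) 1 p) -
      (RA (AC (d m) (cl m) x) (L m) s0 s - RA (AC (d m) (cl m) x) (L m) s0 1)) (U : Filter ℕ) (nhds 0) := by
    have h2 : Tendsto (fun m => C1 * (α m + 1 / L m) + 2 * k m) (U : Filter ℕ) (nhds 0) := by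
      have h3 : Tendsto (fun m => 1 / L m) (U : Filter ℕ) (nhds 0) := by
        have := tendsto_inv_atTop_zero.comp hL
        refine this.congr fun m => ?_
        simp
      have h4 := ((hα.add h3).const_mul C1).add (hk.const_mul 2)
      simpa using h4
    refine squeeze_zero_norm' ?_ h2
    filter_upwards [hL.eventually_ge_atTop L0, hsmall x hx] with m hm1 hm2
    rw [Real.norm_eq_abs]
    refine (h (L m) hm1 (AC (d m) (cl m) x) (α m) s0 (hα0 m)).trans ?_
    linarith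
  have h2 := h1.add ((hR x).sub (hR1 x))
  simp only [zero_add] at h2
  refine h2.congr fun m => ?_
  ring

omit [CommGroup C] in
/-- the limit of the sum over all classes -/
theorem lim_all (U : Ultrafilter ℕ) (d : ℕ → ℕ) (hd : Tendsto d (U : Filter ℕ) atTop) (θ : ℝ) (hθ : 0 < θ)
    (cl : ℕ → ℕ → C) (s : ℝ) (hs : 0 < s) :
    Tendsto (fun m => ∑ x : C, PA (AC (d m) (cl m) x) (fun p => pz (θ * Real.log (d m)) s p - pz (θ * Real.log (d m)) 1 p))
      (U : Filter ℕ) (nhds (-Real.log s)) := by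
  have hlog : Tendsto (fun m => Real.log (d m : ℝ)) (U : Filter ℕ) atTop :=
    Real.tendsto_log_atTop.comp (tendsto_natCast_atTop_atTop.comp hd)
  have hL : Tendsto (fun m => θ * Real.log (d m : ℝ)) (U : Filter ℕ) atTop := hlog.const_mul_atTop hθ
  have h1 := (pr_log s hs).comp hL
  have h2 : Tendsto (fun m => PA (fun p => ¬ p.Coprime (d m)) (fun p => pz (θ * Real.log (d m)) s p - pz (θ * Real.log (d m)) 1 p))
      (U : Filter ℕ) (nhds 0) := by
    rw [Metric.tendsto_nhds]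
    intro ε hε
    obtain ⟨d0, hd0⟩ := dv_small s θ hs hθ (ε / 2) (by positivity)
    filter_upwards [hd.eventually_ge_atTop d0] with m hm
    rw [Real.dist_eq, sub_zero]
    exact lt_of_le_of_lt (hd0 (d m) hm) (by linarith)
  have h3 := h1.sub h2
  rw [sub_zero] at h3
  refine h3.congr' ?_
  filter_upwards [hL.eventually_gt_atTop 0] with m hm
  simp only [Function.comp]
  have h4 := TA_all (d m) (θ * Real.log (d m)) s hm hs (cl m)
  rw [h4]
  have h5 : ∀ x : C, PA (fun p => p.Coprime (d m) ∧ cl m p = x)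
      (fun p => pz (θ * Real.log (d m)) s p - pz (θ * Real.log (d m)) 1 p) =
      PA (AC (d m) (cl m) x) (fun p => pz (θ * Real.log (d m)) s p - pz (θ * Real.log (d m)) 1 p) := fun x => rfl
  simp_rw [h5]
  ring

open Classical in
/-- the identification of the limit functions -/
theorem lim_rel (U : Ultrafilter ℕ) (d : ℕ → ℕ) (hd : Tendsto d (U : Filter ℕ) atTop) (θ : ℝ) (hθ : 0 < θ)
    (cl : ℕ → ℕ → C) (t : C) (α k : ℕ → ℝ) (hα : Tendsto α (U : Filter ℕ) (nhds 0)) (hα0 : ∀ m, 0 < α m)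
    (hk : Tendsto k (U : Filter ℕ) (nhds 0)) (s0 : ℝ)
    (hsmall : ∀ x, x ≠ t → ∀ᶠ m in (U : Filter ℕ), ms (AC (d m) (cl m) x) (θ * Real.log (d m)) (α m) s0 ≤ k m)
    (R : C → ℝ → ℝ) (s : ℝ) (hs : 0 < s)
    (hR : ∀ x, Tendsto (fun m => RA (AC (d m) (cl m) x) (θ * Real.log (d m)) s0 s) (U : Filter ℕ) (nhds (R x s)))
    (hR1 : ∀ x, Tendsto (fun m => RA (AC (d m) (cl m) x) (θ * Real.log (d m)) s0 1) (U : Filter ℕ) (nhds (R x 1)))
    (ψ : AddChar (Additive C) ℂ) (χ : ∀ m, DirichletCharacter ℂ (d m))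
    (hχ : ∀ m (p : ℕ), p.Prime → χ m (p : ZMod (d m)) = if p.Coprime (d m) then evc ψ (cl m p) else 0)
    (G : ℂ) (hG : Tendsto (fun m => Complex.exp (∑' p : Nat.Primes, χ m ((p : ℕ) : ZMod (d m)) *
        (((((p : ℕ) : ℝ) ^ (-(1 + s / (θ * Real.log (d m)))) - ((p : ℕ) : ℝ) ^ (-(1 + 1 / (θ * Real.log (d m)))) : ℝ)) : ℂ)))
        (U : Filter ℕ) (nhds G)) :
    Complex.exp (Lam t (fun x => R x s) ψ) = Complex.exp (Lam t (fun x => R x 1) ψ) * (s : ℂ) ^ (evc ψ t) * G := by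
  have hlog : Tendsto (fun m => Real.log (d m : ℝ)) (U : Filter ℕ) atTop :=
    Real.tendsto_log_atTop.comp (tendsto_natCast_atTop_atTop.comp hd)
  have hL : Tendsto (fun m => θ * Real.log (d m : ℝ)) (U : Filter ℕ) atTop := hlog.const_mul_atTop hθ
  set P : ℕ → C → ℝ := fun m x => PA (AC (d m) (cl m) x) (fun p => pz (θ * Real.log (d m)) s p - pz (θ * Real.log (d m)) 1 p) with hP
  have e1 : ∀ x, x ≠ t → Tendsto (fun m => P m x) (U : Filter ℕ) (nhds (R x s - R x 1)) := fun x hx =>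
    lim_class U d (fun m => θ * Real.log (d m)) hL cl t α k hα hα0 hk s0 hsmall R s hs hR hR1 x hx
  have e2 : Tendsto (fun m => ∑ x : C, P m x) (U : Filter ℕ) (nhds (-Real.log s)) := lim_all U d hd θ hθ cl s hs
  -- the twisted sum
  have e3 : Tendsto (fun m => ∑ x ∈ univ.filter (fun x => x ≠ t), (evc ψ x - evc ψ t) * ((P m x : ℝ) : ℂ) +
      evc ψ t * ((∑ x : C, P m x : ℝ) : ℂ)) (U : Filter ℕ)
      (nhds (∑ x ∈ univ.filter (fun x => x ≠ t), (evc ψ x - evc ψ t) * ((R x s - R x 1 : ℝ) : ℂ) + evc ψ t * ((-Real.log s : ℝ) : ℂ))) := by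
    refine Tendsto.add ?_ (Tendsto.const_mul _ ((Complex.continuous_ofReal.tendsto _).comp e2))
    refine tendsto_finsetSum _ fun x hx => ?_
    exact Tendsto.const_mul _ ((Complex.continuous_ofReal.tendsto _).comp (e1 x (mem_filter.mp hx).2))
  have e4 : ∀ m, ∑ x ∈ univ.filter (fun x => x ≠ t), (evc ψ x - evc ψ t) * ((P m x : ℝ) : ℂ) +
      evc ψ t * ((∑ x : C, P m x : ℝ) : ℂ) = ∑ x : C, evc ψ x * ((P m x : ℝ) : ℂ) := by
    intro m
    have h1 : ∑ x ∈ univ.filter (fun x => x ≠ t), (evc ψ x - evc ψ t) * ((P m x : ℝ) : ℂ) =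
        ∑ x : C, (evc ψ x - evc ψ t) * ((P m x : ℝ) : ℂ) := by
      rw [sum_filter]
      refine sum_congr rfl fun x _ => ?_
      by_cases hx : x = t
      · rw [if_neg (fun h => h hx), hx]
        ring
      · rw [if_pos hx]
    rw [h1]
    push_cast
    rw [mul_sum, ← sum_add_distrib]
    refine sum_congr rfl fun x _ => ?_
    ring
  have e5 : Tendsto (fun m => Complex.exp (∑ x : C, evc ψ x * ((P m x : ℝ) : ℂ))) (U : Filter ℕ)
      (nhds (Complex.exp (∑ x ∈ univ.filter (fun x => x ≠ t), (evc ψ x - evc ψ t) * ((R x s - R x 1 : ℝ) : ℂ) +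
        evc ψ t * ((-Real.log s : ℝ) : ℂ)))) := by
    refine (Complex.continuous_exp.tendsto _).comp ?_
    exact e3.congr e4
  have e6 : Tendsto (fun m => Complex.exp (∑ x : C, evc ψ x * ((P m x : ℝ) : ℂ))) (U : Filter ℕ) (nhds G) := by
    refine hG.congr' ?_
    filter_upwards [hL.eventually_gt_atTop 0] with m hm
    congr 1
    exact TA_sum (d m) (θ * Real.log (d m)) s hm hs (cl m) (fun x => evc ψ x) (fun p => χ m (p : ZMod (d m))) (hχ m)
  have e7 := tendsto_nhds_unique e6 e5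
  rw [e7]
  have h0 : (s : ℂ) ≠ 0 := by exact_mod_cast hs.ne'
  rw [Complex.cpow_def_of_ne_zero h0, ← Complex.exp_add, ← Complex.exp_add]
  congr 1
  unfold Lam
  rw [← Complex.ofReal_log hs.le]
  have h2 : ∑ x ∈ univ.filter (fun x => x ≠ t), (evc ψ x - evc ψ t) * ((R x s - R x 1 : ℝ) : ℂ) =
      ∑ x ∈ univ.filter (fun x => x ≠ t), (evc ψ x - evc ψ t) * (R x s : ℂ) -
        ∑ x ∈ univ.filter (fun x => x ≠ t), (evc ψ x - evc ψ t) * (R x 1 : ℂ) := by
    rw [← sum_sub_distrib]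
    refine sum_congr rfl fun x _ => ?_
    push_cast
    ring
  rw [h2]
  push_cast
  ring

end

end Pool.Agent.Lib.MP_42948a_nt.TS
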