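import Pool.Agent.Lib.MP_42948a_nt.TS.W5

/-!
# The theorem for a sequence of moduli: conclusion
-/

namespace Pool.Agent.Lib.MP_42948a_nt.TS

open Filter Finset

section
variable {C : Type*} [CommGroup C] [Fintype C]

omit [Fintype C] in
/-- products of the sums over classes at one level -/
theorem level_prod (s0 w v : ℝ) (hs0 : 0 < s0) (hw : 0 < w) (hws : w ≤ s0) (J : ℕ) :
    ∃ B L0 : ℝ, 0 ≤ B ∧ 1 ≤ L0 ∧ ∀ L : ℝ, L0 ≤ L → ∀ (A : C → ℕ → Prop) (t : C) (k : ℝ), 0 ≤ k →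
      ∀ (ι : Type) [Fintype ι] (x : ι → C), Fintype.card ι ≤ J → (∀ i, x i ≠ t) →
        (∏ i, x i * t⁻¹) ∉ QS t k w v (fun x j => ms (A x) L (j * w) ((j + 1) * w)) →
        ∀ s : ℝ, 1 ≤ s → ∏ i, RA (A (x i)) L s0 s ≤ B * (Real.exp (-((v - J * w) * s)) + k) := by
  classical
  set j0 : ℕ := ⌊s0 / w⌋₊ with hj0
  have hj01 : 1 ≤ j0 := by
    rw [hj0, Nat.one_le_floor_iff, one_le_div hw]
    exact hws
  have hj0s : (j0 : ℝ) * w ≤ s0 := by
    have h1 : (j0 : ℝ) ≤ s0 / w := Nat.floor_le (by positivity)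
    rwa [le_div_iff₀ hw] at h1
  set j1 : ℕ := max ⌈v / w⌉₊ (j0 + 1) with hj1
  have hj1v : v ≤ (j1 : ℝ) * w := by
    have h1 : v / w ≤ (⌈v / w⌉₊ : ℝ) := Nat.le_ceil _
    have h2 : (⌈v / w⌉₊ : ℝ) ≤ j1 := by exact_mod_cast le_max_left _ _
    rw [← div_le_iff₀ hw]
    exact h1.trans h2
  have hj01' : j0 + 1 ≤ j1 := le_max_right _ _
  have hj0pos : (0 : ℝ) < j0 * w := by
    have : (0 : ℝ) < j0 := by exact_mod_cast hj01
    positivity
  have hj1pos : (0 : ℝ) < j1 * w := by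
    have : (0 : ℝ) < j1 := by exact_mod_cast (by omega : 0 < j1)
    positivity
  obtain ⟨C0, L0, hC0, hL0, hT0⟩ := RA_tail (j0 * w) hj0pos
  obtain ⟨C1, L1, hC1, hL1, hT1⟩ := RA_tail (j1 * w) hj1pos
  set K : ℝ := max (max 1 C1) (Real.exp (((j1 : ℝ) + 1) * w) * C0) with hK
  have hK1 : 1 ≤ K := (le_max_left _ _).trans (le_max_left _ _)
  have hKC1 : C1 ≤ K := (le_max_right _ _).trans (le_max_left _ _)
  have hKC0 : Real.exp (((j1 : ℝ) + 1) * w) * C0 ≤ K := le_max_right _ _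
  refine ⟨((j1 + 1 : ℕ) : ℝ) ^ J * K ^ J, max L0 L1, by positivity, hL0.trans (le_max_left _ _), ?_⟩
  intro L hL A t k hk ι _ x hcard hxt hxQ s hs
  have hLL0 : L0 ≤ L := (le_max_left _ _).trans hL
  have hLL1 : L1 ≤ L := (le_max_right _ _).trans hL
  have hLp : 0 < L := by linarith
  have hs0' : (0 : ℝ) < s := by linarith
  set ν : ι → ℕ → ℝ := fun i j => if j < j1 then ms (A (x i)) L (j * w) ((j + 1) * w) else K with hν
  refine prod_windows J hcard w v s K k hw hs0'.le hK1 hk j0 j1 hj1v (fun i => RA (A (x i)) L s0 s)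
    (fun i => RA_nonneg _ _ _ _) ν ?_ ?_ ?_ ?_
  · intro i j
    rw [hν]
    dsimp only
    split_ifs
    · exact ms_nonneg _ _ _ _
    · linarith
  · intro i j hj hj'
    rw [hν]
    dsimp only
    split_ifs with h1
    · refine (ms_le (A (x i)) L _ _ hLp).trans ?_
      have h2 : RA (A (x i)) L (j * w) 1 ≤ C0 := by
        have h3 : RA (A (x i)) L (j * w) 1 ≤ RA (A (x i)) L (j0 * w) 1 :=
          RA_anti _ _ _ _ _ hLp one_pos (mul_le_mul_of_nonneg_right (by exact_mod_cast hj) hw.le)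
        refine h3.trans ((hT0 L hLL0 (A (x i)) 1 le_rfl).trans ?_)
        refine mul_le_of_le_one_right hC0.le (Real.exp_le_one_iff.mpr ?_)
        linarith
      refine le_trans ?_ hKC0
      refine mul_le_mul ?_ h2 (RA_nonneg _ _ _ _) (Real.exp_pos _).le
      refine Real.exp_le_exp.mpr (mul_le_mul_of_nonneg_right ?_ hw.le)
      have : (j : ℝ) ≤ j1 := by exact_mod_cast hj'
      linarith
    · exact le_rfl
  · intro i
    have h1 : RA (A (x i)) L s0 s ≤ RA (A (x i)) L (j0 * w) s := RA_anti _ _ _ _ _ hLp hs0' hj0s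
    have h2 := RA_windows (A (x i)) L w s hLp hs0' hw j0 (j1 - j0)
    have h3 : j0 + (j1 - j0) = j1 := by omega
    rw [h3] at h2
    refine h1.trans (h2.trans ?_)
    have h4 : Icc j0 j1 = insert j1 (Ico j0 j1) := by
      ext j
      rw [mem_insert, mem_Icc, mem_Ico]
      omega
    rw [h4, sum_insert (by simp), add_comm]
    refine add_le_add ?_ (le_of_eq ?_)
    · rw [hν]
      dsimp only
      rw [if_neg (lt_irrefl _), mul_comm (Real.exp _) K]
      refine (hT1 L hLL1 (A (x i)) s hs).trans ?_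
      exact mul_le_mul_of_nonneg_right hKC1 (Real.exp_pos _).le
    · refine sum_congr rfl fun j hj => ?_
      rw [hν]
      dsimp only
      rw [if_pos (mem_Ico.mp hj).2]
  · intro p hp hsum
    by_contra hcon
    push Not at hcon
    apply hxQ
    refine ⟨(univ : Finset ι).toList.map (fun i => (x i, p i)), ?_, ?_, ?_⟩
    · intro z hz
      rw [List.mem_map] at hz
      obtain ⟨i, _, rfl⟩ := hz
      refine ⟨hxt i, hj01.trans (hp i).1, ?_⟩
      have h1 := hcon i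
      rw [hν] at h1
      dsimp only at h1
      rw [if_pos (hp i).2] at h1
      exact h1.le
    · rw [List.map_map]
      have h1 : (List.map ((fun z : C × ℕ => ((z.2 : ℝ) + 1) * w) ∘ fun i => (x i, p i)) (univ : Finset ι).toList).sum =
          ∑ i, ((p i : ℝ) + 1) * w := by
        rw [← Finset.sum_map_toList]
        rfl
      rw [h1]
      exact hsum
    · rw [List.map_map, ← Finset.prod_map_toList]
      rfl

/-- the same for wide windows -/
theorem level_prod' (s0 : ℝ) (hs0 : 0 < s0) (J : ℕ) :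
    ∃ B L0 : ℝ, 0 ≤ B ∧ 1 ≤ L0 ∧ ∀ L : ℝ, L0 ≤ L → ∀ (ι : Type) [Fintype ι] [Nonempty ι] (A : ι → ℕ → Prop), Fintype.card ι ≤ J →
        ∀ s : ℝ, 1 ≤ s → ∏ i, RA (A i) L s0 s ≤ B * Real.exp (-(s0 * s)) := by
  obtain ⟨C0, L0, hC0, hL0, hT0⟩ := RA_tail s0 hs0
  set K : ℝ := max 1 C0 with hK
  have hK1 : 1 ≤ K := le_max_left _ _
  refine ⟨K ^ J, L0, by positivity, hL0, fun L hL ι _ hne A hcard s hs => ?_⟩
  have h1 : ∏ i, RA (A i) L s0 s ≤ ∏ i : ι, (K * Real.exp (-(s0 * s))) := by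
    refine prod_le_prod (fun i _ => RA_nonneg _ _ _ _) fun i _ => ?_
    exact (hT0 L hL (A i) s hs).trans (mul_le_mul_of_nonneg_right (le_max_right _ _) (Real.exp_pos _).le)
  refine h1.trans ?_
  rw [prod_const, card_univ, mul_pow]
  have hc1 : 1 ≤ Fintype.card ι := Fintype.card_pos
  refine mul_le_mul (pow_le_pow_right₀ hK1 hcard) ?_ (by positivity) (by positivity)
  have h2 : Real.exp (-(s0 * s)) ≤ 1 := by
    refine Real.exp_le_one_iff.mpr ?_
    have : 0 < s0 * s := by nlinarith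
    linarith
  calc Real.exp (-(s0 * s)) ^ Fintype.card ι ≤ Real.exp (-(s0 * s)) ^ 1 := pow_le_pow_of_le_one (Real.exp_pos _).le h2 hc1
    _ = _ := pow_one _

end

end Pool.Agent.Lib.MP_42948a_nt.TS
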