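import Pool.Agent.Lib.MP_42948a_nt.TS.W6

/-!
# The theorem for a sequence of moduli and a fixed group
-/

namespace Pool.Agent.Lib.MP_42948a_nt.TS

open Filter Finset

section
variable {C : Type*} [CommGroup C] [Fintype C]

theorem an_seq (U : Ultrafilter ℕ) (d : ℕ → ℕ) (hd : Tendsto d (U : Filter ℕ) atTop) (θ c : ℝ) (hθ : 0 < θ) (hc : 0 < c)
    (cl : ℕ → ℕ → C) (χ : AddChar (Additive C) ℂ → ∀ m, DirichletCharacter ℂ (d m))
    (hχ : ∀ ψ m (p : ℕ), p.Prime → χ ψ m (p : ZMod (d m)) = if p.Coprime (d m) then evc ψ (cl m p) else 0)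
    (hB : ∀ ψ, ψ ≠ 0 → ∀ᶠ m in (U : Filter ℕ), ∀ N : ℕ, (d m : ℝ) ^ θ ≤ N →
      ‖∑ n ∈ Icc 1 N, χ ψ m (n : ZMod (d m))‖ ≤ N * (d m : ℝ) ^ (-c))
    (t : C) (α k : ℕ → ℝ) (hα : Tendsto α (U : Filter ℕ) (nhds 0)) (hα0 : ∀ m, 0 < α m)
    (hk : Tendsto k (U : Filter ℕ) (nhds 0)) (hk0 : ∀ m, 0 ≤ k m)
    (s0 w v : ℝ) (hs0 : 0 < s0) (hw : 0 < w) (J : ℕ) (hJ : 1 ≤ J) (hv1 : 1 < v - J * w) (hv2 : v - J * w ≤ (J + 1) * s0)
    (hv3 : v ≤ (J + 1) * s0)
    (hsmall : ∀ x, x ≠ t → ∀ᶠ m in (U : Filter ℕ), ms (AC (d m) (cl m) x) (θ * Real.log (d m)) (α m) s0 ≤ k m)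
    (h : C) (hmiss : ∀ i, i ≤ J → ∀ᶠ m in (U : Filter ℕ), h * (t ^ i)⁻¹ ∉
      QS t (k m) w v (fun x j => ms (AC (d m) (cl m) x) (θ * Real.log (d m)) (j * w) ((j + 1) * w))) : False := by
  classical
  have hlog : Tendsto (fun m => Real.log (d m : ℝ)) (U : Filter ℕ) atTop :=
    Real.tendsto_log_atTop.comp (tendsto_natCast_atTop_atTop.comp hd)
  have hL : Tendsto (fun m => θ * Real.log (d m : ℝ)) (U : Filter ℕ) atTop := hlog.const_mul_atTop hθ
  have hv0 : 0 ≤ v := by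
    have : (0 : ℝ) ≤ J * w := by positivity
    linarith
  -- limits of the class sums
  obtain ⟨Ct, Lt, hCt, hLt, hT⟩ := RA_tail s0 hs0
  have hex : ∀ (x : C) (s : ℝ), ∃ l : ℝ, 1 ≤ s → 0 ≤ l ∧ l ≤ Ct * Real.exp (-(s0 * s)) ∧
      Tendsto (fun m => RA (AC (d m) (cl m) x) (θ * Real.log (d m)) s0 s) (U : Filter ℕ) (nhds l) := by
    intro x s
    by_cases hs : 1 ≤ s
    · have h1 : ∀ᶠ m in (U : Filter ℕ), 0 ≤ RA (AC (d m) (cl m) x) (θ * Real.log (d m)) s0 s ∧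
          RA (AC (d m) (cl m) x) (θ * Real.log (d m)) s0 s ≤ Ct * Real.exp (-(s0 * s)) := by
        filter_upwards [hL.eventually_ge_atTop Lt] with m hm
        exact ⟨RA_nonneg _ _ _ _, hT _ hm _ s hs⟩
      obtain ⟨l, hl1, hl2, hl3⟩ := ulim U _ _ _ h1
      exact ⟨l, fun _ => ⟨hl1, hl2, hl3⟩⟩
    · exact ⟨0, fun h1 => absurd h1 hs⟩
  choose R hR using hex
  -- the entire functions
  have hGex : ∀ ψ : AddChar (Additive C) ℂ, ∃ G : ℂ → ℂ, ∃ (M : ℝ) (n : ℕ), ψ ≠ 0 → Differentiable ℂ G ∧ 0 ≤ M ∧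
      (∀ s : ℂ, ‖G s‖ ≤ M * (1 + ‖s‖) ^ n * Real.exp (max 0 (-s.re))) ∧
      ∀ s : ℝ, 0 < s → Tendsto (fun m => Complex.exp (∑' p : Nat.Primes, χ ψ m ((p : ℕ) : ZMod (d m)) *
        (((((p : ℕ) : ℝ) ^ (-(1 + s / (θ * Real.log (d m)))) - ((p : ℕ) : ℝ) ^ (-(1 + 1 / (θ * Real.log (d m)))) : ℝ)) : ℂ)))
        (U : Filter ℕ) (nhds (G s)) := by
    intro ψ
    by_cases hψ : ψ = 0
    · exact ⟨fun _ => 0, 0, 0, fun h1 => absurd hψ h1⟩
    · obtain ⟨G, hG1, ⟨M, n, hM⟩, hG2⟩ := lim_G U d hd θ c hθ hc (χ ψ) (hB ψ hψ)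
      refine ⟨G, M, n, fun _ => ⟨hG1, ?_, hM, hG2⟩⟩
      have h1 := hM 0
      simp only [norm_zero, add_zero, one_pow, mul_one, Complex.zero_re, neg_zero, max_self, Real.exp_zero] at h1
      exact (norm_nonneg _).trans h1
  choose G M n hG using hGex
  -- uniform growth
  set Mt : ℝ := ∑ ψ : AddChar (Additive C) ℂ, |M ψ| with hMt
  set Nt : ℕ := ∑ ψ : AddChar (Additive C) ℂ, n ψ with hNt
  -- products
  have hprod : ∃ B L0 : ℝ, 0 ≤ B ∧ 1 ≤ L0 ∧ ∀ m : ℕ, L0 ≤ θ * Real.log (d m) →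
      ∀ (ι : Type) [Fintype ι] (x : ι → C), Fintype.card ι ≤ J → (∀ i, x i ≠ t) →
        (∏ i, x i * t⁻¹) ∉ QS t (k m) w v (fun x j => ms (AC (d m) (cl m) x) (θ * Real.log (d m)) (j * w) ((j + 1) * w)) →
        ∀ s : ℝ, 1 ≤ s → ∏ i, RA (AC (d m) (cl m) (x i)) (θ * Real.log (d m)) s0 s ≤
          B * (Real.exp (-((v - J * w) * s)) + k m) := by
    by_cases hws : w ≤ s0
    · obtain ⟨B, L0, hB0, hL0, hBL⟩ := level_prod (C := C) s0 w v hs0 hw hws J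
      exact ⟨B, L0, hB0, hL0, fun m hm ι _ x hcard hxt hxQ s hs =>
        hBL _ hm (fun x => AC (d m) (cl m) x) t (k m) (hk0 m) ι x hcard hxt hxQ s hs⟩
    · push Not at hws
      obtain ⟨B, L0, hB0, hL0, hBL⟩ := level_prod' s0 hs0 J
      refine ⟨B, L0, hB0, hL0, fun m hm ι _ x hcard hxt hxQ s hs => ?_⟩
      rcases isEmpty_or_nonempty ι with he | he
      · exfalso
        apply hxQ
        refine ⟨[], by simp, by simpa using hv0, by simp⟩
      · refine (hBL _ hm ι (fun i => AC (d m) (cl m) (x i)) hcard s hs).trans ?_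
        refine mul_le_mul_of_nonneg_left ?_ hB0
        have h1 : Real.exp (-(s0 * s)) ≤ Real.exp (-((v - J * w) * s)) := by
          refine Real.exp_le_exp.mpr ?_
          have h2 : v - J * w ≤ s0 := by
            have h3 : (J : ℝ) * s0 ≤ J * w := mul_le_mul_of_nonneg_left hws.le (Nat.cast_nonneg _)
            nlinarith
          have h4 : (v - J * w) * s ≤ s0 * s := mul_le_mul_of_nonneg_right h2 (by linarith)
          linarith
        linarith [hk0 m]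
  obtain ⟨B, L0, hB0, hL0, hBL⟩ := hprod
  refine an_limit t J hJ s0 (v - J * w) 1 (Ct + B) hs0.le zero_le_one hv1 hv2 R ?_ ?_
    {y | ∀ᶠ m in (U : Filter ℕ), y ∈ QS t (k m) w v (fun x j => ms (AC (d m) (cl m) x) (θ * Real.log (d m)) (j * w) ((j + 1) * w))}
    ?_ ?_ G ?_ Mt Nt ?_ ?_ h ?_
  · exact fun x _ s hs => (hR x s hs).1
  · intro x _ s hs
    refine (hR x s hs).2.1.trans ?_
    exact mul_le_mul_of_nonneg_right (by linarith) (Real.exp_pos _).le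
  · refine Eventually.of_forall fun m => ⟨[], by simp, by simpa using hv0, by simp⟩
  · intro ι _ x hcard hxt hxQ s hs
    have h1 : ∀ᶠ m in (U : Filter ℕ), (∏ i, x i * t⁻¹) ∉
        QS t (k m) w v (fun x j => ms (AC (d m) (cl m) x) (θ * Real.log (d m)) (j * w) ((j + 1) * w)) :=
      Ultrafilter.eventually_not.mpr hxQ
    have h2 : Tendsto (fun m => ∏ i, RA (AC (d m) (cl m) (x i)) (θ * Real.log (d m)) s0 s) (U : Filter ℕ)
        (nhds (∏ i, R (x i) s)) := tendsto_finsetProd _ fun i _ => (hR (x i) s hs).2.2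
    have h3 : Tendsto (fun m => B * (Real.exp (-((v - J * w) * s)) + k m)) (U : Filter ℕ)
        (nhds (B * (Real.exp (-((v - J * w) * s)) + 0))) := (hk.const_add _).const_mul _
    rw [add_zero] at h3
    have h4 : ∏ i, R (x i) s ≤ B * Real.exp (-((v - J * w) * s)) := by
      refine le_of_tendsto_of_tendsto h2 h3 ?_
      filter_upwards [h1, hL.eventually_ge_atTop L0] with m hm1 hm2
      exact hBL m hm2 ι x hcard hxt hm1 s hs
    refine h4.trans ?_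
    exact mul_le_mul_of_nonneg_right (by linarith) (Real.exp_pos _).le
  · exact fun ψ hψ => (hG ψ hψ).1
  · intro ψ hψ s
    rw [one_mul]
    refine ((hG ψ hψ).2.2.1 s).trans ?_
    refine mul_le_mul_of_nonneg_right ?_ (Real.exp_pos _).le
    have h1 : M ψ ≤ Mt := by
      refine (le_abs_self _).trans ?_
      exact single_le_sum (f := fun ψ => |M ψ|) (fun _ _ => abs_nonneg _) (mem_univ ψ)
    have h2 : (1 + ‖s‖) ^ n ψ ≤ (1 + ‖s‖) ^ Nt := by
      refine pow_le_pow_right₀ (by linarith [norm_nonneg s]) ?_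
      exact single_le_sum (f := n) (fun _ _ => Nat.zero_le _) (mem_univ ψ)
    exact mul_le_mul h1 h2 (by positivity) ((hG ψ hψ).2.1.trans h1)
  · intro ψ hψ s hs
    exact lim_rel U d hd θ hθ cl t α k hα hα0 hk s0 hsmall R s (by linarith) (fun x => (hR x s hs).2.2)
      (fun x => (hR x 1 le_rfl).2.2) ψ (χ ψ) (hχ ψ) (G ψ s) ((hG ψ hψ).2.2.2 s (by linarith))
  · intro i hi hcon
    have h1 := hmiss i hi
    have h2 := (h1.and hcon).exists
    obtain ⟨m, hm1, hm2⟩ := h2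
    exact hm1 hm2

end

end Pool.Agent.Lib.MP_42948a_nt.TS
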