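import Mathlib

/-!
# Transport to a fixed group along an ultrafilter
-/

namespace Pool.Agent.Lib.MP_42948a_nt.TS

open Filter

theorem pigeon {α : Type*} [Finite α] (U : Ultrafilter ℕ) (f : ℕ → α) : ∃ a, ∀ᶠ m in (U : Filter ℕ), f m = a := by
  obtain ⟨a, ha⟩ := (U.map f).eq_pure_of_finite
  refine ⟨a, ?_⟩
  have h1 : ({a} : Set α) ∈ U.map f := by
    rw [ha]
    exact Set.mem_singleton a
  exact h1

open Classical in
theorem transport (U : Ultrafilter ℕ) (Gm : ℕ → Type) [∀ m, CommGroup (Gm m)] [∀ m, Finite (Gm m)] (M : ℕ)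
    (hM : ∀ m, Nat.card (Gm m) ≤ M) :
    ∃ m0, ∃ Φ : ∀ m, Gm m →* Gm m0, ∀ᶠ m in (U : Filter ℕ), Function.Bijective (Φ m) := by
  obtain ⟨n, hn⟩ := pigeon U (fun m => (⟨Nat.card (Gm m), Nat.lt_succ_of_le (hM m)⟩ : Fin (M + 1)))
  have hn' : ∀ᶠ m in (U : Filter ℕ), Nat.card (Gm m) = (n : ℕ) := by
    filter_upwards [hn] with m hm
    exact congrArg Fin.val hm
  have h2 : ∀ m, ∃ tab : Fin n → Fin n → Fin n, Nat.card (Gm m) = (n : ℕ) →
      ∃ e : Gm m ≃ Fin n, ∀ x y, e (x * y) = tab (e x) (e y) := by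
    intro m
    by_cases h : Nat.card (Gm m) = (n : ℕ)
    · set e : Gm m ≃ Fin n := Finite.equivFinOfCardEq h
      refine ⟨fun i j => e (e.symm i * e.symm j), fun _ => ⟨e, fun x y => ?_⟩⟩
      simp
    · exact ⟨fun i _ => i, fun h' => absurd h' h⟩
  choose tab htab using h2
  obtain ⟨T, hT⟩ := pigeon U tab
  obtain ⟨m0, hm0a, hm0b⟩ := (hn'.and hT).exists
  obtain ⟨e0, he0⟩ := htab m0 hm0a
  have h3 : ∀ m, ∃ φ : Gm m →* Gm m0, (Nat.card (Gm m) = (n : ℕ) ∧ tab m = T) → Function.Bijective φ := by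
    intro m
    by_cases h : Nat.card (Gm m) = (n : ℕ) ∧ tab m = T
    · obtain ⟨e, he⟩ := htab m h.1
      have hmul : ∀ x y, (e.trans e0.symm) (x * y) = (e.trans e0.symm) x * (e.trans e0.symm) y := by
        intro x y
        apply e0.injective
        rw [he0]
        simp only [Equiv.trans_apply, Equiv.apply_symm_apply]
        rw [he, h.2, hm0b]
      refine ⟨(MulEquiv.mk' (e.trans e0.symm) hmul).toMonoidHom, fun _ => ?_⟩
      exact (e.trans e0.symm).bijective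
    · exact ⟨1, fun h' => absurd h' h⟩
  choose Φ hΦ using h3
  refine ⟨m0, Φ, ?_⟩
  filter_upwards [hn', hT] with m h4 h5
  exact hΦ m ⟨h4, h5⟩

end Pool.Agent.Lib.MP_42948a_nt.TS
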