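import Pool.Agent.Lib.MP_42948a_nt.TS.Defs
import Pool.Agent.Lib.MP_42948a_nt.TS.W7
import Pool.Agent.Lib.MP_42948a_nt.TS.W8

/-!
# The contract of the analytic part
-/

namespace Pool.Agent.Lib.MP_42948a_nt.TS

open Filter Finset Pool.Agent.Lib.MP_42948a_nt.OA Pool.Agent.Lib.MP_42948a_nt.TQ Pool.Agent.Lib.MP_42948a_nt.PS
  Pool.Agent.Lib.MP_42948a_nt.TF

/-- windows in the two notations -/
theorem mem_PW_iff {d : ℕ} (hd : 2 ≤ d) (a b : ℝ) (p : ℕ) :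
    p ∈ PW d a b ↔ p.Prime ∧ p.Coprime d ∧ a * Real.log d < Real.log p ∧ Real.log p ≤ b * Real.log d := by
  have hd0 : (0 : ℝ) < d := by exact_mod_cast (by omega : 0 < d)
  unfold PW primesOff
  rw [mem_filter, mem_Icc]
  have key1 : p.Prime → (⌊(d : ℝ) ^ a⌋₊ < p ↔ a * Real.log d < Real.log p) := by
    intro hp
    have hp0 : (0 : ℝ) < p := by exact_mod_cast hp.pos
    rw [Nat.floor_lt (Real.rpow_nonneg hd0.le a), ← Real.log_rpow hd0]
    exact (Real.log_lt_log_iff (Real.rpow_pos_of_pos hd0 a) hp0).symm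
  have key2 : p.Prime → (p ≤ ⌊(d : ℝ) ^ b⌋₊ ↔ Real.log p ≤ b * Real.log d) := by
    intro hp
    have hp0 : (0 : ℝ) < p := by exact_mod_cast hp.pos
    rw [Nat.le_floor_iff (Real.rpow_nonneg hd0.le b), ← Real.log_rpow hd0]
    exact (Real.log_le_log_iff hp0 (Real.rpow_pos_of_pos hd0 b)).symm
  constructor
  · rintro ⟨⟨_, h2⟩, h3, h4, h5⟩
    exact ⟨h3, (Nat.Prime.coprime_iff_not_dvd h3).mpr h5, (key1 h3).mp h4, (key2 h3).mp h2⟩
  · rintro ⟨h1, h2, h3, h4⟩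
    exact ⟨⟨h1.one_le, (key2 h1).mpr h4⟩, h1, (key1 h1).mpr h3, (Nat.Prime.coprime_iff_not_dvd h1).mp h2⟩

/-- the mass of a class in the two notations -/
theorem mc_eq {d : ℕ} (hd : 2 ≤ d) (N : Subgroup (ZMod d)ˣ) (θ a b : ℝ) (hθ : 0 < θ) {C : Type*} [CommGroup C]
    (φ : ((ZMod d)ˣ ⧸ N) →* C) (hφ : Function.Injective φ) (x : (ZMod d)ˣ ⧸ N) :
    ms (AC d (fun p => φ ((ucl d p : (ZMod d)ˣ) : (ZMod d)ˣ ⧸ N)) (φ x)) (θ * Real.log d) (a / θ) (b / θ) = mc d N a b x := by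
  classical
  unfold ms mc
  refine sum_congr ?_ fun _ _ => rfl
  ext p
  rw [mem_WA, mem_filter, mem_PW_iff hd]
  unfold AC
  have e1 : a / θ * (θ * Real.log d) = a * Real.log d := by
    field_simp
  have e2 : b / θ * (θ * Real.log d) = b * Real.log d := by
    field_simp
  rw [e1, e2]
  constructor
  · rintro ⟨h1, ⟨h2, h3⟩, h4, h5⟩
    exact ⟨⟨h1, h2, h4, h5⟩, hφ h3⟩
  · rintro ⟨⟨h1, h2, h4, h5⟩, h3⟩
    exact ⟨h1, ⟨h2, congrArg φ h3⟩, h4, h5⟩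

/-- the Dirichlet character of a character of the quotient -/
noncomputable def chq {d : ℕ} (N : Subgroup (ZMod d)ˣ) {C : Type*} [CommGroup C] (φ : ((ZMod d)ˣ ⧸ N) →* C)
    (ψ : AddChar (Additive C) ℂ) : DirichletCharacter ℂ d :=
  MulChar.ofUnitHom (MonoidHom.toHomUnits
    { toFun := fun u : (ZMod d)ˣ => evc ψ (φ ((u : (ZMod d)ˣ) : (ZMod d)ˣ ⧸ N))
      map_one' := by
        rw [QuotientGroup.mk_one, map_one, evc_one]
      map_mul' := fun u v => by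
        rw [QuotientGroup.mk_mul, map_mul, evc_mul] })

theorem chq_unit {d : ℕ} (N : Subgroup (ZMod d)ˣ) {C : Type*} [CommGroup C] (φ : ((ZMod d)ˣ ⧸ N) →* C)
    (ψ : AddChar (Additive C) ℂ) (u : (ZMod d)ˣ) :
    chq N φ ψ (u : ZMod d) = evc ψ (φ ((u : (ZMod d)ˣ) : (ZMod d)ˣ ⧸ N)) := by
  unfold chq
  rw [MulChar.ofUnitHom_coe]
  rfl

theorem chq_nat {d : ℕ} (N : Subgroup (ZMod d)ˣ) {C : Type*} [CommGroup C] (φ : ((ZMod d)ˣ ⧸ N) →* C)
    (ψ : AddChar (Additive C) ℂ) (p : ℕ) :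
    chq N φ ψ (p : ZMod d) = if p.Coprime d then evc ψ (φ ((ucl d p : (ZMod d)ˣ) : (ZMod d)ˣ ⧸ N)) else 0 := by
  by_cases hp : p.Coprime d
  · rw [if_pos hp, ← ucl_val hp, chq_unit]
  · rw [if_neg hp]
    refine MulChar.map_nonunit _ ?_
    rw [ZMod.isUnit_iff_coprime]
    exact hp

theorem chq_ne_one {d : ℕ} (N : Subgroup (ZMod d)ˣ) {C : Type*} [CommGroup C] (φ : ((ZMod d)ˣ ⧸ N) →* C)
    (hφ : Function.Surjective φ) (ψ : AddChar (Additive C) ℂ) (hψ : ψ ≠ 0) : chq N φ ψ ≠ 1 := by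
  intro h
  apply hψ
  ext x
  obtain ⟨y, hy⟩ := hφ (Additive.toMul x)
  obtain ⟨u, rfl⟩ := QuotientGroup.mk_surjective y
  have h1 := chq_unit N φ ψ u
  rw [h, MulChar.one_apply_coe, hy] at h1
  unfold evc at h1
  rw [ofMul_toMul] at h1
  rw [← h1]
  simp

/-- the contract for one `J ≥ 1` -/
theorem anp (J : ℕ) (hJ : 1 ≤ J) : ANP J := by
  intro θ c s0 v w M hθ hc hs0 hw hv1 hv2
  by_contra hcon
  push Not at hcon
  -- the sequence
  have h1 : ∀ m : ℕ, ∃ (α : ℝ) (d : ℕ) (_ : NeZero d) (N : Subgroup (ZMod d)ˣ) (t x : (ZMod d)ˣ ⧸ N),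
      0 < α ∧ α ≤ 1 / ((m : ℝ) + 1) ∧ m + 2 ≤ d ∧ BA θ c d ∧ N.index ≤ M ∧
      (∀ x, x ≠ t → mc d N α s0 x ≤ 1 / ((m : ℝ) + 1)) ∧
      ∀ j : ℕ, j ≤ J → x * (t ^ j)⁻¹ ∉ QQ d N t w (1 / ((m : ℝ) + 1)) v := by
    intro m
    obtain ⟨α, hα0, hα1, h2⟩ := hcon (1 / ((m : ℝ) + 1)) (by positivity)
    obtain ⟨d, hd, hne, hBA, N, t, hidx, _, hmc, x, hx⟩ := h2 (1 / ((m : ℝ) + 1)) (by positivity) (m + 2)
    exact ⟨α, d, hne, N, t, x, hα0, hα1, hd, hBA, hidx, hmc, hx⟩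
  choose α d hne N t x hα0 hα1 hd hBA hidx hmc hx using h1
  have hNf : ∀ m, Finite ((ZMod (d m))ˣ ⧸ N m) := fun m => inferInstance
  set U : Ultrafilter ℕ := Filter.hyperfilter ℕ with hU
  have hUle : (U : Filter ℕ) ≤ atTop := by
    rw [hU, ← Nat.cofinite_eq_atTop]
    exact Filter.hyperfilter_le_cofinite
  obtain ⟨m0, Φ, hΦ⟩ := transport U (fun m => (ZMod (d m))ˣ ⧸ N m) M (fun m => by
    have h3 := hidx m
    rwa [Subgroup.index] at h3)
  have : Fintype ((ZMod (d m0))ˣ ⧸ N m0) := Fintype.ofFinite _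
  obtain ⟨t0, ht0⟩ := pigeon U (fun m => Φ m (t m))
  obtain ⟨x0, hx0⟩ := pigeon U (fun m => Φ m (x m))
  have hdT : Tendsto d (U : Filter ℕ) atTop := by
    refine Tendsto.mono_left ?_ hUle
    refine tendsto_atTop_mono (f := fun m => m) (fun m => ?_) tendsto_id
    have := hd m
    omega
  have hone : Tendsto (fun m : ℕ => 1 / ((m : ℝ) + 1)) (U : Filter ℕ) (nhds 0) :=
    tendsto_one_div_add_atTop_nhds_zero_nat.mono_left hUle
  have hα : Tendsto (fun m => α m / θ) (U : Filter ℕ) (nhds 0) := by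
    have h3 : Tendsto α (U : Filter ℕ) (nhds 0) :=
      squeeze_zero (fun m => (hα0 m).le) hα1 hone
    have := h3.div_const θ
    simpa using this
  refine an_seq U d hdT θ c hθ hc (fun m p => Φ m ((ucl (d m) p : (ZMod (d m))ˣ) : (ZMod (d m))ˣ ⧸ N m))
    (fun ψ m => chq (N m) (Φ m) ψ) (fun ψ m p _ => chq_nat (N m) (Φ m) ψ p) ?_ t0 (fun m => α m / θ) (fun m => 1 / ((m : ℝ) + 1))
    hα (fun m => div_pos (hα0 m) hθ) hone (fun m => by positivity) (s0 / θ) (w / θ) (v / θ) (div_pos hs0 hθ) (div_pos hw hθ)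
    J hJ ?_ ?_ ?_ ?_ x0 ?_
  · intro ψ hψ
    filter_upwards [hΦ] with m hm
    exact hBA m (chq (N m) (Φ m) ψ) (chq_ne_one (N m) (Φ m) hm.2 ψ hψ)
  · rw [← mul_div_assoc, ← sub_div, lt_div_iff₀ hθ]
    linarith
  · rw [← mul_div_assoc, ← mul_div_assoc, ← sub_div, div_le_div_iff_of_pos_right hθ]
    have : (0 : ℝ) ≤ J * w := by positivity
    linarith
  · rw [← mul_div_assoc, div_le_div_iff_of_pos_right hθ]
    exact hv2
  · intro y hy
    filter_upwards [hΦ, ht0] with m hm htm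
    obtain ⟨z, hz⟩ := hm.2 y
    rw [← hz, mc_eq (by have := hd m; omega) (N m) θ (α m) s0 hθ (Φ m) hm.1 z]
    refine hmc m z ?_
    rintro rfl
    exact hy (hz.symm.trans htm)
  · intro i hi
    filter_upwards [hΦ, ht0, hx0] with m hm htm hxm
    intro hQ
    apply hx m i hi
    obtain ⟨l, hl1, hl2, hl3⟩ := hQ
    have hd2 : 2 ≤ d m := by have := hd m; omega
    set Ψ : ((ZMod (d m0))ˣ ⧸ N m0) → ((ZMod (d m))ˣ ⧸ N m) := Function.surjInv hm.2 with hΨ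
    have hΨr : ∀ y, Φ m (Ψ y) = y := fun y => Function.surjInv_eq hm.2 y
    refine ⟨l.map (fun z => (Ψ z.1, z.2)), ?_, ?_, ?_⟩
    · intro y hy
      rw [List.mem_map] at hy
      obtain ⟨z, hz, rfl⟩ := hy
      obtain ⟨h3, h4, h5⟩ := hl1 z hz
      refine ⟨?_, h4, ?_⟩
      · intro h6
        apply h3
        rw [← hΨr z.1]
        dsimp only at h6
        rw [h6]
        exact htm
      · have h6 := mc_eq hd2 (N m) θ (w * z.2) (w * (z.2 + 1)) hθ (Φ m) hm.1 (Ψ z.1)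
        dsimp only
        rw [← h6, hΨr, show w * (z.2 : ℝ) / θ = (z.2 : ℝ) * (w / θ) by ring,
          show w * ((z.2 : ℝ) + 1) / θ = ((z.2 : ℝ) + 1) * (w / θ) by ring]
        exact h5
    · rw [List.map_map]
      have h3 : (List.map ((fun y : ((ZMod (d m))ˣ ⧸ N m) × ℕ => w * ((y.2 : ℝ) + 1)) ∘ fun z => (Ψ z.1, z.2)) l).sum =
          θ * (List.map (fun z : ((ZMod (d m0))ˣ ⧸ N m0) × ℕ => ((z.2 : ℝ) + 1) * (w / θ)) l).sum := by
        rw [← List.sum_map_mul_left]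
        congr 1
        refine List.map_congr_left fun z _ => ?_
        simp only [Function.comp]
        field_simp
      rw [h3]
      rwa [le_div_iff₀ hθ, mul_comm] at hl2
    · apply hm.1
      rw [map_list_prod, List.map_map, List.map_map, map_mul, map_inv, map_pow, htm, hxm, hl3]
      congr 1
      refine List.map_congr_left fun z _ => ?_
      simp only [Function.comp]
      rw [map_div, hΨr, htm, div_eq_mul_inv]

end Pool.Agent.Lib.MP_42948a_nt.TS
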