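import Pool.Agent.Lib.MP_42948a_nt.TF.M1

/-!
# The weight of a window, uniformly
-/

namespace Pool.Agent.Lib.MP_42948a_nt.TS

open Finset Pool.Agent.Lib.MP_42948a_nt.OA Pool.Agent.Lib.MP_42948a_nt.TQ Pool.Agent.Lib.MP_42948a_nt.PS
  Pool.Agent.Lib.MP_42948a_nt.TF

/-- for `0 < α`, `0 < w` and large `d` every window of length at least `w` in `[α, 1]` has weight at least `w / 2` -/
theorem win_ge (α w : ℝ) (hα : 0 < α) (hw : 0 < w) : ∃ d0 : ℕ, ∀ d : ℕ, d0 ≤ d → ∀ a b : ℝ, α ≤ a → a + w ≤ b → b ≤ 1 →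
    w / 2 ≤ Wt (PW d a b) := by
  obtain ⟨d0, h0⟩ := win α 1 (w / 2) hα (by linarith)
  refine ⟨d0, fun d hd a b ha hab hb => ?_⟩
  have h1 := (abs_le.1 (h0 d hd a b ha (by linarith) hb)).1
  have ha0 : 0 < a := lt_of_lt_of_le hα ha
  have hb0 : 0 < b := by linarith
  have h2 := Real.one_sub_inv_le_log_of_pos (div_pos hb0 ha0)
  have h3 : w ≤ 1 - (b / a)⁻¹ := by
    rw [inv_div, one_sub_div hb0.ne', le_div_iff₀ hb0]
    nlinarith
  unfold Wt
  linarith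

end Pool.Agent.Lib.MP_42948a_nt.TS
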