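import Pool.Agent.Lib.MP_42948a_nt.TS.Z1
import Pool.Agent.Lib.MP_42948a_nt.TS.BAI

/-!
# Exactly `K` primes in almost all classes: from units to integers
-/

set_option linter.unusedSectionVars false

namespace Pool.Agent.Lib.MP_42948a_nt.TS

open Finset Pool.Agent.Lib.MP_42948a_nt.OA Pool.Agent.Lib.MP_42948a_nt.TQ Pool.Agent.Lib.MP_42948a_nt.PS
  Pool.Agent.Lib.MP_42948a_nt.TF

/-- the class of `a` mod `d` contains a product of exactly `K` primes, all `> d ^ c`, which is at most `d ^ E` -/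
def Rp (d : ℕ) (E c : ℝ) (K a : ℕ) : Prop :=
  ∃ n : ℕ, n ≡ a [MOD d] ∧ ArithmeticFunction.cardFactors n = K ∧ (∀ p : ℕ, p.Prime → p ∣ n → (d : ℝ) ^ c < p) ∧ (n : ℝ) ≤ (d : ℝ) ^ E

theorem unr_of_rp {d : ℕ} {E c : ℝ} {K a : ℕ} (hK : K ≠ 0) (ha : a.Coprime d) (h : ¬ Rp d E c K a) : Unr d E c K (ucl d a) := by
  intro n hn hr hΩ heq
  apply h
  rw [ucl_val ha] at heq
  refine ⟨n, (ZMod.natCast_eq_natCast_iff n a d).1 heq, hΩ, fun p hp hpn => ?_, hn⟩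
  exact Nat.lt_of_floor_lt (hr.2 p hp hpn)

open Classical in
theorem card_le_of_mu {d : ℕ} [NeZero d] {P : ℕ → Prop} {Q : (ZMod d)ˣ → Prop} (h : ∀ a, a.Coprime d → P a → Q (ucl d a)) {κ : ℝ}
    (hμ : mu {z : (ZMod d)ˣ | Q z} ≤ κ) :
    (((range d).filter (fun a => a.Coprime d ∧ P a)).card : ℝ) ≤ κ * (Nat.totient d : ℝ) := by
  have hφ : (0 : ℝ) < (Fintype.card (ZMod d)ˣ : ℝ) := card_pos
  rw [mu, div_le_iff₀ hφ, ZMod.card_units_eq_totient] at hμ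
  refine le_trans ?_ hμ
  have h1 : ((range d).filter (fun a => a.Coprime d ∧ P a)).card ≤ (univ.filter (fun z : (ZMod d)ˣ => Q z)).card := by
    refine card_le_card_of_injOn (ucl d) ?_ ?_
    · intro a ha
      have ha' := mem_filter.1 (mem_coe.1 ha)
      exact mem_coe.2 (mem_filter.2 ⟨mem_univ _, h a ha'.2.1 ha'.2.2⟩)
    · intro a ha b hb hab
      have ha' := mem_filter.1 (mem_coe.1 ha)
      have hb' := mem_filter.1 (mem_coe.1 hb)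
      have h2 := congrArg (fun u : (ZMod d)ˣ => (u : ZMod d)) hab
      simp only [ucl_val ha'.2.1, ucl_val hb'.2.1] at h2
      have h3 := (ZMod.natCast_eq_natCast_iff' a b d).1 h2
      rwa [Nat.mod_eq_of_lt (mem_range.1 ha'.1), Nat.mod_eq_of_lt (mem_range.1 hb'.1)] at h3
  have h2 : {z : (ZMod d)ˣ | Q z}.ncard = (univ.filter (fun z : (ZMod d)ˣ => Q z)).card := by
    rw [← Set.ncard_coe_finset]
    congr 1
    ext z
    simp
  rw [h2]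
  exact_mod_cast h1

open Classical in
/-- one modulus class: finitely many `K` at once -/
theorem many (θ c ε κs : ℝ) (L : ℕ) (hθ : 1 / 4 < θ) (hθ1 : θ ≤ 7 / 20) (hc : 0 < c) (hε : 0 < ε) (hκs : 0 < κs) :
    ∃ c' : ℝ, 0 < c' ∧ ∃ d0 : ℕ, ∀ d : ℕ, d0 ≤ d → ∀ [NeZero d], BA θ c d → ∀ c'' : ℝ, c'' ≤ c' →
      (((range d).filter (fun a => a.Coprime d ∧ ∃ K : ℕ, 11 ≤ K ∧ K ≤ L ∧ ¬ Rp d (4 * θ + ε) c'' K a)).card : ℝ) ≤
        κs * (Nat.totient d : ℝ) := by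
  have hL : (0 : ℝ) < (L : ℝ) + 1 := by positivity
  have h1 : ∀ K : ℕ, ∃ c' : ℝ, 0 < c' ∧ ∃ d0 : ℕ, 11 ≤ K → ∀ d : ℕ, d0 ≤ d → ∀ [NeZero d], BA θ c d →
      mu {z : (ZMod d)ˣ | Unr d (4 * θ + ε) c' K z} ≤ κs / (L + 1) := by
    intro K
    by_cases hK : 11 ≤ K
    · obtain ⟨c', hc', d0, h2⟩ := main_BA θ c ε (κs / (L + 1)) (K - 1) hθ hθ1 hc hε (by positivity) (by omega)
      rw [show K - 1 + 1 = K by omega] at h2
      exact ⟨c', hc', d0, fun _ => h2⟩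
    · exact ⟨1, one_pos, 0, fun h => absurd h hK⟩
  choose c' hc' d0 h2 using h1
  obtain ⟨cm, hcm, hcm'⟩ : ∃ cm : ℝ, 0 < cm ∧ ∀ K ∈ range (L + 1), cm ≤ c' K := by
    refine ⟨(range (L + 1)).inf' ⟨0, mem_range.2 (Nat.succ_pos _)⟩ c', ?_, fun K hK => inf'_le _ hK⟩
    rw [lt_inf'_iff]
    exact fun K _ => hc' K
  refine ⟨cm, hcm, ∑ K ∈ range (L + 1), d0 K, ?_⟩
  intro d hd _ hBA c'' hc''
  have hd1 : 1 ≤ d := NeZero.one_le
  refine card_le_of_mu (Q := fun z => ∃ K ∈ (range (L + 1)).filter (fun K => 11 ≤ K), Unr d (4 * θ + ε) (c' K) K z) ?_ ?_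
  · rintro a ha ⟨K, hK1, hK2, hK3⟩
    have h3 : K ∈ range (L + 1) := mem_range.2 (by omega)
    exact ⟨K, mem_filter.2 ⟨h3, hK1⟩, unr_mono hd1 le_rfl (hc''.trans (hcm' K h3)) (unr_of_rp (by omega) ha hK3)⟩
  · have h3 : ∀ s : Finset ℕ, mu {z : (ZMod d)ˣ | ∃ K ∈ s, Unr d (4 * θ + ε) (c' K) K z} ≤
        ∑ K ∈ s, mu {z : (ZMod d)ˣ | Unr d (4 * θ + ε) (c' K) K z} := by
      intro s
      induction s using Finset.induction_on with
      | empty =>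
        rw [sum_empty]
        have h4 : {z : (ZMod d)ˣ | ∃ K ∈ (∅ : Finset ℕ), Unr d (4 * θ + ε) (c' K) K z} = ∅ := by
          ext z
          simp
        rw [h4, mu_empty]
      | insert K s hK ih =>
        rw [sum_insert hK]
        refine (mu_cov2 (B := {z : (ZMod d)ˣ | Unr d (4 * θ + ε) (c' K) K z})
          (C := {z : (ZMod d)ˣ | ∃ K ∈ s, Unr d (4 * θ + ε) (c' K) K z}) ?_).trans (add_le_add le_rfl ih)
        rintro z ⟨K', hK', hz⟩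
        rcases mem_insert.1 hK' with h5 | h5
        · left
          rw [← h5]
          exact hz
        · exact Or.inr ⟨K', h5, hz⟩
    refine (h3 _).trans ?_
    have h4 : ∀ K ∈ (range (L + 1)).filter (fun K => 11 ≤ K), mu {z : (ZMod d)ˣ | Unr d (4 * θ + ε) (c' K) K z} ≤ κs / (L + 1) := by
      intro K hK
      obtain ⟨hK1, hK2⟩ := mem_filter.1 hK
      have h5 : d0 K ≤ ∑ K ∈ range (L + 1), d0 K := single_le_sum (f := d0) (fun _ _ => Nat.zero_le _) hK1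
      exact h2 K hK2 d (h5.trans hd) hBA
    refine (sum_le_sum h4).trans ?_
    rw [sum_const, nsmul_eq_mul]
    have h5 : (((range (L + 1)).filter (fun K => 11 ≤ K)).card : ℝ) ≤ (L : ℝ) + 1 := by
      have h6 : ((range (L + 1)).filter (fun K => 11 ≤ K)).card ≤ (range (L + 1)).card := card_filter_le _ _
      rw [card_range] at h6
      exact_mod_cast h6
    calc (((range (L + 1)).filter (fun K => 11 ≤ K)).card : ℝ) * (κs / (L + 1)) ≤ ((L : ℝ) + 1) * (κs / (L + 1)) :=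
          mul_le_mul_of_nonneg_right h5 (by positivity)
      _ = κs := by field_simp

open Classical in
/-- **Exactly `K` primes in almost all classes.** -/
theorem exactly_K (L : ℕ) (ε κ : ℝ) (hε : 0 < ε) (hκ : 0 < κ) : ∃ c : ℝ, 0 < c ∧ ∃ d0 : ℕ, ∀ d : ℕ, d0 ≤ d → ∀ E : ℝ,
    (E = 4 / 3 + ε ∨ (E = 1 + ε ∧ ∃ e r : ℕ, d = e * r ∧ (e : ℝ) ≤ (d : ℝ) ^ c ∧ ∀ p : ℕ, p.Prime → ¬ p ^ 3 ∣ r)) →
      (((range d).filter (fun a => a.Coprime d ∧ ∃ K : ℕ, 11 ≤ K ∧ K ≤ L ∧ ¬ Rp d E c K a)).card : ℝ) ≤ κ * (Nat.totient d : ℝ) := by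
  obtain ⟨ε', hε'⟩ : ∃ ε' : ℝ, ε' = min ε (1 / 100) := ⟨_, rfl⟩
  have e0 : 0 < ε' := by
    rw [hε']
    exact lt_min hε (by norm_num)
  have e1 : ε' ≤ ε := hε' ▸ min_le_left _ _
  have e2 : ε' ≤ 1 / 100 := hε' ▸ min_le_right _ _
  obtain ⟨c1, hc1, d1, h1⟩ := ba_third (1 / 3 + ε' / 8) (by linarith)
  obtain ⟨c2, hc2, θ', hθ', d2, h2⟩ := ba_quarter (1 / 4 + ε' / 8) (by linarith)
  obtain ⟨c3, hc3, d3, h3⟩ := many (1 / 3 + ε' / 8) c1 (ε' / 2) κ L (by linarith) (by linarith) hc1 (by linarith) hκ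
  obtain ⟨c4, hc4, d4, h4⟩ := many (1 / 4 + ε' / 8) c2 (ε' / 2) κ L (by linarith) (by linarith) hc2 (by linarith) hκ
  refine ⟨min θ' (min c3 c4), lt_min hθ' (lt_min hc3 hc4), d1 + d2 + d3 + d4 + 1, ?_⟩
  intro d hd E hE
  have hne : NeZero d := ⟨by omega⟩
  have hd1 : 1 ≤ d := by omega
  have hdR : (1 : ℝ) ≤ d := by exact_mod_cast hd1
  have hmono : ∀ E' : ℝ, E' ≤ E → ∀ c'' : ℝ, (((range d).filter (fun a => a.Coprime d ∧ ∃ K : ℕ, 11 ≤ K ∧ K ≤ L ∧ ¬ Rp d E c'' K a)).card : ℝ) ≤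
      (((range d).filter (fun a => a.Coprime d ∧ ∃ K : ℕ, 11 ≤ K ∧ K ≤ L ∧ ¬ Rp d E' c'' K a)).card : ℝ) := by
    intro E' hE' c''
    have h5 : (range d).filter (fun a => a.Coprime d ∧ ∃ K : ℕ, 11 ≤ K ∧ K ≤ L ∧ ¬ Rp d E c'' K a) ⊆
        (range d).filter (fun a => a.Coprime d ∧ ∃ K : ℕ, 11 ≤ K ∧ K ≤ L ∧ ¬ Rp d E' c'' K a) := by
      intro a ha
      obtain ⟨ha1, ha2, K, hK1, hK2, hK3⟩ := mem_filter.1 ha
      refine mem_filter.2 ⟨ha1, ha2, K, hK1, hK2, fun h => hK3 ?_⟩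
      obtain ⟨n, n1, n2, n3, n4⟩ := h
      exact ⟨n, n1, n2, n3, n4.trans (Real.rpow_le_rpow_of_exponent_le hdR hE')⟩
    exact_mod_cast card_le_card h5
  rcases hE with rfl | ⟨rfl, e, r, her, he, hr⟩
  · refine (hmono (4 * (1 / 3 + ε' / 8) + ε' / 2) (by linarith) _).trans ?_
    exact h3 d (by omega) (h1 d (by omega)) _ ((min_le_right _ _).trans (min_le_left _ _))
  · refine (hmono (4 * (1 / 4 + ε' / 8) + ε' / 2) (by linarith) _).trans ?_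
    refine h4 d (by omega) (h2 d (by omega) ⟨e, r, her, he.trans ?_, hr⟩) _ ((min_le_right _ _).trans (min_le_right _ _))
    exact Real.rpow_le_rpow_of_exponent_le hdR (min_le_left _ _)

end Pool.Agent.Lib.MP_42948a_nt.TS
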